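/-
Definitions for the local estimate for general families of monomials (part A of the toric case
of MP_e0d435_ag). Every point j has its own family ph j of monomials of degree K in m homogeneous
coordinates, indexed by the same finite set A.
-/
import Pool.Agent.Lib_MP_e0d435_ag.Basic

open Finset MeasureTheory Complex
open scoped ENNReal ContDiff

namespace GTor

open GPn

section
variable {A : Type} [Fintype A] [DecidableEq A] {m K : ℕ}

/-- representing vector of the functional (derivative of order al at x) for the family ph -/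
noncomputable def evA (ph : A → Ex m K) (al : Fin m → ℕ) (x : Pt m) : EuclideanSpace ℂ A :=
  WithLp.toLp 2 fun a => (starRingEnd ℂ) (dm al (ph a).1 x)

/-- derivative of order al at x of the function with coefficients F in the family ph -/
noncomputable def pA (ph : A → Ex m K) (F : EuclideanSpace ℂ A) (al : Fin m → ℕ) (x : Pt m) : ℂ :=
  ∑ a, F a * dm al (ph a).1 x

/-- absolute value of the determinant -/
noncomputable def DA (ph : A → A → Ex m K) (X : A → Pt m) : ℝ :=
  ‖(Matrix.of fun j a => dm 0 (ph j a).1 (X j)).det‖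

/-- size of the evaluation at y on the subspace W -/
noncomputable def bA (ph : A → Ex m K) (W : Submodule ℂ (EuclideanSpace ℂ A)) (y : Pt m) : ℝ :=
  ‖W.starProjection (evA ph 0 y)‖

/-- size of the derivatives of order l at y on the subspace W -/
noncomputable def JA (ph : A → Ex m K) (l : ℕ) (W : Submodule ℂ (EuclideanSpace ℂ A))
    (y : Pt m) : ℝ :=
  ∑ al : Ex m l, ‖W.starProjection (evA ph al.1 y)‖

/-- functions vanishing at the points number 0, ..., i-1 (in the order s) -/
noncomputable def WA (ph : A → A → Ex m K) {N : ℕ} (X : A → Pt m) (s : Fin N → A) (i : Fin N) :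
    Submodule ℂ (EuclideanSpace ℂ A) :=
  (Submodule.span ℂ {v | ∃ j : Fin N, j < i ∧ v = evA (ph (s j)) 0 (X (s j))})ᗮ

/-- the functionals F -> sum_al conj (d^al f_a (y)) d^al F (y) -/
noncomputable def fv (ph : A → Ex m K) (l : ℕ) (a : A) (y : Pt m) : EuclideanSpace ℂ A :=
  ∑ al : Ex m l, (dm al.1 (ph a).1 y) • evA ph al.1 y

/-- the function with coefficients F as an element of V m K -/
noncomputable def emb (ph : A → Ex m K) (F : EuclideanSpace ℂ A) : V m K :=
  WithLp.toLp 2 fun b => ∑ a, if ph a = b then F a / (bw b.1 : ℂ) else 0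

/-- data for the local estimate -/
structure LocData (A : Type) [Fintype A] [DecidableEq A] (m K l R e : ℕ) where
  ph : A → A → Ex m K
  inj : ∀ j, Function.Injective (ph j)
  Y : A → Set (Pt m)
  cpt : ∀ j, IsCompact (Y j)
  ann : ∀ j, Y j ⊆ Ann m
  nu : A → Ex m (K - l)
  nz : ∀ j, ∀ y ∈ Y j, ∏ i, y i ^ (nu j).1 i ≠ 0
  hl : 1 ≤ l
  hlK : l ≤ K
  cnt : ∀ j, R ≤ Nat.card {a : A // ∀ i, (nu j).1 i ≤ (ph j a).1 i}
  hRN : R < Fintype.card A
  he : 4 * e ≤ R

/-- good configurations -/
def GdL {l R e : ℕ} (D : LocData A m K l R e) (s0 : ℝ) : Set (A → Pt m) :=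
  {X | (∀ j, X j ∈ D.Y j) ∧ ∀ F : EuclideanSpace ℂ A, ‖F‖ = 1 →
    {j : A | ∀ al : Ex m l, ‖pA (D.ph j) F al.1 (X j)‖ < s0}.ncard ≤ e}

end

end GTor
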