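/- piece AB: basic facts for families -/
import Pool.Agent.Lib_MP_e0d435_ag_T.ADefs

open Finset MeasureTheory Complex
open scoped ENNReal ContDiff

namespace GTor
open GPn

variable {A : Type} [Fintype A] [DecidableEq A] {m K : ℕ}

omit [DecidableEq A] in
private theorem ABasic_inner (ph : A → Ex m K) (al : Fin m → ℕ) (x : Pt m)
    (F : EuclideanSpace ℂ A) : inner ℂ (evA ph al x) F = pA ph F al x := by
  simp only [PiLp.inner_apply, evA, pA, RCLike.inner_apply]
  refine Finset.sum_congr rfl fun a _ => ?_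
  simp

theorem inner_evA (ph : A → Ex m K) (al : Fin m → ℕ) (x : Pt m) (F : EuclideanSpace ℂ A) :
    inner ℂ (evA ph al x) F = pA ph F al x := ABasic_inner ph al x F

theorem continuous_evA (ph : A → Ex m K) (al : Fin m → ℕ) :
    Continuous (fun x : Pt m => evA ph al x) := by
  unfold evA
  refine (PiLp.continuous_toLp 2 _).comp ?_
  refine continuous_pi fun a => ?_
  have := continuous_dm al (ph a).1 (m := m)
  exact Complex.continuous_conj.comp this

theorem continuous_pA₂ (ph : A → Ex m K) (al : Fin m → ℕ) :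
    Continuous (fun p : EuclideanSpace ℂ A × Pt m => pA ph p.1 al p.2) := by
  unfold pA
  refine continuous_finsetSum _ fun a _ => ?_
  refine Continuous.mul ?_ ((continuous_dm al (ph a).1).comp continuous_snd)
  fun_prop

private theorem ABasic_cont (ph : A → Ex m K) (F : EuclideanSpace ℂ A) (al : Fin m → ℕ) :
    Continuous (fun x : Pt m => pA ph F al x) := by
  unfold pA
  refine continuous_finsetSum _ fun a _ => ?_
  exact continuous_const.mul (continuous_dm al (ph a).1)

theorem continuous_DA (ph : A → A → Ex m K) : Continuous (fun X : A → Pt m => DA ph X) := by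
  unfold DA
  refine Continuous.norm ?_
  refine Continuous.matrix_det ?_
  refine continuous_matrix fun j a => ?_
  simp only [Matrix.of_apply]
  exact (continuous_dm 0 (ph j a).1).comp (continuous_apply j)

private theorem ABasic_bw_ne (b : Ex m K) : (bw b.1 : ℂ) ≠ 0 := by
  have := bw_pos b.1
  rw [Ne, Complex.ofReal_eq_zero]
  exact this.ne'

theorem pd_emb (ph : A → Ex m K) (hph : Function.Injective ph) (F : EuclideanSpace ℂ A)
    (al : Fin m → ℕ) (x : Pt m) : pd (emb ph F) al x = pA ph F al x := by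
  unfold pd pA emb
  simp only [Finset.sum_mul]
  rw [Finset.sum_comm]
  refine Finset.sum_congr rfl fun a _ => ?_
  rw [Finset.sum_eq_single (ph a)]
  · rw [if_pos rfl]
    have := ABasic_bw_ne (ph a)
    field_simp
  · intro b _ hb
    rw [if_neg (Ne.symm hb), zero_mul]
  · intro h
    exact absurd (Finset.mem_univ _) h

/-- the norm of emb -/
private theorem ABasic_norm (ph : A → Ex m K) (hph : Function.Injective ph)
    (F : EuclideanSpace ℂ A) : ‖emb ph F‖ ^ 2 = ∑ a, ‖F a‖ ^ 2 / (bw (ph a).1) ^ 2 := by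
  rw [EuclideanSpace.norm_sq_eq]
  unfold emb
  have h1 : ∀ b : Ex m K, ‖∑ a, if ph a = b then F a / (bw b.1 : ℂ) else 0‖ ^ 2 =
      ∑ a, if ph a = b then ‖F a‖ ^ 2 / (bw b.1) ^ 2 else 0 := by
    intro b
    by_cases hb : ∃ a, ph a = b
    · obtain ⟨a0, ha0⟩ := hb
      rw [Finset.sum_eq_single a0, Finset.sum_eq_single a0, if_pos ha0, if_pos ha0, norm_div,
        div_pow, Complex.norm_real, Real.norm_eq_abs, sq_abs]
      · intro a _ ha
        rw [if_neg fun h => ha (hph (h.trans ha0.symm))]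
      · intro h; exact absurd (Finset.mem_univ _) h
      · intro a _ ha
        rw [if_neg fun h => ha (hph (h.trans ha0.symm))]
      · intro h; exact absurd (Finset.mem_univ _) h
    · push Not at hb
      rw [Finset.sum_eq_zero fun a _ => if_neg (hb a), Finset.sum_eq_zero fun a _ => if_neg (hb a)]
      simp
  change ∑ b : Ex m K, ‖∑ a, if ph a = b then F a / (bw b.1 : ℂ) else 0‖ ^ 2 = _
  simp only [h1]
  rw [Finset.sum_comm]
  refine Finset.sum_congr rfl fun a _ => ?_
  rw [Finset.sum_ite_eq]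
  simp

private theorem ABasic_one_le_bw (b : Ex m K) : 1 ≤ bw b.1 := by
  unfold bw
  rw [Real.one_le_sqrt]
  exact_mod_cast Nat.multinomial_pos _ _

theorem emb_norm_le (ph : A → Ex m K) (hph : Function.Injective ph) (F : EuclideanSpace ℂ A) :
    ‖emb ph F‖ ≤ ‖F‖ := by
  refine le_of_sq_le_sq ?_ (norm_nonneg _)
  rw [ABasic_norm ph hph, EuclideanSpace.norm_sq_eq]
  refine Finset.sum_le_sum fun a _ => ?_
  refine div_le_self (by positivity) ?_
  exact one_le_pow₀ (ABasic_one_le_bw (ph a))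

theorem emb_norm_ge (m K : ℕ) : ∃ c : ℝ, 0 < c ∧ ∀ (A : Type) [Fintype A] [DecidableEq A]
    (ph : A → Ex m K), Function.Injective ph → ∀ F : EuclideanSpace ℂ A,
    c * ‖F‖ ≤ ‖emb ph F‖ := by
  have hC : (0 : ℝ) < 1 + ∑ b : Ex m K, bw b.1 := by
    have : 0 ≤ ∑ b : Ex m K, bw b.1 := Finset.sum_nonneg fun b _ => (bw_pos b.1).le
    linarith
  refine ⟨(1 + ∑ b : Ex m K, bw b.1)⁻¹, inv_pos.2 hC, fun A _ _ ph hph F => ?_⟩
  refine le_of_sq_le_sq ?_ (norm_nonneg _)
  rw [ABasic_norm ph hph, mul_pow, EuclideanSpace.norm_sq_eq, Finset.mul_sum]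
  refine Finset.sum_le_sum fun a _ => ?_
  have h1 : bw (ph a).1 ≤ 1 + ∑ b : Ex m K, bw b.1 := by
    have h0 : bw (ph a).1 ≤ ∑ b : Ex m K, bw b.1 :=
      Finset.single_le_sum (f := fun b : Ex m K => bw b.1) (fun b _ => (bw_pos b.1).le)
        (Finset.mem_univ (ph a))
    linarith
  have h2 : (bw (ph a).1) ^ 2 ≤ (1 + ∑ b : Ex m K, bw b.1) ^ 2 :=
    pow_le_pow_left₀ (bw_pos _).le h1 2
  have h3 : 0 < (bw (ph a).1) ^ 2 := pow_pos (bw_pos _) 2
  rw [inv_pow, inv_mul_eq_div]
  exact div_le_div_of_nonneg_left (by positivity) h3 h2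

private theorem ABasic_dm_smul (b : Ex m K) (t : ℂ) (x : Pt m) :
    dm 0 b.1 (t • x) = t ^ K * dm 0 b.1 x := by
  rw [dm_smul]
  have : ∑ r, (b.1 r - (0 : Fin m → ℕ) r) = K := by simpa using b.2
  rw [this]

theorem DA_smul_at (ph : A → A → Ex m K) (X : A → Pt m) (j : A) (t : ℂ) :
    DA ph (Function.update X j (t • X j)) = ‖t‖ ^ K * DA ph X := by
  have h1 : (Matrix.of fun j' a => dm 0 (ph j' a).1 (Function.update X j (t • X j) j')) =
      (Matrix.of fun j' a => dm 0 (ph j' a).1 (X j')).updateRow j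
        ((t ^ K) • (Matrix.of fun j' a => dm 0 (ph j' a).1 (X j')) j) := by
    ext i a
    by_cases hij : i = j
    · subst hij
      simp only [Matrix.of_apply, Function.update_self, Matrix.updateRow_self, Pi.smul_apply,
        ABasic_dm_smul, smul_eq_mul]
    · simp only [Matrix.of_apply, Function.update_of_ne hij, Matrix.updateRow_ne hij]
  unfold DA
  rw [h1, Matrix.det_updateRow_smul, Matrix.updateRow_eq_self, norm_mul, norm_pow]

theorem measurableSet_GdL {l R e : ℕ} (D : LocData A m K l R e) (s0 : ℝ) :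
    MeasurableSet (GdL D s0) := by
  have h1 : IsClosed {X : A → Pt m | ∀ j, X j ∈ D.Y j} := by
    simp only [Set.ofPred_forall]
    exact isClosed_iInter fun j => (D.cpt j).isClosed.preimage (continuous_apply j)
  have h2 : ∀ F : EuclideanSpace ℂ A,
      IsOpen {X : A → Pt m | e < {j : A | ∀ al : Ex m l, ‖pA (D.ph j) F al.1 (X j)‖ < s0}.ncard} := by
    intro F
    have h3 : {X : A → Pt m | e < {j : A | ∀ al : Ex m l, ‖pA (D.ph j) F al.1 (X j)‖ < s0}.ncard} =
        ⋃ S ∈ {S : Finset A | e < S.card},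
          {X : A → Pt m | ∀ j ∈ S, ∀ al : Ex m l, ‖pA (D.ph j) F al.1 (X j)‖ < s0} := by
      ext X
      simp only [Set.mem_ofPred_eq, Set.mem_iUnion, exists_prop]
      constructor
      · intro h
        refine ⟨(Set.toFinite {j : A | ∀ al : Ex m l,
          ‖pA (D.ph j) F al.1 (X j)‖ < s0}).toFinset, ?_, ?_⟩
        · rwa [← Set.ncard_eq_toFinset_card]
        · intro j hj
          rwa [Set.Finite.mem_toFinset] at hj
      · rintro ⟨S, hS, hX⟩
        refine lt_of_lt_of_le hS ?_
        rw [← Set.ncard_coe_finset]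
        exact Set.ncard_le_ncard (fun j hj => hX j hj) (Set.toFinite _)
    rw [h3]
    refine isOpen_biUnion fun S _ => ?_
    have h4 : {X : A → Pt m | ∀ j ∈ S, ∀ al : Ex m l, ‖pA (D.ph j) F al.1 (X j)‖ < s0} =
        ⋂ j ∈ S, ⋂ al : Ex m l, {X : A → Pt m | ‖pA (D.ph j) F al.1 (X j)‖ < s0} := by
      ext X
      simp only [Set.mem_ofPred_eq, Set.mem_iInter]
    rw [h4]
    refine isOpen_biInter_finset fun j _ => isOpen_iInter_of_finite fun al => ?_
    exact isOpen_lt (((ABasic_cont (D.ph j) F al.1).comp (continuous_apply j)).norm)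
      continuous_const
  have h5 : GdL D s0 = {X : A → Pt m | ∀ j, X j ∈ D.Y j} ∩
      (⋃ F ∈ {F : EuclideanSpace ℂ A | ‖F‖ = 1},
        {X : A → Pt m | e < {j : A | ∀ al : Ex m l,
          ‖pA (D.ph j) F al.1 (X j)‖ < s0}.ncard})ᶜ := by
    ext X
    simp only [GdL, Set.mem_ofPred_eq, Set.mem_inter_iff, Set.mem_compl_iff, Set.mem_iUnion,
      exists_prop, not_exists, not_and, not_lt]
  rw [h5]
  exact h1.measurableSet.inter (isOpen_biUnion fun F _ => h2 F).measurableSet.compl

end GTor
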