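/- piece AA: from homogeneous coordinates to affine coordinates -/
import Pool.Agent.Lib_MP_e0d435_ag_T.ABasic

open Finset MeasureTheory Complex
open scoped ENNReal ContDiff

namespace GTor
open GPn

/-- insert the numbers lambda_j at the place zero -/
private def AAff_ins {A : Type} {n : ℕ} (p : (A → ℂ) × (A → Fin n → ℂ)) : A → Pt (n + 1) :=
  fun j => (0 : Fin (n + 1)).insertNth (p.1 j) (p.2 j)

private theorem AAff_cons {n : ℕ} (a : ℂ) (y : Fin n → ℂ) :
    ((0 : Fin (n + 1)).insertNth a y : Pt (n + 1)) = Fin.cons a y := by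
  rw [Fin.insertNth_zero]
  rfl

/-- the map X -> (places 0, other places) is measure preserving -/
private theorem AAff_mp {A : Type} [Fintype A] {n : ℕ} :
    MeasurePreserving (fun X : A → Pt (n + 1) =>
      ((fun j => X j 0 : A → ℂ), (fun j l => X j (Fin.succ l) : A → Fin n → ℂ)))
      volume volume := by
  have h1 : MeasurePreserving (fun (X : A → Fin (n + 1) → ℂ) (j : A) =>
      MeasurableEquiv.piFinSuccAbove (fun _ : Fin (n + 1) => ℂ) 0 (X j)) volume volume :=
    volume_preserving_pi fun j => volume_preserving_piFinSuccAbove (fun _ => ℂ) 0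
  have h2 := volume_measurePreserving_arrowProdEquivProdArrow ℂ (Fin n → ℂ) A
  exact h2.comp h1

private theorem AAff_meas {A : Type} {n : ℕ} : Measurable (AAff_ins (A := A) (n := n)) := by
  refine measurable_pi_iff.2 fun j => ?_
  have h := (MeasurableEquiv.piFinSuccAbove (fun _ : Fin (n + 1) => ℂ) 0).symm.measurable
  have h2 : Measurable (fun p : (A → ℂ) × (A → Fin n → ℂ) => (p.1 j, p.2 j)) :=
    ((measurable_pi_apply j).comp measurable_fst).prodMk
      ((measurable_pi_apply j).comp measurable_snd)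
  exact h.comp h2

private theorem AAff_DA {A : Type} [Fintype A] [DecidableEq A] {m K : ℕ} (ph : A → A → Ex m K)
    (la : A → ℂ) (X : A → Pt m) :
    DA ph (fun j => la j • X j) = (∏ j, ‖la j‖ ^ K) * DA ph X := by
  have h1 : (Matrix.of fun j a => dm 0 (ph j a).1 (la j • X j)) =
      Matrix.of fun j a => (la j) ^ K * (Matrix.of fun j a => dm 0 (ph j a).1 (X j)) j a := by
    ext j a
    simp only [Matrix.of_apply, dm_smul]
    have : ∑ r, ((ph j a).1 r - (0 : Fin m → ℕ) r) = K := by simpa using (ph j a).2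
    rw [this]
  rw [DA, h1, Matrix.det_mul_column, norm_mul, norm_prod, DA]
  simp only [norm_pow]

/-- scaling of the weight -/
private theorem AAff_pt {c k y : ℝ} (hc : 0 ≤ c) (hk : 0 < k) :
    (ENNReal.ofReal y) ^ (-(2 * c)) =
      (ENNReal.ofReal k) ^ (2 * c) * (ENNReal.ofReal (k * y)) ^ (-(2 * c)) := by
  have h1 : ENNReal.ofReal k ≠ 0 := by simpa using hk
  have h2 : ENNReal.ofReal k ≠ ⊤ := ENNReal.ofReal_ne_top
  have h3 : (ENNReal.ofReal k) ^ (2 * c) ≠ 0 := by
    rw [Ne, ENNReal.rpow_eq_zero_iff]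
    rintro (⟨h, _⟩ | ⟨h, _⟩)
    · exact h1 h
    · exact h2 h
  have h4 : (ENNReal.ofReal k) ^ (2 * c) ≠ ⊤ := by
    rw [Ne, ENNReal.rpow_eq_top_iff]
    rintro (⟨h, _⟩ | ⟨h, _⟩)
    · exact h1 h
    · exact h2 h
  rw [ENNReal.ofReal_mul hk.le, ENNReal.rpow_neg, ENNReal.rpow_neg,
    ENNReal.mul_rpow_of_nonneg _ _ (by positivity : (0 : ℝ) ≤ 2 * c),
    ENNReal.mul_inv (Or.inl h3) (Or.inl h4), ← mul_assoc, ENNReal.mul_inv_cancel h3 h4, one_mul]

theorem aff_of_cone {A : Type} [Fintype A] [DecidableEq A] (n K : ℕ) (ph : A → A → Ex (n + 1) K)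
    (c : ℝ) (hc : 0 ≤ c) (rad : ℝ) (G : Set (A → Pt n)) (hG : MeasurableSet G)
    (hGb : ∀ y ∈ G, ∀ j i, ‖y j i‖ ≤ rad) (Gd : Set (A → Pt (n + 1)))
    (h : ∀ X : A → Pt (n + 1), (∀ j, X j ∈ Ann (n + 1)) → (∀ j, X j 0 ≠ 0) →
      (fun j i => X j (Fin.succ i) / X j 0) ∈ G → X ∈ Gd)
    (hfin : ∫⁻ X in Gd, (ENNReal.ofReal (DA ph X)) ^ (-(2 * c)) < ⊤) :
    ∫⁻ y in G, (ENNReal.ofReal (DA ph (fun j => (Fin.cons 1 (y j) : Pt (n + 1))))) ^ (-(2 * c))
      < ⊤ := by
  classical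
  obtain ⟨F, hF⟩ : ∃ F : (A → Pt (n + 1)) → ℝ≥0∞,
      F = fun X => (ENNReal.ofReal (DA ph X)) ^ (-(2 * c)) := ⟨_, rfl⟩
  have hFm : Measurable F := by
    rw [hF]
    exact (ENNReal.measurable_ofReal.comp (continuous_DA ph).measurable).pow_const _
  have hq : ∀ j : A, Continuous fun y : A → Pt n => 1 + nsq (y j) := fun j => by
    unfold nsq
    fun_prop
  -- pieces
  obtain ⟨Gs, hGs⟩ : ∃ Gs : (A → ℕ) → Set (A → Pt n), Gs = fun s =>
      {y | y ∈ G ∧ ∀ j, (2 : ℝ) ^ s j ≤ 1 + nsq (y j) ∧ 1 + nsq (y j) < 2 ^ (s j + 1)} := ⟨_, rfl⟩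
  have hGsm : ∀ s, MeasurableSet (Gs s) := by
    intro s
    have h1 : Gs s = G ∩ ⋂ j, ({y : A → Pt n | (2 : ℝ) ^ s j ≤ 1 + nsq (y j)} ∩
        {y : A → Pt n | 1 + nsq (y j) < 2 ^ (s j + 1)}) := by
      rw [hGs]
      ext y
      simp only [Set.mem_setOf_eq, Set.mem_inter_iff, Set.mem_iInter]
    rw [h1]
    refine hG.inter (MeasurableSet.iInter fun j => MeasurableSet.inter ?_ ?_)
    · exact (isClosed_le continuous_const (hq j)).measurableSet
    · exact (isOpen_lt (hq j) continuous_const).measurableSet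
  obtain ⟨S, hS⟩ : ∃ S : ℕ, 1 + n * rad ^ 2 < (2 : ℝ) ^ S := pow_unbounded_of_one_lt _ one_lt_two
  have hcover : G ⊆ ⋃ s : {s : A → ℕ // s ∈ (Fintype.piFinset fun _ : A => Finset.range S)},
      Gs s.1 := by
    intro y hy
    have h1 : ∀ j, ∃ k : ℕ, (2 : ℝ) ^ k ≤ 1 + nsq (y j) ∧ 1 + nsq (y j) < 2 ^ (k + 1) :=
      fun j => exists_nat_pow_near (by have := nsq_nonneg (y j); linarith) one_lt_two
    choose k hk using h1
    simp only [Set.mem_iUnion]
    refine ⟨⟨k, ?_⟩, ?_⟩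
    · rw [Fintype.mem_piFinset]
      intro j
      rw [Finset.mem_range]
      have h2 : nsq (y j) ≤ n * rad ^ 2 := by
        unfold nsq
        calc ∑ i : Fin n, ‖y j i‖ ^ 2 ≤ ∑ _i : Fin n, rad ^ 2 :=
              Finset.sum_le_sum fun i _ => pow_le_pow_left₀ (norm_nonneg _) (hGb y hy j i) 2
          _ = n * rad ^ 2 := by simp
      have h3 : (2 : ℝ) ^ k j < 2 ^ S := lt_of_le_of_lt (hk j).1 (by linarith)
      exact (pow_lt_pow_iff_right₀ one_lt_two).1 h3
    · rw [hGs]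
      exact ⟨hy, hk⟩
  suffices hpiece : ∀ s : A → ℕ, ∫⁻ y in Gs s,
      F (fun j => (Fin.cons 1 (y j) : Pt (n + 1))) < ⊤ by
    have h1 : ∫⁻ y in G, F (fun j => (Fin.cons 1 (y j) : Pt (n + 1))) < ⊤ := by
      refine lt_of_le_of_lt (lintegral_mono_set hcover) ?_
      refine lt_of_le_of_lt (lintegral_iUnion_le _ _) ?_
      rw [tsum_fintype, ENNReal.sum_lt_top]
      exact fun s _ => hpiece s.1
    rw [hF] at h1
    exact h1
  intro s
  -- the auxiliary function on the product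
  obtain ⟨As, hAs⟩ : ∃ As : Set (A → ℂ), As = {la | ∀ j, 1 < ‖la j‖ ^ 2 * 2 ^ s j ∧
      ‖la j‖ ^ 2 * 2 ^ s j < 2} := ⟨_, rfl⟩
  have hAo : IsOpen As := by
    have h1 : As = ⋂ j, ({la : A → ℂ | 1 < ‖la j‖ ^ 2 * 2 ^ s j} ∩
        {la : A → ℂ | ‖la j‖ ^ 2 * 2 ^ s j < 2}) := by rw [hAs]; ext x; simp
    rw [h1]
    refine isOpen_iInter_of_finite fun j => IsOpen.inter ?_ ?_
    · exact isOpen_lt continuous_const (by fun_prop)
    · exact isOpen_lt (by fun_prop) continuous_const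
  have hAne : As.Nonempty := by
    refine ⟨fun j => ((Real.sqrt (3 / 2 / 2 ^ s j) : ℝ) : ℂ), ?_⟩
    rw [hAs]
    intro j
    have h1 : (0 : ℝ) < 2 ^ s j := by positivity
    rw [Complex.norm_real, Real.norm_eq_abs, sq_abs, Real.sq_sqrt (by positivity),
      div_mul_cancel₀ _ h1.ne']
    norm_num
  have hA0 : ∀ la ∈ As, ∀ j, la j ≠ 0 := by
    intro la hla j h0
    rw [hAs] at hla
    have := (hla j).1
    rw [h0, norm_zero] at this
    norm_num at this
  obtain ⟨E, hE⟩ : ∃ E : Set ((A → ℂ) × (A → Fin n → ℂ)),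
      E = {p | p.1 ∈ As ∧ (fun j i => p.2 j i / p.1 j) ∈ Gs s} := ⟨_, rfl⟩
  have hEm : MeasurableSet E := by
    rw [hE]
    refine MeasurableSet.inter (measurable_fst hAo.measurableSet) ?_
    have h1 : Measurable (fun p : (A → ℂ) × (A → Fin n → ℂ) =>
        (fun j i => p.2 j i / p.1 j : A → Pt n)) := by
      refine measurable_pi_iff.2 fun j => measurable_pi_iff.2 fun i => ?_
      fun_prop
    exact h1 (hGsm s)
  obtain ⟨H, hH⟩ : ∃ H : (A → ℂ) × (A → Fin n → ℂ) → ℝ≥0∞,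
      H = E.indicator fun p => F (AAff_ins p) := ⟨_, rfl⟩
  have hHm : Measurable H := by
    rw [hH]
    exact (hFm.comp AAff_meas).indicator hEm
  have hHfin : ∫⁻ p, H p ∂(volume.prod volume) < ⊤ := by
    have h1 := (AAff_mp (A := A) (n := n)).lintegral_comp hHm
    have h2 : ∫⁻ p, H p ∂(volume.prod volume) = ∫⁻ p, H p := rfl
    rw [h2, ← h1]
    have h3 : MeasurableSet ((fun X : A → Pt (n + 1) =>
      ((fun j => X j 0 : A → ℂ), (fun j l => X j (Fin.succ l) : A → Fin n → ℂ))) ⁻¹' E) :=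
      (AAff_mp (A := A) (n := n)).measurable hEm
    have h4 : ∫⁻ X in ((fun X : A → Pt (n + 1) =>
      ((fun j => X j 0 : A → ℂ), (fun j l => X j (Fin.succ l) : A → Fin n → ℂ))) ⁻¹' E), F X ≤
        ∫⁻ X in Gd, F X := by
      refine lintegral_mono_set fun X hX => ?_
      rw [Set.mem_preimage, hE] at hX
      obtain ⟨hX1, hX2⟩ := hX
      simp only at hX1 hX2
      have hX0 : ∀ j, X j 0 ≠ 0 := hA0 _ hX1
      rw [hGs] at hX2
      refine h X (fun j => ?_) hX0 hX2.1
      have h5 := hX2.2 j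
      rw [hAs] at hX1
      have h6 := hX1 j
      simp only at h6
      have h7 : nsq (X j) = ‖X j 0‖ ^ 2 * (1 + nsq (fun i => X j (Fin.succ i) / X j 0)) := by
        unfold nsq
        rw [Fin.sum_univ_succ, mul_add, mul_one, Finset.mul_sum]
        congr 1
        refine Finset.sum_congr rfl fun i _ => ?_
        rw [norm_div, div_pow]
        have : ‖X j 0‖ ^ 2 ≠ 0 := pow_ne_zero 2 (norm_ne_zero_iff.2 (hX0 j))
        rw [← mul_div_assoc, mul_div_cancel_left₀ _ this]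
      have h8 : (0 : ℝ) ≤ ‖X j 0‖ ^ 2 := by positivity
      have h9 : ‖X j 0‖ ^ 2 * 2 ^ s j ≤
          ‖X j 0‖ ^ 2 * (1 + nsq (fun i => X j (Fin.succ i) / X j 0)) :=
        mul_le_mul_of_nonneg_left h5.1 h8
      have h10 : ‖X j 0‖ ^ 2 * (1 + nsq (fun i => X j (Fin.succ i) / X j 0)) ≤
          ‖X j 0‖ ^ 2 * 2 ^ (s j + 1) :=
        mul_le_mul_of_nonneg_left h5.2.le h8
      rw [pow_succ (2 : ℝ) (s j), ← mul_assoc] at h10
      show 1 ≤ nsq (X j) ∧ nsq (X j) ≤ 4
      rw [h7]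
      constructor
      · linarith [h6.1]
      · linarith [h6.2]
    refine lt_of_le_of_lt ?_ (lt_of_le_of_lt h4 (by rw [hF]; exact hfin))
    rw [← lintegral_indicator h3]
    refine lintegral_mono fun X => ?_
    by_cases hX : ((fun j => X j 0 : A → ℂ), (fun j l => X j (Fin.succ l) : A → Fin n → ℂ)) ∈ E
    · have hins : AAff_ins ((fun j => X j 0 : A → ℂ),
          (fun j l => X j (Fin.succ l) : A → Fin n → ℂ)) = X := by
        funext j
        show (0 : Fin (n + 1)).insertNth (X j 0) (fun l => X j (Fin.succ l)) = X j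
        exact (Fin.insertNth_eq_iff).2 ⟨rfl, rfl⟩
      simp only [hH]
      have hX' : X ∈ ((fun X : A → Pt (n + 1) => ((fun j => X j 0 : A → ℂ),
          (fun j l => X j (Fin.succ l) : A → Fin n → ℂ))) ⁻¹' E) := hX
      rw [Set.indicator_of_mem hX, Set.indicator_of_mem hX', hins]
    · simp only [hH]
      rw [Set.indicator_of_notMem hX]
      exact zero_le
  rw [lintegral_prod _ hHm.aemeasurable] at hHfin
  have hae : ∀ᵐ la : A → ℂ, ∫⁻ y, H (la, y) < ⊤ :=
    ae_lt_top hHm.lintegral_prod_right' hHfin.ne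
  obtain ⟨la, hlaA, hla⟩ := (Measure.dense_of_ae hae).exists_mem_open hAo hAne |>.imp
    fun x hx => And.intro hx.2 hx.1
  -- the scaling by la
  have hla0 : ∀ j, la j ≠ 0 := hA0 la hlaA
  let L : (A → Fin n → ℂ) ≃ₗ[ℝ] (A → Fin n → ℂ) :=
    { toFun := fun x j => la j • x j
      map_add' := fun x y => by funext j; simp [smul_add]
      map_smul' := fun r x => by
        funext j l
        simp only [Pi.smul_apply, RingHom.id_apply, smul_eq_mul, Complex.real_smul]
        ring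
      invFun := fun x j => (la j)⁻¹ • x j
      left_inv := fun x => by
        funext j
        simp only [smul_smul]
        rw [inv_mul_cancel₀ (hla0 j), one_smul]
      right_inv := fun x => by
        funext j
        simp only [smul_smul]
        rw [mul_inv_cancel₀ (hla0 j), one_smul] }
  have hLdet : LinearMap.det (L : (A → Fin n → ℂ) →ₗ[ℝ] (A → Fin n → ℂ)) ≠ 0 :=
    (LinearEquiv.isUnit_det' L).ne_zero
  have inst1 : (volume : Measure (Fin n → ℂ)).IsAddHaarMeasure :=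
    Measure.pi.isAddHaarMeasure (fun _ : Fin n => (volume : Measure ℂ))
  have inst2 : (volume : Measure (A → Fin n → ℂ)).IsAddHaarMeasure :=
    Measure.pi.isAddHaarMeasure (fun _ : A => (volume : Measure (Fin n → ℂ)))
  have hmap := Measure.map_linearMap_addHaar_eq_smul_addHaar
    (volume : Measure (A → Fin n → ℂ)) hLdet
  have hLcont : Continuous (fun x : A → Fin n → ℂ =>
      (L : (A → Fin n → ℂ) →ₗ[ℝ] (A → Fin n → ℂ)) x) :=
    LinearMap.continuous_of_finiteDimensional _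
  have hKpos : 0 < ∏ j, ‖la j‖ ^ K :=
    Finset.prod_pos fun j _ => pow_pos (norm_pos_iff.2 (hla0 j)) _
  have hHla : Measurable fun y => H (la, y) := hHm.comp measurable_prodMk_left
  have hbound : ∀ x ∈ Gs s, F (fun j => (Fin.cons 1 (x j) : Pt (n + 1))) =
      (ENNReal.ofReal (∏ j, ‖la j‖ ^ K)) ^ (2 * c) * H (la, L x) := by
    intro x hx
    have hmem : (la, L x) ∈ E := by
      rw [hE]
      refine ⟨hlaA, ?_⟩
      have h1 : (fun j i => (L x) j i / la j) = x := by
        funext j i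
        show (la j • x j) i / la j = x j i
        rw [Pi.smul_apply, smul_eq_mul, mul_div_cancel_left₀ _ (hla0 j)]
      show (fun j i => (L x) j i / la j) ∈ Gs s
      rw [h1]
      exact hx
    have hch : AAff_ins (la, L x) = fun j => la j • (Fin.cons 1 (x j) : Pt (n + 1)) := by
      funext j
      show (0 : Fin (n + 1)).insertNth (la j) (la j • x j) = la j • (Fin.cons 1 (x j) : Pt (n + 1))
      refine (Fin.insertNth_eq_iff).2 ⟨?_, ?_⟩
      · simp
      · funext l
        simp [Fin.removeNth]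
    simp only [hH]
    rw [Set.indicator_of_mem hmem, hch, hF]
    simp only
    rw [AAff_DA]
    exact AAff_pt hc hKpos
  have hcne : (ENNReal.ofReal (∏ j, ‖la j‖ ^ K)) ^ (2 * c) < ⊤ :=
    ENNReal.rpow_lt_top_of_nonneg (by positivity) ENNReal.ofReal_ne_top
  calc ∫⁻ x in Gs s, F (fun j => (Fin.cons 1 (x j) : Pt (n + 1)))
      = ∫⁻ x in Gs s, (ENNReal.ofReal (∏ j, ‖la j‖ ^ K)) ^ (2 * c) * H (la, L x) :=
        setLIntegral_congr_fun (hGsm s) hbound
    _ ≤ ∫⁻ x, (ENNReal.ofReal (∏ j, ‖la j‖ ^ K)) ^ (2 * c) * H (la, L x) :=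
        setLIntegral_le_lintegral _ _
    _ = (ENNReal.ofReal (∏ j, ‖la j‖ ^ K)) ^ (2 * c) * ∫⁻ x, H (la, L x) := by
        rw [lintegral_const_mul]
        exact hHla.comp hLcont.measurable
    _ = (ENNReal.ofReal (∏ j, ‖la j‖ ^ K)) ^ (2 * c) * ∫⁻ y, H (la, y)
          ∂(Measure.map (L : (A → Fin n → ℂ) →ₗ[ℝ] (A → Fin n → ℂ)) volume) := by
        rw [lintegral_map hHla hLcont.measurable]
        rfl
    _ < ⊤ := by
        rw [hmap, lintegral_smul_measure]
        exact ENNReal.mul_lt_top hcne (ENNReal.mul_lt_top ENNReal.ofReal_lt_top hla)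

end GTor
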