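/- piece AC: cofactor functions and many approximate zeros, for families -/
import Pool.Agent.Lib_MP_e0d435_ag_T.ABasic

open Finset MeasureTheory Complex
open scoped ENNReal ContDiff

namespace GTor
open GPn

variable {A : Type} [Fintype A] [DecidableEq A] {m K : ℕ}

/-- matrix with rows: functionals v i, evaluations of the family ph (ta t) at X (ta t) -/
noncomputable def RmA {R w : ℕ} (eq : Fin R ⊕ Fin w ≃ A) (v : Fin R → EuclideanSpace ℂ A)
    (ph : A → A → Ex m K) (ta : Fin w → A) (X : A → Pt m) : Matrix A A ℂ :=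
  Matrix.of fun r a => Sum.elim (fun i : Fin R => (starRingEnd ℂ) (v i a))
    (fun t : Fin w => dm 0 (ph (ta t) a).1 (X (ta t))) (eq.symm r)

/-- cofactor function belonging to the row t -/
noncomputable def CvA {R w : ℕ} (eq : Fin R ⊕ Fin w ≃ A) (v : Fin R → EuclideanSpace ℂ A)
    (ph : A → A → Ex m K) (ta : Fin w → A) (X : A → Pt m) (t : Fin w) : EuclideanSpace ℂ A :=
  WithLp.toLp 2 fun a => (RmA eq v ph ta X).adjugate a (eq (Sum.inr t))

private theorem ACof_updateRow {R w : ℕ} (eq : Fin R ⊕ Fin w ≃ A)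
    (v : Fin R → EuclideanSpace ℂ A)
    (ph : A → A → Ex m K) (ta ta' : Fin w → A) (X X' : A → Pt m) (t : Fin w)
    (h : ∀ t', t' ≠ t → ta t' = ta' t' ∧ X (ta t') = X' (ta t')) :
    RmA eq v ph ta' X' = (RmA eq v ph ta X).updateRow (eq (Sum.inr t))
      (fun a => dm 0 (ph (ta' t) a).1 (X' (ta' t))) := by
  ext r a
  by_cases hr : r = eq (Sum.inr t)
  · subst hr
    simp [RmA, Matrix.updateRow_self]
  · rw [Matrix.updateRow_ne hr]
    simp only [RmA, Matrix.of_apply]
    rcases h' : eq.symm r with i | t'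
    · simp
    · have ht : t' ≠ t := by
        rintro rfl
        exact hr (by rw [← h', Equiv.apply_symm_apply])
      obtain ⟨h1, h2⟩ := h t' ht
      simp only [Sum.elim_inr]
      rw [h2, h1]

private theorem ACof_det_updateRow_eq {n : Type*} [DecidableEq n] [Fintype n] (M : Matrix n n ℂ)
    (i : n) (v : n → ℂ) : (M.updateRow i v).det = ∑ a, M.adjugate a i * v a := by
  rw [Matrix.det_eq_sum_mul_adjugate_row (M.updateRow i v) i]
  refine Finset.sum_congr rfl fun a _ => ?_
  rw [Matrix.updateRow_self, Matrix.adjugate_apply, Matrix.adjugate_apply, Matrix.updateRow_idem,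
    mul_comm]

/-- the cofactor function of the row t does not depend on the row t -/
theorem CvA_congr {R w : ℕ} (eq : Fin R ⊕ Fin w ≃ A) (v : Fin R → EuclideanSpace ℂ A)
    (ph : A → A → Ex m K) (ta ta' : Fin w → A) (X X' : A → Pt m) (t : Fin w)
    (h : ∀ t', t' ≠ t → ta t' = ta' t' ∧ X (ta t') = X' (ta t')) :
    CvA eq v ph ta X t = CvA eq v ph ta' X' t := by
  unfold CvA
  congr 1
  funext a
  rw [ACof_updateRow eq v ph ta ta' X X' t h, Matrix.adjugate_apply, Matrix.adjugate_apply,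
    Matrix.updateRow_idem]

theorem pA_CvA {R w : ℕ} (eq : Fin R ⊕ Fin w ≃ A) (v : Fin R → EuclideanSpace ℂ A)
    (ph : A → A → Ex m K) (ta : Fin w → A) (X : A → Pt m) (t : Fin w) (r : A) :
    pA (ph r) (CvA eq v ph ta X t) 0 (X r) =
      (RmA eq v ph (Function.update ta t r) X).det := by
  rw [ACof_updateRow eq v ph ta (Function.update ta t r) X X t
    (fun t' ht' => ⟨by rw [Function.update_of_ne ht'], rfl⟩), ACof_det_updateRow_eq,
    Function.update_self]
  rfl

theorem continuous_CvA {R w : ℕ} (eq : Fin R ⊕ Fin w ≃ A) (v : Fin R → Pt m → EuclideanSpace ℂ A)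
    (hv : ∀ i, Continuous (v i)) (ph : A → A → Ex m K) (ta : Fin w → A) (j : A) (t : Fin w) :
    Continuous (fun X : A → Pt m => CvA eq (fun i => v i (X j)) ph ta X t) := by
  unfold CvA
  refine (PiLp.continuous_toLp 2 _).comp ?_
  refine continuous_pi fun a => ?_
  have h : Continuous (fun X : A → Pt m => (RmA eq (fun i => v i (X j)) ph ta X).adjugate) := by
    refine Continuous.matrix_adjugate ?_
    refine continuous_matrix fun r b => ?_
    simp only [RmA, Matrix.of_apply]
    rcases eq.symm r with i | t'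
    · simp only [Sum.elim_inl]
      have h1 : Continuous (fun X : A → Pt m => v i (X j)) := (hv i).comp (continuous_apply j)
      have h2 : Continuous (fun X : A → Pt m => (v i (X j)) b) :=
        (continuous_apply b).comp ((PiLp.continuous_ofLp 2 _).comp h1)
      exact Complex.continuous_conj.comp h2
    · simp only [Sum.elim_inr]
      exact (continuous_dm 0 (ph (ta t') b).1).comp (continuous_apply (ta t'))
  exact h.matrix_elem a (eq (Sum.inr t))

private theorem ACof_inner {v F : EuclideanSpace ℂ A} :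
    inner ℂ v F = ∑ a, F a * (starRingEnd ℂ) (v a) := by
  rw [PiLp.inner_apply]
  refine Finset.sum_congr rfl fun a _ => ?_
  simp [RCLike.inner_apply, mul_comm]

/-- Cramer rule -/
private theorem ACof_cramer {R w : ℕ} (eq : Fin R ⊕ Fin w ≃ A) (v : Fin R → EuclideanSpace ℂ A)
    (ph : A → A → Ex m K) (ta : Fin w → A) (X : A → Pt m) (F : EuclideanSpace ℂ A)
    (hF : ∀ i, inner ℂ (v i) F = 0) :
    ‖(RmA eq v ph ta X).det‖ * ‖F‖ ≤
      ∑ t, ‖pA (ph (ta t)) F 0 (X (ta t))‖ * ‖CvA eq v ph ta X t‖ := by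
  have hmul : ∀ r, ((RmA eq v ph ta X).mulVec (fun a => F a)) r =
      Sum.elim (fun i : Fin R => inner ℂ (v i) F)
        (fun t : Fin w => pA (ph (ta t)) F 0 (X (ta t))) (eq.symm r) := by
    intro r
    simp only [Matrix.mulVec, dotProduct, RmA, Matrix.of_apply]
    rcases eq.symm r with i | t'
    · simp only [Sum.elim_inl]
      rw [ACof_inner]
      exact Finset.sum_congr rfl fun a _ => mul_comm _ _
    · simp only [Sum.elim_inr, pA]
      exact Finset.sum_congr rfl fun a _ => mul_comm _ _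
  have hvec : (RmA eq v ph ta X).det • F =
      ∑ t, pA (ph (ta t)) F 0 (X (ta t)) • CvA eq v ph ta X t := by
    ext a
    have h1 : ((RmA eq v ph ta X).adjugate.mulVec
        ((RmA eq v ph ta X).mulVec (fun a => F a))) a = (RmA eq v ph ta X).det * F a := by
      rw [Matrix.mulVec_mulVec, Matrix.adjugate_mul, Matrix.smul_mulVec, Matrix.one_mulVec]
      rfl
    have h2 : ((RmA eq v ph ta X).adjugate.mulVec
        ((RmA eq v ph ta X).mulVec (fun a => F a))) a =
        ∑ t, pA (ph (ta t)) F 0 (X (ta t)) *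
          (RmA eq v ph ta X).adjugate a (eq (Sum.inr t)) := by
      simp only [Matrix.mulVec, dotProduct] at hmul ⊢
      simp_rw [hmul]
      rw [← Equiv.sum_comp eq, Fintype.sum_sum_type]
      simp only [Equiv.symm_apply_apply, Sum.elim_inl, Sum.elim_inr, hF, mul_zero,
        Finset.sum_const_zero, zero_add]
      exact Finset.sum_congr rfl fun t _ => mul_comm _ _
    have h3 : (∑ t, pA (ph (ta t)) F 0 (X (ta t)) • CvA eq v ph ta X t) a =
        ∑ t, pA (ph (ta t)) F 0 (X (ta t)) *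
          (RmA eq v ph ta X).adjugate a (eq (Sum.inr t)) := by
      simp [CvA]
    rw [h3, ← h2, h1]
    simp
  calc ‖(RmA eq v ph ta X).det‖ * ‖F‖ = ‖(RmA eq v ph ta X).det • F‖ := (norm_smul _ _).symm
    _ = ‖∑ t, pA (ph (ta t)) F 0 (X (ta t)) • CvA eq v ph ta X t‖ := by rw [hvec]
    _ ≤ ∑ t, ‖pA (ph (ta t)) F 0 (X (ta t)) • CvA eq v ph ta X t‖ := norm_sum_le _ _
    _ = ∑ t, ‖pA (ph (ta t)) F 0 (X (ta t))‖ * ‖CvA eq v ph ta X t‖ :=
        Finset.sum_congr rfl fun t _ => norm_smul _ _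

/-- Gram matrix -/
private noncomputable def ACof_Gr {R : ℕ} (v : Fin R → Pt m → EuclideanSpace ℂ A) (y : Pt m) :
    Matrix (Fin R) (Fin R) ℂ :=
  Matrix.of fun i i' => inner ℂ (v i y) (v i' y)

private theorem ACof_Gr_det_ne {R : ℕ} (v : Fin R → Pt m → EuclideanSpace ℂ A) (y : Pt m)
    (hy : LinearIndependent ℂ (fun i => v i y)) : (ACof_Gr v y).det ≠ 0 := by
  intro hdet
  obtain ⟨c, hc, hGc⟩ := Matrix.exists_mulVec_eq_zero_iff.2 hdet
  set w : EuclideanSpace ℂ A := ∑ i, c i • v i y with hw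
  have h1 : ∀ i, inner ℂ (v i y) w = 0 := by
    intro i
    have h2 := congrFun hGc i
    rw [Matrix.mulVec, dotProduct] at h2
    rw [hw, inner_sum]
    simp only [inner_smul_right]
    have h3 : (0 : Fin R → ℂ) i = 0 := rfl
    rw [h3] at h2
    refine Eq.trans (Finset.sum_congr rfl fun i' _ => ?_) h2
    simp only [ACof_Gr, Matrix.of_apply]
    ring
  have hw0 : w = 0 := by
    have h3 : inner ℂ w w = 0 := by
      conv_lhs => rw [hw]
      rw [sum_inner]
      refine Finset.sum_eq_zero fun i _ => ?_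
      rw [inner_smul_left, ← hw, h1, mul_zero]
    exact inner_self_eq_zero.1 h3
  apply hc
  funext i
  exact (Fintype.linearIndependent_iff.1 hy) c (by rw [← hw0, hw]) i

private theorem ACof_proj {R : ℕ} (v : Fin R → Pt m → EuclideanSpace ℂ A)
    (hvc : ∀ i, Continuous (v i)) (Y : Set (Pt m)) (hY : IsCompact Y)
    (hvi : ∀ y ∈ Y, LinearIndependent ℂ (fun i => v i y)) :
    ∃ C : ℝ, 0 ≤ C ∧ ∀ y ∈ Y, ∀ F : EuclideanSpace ℂ A, ∃ F' : EuclideanSpace ℂ A,
      (∀ i, inner ℂ (v i y) F' = 0) ∧ ‖F - F'‖ ≤ C * ∑ i, ‖inner ℂ (v i y) F‖ := by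
  have hcG : Continuous (fun y : Pt m => ACof_Gr v y) := by
    refine continuous_matrix fun i i' => ?_
    simp only [ACof_Gr, Matrix.of_apply]
    exact (hvc i).inner (hvc i')
  let phi : Pt m → ℝ := fun y => ∑ i', ∑ i,
    ‖(ACof_Gr v y).det‖⁻¹ * ‖(ACof_Gr v y).adjugate i' i‖ * ‖v i' y‖
  have hphi : ContinuousOn phi Y := by
    refine continuousOn_finsetSum _ fun i' _ => continuousOn_finsetSum _ fun i _ => ?_
    refine ContinuousOn.mul (ContinuousOn.mul ?_ ?_) ?_
    · refine ContinuousOn.inv₀ (hcG.matrix_det.norm.continuousOn) fun y hy => ?_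
      exact norm_ne_zero_iff.2 (ACof_Gr_det_ne v y (hvi y hy))
    · exact (hcG.matrix_adjugate.matrix_elem i' i).norm.continuousOn
    · exact (hvc i').norm.continuousOn
  obtain ⟨C, hC⟩ := hY.exists_bound_of_continuousOn hphi
  refine ⟨|C|, abs_nonneg _, fun y hy F => ?_⟩
  set G := ACof_Gr v y with hG
  set t : Fin R → ℂ := fun i => inner ℂ (v i y) F with ht
  set c : Fin R → ℂ := G⁻¹.mulVec t with hc
  set S : EuclideanSpace ℂ A := ∑ i', c i' • v i' y with hS
  have hdet : G.det ≠ 0 := ACof_Gr_det_ne v y (hvi y hy)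
  refine ⟨F - S, fun i => ?_, ?_⟩
  · have h1 : inner ℂ (v i y) S = t i := by
      have h2 : inner ℂ (v i y) S = (G.mulVec c) i := by
        rw [hS, inner_sum, Matrix.mulVec, dotProduct]
        refine Finset.sum_congr rfl fun i' _ => ?_
        rw [inner_smul_right, hG, ACof_Gr, Matrix.of_apply]
        ring
      rw [h2, hc, Matrix.mulVec_mulVec, Matrix.mul_nonsing_inv _ hdet.isUnit,
        Matrix.one_mulVec]
    rw [inner_sub_right, h1, ht]
    simp
  · have h1 : F - (F - S) = S := by abel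
    rw [h1]
    have hinv : ∀ i' i, G⁻¹ i' i = (G.det)⁻¹ * G.adjugate i' i := by
      intro i' i
      rw [Matrix.inv_def, Matrix.smul_apply, Ring.inverse_eq_inv', smul_eq_mul]
    have h2 : ∀ i', ‖c i'‖ ≤ ∑ i, ‖G.det‖⁻¹ * ‖G.adjugate i' i‖ * ‖t i‖ := by
      intro i'
      rw [hc, Matrix.mulVec, dotProduct]
      refine (norm_sum_le _ _).trans (Finset.sum_le_sum fun i _ => ?_)
      rw [norm_mul, hinv, norm_mul, norm_inv]
    set T : ℝ := ∑ i, ‖t i‖ with hT
    have hT0 : 0 ≤ T := Finset.sum_nonneg fun _ _ => norm_nonneg _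
    have ht1 : ∀ i, ‖t i‖ ≤ T := fun i =>
      Finset.single_le_sum (f := fun i => ‖t i‖) (fun _ _ => norm_nonneg _) (Finset.mem_univ i)
    have h3 : ‖S‖ ≤ phi y * T := by
      rw [hS]
      refine (norm_sum_le _ _).trans ?_
      simp only [phi]
      rw [Finset.sum_mul]
      refine Finset.sum_le_sum fun i' _ => ?_
      rw [norm_smul, Finset.sum_mul]
      calc ‖c i'‖ * ‖v i' y‖
          ≤ (∑ i, ‖G.det‖⁻¹ * ‖G.adjugate i' i‖ * ‖t i‖) * ‖v i' y‖ :=
            mul_le_mul_of_nonneg_right (h2 i') (norm_nonneg _)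
        _ = ∑ i, ‖G.det‖⁻¹ * ‖G.adjugate i' i‖ * ‖v i' y‖ * ‖t i‖ := by
            rw [Finset.sum_mul]
            exact Finset.sum_congr rfl fun i _ => by ring
        _ ≤ _ := Finset.sum_le_sum fun i _ => mul_le_mul_of_nonneg_left (ht1 i) (by positivity)
    have h4 : phi y ≤ |C| := by
      have h5 := hC y hy
      have h6 := le_abs_self (phi y)
      rw [Real.norm_eq_abs] at h5
      have h7 := le_abs_self C
      linarith
    exact h3.trans (mul_le_mul_of_nonneg_right h4 hT0)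

/-- a unit function vanishing at the earlier points, with small functionals -/
private theorem ACof_unit {N l : ℕ} (hN : N = Fintype.card A) (ph : A → A → Ex m K)
    (X : A → Pt m) (s : Fin N ≃ A) (i : Fin N) {R : ℕ} (v : Fin R → EuclideanSpace ℂ A)
    (C0 io : ℝ) (hv : ∀ i', ‖(WA ph X s i).starProjection (v i')‖ ≤
      C0 * JA (ph (s i)) l (WA ph X s i) (X (s i)))
    (hJ : JA (ph (s i)) l (WA ph X s i) (X (s i)) ≤ io) :
    ∃ G : EuclideanSpace ℂ A, ‖G‖ = 1 ∧ (∀ j, j < i → pA (ph (s j)) G 0 (X (s j)) = 0) ∧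
      ∑ i', ‖inner ℂ (v i') G‖ ≤ R * |C0| * io := by
  classical
  set S : Set (EuclideanSpace ℂ A) :=
    {v | ∃ j : Fin N, j < i ∧ v = evA (ph (s j)) 0 (X (s j))} with hS
  have hfin : Module.finrank ℂ (Submodule.span ℂ S) ≤ (i : ℕ) := by
    have hSe : S = ↑((Finset.univ.filter fun j : Fin N => j < i).image
        fun j => evA (ph (s j)) 0 (X (s j))) := by
      ext v
      simp only [hS, Set.mem_ofPred_eq, Finset.coe_image, Finset.coe_filter, Finset.mem_univ,
        true_and, Set.mem_image]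
      constructor
      · rintro ⟨j, hj, rfl⟩
        exact ⟨j, hj, rfl⟩
      · rintro ⟨j, hj, rfl⟩
        exact ⟨j, hj, rfl⟩
    rw [hSe]
    refine (finrank_span_finset_le_card _).trans (Finset.card_image_le.trans ?_)
    have : (Finset.univ.filter fun j : Fin N => j < i) = Finset.Iio i := by
      ext j; simp
    rw [this]
    simp
  have hdim : Module.finrank ℂ (EuclideanSpace ℂ A) = N := by
    rw [finrank_euclideanSpace, hN]
  have hpos : 0 < Module.finrank ℂ (Submodule.span ℂ S)ᗮ := by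
    have h1 := Submodule.finrank_add_finrank_orthogonal (Submodule.span ℂ S)
    have := i.2
    omega
  have hne : (Submodule.span ℂ S)ᗮ ≠ ⊥ := by
    intro h
    rw [h, finrank_bot] at hpos
    exact absurd hpos (lt_irrefl _)
  obtain ⟨G0, hG0, hG0'⟩ := Submodule.exists_mem_ne_zero_of_ne_bot hne
  have hn : ‖G0‖ ≠ 0 := norm_ne_zero_iff.2 hG0'
  set G : EuclideanSpace ℂ A := ((‖G0‖⁻¹ : ℝ) : ℂ) • G0 with hG
  have hGmem : G ∈ WA ph X s i := Submodule.smul_mem _ _ hG0
  have hGn : ‖G‖ = 1 := by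
    rw [hG, norm_smul]; simp [hn]
  refine ⟨G, hGn, ?_, ?_⟩
  · intro j hj
    rw [← inner_evA]
    exact (Submodule.mem_orthogonal _ _).1 hGmem _ (Submodule.subset_span ⟨j, hj, rfl⟩)
  · have h0 : 0 ≤ JA (ph (s i)) l (WA ph X s i) (X (s i)) :=
      Finset.sum_nonneg fun _ _ => norm_nonneg _
    have h3 : ∀ i', ‖inner ℂ (v i') G‖ ≤ |C0| * io := by
      intro i'
      have h1 : inner ℂ (v i') G = inner ℂ ((WA ph X s i).starProjection (v i')) G := by
        have h2 : (WA ph X s i).starProjection G = G :=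
          Submodule.starProjection_eq_self_iff.2 hGmem
        conv_lhs => rw [← h2]
        rw [← Submodule.inner_starProjection_left_eq_right]
      rw [h1]
      refine (norm_inner_le_norm _ _).trans ?_
      rw [hGn, mul_one]
      refine (hv i').trans ?_
      calc C0 * JA (ph (s i)) l (WA ph X s i) (X (s i))
          ≤ |C0| * JA (ph (s i)) l (WA ph X s i) (X (s i)) :=
            mul_le_mul_of_nonneg_right (le_abs_self _) h0
        _ ≤ |C0| * io := mul_le_mul_of_nonneg_left hJ (abs_nonneg _)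
    calc ∑ i', ‖inner ℂ (v i') G‖ ≤ ∑ _i' : Fin R, |C0| * io :=
          Finset.sum_le_sum fun i' _ => h3 i'
      _ = R * |C0| * io := by simp [mul_assoc]

/-- uniform bound for the values -/
private theorem ACof_val (ph : A → A → Ex m K) (Y : A → Set (Pt m))
    (hYc : ∀ j, IsCompact (Y j)) : ∃ M : ℝ, 0 < M ∧ ∀ r, ∀ x ∈ Y r, ∀ F : EuclideanSpace ℂ A,
      ‖pA (ph r) F 0 x‖ ≤ ‖F‖ * M := by
  have h1 : ∀ r, ∃ C : ℝ, ∀ x ∈ Y r, ‖evA (ph r) 0 x‖ ≤ C := fun r =>
    (hYc r).exists_bound_of_continuousOn (continuous_evA (ph r) 0).continuousOn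
  choose C hC using h1
  refine ⟨1 + ∑ r, |C r|, by positivity, fun r x hx F => ?_⟩
  rw [← inner_evA]
  refine (norm_inner_le_norm _ _).trans ?_
  rw [mul_comm]
  refine mul_le_mul_of_nonneg_left ?_ (norm_nonneg _)
  have h2 := hC r x hx
  have h3 := le_abs_self (C r)
  have h4 : |C r| ≤ ∑ r, |C r| :=
    Finset.single_le_sum (f := fun r => |C r|) (fun _ _ => abs_nonneg _) (Finset.mem_univ r)
  linarith

/-- the function J small at the late point implies many approximate zeros -/
theorem exists_many_zerosA {R w N l : ℕ} (hw : 1 ≤ w) (hN : N = Fintype.card A)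
    (eq : Fin R ⊕ Fin w ≃ A) (ph : A → A → Ex m K) (Y : A → Set (Pt m))
    (hYc : ∀ j, IsCompact (Y j)) (v : A → Fin R → Pt m → EuclideanSpace ℂ A)
    (hvc : ∀ j i, Continuous (v j i))
    (hvi : ∀ j, ∀ y ∈ Y j, LinearIndependent ℂ (fun i => v j i y))
    (C0 : ℝ) (hv : ∀ j i, ∀ y ∈ Y j, ∀ W : Submodule ℂ (EuclideanSpace ℂ A),
      ‖W.starProjection (v j i y)‖ ≤ C0 * JA (ph j) l W y) :
    ∃ C : ℝ, 0 < C ∧ ∀ io : ℝ, 0 < io → ∀ X : A → Pt m, (∀ j, X j ∈ Y j) →
      ∀ (s : Fin N ≃ A) (i : Fin N), w ≤ (i : ℕ) →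
      JA (ph (s i)) l (WA ph X s i) (X (s i)) ≤ io →
      ∃ ta : Fin w → A, Function.Injective ta ∧ (∀ t, ∃ j, j < i ∧ ta t = s j) ∧
        ∃ t0 : Fin w, ∀ r : A, (∃ j, j < i ∧ r = s j) → (∀ t, t ≠ t0 → ta t ≠ r) →
          ‖pA (ph r) (CvA eq (fun i' => v (s i) i' (X (s i))) ph ta X t0) 0 (X r)‖ ≤
            C * io * ‖CvA eq (fun i' => v (s i) i' (X (s i))) ph ta X t0‖ := by
  classical
  have hproj := fun j => ACof_proj (v j) (hvc j) (Y j) (hYc j) (hvi j)
  choose C1 hC1 hjet using hproj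
  obtain ⟨M, hM, hval⟩ := ACof_val ph Y hYc
  set C2 : ℝ := 1 + (∑ j, C1 j) * (R * |C0|) with hC2
  have hC1s : 0 ≤ ∑ j, C1 j := Finset.sum_nonneg fun j _ => hC1 j
  have hC2pos : 0 < C2 := by positivity
  have hw0 : (0 : ℝ) < w := by exact_mod_cast hw
  refine ⟨M * 2 * C2 * w, by positivity, ?_⟩
  intro io hio X hX s i hwi hJ
  set vv : Fin R → EuclideanSpace ℂ A := fun i' => v (s i) i' (X (s i)) with hvv
  obtain ⟨G, hG1, hG0, hGj⟩ := ACof_unit hN ph X s i vv C0 io
    (fun i' => hv (s i) i' (X (s i)) (hX (s i)) _) hJ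
  obtain ⟨F', hF'0, hF'⟩ := hjet (s i) (X (s i)) (hX (s i)) G
  have hGF : ‖G - F'‖ ≤ C2 * io := by
    refine hF'.trans ?_
    have h1 : C1 (s i) ≤ ∑ j, C1 j :=
      Finset.single_le_sum (f := C1) (fun j _ => hC1 j) (Finset.mem_univ (s i))
    have h2 : 0 ≤ ∑ i', ‖inner ℂ (vv i') G‖ := Finset.sum_nonneg fun _ _ => norm_nonneg _
    calc C1 (s i) * ∑ i', ‖inner ℂ (vv i') G‖ ≤ (∑ j, C1 j) * (R * |C0| * io) :=
          mul_le_mul h1 hGj h2 hC1s
      _ = (∑ j, C1 j) * (R * |C0|) * io := by ring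
      _ ≤ C2 * io := by
          refine mul_le_mul_of_nonneg_right ?_ hio.le
          rw [hC2]
          linarith
  -- the admissible pairs
  let P : Finset ((Fin w → A) × Fin w) := Finset.univ.filter fun p =>
    Function.Injective p.1 ∧ ∀ t, ∃ j, j < i ∧ p.1 t = s j
  have hPne : P.Nonempty := by
    let f : Fin w → Fin N := fun t => ⟨t, lt_of_lt_of_le t.2 (hwi.trans i.2.le)⟩
    refine ⟨(fun t => s (f t), ⟨0, hw⟩), ?_⟩
    simp only [P, Finset.mem_filter, Finset.mem_univ, true_and]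
    constructor
    · intro t t' h
      have h' := s.injective h
      simp only [f, Fin.mk.injEq] at h'
      exact Fin.ext h'
    · intro t
      exact ⟨f t, Fin.lt_def.2 (lt_of_lt_of_le t.2 hwi), rfl⟩
  obtain ⟨⟨ta, t0⟩, hmem, hmax⟩ := P.exists_max_image
    (fun p => ‖CvA eq vv ph p.1 X p.2‖) hPne
  simp only [P, Finset.mem_filter, Finset.mem_univ, true_and] at hmem hmax
  refine ⟨ta, hmem.1, hmem.2, t0, ?_⟩
  intro r hr hrt
  rcases le_or_gt (C2 * io) (1 / 2) with hsm | hlg
  · -- small case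
    have hF'n : 1 / 2 ≤ ‖F'‖ := by
      have h1 : ‖G‖ ≤ ‖G - F'‖ + ‖F'‖ := by
        have := norm_add_le (G - F') F'
        simpa using this
      rw [hG1] at h1
      linarith
    set ta' : Fin w → A := Function.update ta t0 r with hta'
    have hinj' : Function.Injective ta' := by
      intro t t' h
      by_cases h1 : t = t0
      · by_cases h2 : t' = t0
        · rw [h1, h2]
        · rw [hta', h1, Function.update_self, Function.update_of_ne h2] at h
          exact absurd h.symm (hrt t' h2)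
      · by_cases h2 : t' = t0
        · rw [hta', h2, Function.update_self, Function.update_of_ne h1] at h
          exact absurd h (hrt t h1)
        · rw [hta', Function.update_of_ne h1, Function.update_of_ne h2] at h
          exact hmem.1 h
    have hear' : ∀ t, ∃ j, j < i ∧ ta' t = s j := by
      intro t
      by_cases h1 : t = t0
      · obtain ⟨j, hj, hj'⟩ := hr
        exact ⟨j, hj, by rw [hta', h1, Function.update_self, hj']⟩
      · obtain ⟨j, hj, hj'⟩ := hmem.2 t
        exact ⟨j, hj, by rw [hta', Function.update_of_ne h1, hj']⟩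
    rw [pA_CvA]
    have hcr := ACof_cramer eq vv ph ta' X F' hF'0
    have hsum : ∑ t, ‖pA (ph (ta' t)) F' 0 (X (ta' t))‖ * ‖CvA eq vv ph ta' X t‖ ≤
        ∑ _t : Fin w, (C2 * io * M) * ‖CvA eq vv ph ta X t0‖ := by
      refine Finset.sum_le_sum fun t _ => ?_
      have h1 : ‖pA (ph (ta' t)) F' 0 (X (ta' t))‖ ≤ C2 * io * M := by
        obtain ⟨j, hj, hj'⟩ := hear' t
        have h2 : pA (ph (s j)) F' 0 (X (s j)) = - pA (ph (s j)) (G - F') 0 (X (s j)) := by
          have h4 : pA (ph (s j)) (G - F') 0 (X (s j)) =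
              pA (ph (s j)) G 0 (X (s j)) - pA (ph (s j)) F' 0 (X (s j)) := by
            rw [← inner_evA, ← inner_evA, ← inner_evA, inner_sub_right]
          rw [h4, hG0 j hj]; ring
        rw [hj', h2, norm_neg]
        refine (hval (s j) _ (hX (s j)) _).trans ?_
        exact mul_le_mul_of_nonneg_right hGF hM.le
      have h2 : ‖CvA eq vv ph ta' X t‖ ≤ ‖CvA eq vv ph ta X t0‖ :=
        hmax (ta', t) ⟨hinj', hear'⟩
      exact mul_le_mul h1 h2 (norm_nonneg _) (by positivity)
    rw [Finset.sum_const, Finset.card_univ, Fintype.card_fin, nsmul_eq_mul] at hsum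
    have h3 : ‖(RmA eq vv ph ta' X).det‖ * (1 / 2) ≤ ‖(RmA eq vv ph ta' X).det‖ * ‖F'‖ :=
      mul_le_mul_of_nonneg_left hF'n (norm_nonneg _)
    have h4 : ‖(RmA eq vv ph ta' X).det‖ * (1 / 2) ≤
        w * ((C2 * io * M) * ‖CvA eq vv ph ta X t0‖) := h3.trans (hcr.trans hsum)
    nlinarith [h4]
  · -- large case
    have h1 := hval r (X r) (hX r) (CvA eq vv ph ta X t0)
    refine h1.trans ?_
    have h2 : (1 : ℝ) ≤ 2 * C2 * w * io := by
      have hw1 : (1 : ℝ) ≤ w := by exact_mod_cast hw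
      nlinarith [mul_pos hC2pos hio]
    have h3 : 0 ≤ ‖CvA eq vv ph ta X t0‖ * M := by positivity
    nlinarith [mul_le_mul_of_nonneg_left h2 h3]

end GTor
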