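/- piece AG: generic independence for families -/
import Pool.Agent.Lib_MP_e0d435_ag_T.ACof
import Pool.Agent.Lib_MP_e0d435_ag.Null

open Finset MeasureTheory Complex
open scoped ENNReal ContDiff

namespace GTor
open GPn

variable {A : Type} [Fintype A] [DecidableEq A] {m K : ℕ}

/-- a measurable set all of whose slices in the direction `j` are null is null -/
private theorem null_of_slices (j : A) (B : Set (A → Pt m)) (hB : MeasurableSet B)
    (h : ∀ X : A → Pt m, volume {y : Pt m | Function.update X j y ∈ B} = 0) : volume B = 0 := by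
  have h1 : volume B = ∫⁻ X : A → Pt m, B.indicator 1 X := by
    rw [lintegral_indicator_one hB]
  have hm : Measurable (B.indicator (1 : (A → Pt m) → ℝ≥0∞)) := measurable_one.indicator hB
  rw [h1, volume_pi, lintegral_eq_lmarginal_univ (0 : A → Pt m),
    lmarginal_erase' _ hm (Finset.mem_univ j)]
  have h2 : (fun x : A → Pt m => ∫⁻ y : Pt m, B.indicator (1 : (A → Pt m) → ℝ≥0∞)
      (Function.update x j y)) = fun _ => 0 := by
    funext x
    have h3 : (fun y : Pt m => B.indicator (1 : (A → Pt m) → ℝ≥0∞) (Function.update x j y)) =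
        ({y : Pt m | Function.update x j y ∈ B}).indicator 1 := by
      funext y
      by_cases hy : Function.update x j y ∈ B
      · rw [Set.indicator_of_mem hy, Set.indicator_of_mem (by exact hy)]
        rfl
      · rw [Set.indicator_of_notMem hy, Set.indicator_of_notMem (by exact hy)]
    rw [h3, lintegral_indicator_one, h x]
    exact measurableSet_preimage (measurable_update x) hB
  rw [h2]
  simp [lmarginal]

/-- the functionals `v i (X j0)` and the evaluations at the first `s` points `X (ta t)` -/
private noncomputable def fam {R w : ℕ} (ph : A → A → Ex m K) (j0 : A)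
    (v : Fin R → Pt m → EuclideanSpace ℂ A) (ta : Fin w → A) (s : ℕ) (X : A → Pt m) :
    Fin R ⊕ {t : Fin w // (t : ℕ) < s} → EuclideanSpace ℂ A :=
  Sum.elim (fun i => v i (X j0)) (fun t => evA (ph (ta t.1)) 0 (X (ta t.1)))

private theorem continuous_fam {R w : ℕ} (ph : A → A → Ex m K) (j0 : A)
    (v : Fin R → Pt m → EuclideanSpace ℂ A) (hvc : ∀ i, Continuous (v i)) (ta : Fin w → A)
    (s : ℕ) : Continuous (fam ph j0 v ta s) := by
  refine continuous_pi fun r => ?_
  rcases r with i | t
  · exact (hvc i).comp (continuous_apply j0)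
  · exact (continuous_evA (ph (ta t.1)) 0).comp (continuous_apply (ta t.1))

private theorem measurableSet_fam {R w : ℕ} (ph : A → A → Ex m K) (j0 : A)
    (v : Fin R → Pt m → EuclideanSpace ℂ A) (hvc : ∀ i, Continuous (v i)) (ta : Fin w → A)
    (s : ℕ) : MeasurableSet {X : A → Pt m | LinearIndependent ℂ (fam ph j0 v ta s X)} :=
  ((isOpen_setOfPred_linearIndependent (𝕜 := ℂ)
    (E := EuclideanSpace ℂ A)).preimage (continuous_fam ph j0 v hvc ta s)).measurableSet

omit [DecidableEq A] in
/-- a nonzero vector orthogonal to few vectors -/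
private theorem exists_orth {ι : Type*} [Fintype ι] (u : ι → EuclideanSpace ℂ A)
    (h : Fintype.card ι < Fintype.card A) :
    ∃ F : EuclideanSpace ℂ A, F ≠ 0 ∧ ∀ i, inner ℂ (u i) F = 0 := by
  have hfin : Module.finrank ℂ (Submodule.span ℂ (Set.range u)) ≤ Fintype.card ι :=
    finrank_range_le_card u
  have hpos : 0 < Module.finrank ℂ (Submodule.span ℂ (Set.range u))ᗮ := by
    have h1 := Submodule.finrank_add_finrank_orthogonal (Submodule.span ℂ (Set.range u))
    rw [finrank_euclideanSpace] at h1
    omega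
  have hne : (Submodule.span ℂ (Set.range u))ᗮ ≠ ⊥ := by
    intro h
    rw [h, finrank_bot] at hpos
    exact absurd hpos (lt_irrefl _)
  obtain ⟨F, hF, hF0⟩ := Submodule.exists_mem_ne_zero_of_ne_bot hne
  exact ⟨F, hF0, fun i => (Submodule.mem_orthogonal _ _).1 hF _
    (Submodule.subset_span ⟨i, rfl⟩)⟩

/-- the points where the evaluation is orthogonal to a given nonzero vector -/
private theorem null_orth (ph : A → Ex m K) (hph : Function.Injective ph)
    (F : EuclideanSpace ℂ A) (hF : F ≠ 0) :
    volume {y : Pt m | inner ℂ (evA ph 0 y) F = 0} = 0 := by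
  have h1 : emb ph F ≠ 0 := by
    intro h0
    obtain ⟨c, hc, hcF⟩ := emb_norm_ge m K
    have h2 := hcF A ph hph F
    rw [h0, norm_zero] at h2
    have h3 : 0 < ‖F‖ := norm_pos_iff.2 hF
    have h4 := mul_pos hc h3
    linarith
  have h2 := null_zero (emb ph F) h1
  have h3 : {y : Pt m | inner ℂ (evA ph 0 y) F = 0} = {x : Pt m | pd (emb ph F) 0 x = 0} := by
    ext y
    simp only [Set.mem_ofPred_eq]
    rw [inner_evA, pd_emb ph hph]
  rw [h3, h2]

private theorem fam_update {R w : ℕ} (ph : A → A → Ex m K) (j0 : A)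
    (v : Fin R → Pt m → EuclideanSpace ℂ A) (ta : Fin w → A) (hta : Function.Injective ta)
    (hj : ∀ t, ta t ≠ j0) (s : ℕ) (hs : s < w) (X : A → Pt m) (y : Pt m) :
    fam ph j0 v ta s (Function.update X (ta ⟨s, hs⟩) y) = fam ph j0 v ta s X := by
  funext r
  rcases r with i | t
  · simp only [fam, Sum.elim_inl]
    rw [Function.update_of_ne (hj _).symm]
  · simp only [fam, Sum.elim_inr]
    rw [Function.update_of_ne]
    intro h
    have h1 := hta h
    have h2 := t.2
    rw [h1] at h2
    exact absurd h2 (lt_irrefl _)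

/-- adding one evaluation -/
private theorem fam_succ {R w : ℕ} (ph : A → A → Ex m K) (j0 : A)
    (v : Fin R → Pt m → EuclideanSpace ℂ A) (ta : Fin w → A) (s : ℕ) (hs : s < w)
    (X : A → Pt m) (h : LinearIndependent ℂ (fam ph j0 v ta s X))
    (hn : evA (ph (ta ⟨s, hs⟩)) 0 (X (ta ⟨s, hs⟩)) ∉
      Submodule.span ℂ (Set.range (fam ph j0 v ta s X))) :
    LinearIndependent ℂ (fam ph j0 v ta (s + 1) X) := by
  classical
  have h1 : LinearIndependent ℂ (fun o : Option (Fin R ⊕ {t : Fin w // (t : ℕ) < s}) =>
      (Option.casesOn' o (evA (ph (ta ⟨s, hs⟩)) 0 (X (ta ⟨s, hs⟩))) (fam ph j0 v ta s X) :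
        EuclideanSpace ℂ A)) :=
    LinearIndependent.option h hn
  -- injection of the index types
  let g : Fin R ⊕ {t : Fin w // (t : ℕ) < s + 1} → Option (Fin R ⊕ {t : Fin w // (t : ℕ) < s}) :=
    Sum.elim (fun i => some (Sum.inl i)) (fun t => if ht : (t.1 : ℕ) < s then
      some (Sum.inr ⟨t.1, ht⟩) else none)
  have hg : Function.Injective g := by
    intro r r' hr
    rcases r with i | t <;> rcases r' with i' | t'
    · simp only [g, Sum.elim_inl, Option.some.injEq, Sum.inl.injEq] at hr
      rw [hr]
    · simp only [g, Sum.elim_inl, Sum.elim_inr] at hr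
      split_ifs at hr <;> simp at hr
    · simp only [g, Sum.elim_inl, Sum.elim_inr] at hr
      split_ifs at hr <;> simp at hr
    · simp only [g, Sum.elim_inr] at hr
      congr 1
      apply Subtype.ext
      by_cases ht : (t.1 : ℕ) < s
      · by_cases ht' : (t'.1 : ℕ) < s
        · rw [dif_pos ht, dif_pos ht'] at hr
          simpa using hr
        · rw [dif_pos ht, dif_neg ht'] at hr
          exact absurd hr (by simp)
      · by_cases ht' : (t'.1 : ℕ) < s
        · rw [dif_neg ht, dif_pos ht'] at hr
          exact absurd hr (by simp)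
        · apply Fin.ext
          have := t.2
          have := t'.2
          omega
  have h2 := h1.comp g hg
  have h3 : (fun o : Option (Fin R ⊕ {t : Fin w // (t : ℕ) < s}) =>
      (Option.casesOn' o (evA (ph (ta ⟨s, hs⟩)) 0 (X (ta ⟨s, hs⟩))) (fam ph j0 v ta s X) :
        EuclideanSpace ℂ A)) ∘ g = fam ph j0 v ta (s + 1) X := by
    funext r
    rcases r with i | t
    · rfl
    · by_cases ht : (t.1 : ℕ) < s
      · simp only [Function.comp_apply, g, Sum.elim_inr, dif_pos ht, Option.casesOn'_some, fam]
      · have ht2 : t.1 = ⟨s, hs⟩ := by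
          apply Fin.ext
          have := t.2
          simp only
          omega
        simp only [Function.comp_apply, g, Sum.elim_inr, dif_neg ht, Option.casesOn'_none, fam]
        rw [ht2]
  rw [h3] at h2
  exact h2

private theorem null_step {R w : ℕ} (hRw : R + w = Fintype.card A) (ph : A → A → Ex m K)
    (hph : ∀ j, Function.Injective (ph j)) (j0 : A)
    (v : Fin R → Pt m → EuclideanSpace ℂ A) (hvc : ∀ i, Continuous (v i)) (ta : Fin w → A)
    (hta : Function.Injective ta) (hj : ∀ t, ta t ≠ j0) (s : ℕ) (hs : s < w) :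
    volume ({X : A → Pt m | LinearIndependent ℂ (fam ph j0 v ta s X)} \
      {X : A → Pt m | LinearIndependent ℂ (fam ph j0 v ta (s + 1) X)}) = 0 := by
  refine null_of_slices (ta ⟨s, hs⟩) _ ((measurableSet_fam ph j0 v hvc ta s).diff
    (measurableSet_fam ph j0 v hvc ta (s + 1))) fun X => ?_
  have hcard : Fintype.card (Fin R ⊕ {t : Fin w // (t : ℕ) < s}) < Fintype.card A := by
    rw [Fintype.card_sum, Fintype.card_fin, ← hRw]
    have h1 : Fintype.card {t : Fin w // (t : ℕ) < s} < Fintype.card (Fin w) :=
      Fintype.card_subtype_lt (x := (⟨s, hs⟩ : Fin w)) (by simp)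
    rw [Fintype.card_fin] at h1
    omega
  obtain ⟨F, hF0, hF⟩ := exists_orth (fam ph j0 v ta s X) hcard
  refine measure_mono_null ?_ (null_orth (ph (ta ⟨s, hs⟩)) (hph _) F hF0)
  intro y hy
  simp only [Set.mem_ofPred_eq, Set.mem_sdiff] at hy ⊢
  by_contra hne
  apply hy.2
  refine fam_succ ph j0 v ta s hs _ hy.1 ?_
  rw [fam_update ph j0 v ta hta hj s hs, Function.update_self]
  intro hmem
  apply hne
  have h2 : ∀ u ∈ Submodule.span ℂ (Set.range (fam ph j0 v ta s X)), inner ℂ u F = 0 := by
    intro u hu
    induction hu using Submodule.span_induction with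
    | mem x hx =>
      obtain ⟨i, rfl⟩ := hx
      exact hF i
    | zero => exact inner_zero_left _
    | add x y _ _ hx hy => rw [inner_add_left, hx, hy, add_zero]
    | smul a x _ hx => rw [inner_smul_left, hx, mul_zero]
  exact h2 _ hmem

private theorem null_all {R w : ℕ} (hRw : R + w = Fintype.card A) (ph : A → A → Ex m K)
    (hph : ∀ j, Function.Injective (ph j)) (j0 : A)
    (v : Fin R → Pt m → EuclideanSpace ℂ A) (hvc : ∀ i, Continuous (v i)) (ta : Fin w → A)
    (hta : Function.Injective ta) (hj : ∀ t, ta t ≠ j0) (s : ℕ) (hs : s ≤ w) :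
    volume ({X : A → Pt m | LinearIndependent ℂ (fun i => v i (X j0))} \
      {X : A → Pt m | LinearIndependent ℂ (fam ph j0 v ta s X)}) = 0 := by
  induction s with
  | zero =>
    have h1 : {X : A → Pt m | LinearIndependent ℂ (fun i => v i (X j0))} \
      {X : A → Pt m | LinearIndependent ℂ (fam ph j0 v ta 0 X)} = ∅ := by
      rw [Set.sdiff_eq_empty]
      intro X hX
      simp only [Set.mem_ofPred_eq] at hX ⊢
      have : IsEmpty {t : Fin w // (t : ℕ) < 0} := ⟨fun t => absurd t.2 (Nat.not_lt_zero _)⟩
      have h2 : LinearIndependent ℂ (fam ph j0 v ta 0 X ∘ (Sum.inl : Fin R → _)) := hX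
      let e : Fin R ≃ Fin R ⊕ {t : Fin w // (t : ℕ) < 0} := (Equiv.sumEmpty _ _).symm
      exact (linearIndependent_equiv e).1 h2
    rw [h1, measure_empty]
  | succ s ih =>
    have h1 := ih (by omega)
    have h2 := null_step hRw ph hph j0 v hvc ta hta hj s (by omega)
    refine measure_mono_null ?_ (measure_union_null h1 h2)
    intro X hX
    by_cases h3 : LinearIndependent ℂ (fam ph j0 v ta s X)
    · exact Or.inr ⟨h3, hX.2⟩
    · exact Or.inl ⟨hX.1, h3⟩

theorem CvA_ne_zero_ae {R w : ℕ} (eq : Fin R ⊕ Fin w ≃ A) (ph : A → A → Ex m K)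
    (hph : ∀ j, Function.Injective (ph j)) (j0 : A) (Y0 : Set (Pt m))
    (v : Fin R → Pt m → EuclideanSpace ℂ A) (hvc : ∀ i, Continuous (v i))
    (hvi : ∀ y ∈ Y0, LinearIndependent ℂ (fun i => v i y))
    (ta : Fin w → A) (hta : Function.Injective ta) (hj : ∀ t, ta t ≠ j0) (t0 : Fin w) :
    ∀ᵐ X : A → Pt m, X j0 ∈ Y0 → CvA eq (fun i => v i (X j0)) ph ta X t0 ≠ 0 := by
  have hRw : R + w = Fintype.card A := by
    rw [← Fintype.card_congr eq, Fintype.card_sum, Fintype.card_fin, Fintype.card_fin]
  have h0 := null_all hRw ph hph j0 v hvc ta hta hj w le_rfl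
  have h1 := measure_eq_zero_iff_ae_notMem.1 h0
  filter_upwards [h1] with X hX hXY hC
  have hli : LinearIndependent ℂ (fam ph j0 v ta w X) := by
    by_contra hcon
    exact hX ⟨hvi _ hXY, hcon⟩
  -- the determinant does not vanish
  have hdet : (RmA eq (fun i => v i (X j0)) ph ta X).det ≠ 0 := by
    intro hd
    obtain ⟨u, hu0, hu⟩ := Matrix.exists_mulVec_eq_zero_iff.2 hd
    let F : EuclideanSpace ℂ A := WithLp.toLp 2 u
    have hF0 : F ≠ 0 := by
      intro h
      apply hu0
      funext a
      have := congrArg (fun G : EuclideanSpace ℂ A => G a) h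
      simpa [F] using this
    have horth : ∀ r, inner ℂ (fam ph j0 v ta w X r) F = 0 := by
      intro r
      rcases r with i | t
      · have h2 := congrFun hu (eq (Sum.inl i))
        simp only [Matrix.mulVec, dotProduct, RmA, Matrix.of_apply, Equiv.symm_apply_apply,
          Sum.elim_inl, Pi.zero_apply] at h2
        simp only [fam, Sum.elim_inl, PiLp.inner_apply, RCLike.inner_apply, F]
        rw [← h2]
        exact Finset.sum_congr rfl fun a _ => mul_comm _ _
      · have h2 := congrFun hu (eq (Sum.inr t.1))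
        simp only [Matrix.mulVec, dotProduct, RmA, Matrix.of_apply, Equiv.symm_apply_apply,
          Sum.elim_inr, Pi.zero_apply] at h2
        simp only [fam, Sum.elim_inr]
        rw [inner_evA, pA, ← h2]
        exact Finset.sum_congr rfl fun a _ => mul_comm _ _
    have hcard : Fintype.card (Fin R ⊕ {t : Fin w // (t : ℕ) < w}) =
        Module.finrank ℂ (EuclideanSpace ℂ A) := by
      rw [Fintype.card_sum, Fintype.card_fin, finrank_euclideanSpace, ← hRw]
      congr 1
      have h3 : Fintype.card {t : Fin w // (t : ℕ) < w} = Fintype.card (Fin w) :=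
        Fintype.card_congr (Equiv.subtypeUnivEquiv fun t => t.2)
      rw [h3, Fintype.card_fin]
    have hspan := hli.span_eq_top_of_card_eq_finrank' hcard
    have hFm : F ∈ Submodule.span ℂ (Set.range (fam ph j0 v ta w X)) := by
      rw [hspan]; exact Submodule.mem_top
    have h4 : ∀ G ∈ Submodule.span ℂ (Set.range (fam ph j0 v ta w X)), inner ℂ G F = 0 := by
      intro G hG
      induction hG using Submodule.span_induction with
      | mem x hx =>
        obtain ⟨i, rfl⟩ := hx
        exact horth i
      | zero => exact inner_zero_left _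
      | add x y _ _ hx hy => rw [inner_add_left, hx, hy, add_zero]
      | smul a x _ hx => rw [inner_smul_left, hx, mul_zero]
    exact hF0 (inner_self_eq_zero.1 (h4 F hFm))
  have h5 := pA_CvA eq (fun i => v i (X j0)) ph ta X t0 (ta t0)
  rw [Function.update_eq_self, hC] at h5
  apply hdet
  rw [← h5]
  simp [pA]

end GTor
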