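/- piece AJ: the functionals fv are independent -/
import Pool.Agent.Lib_MP_e0d435_ag_T.ABasic

open Finset MeasureTheory Complex
open scoped ENNReal ContDiff

namespace GTor
open GPn

/-! ### restriction to lines -/

/-- the restriction of a polynomial to the line `y + t z` -/
private noncomputable def AJet_dLn {m : ℕ} (y z : Pt m) :
    MvPolynomial (Fin m) ℂ →ₐ[ℂ] Polynomial ℂ :=
  MvPolynomial.aeval fun i => Polynomial.C (y i) + Polynomial.X * Polynomial.C (z i)

private theorem AJet_dLn_eval {m : ℕ} (y z : Pt m) (p : MvPolynomial (Fin m) ℂ) (s : ℂ) :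
    (AJet_dLn y z p).eval s = MvPolynomial.eval (fun i => y i + s * z i) p := by
  induction p using MvPolynomial.induction_on with
  | C a => simp [AJet_dLn]
  | add p q hp hq => simp [map_add, hp, hq]
  | mul_X p i hp =>
    rw [map_mul, Polynomial.eval_mul, hp, map_mul, MvPolynomial.eval_X]
    congr 1
    simp only [AJet_dLn, MvPolynomial.aeval_X, Polynomial.eval_add, Polynomial.eval_mul,
      Polynomial.eval_C, Polynomial.eval_X]

/-- vanishing to order at least `mu` at `y` -/
private def AJet_dMult {m : ℕ} (mu : ℕ) (y : Pt m) (p : MvPolynomial (Fin m) ℂ) : Prop :=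
  ∀ z, (Polynomial.X : Polynomial ℂ) ^ mu ∣ AJet_dLn y z p

private theorem AJet_dMult_zero_of {m d mu : ℕ} (hd : d < mu) (y : Pt m)
    (p : MvPolynomial (Fin m) ℂ) (hp : p.IsHomogeneous d) (h : AJet_dMult mu y p) : p = 0 := by
  have h1 : ∀ z, AJet_dLn y z p = 0 := by
    intro z
    apply Polynomial.eq_zero_of_dvd_of_natDegree_lt (h z)
    rw [Polynomial.natDegree_X_pow]
    have h2 : (AJet_dLn y z p).natDegree ≤ d * 1 := by
      apply MvPolynomial.aeval_natDegree_le p hp.totalDegree_le
      intro i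
      compute_degree
    omega
  apply MvPolynomial.funext
  intro x
  have h3 := AJet_dLn_eval y (fun i => x i - y i) p 1
  rw [h1] at h3
  simp only [Polynomial.eval_zero, one_mul, add_sub_cancel] at h3
  rw [map_zero, ← h3]

private theorem AJet_dMult_cancel {m mu : ℕ} (y : Pt m) (p q : MvPolynomial (Fin m) ℂ)
    (hp : MvPolynomial.eval y p ≠ 0) (h : AJet_dMult mu y (p * q)) : AJet_dMult mu y q := by
  intro z
  have h1 := h z
  rw [map_mul] at h1
  apply (Polynomial.prime_X).pow_dvd_of_dvd_mul_left mu _ h1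
  rw [Polynomial.X_dvd_iff]
  intro h2
  apply hp
  have h3 := AJet_dLn_eval y z p 0
  rw [← Polynomial.coeff_zero_eq_eval_zero, h2] at h3
  simp only [zero_mul, add_zero] at h3
  exact h3.symm

/-! ### the polynomial of a coefficient vector -/

/-- the exponent as a finitely supported function -/
private noncomputable def AJet_dExp {m d : ℕ} (a : Ex m d) : Fin m →₀ ℕ :=
  Finsupp.equivFunOnFinite.symm a.1

private theorem AJet_dExp_apply {m d : ℕ} (a : Ex m d) (i : Fin m) : AJet_dExp a i = a.1 i := rfl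

private theorem AJet_dExp_inj {m d : ℕ} {a b : Ex m d} (h : AJet_dExp a = AJet_dExp b) :
    a = b := by
  apply Subtype.ext
  exact Finsupp.equivFunOnFinite.symm.injective h

private theorem AJet_dExp_degree {m d : ℕ} (a : Ex m d) : (AJet_dExp a).degree = d := by
  rw [Finsupp.degree_eq_sum]
  exact a.2

/-- the homogeneous polynomial with given coefficients -/
private noncomputable def AJet_dP (m d : ℕ) : (Ex m d → ℂ) →ₗ[ℂ] MvPolynomial (Fin m) ℂ :=
  ∑ a : Ex m d, (MvPolynomial.monomial (AJet_dExp a)) ∘ₗ (LinearMap.proj a)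

private theorem AJet_dP_apply {m d : ℕ} (c : Ex m d → ℂ) :
    AJet_dP m d c = ∑ a : Ex m d, MvPolynomial.monomial (AJet_dExp a) (c a) := by
  simp [AJet_dP]

private theorem AJet_dP_hom {m d : ℕ} (c : Ex m d → ℂ) : (AJet_dP m d c).IsHomogeneous d := by
  rw [AJet_dP_apply]
  apply MvPolynomial.IsHomogeneous.sum
  intro a _
  exact MvPolynomial.isHomogeneous_monomial _ (AJet_dExp_degree a)

private theorem AJet_dP_coeff {m d : ℕ} (c : Ex m d → ℂ) (b : Ex m d) :
    (AJet_dP m d c).coeff (AJet_dExp b) = c b := by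
  classical
  rw [AJet_dP_apply, MvPolynomial.coeff_sum, Finset.sum_eq_single b]
  · simp
  · intro a _ hab
    rw [MvPolynomial.coeff_monomial, if_neg]
    intro h
    exact hab (AJet_dExp_inj h)
  · intro h; exact absurd (Finset.mem_univ b) h

private theorem AJet_dP_inj {m d : ℕ} {c : Ex m d → ℂ} (h : AJet_dP m d c = 0) : c = 0 := by
  funext b
  rw [← AJet_dP_coeff c b, h]
  simp

private theorem AJet_dP_eval {m d : ℕ} (c : Ex m d → ℂ) (y : Pt m) :
    MvPolynomial.eval y (AJet_dP m d c) = ∑ a : Ex m d, c a * dm 0 a.1 y := by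
  rw [AJet_dP_apply, map_sum]
  apply Finset.sum_congr rfl
  intro a _
  rw [MvPolynomial.eval_monomial, dm_zero]
  congr 1
  rw [Finsupp.prod_fintype _ _ (by intro i; simp)]
  rfl

/-! ### derivatives along a line -/

/-- the derivative of order `al` on the line `y + t z` -/
private noncomputable def AJet_dG {m k : ℕ} (F : V m k) (al : Fin m → ℕ) (y z : Pt m) :
    Polynomial ℂ :=
  ∑ a : Ex m k, Polynomial.C (F a * (bw a.1 : ℂ)) *
    ∏ i, (Polynomial.C (((a.1 i).descFactorial (al i) : ℕ) : ℂ) *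
      (Polynomial.C (y i) + Polynomial.X * Polynomial.C (z i)) ^ (a.1 i - al i))

private theorem AJet_dG_eval {m k : ℕ} (F : V m k) (al : Fin m → ℕ) (y z : Pt m) :
    (AJet_dG F al y z).eval 0 = pd F al y := by
  simp only [AJet_dG, Polynomial.eval_finsetSum, Polynomial.eval_mul, Polynomial.eval_C,
    Polynomial.eval_prod, Polynomial.eval_pow, Polynomial.eval_add, Polynomial.eval_X, zero_mul,
    add_zero, pd, dm]
  apply Finset.sum_congr rfl
  intro a _
  ring

private theorem AJet_dG_zero {m k : ℕ} (F : V m k) (y z : Pt m) :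
    AJet_dG F 0 y z = AJet_dLn y z (AJet_dP m k fun a => F a * (bw a.1 : ℂ)) := by
  rw [AJet_dP_apply, map_sum, AJet_dG]
  apply Finset.sum_congr rfl
  intro a _
  rw [AJet_dLn, MvPolynomial.aeval_monomial]
  rw [Finsupp.prod_fintype _ _ (by intro i; simp)]
  simp [AJet_dExp_apply]

private theorem AJet_d_one_deriv (a al : ℕ) (y z : ℂ) :
    Polynomial.derivative (Polynomial.C (((a.descFactorial al : ℕ) : ℂ)) *
      (Polynomial.C y + Polynomial.X * Polynomial.C z) ^ (a - al))
    = Polynomial.C z * (Polynomial.C (((a.descFactorial (al + 1) : ℕ) : ℂ)) *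
      (Polynomial.C y + Polynomial.X * Polynomial.C z) ^ (a - (al + 1))) := by
  rw [Polynomial.derivative_C_mul, Polynomial.derivative_pow, Nat.descFactorial_succ]
  have h5 : a - (al + 1) = a - al - 1 := by omega
  rw [h5]
  simp only [Polynomial.derivative_add, Polynomial.derivative_C, Polynomial.derivative_mul,
    Polynomial.derivative_X, one_mul, mul_zero, add_zero, zero_add, Nat.cast_mul, map_mul]
  ring

private theorem AJet_dG_deriv {m k : ℕ} (F : V m k) (al : Fin m → ℕ) (y z : Pt m) :
    Polynomial.derivative (AJet_dG F al y z)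
      = ∑ i, Polynomial.C (z i) * AJet_dG F (al + Pi.single i 1) y z := by
  classical
  have h1 : ∀ (i : Fin m), Polynomial.C (z i) * AJet_dG F (al + Pi.single i 1) y z
      = ∑ a : Ex m k, Polynomial.C (F a * (bw a.1 : ℂ)) *
        ((∏ j ∈ Finset.univ.erase i, (Polynomial.C (((a.1 j).descFactorial (al j) : ℕ) : ℂ) *
          (Polynomial.C (y j) + Polynomial.X * Polynomial.C (z j)) ^ (a.1 j - al j))) *
        Polynomial.derivative (Polynomial.C (((a.1 i).descFactorial (al i) : ℕ) : ℂ) *
          (Polynomial.C (y i) + Polynomial.X * Polynomial.C (z i)) ^ (a.1 i - al i))) := by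
    intro i
    rw [AJet_dG, Finset.mul_sum]
    apply Finset.sum_congr rfl
    intro a _
    rw [AJet_d_one_deriv, ← Finset.mul_prod_erase _ _ (Finset.mem_univ i)]
    have h2 : ∏ j ∈ Finset.univ.erase i,
        (Polynomial.C (((a.1 j).descFactorial ((al + Pi.single i 1 : Fin m → ℕ) j) : ℕ) : ℂ) *
          (Polynomial.C (y j) + Polynomial.X * Polynomial.C (z j)) ^
            (a.1 j - (al + Pi.single i 1 : Fin m → ℕ) j))
        = ∏ j ∈ Finset.univ.erase i, (Polynomial.C (((a.1 j).descFactorial (al j) : ℕ) : ℂ) *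
          (Polynomial.C (y j) + Polynomial.X * Polynomial.C (z j)) ^ (a.1 j - al j)) := by
      refine Finset.prod_congr rfl fun j hj => ?_
      have : (Pi.single i 1 : Fin m → ℕ) j = 0 := Pi.single_eq_of_ne (Finset.ne_of_mem_erase hj) _
      simp [this]
    have h4 : (al + Pi.single i 1 : Fin m → ℕ) i = al i + 1 := by simp
    rw [h2, h4]
    ring
  rw [AJet_dG, Polynomial.derivative_sum]
  simp_rw [h1]
  rw [Finset.sum_comm]
  apply Finset.sum_congr rfl
  intro a _
  rw [Polynomial.derivative_C_mul, Polynomial.derivative_prod_finset, Finset.mul_sum]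

private theorem AJet_dG_iter {m k : ℕ} (F : V m k) (y z : Pt m) (s : ℕ) :
    ∀ al : Fin m → ℕ, (∀ be : Fin m → ℕ, ∑ i, be i = ∑ i, al i + s → pd F be y = 0) →
    (Polynomial.derivative^[s] (AJet_dG F al y z)).eval 0 = 0 := by
  induction s with
  | zero =>
    intro al h
    rw [Function.iterate_zero, id, AJet_dG_eval]
    exact h al (by simp)
  | succ s ih =>
    intro al h
    rw [Function.iterate_succ_apply, AJet_dG_deriv, Polynomial.iterate_derivative_sum,
      Polynomial.eval_finsetSum]
    apply Finset.sum_eq_zero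
    intro i _
    rw [Polynomial.iterate_derivative_C_mul, Polynomial.eval_mul, ih, mul_zero]
    intro be hbe
    apply h be
    rw [hbe]
    simp only [Pi.add_apply, Finset.sum_add_distrib]
    simp
    ring

private theorem AJet_d_euler {m k : ℕ} (F : V m k) (al : Fin m → ℕ) (y : Pt m) :
    ∑ i, y i * pd F (al + Pi.single i 1) y = ((k : ℂ) - (∑ i, al i : ℕ)) * pd F al y := by
  classical
  have h1 : ∀ (a : Ex m k), ∑ i, y i * dm (al + Pi.single i 1) a.1 y
      = ((k : ℂ) - (∑ i, al i : ℕ)) * dm al a.1 y := by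
    intro a
    have h2 : ∀ i, y i * dm (al + Pi.single i 1) a.1 y
        = ((a.1 i : ℂ) - al i) * dm al a.1 y := by
      intro i
      have h3 : dm (al + Pi.single i 1) a.1 y =
          ((((a.1 i).descFactorial (al i + 1) : ℕ) : ℂ) * y i ^ (a.1 i - (al i + 1))) *
          ∏ j ∈ Finset.univ.erase i, (((a.1 j).descFactorial (al j) : ℕ) : ℂ) *
            y j ^ (a.1 j - al j) := by
        rw [dm, ← Finset.mul_prod_erase _ _ (Finset.mem_univ i)]
        congr 1
        · simp
        · refine Finset.prod_congr rfl fun j hj => ?_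
          have : (Pi.single i 1 : Fin m → ℕ) j = 0 :=
            Pi.single_eq_of_ne (Finset.ne_of_mem_erase hj) _
          simp [this]
      have h4 : dm al a.1 y =
          ((((a.1 i).descFactorial (al i) : ℕ) : ℂ) * y i ^ (a.1 i - al i)) *
          ∏ j ∈ Finset.univ.erase i, (((a.1 j).descFactorial (al j) : ℕ) : ℂ) *
            y j ^ (a.1 j - al j) := by
        rw [dm, ← Finset.mul_prod_erase _ _ (Finset.mem_univ i)]
      rw [h3, h4]
      rcases lt_or_ge (al i) (a.1 i) with hlt | hge
      · rw [Nat.descFactorial_succ]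
        have h5 : y i ^ (a.1 i - al i) = y i ^ (a.1 i - (al i + 1)) * y i := by
          rw [← pow_succ]
          congr 1
          omega
        rw [h5, Nat.cast_mul, Nat.cast_sub hlt.le]
        ring
      · rcases eq_or_lt_of_le hge with heq | hlt
        · rw [Nat.descFactorial_of_lt (by omega : a.1 i < al i + 1), heq]
          simp
        · rw [Nat.descFactorial_of_lt (by omega : a.1 i < al i + 1),
            Nat.descFactorial_of_lt hlt]
          simp
    simp_rw [h2]
    rw [← Finset.sum_mul, Finset.sum_sub_distrib]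
    congr 2
    · rw [← Nat.cast_sum, a.2]
    · push_cast; rfl
  simp only [pd, Finset.mul_sum]
  rw [Finset.sum_comm]
  apply Finset.sum_congr rfl
  intro a _
  have h2 := h1 a
  calc ∑ i, y i * (F a * ((bw a.1 : ℂ) * dm (al + Pi.single i 1) a.1 y))
      = F a * (bw a.1 : ℂ) * ∑ i, y i * dm (al + Pi.single i 1) a.1 y := by
        rw [Finset.mul_sum]
        apply Finset.sum_congr rfl
        intro i _
        ring
    _ = _ := by rw [h2]; ring

private theorem AJet_d_lower {m k : ℕ} (F : V m k) (y : Pt m) (q : ℕ) (hq : q ≤ k)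
    (h : ∀ be : Fin m → ℕ, ∑ i, be i = q → pd F be y = 0) :
    ∀ s ≤ q, ∀ be : Fin m → ℕ, ∑ i, be i = s → pd F be y = 0 := by
  intro s hs
  obtain ⟨t, rfl⟩ : ∃ t, q = s + t := ⟨q - s, by omega⟩
  clear hs
  induction t generalizing s with
  | zero => exact h
  | succ t ih =>
    have h1 := ih (s + 1) (by omega) (by
      intro be hbe
      exact h be (by omega))
    intro be hbe
    have h2 := AJet_d_euler F be y
    have h3 : ∑ i, y i * pd F (be + Pi.single i 1) y = 0 := by
      apply Finset.sum_eq_zero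
      intro i _
      rw [h1, mul_zero]
      simp only [Pi.add_apply, Finset.sum_add_distrib]
      simp [hbe]
    rw [h3, hbe] at h2
    have h4 : ((k : ℂ) - (s : ℕ)) ≠ 0 := by
      rw [sub_ne_zero]
      intro h5
      have : k = s := by exact_mod_cast h5
      omega
    exact (mul_eq_zero.mp h2.symm).resolve_left h4

private theorem AJet_d_mult {m k mu : ℕ} (F : V m k) (y : Pt m) (hmu : 1 ≤ mu)
    (hmk : mu - 1 ≤ k) (h : ∀ be : Fin m → ℕ, ∑ i, be i = mu - 1 → pd F be y = 0) :
    AJet_dMult mu y (AJet_dP m k fun a => F a * (bw a.1 : ℂ)) := by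
  intro z
  rw [← AJet_dG_zero, Polynomial.X_pow_dvd_iff]
  intro d hd
  have h1 := AJet_dG_iter F y z d 0 (by
    intro be hbe
    exact AJet_d_lower F y (mu - 1) hmk h d (by omega) be (by simpa using hbe))
  rw [← Polynomial.coeff_zero_eq_eval_zero, Polynomial.coeff_iterate_derivative] at h1
  rw [zero_add, nsmul_eq_mul, Nat.descFactorial_self] at h1
  have h2 : ((d.factorial : ℕ) : ℂ) ≠ 0 := by exact_mod_cast Nat.factorial_ne_zero d
  exact (mul_eq_zero.mp h1).resolve_left h2



/-! ### the polynomial of a family, divided by the monomial nu -/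

private theorem AJet_div {m K l : ℕ} (hlK : l ≤ K) (nu : Ex m (K - l)) (c : Ex m K → ℂ)
    (hc : ∀ b, c b ≠ 0 → ∀ i, nu.1 i ≤ b.1 i) :
    ∃ Q : MvPolynomial (Fin m) ℂ, Q.IsHomogeneous l ∧
      MvPolynomial.monomial (AJet_dExp nu) 1 * Q = AJet_dP m K c := by
  classical
  refine ⟨∑ b : Ex m K, MvPolynomial.monomial (AJet_dExp b - AJet_dExp nu) (c b), ?_, ?_⟩
  · apply MvPolynomial.IsHomogeneous.sum
    intro b _
    by_cases hb : c b = 0
    · rw [hb, MvPolynomial.monomial_zero]
      exact MvPolynomial.isHomogeneous_zero _ _ _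
    · apply MvPolynomial.isHomogeneous_monomial
      have h1 : AJet_dExp nu ≤ AJet_dExp b := fun i => hc b hb i
      have h2 : (AJet_dExp b - AJet_dExp nu + AJet_dExp nu).degree = K := by
        rw [tsub_add_cancel_of_le h1]
        exact AJet_dExp_degree b
      rw [map_add, AJet_dExp_degree nu] at h2
      omega
  · rw [Finset.mul_sum, AJet_dP_apply]
    refine Finset.sum_congr rfl fun b _ => ?_
    rw [MvPolynomial.monomial_mul, one_mul]
    by_cases hb : c b = 0
    · rw [hb, MvPolynomial.monomial_zero, MvPolynomial.monomial_zero]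
    · have h1 : AJet_dExp nu ≤ AJet_dExp b := fun i => hc b hb i
      rw [add_tsub_cancel_of_le h1]

variable {A : Type} [Fintype A] [DecidableEq A] {m K : ℕ}

/-- a function whose monomials are all divisible by the monomial nu of degree K - l, with all
derivatives of order l zero at a point y where the monomial nu does not vanish, is zero -/
theorem jets_inj (ph : A → Ex m K) (hph : Function.Injective ph) (l : ℕ) (hlK : l ≤ K)
    (nu : Ex m (K - l)) (y : Pt m) (hy : ∏ i, y i ^ nu.1 i ≠ 0) (F : EuclideanSpace ℂ A)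
    (hF : ∀ a, F a ≠ 0 → ∀ i, nu.1 i ≤ (ph a).1 i) (h : ∀ al : Ex m l, pA ph F al.1 y = 0) :
    F = 0 := by
  set G : V m K := emb ph F with hG
  have h1 : ∀ be : Fin m → ℕ, ∑ i, be i = (l + 1) - 1 → pd G be y = 0 := by
    intro be hbe
    rw [hG, pd_emb ph hph]
    exact h ⟨be, by omega⟩
  have h2 : AJet_dMult (l + 1) y (AJet_dP m K fun b => G b * (bw b.1 : ℂ)) :=
    AJet_d_mult G y (by omega) (by omega) h1
  have hc : ∀ b : Ex m K, G b * (bw b.1 : ℂ) ≠ 0 → ∀ i, nu.1 i ≤ b.1 i := by
    intro b hb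
    have h3 : G b ≠ 0 := left_ne_zero_of_mul hb
    have h4 : G b = ∑ a, if ph a = b then F a / (bw b.1 : ℂ) else 0 := rfl
    rw [h4] at h3
    obtain ⟨a, -, ha⟩ := Finset.exists_ne_zero_of_sum_ne_zero h3
    by_cases hab : ph a = b
    · rw [if_pos hab] at ha
      have h5 : F a ≠ 0 := by
        intro h5
        rw [h5, zero_div] at ha
        exact ha rfl
      rw [← hab]
      exact hF a h5
    · rw [if_neg hab] at ha
      exact absurd rfl ha
  obtain ⟨Q, hQ, hQ2⟩ := AJet_div hlK nu _ hc
  rw [← hQ2] at h2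
  have h3 : MvPolynomial.eval y (MvPolynomial.monomial (AJet_dExp nu) (1 : ℂ)) ≠ 0 := by
    rw [MvPolynomial.eval_monomial, one_mul, Finsupp.prod_fintype _ _ (by intro i; simp)]
    exact hy
  have h4 := AJet_dMult_cancel y _ _ h3 h2
  have h5 : Q = 0 := AJet_dMult_zero_of (by omega : l < l + 1) y Q hQ h4
  rw [h5, mul_zero] at hQ2
  have h6 := AJet_dP_inj hQ2.symm
  have h7 : G = 0 := by
    ext b
    have h8 := congrFun h6 b
    rcases mul_eq_zero.mp h8 with h8 | h8
    · exact h8
    · exact absurd (Complex.ofReal_eq_zero.mp h8) (bw_pos _).ne'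
  obtain ⟨c, hc0, hc1⟩ := emb_norm_ge m K
  have h9 := hc1 A ph hph F
  rw [← hG, h7, norm_zero] at h9
  have h10 : ‖F‖ ≤ 0 := by
    by_contra h11
    push Not at h11
    have := mul_pos hc0 h11
    linarith
  exact norm_le_zero_iff.1 h10

theorem fv_indep (ph : A → Ex m K) (hph : Function.Injective ph) (l : ℕ) (hlK : l ≤ K)
    (nu : Ex m (K - l)) (y : Pt m) (hy : ∏ i, y i ^ nu.1 i ≠ 0) :
    LinearIndependent ℂ (fun a : {a : A // ∀ i, nu.1 i ≤ (ph a).1 i} => fv ph l a.1 y) := by
  classical
  rw [Fintype.linearIndependent_iff]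
  intro g hg
  set F : EuclideanSpace ℂ A := WithLp.toLp 2 fun a =>
    if h : ∀ i, nu.1 i ≤ (ph a).1 i then g ⟨a, h⟩ else 0 with hF
  have hF1 : ∀ a : {a : A // ∀ i, nu.1 i ≤ (ph a).1 i}, F a.1 = g a := by
    intro a
    change (if h : ∀ i, nu.1 i ≤ (ph a.1).1 i then g ⟨a.1, h⟩ else 0) = g a
    rw [dif_pos a.2]
  have hF2 : ∀ a : A, F a ≠ 0 → ∀ i, nu.1 i ≤ (ph a).1 i := by
    intro a ha
    by_contra h
    apply ha
    change (if h : ∀ i, nu.1 i ≤ (ph a).1 i then g ⟨a, h⟩ else 0) = 0
    rw [dif_neg h]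
  have h1 : ∀ al : Fin m → ℕ, pA ph F al y =
      ∑ a : {a : A // ∀ i, nu.1 i ≤ (ph a).1 i}, g a * dm al (ph a.1).1 y := by
    intro al
    unfold pA
    have h2 : ∑ a, F a * dm al (ph a).1 y =
        ∑ a ∈ Finset.univ.filter (fun a : A => ∀ i, nu.1 i ≤ (ph a).1 i),
          F a * dm al (ph a).1 y := by
      symm
      refine Finset.sum_subset (Finset.subset_univ _) fun a _ ha => ?_
      have h3 : F a = 0 := by
        by_contra h4
        exact ha (Finset.mem_filter.2 ⟨Finset.mem_univ _, hF2 a h4⟩)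
      rw [h3, zero_mul]
    rw [h2, ← Finset.sum_subtype_eq_sum_filter, Finset.subtype_univ]
    exact Finset.sum_congr rfl fun a _ => by rw [hF1]
  have h2 : ∑ al : Ex m l, pA ph F al.1 y • evA ph al.1 y = 0 := by
    rw [← hg]
    unfold fv
    simp only [Finset.smul_sum, h1, Finset.sum_smul, smul_smul]
    rw [Finset.sum_comm]
  have h3 : ∀ al : Ex m l, pA ph F al.1 y = 0 := by
    have h4 : inner ℂ F (∑ al : Ex m l, pA ph F al.1 y • evA ph al.1 y) = 0 := by
      rw [h2, inner_zero_right]
    rw [inner_sum] at h4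
    have h5 : ∀ al : Ex m l, inner ℂ F (pA ph F al.1 y • evA ph al.1 y) =
        ((‖pA ph F al.1 y‖ ^ 2 : ℝ) : ℂ) := by
      intro al
      rw [inner_smul_right, ← inner_conj_symm, inner_evA, Complex.mul_conj,
        Complex.normSq_eq_norm_sq]
    simp only [h5] at h4
    rw [← Complex.ofReal_sum, Complex.ofReal_eq_zero] at h4
    intro al
    have h6 := (Finset.sum_eq_zero_iff_of_nonneg (fun _ _ => by positivity)).1 h4 al
      (Finset.mem_univ _)
    exact norm_eq_zero.1 (pow_eq_zero_iff (two_ne_zero) |>.1 h6)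
  have h4 : F = 0 := jets_inj ph hph l hlK nu y hy F hF2 h3
  intro a
  rw [← hF1 a, h4]
  rfl

theorem continuous_fv (ph : A → Ex m K) (l : ℕ) (a : A) :
    Continuous (fun y : Pt m => fv ph l a y) := by
  unfold fv
  refine continuous_finsetSum _ fun al _ => ?_
  exact (continuous_dm al.1 (ph a).1).smul (continuous_evA ph al.1)

private theorem AJet_isCompact_Ann (m : ℕ) : IsCompact (Ann m) := by
  refine Metric.isCompact_of_isClosed_isBounded ?_ ?_
  · exact (isClosed_le continuous_const continuous_nsq).inter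
      (isClosed_le continuous_nsq continuous_const)
  · rw [isBounded_iff_forall_norm_le]
    refine ⟨2, fun x hx => ?_⟩
    rw [pi_norm_le_iff_of_nonneg (by norm_num)]
    intro i
    have h1 : ‖x i‖ ^ 2 ≤ nsq x := by
      unfold nsq
      exact Finset.single_le_sum (f := fun i => ‖x i‖ ^ 2) (fun j _ => by positivity)
        (Finset.mem_univ i)
    have h2 := hx.2
    nlinarith [norm_nonneg (x i)]

theorem fv_bound (ph : A → Ex m K) (l : ℕ) : ∃ C : ℝ, 0 < C ∧ ∀ a, ∀ y ∈ Ann m,
    ∀ W : Submodule ℂ (EuclideanSpace ℂ A), ‖W.starProjection (fv ph l a y)‖ ≤ C * JA ph l W y := by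
  have hphi : Continuous (fun y : Pt m => ∑ a : A, ∑ al : Ex m l, ‖dm al.1 (ph a).1 y‖) := by
    refine continuous_finsetSum _ fun a _ => continuous_finsetSum _ fun al _ => ?_
    exact (continuous_dm al.1 (ph a).1).norm
  obtain ⟨C, hC⟩ := (AJet_isCompact_Ann m).exists_bound_of_continuousOn hphi.continuousOn
  refine ⟨|C| + 1, by positivity, fun a y hy W => ?_⟩
  unfold fv JA
  rw [map_sum, Finset.mul_sum]
  refine (norm_sum_le _ _).trans (Finset.sum_le_sum fun al _ => ?_)
  rw [map_smul, norm_smul]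
  refine mul_le_mul_of_nonneg_right ?_ (norm_nonneg _)
  have h1 := hC y hy
  rw [Real.norm_eq_abs] at h1
  have h2 : ‖dm al.1 (ph a).1 y‖ ≤ ∑ a : A, ∑ al : Ex m l, ‖dm al.1 (ph a).1 y‖ := by
    refine le_trans ?_ (Finset.single_le_sum (f := fun a : A => ∑ al : Ex m l,
      ‖dm al.1 (ph a).1 y‖) (fun a _ => Finset.sum_nonneg fun al _ => norm_nonneg _)
      (Finset.mem_univ a))
    exact Finset.single_le_sum (f := fun al : Ex m l => ‖dm al.1 (ph a).1 y‖)
      (fun al _ => norm_nonneg _) (Finset.mem_univ al)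
  have h3 := le_abs_self (∑ a : A, ∑ al : Ex m l, ‖dm al.1 (ph a).1 y‖)
  have h4 := le_abs_self C
  linarith

end GTor
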