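/- piece AO: one step estimates for families -/
import Pool.Agent.Lib_MP_e0d435_ag_T.ABasic
import Pool.Agent.Lib_MP_e0d435_ag.Sublevel
import Pool.Agent.Lib_MP_e0d435_ag.OneStep

open Finset MeasureTheory Complex
open scoped ENNReal ContDiff

namespace GTor
open GPn

variable {A : Type} [Fintype A] [DecidableEq A] {m K : ℕ}

theorem measurable_bA' (ph : A → Ex m K) (W : Submodule ℂ (EuclideanSpace ℂ A)) :
    Measurable (bA ph W) := by
  unfold bA
  exact ((W.starProjection.continuous.comp (continuous_evA ph 0)).norm).measurable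

theorem measurable_JA' (ph : A → Ex m K) (l : ℕ) (W : Submodule ℂ (EuclideanSpace ℂ A)) :
    Measurable (JA ph l W) := by
  unfold JA
  exact Finset.measurable_fun_sum _ fun al _ =>
    ((W.starProjection.continuous.comp (continuous_evA ph al.1)).norm).measurable

omit [DecidableEq A] in
private lemma AOne_inner_proj (W : Submodule ℂ (EuclideanSpace ℂ A)) (F : EuclideanSpace ℂ A)
    (hF : F ∈ W) (v : EuclideanSpace ℂ A) : inner ℂ (W.starProjection v) F = inner ℂ v F := by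
  rw [Submodule.inner_starProjection_left_eq_right, Submodule.starProjection_eq_self_iff.2 hF]

private lemma AOne_pA_le (ph : A → Ex m K) (W : Submodule ℂ (EuclideanSpace ℂ A))
    (F : EuclideanSpace ℂ A) (hF : F ∈ W) (al : Fin m → ℕ) (y : Pt m) :
    ‖pA ph F al y‖ ≤ ‖W.starProjection (evA ph al y)‖ * ‖F‖ := by
  rw [← inner_evA, ← AOne_inner_proj W F hF]
  exact norm_inner_le_norm _ _

private lemma AOne_proj_le (ph : A → Ex m K) (W : Submodule ℂ (EuclideanSpace ℂ A))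
    (b : OrthonormalBasis (Fin (Module.finrank ℂ W)) ℂ W) (al : Fin m → ℕ) (y : Pt m) :
    ‖W.starProjection (evA ph al y)‖ ≤ ∑ i, ‖pA ph (b i : EuclideanSpace ℂ A) al y‖ := by
  have h1 : W.starProjection (evA ph al y) =
      ∑ i, (inner ℂ (b i : EuclideanSpace ℂ A) (evA ph al y)) • (b i : EuclideanSpace ℂ A) := by
    have h2 := b.sum_repr' (W.orthogonalProjectionOnto (evA ph al y))
    rw [Submodule.starProjection_apply, ← h2]
    push_cast
    refine Finset.sum_congr rfl fun i _ => ?_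
    congr 1
    rw [Submodule.coe_inner, ← Submodule.starProjection_apply,
      ← Submodule.inner_starProjection_left_eq_right,
      Submodule.starProjection_eq_self_iff.2 (b i).2]
  rw [h1]
  refine (norm_sum_le _ _).trans (Finset.sum_le_sum fun i _ => ?_)
  rw [norm_smul]
  have h3 : ‖(b i : EuclideanSpace ℂ A)‖ = 1 := b.orthonormal.1 i
  rw [h3, mul_one, ← inner_evA, ← norm_inner_symm]

omit [DecidableEq A] in
private lemma AOne_bA_nonneg (ph : A → Ex m K) (W : Submodule ℂ (EuclideanSpace ℂ A)) (y : Pt m) :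
    0 ≤ bA ph W y := norm_nonneg _

omit [DecidableEq A] in
private lemma AOne_JA_nonneg (ph : A → Ex m K) (l : ℕ) (W : Submodule ℂ (EuclideanSpace ℂ A))
    (y : Pt m) : 0 ≤ JA ph l W y := Finset.sum_nonneg fun _ _ => norm_nonneg _

/-- the volume estimate, uniform in the subspace -/
private lemma AOne_vol (ph : A → Ex m K) (hph : Function.Injective ph) (l : ℕ) (hl : 1 ≤ l) :
    ∃ C : ℝ, 0 < C ∧ ∀ (W : Submodule ℂ (EuclideanSpace ℂ A)) (ta s : ℝ), 0 < ta → 0 < s →
    volume {x : Pt m | x ∈ Ann m ∧ bA ph W x ≤ ta ∧ s ≤ JA ph l W x} ≤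
      ENNReal.ofReal (C * (ta / s) ^ (2 / (l : ℝ))) := by
  obtain ⟨C, hC, h⟩ := sublevel m K l hl
  set N := Fintype.card A with hN
  set L := Fintype.card (Ex m l) with hL
  set M : ℝ := (L : ℝ) * N + 1 with hM
  have hM0 : 0 < M := by positivity
  refine ⟨(M * (C * M ^ (2 / (l : ℝ)))), by positivity, fun W ta s hta hs => ?_⟩
  have hr : Module.finrank ℂ W ≤ N := by
    have h1 := Submodule.finrank_le W
    have h2 : Module.finrank ℂ (EuclideanSpace ℂ A) = N := by
      rw [hN]; exact finrank_euclideanSpace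
    rwa [h2] at h1
  let b := stdOrthonormalBasis ℂ W
  have hsub : {x : Pt m | x ∈ Ann m ∧ bA ph W x ≤ ta ∧ s ≤ JA ph l W x} ⊆
      ⋃ p : Ex m l × Fin (Module.finrank ℂ W),
        {x : Pt m | x ∈ Ann m ∧ ‖pd (emb ph (b p.2 : EuclideanSpace ℂ A)) 0 x‖ ≤ ta ∧
          s / M ≤ ‖pd (emb ph (b p.2 : EuclideanSpace ℂ A)) p.1.1 x‖} := by
    rintro x ⟨hx, hx1, hx2⟩
    rw [Set.mem_iUnion]
    by_contra hcon
    push Not at hcon
    have h3 : ∀ p : Ex m l × Fin (Module.finrank ℂ W),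
        ‖pA ph (b p.2 : EuclideanSpace ℂ A) p.1.1 x‖ < s / M := by
      intro p
      by_contra h4
      push Not at h4
      refine hcon p ⟨hx, ?_, ?_⟩
      · have h5 := AOne_pA_le ph W (b p.2 : EuclideanSpace ℂ A) (b p.2).2 0 x
        have h6 : ‖(b p.2 : EuclideanSpace ℂ A)‖ = 1 := b.orthonormal.1 p.2
        rw [h6, mul_one] at h5
        rw [pd_emb ph hph]
        exact h5.trans hx1
      · rw [pd_emb ph hph]
        exact h4
    have h7 : JA ph l W x ≤ (L : ℝ) * (N * (s / M)) := by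
      rw [JA]
      refine (Finset.sum_le_card_nsmul _ _ (N * (s / M)) fun al _ => ?_).trans (le_of_eq ?_)
      · refine (AOne_proj_le ph W b al.1 x).trans ?_
        refine (Finset.sum_le_card_nsmul _ _ (s / M) fun i _ => (h3 (al, i)).le).trans ?_
        rw [Finset.card_univ, Fintype.card_fin, nsmul_eq_mul]
        have : ((Module.finrank ℂ W : ℕ) : ℝ) ≤ N := by exact_mod_cast hr
        exact mul_le_mul_of_nonneg_right this (by positivity)
      · rw [Finset.card_univ, nsmul_eq_mul]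
    have h8 : (L : ℝ) * (N * (s / M)) < s := by
      have : (L : ℝ) * (N * (s / M)) = ((L : ℝ) * N / M) * s := by ring
      rw [this]
      have h9 : (L : ℝ) * N / M < 1 := by
        rw [div_lt_one hM0]; rw [hM]; linarith
      nlinarith
    linarith
  refine (measure_mono hsub).trans ((measure_iUnion_le _).trans ?_)
  rw [tsum_fintype]
  have h10 : ∀ p : Ex m l × Fin (Module.finrank ℂ W),
      volume {x : Pt m | x ∈ Ann m ∧ ‖pd (emb ph (b p.2 : EuclideanSpace ℂ A)) 0 x‖ ≤ ta ∧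
          s / M ≤ ‖pd (emb ph (b p.2 : EuclideanSpace ℂ A)) p.1.1 x‖} ≤
        ENNReal.ofReal (C * (ta / (s / M)) ^ (2 / (l : ℝ))) := fun p =>
    h (emb ph (b p.2 : EuclideanSpace ℂ A)) p.1 ta (s / M) hta (by positivity)
  refine (Finset.sum_le_card_nsmul _ _ _ fun p _ => h10 p).trans ?_
  rw [Finset.card_univ, nsmul_eq_mul, Fintype.card_prod, Fintype.card_fin]
  have h11 : ta / (s / M) = M * (ta / s) := by field_simp
  rw [h11, Real.mul_rpow hM0.le (by positivity)]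
  have h12 : ((L * Module.finrank ℂ W : ℕ) : ℝ≥0∞) ≤ ENNReal.ofReal M := by
    rw [← ENNReal.ofReal_natCast]
    refine ENNReal.ofReal_le_ofReal ?_
    rw [hM]
    push_cast
    have : ((Module.finrank ℂ W : ℕ) : ℝ) ≤ N := by exact_mod_cast hr
    nlinarith [Nat.cast_nonneg (α := ℝ) L]
  refine (mul_le_mul_left h12 _).trans ?_
  rw [← ENNReal.ofReal_mul hM0.le]
  refine ENNReal.ofReal_le_ofReal (le_of_eq ?_)
  ring

/-- dyadic layer cake -/
private lemma AOne_layer {m : ℕ} (g : Pt m → ℝ) (hg : Measurable g) (B C a q : ℝ) (hB : 0 < B)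
    (hC : 0 ≤ C) (hq : 0 ≤ q) (hqa : q < a) (S : Set (Pt m)) (hS : MeasurableSet S)
    (hSB : ∀ x ∈ S, g x ≤ B) (h0 : volume {x | x ∈ S ∧ g x ≤ 0} = 0)
    (h : ∀ t : ℝ, 0 < t → t ≤ B → volume {x | x ∈ S ∧ t / 2 < g x ∧ g x ≤ t} ≤
      ENNReal.ofReal (C * t ^ a)) :
    ∫⁻ y in S, (ENNReal.ofReal (g y)) ^ (-q) ≤
      ENNReal.ofReal (C * 2 ^ q * B ^ (a - q) * (1 - (2 : ℝ) ^ (q - a))⁻¹) := by
  set E : ℕ → Set (Pt m) := fun j => {x | x ∈ S ∧ B / 2 ^ j / 2 < g x ∧ g x ≤ B / 2 ^ j} with hE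
  have hEm : ∀ j, MeasurableSet (E j) := fun j =>
    hS.inter ((measurableSet_lt measurable_const hg).inter (measurableSet_le hg measurable_const))
  have hsub : S ⊆ {x | x ∈ S ∧ g x ≤ 0} ∪ ⋃ j, E j := by
    intro x hx
    by_cases h1 : g x ≤ 0
    · exact Or.inl ⟨hx, h1⟩
    · push Not at h1
      right
      rw [Set.mem_iUnion]
      -- the largest j with g x ≤ B / 2^j
      have hex : ∃ j : ℕ, B / 2 ^ j / 2 < g x := by
        obtain ⟨j, hj⟩ := exists_nat_gt (B / g x)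
        refine ⟨j, ?_⟩
        have h2 : (j : ℝ) < 2 ^ j := by exact_mod_cast Nat.lt_two_pow_self
        have h3 : B / 2 ^ j < g x := by
          rw [div_lt_iff₀ (by positivity)]
          rw [div_lt_iff₀ h1] at hj
          nlinarith
        have h4 : 0 < B / 2 ^ j := by positivity
        linarith
      classical
      refine ⟨Nat.find hex, hx, Nat.find_spec hex, ?_⟩
      rcases Nat.eq_zero_or_pos (Nat.find hex) with h5 | h5
      · rw [h5]; simpa using hSB x hx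
      · have h6 := Nat.find_min hex (Nat.sub_lt h5 one_pos)
        push Not at h6
        refine h6.trans (le_of_eq ?_)
        obtain ⟨r, hr⟩ : ∃ r, Nat.find hex = r + 1 := ⟨Nat.find hex - 1, by omega⟩
        rw [hr]
        simp only [Nat.add_sub_cancel]
        rw [pow_succ]
        field_simp
  have hterm : ∀ j, ∫⁻ y in E j, (ENNReal.ofReal (g y)) ^ (-q) ≤
      ENNReal.ofReal ((C * 2 ^ q * B ^ (a - q)) * ((2 : ℝ) ^ (q - a)) ^ j) := by
    intro j
    have hBj : 0 < B / 2 ^ j := by positivity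
    have h1 : ∫⁻ y in E j, (ENNReal.ofReal (g y)) ^ (-q) ≤
        ∫⁻ _ in E j, ENNReal.ofReal ((B / 2 ^ j / 2) ^ (-q)) := by
      refine setLIntegral_mono' (hEm j) fun y hy => ?_
      have h2 : 0 < g y := lt_trans (by positivity) hy.2.1
      rw [ENNReal.ofReal_rpow_of_pos h2]
      refine ENNReal.ofReal_le_ofReal ?_
      exact Real.rpow_le_rpow_of_nonpos (by positivity) hy.2.1.le (by linarith)
    refine h1.trans ?_
    rw [setLIntegral_const]
    refine (mul_le_mul_right (h (B / 2 ^ j) hBj (div_le_self hB.le (one_le_pow₀ (by norm_num))))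
      _).trans ?_
    rw [← ENNReal.ofReal_mul (by positivity)]
    refine ENNReal.ofReal_le_ofReal (le_of_eq ?_)
    have h3 : (B / 2 ^ j / 2) ^ (-q) = 2 ^ q * (B / 2 ^ j) ^ (-q) := by
      rw [Real.div_rpow hBj.le (by norm_num), Real.rpow_neg (by norm_num : (0 : ℝ) ≤ 2)]
      field_simp
    have h4 : (B / 2 ^ j) ^ (-q) * (B / 2 ^ j) ^ a = (B / 2 ^ j) ^ (a - q) := by
      rw [← Real.rpow_add hBj]; congr 1; ring
    have h5 : (B / 2 ^ j) ^ (a - q) = B ^ (a - q) * ((2 : ℝ) ^ (q - a)) ^ j := by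
      rw [Real.div_rpow hB.le (by positivity), ← Real.rpow_natCast, ← Real.rpow_natCast,
        ← Real.rpow_mul (by norm_num), ← Real.rpow_mul (by norm_num), div_eq_mul_inv,
        ← Real.rpow_neg (by norm_num)]
      congr 2
      ring
    calc (B / 2 ^ j / 2) ^ (-q) * (C * (B / 2 ^ j) ^ a)
        = C * 2 ^ q * ((B / 2 ^ j) ^ (-q) * (B / 2 ^ j) ^ a) := by rw [h3]; ring
      _ = _ := by rw [h4, h5]; ring
  have hr0 : 0 ≤ (2 : ℝ) ^ (q - a) := by positivity
  have hr1 : (2 : ℝ) ^ (q - a) < 1 :=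
    Real.rpow_lt_one_of_one_lt_of_neg (by norm_num) (by linarith)
  calc ∫⁻ y in S, (ENNReal.ofReal (g y)) ^ (-q)
      ≤ ∫⁻ y in {x | x ∈ S ∧ g x ≤ 0} ∪ ⋃ j, E j, (ENNReal.ofReal (g y)) ^ (-q) :=
        lintegral_mono_set hsub
    _ ≤ (∫⁻ y in {x | x ∈ S ∧ g x ≤ 0}, (ENNReal.ofReal (g y)) ^ (-q)) +
        ∫⁻ y in ⋃ j, E j, (ENNReal.ofReal (g y)) ^ (-q) := lintegral_union_le _ _ _
    _ = ∫⁻ y in ⋃ j, E j, (ENNReal.ofReal (g y)) ^ (-q) := by
        rw [setLIntegral_measure_zero _ _ h0, zero_add]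
    _ ≤ ∑' j, ∫⁻ y in E j, (ENNReal.ofReal (g y)) ^ (-q) := lintegral_iUnion_le _ _
    _ ≤ ∑' j : ℕ, ENNReal.ofReal ((C * 2 ^ q * B ^ (a - q)) * ((2 : ℝ) ^ (q - a)) ^ j) :=
        ENNReal.tsum_le_tsum hterm
    _ = ENNReal.ofReal (∑' j : ℕ, (C * 2 ^ q * B ^ (a - q)) * ((2 : ℝ) ^ (q - a)) ^ j) := by
        rw [ENNReal.ofReal_tsum_of_nonneg (fun j => by positivity)
          ((summable_geometric_of_lt_one hr0 hr1).mul_left _)]
    _ = _ := by rw [tsum_mul_left, tsum_geometric_of_lt_one hr0 hr1]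

private lemma AOne_measAnn (m : ℕ) : MeasurableSet (Ann m) := by
  have hc := (continuous_nsq (m := m)).measurable
  exact (measurableSet_le measurable_const hc).inter (measurableSet_le hc measurable_const)

private lemma AOne_ite {m : ℕ} (S T : Set (Pt m)) (hT : MeasurableSet T) (f : Pt m → ℝ≥0∞)
    [DecidablePred (· ∈ T)] :
    ∫⁻ y in S, (if y ∈ T then f y else 0) = ∫⁻ y in T ∩ S, f y := by
  rw [← setLIntegral_indicator hT]
  refine lintegral_congr fun y => ?_
  rw [Set.indicator_apply]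

private lemma AOne_bA_le (ph : A → Ex m K) (hph : Function.Injective ph)
    (W : Submodule ℂ (EuclideanSpace ℂ A)) (y : Pt m) (hy : y ∈ Ann m) :
    bA ph W y ≤ 2 ^ K := by
  have h1 : bA ph W y ≤ ‖evA ph 0 y‖ := by
    unfold bA
    exact Submodule.norm_starProjection_apply_le _ _
  have h2 : enm y ≤ 2 := by
    have h3 : enm y ^ 2 ≤ 4 := by rw [enm_sq]; exact hy.2
    nlinarith [enm_nonneg y]
  have h4 : ‖evA ph 0 y‖ * ‖evA ph 0 y‖ ≤ ‖evA ph 0 y‖ * 2 ^ K := by
    have h5 : ‖evA ph 0 y‖ * ‖evA ph 0 y‖ = ‖pd (emb ph (evA ph 0 y)) 0 y‖ := by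
      rw [pd_emb ph hph, ← inner_evA, inner_self_eq_norm_sq_to_K, norm_pow, RCLike.norm_ofReal,
        abs_of_nonneg (norm_nonneg _), sq]
    rw [h5, ← inner_evd]
    refine (norm_inner_le_norm _ _).trans ?_
    rw [norm_ev, mul_comm]
    exact mul_le_mul (emb_norm_le ph hph _) (pow_le_pow_left₀ (enm_nonneg y) h2 K)
      (by have := enm_nonneg y; positivity) (norm_nonneg _)
  refine h1.trans ?_
  by_cases h6 : ‖evA ph 0 y‖ = 0
  · rw [h6]; positivity
  · have h7 : 0 < ‖evA ph 0 y‖ := lt_of_le_of_ne (norm_nonneg _) (Ne.symm h6)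
    exact le_of_mul_le_mul_left h4 h7

private lemma AOne_null (ph : A → Ex m K) (hph : Function.Injective ph)
    (F : EuclideanSpace ℂ A) (hF : F ≠ 0) : emb ph F ≠ 0 := by
  obtain ⟨c, hc, h⟩ := emb_norm_ge m K
  intro h0
  have h1 := h A ph hph F
  rw [h0, norm_zero] at h1
  have h2 : 0 < ‖F‖ := norm_pos_iff.2 hF
  nlinarith [mul_pos hc h2]

theorem one_stepA (ph : A → Ex m K) (hph : Function.Injective ph) (l : ℕ) (hl : 1 ≤ l) (q : ℝ)
    (hq : 0 ≤ q) (hql : q * l ≤ 1 / 2) (s0 : ℝ) (hs : 0 < s0) : ∃ C : ℝ≥0∞, C ≠ ⊤ ∧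
    ∀ W : Submodule ℂ (EuclideanSpace ℂ A),
      ∫⁻ y in Ann m, (if s0 ≤ JA ph l W y then (ENNReal.ofReal (bA ph W y)) ^ (-q) else 0) ≤ C := by
  obtain ⟨C, hC, hvol⟩ := AOne_vol ph hph l hl
  have hl0 : (0 : ℝ) < l := by exact_mod_cast hl
  have hqa : q < 2 / (l : ℝ) := by
    rw [lt_div_iff₀ hl0]; linarith
  refine ⟨ENNReal.ofReal ((C * (1 / s0) ^ (2 / (l : ℝ))) * 2 ^ q *
    (2 ^ K : ℝ) ^ (2 / (l : ℝ) - q) * (1 - (2 : ℝ) ^ (q - 2 / (l : ℝ)))⁻¹),
    ENNReal.ofReal_ne_top, fun W => ?_⟩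
  have hT : MeasurableSet {y : Pt m | s0 ≤ JA ph l W y} :=
    measurableSet_le measurable_const (measurable_JA' ph l W)
  classical
  have h1 := AOne_ite (Ann m) {y : Pt m | s0 ≤ JA ph l W y} hT
    (fun y => (ENNReal.ofReal (bA ph W y)) ^ (-q))
  simp only [Set.mem_ofPred_eq] at h1
  rw [h1]
  refine AOne_layer (bA ph W) (measurable_bA' ph W) (2 ^ K) _ _ q (by positivity) (by positivity) hq hqa
    _ (hT.inter (AOne_measAnn m)) (fun x hx => AOne_bA_le ph hph W x hx.2) ?_ ?_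
  · -- null set
    have h2 : ∀ j : ℕ, volume {x | x ∈ {y : Pt m | s0 ≤ JA ph l W y} ∩ Ann m ∧ bA ph W x ≤ 0} ≤
        ENNReal.ofReal (C * ((((1 : ℝ) / (j + 1)) / s0)) ^ (2 / (l : ℝ))) := by
      intro j
      refine (measure_mono ?_).trans (hvol W (1 / (j + 1)) s0 (by positivity) hs)
      rintro x ⟨⟨hx1, hx2⟩, hx3⟩
      exact ⟨hx2, hx3.trans (by positivity), hx1⟩
    have h3 : Filter.Tendsto (fun j : ℕ => ENNReal.ofReal
        (C * ((((1 : ℝ) / (j + 1)) / s0)) ^ (2 / (l : ℝ)))) Filter.atTop (nhds 0) := by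
      have h4 : Filter.Tendsto (fun j : ℕ => C * ((((1 : ℝ) / (j + 1)) / s0)) ^ (2 / (l : ℝ)))
          Filter.atTop (nhds (C * ((0 / s0)) ^ (2 / (l : ℝ)))) := by
        refine Filter.Tendsto.const_mul _ ?_
        refine Filter.Tendsto.rpow_const ?_ (Or.inr (by positivity))
        exact tendsto_one_div_add_atTop_nhds_zero_nat.div_const _
      have h5 : C * ((0 / s0)) ^ (2 / (l : ℝ)) = 0 := by
        rw [zero_div, Real.zero_rpow (by positivity), mul_zero]
      rw [h5] at h4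
      have h6 := ENNReal.tendsto_ofReal h4
      simpa using h6
    exact le_antisymm (ge_of_tendsto' h3 h2) bot_le
  · intro t ht _
    refine (measure_mono ?_).trans ((hvol W t s0 ht hs).trans (le_of_eq ?_))
    · rintro x ⟨⟨hx1, hx2⟩, hx3⟩
      exact ⟨hx2, hx3.2, hx1⟩
    · congr 1
      have : t / s0 = (1 / s0) * t := by ring
      rw [this, Real.mul_rpow (by positivity) ht.le]
      ring

theorem one_stepA' (ph : A → Ex m K) (hph : Function.Injective ph) (l : ℕ) (hl : 1 ≤ l) (q : ℝ)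
    (hq : 0 ≤ q) (hql : q * l ≤ 1 / 2) : ∃ C : ℝ≥0∞, C ≠ ⊤ ∧
    ∀ W : Submodule ℂ (EuclideanSpace ℂ A), W ≠ ⊥ →
      ∫⁻ y in Ann m, (if bA ph W y ≤ (JA ph l W y) ^ 2 then
        (ENNReal.ofReal (bA ph W y)) ^ (-q) else 0) ≤ C := by
  obtain ⟨C, hC, hvol⟩ := AOne_vol ph hph l hl
  have hl0 : (0 : ℝ) < l := by exact_mod_cast hl
  have hqa : q < 1 / (l : ℝ) := by
    rw [lt_div_iff₀ hl0]; linarith
  refine ⟨ENNReal.ofReal ((C * 2 ^ (1 / (l : ℝ))) * 2 ^ q *
    (2 ^ K : ℝ) ^ (1 / (l : ℝ) - q) * (1 - (2 : ℝ) ^ (q - 1 / (l : ℝ)))⁻¹),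
    ENNReal.ofReal_ne_top, fun W hW => ?_⟩
  have hT : MeasurableSet {y : Pt m | bA ph W y ≤ (JA ph l W y) ^ 2} :=
    measurableSet_le (measurable_bA' ph W) ((measurable_JA' ph l W).pow_const 2)
  classical
  have h1 := AOne_ite (Ann m) {y : Pt m | bA ph W y ≤ (JA ph l W y) ^ 2} hT
    (fun y => (ENNReal.ofReal (bA ph W y)) ^ (-q))
  simp only [Set.mem_ofPred_eq] at h1
  rw [h1]
  refine AOne_layer (bA ph W) (measurable_bA' ph W) (2 ^ K) _ _ q (by positivity) (by positivity) hq hqa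
    _ (hT.inter (AOne_measAnn m)) (fun x hx => AOne_bA_le ph hph W x hx.2) ?_ ?_
  · -- null set
    obtain ⟨F, hF, hF0⟩ := Submodule.exists_mem_ne_zero_of_ne_bot hW
    refine measure_mono_null ?_ (null_zero (emb ph F) (AOne_null ph hph F hF0))
    rintro x ⟨_, hx⟩
    have h2 : bA ph W x = 0 := le_antisymm hx (AOne_bA_nonneg ph W x)
    have h3 := AOne_pA_le ph W F hF 0 x
    unfold bA at h2
    rw [h2, zero_mul] at h3
    change pd (emb ph F) 0 x = 0
    rw [pd_emb ph hph]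
    exact norm_le_zero_iff.1 h3
  · intro t ht _
    have hs : 0 < Real.sqrt (t / 2) := Real.sqrt_pos.2 (by positivity)
    refine (measure_mono ?_).trans ((hvol W t (Real.sqrt (t / 2)) ht hs).trans (le_of_eq ?_))
    · rintro x ⟨⟨hx1, hx2⟩, hx3⟩
      refine ⟨hx2, hx3.2, ?_⟩
      rw [Real.sqrt_le_left (AOne_JA_nonneg ph l W x)]
      exact hx3.1.le.trans hx1
    · congr 1
      have h4 : t / Real.sqrt (t / 2) = Real.sqrt (2 * t) := by
        have h5 : Real.sqrt (2 * t) * Real.sqrt (t / 2) = t := by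
          rw [← Real.sqrt_mul (by positivity)]
          have : 2 * t * (t / 2) = t ^ 2 := by ring
          rw [this, Real.sqrt_sq ht.le]
        rw [div_eq_iff hs.ne', h5]
      rw [h4, Real.sqrt_eq_rpow, ← Real.rpow_mul (by positivity),
        Real.mul_rpow (by norm_num) ht.le]
      have h6 : (1 : ℝ) / 2 * (2 / (l : ℝ)) = 1 / (l : ℝ) := by field_simp
      rw [h6]
      ring

end GTor
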