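/- piece AV: volume of the set where J is small, for families -/
import Pool.Agent.Lib_MP_e0d435_ag_T.AProd
import Pool.Agent.Lib_MP_e0d435_ag_T.AMeas
import Pool.Agent.Lib_MP_e0d435_ag_T.AJet
import Pool.Agent.Lib_MP_e0d435_ag_T.ACof
import Pool.Agent.Lib_MP_e0d435_ag_T.AGen
import Pool.Agent.Lib_MP_e0d435_ag.Sublevel
import Pool.Agent.Lib_MP_e0d435_ag.IterInt

open Finset MeasureTheory Complex
open scoped ENNReal ContDiff

namespace GTor
open GPn

variable {A : Type} [Fintype A] [DecidableEq A] {m K : ℕ}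

private theorem AVol_order {α : Type*} {N : ℕ} (s1 : Fin N ≃ α) (I : Finset α) :
    ∃ s' : Fin N ≃ α, ∀ i j, s' i ∈ I → s' j ∉ I → j < i := by
  classical
  set f : Fin N → ℕ := fun i => if s1 i ∈ I then 1 else 0 with hf
  refine ⟨(Tuple.sort f).trans s1, fun i j hi hj => ?_⟩
  by_contra h
  have h1 : f (Tuple.sort f i) ≤ f (Tuple.sort f j) := Tuple.monotone_sort f (not_lt.1 h)
  have hi' : f (Tuple.sort f i) = 1 := if_pos hi
  have hj' : f (Tuple.sort f j) = 0 := if_neg hj
  omega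

private theorem AVol_Ann (m : ℕ) : MeasurableSet (Ann m) := by
  have h : Measurable (fun x : Pt m => nsq x) := continuous_nsq.measurable
  exact (measurableSet_le measurable_const h).inter (measurableSet_le h measurable_const)

private theorem AVol_Ann_fin (m : ℕ) : volume (Ann m) ≠ ⊤ := by
  have h : Ann m ⊆ Metric.closedBall (0 : Pt m) 2 := by
    intro x hx
    rw [mem_closedBall_zero_iff, pi_norm_le_iff_of_nonneg (by norm_num)]
    intro i
    have h1 : ‖x i‖ ^ 2 ≤ nsq x :=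
      Finset.single_le_sum (f := fun i => ‖x i‖ ^ 2) (fun _ _ => by positivity) (Finset.mem_univ i)
    have h2 : nsq x ≤ 4 := hx.2
    nlinarith [norm_nonneg (x i)]
  exact ne_top_of_le_ne_top measure_closedBall_lt_top.ne (measure_mono h)

private theorem AVol_pA_smul (ph : A → Ex m K) (t : ℂ) (F : EuclideanSpace ℂ A) (al : Fin m → ℕ)
    (x : Pt m) : pA ph (t • F) al x = t * pA ph F al x := by
  simp [pA, Finset.mul_sum, mul_assoc]

private theorem AVol_sublevel (ph : A → A → Ex m K) (hph : ∀ j, Function.Injective (ph j))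
    (l : ℕ) (hl : 1 ≤ l) : ∃ C : ℝ, 0 < C ∧ ∀ (r : A) (F : EuclideanSpace ℂ A) (al : Ex m l)
      (ta s : ℝ), 0 < ta → 0 < s →
      volume {x : Pt m | x ∈ Ann m ∧ ‖pA (ph r) F 0 x‖ ≤ ta ∧ s ≤ ‖pA (ph r) F al.1 x‖} ≤
        ENNReal.ofReal (C * (ta / s) ^ (2 / (l : ℝ))) := by
  obtain ⟨C, hC, h⟩ := sublevel m K l hl
  refine ⟨C, hC, fun r F al ta s hta hs => ?_⟩
  have h1 := h (emb (ph r) F) al ta s hta hs
  simp only [pd_emb (ph r) (hph r)] at h1
  exact h1

private theorem AVol_dep {R w : ℕ} (eq : Fin R ⊕ Fin w ≃ A) (ph : A → A → Ex m K)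
    (v : Fin R → Pt m → EuclideanSpace ℂ A) (j0 : A)
    (ta : Fin w → A) (t0 : Fin w) (I : Finset A) (hj0 : j0 ∉ I)
    (hta : ∀ t, t ≠ t0 → ta t ∉ I) (X Y : A → Pt m) (h : ∀ r, r ∉ I → X r = Y r) :
    CvA eq (fun i => v i (X j0)) ph ta X t0 = CvA eq (fun i => v i (Y j0)) ph ta Y t0 := by
  rw [h j0 hj0]
  exact CvA_congr eq _ ph ta ta X Y t0 fun t' ht' => ⟨rfl, h _ (hta t' ht')⟩

private theorem AVol_meas {R w l N : ℕ} (s1 : Fin N ≃ A)
    (eq : Fin R ⊕ Fin w ≃ A) (ph : A → A → Ex m K) (v : Fin R → Pt m → EuclideanSpace ℂ A)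
    (hvc : ∀ i, Continuous (v i)) (C2 : ℝ)
    (hC2 : ∀ (r : A) (F : EuclideanSpace ℂ A) (al : Ex m l) (ta s : ℝ), 0 < ta → 0 < s →
      volume {x : Pt m | x ∈ Ann m ∧ ‖pA (ph r) F 0 x‖ ≤ ta ∧ s ≤ ‖pA (ph r) F al.1 x‖} ≤
        ENNReal.ofReal (C2 * (ta / s) ^ (2 / (l : ℝ))))
    (j0 : A) (ta : Fin w → A) (t0 : Fin w) (I : Finset A)
    (alf : A → Ex m l) (hj0 : j0 ∉ I) (hta : ∀ t, t ≠ t0 → ta t ∉ I) (a b : ℝ)
    (ha : 0 < a) (hb : 0 < b) :
    volume {X : A → Pt m | (∀ j, X j ∈ Ann m) ∧ CvA eq (fun i => v i (X j0)) ph ta X t0 ≠ 0 ∧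
      ∀ r ∈ I, ‖pA (ph r) (CvA eq (fun i => v i (X j0)) ph ta X t0) 0 (X r)‖ ≤
          a * ‖CvA eq (fun i => v i (X j0)) ph ta X t0‖ ∧
        b * ‖CvA eq (fun i => v i (X j0)) ph ta X t0‖ ≤
          ‖pA (ph r) (CvA eq (fun i => v i (X j0)) ph ta X t0) (alf r).1 (X r)‖} ≤
      (volume (Ann m)) ^ (N - I.card) * (ENNReal.ofReal (C2 * (a / b) ^ (2 / (l : ℝ)))) ^ I.card := by
  classical
  obtain ⟨s', hs'⟩ := AVol_order s1 I
  set Q : (A → Pt m) → EuclideanSpace ℂ A :=
    fun X => CvA eq (fun i => v i (X j0)) ph ta X t0 with hQ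
  have hQc : Continuous Q := continuous_CvA eq v hvc ph ta j0 t0
  have hQn : Measurable (fun X => ‖Q X‖) := hQc.norm.measurable
  have hpd : ∀ (al : Fin m → ℕ) (r : A), Measurable (fun X => ‖pA (ph r) (Q X) al (X r)‖) := by
    intro al r
    have h1 : Continuous (fun X : A → Pt m => (Q X, X r)) := hQc.prodMk (continuous_apply r)
    exact ((continuous_pA₂ (ph r) al).comp h1).norm.measurable
  have hpd1 : ∀ (r : A) (F : EuclideanSpace ℂ A) (al : Fin m → ℕ),
      Continuous (fun x : Pt m => pA (ph r) F al x) := by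
    intro r F al
    exact (continuous_pA₂ (ph r) al).comp (continuous_const.prodMk continuous_id)
  set Bs : Fin N → Set (A → Pt m) := fun i => if s' i ∈ I then
      {X | X (s' i) ∈ Ann m ∧ Q X ≠ 0 ∧ ‖pA (ph (s' i)) (Q X) 0 (X (s' i))‖ ≤ a * ‖Q X‖ ∧
        b * ‖Q X‖ ≤ ‖pA (ph (s' i)) (Q X) (alf (s' i)).1 (X (s' i))‖} else {X | X (s' i) ∈ Ann m}
    with hBs
  have hBm : ∀ i, MeasurableSet (Bs i) := by
    intro i
    have h0 : MeasurableSet {X : A → Pt m | X (s' i) ∈ Ann m} :=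
      (measurable_pi_apply (s' i)) (AVol_Ann m)
    simp only [hBs]
    split_ifs with hi
    · refine h0.inter (MeasurableSet.inter ?_ (MeasurableSet.inter ?_ ?_))
      · exact (isOpen_compl_singleton.preimage hQc).measurableSet
      · exact measurableSet_le (hpd _ _) (hQn.const_mul a)
      · exact measurableSet_le (hQn.const_mul b) (hpd _ _)
    · exact h0
  have hdep : ∀ i x y, (∀ j ≤ i, x (s' j) = y (s' j)) →
      (Bs i).indicator (1 : (A → Pt m) → ℝ≥0∞) x = (Bs i).indicator 1 y := by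
    intro i x y hxy
    have hmem : x ∈ Bs i ↔ y ∈ Bs i := by
      simp only [hBs]
      split_ifs with hi
      · have h1 : Q x = Q y := by
          refine AVol_dep eq ph v j0 ta t0 I hj0 hta x y fun r hr => ?_
          obtain ⟨j, rfl⟩ := s'.surjective r
          exact hxy j (hs' i j hi hr).le
        simp only [Set.mem_ofPred_eq, h1, hxy i le_rfl]
      · simp only [Set.mem_ofPred_eq, hxy i le_rfl]
    by_cases hx : x ∈ Bs i
    · rw [Set.indicator_of_mem hx, Set.indicator_of_mem (hmem.1 hx)]; rfl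
    · rw [Set.indicator_of_notMem hx, Set.indicator_of_notMem fun hc => hx (hmem.2 hc)]
  set D : ℝ≥0∞ := ENNReal.ofReal (C2 * (a / b) ^ (2 / (l : ℝ))) with hD
  have hC : ∀ i x, ∫⁻ t, (Bs i).indicator (1 : (A → Pt m) → ℝ≥0∞)
      (Function.update x (s' i) t) ∂(volume : Measure (Pt m)) ≤
      (if s' i ∈ I then D else volume (Ann m)) := by
    intro i x
    split_ifs with hi
    · have hQu : ∀ t, Q (Function.update x (s' i) t) = Q x := by
        intro t
        refine AVol_dep eq ph v j0 ta t0 I hj0 hta _ _ fun r hr => ?_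
        have : r ≠ s' i := fun hc => hr (hc ▸ hi)
        exact Function.update_of_ne this _ _
      by_cases hq : Q x = 0
      · have h1 : ∀ t, (Bs i).indicator (1 : (A → Pt m) → ℝ≥0∞)
            (Function.update x (s' i) t) = 0 := by
          intro t
          refine Set.indicator_of_notMem ?_ _
          simp only [hBs, if_pos hi, Set.mem_ofPred_eq, hQu]
          intro hc
          exact hc.2.1 hq
        simp [h1]
      · have hq' : 0 < ‖Q x‖ := norm_pos_iff.2 hq
        have h1 : ∀ t, (Bs i).indicator (1 : (A → Pt m) → ℝ≥0∞)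
            (Function.update x (s' i) t) =
            {t : Pt m | t ∈ Ann m ∧ ‖pA (ph (s' i)) (Q x) 0 t‖ ≤ a * ‖Q x‖ ∧
              b * ‖Q x‖ ≤ ‖pA (ph (s' i)) (Q x) (alf (s' i)).1 t‖}.indicator 1 t := by
          intro t
          have h2 : Function.update x (s' i) t ∈ Bs i ↔ t ∈ {t : Pt m | t ∈ Ann m ∧
              ‖pA (ph (s' i)) (Q x) 0 t‖ ≤ a * ‖Q x‖ ∧
              b * ‖Q x‖ ≤ ‖pA (ph (s' i)) (Q x) (alf (s' i)).1 t‖} := by
            simp only [hBs, if_pos hi, Set.mem_ofPred_eq, hQu, Function.update_self]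
            tauto
          by_cases ht : Function.update x (s' i) t ∈ Bs i
          · rw [Set.indicator_of_mem ht, Set.indicator_of_mem (h2.1 ht)]; rfl
          · rw [Set.indicator_of_notMem ht, Set.indicator_of_notMem fun hc => ht (h2.2 hc)]
        have hms : MeasurableSet {t : Pt m | t ∈ Ann m ∧
              ‖pA (ph (s' i)) (Q x) 0 t‖ ≤ a * ‖Q x‖ ∧
              b * ‖Q x‖ ≤ ‖pA (ph (s' i)) (Q x) (alf (s' i)).1 t‖} := by
          refine (AVol_Ann m).inter (MeasurableSet.inter ?_ ?_)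
          · exact measurableSet_le (hpd1 _ _ _).norm.measurable measurable_const
          · exact measurableSet_le measurable_const (hpd1 _ _ _).norm.measurable
        simp_rw [h1]
        rw [lintegral_indicator_one hms]
        refine (hC2 (s' i) (Q x) (alf (s' i)) (a * ‖Q x‖) (b * ‖Q x‖) (by positivity)
          (by positivity)).trans ?_
        rw [mul_div_mul_right _ _ hq'.ne']
    · have h1 : ∀ t, (Bs i).indicator (1 : (A → Pt m) → ℝ≥0∞)
          (Function.update x (s' i) t) = (Ann m).indicator 1 t := by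
        intro t
        have h2 : Function.update x (s' i) t ∈ Bs i ↔ t ∈ Ann m := by
          simp only [hBs, if_neg hi, Set.mem_ofPred_eq, Function.update_self]
        by_cases ht : t ∈ Ann m
        · rw [Set.indicator_of_mem ht, Set.indicator_of_mem (h2.2 ht)]; rfl
        · rw [Set.indicator_of_notMem ht, Set.indicator_of_notMem fun hc => ht (h2.1 hc)]
      simp_rw [h1]
      rw [lintegral_indicator_one (AVol_Ann m)]
  have key := lintegral_prod_le (volume : Measure (Pt m)) s'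
    (fun i => (Bs i).indicator (1 : (A → Pt m) → ℝ≥0∞))
    (fun i => measurable_one.indicator (hBm i)) hdep
    (fun i => if s' i ∈ I then D else volume (Ann m)) hC
  have hInt : ∀ X : A → Pt m, ∏ i, (Bs i).indicator (1 : (A → Pt m) → ℝ≥0∞) X =
      (⋂ i, Bs i).indicator 1 X := by
    intro X
    by_cases hX : X ∈ ⋂ i, Bs i
    · rw [Set.indicator_of_mem hX, Pi.one_apply]
      refine Finset.prod_eq_one fun i _ => ?_
      rw [Set.indicator_of_mem (Set.mem_iInter.1 hX i)]; rfl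
    · rw [Set.indicator_of_notMem hX]
      rw [Set.mem_iInter, not_forall] at hX
      obtain ⟨i, hi⟩ := hX
      exact Finset.prod_eq_zero (Finset.mem_univ i) (Set.indicator_of_notMem hi _)
  simp_rw [hInt] at key
  rw [lintegral_indicator_one (MeasurableSet.iInter hBm)] at key
  have hprod : ∏ i, (if s' i ∈ I then D else volume (Ann m)) =
      (volume (Ann m)) ^ (N - I.card) * D ^ I.card := by
    rw [Equiv.prod_comp s' (fun r => if r ∈ I then D else volume (Ann m)),
      Finset.prod_ite, Finset.prod_const, Finset.prod_const, mul_comm]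
    have h1 : (Finset.univ.filter fun r => r ∈ I) = I := by
      ext r; simp
    have h2 : (Finset.univ.filter fun r => r ∉ I) = Iᶜ := by
      ext r; simp
    have h3 : Fintype.card A = N := by
      rw [← Fintype.card_congr s', Fintype.card_fin]
    rw [h1, h2, Finset.card_compl, h3]
  rw [hprod] at key
  refine le_trans (measure_mono ?_) key
  rintro X ⟨hX1, hX2, hX3⟩
  rw [Set.mem_iInter]
  intro i
  simp only [hBs]
  split_ifs with hi
  · exact ⟨hX1 _, hX2, hX3 _ hi⟩
  · exact hX1 _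

theorem vol_JA {l R e : ℕ} (D : LocData A m K l R e) (s0 : ℝ) (hs : 0 < s0) (N : ℕ)
    (hN : N = Fintype.card A) :
    ∃ C : ℝ, 0 < C ∧ ∀ (io : ℝ), 0 < io → ∀ (s : Fin N ≃ A) (i : Fin N),
      N ≤ (i : ℕ) + e →
      volume {X : A → Pt m | X ∈ GdL D s0 ∧
          JA (D.ph (s i)) l (WA D.ph X s i) (X (s i)) ≤ io} ≤
        ENNReal.ofReal (C * io ^ (2 * ((R : ℝ) - 2 * e) / l)) := by
  classical
  have hl1 : 1 ≤ l := D.hl
  have hRN : R < N := by rw [hN]; exact D.hRN
  have hE : 4 * e ≤ R := D.he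
  set w := N - R with hw
  have hw1 : 1 ≤ w := by omega
  have hcard : Fintype.card (Fin R ⊕ Fin w) = Fintype.card A := by
    rw [Fintype.card_sum, Fintype.card_fin, Fintype.card_fin, ← hN, hw]
    omega
  have eq : Fin R ⊕ Fin w ≃ A := Fintype.equivOfCardEq hcard
  -- the functionals
  have hem : ∀ j, Nonempty (Fin R ↪ {a : A // ∀ i, (D.nu j).1 i ≤ (D.ph j a).1 i}) := by
    intro j
    refine Function.Embedding.nonempty_of_card_le ?_
    rw [Fintype.card_fin, ← Nat.card_eq_fintype_card]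
    exact D.cnt j
  set em := fun j => (hem j).some with hemd
  set v : A → Fin R → Pt m → EuclideanSpace ℂ A := fun j i y => fv (D.ph j) l (em j i).1 y with hv
  have hvc : ∀ j i, Continuous (v j i) := fun j i => continuous_fv (D.ph j) l (em j i).1
  have hvi : ∀ j, ∀ y ∈ D.Y j, LinearIndependent ℂ (fun i => v j i y) := by
    intro j y hy
    have h1 := fv_indep (D.ph j) (D.inj j) l D.hlK (D.nu j) y (D.nz j y hy)
    exact h1.comp (em j) (em j).injective
  have hb : ∀ j, ∃ C : ℝ, 0 < C ∧ ∀ a, ∀ y ∈ Ann m,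
      ∀ W : Submodule ℂ (EuclideanSpace ℂ A), ‖W.starProjection (fv (D.ph j) l a y)‖ ≤
        C * JA (D.ph j) l W y := fun j => fv_bound (D.ph j) l
  choose Cb hCb0 hCb using hb
  have hv0 : ∀ j i, ∀ y ∈ D.Y j, ∀ W : Submodule ℂ (EuclideanSpace ℂ A),
      ‖W.starProjection (v j i y)‖ ≤ (∑ j, Cb j) * JA (D.ph j) l W y := by
    intro j i y hy W
    refine (hCb j _ y (D.ann j hy) W).trans ?_
    have h0 : 0 ≤ JA (D.ph j) l W y := Finset.sum_nonneg fun _ _ => norm_nonneg _
    refine mul_le_mul_of_nonneg_right ?_ h0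
    exact Finset.single_le_sum (f := Cb) (fun j _ => (hCb0 j).le) (Finset.mem_univ j)
  obtain ⟨C1, hC1, hZ⟩ := exists_many_zerosA hw1 hN eq D.ph D.Y D.cpt v hvc hvi (∑ j, Cb j) hv0
  obtain ⟨C2, hC2, hS⟩ := AVol_sublevel D.ph D.inj l hl1
  set q := R - 2 * e with hq
  set Kc := Fintype.card ((Fin w → A) × Fin w × Finset A × (A → Ex m l)) with hKc
  set vA := (volume (Ann m)).toReal with hvA
  have hvA0 : 0 ≤ vA := ENNReal.toReal_nonneg
  have hvAe : volume (Ann m) = ENNReal.ofReal vA :=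
    (ENNReal.ofReal_toReal (AVol_Ann_fin m)).symm
  refine ⟨Kc * (vA ^ (N - q) * (C2 * (C1 / s0) ^ (2 / (l : ℝ))) ^ q) + 1, by positivity, ?_⟩
  intro io hio s i hi
  have hl0 : (0 : ℝ) < l := by exact_mod_cast hl1
  have hqR : ((q : ℕ) : ℝ) = (R : ℝ) - 2 * e := by
    rw [hq, Nat.cast_sub (by omega)]
    push_cast
    ring
  -- the cofactor functions
  set Cf : (A → Pt m) → (Fin w → A) → Fin w → EuclideanSpace ℂ A :=
    fun X ta t0 => CvA eq (fun i' => v (s i) i' (X (s i))) D.ph ta X t0 with hCf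
  -- the pieces
  set P : ((Fin w → A) × Fin w × Finset A × (A → Ex m l)) → Set (A → Pt m) := fun p =>
    {X | ((s i ∉ p.2.2.1) ∧ (∀ t, t ≠ p.2.1 → p.1 t ∉ p.2.2.1) ∧ p.2.2.1.card = q) ∧
      ((∀ j, X j ∈ Ann m) ∧ Cf X p.1 p.2.1 ≠ 0 ∧
      ∀ r ∈ p.2.2.1, ‖pA (D.ph r) (Cf X p.1 p.2.1) 0 (X r)‖ ≤
          (C1 * io) * ‖Cf X p.1 p.2.1‖ ∧
        s0 * ‖Cf X p.1 p.2.1‖ ≤
          ‖pA (D.ph r) (Cf X p.1 p.2.1) (p.2.2.2 r).1 (X r)‖)} with hP
  set bd : ℝ := vA ^ (N - q) * (C2 * (C1 * io / s0) ^ (2 / (l : ℝ))) ^ q with hbd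
  have hbd0 : 0 ≤ bd := by positivity
  have hPv : ∀ p, volume (P p) ≤ ENNReal.ofReal bd := by
    intro p
    by_cases hv : (s i ∉ p.2.2.1) ∧ (∀ t, t ≠ p.2.1 → p.1 t ∉ p.2.2.1) ∧ p.2.2.1.card = q
    · have h1 := AVol_meas s eq D.ph (v (s i)) (hvc (s i)) C2 hS (s i) p.1 p.2.1 p.2.2.1 p.2.2.2
        hv.1 hv.2.1 (C1 * io) s0 (by positivity) hs
      rw [hv.2.2, hvAe, ← ENNReal.ofReal_pow hvA0, ← ENNReal.ofReal_pow (by positivity),
        ← ENNReal.ofReal_mul (by positivity)] at h1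
      refine (measure_mono ?_).trans h1
      intro X hX
      exact hX.2
    · have h1 : P p = ∅ := by
        ext X
        simp only [hP, Set.mem_ofPred_eq, Set.mem_empty_iff_false, iff_false]
        exact fun hX => hv hX.1
      rw [h1, measure_empty]
      exact zero_le
  -- the null set
  set Z : ((Fin w → A) × Fin w) → Set (A → Pt m) := fun p =>
    {X | (Function.Injective p.1 ∧ ∀ t, p.1 t ≠ s i) ∧ X (s i) ∈ D.Y (s i) ∧
      Cf X p.1 p.2 = 0} with hZd
  have hZv : ∀ p, volume (Z p) = 0 := by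
    intro p
    by_cases hv : Function.Injective p.1 ∧ ∀ t, p.1 t ≠ s i
    · have h1 := CvA_ne_zero_ae eq D.ph D.inj (s i) (D.Y (s i)) (v (s i)) (hvc (s i))
        (hvi (s i)) p.1 hv.1 hv.2 p.2
      rw [ae_iff] at h1
      refine measure_mono_null ?_ h1
      intro X hX
      rw [Set.mem_ofPred_eq, Classical.not_imp, not_not]
      exact hX.2
    · have h1 : Z p = ∅ := by
        ext X
        simp only [hZd, Set.mem_ofPred_eq, Set.mem_empty_iff_false, iff_false]
        exact fun hX => hv hX.1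
      rw [h1, measure_empty]
  have hcover : {X : A → Pt m | X ∈ GdL D s0 ∧
      JA (D.ph (s i)) l (WA D.ph X s i) (X (s i)) ≤ io} ⊆ (⋃ p, Z p) ∪ ⋃ p, P p := by
    rintro X ⟨⟨hXY, hXG⟩, hXJ⟩
    obtain ⟨ta, htai, htaS, t0, ht0⟩ := hZ io hio X hXY s i (by omega) hXJ
    have hXA : ∀ j, X j ∈ Ann m := fun j => D.ann j (hXY j)
    have htane : ∀ t, ta t ≠ s i := by
      intro t hc
      obtain ⟨j, hj, hjt⟩ := htaS t
      rw [hjt] at hc
      exact hj.ne (s.injective hc)
    by_cases hQ : Cf X ta t0 = 0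
    · exact Or.inl (Set.mem_iUnion.2 ⟨(ta, t0), ⟨htai, htane⟩, hXY _, hQ⟩)
    · right
      set Q := Cf X ta t0 with hQd
      have hQn : 0 < ‖Q‖ := norm_pos_iff.2 hQ
      have hcnt := hXG (((‖Q‖⁻¹ : ℝ) : ℂ) • Q) (by
        rw [norm_smul, Complex.norm_real, norm_inv, norm_norm, inv_mul_cancel₀ hQn.ne'])
      set B := Finset.univ.filter
        (fun j => ∀ al : Ex m l, ‖pA (D.ph j) (((‖Q‖⁻¹ : ℝ) : ℂ) • Q) al.1 (X j)‖ < s0) with hB
      have hBc : B.card ≤ e := by
        have h1 : {j : A | ∀ al : Ex m l,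
            ‖pA (D.ph j) (((‖Q‖⁻¹ : ℝ) : ℂ) • Q) al.1 (X j)‖ < s0} = (B : Set A) := by
          ext j
          simp [hB]
        rw [h1, Set.ncard_coe_finset] at hcnt
        exact hcnt
      have hnB : ∀ r, r ∉ B → ∃ al : Ex m l, s0 * ‖Q‖ ≤ ‖pA (D.ph r) Q al.1 (X r)‖ := by
        intro r hr
        have h2 : ¬ ∀ al : Ex m l,
            ‖pA (D.ph r) (((‖Q‖⁻¹ : ℝ) : ℂ) • Q) al.1 (X r)‖ < s0 := by
          intro hc
          apply hr
          rw [hB, Finset.mem_filter]
          exact ⟨Finset.mem_univ _, hc⟩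
        rw [not_forall] at h2
        obtain ⟨al, hal⟩ := h2
        refine ⟨al, ?_⟩
        rw [not_lt, AVol_pA_smul, norm_mul, Complex.norm_real, norm_inv, norm_norm,
          le_inv_mul_iff₀ hQn] at hal
        linarith [mul_comm s0 ‖Q‖]
      have hEx : Nonempty (Ex m l) := by
        have h1 : B ≠ Finset.univ := by
          intro hc
          rw [hc, Finset.card_univ, ← hN] at hBc
          omega
        obtain ⟨r, hr⟩ : ∃ r, r ∉ B := by
          by_contra hc
          push Not at hc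
          exact h1 (Finset.eq_univ_iff_forall.2 hc)
        obtain ⟨al, _⟩ := hnB r hr
        exact ⟨al⟩
      set S := (Finset.univ.filter fun j : Fin N => j < i).map s.toEmbedding with hSd
      have hSc : S.card = i := by
        rw [hSd, Finset.card_map]
        have : (Finset.univ.filter fun j : Fin N => j < i) = Finset.Iio i := by
          ext j; simp
        rw [this, Fin.card_Iio]
      set T := (Finset.univ.erase t0).image ta with hT
      have hTc : T.card ≤ w - 1 := by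
        refine Finset.card_image_le.trans ?_
        rw [Finset.card_erase_of_mem (Finset.mem_univ _), Finset.card_univ, Fintype.card_fin]
      have hcard2 : q ≤ ((S \ T) \ B).card := by
        have h1 : S.card - T.card ≤ (S \ T).card := Finset.le_card_sdiff T S
        have h2 : (S \ T).card - B.card ≤ ((S \ T) \ B).card := Finset.le_card_sdiff B (S \ T)
        omega
      obtain ⟨I, hIs, hIc⟩ := Finset.exists_subset_card_eq hcard2
      have hI : ∀ r ∈ I, (∃ j, j < i ∧ r = s j) ∧ (∀ t, t ≠ t0 → ta t ≠ r) ∧ r ∉ B := by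
        intro r hr
        have h1 := hIs hr
        rw [Finset.mem_sdiff, Finset.mem_sdiff] at h1
        refine ⟨?_, ?_, h1.2⟩
        · obtain ⟨j, hj, hjr⟩ := Finset.mem_map.1 h1.1.1
          exact ⟨j, (Finset.mem_filter.1 hj).2, hjr.symm⟩
        · intro t ht hc
          exact h1.1.2 (Finset.mem_image.2 ⟨t, Finset.mem_erase.2 ⟨ht, Finset.mem_univ _⟩, hc⟩)
      have hal : ∀ r : A, ∃ al : Ex m l, r ∈ I →
          s0 * ‖Q‖ ≤ ‖pA (D.ph r) Q al.1 (X r)‖ := by
        intro r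
        by_cases hr : r ∈ I
        · obtain ⟨al, hal⟩ := hnB r (hI r hr).2.2
          exact ⟨al, fun _ => hal⟩
        · exact ⟨hEx.some, fun hc => absurd hc hr⟩
      choose alf half using hal
      refine Set.mem_iUnion.2 ⟨(ta, t0, I, alf), ⟨?_, ?_, hIc⟩, hXA, hQ, ?_⟩
      · intro hc
        obtain ⟨j, hj, hjs⟩ := (hI _ hc).1
        exact hj.ne (s.injective hjs).symm
      · intro t ht hc
        exact (hI _ hc).2.1 t ht rfl
      · intro r hr
        exact ⟨ht0 r (hI r hr).1 (hI r hr).2.1, half r hr⟩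
  have hfin : volume ((⋃ p, Z p) ∪ ⋃ p, P p) ≤ ENNReal.ofReal (Kc * bd) := by
    have h1 : volume (⋃ p, Z p) = 0 := measure_iUnion_null hZv
    refine (measure_union_le _ _).trans ?_
    rw [h1, zero_add]
    refine (measure_iUnion_fintype_le _ _).trans ?_
    refine (Finset.sum_le_sum fun p _ => hPv p).trans ?_
    have h2 : ENNReal.ofReal ((Kc : ℝ) * bd) = (Kc : ℝ≥0∞) * ENNReal.ofReal bd := by
      rw [ENNReal.ofReal_mul (Nat.cast_nonneg Kc), ENNReal.ofReal_natCast]
    rw [Finset.sum_const, nsmul_eq_mul, Finset.card_univ, ← hKc, h2]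
  refine ((measure_mono hcover).trans hfin).trans (ENNReal.ofReal_le_ofReal ?_)
  have hexp : bd = (vA ^ (N - q) * (C2 * (C1 / s0) ^ (2 / (l : ℝ))) ^ q) *
      io ^ (2 * ((R : ℝ) - 2 * e) / l) := by
    have h1 : (C1 * io / s0) ^ (2 / (l : ℝ)) = (C1 / s0) ^ (2 / (l : ℝ)) * io ^ (2 / (l : ℝ)) := by
      rw [← Real.mul_rpow (by positivity) hio.le]
      congr 1
      ring
    have h2 : (io ^ (2 / (l : ℝ))) ^ q = io ^ (2 * ((R : ℝ) - 2 * e) / l) := by
      rw [← Real.rpow_natCast, ← Real.rpow_mul hio.le, ← hqR]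
      congr 1
      ring
    rw [hbd, h1, ← mul_assoc C2, mul_pow, h2]
    ring
  rw [hexp]
  have hpos : 0 ≤ io ^ (2 * ((R : ℝ) - 2 * e) / l) := by positivity
  nlinarith

end GTor
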