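/- piece AL: local estimate for families -/
import Pool.Agent.Lib_MP_e0d435_ag_T.AOne
import Pool.Agent.Lib_MP_e0d435_ag_T.AProd
import Pool.Agent.Lib_MP_e0d435_ag_T.AMeas
import Pool.Agent.Lib_MP_e0d435_ag_T.AVol
import Pool.Agent.Lib_MP_e0d435_ag.IterInt
import Pool.Agent.Lib_MP_e0d435_ag.Local

open Finset MeasureTheory Complex
open scoped ENNReal ContDiff

namespace GTor
open GPn

variable {A : Type} [Fintype A] [DecidableEq A] {m K : ℕ}

theorem ALocal_bA_nonneg (ph : A → Ex m K) (W : Submodule ℂ (EuclideanSpace ℂ A)) (y : Pt m) :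
    0 ≤ bA ph W y :=
  norm_nonneg _

theorem ALocal_JA_nonneg (ph : A → Ex m K) (l : ℕ) (W : Submodule ℂ (EuclideanSpace ℂ A))
    (y : Pt m) : 0 ≤ JA ph l W y :=
  Finset.sum_nonneg fun _ _ => norm_nonneg _

theorem ALocal_WA_congr {N : ℕ} (ph : A → A → Ex m K) (X Y : A → Pt m) (s : Fin N → A)
    (i : Fin N) (h : ∀ j < i, X (s j) = Y (s j)) : WA ph X s i = WA ph Y s i := by
  unfold WA
  congr 2
  ext v
  simp only [Set.mem_ofPred_eq]
  constructor
  · rintro ⟨j, hj, rfl⟩
    exact ⟨j, hj, by rw [h j hj]⟩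
  · rintro ⟨j, hj, rfl⟩
    exact ⟨j, hj, by rw [h j hj]⟩

theorem ALocal_WA_update {N : ℕ} (ph : A → A → Ex m K) (X : A → Pt m) (s : Fin N ≃ A)
    (i : Fin N) (t : Pt m) : WA ph (Function.update X (s i) t) s i = WA ph X s i := by
  refine ALocal_WA_congr _ _ _ _ _ fun j hj => ?_
  rw [Function.update_of_ne]
  exact fun h => (ne_of_lt hj) (s.injective h)

/-- the factor A -/
noncomputable def ALocal_A (ph : A → Ex m K) {N : ℕ} (l e : ℕ) (s0 c : ℝ) (i : Fin N)
    (W : Submodule ℂ (EuclideanSpace ℂ A)) (y : Pt m) : ℝ≥0∞ :=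
  if (i : ℕ) + e < N then
    (if s0 ≤ JA ph l W y then (ENNReal.ofReal (bA ph W y)) ^ (-(2 * c)) else 0)
  else 1 + (if bA ph W y ≤ (JA ph l W y) ^ 2 then
    (ENNReal.ofReal (bA ph W y)) ^ (-(2 * c)) else 0)

/-- the factor B -/
noncomputable def ALocal_B (ph : A → Ex m K) {N : ℕ} (l e : ℕ) (c : ℝ) (i : Fin N)
    (W : Submodule ℂ (EuclideanSpace ℂ A)) (y : Pt m) : ℝ≥0∞ :=
  if (i : ℕ) + e < N then 1 else 1 + (ENNReal.ofReal (JA ph l W y)) ^ (-(4 * c))

theorem ALocal_le_AB (ph : A → Ex m K) {N : ℕ} (l e : ℕ) (s0 c : ℝ) (hc : 0 ≤ c) (i : Fin N)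
    (W : Submodule ℂ (EuclideanSpace ℂ A)) (y : Pt m) (h : (i : ℕ) + e < N → s0 ≤ JA ph l W y) :
    (ENNReal.ofReal (bA ph W y)) ^ (-(2 * c)) ≤
      ALocal_A ph l e s0 c i W y * ALocal_B ph l e c i W y := by
  unfold ALocal_A ALocal_B
  by_cases hi : (i : ℕ) + e < N
  · rw [if_pos hi, if_pos hi, if_pos (h hi), mul_one]
  · rw [if_neg hi, if_neg hi]
    by_cases hb : bA ph W y ≤ (JA ph l W y) ^ 2
    · rw [if_pos hb]
      calc (ENNReal.ofReal (bA ph W y)) ^ (-(2 * c))
          ≤ (1 + (ENNReal.ofReal (bA ph W y)) ^ (-(2 * c))) * 1 := by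
            rw [mul_one]; exact le_add_left le_rfl
        _ ≤ _ := mul_le_mul' le_rfl (le_add_right le_rfl)
    · rw [if_neg hb, add_zero, one_mul]
      push Not at hb
      refine le_trans ?_ (le_add_left le_rfl)
      have h1 : (ENNReal.ofReal (JA ph l W y)) ^ (-(4 * c)) =
          (ENNReal.ofReal ((JA ph l W y) ^ 2)) ^ (-(2 * c)) := by
        rw [ENNReal.ofReal_pow (ALocal_JA_nonneg ph l W y), ← ENNReal.rpow_natCast,
          ← ENNReal.rpow_mul]
        congr 1
        push_cast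
        ring
      rw [h1, ENNReal.rpow_neg, ENNReal.rpow_neg, ENNReal.inv_le_inv]
      exact ENNReal.rpow_le_rpow (ENNReal.ofReal_le_ofReal hb.le) (by linarith)

theorem ALocal_measurable_A {N : ℕ} (ph : A → A → Ex m K) (l e : ℕ) (s0 c : ℝ) (s : Fin N → A)
    (i : Fin N) :
    Measurable (fun X : A → Pt m => ALocal_A (ph (s i)) l e s0 c i (WA ph X s i) (X (s i))) := by
  have hb := measurable_bA ph s i
  have hJ := measurable_JA ph l s i
  unfold ALocal_A
  by_cases hi : (i : ℕ) + e < N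
  · simp only [if_pos hi]
    exact Measurable.ite (measurableSet_le measurable_const hJ)
      ((ENNReal.measurable_ofReal.comp hb).pow_const _) measurable_const
  · simp only [if_neg hi]
    exact Measurable.const_add (Measurable.ite (measurableSet_le hb (hJ.pow_const 2))
      ((ENNReal.measurable_ofReal.comp hb).pow_const _) measurable_const) _

theorem ALocal_vol_pi (m : ℕ) : (volume : Measure (A → Pt m)) (Set.pi Set.univ fun _ => Ann m)
    < ⊤ := by
  rw [volume_pi, Measure.pi_pi]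
  exact ENNReal.prod_lt_top fun i _ => Local_vol_Ann _

theorem ALocal_int_A (ph : A → A → Ex m K) (hph : ∀ j, Function.Injective (ph j)) (N l e : ℕ)
    (hN : N = Fintype.card A) (hl : 1 ≤ l) (c : ℝ)
    (hc : 0 ≤ c) (hcl : 4 * c * l ≤ 1 / 2) (s0 : ℝ) (hs : 0 < s0) :
    ∃ C : ℝ≥0∞, C ≠ ⊤ ∧ ∀ (s : Fin N ≃ A) (i : Fin N) (X : A → Pt m),
      ∫⁻ t in Ann m, (ALocal_A (ph (s i)) l e s0 c i (WA ph X s i) t) ^ 2 ≤ C := by
  choose C1 hC1 h1 using fun j : A => one_stepA (ph j) (hph j) l hl (4 * c) (by linarith) hcl s0 hs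
  choose C2 hC2 h2 using fun j : A => one_stepA' (ph j) (hph j) l hl (4 * c) (by linarith) hcl
  have hpow : ∀ b : ℝ, ((ENNReal.ofReal b) ^ (-(2 * c))) ^ 2 = (ENNReal.ofReal b) ^ (-(4 * c)) := by
    intro b
    rw [← ENNReal.rpow_natCast, ← ENNReal.rpow_mul]
    congr 1
    push_cast
    ring
  refine ⟨(∑ j, C1 j) + (4 * volume (Ann m) + 4 * ∑ j, C2 j), ?_, fun s i X => ?_⟩
  · refine ENNReal.add_ne_top.2 ⟨?_, ENNReal.add_ne_top.2 ⟨?_, ?_⟩⟩
    · exact ENNReal.sum_ne_top.2 fun j _ => hC1 j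
    · exact ENNReal.mul_ne_top (by norm_num) (Local_vol_Ann m).ne
    · exact ENNReal.mul_ne_top (by norm_num) (ENNReal.sum_ne_top.2 fun j _ => hC2 j)
  · by_cases hi : (i : ℕ) + e < N
    · refine le_trans ?_ (le_add_right le_rfl)
      refine le_trans ?_ (Finset.single_le_sum (f := C1) (fun j _ => zero_le)
        (Finset.mem_univ (s i)))
      refine le_trans (le_of_eq ?_) (h1 (s i) (WA ph X s i))
      refine lintegral_congr fun t => ?_
      unfold ALocal_A
      rw [if_pos hi]
      by_cases hJ : s0 ≤ JA (ph (s i)) l (WA ph X s i) t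
      · rw [if_pos hJ, if_pos hJ, hpow]
      · rw [if_neg hJ, if_neg hJ]; simp
    · refine le_trans ?_ (le_add_left le_rfl)
      calc ∫⁻ t in Ann m, (ALocal_A (ph (s i)) l e s0 c i (WA ph X s i) t) ^ 2
          ≤ ∫⁻ t in Ann m, (4 + 4 * (if bA (ph (s i)) (WA ph X s i) t ≤
            (JA (ph (s i)) l (WA ph X s i) t) ^ 2 then
            (ENNReal.ofReal (bA (ph (s i)) (WA ph X s i) t)) ^ (-(4 * c)) else 0)) := by
            refine lintegral_mono fun t => ?_
            unfold ALocal_A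
            rw [if_neg hi]
            refine (Local_one_add _ 2).trans ?_
            refine add_le_add (by norm_num) ?_
            by_cases hJ : bA (ph (s i)) (WA ph X s i) t ≤ (JA (ph (s i)) l (WA ph X s i) t) ^ 2
            · rw [if_pos hJ, if_pos hJ, hpow]
              refine mul_le_mul' (by norm_num) le_rfl
            · rw [if_neg hJ, if_neg hJ]; simp
        _ = 4 * volume (Ann m) + 4 * ∫⁻ t in Ann m, (if bA (ph (s i)) (WA ph X s i) t ≤
            (JA (ph (s i)) l (WA ph X s i) t) ^ 2 then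
            (ENNReal.ofReal (bA (ph (s i)) (WA ph X s i) t)) ^ (-(4 * c)) else 0) := by
            rw [lintegral_add_left measurable_const, lintegral_const,
              lintegral_const_mul' _ _ (by norm_num)]
            simp
        _ ≤ _ := by
            refine add_le_add le_rfl (mul_le_mul' le_rfl ?_)
            exact (h2 (s i) _ (WA_ne_bot hN ph X s i)).trans
              (Finset.single_le_sum (f := C2) (fun j _ => zero_le) (Finset.mem_univ (s i)))

theorem ALocal_prod_A (ph : A → A → Ex m K) (hph : ∀ j, Function.Injective (ph j)) (N l e : ℕ)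
    (hN : N = Fintype.card A) (hl : 1 ≤ l) (c : ℝ)
    (hc : 0 ≤ c) (hcl : 4 * c * l ≤ 1 / 2) (s0 : ℝ) (hs : 0 < s0) (s : Fin N ≃ A) :
    ∫⁻ X in (Set.pi Set.univ fun _ : A => Ann m),
      (∏ i, ALocal_A (ph (s i)) l e s0 c i (WA ph X s i) (X (s i))) ^ 2 < ⊤ := by
  obtain ⟨C, hC, h1⟩ := ALocal_int_A ph hph N l e hN hl c hc hcl s0 hs
  have h2 : (volume : Measure (A → Pt m)).restrict (Set.pi Set.univ fun _ : A => Ann m) =
      Measure.pi fun _ : A => (volume : Measure (Pt m)).restrict (Ann m) := by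
    rw [volume_pi]
    exact Measure.restrict_pi_pi _ _
  rw [h2]
  simp_rw [← Finset.prod_pow]
  refine lt_of_le_of_lt (lintegral_prod_le _ s
    (fun i X => (ALocal_A (ph (s i)) l e s0 c i (WA ph X s i) (X (s i))) ^ 2)
    (fun i => (ALocal_measurable_A ph l e s0 c s i).pow_const 2) ?_ (fun _ => C) ?_) ?_
  · intro i x y hxy
    have h3 : WA ph x s i = WA ph y s i := ALocal_WA_congr _ _ _ _ _ fun j hj => hxy j hj.le
    show (ALocal_A (ph (s i)) l e s0 c i (WA ph x s i) (x (s i))) ^ 2 =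
      (ALocal_A (ph (s i)) l e s0 c i (WA ph y s i) (y (s i))) ^ 2
    rw [h3, hxy i le_rfl]
  · intro i X
    refine le_trans (le_of_eq ?_) (h1 s i X)
    refine lintegral_congr fun t => ?_
    show (ALocal_A (ph (s i)) l e s0 c i (WA ph (Function.update X (s i) t) s i)
      (Function.update X (s i) t (s i))) ^ 2 = _
    rw [ALocal_WA_update, Function.update_self]
  · rw [Finset.prod_const]
    exact ENNReal.pow_lt_top hC.lt_top

theorem ALocal_GdL_sub {l R e : ℕ} (D : LocData A m K l R e) (s0 : ℝ) :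
    GdL D s0 ⊆ Set.pi Set.univ fun _ : A => Ann m := by
  intro X hX j _
  exact D.ann j (hX.1 j)

theorem ALocal_prod_B {l R e : ℕ} (D : LocData A m K l R e) (s0 : ℝ) (hs : 0 < s0) (c : ℝ)
    (hc : 0 ≤ c) (hcl : 4 * c * l ≤ 1 / 2) (N : ℕ) (hN : N = Fintype.card A)
    (s : Fin N ≃ A) :
    ∫⁻ X in GdL D s0,
      (∏ i, ALocal_B (D.ph (s i)) l e c i (WA D.ph X s i) (X (s i))) ^ 2 < ⊤ := by
  classical
  set μ : Measure (A → Pt m) := volume.restrict (GdL D s0) with hμ
  have : IsFiniteMeasure μ := ⟨by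
    rw [hμ, Measure.restrict_apply MeasurableSet.univ, Set.univ_inter]
    exact lt_of_le_of_lt (measure_mono (ALocal_GdL_sub D s0)) (ALocal_vol_pi m)⟩
  set I : Finset (Fin N) := Finset.univ.filter fun i : Fin N => ¬ ((i : ℕ) + e < N) with hI
  have hprod : ∀ X : A → Pt m,
      (∏ i, ALocal_B (D.ph (s i)) l e c i (WA D.ph X s i) (X (s i))) ^ 2 =
      ∏ i ∈ I, (1 + (ENNReal.ofReal (JA (D.ph (s i)) l (WA D.ph X s i) (X (s i)))) ^
        (-(4 * c))) ^ 2 := by
    intro X
    rw [← Finset.prod_pow, hI, Finset.prod_filter]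
    refine Finset.prod_congr rfl fun i _ => ?_
    unfold ALocal_B
    by_cases hi : (i : ℕ) + e < N
    · rw [if_pos hi, if_neg (by simpa using hi), one_pow]
    · rw [if_neg hi, if_pos hi]
  simp_rw [hprod]
  rcases I.eq_empty_or_nonempty with hIe | hIne
  · rw [hIe]
    simp only [Finset.prod_empty, lintegral_const, one_mul]
    exact measure_lt_top μ _
  · set r := I.card with hr
    have hre : r ≤ e := Local_card_I N e
    have hr0 : 0 < r := Finset.card_pos.2 hIne
    obtain ⟨C, hC, hv⟩ := vol_JA D s0 hs N hN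
    have key : ∀ i ∈ I, ∫⁻ X, (ENNReal.ofReal (JA (D.ph (s i)) l (WA D.ph X s i) (X (s i)))) ^
        (-(8 * c * r)) ∂μ < ⊤ := by
      intro i hi
      have hi' : N ≤ (i : ℕ) + e := by
        have := (Finset.mem_filter.1 hi).2
        omega
      refine Local_negpow μ (fun X => JA (D.ph (s i)) l (WA D.ph X s i) (X (s i)))
        (measurable_JA D.ph l s i) (fun X => ALocal_JA_nonneg _ _ _ _) C
        (2 * ((R : ℝ) - 2 * e) / l) (8 * c * r)
        hC.le (by positivity) ?_ ?_
      · have hl' : (0 : ℝ) < l := by exact_mod_cast D.hl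
        rw [lt_div_iff₀ hl']
        have hR' : (4 : ℝ) * e ≤ R := by exact_mod_cast D.he
        have hre' : (r : ℝ) ≤ e := by exact_mod_cast hre
        have hr0' : (0 : ℝ) < r := by exact_mod_cast hr0
        have h5 : 8 * c * r * l = (4 * c * l) * (2 * r) := by ring
        rw [h5]
        have h6 : (4 * c * l) * (2 * r) ≤ (1 / 2) * (2 * r) :=
          mul_le_mul_of_nonneg_right hcl (by positivity)
        linarith
      · intro io hio
        have hms : MeasurableSet {X : A → Pt m |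
            JA (D.ph (s i)) l (WA D.ph X s i) (X (s i)) ≤ io} :=
          measurableSet_le (measurable_JA D.ph l s i) measurable_const
        rw [hμ, Measure.restrict_apply hms]
        refine le_trans (measure_mono ?_) (hv io hio s i hi')
        rintro X ⟨h1, h2⟩
        exact ⟨h2, h1⟩
    calc ∫⁻ X, ∏ i ∈ I, (1 + (ENNReal.ofReal (JA (D.ph (s i)) l (WA D.ph X s i) (X (s i)))) ^
          (-(4 * c))) ^ 2 ∂μ
        ≤ ∫⁻ X, ∑ i ∈ I, (2 ^ (2 * r) + 2 ^ (2 * r) *
          (ENNReal.ofReal (JA (D.ph (s i)) l (WA D.ph X s i) (X (s i)))) ^ (-(8 * c * r))) ∂μ := by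
          refine lintegral_mono fun X => ?_
          refine (Local_prod_le I hIne _).trans ?_
          refine Finset.sum_le_sum fun i _ => ?_
          rw [← pow_mul]
          refine (Local_one_add _ _).trans (le_of_eq ?_)
          congr 2
          rw [← ENNReal.rpow_natCast, ← ENNReal.rpow_mul]
          congr 1
          push_cast
          ring
      _ = ∑ i ∈ I, ∫⁻ X, (2 ^ (2 * r) + 2 ^ (2 * r) *
          (ENNReal.ofReal (JA (D.ph (s i)) l (WA D.ph X s i) (X (s i)))) ^ (-(8 * c * r))) ∂μ := by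
          refine lintegral_finsetSum _ fun i _ => ?_
          refine Measurable.const_add (Measurable.const_mul ?_ _) _
          exact (ENNReal.measurable_ofReal.comp (measurable_JA D.ph l s i)).pow_const _
      _ < ⊤ := by
          refine ENNReal.sum_lt_top.2 fun i hi => ?_
          rw [lintegral_add_left measurable_const, lintegral_const,
            lintegral_const_mul' _ _ (by simp)]
          refine ENNReal.add_lt_top.2 ⟨ENNReal.mul_lt_top (by simp) (measure_lt_top μ _),
            ENNReal.mul_lt_top (by simp) (key i hi)⟩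

theorem local_A {l R e : ℕ} (D : LocData A m K l R e) (s0 : ℝ) (hs : 0 < s0) (c : ℝ)
    (hc : 0 ≤ c) (hcl : 4 * c * l ≤ 1 / 2) :
    ∫⁻ X in GdL D s0, (ENNReal.ofReal (DA D.ph X)) ^ (-(2 * c)) < ⊤ := by
  classical
  set N := Fintype.card A with hN
  set S : Set (A → Pt m) := GdL D s0 with hS
  set P : (Fin N ≃ A) → Set (A → Pt m) := fun s =>
    {X | ∀ i : Fin N, (i : ℕ) + e < N → s0 ≤ JA (D.ph (s i)) l (WA D.ph X s i) (X (s i))} with hP
  have hPm : ∀ s, MeasurableSet (P s) := by
    intro s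
    have : P s = ⋂ i : Fin N, {X | (i : ℕ) + e < N →
        s0 ≤ JA (D.ph (s i)) l (WA D.ph X s i) (X (s i))} := by
      ext X
      simp [hP]
    rw [this]
    refine MeasurableSet.iInter fun i => ?_
    by_cases hi : (i : ℕ) + e < N
    · simp only [hi, forall_const]
      exact measurableSet_le measurable_const (measurable_JA D.ph l s i)
    · simp [hi]
  have hcov : S ⊆ ⋃ s, (P s ∩ S) := by
    intro X hX
    obtain ⟨s, hs⟩ := exists_orderA hN D.ph s0 e X hX.2
    exact Set.mem_iUnion.2 ⟨s, hs, hX⟩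
  calc ∫⁻ X in S, (ENNReal.ofReal (DA D.ph X)) ^ (-(2 * c))
      ≤ ∫⁻ X in ⋃ s, (P s ∩ S), (ENNReal.ofReal (DA D.ph X)) ^ (-(2 * c)) :=
        lintegral_mono_set hcov
    _ ≤ ∑' s, ∫⁻ X in P s ∩ S, (ENNReal.ofReal (DA D.ph X)) ^ (-(2 * c)) :=
        lintegral_iUnion_le _ _
    _ = ∑ s, ∫⁻ X in P s ∩ S, (ENNReal.ofReal (DA D.ph X)) ^ (-(2 * c)) := tsum_fintype _
    _ < ⊤ := by
        refine ENNReal.sum_lt_top.2 fun s _ => ?_
        rw [← Measure.restrict_restrict (hPm s)]
        calc ∫⁻ X in P s, (ENNReal.ofReal (DA D.ph X)) ^ (-(2 * c)) ∂(volume.restrict S)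
            ≤ ∫⁻ X in P s, ((∏ i, ALocal_A (D.ph (s i)) l e s0 c i (WA D.ph X s i) (X (s i))) ^ 2 +
              (∏ i, ALocal_B (D.ph (s i)) l e c i (WA D.ph X s i) (X (s i))) ^ 2)
                ∂(volume.restrict S) := by
              refine setLIntegral_mono' (hPm s) fun X hX => ?_
              refine le_trans ?_ (Local_mul_le _ _)
              rw [DA_eq_prod D.ph X s,
                ENNReal.ofReal_prod_of_nonneg fun i _ => ALocal_bA_nonneg _ _ _,
                ← ENNReal.prod_rpow_of_ne_top (fun i _ => ENNReal.ofReal_ne_top),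
                ← Finset.prod_mul_distrib]
              exact Finset.prod_le_prod' fun i _ => ALocal_le_AB _ _ _ _ _ hc i _ _ (hX i)
          _ ≤ ∫⁻ X, ((∏ i, ALocal_A (D.ph (s i)) l e s0 c i (WA D.ph X s i) (X (s i))) ^ 2 +
              (∏ i, ALocal_B (D.ph (s i)) l e c i (WA D.ph X s i) (X (s i))) ^ 2)
                ∂(volume.restrict S) := setLIntegral_le_lintegral _ _
          _ = (∫⁻ X in S, (∏ i, ALocal_A (D.ph (s i)) l e s0 c i (WA D.ph X s i) (X (s i))) ^ 2) +
              ∫⁻ X in S, (∏ i, ALocal_B (D.ph (s i)) l e c i (WA D.ph X s i) (X (s i))) ^ 2 := by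
              refine lintegral_add_left ?_ _
              exact (Finset.measurable_prod _ fun i _ =>
                ALocal_measurable_A D.ph l e s0 c s i).pow_const 2
          _ < ⊤ := by
              refine ENNReal.add_lt_top.2 ⟨?_, ALocal_prod_B D s0 hs c hc hcl N hN s⟩
              exact lt_of_le_of_lt (lintegral_mono_set (ALocal_GdL_sub D s0))
                (ALocal_prod_A D.ph D.inj N l e hN D.hl c hc hcl s0 hs s)

end GTor
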