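/-
Definitions for the toric case of MP_e0d435_ag (gamma(X) = delta(X) for every toric Fano variety).
First part: abstract monomial families in one chart.
-/
import Pool.Agent.Lib_MP_e0d435_ag.Basic
import Pool.Agent.Lib_MP_e0d435_ag.HDefs

open Finset MeasureTheory Complex
open scoped ENNReal ContDiff

namespace GTor

open GPn

/-- monomial with exponent e -/
noncomputable def mon {n : ℕ} (e : Fin n → ℕ) (z : Pt n) : ℂ := ∏ i, z i ^ e i

/-- sum of the squares of the absolute values of the monomials of a finite family -/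
noncomputable def Sd {n : ℕ} {B : Type} [Fintype B] (d : B → Fin n → ℕ) (z : Pt n) : ℝ :=
  ∑ b, ‖mon (d b) z‖ ^ 2

/-- real torus translation in logarithmic coordinates -/
noncomputable def sc {n : ℕ} (lam : Fin n → ℝ) (z : Pt n) : Pt n :=
  fun i => (Real.exp (lam i) : ℂ) * z i

/-- rotation of the coordinates by the angles th -/
noncomputable def rt {n : ℕ} (th : Fin n → ℝ) (z : Pt n) : Pt n :=
  fun i => Complex.exp (th i * I) * z i

section
variable {n : ℕ} {A B : Type} [Fintype A] [DecidableEq A] [Fintype B]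

/-- determinant of the monomials e a at the points Z j -/
noncomputable def Dt (e : A → Fin n → ℕ) (Z : A → Pt n) : ℂ :=
  (Matrix.of fun j a => mon (e a) (Z j)).det

/-- permanent of the squares of the absolute values -/
noncomputable def Pm (e : A → Fin n → ℕ) (Z : A → Pt n) : ℝ :=
  ∑ p : Equiv.Perm A, ∏ j, ‖mon (e (p j)) (Z j)‖ ^ 2

/-- regularised square of the determinant -/
noncomputable def Hh (e : A → Fin n → ℕ) (ep ep' : ℝ) (Z : A → Pt n) : ℝ :=
  ‖Dt e Z‖ ^ 2 + ep * Pm e Z + ep' * ∏ j, Sd e (Z j)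

/-- density of the regularised Gibbs measure -/
noncomputable def rho (e : A → Fin n → ℕ) (d : B → Fin n → ℕ) (t r ep ep' : ℝ)
    (lam : A → Fin n → ℝ) (Z : A → Pt n) : ℝ :=
  Hh e ep ep' Z ^ (-t) * ∏ j, Sd d (sc (lam j) (Z j)) ^ (-r)

/-- weight: rho = exp (- Ps) for ep' > 0 -/
noncomputable def Ps (e : A → Fin n → ℕ) (d : B → Fin n → ℕ) (t r ep ep' : ℝ)
    (lam : A → Fin n → ℝ) (Z : A → Pt n) : ℝ :=
  t * Real.log (Hh e ep ep' Z) + r * ∑ j, Real.log (Sd d (sc (lam j) (Z j)))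

/-- mean exponent -/
noncomputable def bet (e : A → Fin n → ℕ) (i : Fin n) : ℝ :=
  (∑ a, (e a i : ℝ)) / Fintype.card A

/-- coercivity -/
def Coer (e : A → Fin n → ℕ) (d : B → Fin n → ℕ) (t r kap : ℝ) : Prop :=
  ∀ v : Fin n → ℝ, ∃ b : B, kap * ∑ i, |v i| ≤
    t * ∑ i, bet e i * v i + r * ∑ i, (d b i : ℝ) * v i - ∑ i, v i

/-- Levi form of log of the sum Sd d (sc lam z) at z in direction a -/
noncomputable def Lg (d : B → Fin n → ℕ) (lam : Fin n → ℝ) (z a : Pt n) : ℝ :=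
  (Sd d (sc lam z) * (∑ b, ‖fderiv ℂ (fun y => mon (d b) (sc lam y)) z a‖ ^ 2)
    - ‖∑ b, (starRingEnd ℂ) (mon (d b) (sc lam z)) *
        fderiv ℂ (fun y => mon (d b) (sc lam y)) z a‖ ^ 2) / Sd d (sc lam z) ^ 2

/-- logarithmic derivative of Sd in direction mu -/
noncomputable def g1 (d : B → Fin n → ℕ) (mu : Fin n → ℝ) (z : Pt n) : ℝ :=
  2 * (∑ b, (∑ i, (d b i : ℝ) * mu i) * ‖mon (d b) z‖ ^ 2) / Sd d z

/-- second logarithmic derivative of Sd in direction mu -/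
noncomputable def g2 (d : B → Fin n → ℕ) (mu : Fin n → ℝ) (z : Pt n) : ℝ :=
  4 * ((∑ b, (∑ i, (d b i : ℝ) * mu i) ^ 2 * ‖mon (d b) z‖ ^ 2) / Sd d z
    - ((∑ b, (∑ i, (d b i : ℝ) * mu i) * ‖mon (d b) z‖ ^ 2) / Sd d z) ^ 2)

/-- test function: smooth substitute for the indicator function of the set where the section g
(of degree D in the sections d (sel i)) is small -/
noncomputable def wt (d : B → Fin n → ℕ) (sel : Fin (n + 1) → B) {D : ℕ} (p : ℕ)
    (g : V (n + 1) D) (z : Pt n) : ℝ :=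
  (1 - ‖pd g 0 (fun i => mon (d (sel i)) z)‖ ^ 2 / Sd d z ^ D) ^ p

open Classical in
/-- number of points near the hypersurface g = 0 -/
noncomputable def cntT (d : B → Fin n → ℕ) (sel : Fin (n + 1) → B) {D : ℕ} (g : V (n + 1) D)
    (del : ℝ) (Z : A → Pt n) : ℕ :=
  (Finset.univ.filter fun j =>
    ‖pd g 0 (fun i => mon (d (sel i)) (Z j))‖ ^ 2 < del ^ 2 * Sd d (Z j) ^ D).card

open Classical in
/-- number of points far away in logarithmic coordinates -/
noncomputable def cntF (L : ℝ) (Z : A → Pt n) : ℕ :=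
  (Finset.univ.filter fun j => ∃ i, L < |Real.log ‖Z j i‖|).card

/-- bad configurations -/
def BadT (d : B → Fin n → ℕ) (sel : Fin (n + 1) → B) (D : ℕ) (L del : ℝ) (e0 : ℕ) :
    Set (A → Pt n) :=
  {Z | (∃ g : V (n + 1) D, ‖g‖ = 1 ∧ e0 < cntT d sel g del Z) ∨ e0 < cntF L Z}

end

/-- data of the rays in the chart, needed for the Liouville theorem and the invariance of weights -/
structure RayData {n : ℕ} {A B : Type} [Fintype A] [DecidableEq A] [Fintype B]
    (e : A → Fin n → ℕ) (d : B → Fin n → ℕ) (t r : ℝ) where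
  U : Finset (Fin n → ℝ)
  q : ℝ
  q_nonneg : 0 ≤ q
  dom : ∃ C : ℝ, ∀ z : Pt n, Sd e z ≤ C * Sd d z ^ q
  low : ∀ u ∈ U, ∀ b, ∑ i, u i - 1 ≤ (t * q + r) * ∑ i, (d b i : ℝ) * u i
  strict : ∀ u ∈ U, ∃ b, ∑ i, u i - 1 < (t * q + r) * ∑ i, (d b i : ℝ) * u i
  neg : ∀ be : Fin n → ℤ, be ≠ 0 → (∀ u ∈ U, ∃ m : ℤ, ∑ i, (be i : ℝ) * u i = m) →
    ∃ u ∈ U, ∑ i, (be i : ℝ) * u i ≤ -1
  phe : ∀ u ∈ U, ∀ a a', ∃ m : ℤ, ∑ i, ((e a i : ℝ) - e a' i) * u i = m
  phd : ∀ u ∈ U, ∀ b b', ∃ m : ℤ, ∑ i, ((d b i : ℝ) - d b' i) * u i = m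

end GTor
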