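/-
Toric Fano varieties: definitions (MP_e0d435_ag).
-/
import Pool.Agent.Lib_MP_e0d435_ag_T.TDefs

open Finset MeasureTheory Complex
open scoped ENNReal ContDiff Real

namespace GTor

open GPn

/-- an integer vector as a real vector -/
def toR {n : ℕ} (v : Fin n → ℤ) : Fin n → ℝ := fun i => (v i : ℝ)

/-- integer pairing -/
def ip {n : ℕ} (a v : Fin n → ℤ) : ℤ := ∑ i, a i * v i

/-- A Fano polytope: the convex hull of a finite set V of primitive lattice vectors, with 0 in its
interior, such that every element of V is a vertex. Fano polytopes correspond bijectively to toric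
Fano varieties X (the fan of X consists of the cones over the faces of the polytope, V is the set
of primitive generators of the rays). -/
structure FanoPolytope (n : ℕ) where
  V : Finset (Fin n → ℤ)
  prim : ∀ v ∈ V, Finset.univ.gcd v = 1
  vert : ∀ v ∈ V, toR v ∉ convexHull ℝ (toR '' {u | u ∈ V ∧ u ≠ v})
  zero_mem : (0 : Fin n → ℝ) ∈ interior (convexHull ℝ (toR '' {u | u ∈ V}))

variable {n : ℕ}

/-- The charts of X: n linearly independent elements of V lying on a common facet of the polytope.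
The chart of s is C^n with x^m = prod_i z_i^(<m, s_i>). -/
def Ch (F : FanoPolytope n) : Set (Fin n → Fin n → ℤ) :=
  {s | (∀ i, s i ∈ F.V) ∧ LinearIndependent ℝ (fun i => toR (s i)) ∧
    ∀ w : Fin n → ℝ, (∀ i, ∑ r, w r * (s i r : ℝ) = -1) → ∀ v ∈ F.V, -1 ≤ ∑ r, w r * (v r : ℝ)}

/-- lattice points of k P, P the moment polytope: a basis of the sections of -k K_X -/
def Sec (F : FanoPolytope n) (k : ℕ) : Type :=
  {a : Fin n → ℤ // ∀ v ∈ F.V, -(k : ℤ) ≤ ip a v}

/-- -k K_X is Cartier -/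
def Car (F : FanoPolytope n) (k : ℕ) : Prop :=
  ∀ s ∈ Ch F, ∃ w : Fin n → ℤ, ∀ i, ip w (s i) = -(k : ℤ)

theorem Sec_bdd (F : FanoPolytope n) : ∃ c0 : ℕ, ∀ (k : ℕ) (a : Fin n → ℤ),
    (∀ v ∈ F.V, -(k : ℤ) ≤ ip a v) → ∀ r, |a r| ≤ c0 * k := by
  classical
  obtain ⟨ε, hε, hball⟩ := Metric.isOpen_iff.1 isOpen_interior 0 F.zero_mem
  refine ⟨⌈2 / ε⌉₊, fun k a ha r => ?_⟩
  -- the half space
  have hconv : Convex ℝ {y : Fin n → ℝ | -(k : ℝ) ≤ ∑ i, (a i : ℝ) * y i} := by
    have h1 := convex_halfSpace_ge (𝕜 := ℝ) (E := Fin n → ℝ)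
      (f := fun y => ∑ i, (a i : ℝ) * y i) (IsLinearMap.mk
        (fun x y => by simp only [Pi.add_apply, mul_add, Finset.sum_add_distrib])
        (fun c x => by
          simp only [Pi.smul_apply, smul_eq_mul, Finset.mul_sum]
          exact Finset.sum_congr rfl fun i _ => by ring)) (-(k : ℝ))
    exact h1
  have hsub : toR '' {u | u ∈ F.V} ⊆ {y : Fin n → ℝ | -(k : ℝ) ≤ ∑ i, (a i : ℝ) * y i} := by
    rintro _ ⟨v, hv, rfl⟩
    have h1 := ha v hv
    have h2 : (-(k : ℝ)) ≤ ((ip a v : ℤ) : ℝ) := by exact_mod_cast h1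
    change -(k : ℝ) ≤ ∑ i, (a i : ℝ) * ((v i : ℤ) : ℝ)
    refine h2.trans (le_of_eq ?_)
    unfold ip
    push_cast
    rfl
  have hhull := convexHull_min hsub hconv
  have key : ∀ s : ℝ, |s| < ε → -(k : ℝ) ≤ (a r : ℝ) * s := by
    intro s hs
    have h1 : (Pi.single r s : Fin n → ℝ) ∈ Metric.ball (0 : Fin n → ℝ) ε := by
      rw [mem_ball_zero_iff, Pi.norm_single]
      exact hs
    have h2 := hhull (interior_subset (hball h1))
    have h3 : ∑ i, (a i : ℝ) * (Pi.single r s : Fin n → ℝ) i = (a r : ℝ) * s := by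
      rw [Finset.sum_eq_single r]
      · rw [Pi.single_eq_same]
      · intro j _ hj
        rw [Pi.single_eq_of_ne hj, mul_zero]
      · intro h
        exact absurd (Finset.mem_univ r) h
    have h4 : -(k : ℝ) ≤ ∑ i, (a i : ℝ) * (Pi.single r s : Fin n → ℝ) i := h2
    rwa [h3] at h4
  have hε2 : |ε / 2| < ε := by rw [abs_of_pos (half_pos hε)]; exact half_lt_self hε
  have h1 := key (ε / 2) hε2
  have h2 := key (-(ε / 2)) (by rw [abs_neg]; exact hε2)
  have h3 : |(a r : ℝ)| ≤ 2 / ε * k := by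
    rw [abs_le]
    have hk : (2 / ε * k) * (ε / 2) = k := by field_simp
    constructor
    · by_contra hcon
      push Not at hcon
      have := mul_lt_mul_of_pos_right hcon (half_pos hε)
      nlinarith
    · by_contra hcon
      push Not at hcon
      have := mul_lt_mul_of_pos_right hcon (half_pos hε)
      nlinarith
  have h4 : (2 / ε * k : ℝ) ≤ (⌈2 / ε⌉₊ : ℝ) * k :=
    mul_le_mul_of_nonneg_right (Nat.le_ceil _) (Nat.cast_nonneg k)
  have h5 : ((|a r| : ℤ) : ℝ) ≤ (((⌈2 / ε⌉₊ : ℕ) : ℤ) * (k : ℤ) : ℤ) := by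
    push_cast
    exact h3.trans h4
  exact_mod_cast h5

instance finite_Sec (F : FanoPolytope n) (k : ℕ) : Finite (Sec F k) := by
  obtain ⟨c0, hc⟩ := Sec_bdd F
  have h1 : Set.Finite {a : Fin n → ℤ | ∀ v ∈ F.V, -(k : ℤ) ≤ ip a v} := by
    refine Set.Finite.subset (Set.finite_Icc (fun _ => -((c0 : ℤ) * k)) (fun _ => (c0 : ℤ) * k)) ?_
    intro a ha
    have h2 := hc k a ha
    exact ⟨fun r => (abs_le.1 (h2 r)).1, fun r => (abs_le.1 (h2 r)).2⟩
  exact h1.to_subtype

noncomputable instance (F : FanoPolytope n) (k : ℕ) : Fintype (Sec F k) := Fintype.ofFinite _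

noncomputable instance (F : FanoPolytope n) (k : ℕ) : DecidableEq (Sec F k) := Classical.decEq _

/-- exponents of the section a in the chart s -/
def ex (F : FanoPolytope n) (k : ℕ) (s : Fin n → Fin n → ℤ) (a : Sec F k) (i : Fin n) : ℕ :=
  (ip a.1 (s i) + k).toNat

/-- local equation of the divisor of the determinant section det(s_a(x_j)) on X^N in the product of
the charts s j -/
noncomputable def locEqT (F : FanoPolytope n) (k : ℕ) (s : Sec F k → Fin n → Fin n → ℤ)
    (z : Sec F k → Fin n → ℂ) : ℂ :=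
  (Matrix.of fun j a : Sec F k => ∏ i, z j i ^ ex F k (s j) a i).det

/-- log canonical threshold of the divisor of the determinant section of -k K_X on X^N:
supremum of the c >= 0 such that |f|^(-2c) is locally integrable for the local equation f in every
product of charts -/
noncomputable def lctT (F : FanoPolytope n) (k : ℕ) : ℝ :=
  sSup {c : ℝ | 0 ≤ c ∧ ∀ s : Sec F k → Fin n → Fin n → ℤ, (∀ j, s j ∈ Ch F) →
    LocallyIntegrable (fun z : Sec F k → Fin n → ℂ => ‖locEqT F k s z‖ ^ (-(2 * c)))}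

/-- moment polytope P -/
def Pol (F : FanoPolytope n) : Set (Fin n → ℝ) :=
  {p | ∀ v ∈ F.V, -1 ≤ ∑ r, p r * (v r : ℝ)}

/-- barycentre of P -/
noncomputable def bary (F : FanoPolytope n) (r : Fin n) : ℝ :=
  (∫ p in Pol F, p r) / (volume (Pol F)).toReal

/-- the stability threshold of X: minimum over the rays v of 1 / (1 + <b, v>) -/
noncomputable def deltaT (F : FanoPolytope n) : ℝ :=
  sInf {x : ℝ | ∃ v ∈ F.V, x = 1 / (1 + ∑ r, bary F r * (v r : ℝ))}

/-- barycentre of the lattice points of k P, divided by k -/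
noncomputable def bk (F : FanoPolytope n) (k : ℕ) (r : Fin n) : ℝ :=
  (∑ a : Sec F k, (a.1 r : ℝ)) / (k * Fintype.card (Sec F k))

/-- dual vertex of a chart -/
noncomputable def wv (s : Fin n → Fin n → ℤ) : Fin n → ℝ :=
  ((Matrix.of fun i r : Fin n => (s i r : ℝ))⁻¹).mulVec (fun _ => -1)

end GTor
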