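/- piece FC: the charts cover -/
import Pool.Agent.Lib_MP_e0d435_ag_T.FDef

open Finset MeasureTheory Complex
open scoped ENNReal ContDiff Real

namespace GTor
open GPn

variable {n : ℕ}

private theorem FCov_half (F : FanoPolytope n) (w : Fin n → ℝ) (a : ℝ)
    (h : ∀ v ∈ F.V, a ≤ ∑ r, w r * (v r : ℝ)) (y : Fin n → ℝ)
    (hy : y ∈ convexHull ℝ (toR '' {u | u ∈ F.V})) : a ≤ ∑ r, w r * y r := by
  have h1 : convexHull ℝ (toR '' {u | u ∈ F.V}) ⊆ {y : Fin n → ℝ | a ≤ ∑ r, w r * y r} := by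
    refine convexHull_min ?_ ?_
    · rintro _ ⟨u, hu, rfl⟩
      exact h u hu
    · refine convex_halfSpace_ge (f := fun y : Fin n → ℝ => ∑ r, w r * y r) ⟨?_, ?_⟩ a
      · intro x y
        simp only [Pi.add_apply, mul_add, Finset.sum_add_distrib]
      · intro c x
        simp only [Pi.smul_apply, smul_eq_mul, Finset.mul_sum]
        refine Finset.sum_congr rfl fun r _ => ?_
        ring
  exact h1 hy

private theorem FCov_pos_span (F : FanoPolytope n) (w : Fin n → ℝ)
    (hw : ∀ v ∈ F.V, 0 ≤ ∑ r, w r * (v r : ℝ)) : w = 0 := by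
  have hK := mem_interior_iff_mem_nhds.1 F.zero_mem
  obtain ⟨ε, hε, hb⟩ := Metric.mem_nhds_iff.1 hK
  have hw1 : 0 < ‖w‖ + 1 := by positivity
  obtain ⟨δ, hδd⟩ : ∃ δ : ℝ, δ = ε / (2 * (‖w‖ + 1)) := ⟨_, rfl⟩
  have hδ : 0 < δ := by rw [hδd]; positivity
  have h1 : (-δ) • w ∈ Metric.ball (0 : Fin n → ℝ) ε := by
    rw [mem_ball_zero_iff, norm_smul, Real.norm_eq_abs, abs_neg, abs_of_pos hδ]
    have h2 : δ * (‖w‖ + 1) = ε / 2 := by
      rw [hδd]; field_simp
    nlinarith
  have h2 := FCov_half F w 0 hw _ (hb h1)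
  have h3 : ∑ r, w r * ((-δ) • w) r = -(δ * ∑ r, w r ^ 2) := by
    rw [Finset.mul_sum, ← Finset.sum_neg_distrib]
    refine Finset.sum_congr rfl fun r _ => ?_
    simp only [Pi.smul_apply, smul_eq_mul]
    ring
  rw [h3] at h2
  have h4 : ∑ r, w r ^ 2 ≤ 0 := by
    by_contra hc
    have := mul_pos hδ (not_le.1 hc)
    linarith
  have h5 : ∑ r, w r ^ 2 = 0 := le_antisymm h4 (Finset.sum_nonneg fun r _ => sq_nonneg _)
  funext r
  have h6 := (Finset.sum_eq_zero_iff_of_nonneg fun r _ => sq_nonneg (w r)).1 h5 r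
    (Finset.mem_univ r)
  exact pow_eq_zero_iff (two_ne_zero) |>.1 h6

private theorem FCov_row (s : Fin n → Fin n → ℤ) :
    (Matrix.of fun i r : Fin n => (s i r : ℝ)).row = fun i => toR (s i) := rfl

private theorem FCov_wv_spec (s : Fin n → Fin n → ℤ)
    (hs : LinearIndependent ℝ (fun i => toR (s i))) (i : Fin n) :
    ∑ r, wv s r * (s i r : ℝ) = -1 := by
  have hu : IsUnit (Matrix.of fun i r : Fin n => (s i r : ℝ)) := by
    rw [← Matrix.linearIndependent_rows_iff_isUnit, FCov_row]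
    exact hs
  have hdet : IsUnit (Matrix.of fun i r : Fin n => (s i r : ℝ)).det :=
    (Matrix.isUnit_iff_isUnit_det _).1 hu
  have h1 : (Matrix.of fun i r : Fin n => (s i r : ℝ)).mulVec (wv s) = fun _ => -1 := by
    unfold wv
    rw [Matrix.mulVec_mulVec, Matrix.mul_nonsing_inv _ hdet, Matrix.one_mulVec]
  have h2 := congrFun h1 i
  rw [Matrix.mulVec, dotProduct] at h2
  rw [← h2]
  refine Finset.sum_congr rfl fun r _ => ?_
  simp only [Matrix.of_apply]
  ring

private theorem FCov_wv_unique (s : Fin n → Fin n → ℤ)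
    (hs : LinearIndependent ℝ (fun i => toR (s i)))
    (w : Fin n → ℝ) (hw : ∀ i, ∑ r, w r * (s i r : ℝ) = -1) : w = wv s := by
  have hu : IsUnit (Matrix.of fun i r : Fin n => (s i r : ℝ)) := by
    rw [← Matrix.linearIndependent_rows_iff_isUnit, FCov_row]
    exact hs
  have hdet : IsUnit (Matrix.of fun i r : Fin n => (s i r : ℝ)).det :=
    (Matrix.isUnit_iff_isUnit_det _).1 hu
  have h1 : (Matrix.of fun i r : Fin n => (s i r : ℝ)).mulVec w = fun _ => -1 := by
    funext i
    rw [← hw i, Matrix.mulVec, dotProduct]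
    refine Finset.sum_congr rfl fun r _ => ?_
    simp only [Matrix.of_apply]
    ring
  unfold wv
  rw [← h1, Matrix.mulVec_mulVec, Matrix.nonsing_inv_mul _ hdet, Matrix.one_mulVec]

/-- partial charts -/
private def FCov_Good (F : FanoPolytope n) (x : Fin n → ℝ) (k : ℕ) : Prop :=
  ∃ (s : Fin k → Fin n → ℤ) (c : Fin k → ℝ) (w : Fin n → ℝ), (∀ i, s i ∈ F.V) ∧
    LinearIndependent ℝ (fun i => toR (s i)) ∧ w ∈ Pol F ∧
    (∀ i, ∑ r, w r * (s i r : ℝ) = -1) ∧ (∀ i, 0 ≤ c i) ∧ ∀ r, x r = ∑ i, c i * (s i r : ℝ)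

private theorem FCov_step (F : FanoPolytope n) (x : Fin n → ℝ) (k : ℕ) (hk : k < n)
    (h : FCov_Good F x k) : FCov_Good F x (k + 1) := by
  obtain ⟨s, c, w, hs, hli, hw, ht, hc, hx⟩ := h
  have hker : LinearMap.ker (Matrix.mulVecLin (Matrix.of fun (i : Fin k) (r : Fin n) =>
      (s i r : ℝ))) ≠ ⊥ := LinearMap.ker_ne_bot_of_finrank_lt (by simpa using hk)
  obtain ⟨d, hd, hd0⟩ := Submodule.exists_mem_ne_zero_of_ne_bot hker
  have hd1 : ∀ i, ∑ r, d r * (s i r : ℝ) = 0 := by
    intro i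
    rw [LinearMap.mem_ker, Matrix.mulVecLin_apply] at hd
    have h1 := congrFun hd i
    rw [Matrix.mulVec, dotProduct] at h1
    simp only [Pi.zero_apply] at h1
    rw [← h1]
    refine Finset.sum_congr rfl fun r _ => ?_
    simp only [Matrix.of_apply]
    ring
  have hneg : ∃ v ∈ F.V, ∑ r, d r * (v r : ℝ) < 0 := by
    by_contra hcon
    push Not at hcon
    exact hd0 (FCov_pos_span F d hcon)
  have hS : (F.V.filter fun v => ∑ r, d r * (v r : ℝ) < 0).Nonempty := by
    obtain ⟨v, hv, hv1⟩ := hneg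
    exact ⟨v, Finset.mem_filter.2 ⟨hv, hv1⟩⟩
  obtain ⟨v0, hv0, hmin⟩ := Finset.exists_min_image _
    (fun v : Fin n → ℤ => (∑ r, w r * (v r : ℝ) + 1) / (-∑ r, d r * (v r : ℝ))) hS
  obtain ⟨hv0V, hv0d⟩ := Finset.mem_filter.1 hv0
  obtain ⟨τ, hτd⟩ : ∃ τ : ℝ, τ = (∑ r, w r * (v0 r : ℝ) + 1) / (-∑ r, d r * (v0 r : ℝ)) :=
    ⟨_, rfl⟩
  have hτ : 0 ≤ τ := by
    rw [hτd]
    have := hw v0 hv0V
    exact div_nonneg (by linarith) (by linarith)
  have key : ∀ v : Fin n → ℤ, ∑ r, (w + τ • d) r * (v r : ℝ) =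
      ∑ r, w r * (v r : ℝ) + τ * ∑ r, d r * (v r : ℝ) := by
    intro v
    rw [Finset.mul_sum, ← Finset.sum_add_distrib]
    refine Finset.sum_congr rfl fun r _ => ?_
    simp only [Pi.add_apply, Pi.smul_apply, smul_eq_mul]
    ring
  have htight : ∑ r, (w + τ • d) r * (v0 r : ℝ) = -1 := by
    rw [key, hτd]
    have : (∑ r, d r * (v0 r : ℝ)) ≠ 0 := hv0d.ne
    field_simp
    ring
  refine ⟨Fin.snoc s v0, Fin.snoc c 0, w + τ • d, ?_, ?_, ?_, ?_, ?_, ?_⟩
  · intro i
    refine Fin.lastCases ?_ (fun i => ?_) i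
    · rw [Fin.snoc_last]; exact hv0V
    · rw [Fin.snoc_castSucc]; exact hs i
  · have e1 : (fun i => toR ((Fin.snoc s v0 : Fin (k + 1) → Fin n → ℤ) i)) =
        (Fin.snoc (fun i => toR (s i)) (toR v0) : Fin (k + 1) → Fin n → ℝ) := by
      funext i
      refine Fin.lastCases ?_ (fun i => ?_) i
      · rw [Fin.snoc_last, Fin.snoc_last]
      · rw [Fin.snoc_castSucc, Fin.snoc_castSucc]
    rw [e1, linearIndependent_finSnoc]
    refine ⟨hli, fun hmem => ?_⟩
    have h1 : ∀ y ∈ Submodule.span ℝ (Set.range fun i => toR (s i)), ∑ r, d r * y r = 0 := by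
      intro y hy
      induction hy using Submodule.span_induction with
      | mem y hy =>
        obtain ⟨i, rfl⟩ := hy
        exact hd1 i
      | zero => simp
      | add y z _ _ h2 h3 =>
        simp only [Pi.add_apply, mul_add, Finset.sum_add_distrib, h2, h3, add_zero]
      | smul a y _ h2 =>
        have : ∑ r, d r * (a • y) r = a * ∑ r, d r * y r := by
          rw [Finset.mul_sum]
          refine Finset.sum_congr rfl fun r _ => ?_
          simp only [Pi.smul_apply, smul_eq_mul]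
          ring
        rw [this, h2, mul_zero]
    have h2 := h1 _ hmem
    have h3 : ∑ r, d r * toR v0 r = ∑ r, d r * (v0 r : ℝ) := rfl
    rw [h3] at h2
    exact absurd h2 hv0d.ne
  · intro v hv
    rw [key]
    have h1 := hw v hv
    by_cases hvd : ∑ r, d r * (v r : ℝ) < 0
    · have h2 := hmin v (Finset.mem_filter.2 ⟨hv, hvd⟩)
      rw [← hτd, le_div_iff₀ (by linarith)] at h2
      linarith
    · have h2 := mul_nonneg hτ (not_lt.1 hvd)
      linarith
  · intro i
    refine Fin.lastCases ?_ (fun i => ?_) i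
    · rw [Fin.snoc_last]; exact htight
    · rw [Fin.snoc_castSucc, key, ht i, hd1 i]; ring
  · intro i
    refine Fin.lastCases ?_ (fun i => ?_) i
    · rw [Fin.snoc_last]
    · rw [Fin.snoc_castSucc]; exact hc i
  · intro r
    rw [hx r, Fin.sum_univ_castSucc]
    simp only [Fin.snoc_last, Fin.snoc_castSucc, zero_mul, add_zero]

private theorem FCov_le (F : FanoPolytope n) (x : Fin n → ℝ) (k : ℕ)
    (h : FCov_Good F x k) : k ≤ n := by
  obtain ⟨s, c, w, hs, hli, -⟩ := h
  have := hli.fintype_card_le_finrank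
  simpa using this

private theorem FCov_dual (f : StrongDual ℝ (Fin n → ℝ)) (v : Fin n → ℝ) :
    f v = ∑ r, f (Pi.single r 1) * v r := by
  conv_lhs => rw [← Finset.univ_sum_single v]
  rw [map_sum]
  refine Finset.sum_congr rfl fun r _ => ?_
  have : (Pi.single r (v r) : Fin n → ℝ) = v r • (Pi.single r 1 : Fin n → ℝ) := by
    funext j
    by_cases h : j = r
    · subst h; simp
    · simp [Pi.single_eq_of_ne h]
  rw [this, map_smul, smul_eq_mul, mul_comm]

private theorem FCov_base (F : FanoPolytope n) (x : Fin n → ℝ) : ∃ k, FCov_Good F x k := by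
  by_cases hx0 : x = 0
  · refine ⟨0, fun i => i.elim0, fun i => i.elim0, 0, fun i => i.elim0, ?_, ?_,
      fun i => i.elim0, fun i => i.elim0, ?_⟩
    · exact linearIndependent_empty_type
    · intro v _
      simp
    · intro r
      rw [hx0]
      simp
  have hfin : (toR '' {u | u ∈ F.V}).Finite := (F.V.finite_toSet).image _
  have hKc : IsCompact (convexHull ℝ (toR '' {u | u ∈ F.V})) := hfin.isCompact_convexHull ℝ
  have hKconv : Convex ℝ (convexHull ℝ (toR '' {u | u ∈ F.V})) := convex_convexHull ℝ _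
  have hKn : convexHull ℝ (toR '' {u | u ∈ F.V}) ∈ nhds (0 : Fin n → ℝ) :=
    mem_interior_iff_mem_nhds.1 F.zero_mem
  have hzero := F.zero_mem
  have hsub : ∀ v ∈ F.V, toR v ∈ convexHull ℝ (toR '' {u | u ∈ F.V}) := fun v hv =>
    subset_convexHull ℝ _ ⟨v, hv, rfl⟩
  set K := convexHull ℝ (toR '' {u | u ∈ F.V}) with hKdef
  have hpos : 0 < gauge K x :=
    (gauge_pos (absorbent_nhds_zero hKn)
      (NormedSpace.isVonNBounded_of_isBounded ℝ hKc.isBounded)).2 hx0
  obtain ⟨y, hy⟩ : ∃ y : Fin n → ℝ, y = (gauge K x)⁻¹ • x := ⟨_, rfl⟩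
  have hgy : gauge K y = 1 := by
    rw [hy, gauge_smul_of_nonneg (inv_nonneg.2 hpos.le), smul_eq_mul, inv_mul_cancel₀ hpos.ne']
  have hfr : y ∈ frontier K := (gauge_eq_one_iff_mem_frontier hKconv hKn).1 hgy
  have hyK : y ∈ K := hKc.isClosed.frontier_subset hfr
  have hyI : y ∉ interior K := fun h => hfr.2 h
  obtain ⟨f, u, hf0, hfa, hfb⟩ := geometric_hahn_banach_of_nonempty_interior hKconv
    (convex_singleton y) (Set.disjoint_singleton_right.2 hyI) ⟨0, hzero⟩ ⟨y, rfl⟩
  have hfy : f y = u := le_antisymm (hfa y hyK) (hfb y rfl)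
  have hu : 0 < u := by
    by_contra hcon
    have hcon' := not_lt.1 hcon
    have h1 : (fun r => -f (Pi.single r 1) : Fin n → ℝ) = 0 := by
      refine FCov_pos_span F _ fun v hv => ?_
      have h2 := hfa (toR v) (hsub v hv)
      rw [FCov_dual] at h2
      have h3 : ∑ r, -f (Pi.single r 1) * (v r : ℝ) = -∑ r, f (Pi.single r 1) * toR v r := by
        rw [← Finset.sum_neg_distrib]
        refine Finset.sum_congr rfl fun r _ => ?_
        simp only [toR]
        ring
      rw [h3]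
      linarith
    apply hf0
    ext v
    rw [FCov_dual f v]
    have h2 : ∀ r, f (Pi.single r 1) = 0 := fun r => by
      have := congrFun h1 r
      simpa using this
    simp [h2]
  obtain ⟨ι, hι, z, lam, hz, haff, hlam, hsum, hcomb⟩ :=
    eq_pos_convex_span_of_mem_convexHull (𝕜 := ℝ) hyK
  have hz' : ∀ i, ∃ v, v ∈ F.V ∧ toR v = z i := fun i => by
    obtain ⟨v, hv, hv1⟩ := hz ⟨i, rfl⟩
    exact ⟨v, hv, hv1⟩
  choose g hgV hgz using hz'
  have hfz : ∀ i, f (z i) = u := by
    have h1 : ∀ i ∈ (Finset.univ : Finset ι), lam i * f (z i) ≤ lam i * u := fun i _ => by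
      refine mul_le_mul_of_nonneg_left ?_ (hlam i).le
      rw [← hgz i]
      exact hfa _ (hsub _ (hgV i))
    have h2 : ∑ i, lam i * f (z i) = ∑ i, lam i * u := by
      rw [← Finset.sum_mul, hsum, one_mul, ← hfy, ← hcomb, map_sum]
      refine Finset.sum_congr rfl fun i _ => ?_
      rw [map_smul, smul_eq_mul]
    intro i
    have h3 := (Finset.sum_eq_sum_iff_of_le h1).1 h2 i (Finset.mem_univ i)
    exact mul_left_cancel₀ (hlam i).ne' h3
  have hli : LinearIndependent ℝ z := by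
    rw [Fintype.linearIndependent_iff]
    intro a ha i
    have h1 : ∑ i, a i = 0 := by
      have h2 := congrArg f ha
      rw [map_sum, map_zero] at h2
      simp only [map_smul, smul_eq_mul, hfz] at h2
      rw [← Finset.sum_mul] at h2
      exact (mul_eq_zero.1 h2).resolve_right hu.ne'
    exact affineIndependent_iff.1 haff Finset.univ a h1 ha i (Finset.mem_univ i)
  obtain ⟨e⟩ : Nonempty (Fin (Fintype.card ι) ≃ ι) := ⟨(Fintype.equivFin ι).symm⟩
  refine ⟨Fintype.card ι, fun i => g (e i), fun i => gauge K x * lam (e i),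
    fun r => -f (Pi.single r 1) / u, fun i => hgV _, ?_, ?_, ?_, ?_, ?_⟩
  · have h1 : (fun i => toR (g (e i))) = z ∘ e := by
      funext i
      exact hgz (e i)
    rw [h1]
    exact hli.comp e e.injective
  · intro v hv
    have h2 := hfa (toR v) (hsub v hv)
    rw [FCov_dual] at h2
    have h3 : ∑ r, -f (Pi.single r 1) / u * (v r : ℝ) =
        -(∑ r, f (Pi.single r 1) * toR v r) / u := by
      rw [← Finset.sum_neg_distrib, Finset.sum_div]
      refine Finset.sum_congr rfl fun r _ => ?_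
      simp only [toR]
      ring
    rw [h3, neg_div, neg_le_neg_iff, div_le_one hu]
    exact h2
  · intro i
    have h2 := hfz (e i)
    rw [← hgz, FCov_dual] at h2
    have h3 : ∑ r, -f (Pi.single r 1) / u * (g (e i) r : ℝ) =
        -(∑ r, f (Pi.single r 1) * toR (g (e i)) r) / u := by
      rw [← Finset.sum_neg_distrib, Finset.sum_div]
      refine Finset.sum_congr rfl fun r _ => ?_
      simp only [toR]
      ring
    rw [h3, h2, neg_div, div_self hu.ne']
  · intro i
    exact mul_nonneg hpos.le (hlam _).le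
  · intro r
    have h1 : x = gauge K x • y := by
      rw [hy, smul_smul, mul_inv_cancel₀ hpos.ne', one_smul]
    have h2 : ∑ i, gauge K x * lam (e i) * (g (e i) r : ℝ) =
        ∑ i, gauge K x * lam i * (g i r : ℝ) :=
      Equiv.sum_comp e (fun i => gauge K x * lam i * (g i r : ℝ))
    rw [h2]
    conv_lhs => rw [h1, ← hcomb]
    simp only [Pi.smul_apply, Finset.sum_apply, smul_eq_mul, Finset.mul_sum]
    refine Finset.sum_congr rfl fun i _ => ?_
    rw [← hgz i]
    simp only [toR]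
    ring

private theorem FCov_top (F : FanoPolytope n) (x : Fin n → ℝ) : FCov_Good F x n := by
  obtain ⟨k, hk⟩ := FCov_base F x
  have hkn := FCov_le F x k hk
  obtain ⟨m, rfl⟩ := Nat.exists_eq_add_of_le hkn
  clear hkn
  have h : ∀ j, j ≤ m → FCov_Good F x (k + j) := by
    intro j
    induction j with
    | zero => intro _; exact hk
    | succ j ih =>
      intro hj
      exact FCov_step F x (k + j) (by omega) (ih (by omega))
  exact h m le_rfl

theorem Ch_finite (F : FanoPolytope n) : (Ch F).Finite := by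
  refine Set.Finite.subset (Fintype.piFinset fun _ : Fin n => F.V).finite_toSet ?_
  intro s hs
  rw [Finset.mem_coe, Fintype.mem_piFinset]
  exact hs.1

/-- every vector is a nonnegative combination of the elements of a chart -/
theorem cover (F : FanoPolytope n) (x : Fin n → ℝ) : ∃ s ∈ Ch F, ∃ c : Fin n → ℝ,
    (∀ i, 0 ≤ c i) ∧ ∀ r, x r = ∑ i, c i * (s i r : ℝ) := by
  obtain ⟨s, c, w, hs, hli, hw, ht, hc, hx⟩ := FCov_top F x
  refine ⟨s, ⟨hs, hli, fun w' hw' v hv => ?_⟩, c, hc, hx⟩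
  have h1 : w' = w := (FCov_wv_unique s hli w' hw').trans (FCov_wv_unique s hli w ht).symm
  rw [h1]
  exact hw v hv

theorem Ch_nonempty (F : FanoPolytope n) : (Ch F).Nonempty := by
  obtain ⟨s, hs, -⟩ := cover F 0
  exact ⟨s, hs⟩

theorem wv_spec (s : Fin n → Fin n → ℤ) (hs : LinearIndependent ℝ (fun i => toR (s i)))
    (i : Fin n) : ∑ r, wv s r * (s i r : ℝ) = -1 := FCov_wv_spec s hs i

theorem wv_unique (s : Fin n → Fin n → ℤ) (hs : LinearIndependent ℝ (fun i => toR (s i)))
    (w : Fin n → ℝ) (hw : ∀ i, ∑ r, w r * (s i r : ℝ) = -1) : w = wv s :=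
  FCov_wv_unique s hs w hw

theorem wv_mem (F : FanoPolytope n) (s : Fin n → Fin n → ℤ) (hs : s ∈ Ch F) : wv s ∈ Pol F := by
  intro v hv
  exact hs.2.2 (wv s) (fun i => FCov_wv_spec s hs.2.1 i) v hv

/-- the rays positively span -/
theorem pos_span (F : FanoPolytope n) (w : Fin n → ℝ) (hw : ∀ v ∈ F.V, 0 ≤ ∑ r, w r * (v r : ℝ)) :
    w = 0 := FCov_pos_span F w hw

end GTor
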