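/- piece FI: index -/
import Pool.Agent.Lib_MP_e0d435_ag_T.FCov

open Finset MeasureTheory Complex
open scoped ENNReal ContDiff Real

namespace GTor
open GPn

variable {n : ℕ}

private theorem FIdx_cast (w v : Fin n → ℤ) :
    ((ip w v : ℤ) : ℝ) = ∑ r, (w r : ℝ) * (v r : ℝ) := by
  unfold ip
  push_cast
  rfl

theorem Car_iff (F : FanoPolytope n) (k : ℕ) : Car F k ↔
    ∀ s ∈ Ch F, ∃ w : Fin n → ℤ, ∀ r, (w r : ℝ) = k * wv s r := by
  constructor
  · intro h s hs
    obtain ⟨w, hw⟩ := h s hs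
    refine ⟨w, fun r => ?_⟩
    have hu := wv_unique s hs.2.1 (fun r => (w r : ℝ) + (1 - (k : ℝ)) * wv s r) (by
      intro i
      have h1 := wv_spec s hs.2.1 i
      have h2 : ((ip w (s i) : ℤ) : ℝ) = -(k : ℝ) := by
        rw [hw i]; push_cast; rfl
      rw [FIdx_cast] at h2
      have h3 : ∑ r, ((w r : ℝ) + (1 - (k : ℝ)) * wv s r) * (s i r : ℝ) =
          ∑ r, (w r : ℝ) * (s i r : ℝ) + (1 - (k : ℝ)) * ∑ r, wv s r * (s i r : ℝ) := by
        rw [Finset.mul_sum, ← Finset.sum_add_distrib]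
        exact Finset.sum_congr rfl fun r _ => by ring
      rw [h3, h2, h1]
      ring)
    have h4 := congrFun hu r
    linarith
  · intro h s hs
    obtain ⟨w, hw⟩ := h s hs
    refine ⟨w, fun i => ?_⟩
    have h1 := wv_spec s hs.2.1 i
    have h2 : ((ip w (s i) : ℤ) : ℝ) = -(k : ℝ) := by
      rw [FIdx_cast]
      have h3 : ∑ r, (w r : ℝ) * (s i r : ℝ) = (k : ℝ) * ∑ r, wv s r * (s i r : ℝ) := by
        rw [Finset.mul_sum]
        exact Finset.sum_congr rfl fun r _ => by rw [hw r]; ring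
      rw [h3, h1]
      ring
    exact_mod_cast h2

theorem Car_add (F : FanoPolytope n) (k l : ℕ) (hk : Car F k) (hl : Car F l) : Car F (k + l) := by
  intro s hs
  obtain ⟨w, hw⟩ := hk s hs
  obtain ⟨u, hu⟩ := hl s hs
  refine ⟨w + u, fun i => ?_⟩
  have h1 : ip (w + u) (s i) = ip w (s i) + ip u (s i) := by
    unfold ip
    rw [← Finset.sum_add_distrib]
    exact Finset.sum_congr rfl fun r _ => by simp only [Pi.add_apply]; ring
  rw [h1, hw i, hu i]
  push_cast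
  ring

theorem Car_sub (F : FanoPolytope n) (k l : ℕ) (h : l ≤ k) (hk : Car F k) (hl : Car F l) :
    Car F (k - l) := by
  intro s hs
  obtain ⟨w, hw⟩ := hk s hs
  obtain ⟨u, hu⟩ := hl s hs
  refine ⟨w - u, fun i => ?_⟩
  have h1 : ip (w - u) (s i) = ip w (s i) - ip u (s i) := by
    unfold ip
    rw [← Finset.sum_sub_distrib]
    exact Finset.sum_congr rfl fun r _ => by simp only [Pi.sub_apply]; ring
  rw [h1, hw i, hu i, Nat.cast_sub h]
  ring

theorem Car_mul (F : FanoPolytope n) (k q : ℕ) (hk : Car F k) : Car F (k * q) := by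
  intro s hs
  obtain ⟨w, hw⟩ := hk s hs
  refine ⟨fun r => w r * (q : ℤ), fun i => ?_⟩
  have h1 : ip (fun r => w r * (q : ℤ)) (s i) = ip w (s i) * (q : ℤ) := by
    unfold ip
    rw [Finset.sum_mul]
    exact Finset.sum_congr rfl fun r _ => by ring
  rw [h1, hw i]
  push_cast
  ring

private theorem FIdx_chart (s : Fin n → Fin n → ℤ)
    (hs : LinearIndependent ℝ (fun i => toR (s i))) :
    ∃ K : ℕ, 1 ≤ K ∧ ∃ w : Fin n → ℤ, ∀ i, ip w (s i) = -(K : ℤ) := by
  classical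
  set M : Matrix (Fin n) (Fin n) ℤ := Matrix.of s with hM
  have hunit : IsUnit (M.map (Int.castRingHom ℝ)) := by
    have h1 := (Matrix.linearIndependent_rows_iff_isUnit (K := ℝ)
      (A := M.map (Int.castRingHom ℝ))).1
    apply h1
    exact hs
  have hdet : M.det ≠ 0 := by
    intro h0
    have h1 := (Matrix.isUnit_iff_isUnit_det _).1 hunit
    have h2 : (M.map (Int.castRingHom ℝ)).det = ((M.det : ℤ) : ℝ) := by
      have h3 := RingHom.map_det (Int.castRingHom ℝ) M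
      rw [show (M.map (Int.castRingHom ℝ)) = (Int.castRingHom ℝ).mapMatrix M from rfl, ← h3]
      rfl
    rw [h2, h0] at h1
    simp at h1
  have hadj : M * M.adjugate = M.det • (1 : Matrix (Fin n) (Fin n) ℤ) := Matrix.mul_adjugate M
  have hv : M.mulVec (M.adjugate.mulVec fun _ => (1 : ℤ)) = fun _ => M.det := by
    rw [Matrix.mulVec_mulVec, hadj, Matrix.smul_mulVec, Matrix.one_mulVec]
    funext i
    simp
  refine ⟨M.det.natAbs, Int.natAbs_pos.2 hdet,
    fun r => -(M.det.sign) * (M.adjugate.mulVec fun _ => (1 : ℤ)) r, fun i => ?_⟩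
  have h1 := congrFun hv i
  have h2 : ∑ r, s i r * (M.adjugate.mulVec fun _ => (1 : ℤ)) r = M.det := h1
  have h3 : ip (fun r => -(M.det.sign) * (M.adjugate.mulVec fun _ => (1 : ℤ)) r) (s i) =
      -(M.det.sign) * ∑ r, s i r * (M.adjugate.mulVec fun _ => (1 : ℤ)) r := by
    unfold ip
    rw [Finset.mul_sum]
    exact Finset.sum_congr rfl fun r _ => by ring
  rw [h3, h2, neg_mul, Int.sign_mul_self_eq_abs, Int.natCast_natAbs]

/-- there is a positive m0 with -m0 K_X Cartier and 0, e_1, ..., e_n in m0 P -/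
theorem exists_index (F : FanoPolytope n) : ∃ m0 : ℕ, 1 ≤ m0 ∧ Car F m0 ∧
    ∀ r : Fin n, ∀ v ∈ F.V, -(m0 : ℤ) ≤ ip (Pi.single r 1) v := by
  classical
  have hch : ∀ s : Fin n → Fin n → ℤ, ∃ K : ℕ, 1 ≤ K ∧
      (s ∈ Ch F → ∃ w : Fin n → ℤ, ∀ i, ip w (s i) = -(K : ℤ)) := by
    intro s
    by_cases hs : s ∈ Ch F
    · obtain ⟨K, hK, w, hw⟩ := FIdx_chart s hs.2.1
      exact ⟨K, hK, fun _ => ⟨w, hw⟩⟩
    · exact ⟨1, le_refl _, fun h => absurd h hs⟩
  choose K hK1 hK using hch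
  set T := (Ch_finite F).toFinset with hT
  have hP1 : 1 ≤ ∏ s ∈ T, K s := Finset.one_le_prod' fun s _ => hK1 s
  have hP : Car F (∏ s ∈ T, K s) := by
    intro s hs
    obtain ⟨w, hw⟩ := hK s hs
    have hsT : s ∈ T := (Ch_finite F).mem_toFinset.2 hs
    refine ⟨fun r => w r * ((∏ s ∈ T.erase s, K s : ℕ) : ℤ), fun i => ?_⟩
    have h1 : ip (fun r => w r * ((∏ s ∈ T.erase s, K s : ℕ) : ℤ)) (s i) =
        ip w (s i) * ((∏ s ∈ T.erase s, K s : ℕ) : ℤ) := by
      unfold ip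
      rw [Finset.sum_mul]
      exact Finset.sum_congr rfl fun r _ => by ring
    rw [h1, hw i, ← Finset.mul_prod_erase T K hsT]
    push_cast
    ring
  set B : ℕ := 1 + ∑ v ∈ F.V, ∑ r, (v r).natAbs with hB
  refine ⟨(∏ s ∈ T, K s) * B, Nat.mul_pos hP1 (by omega), Car_mul F _ _ hP, ?_⟩
  intro r v hv
  have h1 : ip (Pi.single r 1) v = v r := by
    unfold ip
    rw [Finset.sum_eq_single r]
    · rw [Pi.single_eq_same, one_mul]
    · intro j _ hj
      rw [Pi.single_eq_of_ne hj, zero_mul]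
    · intro h
      exact absurd (Finset.mem_univ r) h
  rw [h1]
  have h2 : (v r).natAbs ≤ ∑ r, (v r).natAbs :=
    Finset.single_le_sum (f := fun r => (v r).natAbs) (fun _ _ => Nat.zero_le _)
      (Finset.mem_univ r)
  have h3 : ∑ r, (v r).natAbs ≤ ∑ v ∈ F.V, ∑ r, (v r).natAbs :=
    Finset.single_le_sum (f := fun v : Fin n → ℤ => ∑ r, (v r).natAbs)
      (fun _ _ => Nat.zero_le _) hv
  have h4 : B ≤ (∏ s ∈ T, K s) * B := Nat.le_mul_of_pos_left B hP1
  have h5 : (v r).natAbs ≤ (∏ s ∈ T, K s) * B := by omega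
  have h6 : (((v r).natAbs : ℕ) : ℤ) ≤ (((∏ s ∈ T, K s) * B : ℕ) : ℤ) := by exact_mod_cast h5
  have h7 : -(((v r).natAbs : ℕ) : ℤ) ≤ v r := by omega
  linarith

end GTor
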