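/- piece FB: bounds and counting -/
import Pool.Agent.Lib_MP_e0d435_ag_T.FIdx

open Finset MeasureTheory Complex
open scoped ENNReal ContDiff Real

namespace GTor
open GPn

variable {n : ℕ}

/-- sum of the absolute values of all coordinates of all rays -/
private def fbdS (F : FanoPolytope n) : ℕ := ∑ v ∈ F.V, ∑ r, (v r).natAbs

private theorem fbd_le (F : FanoPolytope n) {v : Fin n → ℤ} (hv : v ∈ F.V) :
    ∑ r, (v r).natAbs ≤ fbdS F :=
  Finset.single_le_sum (f := fun v : Fin n → ℤ => ∑ r, (v r).natAbs) (fun _ _ => Nat.zero_le _) hv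

private theorem fbd_ip (a v : Fin n → ℤ) (c : ℕ) (ha : ∀ r, |a r| ≤ c) :
    |ip a v| ≤ c * ((∑ r, (v r).natAbs : ℕ) : ℤ) := by
  unfold ip
  calc |∑ i, a i * v i| ≤ ∑ i, |a i * v i| := Finset.abs_sum_le_sum_abs _ _
    _ ≤ ∑ i, (c : ℤ) * ((v i).natAbs : ℤ) := by
        refine Finset.sum_le_sum fun i _ => ?_
        rw [abs_mul, Int.natCast_natAbs]
        exact mul_le_mul_of_nonneg_right (ha i) (abs_nonneg _)
    _ = _ := by rw [← Finset.mul_sum]; push_cast; rfl

/-- degree bound for the exponents -/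
theorem ex_bdd (F : FanoPolytope n) : ∃ C : ℕ, ∀ (k : ℕ) (s : Fin n → Fin n → ℤ), s ∈ Ch F →
    ∀ a : Sec F k, ∑ i, ex F k s a i ≤ C * k := by
  obtain ⟨c0, hc⟩ := Sec_bdd F
  refine ⟨n * (c0 * fbdS F + 1), fun k s hs a => ?_⟩
  have h1 : ∀ i, ex F k s a i ≤ (c0 * fbdS F + 1) * k := by
    intro i
    have h2 := fbd_ip a.1 (s i) (c0 * k) (fun r => by
      have := hc k a.1 a.2 r
      push_cast
      exact this)
    have h3 : (((∑ r, (s i r).natAbs : ℕ) : ℤ)) ≤ (fbdS F : ℤ) := by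
      exact_mod_cast fbd_le F (hs.1 i)
    have h4 : ip a.1 (s i) ≤ ((c0 * k : ℕ) : ℤ) * (fbdS F : ℤ) :=
      (le_abs_self _).trans (h2.trans (mul_le_mul_of_nonneg_left h3 (by positivity)))
    unfold ex
    rw [Int.toNat_le]
    push_cast at h4 ⊢
    nlinarith
  calc ∑ i, ex F k s a i ≤ ∑ _i : Fin n, (c0 * fbdS F + 1) * k := Finset.sum_le_sum fun i _ => h1 i
    _ = n * (c0 * fbdS F + 1) * k := by
        rw [Finset.sum_const, Finset.card_univ, Fintype.card_fin, smul_eq_mul, mul_assoc]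

/-- the vertex of kP belonging to the chart s has exponent zero -/
theorem ex_zero (F : FanoPolytope n) (k : ℕ) (hk : Car F k) (s : Fin n → Fin n → ℤ)
    (hs : s ∈ Ch F) : ∃ a : Sec F k, ex F k s a = 0 := by
  rcases Nat.eq_zero_or_pos k with h0 | h0
  · subst h0
    refine ⟨⟨0, by intro v _; simp [ip]⟩, ?_⟩
    funext i
    simp [ex, ip]
  · obtain ⟨w, hw⟩ := hk s hs
    have hk0 : (0 : ℝ) < k := by exact_mod_cast h0
    have h1 := hs.2.2 (fun r => (w r : ℝ) / k) (by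
      intro i
      have h2 := hw i
      unfold ip at h2
      have h3 : (∑ r, (w r : ℝ) * (s i r : ℝ)) = -(k : ℝ) := by exact_mod_cast h2
      have h4 : ∑ r, (w r : ℝ) / k * (s i r : ℝ) = (∑ r, (w r : ℝ) * (s i r : ℝ)) / k := by
        rw [Finset.sum_div]
        exact Finset.sum_congr rfl fun r _ => by ring
      rw [h4, h3, neg_div, div_self hk0.ne'])
    refine ⟨⟨w, fun v hv => ?_⟩, ?_⟩
    · have h2 := h1 v hv
      have h4 : ∑ r, (w r : ℝ) / k * (v r : ℝ) = (∑ r, (w r : ℝ) * (v r : ℝ)) / k := by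
        rw [Finset.sum_div]
        exact Finset.sum_congr rfl fun r _ => by ring
      rw [h4, le_div_iff₀ hk0] at h2
      have h5 : (-(k : ℝ)) ≤ ∑ r, (w r : ℝ) * (v r : ℝ) := by linarith
      unfold ip
      exact_mod_cast h5
    · funext i
      simp only [ex, Pi.zero_apply]
      rw [hw i]
      simp

theorem ex_cast (F : FanoPolytope n) (k : ℕ) (s : Fin n → Fin n → ℤ) (hs : s ∈ Ch F)
    (a : Sec F k) (i : Fin n) : (ex F k s a i : ℤ) = ip a.1 (s i) + k := by
  unfold ex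
  rw [Int.toNat_of_nonneg]
  have := a.2 (s i) (hs.1 i)
  linarith

theorem ex_injective (F : FanoPolytope n) (k : ℕ) (s : Fin n → Fin n → ℤ) (hs : s ∈ Ch F) :
    Function.Injective (ex F k s) := by
  intro a b hab
  have h1 : ∀ i, ip a.1 (s i) = ip b.1 (s i) := by
    intro i
    have h2 := ex_cast F k s hs a i
    have h3 := ex_cast F k s hs b i
    rw [hab] at h2
    linarith
  have h2 := wv_unique s hs.2.1 (fun r => wv s r + ((a.1 r : ℝ) - b.1 r)) (by
    intro i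
    have h3 := wv_spec s hs.2.1 i
    have h4 : (∑ r, (a.1 r : ℝ) * (s i r : ℝ)) = ∑ r, (b.1 r : ℝ) * (s i r : ℝ) := by
      have := h1 i
      unfold ip at this
      exact_mod_cast this
    have h5 : ∑ r, (wv s r + ((a.1 r : ℝ) - b.1 r)) * (s i r : ℝ) =
        ∑ r, wv s r * (s i r : ℝ) + (∑ r, (a.1 r : ℝ) * (s i r : ℝ) -
          ∑ r, (b.1 r : ℝ) * (s i r : ℝ)) := by
      rw [← Finset.sum_sub_distrib, ← Finset.sum_add_distrib]
      exact Finset.sum_congr rfl fun r _ => by ring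
    rw [h5, h3, h4]
    ring)
  apply Subtype.ext
  funext r
  have h3 := congrFun h2 r
  have h4 : (a.1 r : ℝ) = b.1 r := by linarith
  exact_mod_cast h4

theorem card_upper (F : FanoPolytope n) : ∃ C : ℕ, ∀ k : ℕ, 1 ≤ k →
    Fintype.card (Sec F k) ≤ C * k ^ n := by
  classical
  obtain ⟨c0, hc⟩ := Sec_bdd F
  refine ⟨(2 * c0 + 1) ^ n, fun k hk => ?_⟩
  have h1 : Fintype.card (Sec F k) ≤
      Fintype.card (Fin n → Set.Icc (-((c0 : ℤ) * k)) ((c0 : ℤ) * k)) := by
    refine Fintype.card_le_of_injective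
      (fun a : Sec F k => fun r => (⟨a.1 r, abs_le.1 (hc k a.1 a.2 r)⟩ :
        Set.Icc (-((c0 : ℤ) * k)) ((c0 : ℤ) * k))) ?_
    intro a b hab
    apply Subtype.ext
    funext r
    exact congrArg Subtype.val (congrFun hab r)
  refine h1.trans ?_
  rw [Fintype.card_fun, Fintype.card_fin]
  have h2 : Fintype.card (Set.Icc (-((c0 : ℤ) * k)) ((c0 : ℤ) * k)) = 2 * (c0 * k) + 1 := by
    rw [Fintype.card_ofFinset, Int.card_Icc]
    have : (c0 : ℤ) * k + 1 - -((c0 : ℤ) * k) = ((2 * (c0 * k) + 1 : ℕ) : ℤ) := by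
      push_cast; ring
    rw [this, Int.toNat_natCast]
  rw [h2, ← mul_pow]
  refine Nat.pow_le_pow_left ?_ n
  nlinarith

theorem card_lower (F : FanoPolytope n) : ∃ v1 : ℕ, 1 ≤ v1 ∧ ∀ k : ℕ,
    (2 * (k / v1) + 1) ^ n ≤ Fintype.card (Sec F k) := by
  classical
  refine ⟨fbdS F + 1, by omega, fun k => ?_⟩
  set q := k / (fbdS F + 1) with hq
  have hqk : q * (fbdS F + 1) ≤ k := Nat.div_mul_le_self _ _
  have h2 : Fintype.card (Set.Icc (-(q : ℤ)) (q : ℤ)) = 2 * q + 1 := by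
    rw [Fintype.card_ofFinset, Int.card_Icc]
    have : (q : ℤ) + 1 - -(q : ℤ) = ((2 * q + 1 : ℕ) : ℤ) := by
      push_cast; ring
    rw [this, Int.toNat_natCast]
  have h3 : Fintype.card (Fin n → Set.Icc (-(q : ℤ)) (q : ℤ)) ≤ Fintype.card (Sec F k) := by
    refine Fintype.card_le_of_injective
      (fun a : Fin n → Set.Icc (-(q : ℤ)) (q : ℤ) => (⟨fun r => (a r).1, ?_⟩ : Sec F k)) ?_
    · intro v hv
      have h4 := fbd_ip (fun r => (a r).1) v q (fun r => abs_le.2 ⟨(a r).2.1, (a r).2.2⟩)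
      have h5 : (((∑ r, (v r).natAbs : ℕ) : ℤ)) ≤ (fbdS F : ℤ) := by exact_mod_cast fbd_le F hv
      have h6 : (q : ℤ) * (((∑ r, (v r).natAbs : ℕ) : ℤ)) ≤ (q : ℤ) * (fbdS F : ℤ) :=
        mul_le_mul_of_nonneg_left h5 (by positivity)
      have h7 : (q : ℤ) * ((fbdS F : ℤ) + 1) ≤ k := by exact_mod_cast hqk
      have h8 := (abs_le.1 h4).1
      have h9 : (0 : ℤ) ≤ q := by positivity
      nlinarith
    · intro a b hab
      funext r
      apply Subtype.ext
      have := congrArg (fun x : Sec F k => x.1 r) hab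
      exact this
  rw [Fintype.card_fun, Fintype.card_fin, h2] at h3
  exact h3

instance (F : FanoPolytope n) (k : ℕ) : Nonempty (Sec F k) := ⟨⟨0, by intro v _; simp [ip]⟩⟩

/-- the choice of the constants -/
theorem consts (hn : 1 ≤ n) (F : FanoPolytope n) (m0 C : ℕ) (hm0 : 1 ≤ m0) (hC : 1 ≤ C) :
    ∃ M D E k1 : ℕ, 1 ≤ M ∧ 1 ≤ D ∧ 1 ≤ E ∧ ∀ k : ℕ, k1 ≤ k →
      let l' := m0 * (k / M)
      let l := C * l'
      let N := Fintype.card (Sec F k)
      1 ≤ l' ∧ 8 * l ≤ k ∧ n * n.factorial * (C * k) < (D + 1) * (l + 1) ∧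
        8 * (N / E) ≤ Fintype.card (Sec F l') ∧ 8 * (N / E) < N := by
  obtain ⟨C1, hC1⟩ := card_upper F
  obtain ⟨v1, hv1, hlow⟩ := card_lower F
  have hM : 1 ≤ 8 * C * m0 := Nat.mul_pos (Nat.mul_pos (by norm_num) hC) hm0
  have hfac : 1 ≤ n.factorial := Nat.factorial_pos n
  have hD : 1 ≤ 16 * (n * n.factorial * C) :=
    Nat.mul_pos (by norm_num) (Nat.mul_pos (Nat.mul_pos hn hfac) hC)
  refine ⟨8 * C * m0, 16 * (n * n.factorial * C), 8 * C1 * (16 * C * v1) ^ n + 9, 8 * C * m0,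
    hM, hD, by omega, fun k hk => ?_⟩
  intro l' l N
  have hkM : 1 ≤ k / (8 * C * m0) := (Nat.one_le_div_iff hM).2 hk
  have hl' : 1 ≤ l' := Nat.mul_pos hm0 hkM
  have hl8 : 8 * l = 8 * C * m0 * (k / (8 * C * m0)) := by
    change 8 * (C * (m0 * (k / (8 * C * m0)))) = _
    ring
  have h8 : 8 * l ≤ k := by
    rw [hl8]
    exact Nat.mul_div_le k _
  have hMl : 8 * C * m0 ≤ 8 * l := by
    rw [hl8]
    exact Nat.le_mul_of_pos_right _ hkM
  have hk16 : k < 16 * l := by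
    have h1 : k < 8 * C * m0 * (k / (8 * C * m0) + 1) := Nat.lt_mul_div_succ k hM
    rw [Nat.mul_add, ← hl8, mul_one] at h1
    omega
  have hk16' : k < 16 * C * l' := by
    have : 16 * l = 16 * C * l' := by
      change 16 * (C * l') = _
      ring
    omega
  refine ⟨hl', h8, ?_, ?_, ?_⟩
  · calc n * n.factorial * (C * k) = (n * n.factorial * C) * k := by ring
      _ ≤ (n * n.factorial * C) * (16 * l) := Nat.mul_le_mul_left _ hk16.le
      _ = 16 * (n * n.factorial * C) * l := by ring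
      _ < (16 * (n * n.factorial * C) + 1) * (l + 1) := by
        have : (16 * (n * n.factorial * C) + 1) * (l + 1) =
          16 * (n * n.factorial * C) * l + (16 * (n * n.factorial * C) + l + 1) := by ring
        rw [this]
        omega
  · have hk1 : 1 ≤ k := le_trans hM hk
    have hN : N ≤ C1 * k ^ n := hC1 k hk1
    have h1 := hlow l'
    have h2 : l' < v1 * (l' / v1 + 1) := Nat.lt_mul_div_succ l' hv1
    have h3 : k ≤ 16 * C * v1 * (2 * (l' / v1) + 1) := by
      calc k ≤ 16 * C * l' := hk16'.le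
        _ ≤ 16 * C * (v1 * (l' / v1 + 1)) := Nat.mul_le_mul_left _ h2.le
        _ ≤ 16 * C * (v1 * (2 * (l' / v1) + 1)) :=
          Nat.mul_le_mul_left _ (Nat.mul_le_mul_left _ (by omega))
        _ = _ := by ring
    have h4 : k ^ n ≤ (16 * C * v1) ^ n * Fintype.card (Sec F l') := by
      calc k ^ n ≤ (16 * C * v1 * (2 * (l' / v1) + 1)) ^ n := Nat.pow_le_pow_left h3 n
        _ = (16 * C * v1) ^ n * (2 * (l' / v1) + 1) ^ n := by rw [mul_pow]
        _ ≤ _ := Nat.mul_le_mul_left _ h1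
    set E := 8 * C1 * (16 * C * v1) ^ n + 9 with hE
    have hE0 : 0 < E := by omega
    have h5 : E * (8 * (N / E)) ≤ E * Fintype.card (Sec F l') := by
      calc E * (8 * (N / E)) = 8 * (E * (N / E)) := by ring
        _ ≤ 8 * N := Nat.mul_le_mul_left _ (Nat.mul_div_le N E)
        _ ≤ 8 * (C1 * k ^ n) := Nat.mul_le_mul_left _ hN
        _ ≤ 8 * (C1 * ((16 * C * v1) ^ n * Fintype.card (Sec F l'))) :=
          Nat.mul_le_mul_left _ (Nat.mul_le_mul_left _ h4)
        _ = (8 * C1 * (16 * C * v1) ^ n) * Fintype.card (Sec F l') := by ring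
        _ ≤ E * Fintype.card (Sec F l') := Nat.mul_le_mul_right _ (by omega)
    exact Nat.le_of_mul_le_mul_left h5 hE0
  · have hN0 : 0 < N := Fintype.card_pos
    set E := 8 * C1 * (16 * C * v1) ^ n + 9 with hE
    have h1 : E * (N / E) ≤ N := Nat.mul_div_le N E
    have h2 : 9 * (N / E) ≤ E * (N / E) := Nat.mul_le_mul_right _ (by omega)
    omega

end GTor
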