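/- piece FZ: the barycentres of the lattice points converge -/
import Pool.Agent.Lib_MP_e0d435_ag_T.FBd

open Finset MeasureTheory Complex
open scoped ENNReal ContDiff Real

namespace GTor
open GPn

variable {n : ℕ}

section FBar
open scoped Pointwise

private theorem fbar_lin (p : Fin n → ℝ) : IsLinearMap ℝ (fun x : Fin n → ℝ => ∑ r, p r * x r) :=
  ⟨fun x y => by simp [mul_add, sum_add_distrib], fun c x => by
    simp only [Pi.smul_apply, smul_eq_mul, mul_sum]
    exact sum_congr rfl fun i _ => by ring⟩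

private theorem fbar_hull (F : FanoPolytope n) (p : Fin n → ℝ) (hp : p ∈ Pol F) (x : Fin n → ℝ)
    (hx : x ∈ convexHull ℝ (toR '' {u | u ∈ F.V})) : -1 ≤ ∑ r, p r * x r := by
  have h1 : convexHull ℝ (toR '' {u | u ∈ F.V}) ⊆ {x : Fin n → ℝ | -1 ≤ ∑ r, p r * x r} := by
    apply convexHull_min
    · rintro _ ⟨v, hv, rfl⟩
      exact hp v hv
    · exact convex_halfSpace_ge (fbar_lin p) (-1)
  exact h1 hx

private theorem fbar_bdd (F : FanoPolytope n) : Bornology.IsBounded (Pol F) := by
  obtain ⟨ε, hε, hb⟩ := Metric.mem_nhds_iff.1 (mem_interior_iff_mem_nhds.1 F.zero_mem)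
  rw [Metric.isBounded_iff_subset_closedBall 0]
  refine ⟨2 / ε, ?_⟩
  intro p hp
  rw [mem_closedBall_zero_iff, pi_norm_le_iff_of_nonneg (by positivity)]
  intro r
  have key : ∀ c : ℝ, |c| ≤ ε / 2 → -1 ≤ p r * c := by
    intro c hc
    have h1 := fbar_hull F p hp (Pi.single r c) (hb (by
      rw [mem_ball_zero_iff, Pi.norm_single, Real.norm_eq_abs]
      linarith))
    rw [Finset.sum_eq_single r (fun i _ hi => by rw [Pi.single_eq_of_ne hi, mul_zero])
      (fun h => absurd (mem_univ r) h), Pi.single_eq_same] at h1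
    exact h1
  have h1 := key (ε / 2) (by rw [abs_of_pos (by positivity)])
  have h2 := key (-(ε / 2)) (by rw [abs_neg, abs_of_pos (by positivity)])
  rw [Real.norm_eq_abs, abs_le]
  constructor
  · rw [neg_le, le_div_iff₀ hε]
    linarith
  · rw [le_div_iff₀ hε]
    linarith

private theorem fbar_cont (v : Fin n → ℤ) : Continuous fun p : Fin n → ℝ => ∑ r, p r * (v r : ℝ) := by
  fun_prop

private theorem fbar_closed (F : FanoPolytope n) : IsClosed (Pol F) := by
  have h1 : Pol F = ⋂ v ∈ F.V, {p : Fin n → ℝ | -1 ≤ ∑ r, p r * (v r : ℝ)} := by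
    ext p
    simp [Pol]
  rw [h1]
  exact isClosed_biInter fun v _ => isClosed_le continuous_const (fbar_cont v)

private theorem fbar_compact (F : FanoPolytope n) : IsCompact (Pol F) :=
  Metric.isCompact_of_isClosed_isBounded (fbar_closed F) (fbar_bdd F)

private theorem fbar_convex (F : FanoPolytope n) : Convex ℝ (Pol F) := by
  have h1 : Pol F = ⋂ v ∈ F.V, {p : Fin n → ℝ | -1 ≤ ∑ r, p r * (v r : ℝ)} := by
    ext p
    simp [Pol]
  rw [h1]
  refine convex_iInter fun v => convex_iInter fun _ => ?_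
  have h2 := convex_halfSpace_ge (fbar_lin (fun r => (v r : ℝ))) (-1)
  simpa only [mul_comm] using h2

/-- an open set in the polytope -/
private def fbarU (F : FanoPolytope n) : Set (Fin n → ℝ) :=
  {p | ∀ v ∈ F.V, -1 < ∑ r, p r * (v r : ℝ)}

private theorem fbarU_pos (F : FanoPolytope n) : 0 < volume (fbarU F) := by
  have h1 : fbarU F = ⋂ v ∈ F.V, {p : Fin n → ℝ | -1 < ∑ r, p r * (v r : ℝ)} := by
    ext p
    simp [fbarU]
  have h2 : IsOpen (fbarU F) := by
    rw [h1]
    exact isOpen_biInter_finset fun v _ => isOpen_lt continuous_const (fbar_cont v)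
  refine h2.measure_pos volume ⟨0, ?_⟩
  intro v _
  simp

private theorem fbarU_sub (F : FanoPolytope n) : fbarU F ⊆ Pol F := fun _ hp v hv => (hp v hv).le

end FBar

theorem vol_Pol (F : FanoPolytope n) : 0 < (volume (Pol F)).toReal := by
  refine ENNReal.toReal_pos ?_ (fbar_compact F).measure_lt_top.ne
  exact ((fbarU_pos F).trans_le (measure_mono (fbarU_sub F))).ne'

section FBar
open scoped Pointwise

private theorem fbar_tsum (F : FanoPolytope n) (k : ℕ) (hk : 1 ≤ k) (G : (Fin n → ℝ) → ℝ) :
    ∑' x : ↑(Pol F ∩ (k : ℝ)⁻¹ • Submodule.span ℤ (Set.range (Pi.basisFun ℝ (Fin n)))), G x = ∑ a : Sec F k, G (fun r => (a.1 r : ℝ) / k) := by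
  have : NeZero k := ⟨by omega⟩
  have hk0 : (0 : ℝ) < k := by exact_mod_cast hk
  have hmem : ∀ a : Sec F k, (fun r => (a.1 r : ℝ) / k) ∈ (Pol F ∩
      (k : ℝ)⁻¹ • Submodule.span ℤ (Set.range (Pi.basisFun ℝ (Fin n))) : Set (Fin n → ℝ)) := by
    intro a
    refine ⟨?_, ?_⟩
    · intro v hv
      have h1 : (-(k : ℝ)) ≤ ∑ r, (a.1 r : ℝ) * v r := by
        have := a.2 v hv
        unfold ip at this
        exact_mod_cast this
      have h2 : ∑ r, (a.1 r : ℝ) / k * (v r : ℝ) = (∑ r, (a.1 r : ℝ) * v r) / k := by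
        rw [sum_div]
        exact sum_congr rfl fun i _ => by ring
      rw [h2, le_div_iff₀ hk0]
      linarith
    · refine BoxIntegral.unitPartition.mem_smul_span_iff.2 fun i => ⟨a.1 i, ?_⟩
      simp only [algebraMap_int_eq, eq_intCast]
      field_simp
  have hbij : Function.Bijective (fun a : Sec F k =>
      (⟨fun r => (a.1 r : ℝ) / k, hmem a⟩ : ↑(Pol F ∩
      (k : ℝ)⁻¹ • Submodule.span ℤ (Set.range (Pi.basisFun ℝ (Fin n))) : Set (Fin n → ℝ)))) := by
    constructor
    · intro a b hab
      apply Subtype.ext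
      funext r
      have h1 := congrFun (congrArg Subtype.val hab) r
      simp only at h1
      rw [div_left_inj' hk0.ne'] at h1
      exact_mod_cast h1
    · rintro ⟨x, hx1, hx2⟩
      have h1 := BoxIntegral.unitPartition.mem_smul_span_iff.1 hx2
      choose m hm using h1
      simp only [algebraMap_int_eq, eq_intCast] at hm
      refine ⟨⟨m, ?_⟩, ?_⟩
      · intro v hv
        have h2 := hx1 v hv
        have h3 : ((ip m v : ℤ) : ℝ) = k * ∑ r, x r * (v r : ℝ) := by
          unfold ip
          push_cast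
          rw [mul_sum]
          exact sum_congr rfl fun i _ => by rw [hm i]; ring
        have h4 : (-(k : ℝ)) ≤ ((ip m v : ℤ) : ℝ) := by
          rw [h3]
          nlinarith
        exact_mod_cast h4
      · apply Subtype.ext
        funext r
        simp only
        rw [hm r]
        field_simp
  rw [← (Equiv.ofBijective _ hbij).tsum_eq]
  rw [tsum_fintype]
  rfl

private theorem fbar_frontier (F : FanoPolytope n) : volume (frontier (Pol F)) = 0 :=
  (fbar_convex F).addHaar_frontier volume

end FBar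

theorem bk_tendsto (F : FanoPolytope n) (r : Fin n) :
    Filter.Tendsto (fun k : ℕ => bk F k r) Filter.atTop (nhds (bary F r)) := by
  have h1 := tendsto_tsum_div_pow_atTop_integral (Pol F) (fun p => p r) (continuous_apply r)
    (fbar_bdd F) (fbar_closed F).measurableSet (fbar_frontier F)
  have h2 := tendsto_tsum_div_pow_atTop_integral (Pol F) (fun _ => 1) continuous_const
    (fbar_bdd F) (fbar_closed F).measurableSet (fbar_frontier F)
  have h3 : (∫ _ in Pol F, (1 : ℝ)) = (volume (Pol F)).toReal := by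
    rw [setIntegral_const, smul_eq_mul, mul_one, measureReal_def]
  rw [h3] at h2
  have h4 := h1.div h2 (vol_Pol F).ne'
  refine h4.congr' ?_
  filter_upwards [Filter.eventually_ge_atTop 1] with k hk
  have hk0 : (0 : ℝ) < k := by exact_mod_cast hk
  have hc : (0 : ℝ) < Fintype.card (Sec F k) := by exact_mod_cast Fintype.card_pos
  simp only [Pi.div_apply]
  rw [fbar_tsum F k hk (fun p => p r), fbar_tsum F k hk (fun _ => 1)]
  unfold bk
  rw [← sum_div, sum_const, card_univ, nsmul_eq_mul, mul_one]
  field_simp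

/-- the barycentre lies in the interior: 1 + <b, v> > 0 -/
theorem bary_pos (F : FanoPolytope n) (v : Fin n → ℤ) (hv : v ∈ F.V) :
    0 < 1 + ∑ r, bary F r * (v r : ℝ) := by
  have hV := vol_Pol F
  have hint : ∀ r, IntegrableOn (fun p : Fin n → ℝ => p r * (v r : ℝ)) (Pol F) := fun r =>
    ContinuousOn.integrableOn_compact (fbar_compact F) (by fun_prop)
  have h0 : ∑ r, bary F r * (v r : ℝ) =
      (∫ p in Pol F, ∑ r, p r * (v r : ℝ)) / (volume (Pol F)).toReal := by
    rw [integral_finsetSum _ fun r _ => hint r, sum_div]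
    refine sum_congr rfl fun r _ => ?_
    unfold bary
    rw [integral_mul_const]
    ring
  have h1 : 1 + ∑ r, bary F r * (v r : ℝ) =
      (∫ p in Pol F, (1 + ∑ r, p r * (v r : ℝ))) / (volume (Pol F)).toReal := by
    rw [integral_add (ContinuousOn.integrableOn_compact (fbar_compact F) (by fun_prop))
      (ContinuousOn.integrableOn_compact (fbar_compact F) (by fun_prop)), h0,
      setIntegral_const, smul_eq_mul, mul_one, measureReal_def, add_div, div_self hV.ne']
  rw [h1]
  apply div_pos _ hV
  rw [setIntegral_pos_iff_support_of_nonneg_ae]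
  · refine (fbarU_pos F).trans_le (measure_mono ?_)
    intro p hp
    refine ⟨?_, fbarU_sub F hp⟩
    rw [Function.mem_support]
    have := hp v hv
    linarith
  · rw [Filter.EventuallyLE, ae_restrict_iff' (fbar_closed F).measurableSet]
    refine Filter.Eventually.of_forall fun p hp => ?_
    have := hp v hv
    simp only [Pi.zero_apply]
    linarith
  · exact ContinuousOn.integrableOn_compact (fbar_compact F) (by fun_prop)

theorem bk_pos (F : FanoPolytope n) (k : ℕ) (hk : 1 ≤ k) (v : Fin n → ℤ) (hv : v ∈ F.V) :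
    0 < 1 + ∑ r, bk F k r * (v r : ℝ) := by
  have hk0 : (0 : ℝ) < k := by exact_mod_cast hk
  have hc : (0 : ℝ) < Fintype.card (Sec F k) := by exact_mod_cast Fintype.card_pos
  have h1 : ∑ r, bk F k r * (v r : ℝ) =
      (∑ a : Sec F k, ((ip a.1 v : ℤ) : ℝ)) / (k * Fintype.card (Sec F k)) := by
    unfold bk ip
    push_cast
    rw [sum_comm, sum_div]
    refine sum_congr rfl fun r _ => ?_
    rw [← sum_mul]
    ring
  have h2 : 1 + ∑ r, bk F k r * (v r : ℝ) =
      (∑ a : Sec F k, ((k : ℝ) + ((ip a.1 v : ℤ) : ℝ))) / (k * Fintype.card (Sec F k)) := by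
    rw [h1, sum_add_distrib, sum_const, card_univ, nsmul_eq_mul]
    field_simp
  rw [h2]
  apply div_pos _ (by positivity)
  refine sum_pos' (fun a _ => ?_) ⟨⟨0, by intro v _; simp [ip]⟩, mem_univ _, ?_⟩
  · have := a.2 v hv
    have h3 : (-(k : ℝ)) ≤ ((ip a.1 v : ℤ) : ℝ) := by exact_mod_cast this
    linarith
  · simp only [ip, Pi.zero_apply, zero_mul, sum_const_zero, Int.cast_zero, add_zero]
    exact hk0

end GTor
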