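/- piece FT: the data of the local estimate for a type -/
import Pool.Agent.Lib_MP_e0d435_ag_T.FBd
import Pool.Agent.Lib_MP_e0d435_ag_T.ADefs

open Finset MeasureTheory Complex
open scoped ENNReal ContDiff Real

namespace GTor
open GPn

variable {n : ℕ}

/-- exponents of the family of a point of type ty: none = torus coordinates, some s = chart s -/
def exTy (F : FanoPolytope n) (k c0 : ℕ) (ty : Option (Fin n → Fin n → ℤ)) (a : Sec F k)
    (i : Fin n) : ℕ :=
  match ty with
  | none => (a.1 i + (k * c0 : ℕ)).toNat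
  | some s => ex F k s a i

/-- homogenisation of an exponent -/
noncomputable def toEx {n : ℕ} (K : ℕ) (e : Fin n → ℕ) : Ex (n + 1) K :=
  if h : ∑ i, e i ≤ K then ⟨Fin.cons (K - ∑ i, e i) e, by
    rw [Fin.sum_univ_succ]; simp only [Fin.cons_zero, Fin.cons_succ]; omega⟩
  else ⟨Pi.single 0 K, by simp⟩

/-- region of the homogeneous coordinates of a point of type ty -/
def YTy {n : ℕ} (L : ℝ) (ty : Option (Fin n → Fin n → ℤ)) : Set (Pt (n + 1)) :=
  {X | X ∈ Ann (n + 1) ∧ match ty with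
    | none => ∀ i : Fin n, Real.exp (-L) * ‖X 0‖ ≤ ‖X i.succ‖ ∧ ‖X i.succ‖ ≤ Real.exp L * ‖X 0‖
    | some _ => ∀ i : Fin n, ‖X i.succ‖ ≤ ‖X 0‖}

private theorem FTy_toEx_val {n : ℕ} (K : ℕ) (e : Fin n → ℕ) (h : ∑ i, e i ≤ K) :
    (toEx K e).1 = Fin.cons (K - ∑ i, e i) e := by
  unfold toEx
  rw [dif_pos h]

private theorem FTy_toEx_zero {n : ℕ} (K : ℕ) (e : Fin n → ℕ) (h : ∑ i, e i ≤ K) :
    (toEx K e).1 0 = K - ∑ i, e i := by
  rw [FTy_toEx_val K e h]; rfl

private theorem FTy_toEx_succ {n : ℕ} (K : ℕ) (e : Fin n → ℕ) (h : ∑ i, e i ≤ K) (i : Fin n) :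
    (toEx K e).1 i.succ = e i := by
  rw [FTy_toEx_val K e h]; rfl

private theorem FTy_sum_none (F : FanoPolytope n) (c0 C : ℕ)
    (hc0 : ∀ (k : ℕ) (a : Sec F k), ∀ r, |a.1 r| ≤ c0 * k) (hC0 : 2 * n * c0 ≤ C) (k : ℕ)
    (a : Sec F k) : ∑ i, exTy F k c0 none a i ≤ C * k := by
  have h1 : ∀ i ∈ (Finset.univ : Finset (Fin n)), exTy F k c0 none a i ≤ 2 * c0 * k := by
    intro i _
    have h := abs_le.1 (hc0 k a i)
    unfold exTy
    simp only
    rw [Int.toNat_le]
    push_cast
    nlinarith [h.2]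
  have h2 := Finset.sum_le_sum h1
  rw [Finset.sum_const, Finset.card_univ, Fintype.card_fin, smul_eq_mul] at h2
  calc _ ≤ n * (2 * c0 * k) := h2
    _ = 2 * n * c0 * k := by ring
    _ ≤ C * k := Nat.mul_le_mul_right k hC0

private theorem FTy_sum (F : FanoPolytope n) (c0 C : ℕ)
    (hc0 : ∀ (k : ℕ) (a : Sec F k), ∀ r, |a.1 r| ≤ c0 * k) (hC0 : 2 * n * c0 ≤ C)
    (hC : ∀ (k : ℕ) (s : Fin n → Fin n → ℤ), s ∈ Ch F → ∀ a : Sec F k, ∑ i, ex F k s a i ≤ C * k)
    (k : ℕ) (ty : Option (Fin n → Fin n → ℤ)) (hty : ∀ s, ty = some s → s ∈ Ch F)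
    (a : Sec F k) : ∑ i, exTy F k c0 ty a i ≤ C * k := by
  cases ty with
  | none => exact FTy_sum_none F c0 C hc0 hC0 k a
  | some s => exact hC k s (hty s rfl) a

private theorem FTy_inj (F : FanoPolytope n) (c0 : ℕ)
    (hc0 : ∀ (k : ℕ) (a : Sec F k), ∀ r, |a.1 r| ≤ c0 * k)
    (k : ℕ) (ty : Option (Fin n → Fin n → ℤ)) (hty : ∀ s, ty = some s → s ∈ Ch F) :
    Function.Injective (exTy F k c0 ty) := by
  cases ty with
  | none =>
    intro a b hab
    apply Subtype.ext
    funext i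
    have h := congrFun hab i
    have ha := abs_le.1 (hc0 k a i)
    have hb := abs_le.1 (hc0 k b i)
    unfold exTy at h
    simp only at h
    have hc : ((k * c0 : ℕ) : ℤ) = c0 * k := by push_cast; ring
    rw [hc] at h
    omega
  | some s =>
    exact ex_injective F k s (hty s rfl)

private theorem FTy_zero_ne {L : ℝ} {ty : Option (Fin n → Fin n → ℤ)} {X : Pt (n + 1)}
    (hX : X ∈ YTy L ty) : X 0 ≠ 0 := by
  intro h0
  have hn : ∀ i : Fin n, X i.succ = 0 := by
    intro i
    cases ty with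
    | none =>
      have h := (hX.2 i).2
      rw [h0, norm_zero, mul_zero] at h
      exact norm_le_zero_iff.1 h
    | some s =>
      have h := hX.2 i
      rw [h0, norm_zero] at h
      exact norm_le_zero_iff.1 h
  have h1 := hX.1.1
  unfold nsq at h1
  rw [Fin.sum_univ_succ] at h1
  simp only [h0, hn, norm_zero] at h1
  norm_num at h1

private theorem FTy_succ_ne {L : ℝ} {X : Pt (n + 1)}
    (hX : X ∈ YTy L (none : Option (Fin n → Fin n → ℤ))) (i : Fin n) : X i.succ ≠ 0 := by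
  have h0 := FTy_zero_ne hX
  have h := (hX.2 i).1
  intro h1
  rw [h1, norm_zero] at h
  have h2 : 0 < Real.exp (-L) * ‖X 0‖ := mul_pos (Real.exp_pos _) (norm_pos_iff.2 h0)
  linarith

private theorem FTy_cpt (L : ℝ) (ty : Option (Fin n → Fin n → ℤ)) : IsCompact (YTy L ty) := by
  have hnsq : Continuous (nsq : Pt (n + 1) → ℝ) := by
    unfold nsq
    fun_prop
  have hcl : IsClosed (YTy L ty) := by
    have hA : IsClosed (Ann (n + 1)) := by
      have : Ann (n + 1) = {x | 1 ≤ nsq x} ∩ {x | nsq x ≤ 4} := rfl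
      rw [this]
      exact (isClosed_le continuous_const hnsq).inter (isClosed_le hnsq continuous_const)
    cases ty with
    | none =>
      have : YTy L (none : Option (Fin n → Fin n → ℤ)) = Ann (n + 1) ∩ ⋂ i : Fin n,
          ({X : Pt (n + 1) | Real.exp (-L) * ‖X 0‖ ≤ ‖X i.succ‖} ∩
            {X : Pt (n + 1) | ‖X i.succ‖ ≤ Real.exp L * ‖X 0‖}) := by
        ext X
        simp only [YTy, Set.mem_ofPred_eq, Set.mem_inter_iff, Set.mem_iInter]
      rw [this]
      refine hA.inter (isClosed_iInter fun i => IsClosed.inter ?_ ?_)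
      · exact isClosed_le (by fun_prop) (by fun_prop)
      · exact isClosed_le (by fun_prop) (by fun_prop)
    | some s =>
      have : YTy L (some s) = Ann (n + 1) ∩ ⋂ i : Fin n,
          {X : Pt (n + 1) | ‖X i.succ‖ ≤ ‖X 0‖} := by
        ext X
        simp only [YTy, Set.mem_ofPred_eq, Set.mem_inter_iff, Set.mem_iInter]
      rw [this]
      exact hA.inter (isClosed_iInter fun i => isClosed_le (by fun_prop) (by fun_prop))
  refine Metric.isCompact_of_isClosed_isBounded hcl ?_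
  rw [isBounded_iff_forall_norm_le]
  refine ⟨2, fun X hX => ?_⟩
  rw [pi_norm_le_iff_of_nonneg (by norm_num)]
  intro i
  have h := hX.1.2
  have h1 : ‖X i‖ ^ 2 ≤ nsq X := by
    unfold nsq
    exact Finset.single_le_sum (f := fun i => ‖X i‖ ^ 2) (fun j _ => by positivity)
      (Finset.mem_univ i)
  have h2 : ‖X i‖ ^ 2 ≤ 2 ^ 2 := by linarith
  exact (pow_le_pow_iff_left₀ (norm_nonneg _) (by norm_num) (by norm_num)).1 h2

private theorem FTy_nu_none (C k l' c0 : ℕ) (hC0 : 2 * n * c0 ≤ C) :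
    ∑ i, (Fin.cons (C * (k - l') - n * ((k - l') * c0)) (fun _ => (k - l') * c0) :
      Fin (n + 1) → ℕ) i = C * k - C * l' := by
  rw [Fin.sum_univ_succ]
  simp only [Fin.cons_zero, Fin.cons_succ, Finset.sum_const, Finset.card_univ, Fintype.card_fin,
    smul_eq_mul]
  have h1 : n * ((k - l') * c0) ≤ C * (k - l') := by
    calc n * ((k - l') * c0) = (n * c0) * (k - l') := by ring
      _ ≤ C * (k - l') := Nat.mul_le_mul_right _ (by nlinarith)
  rw [Nat.sub_add_cancel h1, Nat.mul_sub]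

private theorem FTy_nu_some (C k l' : ℕ) :
    ∑ i, (Fin.cons (C * (k - l')) (fun _ => 0) : Fin (n + 1) → ℕ) i = C * k - C * l' := by
  rw [Fin.sum_univ_succ]
  simp only [Fin.cons_zero, Fin.cons_succ, Finset.sum_const_zero, add_zero]
  rw [Nat.mul_sub]

/-- the common factor -/
private noncomputable def FTy_nu (C k l' c0 : ℕ) (hC0 : 2 * n * c0 ≤ C)
    (ty : Option (Fin n → Fin n → ℤ)) : Ex (n + 1) (C * k - C * l') :=
  match ty with
  | none => ⟨Fin.cons (C * (k - l') - n * ((k - l') * c0)) (fun _ => (k - l') * c0),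
      FTy_nu_none C k l' c0 hC0⟩
  | some _ => ⟨Fin.cons (C * (k - l')) (fun _ => 0), FTy_nu_some C k l'⟩

private theorem FTy_cnt_none (F : FanoPolytope n)
    (c0 C : ℕ) (hc0 : ∀ (k : ℕ) (a : Sec F k), ∀ r, |a.1 r| ≤ c0 * k)
    (hC0 : 2 * n * c0 ≤ C) (k l' : ℕ) (hlk : l' ≤ k) :
    Fintype.card (Sec F l') ≤ Nat.card {a : Sec F k //
      ∀ i, (FTy_nu (n := n) C k l' c0 hC0 none).1 i ≤
        (toEx (C * k) (exTy F k c0 none a)).1 i} := by
  rw [← Nat.card_eq_fintype_card]
  let f : Sec F l' → Sec F k := fun a => ⟨a.1, fun v hv => by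
    have := a.2 v hv
    have h2 : (l' : ℤ) ≤ k := by exact_mod_cast hlk
    linarith⟩
  have hf : ∀ a : Sec F l', ∀ i, (FTy_nu (n := n) C k l' c0 hC0 none).1 i ≤
        (toEx (C * k) (exTy F k c0 none (f a))).1 i := by
    intro a i
    have hs := FTy_sum_none F c0 C hc0 hC0 k (f a)
    have hb : ∀ j, (exTy F k c0 none (f a) j : ℤ) = a.1 j + k * c0 := by
      intro j
      have h := abs_le.1 (hc0 l' a j)
      have h2 : (c0 : ℤ) * l' ≤ c0 * k := by
        have : (l' : ℤ) ≤ k := by exact_mod_cast hlk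
        nlinarith [Int.natCast_nonneg c0]
      unfold exTy
      simp only
      rw [Int.toNat_of_nonneg]
      · push_cast; rfl
      · push_cast; change 0 ≤ a.1 j + k * c0; nlinarith [h.1]
    refine Fin.cases ?_ (fun j => ?_) i
    · rw [FTy_toEx_zero _ _ hs]
      change C * (k - l') - n * ((k - l') * c0) ≤ _
      have hS : (∑ j, exTy F k c0 none (f a) j : ℤ) ≤ n * (c0 * l') + n * (k * c0) := by
        calc (∑ j, exTy F k c0 none (f a) j : ℤ) = ∑ j, (a.1 j + k * c0) :=
              Finset.sum_congr rfl fun j _ => hb j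
          _ ≤ ∑ j : Fin n, ((c0 : ℤ) * l' + k * c0) := by
              refine Finset.sum_le_sum fun j _ => ?_
              have h := abs_le.1 (hc0 l' a j)
              linarith [h.2]
          _ = n * (c0 * l') + n * (k * c0) := by
              rw [Finset.sum_const, Finset.card_univ, Fintype.card_fin, nsmul_eq_mul]
              ring
      have hS' : ∑ j, exTy F k c0 none (f a) j ≤ n * (c0 * l') + n * (k * c0) := by
        exact_mod_cast hS
      have h3 : 2 * n * c0 * l' ≤ C * l' := Nat.mul_le_mul_right l' hC0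
      obtain ⟨d, rfl⟩ := Nat.exists_eq_add_of_le hlk
      have h4 : l' + d - l' = d := by omega
      rw [h4]
      have h5 : n * (d * c0) + n * (c0 * l') = n * ((l' + d) * c0) := by ring
      have h6 : n * (c0 * l') + n * (c0 * l') = 2 * n * c0 * l' := by ring
      have h7 : C * (l' + d) = C * l' + C * d := by ring
      rw [h7] at hs ⊢
      omega
    · rw [FTy_toEx_succ _ _ hs]
      change (k - l') * c0 ≤ _
      have h := abs_le.1 (hc0 l' a j)
      have h2 := hb j
      zify [hlk]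
      rw [h2]
      nlinarith [h.1]
  refine Nat.card_le_card_of_injective (fun a => ⟨f a, hf a⟩) ?_
  intro a b hab
  have h1 := congrArg (fun x => x.1.1) hab
  exact Subtype.ext h1

private theorem FTy_ip_add (w g v : Fin n → ℤ) : ip (w + g) v = ip w v + ip g v := by
  unfold ip
  rw [← Finset.sum_add_distrib]
  exact Finset.sum_congr rfl fun i _ => by simp only [Pi.add_apply]; ring

private theorem FTy_vertex (F : FanoPolytope n) (q : ℕ) (hq : Car F q)
    (s : Fin n → Fin n → ℤ) (hs : s ∈ Ch F) :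
    ∃ w : Fin n → ℤ, (∀ i, ip w (s i) = -(q : ℤ)) ∧ ∀ v ∈ F.V, -(q : ℤ) ≤ ip w v := by
  rcases Nat.eq_zero_or_pos q with h0 | h0
  · subst h0
    exact ⟨0, fun i => by simp [ip], fun v _ => by simp [ip]⟩
  · obtain ⟨w, hw⟩ := hq s hs
    refine ⟨w, hw, fun v hv => ?_⟩
    have hq0 : (0 : ℝ) < q := by exact_mod_cast h0
    have h1 := hs.2.2 (fun r => (w r : ℝ) / q) (fun i => by
      have h := hw i
      unfold ip at h
      have h' : (∑ r, (w r : ℝ) * (s i r : ℝ)) = -(q : ℝ) := by exact_mod_cast h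
      calc ∑ r, (w r : ℝ) / q * (s i r : ℝ) = (∑ r, (w r : ℝ) * (s i r : ℝ)) / q := by
            rw [Finset.sum_div]; exact Finset.sum_congr rfl fun r _ => by ring
        _ = -1 := by rw [h']; field_simp) v hv
    have h2 : ∑ r, (w r : ℝ) / q * (v r : ℝ) = (∑ r, (w r : ℝ) * (v r : ℝ)) / q := by
      rw [Finset.sum_div]; exact Finset.sum_congr rfl fun r _ => by ring
    rw [h2, le_div_iff₀ hq0] at h1
    have h3 : -(q : ℝ) ≤ ∑ r, (w r : ℝ) * (v r : ℝ) := by linarith
    unfold ip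
    exact_mod_cast h3

private theorem FTy_cnt_some (F : FanoPolytope n)
    (c0 C : ℕ) (hC0 : 2 * n * c0 ≤ C)
    (hC : ∀ (k : ℕ) (s : Fin n → Fin n → ℤ), s ∈ Ch F → ∀ a : Sec F k, ∑ i, ex F k s a i ≤ C * k)
    (k l' : ℕ) (hlk : l' ≤ k) (hkl : Car F (k - l'))
    (s : Fin n → Fin n → ℤ) (hs : s ∈ Ch F) :
    Fintype.card (Sec F l') ≤ Nat.card {a : Sec F k //
      ∀ i, (FTy_nu (n := n) C k l' c0 hC0 (some s)).1 i ≤
        (toEx (C * k) (exTy F k c0 (some s) a)).1 i} := by
  rw [← Nat.card_eq_fintype_card]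
  obtain ⟨w, hw, hv⟩ := FTy_vertex F (k - l') hkl s hs
  have hc : ((k - l' : ℕ) : ℤ) = k - l' := by push_cast [hlk]; ring
  let f : Sec F l' → Sec F k := fun a => ⟨w + a.1, fun v hv' => by
    have h1 := a.2 v hv'
    have h2 := hv v hv'
    rw [FTy_ip_add]
    rw [hc] at h2
    linarith⟩
  have hf : ∀ a : Sec F l', ∀ i, (FTy_nu (n := n) C k l' c0 hC0 (some s)).1 i ≤
        (toEx (C * k) (exTy F k c0 (some s) (f a))).1 i := by
    intro a i
    have hs1 : ∑ i, exTy F k c0 (some s) (f a) i ≤ C * k := hC k s hs (f a)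
    have he : ∀ j, exTy F k c0 (some s) (f a) j = ex F l' s a j := by
      intro j
      change ex F k s (f a) j = _
      unfold ex
      congr 1
      change ip (w + a.1) (s j) + k = _
      rw [FTy_ip_add, hw j, hc]
      ring
    refine Fin.cases ?_ (fun j => ?_) i
    · rw [FTy_toEx_zero _ _ hs1]
      change C * (k - l') ≤ _
      have h1 : ∑ i, exTy F k c0 (some s) (f a) i ≤ C * l' := by
        rw [Finset.sum_congr rfl fun j _ => he j]
        exact hC l' s hs a
      rw [Nat.mul_sub]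
      omega
    · change 0 ≤ _
      exact Nat.zero_le _
  refine Nat.card_le_card_of_injective (fun a => ⟨f a, hf a⟩) ?_
  intro a b hab
  have h1 := congrArg (fun x => x.1.1) hab
  change w + a.1 = w + b.1 at h1
  exact Subtype.ext (add_left_cancel h1)

/-- the data of the local estimate -/
theorem exists_LocData (F : FanoPolytope n) (m0 : ℕ) (hm0 : 1 ≤ m0) (hcar : Car F m0)
    (c0 C : ℕ) (hc0 : ∀ (k : ℕ) (a : Sec F k), ∀ r, |a.1 r| ≤ c0 * k)
    (hC0 : 2 * n * c0 ≤ C)
    (hC : ∀ (k : ℕ) (s : Fin n → Fin n → ℤ), s ∈ Ch F → ∀ a : Sec F k, ∑ i, ex F k s a i ≤ C * k)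
    (k l' R e : ℕ) (hk : Car F k) (hl' : Car F l') (hl1 : 1 ≤ l') (hlk : l' ≤ k) (hCl : 1 ≤ C)
    (hR : R ≤ Fintype.card (Sec F l')) (hRN : R < Fintype.card (Sec F k)) (he : 4 * e ≤ R)
    (L : ℝ) (ty : Sec F k → Option (Fin n → Fin n → ℤ)) (hty : ∀ j s, ty j = some s → s ∈ Ch F) :
    ∃ D : LocData (Sec F k) (n + 1) (C * k) (C * l') R e,
      D.ph = (fun j a => toEx (C * k) (exTy F k c0 (ty j) a)) ∧ D.Y = fun j => YTy L (ty j) := by
  have hkl := Car_sub F k l' hlk hk hl'
  refine ⟨{ ph := fun j a => toEx (C * k) (exTy F k c0 (ty j) a)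
            inj := ?_
            Y := fun j => YTy L (ty j)
            cpt := fun j => FTy_cpt L (ty j)
            ann := fun j y hy => hy.1
            nu := fun j => FTy_nu C k l' c0 hC0 (ty j)
            nz := ?_
            hl := ?_
            hlK := Nat.mul_le_mul_left C hlk
            cnt := ?_
            hRN := hRN
            he := he }, rfl, rfl⟩
  · intro j a b hab
    have ha := FTy_sum F c0 C hc0 hC0 hC k (ty j) (hty j) a
    have hb := FTy_sum F c0 C hc0 hC0 hC k (ty j) (hty j) b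
    apply FTy_inj F c0 hc0 k (ty j) (hty j)
    funext i
    simp only at hab
    rw [← FTy_toEx_succ _ _ ha i, ← FTy_toEx_succ _ _ hb i, hab]
  · intro j y hy
    rw [Finset.prod_ne_zero_iff]
    intro i _
    have h0 := FTy_zero_ne hy
    have hy' : y ∈ YTy L (ty j) := hy
    rcases hj : ty j with _ | s
    · rw [hj] at hy'
      refine pow_ne_zero _ ?_
      refine Fin.cases h0 (fun r => FTy_succ_ne hy' r) i
    · refine Fin.cases (pow_ne_zero _ h0) (fun r => ?_) i
      change y r.succ ^ 0 ≠ 0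
      rw [pow_zero]
      exact one_ne_zero
  · exact Nat.mul_pos hCl hl1
  · intro j
    refine le_trans hR ?_
    rcases hj : ty j with _ | s
    · exact FTy_cnt_none F c0 C hc0 hC0 k l' hlk
    · exact FTy_cnt_some F c0 C hC0 hC k l' hlk hkl s (hty j s hj)

theorem dm_toEx (K : ℕ) (e : Fin n → ℕ) (h : ∑ i, e i ≤ K) (y : Pt n) :
    dm 0 (toEx K e).1 (Fin.cons 1 y : Pt (n + 1)) = ∏ i, y i ^ e i := by
  unfold dm
  rw [Fin.prod_univ_succ]
  simp only [FTy_toEx_succ K e h, Fin.cons_zero, Fin.cons_succ, one_pow, Pi.zero_apply,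
    Nat.descFactorial_zero, Nat.cast_one, one_mul, Nat.sub_zero]

end GTor
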