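/- piece FG: good configurations satisfy the hypothesis of the local estimate -/
import Pool.Agent.Lib_MP_e0d435_ag_T.FTy
import Pool.Agent.Lib_MP_e0d435_ag_T.ABasic
import Pool.Agent.Lib_MP_e0d435_ag_T.AQuant

open Finset MeasureTheory Complex
open scoped ENNReal ContDiff Real

namespace GTor
open GPn

variable {n : ℕ}

/-- good configurations in master coordinates: at most e0 points outside
{|log|x_r|| <= L}, and at most e0 points inside near any hypersurface of degree D -/
def GoodM {A : Type} [Fintype A] (D : ℕ) (L del : ℝ) (e0 : ℕ) : Set (A → Pt n) :=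
  {X | {j : A | ∃ r, L < |Real.log ‖X j r‖|}.ncard ≤ e0 ∧
    ∀ g : V (n + 1) D, ‖g‖ = 1 →
      {j : A | (∀ r, |Real.log ‖X j r‖| ≤ L) ∧ ‖pd g 0 (Fin.cons 1 (X j) : Pt (n + 1))‖ <
        del * enm (Fin.cons 1 (X j) : Pt (n + 1)) ^ D}.ncard ≤ e0}

private theorem FGd_near_meas {A : Type} [Fintype A] (L : ℝ) (j : A) :
    MeasurableSet {X : A → Pt n | ∀ r, |Real.log ‖X j r‖| ≤ L} := by
  simp only [Set.ofPred_forall]
  refine MeasurableSet.iInter fun r => ?_
  refine measurableSet_le ?_ measurable_const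
  have h1 : Measurable fun X : A → Pt n => X j r :=
    (measurable_pi_apply r).comp (measurable_pi_apply j)
  exact continuous_abs.measurable.comp (Real.measurable_log.comp h1.norm)

private theorem FGd_cons_cont {A : Type} (j : A) :
    Continuous fun X : A → Pt n => (Fin.cons 1 (X j) : Pt (n + 1)) := by
  refine continuous_pi fun i => ?_
  refine Fin.cases ?_ (fun i => ?_) i
  · simp only [Fin.cons_zero]
    exact continuous_const
  · simp only [Fin.cons_succ]
    exact (continuous_apply i).comp (continuous_apply j)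

private theorem FGd_open {A : Type} [Fintype A] (D : ℕ) (del : ℝ) (e0 : ℕ) (S : Finset A)
    (g : V (n + 1) D) :
    IsOpen {X : A → Pt n | e0 < {j : A | j ∈ S ∧ ‖pd g 0 (Fin.cons 1 (X j) : Pt (n + 1))‖ <
        del * enm (Fin.cons 1 (X j) : Pt (n + 1)) ^ D}.ncard} := by
  classical
  have h3 : {X : A → Pt n | e0 < {j : A | j ∈ S ∧ ‖pd g 0 (Fin.cons 1 (X j) : Pt (n + 1))‖ <
        del * enm (Fin.cons 1 (X j) : Pt (n + 1)) ^ D}.ncard} =
      ⋃ S' ∈ {S' : Finset A | e0 < S'.card ∧ S' ⊆ S},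
        {X : A → Pt n | ∀ j ∈ S', ‖pd g 0 (Fin.cons 1 (X j) : Pt (n + 1))‖ <
        del * enm (Fin.cons 1 (X j) : Pt (n + 1)) ^ D} := by
    ext X
    simp only [Set.mem_ofPred_eq, Set.mem_iUnion, exists_prop]
    constructor
    · intro h
      refine ⟨(Set.toFinite {j : A | j ∈ S ∧ ‖pd g 0 (Fin.cons 1 (X j) : Pt (n + 1))‖ <
        del * enm (Fin.cons 1 (X j) : Pt (n + 1)) ^ D}).toFinset, ⟨?_, ?_⟩, ?_⟩
      · rwa [← Set.ncard_eq_toFinset_card]
      · intro j hj
        rw [Set.Finite.mem_toFinset] at hj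
        exact hj.1
      · intro j hj
        rw [Set.Finite.mem_toFinset] at hj
        exact hj.2
    · rintro ⟨S', ⟨hS, hSS⟩, hX⟩
      refine lt_of_lt_of_le hS ?_
      rw [← Set.ncard_coe_finset]
      exact Set.ncard_le_ncard (fun j hj => ⟨hSS hj, hX j hj⟩) (Set.toFinite _)
  rw [h3]
  refine isOpen_biUnion fun S' _ => ?_
  have h4 : {X : A → Pt n | ∀ j ∈ S', ‖pd g 0 (Fin.cons 1 (X j) : Pt (n + 1))‖ <
        del * enm (Fin.cons 1 (X j) : Pt (n + 1)) ^ D} =
      ⋂ j ∈ S', {X : A → Pt n | ‖pd g 0 (Fin.cons 1 (X j) : Pt (n + 1))‖ <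
        del * enm (Fin.cons 1 (X j) : Pt (n + 1)) ^ D} := by
    ext X
    simp only [Set.mem_ofPred_eq, Set.mem_iInter]
  rw [h4]
  refine isOpen_biInter_finset fun j _ => ?_
  exact isOpen_lt ((continuous_pd g 0).comp (FGd_cons_cont j)).norm
    (continuous_const.mul ((continuous_enm.comp (FGd_cons_cont j)).pow D))

theorem measurableSet_GoodM {A : Type} [Fintype A] [DecidableEq A] (D : ℕ) (L del : ℝ) (e0 : ℕ) :
    MeasurableSet (GoodM (A := A) (n := n) D L del e0) := by
  classical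
  have h5 : GoodM (A := A) (n := n) D L del e0 = ⋃ S ∈ {S : Finset A | Sᶜ.card ≤ e0},
      ((⋂ j : A, {X : A → Pt n | j ∈ S ↔ ∀ r, |Real.log ‖X j r‖| ≤ L}) ∩
        (⋃ g ∈ {g : V (n + 1) D | ‖g‖ = 1},
          {X : A → Pt n | e0 < {j : A | j ∈ S ∧ ‖pd g 0 (Fin.cons 1 (X j) : Pt (n + 1))‖ <
            del * enm (Fin.cons 1 (X j) : Pt (n + 1)) ^ D}.ncard})ᶜ) := by
    ext X
    simp only [GoodM, Set.mem_ofPred_eq, Set.mem_inter_iff, Set.mem_compl_iff, Set.mem_iUnion,
      exists_prop, not_exists, not_and, not_lt, Set.mem_iInter]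
    constructor
    · rintro ⟨h1, h2⟩
      refine ⟨Finset.univ.filter fun j => ∀ r, |Real.log ‖X j r‖| ≤ L, ?_, ?_, ?_⟩
      · have h6 : {j : A | ∃ r, L < |Real.log ‖X j r‖|} =
            (((Finset.univ.filter fun j => ∀ r, |Real.log ‖X j r‖| ≤ L)ᶜ : Finset A) : Set A) := by
          ext j
          simp
        rw [h6, Set.ncard_coe_finset] at h1
        exact h1
      · intro j
        simp
      · intro g hg
        have h7 := h2 g hg
        refine le_trans (le_of_eq ?_) h7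
        congr 1
        ext j
        simp
    · rintro ⟨S, h1, h2, h3⟩
      refine ⟨?_, fun g hg => ?_⟩
      · have h6 : {j : A | ∃ r, L < |Real.log ‖X j r‖|} = ((Sᶜ : Finset A) : Set A) := by
          ext j
          simp only [Set.mem_ofPred_eq, Finset.coe_compl, Set.mem_compl_iff, Finset.mem_coe, h2 j,
            not_forall, not_le]
        rw [h6, Set.ncard_coe_finset]
        exact h1
      · have h7 := h3 g hg
        refine le_trans (le_of_eq ?_) h7
        congr 1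
        ext j
        simp only [Set.mem_ofPred_eq, h2 j]
  rw [h5]
  refine Set.Finite.measurableSet_biUnion (Set.toFinite _) fun S _ => ?_
  refine MeasurableSet.inter (MeasurableSet.iInter fun j => ?_) ?_
  · by_cases hj : j ∈ S
    · simp only [hj, true_iff]
      exact FGd_near_meas L j
    · simp only [hj, false_iff]
      exact (FGd_near_meas L j).compl
  · exact (isOpen_biUnion fun g _ => FGd_open D del e0 S g).measurableSet.compl

private theorem FGd_enm_smul {m : ℕ} (t : ℂ) (x : Pt m) : enm (t • x) = ‖t‖ * enm x := by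
  unfold enm nsq
  have h1 : ∑ i, ‖(t • x) i‖ ^ 2 = ‖t‖ ^ 2 * ∑ i, ‖x i‖ ^ 2 := by
    rw [Finset.mul_sum]
    refine Finset.sum_congr rfl fun i _ => ?_
    rw [Pi.smul_apply, smul_eq_mul, norm_mul, mul_pow]
  rw [h1, Real.sqrt_mul (by positivity), Real.sqrt_sq (norm_nonneg t)]

private theorem FGd_inj (F : FanoPolytope n) (c0 C k : ℕ)
    (hc0 : ∀ (k : ℕ) (a : Sec F k), ∀ r, |a.1 r| ≤ c0 * k) (hC0 : 2 * n * c0 ≤ C) :
    Function.Injective (fun a : Sec F k => toEx (C * k) (exTy F k c0 none a)) := by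
  have hnn : ∀ (a : Sec F k) (i : Fin n), 0 ≤ a.1 i + ((k * c0 : ℕ) : ℤ) := by
    intro a i
    have h1 := abs_le.1 (hc0 k a i)
    push_cast
    nlinarith [h1.1, h1.2]
  have hle : ∀ a : Sec F k, ∑ i, exTy F k c0 none a i ≤ C * k := by
    intro a
    have h1 : ∀ i, exTy F k c0 none a i ≤ 2 * c0 * k := by
      intro i
      have h2 := abs_le.1 (hc0 k a i)
      have h3 : (exTy F k c0 none a i : ℤ) = a.1 i + ((k * c0 : ℕ) : ℤ) := by
        simp only [exTy]
        exact Int.toNat_of_nonneg (hnn a i)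
      have h4 : (exTy F k c0 none a i : ℤ) ≤ ((2 * c0 * k : ℕ) : ℤ) := by
        rw [h3]
        push_cast
        nlinarith [h2.1, h2.2]
      exact_mod_cast h4
    calc ∑ i, exTy F k c0 none a i ≤ ∑ _i : Fin n, 2 * c0 * k := Finset.sum_le_sum fun i _ => h1 i
      _ = n * (2 * c0 * k) := by simp
      _ = 2 * n * c0 * k := by ring
      _ ≤ C * k := Nat.mul_le_mul_right k hC0
  intro a b hab
  have hab' : toEx (C * k) (exTy F k c0 none a) = toEx (C * k) (exTy F k c0 none b) := hab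
  unfold toEx at hab'
  rw [dif_pos (hle a), dif_pos (hle b)] at hab'
  have h1 := congrArg Subtype.val hab'
  have h2 : ∀ i : Fin n, exTy F k c0 none a i = exTy F k c0 none b i := by
    intro i
    have h3 := congrFun h1 i.succ
    simpa only [Fin.cons_succ] using h3
  apply Subtype.ext
  funext i
  have h3 := h2 i
  simp only [exTy] at h3
  have h4 := Int.toNat_of_nonneg (hnn a i)
  have h5 := Int.toNat_of_nonneg (hnn b i)
  rw [h3, h5] at h4
  exact (add_right_cancel h4).symm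

/-- let X have homogeneous coordinates in the regions of its type, the points of type none being
the affine points x_j = X_j / X_j0 of a good configuration; then X satisfies the hypothesis of the
local estimate with e = 2 e0 -/
theorem good_imp (hn : 1 ≤ n) (F : FanoPolytope n) (c0 C : ℕ)
    (hc0 : ∀ (k : ℕ) (a : Sec F k), ∀ r, |a.1 r| ≤ c0 * k) (hC0 : 2 * n * c0 ≤ C)
    (k D l e0 : ℕ) (hk : 1 ≤ k) (hD : 1 ≤ D) (hl : l ≤ C * k)
    (hlt : n * n.factorial * (C * k) < (D + 1) * (l + 1)) (L del : ℝ) (hdel : 0 < del) :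
    ∃ s1 : ℝ, 0 < s1 ∧ ∀ (ty : Sec F k → Option (Fin n → Fin n → ℤ)) (X : Sec F k → Pt (n + 1))
      (x : Sec F k → Pt n), x ∈ GoodM (A := Sec F k) D L del e0 →
      {j | ty j ≠ none}.ncard ≤ e0 →
      (∀ j, ty j = none → X j 0 ≠ 0 ∧ X j ∈ Ann (n + 1) ∧ (∀ r, x j r = X j r.succ / X j 0) ∧
        ∀ r, |Real.log ‖x j r‖| ≤ L) →
      ∀ G : EuclideanSpace ℂ (Sec F k), ‖G‖ = 1 →
        {j | ∀ al : Ex (n + 1) l,
          ‖pA (fun a => toEx (C * k) (exTy F k c0 (ty j) a)) G al.1 (X j)‖ < s1}.ncard ≤ 2 * e0 := by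
  obtain ⟨c, hc, hcG⟩ := emb_norm_ge (n + 1) (C * k)
  obtain ⟨s0, hs0, hq⟩ := quant_gen n (C * k) D l hn hD hl hlt del hdel
  refine ⟨c * s0, mul_pos hc hs0, ?_⟩
  intro ty X x hx hty hX G hG
  have hinj := FGd_inj F c0 C k hc0 hC0
  obtain ⟨ph, hph⟩ : ∃ ph : Sec F k → Ex (n + 1) (C * k),
      ph = fun a => toEx (C * k) (exTy F k c0 none a) := ⟨_, rfl⟩
  rw [← hph] at hinj
  have h1 := hcG (Sec F k) ph hinj G
  rw [hG, mul_one] at h1
  have hE : 0 < ‖emb ph G‖ := hc.trans_le h1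
  obtain ⟨g, hg, hgx⟩ := hq (((‖emb ph G‖ : ℂ)⁻¹) • emb ph G) (by
    rw [norm_smul, norm_inv, Complex.norm_real, norm_norm]
    exact inv_mul_cancel₀ hE.ne')
  have hsub : {j | ∀ al : Ex (n + 1) l,
      ‖pA (fun a => toEx (C * k) (exTy F k c0 (ty j) a)) G al.1 (X j)‖ < c * s0} ⊆
      {j | ty j ≠ none} ∪ {j | (∀ r, |Real.log ‖x j r‖| ≤ L) ∧
        ‖pd g 0 (Fin.cons 1 (x j) : Pt (n + 1))‖ <
        del * enm (Fin.cons 1 (x j) : Pt (n + 1)) ^ D} := by
    intro j hj
    by_cases hjt : ty j = none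
    swap
    · exact Or.inl hjt
    right
    obtain ⟨hj0, hj1, hj2, hj3⟩ := hX j hjt
    refine ⟨hj3, ?_⟩
    have h2 := hgx (X j) hj1 (by
      intro al
      have h3 := hj al
      rw [hjt, ← hph] at h3
      rw [pd_smul_left, norm_mul, norm_inv, Complex.norm_real, norm_norm, pd_emb ph hinj,
        inv_mul_lt_iff₀ hE]
      refine h3.trans_le ?_
      exact mul_le_mul_of_nonneg_right h1 hs0.le)
    have h3 : X j = (X j 0) • (Fin.cons 1 (x j) : Pt (n + 1)) := by
      funext i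
      refine Fin.cases ?_ (fun i => ?_) i
      · simp
      · rw [Pi.smul_apply, Fin.cons_succ, smul_eq_mul, hj2 i]
        field_simp
    rw [h3, pd_smul, FGd_enm_smul, norm_mul, norm_pow, mul_pow] at h2
    have h4 : 0 < ‖X j 0‖ ^ D := pow_pos (norm_pos_iff.2 hj0) D
    have h6 : ‖X j 0‖ ^ D * ‖pd g 0 (Fin.cons 1 (x j) : Pt (n + 1))‖ <
        ‖X j 0‖ ^ D * (del * enm (Fin.cons 1 (x j) : Pt (n + 1)) ^ D) := by
      calc _ < _ := h2
        _ = _ := by ring
    exact lt_of_mul_lt_mul_left h6 h4.le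
  have h2 := (Set.ncard_le_ncard hsub (Set.toFinite _)).trans (Set.ncard_union_le _ _)
  have h3 := hx.2 g hg
  omega

end GTor
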