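/- piece FN: the hypotheses of the Gibbs part hold -/
import Pool.Agent.Lib_MP_e0d435_ag_T.FBd

open Finset MeasureTheory Complex
open scoped ENNReal ContDiff Real

namespace GTor
open GPn

variable {n : ℕ}

/-! ### auxiliary lemmas (FInst) -/

/-- the basis of a chart -/
private noncomputable def FInst_B {F : FanoPolytope n} {s0 : Fin n → Fin n → ℤ}
    (hs0 : s0 ∈ Ch F) : Module.Basis (Fin n) ℝ (Fin n → ℝ) :=
  Module.Basis.mk hs0.2.1
    (hs0.2.1.span_eq_top_of_card_eq_finrank' (by simp)).ge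

private theorem FInst_B_apply {F : FanoPolytope n} {s0 : Fin n → Fin n → ℤ}
    (hs0 : s0 ∈ Ch F) (i : Fin n) : FInst_B hs0 i = toR (s0 i) := by
  unfold FInst_B
  rw [Module.Basis.mk_apply]

private theorem FInst_repr {F : FanoPolytope n} {s0 : Fin n → Fin n → ℤ}
    (hs0 : s0 ∈ Ch F) (v : Fin n → ℝ) (j : Fin n) :
    (FInst_B hs0).repr (fun r => ∑ i, v i * (s0 i r : ℝ)) j = v j := by
  have h1 : (fun r => ∑ i, v i * (s0 i r : ℝ)) = ∑ i, v i • FInst_B hs0 i := by
    funext r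
    rw [Finset.sum_apply]
    refine Finset.sum_congr rfl fun i _ => ?_
    rw [FInst_B_apply]
    rfl
  rw [h1, Module.Basis.repr_sum_self]

private theorem FInst_spec {F : FanoPolytope n} {s0 : Fin n → Fin n → ℤ}
    (hs0 : s0 ∈ Ch F) (x : Fin n → ℝ) (r : Fin n) :
    ∑ i, (FInst_B hs0).repr x i * (s0 i r : ℝ) = x r := by
  have h1 := congrFun ((FInst_B hs0).sum_repr x) r
  rw [Finset.sum_apply] at h1
  rw [← h1]
  refine Finset.sum_congr rfl fun i _ => ?_
  rw [FInst_B_apply]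
  rfl

private theorem FInst_pair (s : Fin n → Fin n → ℤ) (a v : Fin n → ℝ) :
    ∑ i, (∑ r, a r * (s i r : ℝ)) * v i = ∑ r, a r * ∑ i, v i * (s i r : ℝ) := by
  simp_rw [Finset.sum_mul, Finset.mul_sum]
  rw [Finset.sum_comm]
  refine Finset.sum_congr rfl fun r _ => Finset.sum_congr rfl fun i _ => ?_
  ring

private theorem FInst_ex (F : FanoPolytope n) (k : ℕ) {s : Fin n → Fin n → ℤ} (hs : s ∈ Ch F)
    (a : Sec F k) (i : Fin n) : (ex F k s a i : ℝ) = ∑ r, (a.1 r : ℝ) * (s i r : ℝ) + k := by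
  have h1 := congrArg (Int.cast : ℤ → ℝ) (ex_cast F k s hs a i)
  rw [Int.cast_natCast] at h1
  rw [h1]
  unfold ip
  push_cast
  rfl

private theorem FInst_ex_sum (F : FanoPolytope n) (k : ℕ) {s : Fin n → Fin n → ℤ}
    (hs : s ∈ Ch F) (a : Sec F k) (v : Fin n → ℝ) :
    ∑ i, (ex F k s a i : ℝ) * v i =
      ∑ r, (a.1 r : ℝ) * (∑ i, v i * (s i r : ℝ)) + k * ∑ i, v i := by
  rw [← FInst_pair, Finset.mul_sum, ← Finset.sum_add_distrib]
  refine Finset.sum_congr rfl fun i _ => ?_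
  rw [FInst_ex F k hs]
  ring

/-- the vertex of m P belonging to a chart -/
private theorem FInst_vertex (F : FanoPolytope n) (m0 : ℕ) (hm0 : 1 ≤ m0) (hcar : Car F m0)
    {s : Fin n → Fin n → ℤ} (hs : s ∈ Ch F) :
    ∃ b : Sec F m0, ∀ i, ∑ r, (b.1 r : ℝ) * (s i r : ℝ) = -(m0 : ℝ) := by
  obtain ⟨w, hw⟩ := hcar s hs
  have hm : (0 : ℝ) < m0 := by exact_mod_cast hm0
  have hwR : ∀ i, ∑ r, (w r : ℝ) * (s i r : ℝ) = -(m0 : ℝ) := by
    intro i
    have h1 := congrArg (Int.cast : ℤ → ℝ) (hw i)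
    unfold ip at h1
    push_cast at h1
    exact h1
  refine ⟨⟨w, fun v hv => ?_⟩, hwR⟩
  have h1 := hs.2.2 (fun r => (w r : ℝ) / m0) (fun i => by
    have h2 := hwR i
    have h3 : ∑ r, (w r : ℝ) / m0 * (s i r : ℝ) = (∑ r, (w r : ℝ) * (s i r : ℝ)) / m0 := by
      rw [Finset.sum_div]
      exact Finset.sum_congr rfl fun r _ => by ring
    rw [h3, h2]
    field_simp) v hv
  have h4 : ∑ r, (w r : ℝ) / m0 * (v r : ℝ) = (∑ r, (w r : ℝ) * (v r : ℝ)) / m0 := by
    rw [Finset.sum_div]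
    exact Finset.sum_congr rfl fun r _ => by ring
  rw [h4, le_div_iff₀ hm] at h1
  have h5 : ((-(m0 : ℤ) : ℤ) : ℝ) ≤ ((ip w v : ℤ) : ℝ) := by
    unfold ip
    push_cast
    linarith
  exact_mod_cast h5

private theorem FInst_sec (F : FanoPolytope n) (k : ℕ) (a : Sec F k) {v : Fin n → ℤ}
    (hv : v ∈ F.V) : -(k : ℝ) ≤ ∑ r, (a.1 r : ℝ) * (v r : ℝ) := by
  have h1 := a.2 v hv
  have h2 : ((-(k : ℤ) : ℤ) : ℝ) ≤ ((ip a.1 v : ℤ) : ℝ) := by exact_mod_cast h1
  unfold ip at h2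
  push_cast at h2
  exact h2

private theorem FInst_bet (F : FanoPolytope n) (k : ℕ) (hk : 1 ≤ k) {s : Fin n → Fin n → ℤ}
    (hs : s ∈ Ch F) (i : Fin n) :
    bet (ex F k s) i = k * (∑ r, bk F k r * (s i r : ℝ) + 1) := by
  have hk0 : (k : ℝ) ≠ 0 := by
    have : (0 : ℝ) < k := by exact_mod_cast hk
    exact this.ne'
  have hN : (Fintype.card (Sec F k) : ℝ) ≠ 0 := by
    exact_mod_cast Fintype.card_ne_zero
  unfold bet bk
  rw [div_eq_iff hN]
  simp_rw [FInst_ex F k hs]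
  rw [Finset.sum_add_distrib, Finset.sum_const, Finset.card_univ, nsmul_eq_mul]
  have h1 : ∑ a : Sec F k, ∑ r, (a.1 r : ℝ) * (s i r : ℝ) =
      ∑ r, (∑ a : Sec F k, (a.1 r : ℝ)) * (s i r : ℝ) := by
    rw [Finset.sum_comm]
    exact Finset.sum_congr rfl fun r _ => by rw [Finset.sum_mul]
  rw [h1]
  have h2 : ∑ r, (∑ a : Sec F k, (a.1 r : ℝ)) / (k * Fintype.card (Sec F k)) * (s i r : ℝ) =
      (∑ r, (∑ a : Sec F k, (a.1 r : ℝ)) * (s i r : ℝ)) / (k * Fintype.card (Sec F k)) := by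
    rw [Finset.sum_div]
    exact Finset.sum_congr rfl fun r _ => by ring
  rw [h2]
  field_simp

/-- coercivity -/
theorem coer_inst (F : FanoPolytope n) (m0 : ℕ) (hm0 : 1 ≤ m0) (hcar : Car F m0)
    (s0 : Fin n → Fin n → ℤ) (hs0 : s0 ∈ Ch F) (rho0 : ℝ) (hrho : 0 < rho0) :
    ∃ kap : ℝ, 0 < kap ∧ ∀ t : ℝ, 0 ≤ t → t < 1 → ∀ k : ℕ, 1 ≤ k →
      (∀ v ∈ F.V, t * (1 + ∑ r, bk F k r * (v r : ℝ)) ≤ 1 - rho0) →
      Coer (ex F k s0) (ex F m0 s0) (t / k) ((1 - t) / m0) kap := by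
  classical
  have hm : (0 : ℝ) < m0 := by exact_mod_cast hm0
  set M : ℝ := ∑ v ∈ F.V, ∑ j, |(FInst_B hs0).repr (toR v) j| with hM
  have hM0 : 0 ≤ M := Finset.sum_nonneg fun v _ => Finset.sum_nonneg fun j _ => abs_nonneg _
  refine ⟨rho0 / (M + 1), by positivity, ?_⟩
  intro t ht ht1 k hk hbk v
  have hk0 : (0 : ℝ) < k := by exact_mod_cast hk
  obtain ⟨s, hs, c, hc, hcx⟩ := cover F (fun r => -∑ i, v i * (s0 i r : ℝ))
  obtain ⟨b, hb⟩ := FInst_vertex F m0 hm0 hcar hs
  have hux : ∀ r, ∑ i, v i * (s0 i r : ℝ) = -∑ i, c i * (s i r : ℝ) := by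
    intro r
    have := hcx r
    linarith
  -- the sum of the absolute values
  have habs : ∑ j, |v j| ≤ M * ∑ i, c i := by
    have hv : ∀ j, v j = -∑ i, c i * (FInst_B hs0).repr (toR (s i)) j := by
      intro j
      rw [← FInst_repr hs0 v j]
      have h1 : (fun r => ∑ i, v i * (s0 i r : ℝ)) = -∑ i, c i • toR (s i) := by
        funext r
        rw [hux r, Pi.neg_apply, Finset.sum_apply]
        rfl
      rw [h1, map_neg, map_sum]
      simp only [Finsupp.coe_neg, Pi.neg_apply, Finsupp.coe_finsetSum, Finset.sum_apply, map_smul,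
        Finsupp.coe_smul, Pi.smul_apply, smul_eq_mul]
    calc ∑ j, |v j| ≤ ∑ j, ∑ i, c i * |(FInst_B hs0).repr (toR (s i)) j| := by
          refine Finset.sum_le_sum fun j _ => ?_
          rw [hv j, abs_neg]
          refine (Finset.abs_sum_le_sum_abs _ _).trans (le_of_eq ?_)
          refine Finset.sum_congr rfl fun i _ => ?_
          rw [abs_mul, abs_of_nonneg (hc i)]
      _ = ∑ i, c i * ∑ j, |(FInst_B hs0).repr (toR (s i)) j| := by
          rw [Finset.sum_comm]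
          exact Finset.sum_congr rfl fun i _ => by rw [Finset.mul_sum]
      _ ≤ ∑ i, c i * M := by
          refine Finset.sum_le_sum fun i _ => mul_le_mul_of_nonneg_left ?_ (hc i)
          exact Finset.single_le_sum (f := fun v => ∑ j, |(FInst_B hs0).repr (toR v) j|)
            (fun v _ => Finset.sum_nonneg fun j _ => abs_nonneg _) (hs.1 i)
      _ = M * ∑ i, c i := by rw [← Finset.sum_mul, mul_comm]
  have hcs : 0 ≤ ∑ i, c i := Finset.sum_nonneg fun i _ => hc i
  refine ⟨b, ?_⟩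
  -- first sum
  have e1 : t / k * ∑ i, bet (ex F k s0) i * v i =
      t * (-∑ i, (∑ r, bk F k r * (s i r : ℝ)) * c i + ∑ i, v i) := by
    have h1 : ∑ i, bet (ex F k s0) i * v i =
        k * (∑ i, (∑ r, bk F k r * (s0 i r : ℝ)) * v i + ∑ i, v i) := by
      rw [← Finset.sum_add_distrib, Finset.mul_sum]
      refine Finset.sum_congr rfl fun i _ => ?_
      rw [FInst_bet F k hk hs0]
      ring
    rw [h1, FInst_pair]
    simp_rw [hux]
    rw [FInst_pair]
    have h2 : ∑ r, bk F k r * -∑ i, c i * (s i r : ℝ) = -∑ r, bk F k r * ∑ i, c i * (s i r : ℝ) := by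
      rw [← Finset.sum_neg_distrib]
      exact Finset.sum_congr rfl fun r _ => by ring
    rw [h2]
    field_simp
  -- second sum
  have e2 : (1 - t) / m0 * ∑ i, (ex F m0 s0 b i : ℝ) * v i =
      (1 - t) * (∑ i, c i + ∑ i, v i) := by
    rw [FInst_ex_sum F m0 hs0]
    simp_rw [hux]
    have h2 : ∑ r, (b.1 r : ℝ) * -∑ i, c i * (s i r : ℝ) =
        -∑ r, (b.1 r : ℝ) * ∑ i, c i * (s i r : ℝ) := by
      rw [← Finset.sum_neg_distrib]
      exact Finset.sum_congr rfl fun r _ => by ring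
    rw [h2, ← FInst_pair]
    simp_rw [hb]
    rw [← Finset.mul_sum]
    field_simp
  rw [e1, e2]
  have e3 : rho0 * ∑ i, c i ≤ ∑ i, c i * (1 - t * (1 + ∑ r, bk F k r * (s i r : ℝ))) := by
    rw [Finset.mul_sum]
    refine Finset.sum_le_sum fun i _ => ?_
    have := hbk (s i) (hs.1 i)
    have h1 := mul_le_mul_of_nonneg_left (by linarith : rho0 ≤
      1 - t * (1 + ∑ r, bk F k r * (s i r : ℝ))) (hc i)
    linarith
  have e4 : ∑ i, c i * (1 - t * (1 + ∑ r, bk F k r * (s i r : ℝ))) =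
      t * (-∑ i, (∑ r, bk F k r * (s i r : ℝ)) * c i + ∑ i, v i) +
      (1 - t) * (∑ i, c i + ∑ i, v i) - ∑ i, v i := by
    have h1 : ∑ i, c i * (1 - t * (1 + ∑ r, bk F k r * (s i r : ℝ))) =
        (1 - t) * ∑ i, c i - t * ∑ i, (∑ r, bk F k r * (s i r : ℝ)) * c i := by
      rw [Finset.mul_sum, Finset.mul_sum, ← Finset.sum_sub_distrib]
      exact Finset.sum_congr rfl fun i _ => by ring
    rw [h1]
    ring
  rw [← e4]
  refine le_trans ?_ e3
  calc rho0 / (M + 1) * ∑ i, |v i| ≤ rho0 / (M + 1) * ((M + 1) * ∑ i, c i) := by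
        gcongr
        refine habs.trans ?_
        gcongr
        linarith
    _ = rho0 * ∑ i, c i := by field_simp

theorem bet_bdd (F : FanoPolytope n) (s0 : Fin n → Fin n → ℤ) (hs0 : s0 ∈ Ch F) :
    ∃ C1 : ℝ, ∀ t : ℝ, 0 ≤ t → t < 1 → ∀ k : ℕ, 1 ≤ k → ∀ i,
      t / k * bet (ex F k s0) i ≤ C1 := by
  obtain ⟨C, hC⟩ := ex_bdd F
  refine ⟨C, fun t ht ht1 k hk i => ?_⟩
  have hk0 : (0 : ℝ) < k := by exact_mod_cast hk
  have hN : (0 : ℝ) < Fintype.card (Sec F k) := by exact_mod_cast Fintype.card_pos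
  have h1 : bet (ex F k s0) i ≤ C * k := by
    unfold bet
    rw [div_le_iff₀ hN]
    calc ∑ a, (ex F k s0 a i : ℝ) ≤ ∑ _a : Sec F k, (C * k : ℝ) := by
          refine Finset.sum_le_sum fun a _ => ?_
          have h2 := hC k s0 hs0 a
          have h3 : ex F k s0 a i ≤ ∑ i, ex F k s0 a i :=
            Finset.single_le_sum (f := fun i => ex F k s0 a i) (fun _ _ => Nat.zero_le _)
              (Finset.mem_univ i)
          exact_mod_cast h3.trans h2
      _ = C * k * Fintype.card (Sec F k) := by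
          rw [Finset.sum_const, Finset.card_univ, nsmul_eq_mul]; ring
  calc t / k * bet (ex F k s0) i ≤ t / k * (C * k) := by gcongr
    _ = t * C := by field_simp
    _ ≤ 1 * C := by gcongr
    _ = C := one_mul _

private theorem FInst_mon_norm (e : Fin n → ℕ) (z : Pt n) (hz : ∀ i, z i ≠ 0) :
    ‖mon e z‖ = Real.exp (∑ i, (e i : ℝ) * Real.log ‖z i‖) := by
  unfold mon
  rw [norm_prod, Real.exp_sum]
  refine Finset.prod_congr rfl fun i _ => ?_
  rw [norm_pow, Real.exp_nat_mul, Real.exp_log (norm_pos_iff.2 (hz i))]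

private theorem FInst_Sd_nonneg {B : Type} [Fintype B] (d : B → Fin n → ℕ) (z : Pt n) :
    0 ≤ Sd d z := Finset.sum_nonneg fun b _ => by positivity

private theorem FInst_Sd_cont {B : Type} [Fintype B] (d : B → Fin n → ℕ) :
    Continuous (Sd d) := by
  unfold Sd mon
  fun_prop

/-- monomials are bounded by the reference sections -/
theorem dom_inst (F : FanoPolytope n) (m0 : ℕ) (hm0 : 1 ≤ m0) (hcar : Car F m0)
    (s0 : Fin n → Fin n → ℤ) (hs0 : s0 ∈ Ch F) (k : ℕ) (z : Pt n) :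
    Sd (ex F k s0) z ≤ Fintype.card (Sec F k) * Sd (ex F m0 s0) z ^ ((k : ℝ) / m0) := by
  have hm : (0 : ℝ) < m0 := by exact_mod_cast hm0
  -- nonzero coordinates
  have key : ∀ z : Pt n, (∀ i, z i ≠ 0) →
      Sd (ex F k s0) z ≤ Fintype.card (Sec F k) * Sd (ex F m0 s0) z ^ ((k : ℝ) / m0) := by
    intro z hz
    obtain ⟨s, hs, c, hc, hcx⟩ := cover F (fun r => -∑ i, Real.log ‖z i‖ * (s0 i r : ℝ))
    obtain ⟨b, hb⟩ := FInst_vertex F m0 hm0 hcar hs
    have hux : ∀ r, ∑ i, Real.log ‖z i‖ * (s0 i r : ℝ) = -∑ i, c i * (s i r : ℝ) := by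
      intro r
      have := hcx r
      linarith
    have hneg : ∀ a : Fin n → ℝ, ∑ r, a r * ∑ i, Real.log ‖z i‖ * (s0 i r : ℝ) =
        -∑ i, (∑ r, a r * (s i r : ℝ)) * c i := by
      intro a
      simp_rw [hux]
      rw [FInst_pair, ← Finset.sum_neg_distrib]
      exact Finset.sum_congr rfl fun r _ => by ring
    set S : ℝ := ∑ i, c i + ∑ i, Real.log ‖z i‖ with hS
    have hbS : ‖mon (ex F m0 s0 b) z‖ = Real.exp (m0 * S) := by
      rw [FInst_mon_norm _ _ hz, FInst_ex_sum F m0 hs0, hneg]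
      simp_rw [hb]
      rw [← Finset.mul_sum]
      congr 1
      rw [hS]; ring
    have h1 : Real.exp (m0 * S) ^ 2 ≤ Sd (ex F m0 s0) z := by
      rw [← hbS]
      exact Finset.single_le_sum (f := fun b => ‖mon (ex F m0 s0 b) z‖ ^ 2)
        (fun _ _ => by positivity) (Finset.mem_univ b)
    have h2 : Real.exp (k * S) ^ 2 ≤ Sd (ex F m0 s0) z ^ ((k : ℝ) / m0) := by
      calc Real.exp (k * S) ^ 2 = (Real.exp (m0 * S) ^ 2) ^ ((k : ℝ) / m0) := by
            rw [← Real.exp_nat_mul, ← Real.exp_nat_mul, ← Real.exp_mul]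
            congr 1
            field_simp
        _ ≤ Sd (ex F m0 s0) z ^ ((k : ℝ) / m0) := by
            gcongr
    have h3 : ∀ a : Sec F k, ‖mon (ex F k s0 a) z‖ ^ 2 ≤
        Sd (ex F m0 s0) z ^ ((k : ℝ) / m0) := by
      intro a
      refine le_trans ?_ h2
      have h4 : ‖mon (ex F k s0 a) z‖ ≤ Real.exp (k * S) := by
        rw [FInst_mon_norm _ _ hz, FInst_ex_sum F k hs0, hneg]
        refine Real.exp_le_exp.2 ?_
        have h5 : -∑ i, (∑ r, (a.1 r : ℝ) * (s i r : ℝ)) * c i ≤ k * ∑ i, c i := by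
          rw [← Finset.sum_neg_distrib, Finset.mul_sum]
          refine Finset.sum_le_sum fun i _ => ?_
          have h6 := mul_le_mul_of_nonneg_right (FInst_sec F k a (hs.1 i)) (hc i)
          linarith
        rw [hS, mul_add]
        linarith
      gcongr
    calc Sd (ex F k s0) z ≤ ∑ _a : Sec F k, Sd (ex F m0 s0) z ^ ((k : ℝ) / m0) :=
          Finset.sum_le_sum fun a _ => h3 a
      _ = Fintype.card (Sec F k) * Sd (ex F m0 s0) z ^ ((k : ℝ) / m0) := by
          rw [Finset.sum_const, Finset.card_univ, nsmul_eq_mul]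
  -- general case
  have hcl : IsClosed {z : Pt n | Sd (ex F k s0) z ≤
      Fintype.card (Sec F k) * Sd (ex F m0 s0) z ^ ((k : ℝ) / m0)} := by
    refine isClosed_le (FInst_Sd_cont _) (continuous_const.mul ?_)
    exact (FInst_Sd_cont _).rpow_const fun z => Or.inr (by positivity)
  have hd : Dense (Set.pi Set.univ (fun _ : Fin n => ({0}ᶜ : Set ℂ))) :=
    dense_pi _ fun i _ => dense_compl_singleton 0
  have hsub : closure (Set.pi Set.univ (fun _ : Fin n => ({0}ᶜ : Set ℂ))) ⊆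
      {z : Pt n | Sd (ex F k s0) z ≤
      Fintype.card (Sec F k) * Sd (ex F m0 s0) z ^ ((k : ℝ) / m0)} :=
    closure_minimal (fun z hz => key z fun i => hz i (Set.mem_univ i)) hcl
  exact hsub (hd z)

theorem ray_inst (F : FanoPolytope n) (m0 : ℕ) (hm0 : 1 ≤ m0) (hcar : Car F m0)
    (s0 : Fin n → Fin n → ℤ) (hs0 : s0 ∈ Ch F) (t : ℝ) (ht : 0 ≤ t) (ht1 : t < 1) (k : ℕ)
    (hk : 1 ≤ k) : Nonempty (RayData (ex F k s0) (ex F m0 s0) (t / k) ((1 - t) / m0)) := by
  classical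
  have hm : (0 : ℝ) < m0 := by exact_mod_cast hm0
  have hk0 : (0 : ℝ) < k := by exact_mod_cast hk
  have hr : t / k * ((k : ℝ) / m0) + (1 - t) / m0 = 1 / m0 := by
    field_simp
    ring
  have hsum : ∀ (l : ℕ) (b : Sec F l) (v : Fin n → ℤ),
      ∑ i, (ex F l s0 b i : ℝ) * (FInst_B hs0).repr (toR v) i =
        ∑ r, (b.1 r : ℝ) * (v r : ℝ) + l * ∑ i, (FInst_B hs0).repr (toR v) i := by
    intro l b v
    rw [FInst_ex_sum F l hs0]
    simp_rw [FInst_spec hs0]
    rfl
  have hdiff : ∀ (l : ℕ) (b b' : Sec F l) (v : Fin n → ℤ), ∃ m : ℤ,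
      ∑ i, ((ex F l s0 b i : ℝ) - ex F l s0 b' i) * (FInst_B hs0).repr (toR v) i = m := by
    intro l b b' v
    refine ⟨ip b.1 v - ip b'.1 v, ?_⟩
    simp_rw [sub_mul]
    rw [Finset.sum_sub_distrib, hsum, hsum]
    unfold ip
    push_cast
    ring
  refine ⟨{
    U := F.V.image fun v => fun i => (FInst_B hs0).repr (toR v) i
    q := (k : ℝ) / m0
    q_nonneg := by positivity
    dom := ⟨Fintype.card (Sec F k), dom_inst F m0 hm0 hcar s0 hs0 k⟩
    low := ?_
    strict := ?_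
    neg := ?_
    phe := ?_
    phd := ?_ }⟩
  · intro u hu b
    obtain ⟨v, hv, rfl⟩ := Finset.mem_image.1 hu
    rw [hr, hsum]
    have h1 := FInst_sec F m0 b hv
    rw [div_mul_eq_mul_div, one_mul, le_div_iff₀ hm]
    linarith
  · intro u hu
    obtain ⟨v, hv, rfl⟩ := Finset.mem_image.1 hu
    refine ⟨⟨0, by intro v _; simp [ip]⟩, ?_⟩
    rw [hr, hsum]
    rw [div_mul_eq_mul_div, one_mul, lt_div_iff₀ hm]
    simp only [Pi.zero_apply, Int.cast_zero, zero_mul, Finset.sum_const_zero]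
    linarith
  · intro be hbe hint
    by_contra hcon
    push Not at hcon
    apply hbe
    -- the functional
    set w : Fin n → ℝ := fun r => ∑ i, (be i : ℝ) * (FInst_B hs0).repr (Pi.single r 1) i with hw
    have hwx : ∀ x : Fin n → ℝ, ∑ r, w r * x r = ∑ i, (be i : ℝ) * (FInst_B hs0).repr x i := by
      intro x
      have hx : x = ∑ r, x r • (Pi.single r 1 : Fin n → ℝ) := by
        funext j
        rw [Finset.sum_apply]
        simp [Pi.single_apply]
      conv_rhs => rw [hx]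
      simp only [map_sum, map_smul, Finsupp.coe_finsetSum, Finset.sum_apply, Finsupp.coe_smul,
        Pi.smul_apply, smul_eq_mul, Finset.mul_sum]
      rw [Finset.sum_comm]
      refine Finset.sum_congr rfl fun r _ => ?_
      rw [hw]
      simp only
      rw [Finset.sum_mul]
      exact Finset.sum_congr rfl fun i _ => by ring
    have hw0 : w = 0 := by
      refine pos_span F w fun v hv => ?_
      have h1 : ∑ r, w r * (v r : ℝ) = ∑ i, (be i : ℝ) * (FInst_B hs0).repr (toR v) i :=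
        hwx (toR v)
      rw [h1]
      have hu : (fun i => (FInst_B hs0).repr (toR v) i) ∈
          F.V.image fun v => fun i => (FInst_B hs0).repr (toR v) i :=
        Finset.mem_image_of_mem _ hv
      obtain ⟨m, hm1⟩ := hint _ hu
      have h2 := hcon _ hu
      rw [hm1] at h2 ⊢
      have h3 : (-1 : ℤ) < m := by exact_mod_cast h2
      have h4 : 0 ≤ m := by omega
      exact_mod_cast h4
    funext i
    have h1 := hwx (toR (s0 i))
    rw [hw0, ← FInst_B_apply hs0, Module.Basis.repr_self] at h1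
    simp only [Pi.zero_apply, zero_mul, Finset.sum_const_zero] at h1
    rw [Finset.sum_eq_single i (fun j _ hj => by
      rw [Finsupp.single_eq_of_ne hj, mul_zero]) (fun h => absurd (Finset.mem_univ i) h),
      Finsupp.single_eq_same, mul_one] at h1
    exact_mod_cast h1.symm
  · intro u hu a a'
    obtain ⟨v, hv, rfl⟩ := Finset.mem_image.1 hu
    exact hdiff k a a' v
  · intro u hu a a'
    obtain ⟨v, hv, rfl⟩ := Finset.mem_image.1 hu
    exact hdiff m0 a a' v

/-- the sections x^0, x^(e_1), ..., x^(e_n) of -m0 K_X -/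
noncomputable def selF (F : FanoPolytope n) (m0 : ℕ)
    (h : ∀ r : Fin n, ∀ v ∈ F.V, -(m0 : ℤ) ≤ ip (Pi.single r 1) v) (i : Fin (n + 1)) :
    Sec F m0 :=
  Fin.cases ⟨0, by intro v _; simp [ip]⟩ (fun r => ⟨Pi.single r 1, h r⟩) i

theorem selF_injective (F : FanoPolytope n) (m0 : ℕ)
    (h : ∀ r : Fin n, ∀ v ∈ F.V, -(m0 : ℤ) ≤ ip (Pi.single r 1) v) :
    Function.Injective (selF F m0 h) := by
  intro i j hij
  refine Fin.cases (motive := fun i => selF F m0 h i = selF F m0 h j → i = j) ?_ (fun r => ?_) i hij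
  · refine Fin.cases (motive := fun j => selF F m0 h 0 = selF F m0 h j → 0 = j) ?_ (fun r => ?_) j
    · exact fun _ => rfl
    · intro h1
      have h2 := congrFun (congrArg Subtype.val h1) r
      simp [selF] at h2
  · refine Fin.cases (motive := fun j => selF F m0 h r.succ = selF F m0 h j → r.succ = j) ?_
      (fun r' => ?_) j
    · intro h1
      have h2 := congrFun (congrArg Subtype.val h1) r
      simp [selF] at h2
    · intro h1
      have h2 := congrFun (congrArg Subtype.val h1) r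
      by_contra hne
      have hne' : r ≠ r' := fun h3 => hne (by rw [h3])
      simp [selF, hne'] at h2

theorem selF_hinj (F : FanoPolytope n) (m0 : ℕ)
    (h : ∀ r : Fin n, ∀ v ∈ F.V, -(m0 : ℤ) ≤ ip (Pi.single r 1) v)
    (s0 : Fin n → Fin n → ℤ) (hs0 : s0 ∈ Ch F) (D : ℕ) :
    Function.Injective (fun a : Ex (n + 1) D => fun i : Fin n =>
      ∑ s, a.1 s * ex F m0 s0 (selF F m0 h s) i) := by
  intro a a' haa
  have hval : ∀ a : Ex (n + 1) D, ∀ i, ((∑ s, a.1 s * ex F m0 s0 (selF F m0 h s) i : ℕ) : ℝ) =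
      ∑ r : Fin n, (a.1 r.succ : ℝ) * (s0 i r : ℝ) + D * m0 := by
    intro a i
    push_cast
    simp_rw [FInst_ex F m0 hs0, mul_add]
    rw [Finset.sum_add_distrib, ← Finset.sum_mul]
    have h1 : ∑ s, (a.1 s : ℝ) = D := by exact_mod_cast a.2
    rw [h1, Fin.sum_univ_succ]
    have h2 : ∑ r, (((selF F m0 h 0).1 r : ℤ) : ℝ) * (s0 i r : ℝ) = 0 := by
      simp [selF]
    have h3 : ∀ r : Fin n, ∑ r', (((selF F m0 h r.succ).1 r' : ℤ) : ℝ) * (s0 i r' : ℝ) =
        (s0 i r : ℝ) := by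
      intro r
      simp [selF, Pi.single_apply]
    rw [h2]
    simp_rw [h3]
    ring
  -- the difference is orthogonal to the basis
  set x : Fin n → ℝ := fun r => (a.1 r.succ : ℝ) - a'.1 r.succ with hx
  have horth : ∀ i, ∑ r, x r * (s0 i r : ℝ) = 0 := by
    intro i
    have h1 := congrArg (Nat.cast : ℕ → ℝ) (congrFun haa i)
    simp only at h1
    rw [hval a i, hval a' i] at h1
    simp only [hx, sub_mul]
    rw [Finset.sum_sub_distrib]
    linarith
  have hx0 : x = 0 := by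
    have h1 : ∀ y : Fin n → ℝ, ∑ r, x r * y r = 0 := by
      intro y
      have h2 := FInst_pair s0 x (fun i => (FInst_B hs0).repr y i)
      simp_rw [FInst_spec hs0, horth] at h2
      rw [← h2]
      simp
    funext r
    have h2 := h1 (Pi.single r 1)
    simpa [Pi.single_apply] using h2
  have hs : ∀ r : Fin n, a.1 r.succ = a'.1 r.succ := by
    intro r
    have h1 := congrFun hx0 r
    simp only [hx, Pi.zero_apply] at h1
    have h2 : (a.1 r.succ : ℝ) = a'.1 r.succ := by linarith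
    exact_mod_cast h2
  apply Subtype.ext
  funext i
  refine Fin.cases ?_ hs i
  have h1 := a.2
  have h2 := a'.2
  rw [Fin.sum_univ_succ] at h1 h2
  have h3 : ∑ r : Fin n, a.1 r.succ = ∑ r : Fin n, a'.1 r.succ :=
    Finset.sum_congr rfl fun r _ => hs r
  omega

end GTor
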