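/- piece FM: change of variables for monomial maps -/
import Pool.Agent.Lib_MP_e0d435_ag_T.FDef

open Finset MeasureTheory Complex
open scoped ENNReal ContDiff Real

namespace GTor
open GPn

variable {n : ℕ}

/-- the monomial map of the chart s to the torus: x^m = prod_i z_i^(<m, s_i>) -/
noncomputable def phi (s : Fin n → Fin n → ℤ) (z : Pt n) : Pt n := fun r => ∏ i, z i ^ s i r

/-- density of the invariant measure -/
noncomputable def hd (z : Pt n) : ℝ≥0∞ := ∏ i, ENNReal.ofReal (‖z i‖ ^ (-2 : ℤ))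

theorem measurable_phi (s : Fin n → Fin n → ℤ) : Measurable (phi s) := by
  refine measurable_pi_lambda _ fun r => ?_
  unfold phi
  exact Finset.measurable_prod _ fun i _ => (measurable_pi_apply i).pow_const _

/-- the one dimensional density -/
private noncomputable def FMap_w (z : ℂ) : ℝ≥0∞ := ENNReal.ofReal (‖z‖ ^ (-2 : ℤ))

private theorem FMap_w_meas : Measurable FMap_w :=
  ENNReal.measurable_ofReal.comp (measurable_norm.pow_const (-2 : ℤ))

theorem measurable_hd : Measurable (hd : Pt n → ℝ≥0∞) := by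
  unfold hd
  exact Finset.measurable_prod _ fun i _ => FMap_w_meas.comp (measurable_pi_apply i)

theorem phi_id (z : Pt n) : phi (fun i => Pi.single i 1) z = z := by
  funext r
  change ∏ i, z i ^ (Pi.single i (1 : ℤ) : Fin n → ℤ) r = z r
  rw [Finset.prod_eq_single r]
  · rw [Pi.single_eq_same, zpow_one]
  · intro i _ hi
    rw [Pi.single_eq_of_ne hi.symm, zpow_zero]
  · intro h
    exact absurd (Finset.mem_univ r) h

theorem log_phi (s : Fin n → Fin n → ℤ) (z : Pt n) (hz : ∀ i, z i ≠ 0) (r : Fin n) :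
    Real.log ‖phi s z r‖ = ∑ i, (s i r : ℝ) * Real.log ‖z i‖ := by
  change Real.log ‖∏ i, z i ^ s i r‖ = _
  rw [norm_prod, Real.log_prod fun i _ => by
    rw [norm_zpow]; exact zpow_ne_zero _ (norm_ne_zero_iff.2 (hz i))]
  refine Finset.sum_congr rfl fun i _ => ?_
  rw [norm_zpow, Real.log_zpow]

/-! ### products of measures with densities -/

section prodMeas

variable {ι : Type} [Fintype ι] {X : ι → Type} [∀ i, MeasurableSpace (X i)]

private theorem FMap_lint_prod (μ : ∀ i, Measure (X i)) [∀ i, SigmaFinite (μ i)]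
    (f : ∀ i, X i → ℝ≥0∞) (hf : ∀ i, Measurable (f i)) :
    ∫⁻ x, ∏ i, f i (x i) ∂Measure.pi μ = ∏ i, ∫⁻ x, f i x ∂μ i := by
  classical
  have hm : Measurable fun x : ∀ i, X i => ∏ i, f i (x i) :=
    Finset.measurable_prod _ fun i _ => (hf i).comp (measurable_pi_apply i)
  have key : ∀ (s : Finset ι) (x : ∀ i, X i),
      (∫⋯∫⁻_s, (fun x => ∏ i, f i (x i)) ∂μ) x =
        (∏ i ∈ s, ∫⁻ y, f i y ∂μ i) * ∏ i ∈ sᶜ, f i (x i) := by
    intro s
    induction s using Finset.induction_on with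
    | empty =>
      intro x
      rw [lmarginal_empty]
      simp
    | insert i s hi ih =>
      intro x
      rw [lmarginal_insert _ hm hi]
      have h1 : ∀ y, (∫⋯∫⁻_s, (fun x => ∏ i, f i (x i)) ∂μ) (Function.update x i y) =
          ((∏ i ∈ s, ∫⁻ y, f i y ∂μ i) * ∏ j ∈ (insert i s)ᶜ, f j (x j)) * f i y := by
        intro y
        rw [ih]
        have h2 : sᶜ = insert i (insert i s)ᶜ := by
          ext j
          simp only [Finset.mem_compl, Finset.mem_insert]
          by_cases hj : j = i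
          · subst hj; simp [hi]
          · simp [hj]
        have h3 : i ∉ (insert i s)ᶜ := by simp
        conv_lhs => rw [h2, Finset.prod_insert h3]
        rw [Function.update_self]
        have h4 : ∏ j ∈ (insert i s)ᶜ, f j (Function.update x i y j) =
            ∏ j ∈ (insert i s)ᶜ, f j (x j) := by
          refine Finset.prod_congr rfl fun j hj => ?_
          have h5 : j ≠ i := by
            rintro rfl
            exact h3 hj
          rw [Function.update_of_ne h5]
        rw [h4]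
        ring
      simp_rw [h1]
      rw [lintegral_const_mul _ (hf i), Finset.prod_insert hi]
      ring
  have h1 := key Finset.univ
  by_cases hne : Nonempty (∀ i, X i)
  · obtain ⟨x⟩ := hne
    have h2 := h1 x
    rw [lmarginal_univ] at h2
    refine h2.trans ?_
    simp
  · have h3 : ∃ i, IsEmpty (X i) := by
      by_contra hcon
      push Not at hcon
      exact hne ⟨fun i => Classical.choice (hcon i)⟩
    obtain ⟨i, hi⟩ := h3
    have : IsEmpty (∀ i, X i) := ⟨fun x => hi.elim (x i)⟩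
    rw [lintegral_of_isEmpty]
    symm
    exact Finset.prod_eq_zero (Finset.mem_univ i) (by rw [lintegral_of_isEmpty])

private theorem FMap_pi_wd (μ : ∀ i, Measure (X i)) [∀ i, SigmaFinite (μ i)]
    (f : ∀ i, X i → ℝ≥0∞) (hf : ∀ i, Measurable (f i))
    [∀ i, SigmaFinite ((μ i).withDensity (f i))] :
    (Measure.pi μ).withDensity (fun x => ∏ i, f i (x i)) =
      Measure.pi fun i => (μ i).withDensity (f i) := by
  symm
  refine Measure.pi_eq fun s hs => ?_
  rw [withDensity_apply _ (MeasurableSet.univ_pi hs), Measure.restrict_pi_pi,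
    FMap_lint_prod _ _ hf]
  exact Finset.prod_congr rfl fun i _ => (withDensity_apply _ (hs i)).symm

private theorem FMap_pi_smul (μ : ∀ i, Measure (X i)) [∀ i, SigmaFinite (μ i)]
    (c : ι → NNReal) :
    (Measure.pi fun i => c i • μ i) = (∏ i, c i) • Measure.pi μ := by
  refine Measure.pi_eq fun s hs => ?_
  simp only [Measure.smul_apply, Measure.pi_pi, ENNReal.smul_def, smul_eq_mul]
  rw [Finset.prod_mul_distrib, ENNReal.ofNNReal_finsetProd]

end prodMeas

/-! ### the group of units -/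

private theorem FMap_borel : BorelSpace ℂˣ := by
  refine ⟨?_⟩
  have h1 : (inferInstance : TopologicalSpace ℂˣ) =
      TopologicalSpace.induced Units.val inferInstance := Units.isEmbedding_val₀.eq_induced
  have h2 : @borel ℂˣ (TopologicalSpace.induced Units.val inferInstance) =
      (borel ℂ).comap Units.val := borel_comap
  have h3 : borel ℂˣ = (borel ℂ).comap Units.val := by
    rw [← h2]
    exact congrArg _ h1
  rw [h3, ← BorelSpace.measurable_eq (α := ℂ)]
  rfl

private theorem FMap_sct : SecondCountableTopology ℂˣ :=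
  Units.isEmbedding_val₀.secondCountableTopology

attribute [local instance] FMap_borel FMap_sct

private theorem FMap_emb : MeasurableEmbedding (Units.val : ℂˣ → ℂ) :=
  (Units.isOpenEmbedding_val (R := ℂ)).measurableEmbedding

/-- the measure on C with density |z|^(-2) -/
private noncomputable def FMap_m : Measure ℂ := volume.withDensity FMap_w

private instance FMap_m_sf : SigmaFinite FMap_m := SigmaFinite.withDensity_ofReal _

/-- the measure on the units -/
private noncomputable def FMap_nu : Measure ℂˣ := FMap_m.comap Units.val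

private theorem FMap_range : Set.range (Units.val : ℂˣ → ℂ) = {0}ᶜ := by
  ext z
  simp only [Set.mem_range, Set.mem_compl_iff, Set.mem_singleton_iff]
  exact ⟨fun ⟨u, hu⟩ => hu ▸ u.ne_zero, fun h => ⟨Units.mk0 z h, rfl⟩⟩

private theorem FMap_m_zero : FMap_m {0} = 0 :=
  (withDensity_absolutelyContinuous _ _) (by simp)

private theorem FMap_map_nu : FMap_nu.map Units.val = FMap_m := by
  rw [FMap_nu, FMap_emb.map_comap, FMap_range, Measure.restrict_eq_self_of_ae_mem]
  rw [ae_iff]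
  have h1 : {a : ℂ | a ∉ ({0} : Set ℂ)ᶜ} = {0} := by ext z; simp
  rw [h1, FMap_m_zero]

private theorem FMap_map_mul (u : ℂ) (hu : u ≠ 0) :
    (volume : Measure ℂ).map (fun z => u * z) = ENNReal.ofReal ((‖u‖ ^ 2)⁻¹) • volume := by
  have hn : ‖u‖ ≠ 0 := norm_ne_zero_iff.2 hu
  have he : u / (‖u‖ : ℂ) ∈ Submonoid.unitSphere ℂ := by
    change u / (‖u‖ : ℂ) ∈ Metric.sphere (0 : ℂ) 1
    rw [mem_sphere_zero_iff_norm, norm_div, Complex.norm_real, norm_norm, div_self hn]
  have h1 : (fun z : ℂ => u * z) =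
      (fun z : ℂ => ‖u‖ • z) ∘ (fun z : ℂ => u / (‖u‖ : ℂ) * z) := by
    funext z
    have : (‖u‖ : ℂ) ≠ 0 := by exact_mod_cast hn
    simp only [Function.comp_apply, Complex.real_smul]
    field_simp
  have h2 : MeasurePreserving (fun z : ℂ => u / (‖u‖ : ℂ) * z) volume volume :=
    (rotation ⟨u / (‖u‖ : ℂ), he⟩).measurePreserving
  rw [h1, ← Measure.map_map (measurable_const_smul _) h2.measurable, h2.map_eq,
    Measure.map_addHaar_smul _ hn, Complex.finrank_real_complex, abs_of_pos (by positivity)]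

private theorem FMap_m_inv (u : ℂ) (hu : u ≠ 0) : FMap_m.map (fun z => u * z) = FMap_m := by
  have hmu : Measurable fun z : ℂ => u * z := measurable_const_mul u
  have hn : ‖u‖ ≠ 0 := norm_ne_zero_iff.2 hu
  ext s hs
  rw [Measure.map_apply hmu hs, FMap_m, withDensity_apply _ hs, withDensity_apply _ (hmu hs),
    ← lintegral_indicator (hmu hs), ← lintegral_indicator hs]
  have hg : Measurable (s.indicator FMap_w) := FMap_w_meas.indicator hs
  have h1 : ∀ z, ((fun z : ℂ => u * z) ⁻¹' s).indicator FMap_w z =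
      ENNReal.ofReal (‖u‖ ^ 2) * s.indicator FMap_w (u * z) := by
    intro z
    by_cases hz : u * z ∈ s
    · rw [Set.indicator_of_mem (by exact hz), Set.indicator_of_mem hz]
      unfold FMap_w
      rw [← ENNReal.ofReal_mul (by positivity), norm_mul, mul_zpow, zpow_neg, zpow_neg]
      congr 1
      have : ‖u‖ ^ (2 : ℤ) = ‖u‖ ^ 2 := by norm_cast
      rw [this]
      field_simp
    · rw [Set.indicator_of_notMem (by exact hz), Set.indicator_of_notMem hz, mul_zero]
  simp_rw [h1]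
  have hgm : Measurable fun z : ℂ => s.indicator FMap_w (u * z) := hg.comp hmu
  rw [lintegral_const_mul _ hgm]
  have h2 : ∫⁻ z, s.indicator FMap_w (u * z) =
      ∫⁻ z, s.indicator FMap_w z ∂((volume : Measure ℂ).map (fun z => u * z)) :=
    (lintegral_map hg hmu).symm
  rw [h2, FMap_map_mul u hu, lintegral_smul_measure, smul_eq_mul, ← mul_assoc,
    ← ENNReal.ofReal_mul (by positivity), mul_inv_cancel₀ (by positivity), ENNReal.ofReal_one,
    one_mul]

private theorem FMap_ann_compact (a b : ℝ) (ha : 0 < a) :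
    IsCompact {u : ℂˣ | a ≤ ‖(u : ℂ)‖ ∧ ‖(u : ℂ)‖ ≤ b} := by
  rw [(Units.isEmbedding_val₀ (G₀ := ℂ)).isInducing.isCompact_iff]
  have h1 : (Units.val : ℂˣ → ℂ) '' {u : ℂˣ | a ≤ ‖(u : ℂ)‖ ∧ ‖(u : ℂ)‖ ≤ b} =
      {z : ℂ | a ≤ ‖z‖ ∧ ‖z‖ ≤ b} := by
    ext z
    constructor
    · rintro ⟨u, hu, rfl⟩
      exact hu
    · intro hz
      have h2 : z ≠ 0 := norm_pos_iff.1 (ha.trans_le hz.1)
      exact ⟨Units.mk0 z h2, hz, rfl⟩
  rw [h1]
  refine Metric.isCompact_of_isClosed_isBounded ?_ ?_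
  · exact (isClosed_le continuous_const continuous_norm).inter
      (isClosed_le continuous_norm continuous_const)
  · refine (Metric.isBounded_closedBall (x := (0 : ℂ)) (r := b)).subset ?_
    intro z hz
    rw [mem_closedBall_zero_iff]
    exact hz.2

private instance FMap_nu_haar : FMap_nu.IsHaarMeasure := by
  have : FMap_nu.IsMulLeftInvariant := by
    refine ⟨fun u => ?_⟩
    have h1 : (FMap_nu.map (fun v => u * v)).map Units.val = FMap_nu.map Units.val := by
      rw [Measure.map_map FMap_emb.measurable (measurable_const_mul u)]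
      have h2 : (Units.val : ℂˣ → ℂ) ∘ (fun v => u * v) = (fun z => (u : ℂ) * z) ∘ Units.val := by
        funext v
        simp
      rw [h2, ← Measure.map_map (measurable_const_mul _) FMap_emb.measurable, FMap_map_nu,
        FMap_m_inv _ u.ne_zero]
    rw [← FMap_emb.comap_map (FMap_nu.map (fun v => u * v)), h1, FMap_emb.comap_map]
  have hK := FMap_ann_compact (1 / 2) 2 (by norm_num)
  have hval : Continuous (fun u : ℂˣ => ‖(u : ℂ)‖) := Units.continuous_val.norm
  have hO : IsOpen {u : ℂˣ | 1 / 2 < ‖(u : ℂ)‖ ∧ ‖(u : ℂ)‖ < 2} :=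
    (isOpen_lt continuous_const hval).inter (isOpen_lt hval continuous_const)
  have hsub : {u : ℂˣ | 1 / 2 < ‖(u : ℂ)‖ ∧ ‖(u : ℂ)‖ < 2} ⊆
      {u : ℂˣ | 1 / 2 ≤ ‖(u : ℂ)‖ ∧ ‖(u : ℂ)‖ ≤ 2} := fun u hu => ⟨hu.1.le, hu.2.le⟩
  have h1mem : (1 : ℂˣ) ∈ {u : ℂˣ | 1 / 2 < ‖(u : ℂ)‖ ∧ ‖(u : ℂ)‖ < 2} := by
    simp only [Set.mem_ofPred_eq, Units.val_one, norm_one]
    norm_num
  refine Measure.isHaarMeasure_of_isCompact_nonempty_interior FMap_nu _ hK
    ⟨1, interior_maximal hsub hO h1mem⟩ ?_ ?_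
  · -- positive
    intro h0
    have h2 : FMap_nu {u : ℂˣ | 1 / 2 < ‖(u : ℂ)‖ ∧ ‖(u : ℂ)‖ < 2} = 0 := measure_mono_null hsub h0
    have h3 : FMap_m (Units.val '' {u : ℂˣ | 1 / 2 < ‖(u : ℂ)‖ ∧ ‖(u : ℂ)‖ < 2}) = 0 := by
      rw [← h2, FMap_nu, FMap_emb.comap_apply]
    have h4 : IsOpen ((Units.val : ℂˣ → ℂ) '' {u : ℂˣ | 1 / 2 < ‖(u : ℂ)‖ ∧ ‖(u : ℂ)‖ < 2}) :=
      (Units.isOpenEmbedding_val (R := ℂ)).isOpenMap _ hO
    have h5 : (volume : Measure ℂ) (Units.val '' {u : ℂˣ | 1 / 2 < ‖(u : ℂ)‖ ∧ ‖(u : ℂ)‖ < 2}) = 0 := by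
      refine (withDensity_absolutelyContinuous' FMap_w_meas.aemeasurable ?_) h3
      have h6 : ∀ᵐ z : ℂ, z ≠ 0 := by
        rw [ae_iff]
        simp
      filter_upwards [h6] with z hz
      unfold FMap_w
      rw [Ne, ENNReal.ofReal_eq_zero, not_le]
      exact zpow_pos (norm_pos_iff.2 hz) _
    have h7 := h4.measure_eq_zero_iff (volume : Measure ℂ) |>.1 h5
    have h8 : ((1 : ℂˣ) : ℂ) ∈ (Units.val '' {u : ℂˣ | 1 / 2 < ‖(u : ℂ)‖ ∧ ‖(u : ℂ)‖ < 2} : Set ℂ) :=
      ⟨1, h1mem, rfl⟩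
    rw [h7] at h8
    exact h8
  · -- finite
    rw [FMap_nu, FMap_emb.comap_apply, FMap_m]
    have hKc : IsCompact ((Units.val : ℂˣ → ℂ) '' {u : ℂˣ | 1 / 2 ≤ ‖(u : ℂ)‖ ∧ ‖(u : ℂ)‖ ≤ 2}) :=
      hK.image Units.continuous_val
    rw [withDensity_apply _ hKc.measurableSet]
    have h2 : ∫⁻ z in ((Units.val : ℂˣ → ℂ) '' {u : ℂˣ | 1 / 2 ≤ ‖(u : ℂ)‖ ∧ ‖(u : ℂ)‖ ≤ 2}), FMap_w z ≤
        ∫⁻ _z in ((Units.val : ℂˣ → ℂ) '' {u : ℂˣ | 1 / 2 ≤ ‖(u : ℂ)‖ ∧ ‖(u : ℂ)‖ ≤ 2}), ENNReal.ofReal 4 := by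
      refine setLIntegral_mono measurable_const ?_
      rintro _ ⟨u, hu, rfl⟩
      unfold FMap_w
      refine ENNReal.ofReal_le_ofReal ?_
      have hp : 0 < ‖(u : ℂ)‖ := norm_pos_iff.2 u.ne_zero
      rw [zpow_neg]
      have h3 : ‖(u : ℂ)‖ ^ (2 : ℤ) = ‖(u : ℂ)‖ ^ 2 := by norm_cast
      rw [h3]
      have h4 : (1 / 4 : ℝ) ≤ ‖(u : ℂ)‖ ^ 2 := by nlinarith [hu.1]
      calc (‖(u : ℂ)‖ ^ 2)⁻¹ ≤ (1 / 4 : ℝ)⁻¹ := inv_anti₀ (by norm_num) h4
        _ = 4 := by norm_num
    refine ne_top_of_le_ne_top ?_ h2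
    rw [setLIntegral_const]
    exact ENNReal.mul_ne_top ENNReal.ofReal_ne_top hKc.measure_lt_top.ne

/-! ### the monomial homomorphism -/

/-- the monomial homomorphism of the torus -/
private noncomputable def FMap_hom (s : Fin n → Fin n → ℤ) : (Fin n → ℂˣ) →* (Fin n → ℂˣ) where
  toFun u r := ∏ i, u i ^ s i r
  map_one' := by funext r; simp
  map_mul' u v := by
    funext r
    simp only [Pi.mul_apply, mul_zpow, Finset.prod_mul_distrib]

private theorem FMap_hom_cont (s : Fin n → Fin n → ℤ) : Continuous (FMap_hom s) := by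
  refine continuous_pi fun r => ?_
  change Continuous fun u : Fin n → ℂˣ => ∏ i, u i ^ s i r
  exact continuous_finsetProd _ fun i _ => (continuous_apply i).zpow _

private theorem FMap_zpow_sum {ι : Type} (t : Finset ι) (f : ι → ℤ) (a : ℂˣ) :
    ∏ i ∈ t, a ^ f i = a ^ ∑ i ∈ t, f i := by
  classical
  induction t using Finset.induction_on with
  | empty => simp
  | insert i t hi ih => rw [Finset.prod_insert hi, Finset.sum_insert hi, zpow_add, ih]

private theorem FMap_hom_comp (s t : Fin n → Fin n → ℤ) (u : Fin n → ℂˣ) (r : Fin n) :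
    FMap_hom s (FMap_hom t u) r = ∏ j, u j ^ (Matrix.of t * Matrix.of s) j r := by
  change ∏ i, (∏ j, u j ^ t j i) ^ s i r = _
  simp_rw [← Finset.prod_zpow, ← zpow_mul]
  rw [Finset.prod_comm]
  refine Finset.prod_congr rfl fun j _ => ?_
  rw [Matrix.mul_apply, FMap_zpow_sum]
  rfl

private theorem FMap_hom_scalar (s t : Fin n → Fin n → ℤ) (d : ℤ)
    (h : Matrix.of t * Matrix.of s = d • (1 : Matrix (Fin n) (Fin n) ℤ)) (u : Fin n → ℂˣ) :
    FMap_hom s (FMap_hom t u) = fun r => u r ^ d := by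
  funext r
  rw [FMap_hom_comp, h, Finset.prod_eq_single r]
  · simp
  · intro j _ hj
    simp [Matrix.one_apply_ne hj]
  · intro hr
    exact absurd (Finset.mem_univ r) hr

private theorem FMap_root (d : ℤ) (hd0 : d ≠ 0) (y : ℂˣ) : ∃ w : ℂˣ, w ^ d = y := by
  refine ⟨Units.mk0 (Complex.exp (Complex.log y / d)) (Complex.exp_ne_zero _), ?_⟩
  ext
  have hd' : (d : ℂ) ≠ 0 := by exact_mod_cast hd0
  rw [Units.val_zpow_eq_zpow_val, Units.val_mk0, ← Complex.exp_int_mul, mul_div_cancel₀ _ hd',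
    Complex.exp_log y.ne_zero]

private theorem FMap_pow_proper (d : ℤ) (hd0 : d ≠ 0) : IsProperMap fun u : ℂˣ => u ^ d := by
  have main : ∀ d : ℕ, d ≠ 0 → IsProperMap fun u : ℂˣ => u ^ d := by
    intro d hd0
    rw [isProperMap_iff_isCompact_preimage]
    refine ⟨continuous_pow d, fun K hK => ?_⟩
    by_cases hne : K.Nonempty
    · have hval : Continuous (fun u : ℂˣ => ‖(u : ℂ)‖) := Units.continuous_val.norm
      obtain ⟨u1, hu1, hmin⟩ := hK.exists_isMinOn hne hval.continuousOn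
      obtain ⟨u2, hu2, hmax⟩ := hK.exists_isMaxOn hne hval.continuousOn
      have hp1 : 0 < ‖(u1 : ℂ)‖ := norm_pos_iff.2 u1.ne_zero
      refine (FMap_ann_compact (min 1 ‖(u1 : ℂ)‖) (max 1 ‖(u2 : ℂ)‖) (lt_min one_pos hp1)).of_isClosed_subset
        (hK.isClosed.preimage (continuous_pow d)) ?_
      intro u hu
      have h1 : ‖(u1 : ℂ)‖ ≤ ‖(u : ℂ)‖ ^ d := by
        have := hmin hu
        simpa using this
      have h2 : ‖(u : ℂ)‖ ^ d ≤ ‖(u2 : ℂ)‖ := by
        have := hmax hu
        simpa using this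
      constructor
      · by_contra hcon
        push Not at hcon
        have h3 := lt_min_iff.1 hcon
        have h4 : ‖(u : ℂ)‖ ^ d ≤ ‖(u : ℂ)‖ := pow_le_of_le_one (norm_nonneg _) h3.1.le hd0
        linarith
      · by_contra hcon
        push Not at hcon
        have h3 := max_lt_iff.1 hcon
        have h4 : ‖(u : ℂ)‖ ≤ ‖(u : ℂ)‖ ^ d := le_self_pow₀ h3.1.le hd0
        linarith
    · rw [Set.not_nonempty_iff_eq_empty.1 hne]
      simp
  rcases Int.natAbs_eq d with h | h
  · have h1 := main d.natAbs (Int.natAbs_ne_zero.2 hd0)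
    have h2 : (fun u : ℂˣ => u ^ d) = fun u : ℂˣ => u ^ d.natAbs := by
      funext u
      conv_lhs => rw [h]
      rw [zpow_natCast]
    rw [h2]
    exact h1
  · have h1 := main d.natAbs (Int.natAbs_ne_zero.2 hd0)
    have h2 : (fun u : ℂˣ => u ^ d) = (fun u : ℂˣ => u⁻¹) ∘ fun u : ℂˣ => u ^ d.natAbs := by
      funext u
      conv_lhs => rw [h]
      rw [zpow_neg, zpow_natCast]
      rfl
    rw [h2]
    exact (Homeomorph.inv ℂˣ).isProperMap.comp h1

private theorem FMap_hom_props (s : Fin n → Fin n → ℤ)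
    (hs : LinearIndependent ℝ (fun i => toR (s i))) :
    Function.Surjective (FMap_hom s) ∧ IsProperMap (FMap_hom s) := by
  have hdet : (Matrix.of s).det ≠ 0 := by
    intro h0
    have h1 : LinearIndependent ℝ (Matrix.of fun i r => ((s i r : ℤ) : ℝ)).row := hs
    have h2 := Matrix.linearIndependent_rows_iff_isUnit.1 h1
    rw [Matrix.isUnit_iff_isUnit_det, isUnit_iff_ne_zero] at h2
    apply h2
    have h3 : (Matrix.of fun i r => ((s i r : ℤ) : ℝ)) =
        (Matrix.of s).map (Int.castRingHom ℝ) := by ext; rfl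
    rw [h3, ← RingHom.mapMatrix_apply, ← RingHom.map_det, h0, map_zero]
  set d := (Matrix.of s).det with hd
  set t : Fin n → Fin n → ℤ := fun i r => (Matrix.of s).adjugate i r with ht
  have ht' : Matrix.of t = (Matrix.of s).adjugate := by ext; rfl
  have h1 : Matrix.of t * Matrix.of s = d • (1 : Matrix (Fin n) (Fin n) ℤ) := by
    rw [ht', Matrix.adjugate_mul]
  have h2 : Matrix.of s * Matrix.of t = d • (1 : Matrix (Fin n) (Fin n) ℤ) := by
    rw [ht', Matrix.mul_adjugate]
  constructor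
  · intro y
    choose w hw using fun r => FMap_root d hdet (y r)
    refine ⟨FMap_hom t w, ?_⟩
    rw [FMap_hom_scalar s t d h1]
    funext r
    exact hw r
  · refine isProperMap_of_comp_of_t2 (FMap_hom_cont s) (FMap_hom_cont t) ?_
    have h3 : (FMap_hom t) ∘ (FMap_hom s) = fun u r => u r ^ d := by
      funext u
      exact FMap_hom_scalar t s d h2 u
    rw [h3]
    exact IsProperMap.pi_map fun _ => FMap_pow_proper d hdet

/-! ### change of variables -/

/-- the measure on C^n with density hd -/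
private noncomputable def FMap_M (n : ℕ) : Measure (Pt n) := Measure.pi fun _ : Fin n => FMap_m

private theorem FMap_M_eq : (volume : Measure (Pt n)).withDensity hd = FMap_M n := by
  have : SigmaFinite ((volume : Measure ℂ).withDensity FMap_w) := FMap_m_sf
  exact FMap_pi_wd (fun _ : Fin n => (volume : Measure ℂ)) (fun _ => FMap_w) fun _ => FMap_w_meas

private instance FMap_M_sf : SigmaFinite (FMap_M n) := by
  unfold FMap_M
  infer_instance

private theorem FMap_map_M (s : Fin n → Fin n → ℤ)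
    (hs : LinearIndependent ℝ (fun i => toR (s i))) :
    ∃ c : NNReal, c ≠ 0 ∧ (FMap_M n).map (phi s) = c • FMap_M n := by
  set N : Measure (Fin n → ℂˣ) := Measure.pi fun _ => FMap_nu with hN
  have : SigmaFinite (FMap_nu.map Units.val) := by
    rw [FMap_map_nu]
    infer_instance
  have hM : N.map (fun (u : Fin n → ℂˣ) i => (u i : ℂ)) = FMap_M n := by
    rw [hN, Measure.pi_map_pi (f := fun _ : Fin n => (Units.val : ℂˣ → ℂ))
      (fun _ => FMap_emb.measurable.aemeasurable)]
    simp_rw [FMap_map_nu]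
    rfl
  have hem : Measurable (fun (u : Fin n → ℂˣ) i => (u i : ℂ)) :=
    measurable_pi_lambda _ fun i => FMap_emb.measurable.comp (measurable_pi_apply i)
  obtain ⟨h1, h2⟩ := FMap_hom_props s hs
  have hprop := (isProperMap_iff_tendsto_cocompact.1 h2).2
  have hH : (N.map (FMap_hom s)).IsHaarMeasure :=
    Measure.isHaarMeasure_map N (FMap_hom s) (FMap_hom_cont s) h1 hprop
  refine ⟨(N.map (FMap_hom s)).haarScalarFactor N,
    (Measure.haarScalarFactor_pos_of_isHaarMeasure _ _).ne', ?_⟩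
  have h3 : N.map (FMap_hom s) = (N.map (FMap_hom s)).haarScalarFactor N • N :=
    Measure.isMulLeftInvariant_eq_smul _ _
  set c := (N.map (FMap_hom s)).haarScalarFactor N with hc
  rw [← hM, Measure.map_map (measurable_phi s) hem]
  have h4 : phi s ∘ (fun (u : Fin n → ℂˣ) i => (u i : ℂ)) =
      (fun (u : Fin n → ℂˣ) i => (u i : ℂ)) ∘ FMap_hom s := by
    funext u r
    change ∏ i, ((u i : ℂ)) ^ s i r = ((∏ i, u i ^ s i r : ℂˣ) : ℂ)
    simp
  rw [h4, ← Measure.map_map hem (FMap_hom_cont s).measurable, h3]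
  rw [Measure.map_smul]

theorem phi_lintegral (s : Fin n → Fin n → ℤ) (hs : LinearIndependent ℝ (fun i => toR (s i))) :
    ∃ c : ℝ≥0∞, c ≠ 0 ∧ c ≠ ⊤ ∧ ∀ G : Pt n → ℝ≥0∞, Measurable G →
      ∫⁻ z, G (phi s z) * hd z = c * ∫⁻ x, G x * hd x := by
  obtain ⟨c, hc0, hc⟩ := FMap_map_M s hs
  refine ⟨c, by exact_mod_cast hc0, ENNReal.coe_ne_top, fun G hG => ?_⟩
  have h1 : ∀ F : Pt n → ℝ≥0∞, Measurable F → ∫⁻ z, F z * hd z = ∫⁻ z, F z ∂FMap_M n := by
    intro F hF
    rw [← FMap_M_eq, lintegral_withDensity_eq_lintegral_mul _ measurable_hd hF]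
    refine lintegral_congr fun z => ?_
    rw [Pi.mul_apply, mul_comm]
  rw [h1 (fun z => G (phi s z)) (hG.comp (measurable_phi s)), h1 G hG,
    ← lintegral_map hG (measurable_phi s), hc, lintegral_smul_measure]
  rfl

theorem phi_lintegral_pi {A : Type} [Fintype A] [DecidableEq A] (s : A → Fin n → Fin n → ℤ)
    (hs : ∀ j, LinearIndependent ℝ (fun i => toR (s j i))) :
    ∃ c : ℝ≥0∞, c ≠ 0 ∧ c ≠ ⊤ ∧ ∀ G : (A → Pt n) → ℝ≥0∞, Measurable G →
      ∫⁻ Z : A → Pt n, G (fun j => phi (s j) (Z j)) * ∏ j, hd (Z j) =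
        c * ∫⁻ X : A → Pt n, G X * ∏ j, hd (X j) := by
  choose c hc0 hc using fun j => FMap_map_M (s j) (hs j)
  refine ⟨((∏ j, c j : NNReal) : ℝ≥0∞), by exact_mod_cast Finset.prod_ne_zero_iff.2 fun j _ => hc0 j,
    ENNReal.coe_ne_top, fun G hG => ?_⟩
  have hMs : SigmaFinite ((volume : Measure (Pt n)).withDensity hd) := by
    rw [FMap_M_eq]
    infer_instance
  have hpi : (volume : Measure (A → Pt n)).withDensity (fun Z => ∏ j, hd (Z j)) =
      Measure.pi fun _ : A => FMap_M n := by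
    have h1 := FMap_pi_wd (fun _ : A => (volume : Measure (Pt n))) (fun _ => hd)
      fun _ => measurable_hd
    rw [← FMap_M_eq]
    exact h1
  have hmp : Measurable fun (Z : A → Pt n) => ∏ j, hd (Z j) :=
    Finset.measurable_prod _ fun j _ => measurable_hd.comp (measurable_pi_apply j)
  have hmf : Measurable fun (Z : A → Pt n) j => phi (s j) (Z j) :=
    measurable_pi_lambda _ fun j => (measurable_phi (s j)).comp (measurable_pi_apply j)
  have h1 : ∀ F : (A → Pt n) → ℝ≥0∞, Measurable F →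
      ∫⁻ Z, F Z * ∏ j, hd (Z j) = ∫⁻ Z, F Z ∂(Measure.pi fun _ : A => FMap_M n) := by
    intro F hF
    rw [← hpi, lintegral_withDensity_eq_lintegral_mul _ hmp hF]
    refine lintegral_congr fun z => ?_
    rw [Pi.mul_apply, mul_comm]
  have hsf : ∀ j : A, SigmaFinite ((FMap_M n).map (phi (s j))) := fun j => by
    rw [hc j]
    infer_instance
  have hmap : (Measure.pi fun _ : A => FMap_M n).map (fun (Z : A → Pt n) j => phi (s j) (Z j)) =
      (∏ j, c j) • Measure.pi fun _ : A => FMap_M n := by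
    rw [Measure.pi_map_pi (f := fun j : A => phi (s j))
      (fun j => (measurable_phi (s j)).aemeasurable)]
    simp_rw [hc]
    exact FMap_pi_smul (fun _ : A => FMap_M n) c
  rw [h1 (fun Z => G (fun j => phi (s j) (Z j))) (hG.comp hmf), h1 G hG,
    ← lintegral_map hG hmf, hmap, lintegral_smul_measure]
  rfl

end GTor
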