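/- piece FR: the integrand in charts and in master coordinates -/
import Pool.Agent.Lib_MP_e0d435_ag_T.FBd
import Pool.Agent.Lib_MP_e0d435_ag_T.FMap

open Finset MeasureTheory Complex
open scoped ENNReal ContDiff Real

namespace GTor
open GPn

variable {n : ℕ}

/-- the integrand in a product of charts -/
noncomputable def Hc (F : FanoPolytope n) (k m0 : ℕ) (t : ℝ)
    (s : Sec F k → Fin n → Fin n → ℤ) (Z : Sec F k → Pt n) : ℝ≥0∞ :=
  (ENNReal.ofReal ‖locEqT F k s Z‖) ^ (-(2 * (t / k))) *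
    ∏ j, (ENNReal.ofReal (Sd (ex F m0 (s j)) (Z j))) ^ (-((1 - t) / m0))

/-- the integrand in master coordinates, with respect to the invariant measure -/
noncomputable def Gm (F : FanoPolytope n) (k m0 : ℕ) (t : ℝ) (X : Sec F k → Pt n) : ℝ≥0∞ :=
  (ENNReal.ofReal ‖(Matrix.of fun j a : Sec F k => ∏ r, X j r ^ a.1 r).det‖) ^ (-(2 * (t / k))) *
    ∏ j, (ENNReal.ofReal (∑ b : Sec F m0, ∏ r, (‖X j r‖ ^ b.1 r) ^ 2)) ^ (-((1 - t) / m0))

/-! ### auxiliary facts -/

private theorem FRel_zpow_sum {ι : Type*} (t : Finset ι) (f : ι → ℤ) (a : ℂ) (ha : a ≠ 0) :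
    ∏ i ∈ t, a ^ f i = a ^ ∑ i ∈ t, f i := by
  classical
  induction t using Finset.induction_on with
  | empty => simp
  | insert i t hi ih => rw [Finset.prod_insert hi, Finset.sum_insert hi, zpow_add₀ ha, ih]

/-- monomials in master coordinates -/
private theorem FRel_mon (s : Fin n → Fin n → ℤ) (z : Pt n) (hz : ∀ i, z i ≠ 0)
    (a : Fin n → ℤ) : ∏ r, phi s z r ^ a r = ∏ i, z i ^ ip a (s i) := by
  have h1 : ∀ r, phi s z r ^ a r = ∏ i, z i ^ (a r * s i r) := by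
    intro r
    unfold phi
    rw [← Finset.prod_zpow]
    refine Finset.prod_congr rfl fun i _ => ?_
    rw [← zpow_mul, mul_comm]
  rw [Finset.prod_congr rfl fun r _ => h1 r, Finset.prod_comm]
  refine Finset.prod_congr rfl fun i _ => ?_
  rw [FRel_zpow_sum _ _ _ (hz i)]
  rfl

private theorem FRel_ex (F : FanoPolytope n) (k : ℕ) (s : Fin n → Fin n → ℤ) (hs : s ∈ Ch F)
    (z : Pt n) (hz : ∀ i, z i ≠ 0) (a : Sec F k) :
    ∏ i, z i ^ ex F k s a i = (∏ i, z i) ^ k * ∏ r, phi s z r ^ a.1 r := by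
  rw [FRel_mon s z hz, ← Finset.prod_pow, ← Finset.prod_mul_distrib]
  refine Finset.prod_congr rfl fun i _ => ?_
  rw [← zpow_natCast (z i) (ex F k s a i), ex_cast F k s hs a i, zpow_add₀ (hz i), mul_comm,
    zpow_natCast]

private theorem FRel_none (k c0 : ℕ) (z : Pt n) (hz : ∀ i, z i ≠ 0) (a : Fin n → ℤ)
    (ha : ∀ r, |a r| ≤ c0 * k) :
    ∏ i, z i ^ (a i + (k * c0 : ℕ)).toNat = (∏ i, z i) ^ (k * c0) * ∏ r, z r ^ a r := by
  rw [← Finset.prod_pow, ← Finset.prod_mul_distrib]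
  refine Finset.prod_congr rfl fun i _ => ?_
  have h1 : 0 ≤ a i + ((k * c0 : ℕ) : ℤ) := by
    have := (abs_le.1 (ha i)).1
    push_cast
    linarith [mul_comm (c0 : ℤ) k]
  rw [← zpow_natCast (z i) (a i + ((k * c0 : ℕ) : ℤ)).toNat, Int.toNat_of_nonneg h1,
    zpow_add₀ (hz i), mul_comm, zpow_natCast]

private theorem FRel_N_pos (z : Pt n) (hz : ∀ i, z i ≠ 0) : 0 < ‖∏ i, z i‖ :=
  norm_pos_iff.2 (Finset.prod_ne_zero_iff.2 fun i _ => hz i)

/-- Sd in master coordinates -/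
private theorem FRel_Sd (F : FanoPolytope n) (m0 : ℕ) (s : Fin n → Fin n → ℤ) (hs : s ∈ Ch F)
    (z : Pt n) (hz : ∀ i, z i ≠ 0) :
    Sd (ex F m0 s) z = ‖∏ i, z i‖ ^ (2 * m0) *
      ∑ b : Sec F m0, ∏ r, (‖phi s z r‖ ^ b.1 r) ^ 2 := by
  unfold Sd mon
  rw [Finset.mul_sum]
  refine Finset.sum_congr rfl fun b _ => ?_
  rw [FRel_ex F m0 s hs z hz b, norm_mul, mul_pow, norm_pow, ← pow_mul, mul_comm m0 2,
    Finset.prod_pow, norm_prod (f := fun r => phi s z r ^ b.1 r)]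
  congr 2
  refine Finset.prod_congr rfl fun r _ => ?_
  rw [norm_zpow]

private theorem FRel_pow {N : ℝ} (hN : 0 < N) (q : ℕ) (p : ℝ) :
    (ENNReal.ofReal (N ^ q)) ^ p = (ENNReal.ofReal N) ^ ((q : ℝ) * p) := by
  rw [ENNReal.ofReal_pow hN.le, ← ENNReal.rpow_natCast, ← ENNReal.rpow_mul]

private theorem FRel_hd (z : Pt n) (hz : ∀ i, z i ≠ 0) :
    hd z = (ENNReal.ofReal ‖∏ i, z i‖) ^ (-2 : ℝ) := by
  unfold hd
  rw [← ENNReal.ofReal_prod_of_nonneg fun i _ => by positivity, Finset.prod_zpow,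
    ENNReal.ofReal_rpow_of_pos (FRel_N_pos z hz), norm_prod]
  congr 1
  have h : (-2 : ℝ) = ((-2 : ℤ) : ℝ) := by norm_num
  rw [h, Real.rpow_intCast]

private theorem FRel_det {A : Type*} [Fintype A] [DecidableEq A] (v : A → ℂ) (q : A → ℕ)
    (p : ℝ) (N : A → ℝ) (hN : ∀ j, 0 < N j) (hv : ∀ j, ‖v j‖ = N j ^ q j) (M : Matrix A A ℂ) :
    (ENNReal.ofReal ‖(Matrix.of fun j a => v j * M j a).det‖) ^ p =
      (∏ j, (ENNReal.ofReal (N j)) ^ ((q j : ℝ) * p)) * (ENNReal.ofReal ‖M.det‖) ^ p := by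
  rw [Matrix.det_mul_column, norm_mul, norm_prod, ENNReal.ofReal_mul (by positivity),
    ENNReal.mul_rpow_of_ne_top ENNReal.ofReal_ne_top ENNReal.ofReal_ne_top,
    ENNReal.ofReal_prod_of_nonneg fun j _ => norm_nonneg _,
    ← ENNReal.prod_rpow_of_ne_top fun j _ => ENNReal.ofReal_ne_top]
  congr 1
  refine Finset.prod_congr rfl fun j _ => ?_
  rw [hv j, FRel_pow (hN j)]

private theorem FRel_meas_det {Ω A : Type*} [MeasurableSpace Ω] [Fintype A] [DecidableEq A]
    (M : Ω → Matrix A A ℂ) (hM : ∀ j a, Measurable fun x => M x j a) :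
    Measurable fun x => (M x).det := by
  simp only [Matrix.det_apply]
  refine Finset.measurable_sum _ fun p _ => ?_
  refine Measurable.const_smul ?_ _
  exact Finset.measurable_prod _ fun i _ => hM _ _

theorem measurable_Gm (F : FanoPolytope n) (k m0 : ℕ) (t : ℝ) : Measurable (Gm F k m0 t) := by
  have hX : ∀ (j : Sec F k) (r : Fin n), Measurable fun X : Sec F k → Pt n => X j r :=
    fun j r => (measurable_pi_apply r).comp (measurable_pi_apply j)
  unfold Gm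
  refine Measurable.mul ?_ ?_
  · refine (ENNReal.measurable_ofReal.comp (Measurable.norm ?_)).pow_const _
    refine FRel_meas_det (fun X : Sec F k → Pt n => Matrix.of fun j a : Sec F k =>
      ∏ r, X j r ^ a.1 r) fun j a => ?_
    simp only [Matrix.of_apply]
    exact Finset.measurable_prod _ fun r _ => (hX j r).pow_const _
  · refine Finset.measurable_prod _ fun j _ => ?_
    refine (ENNReal.measurable_ofReal.comp ?_).pow_const _
    refine Finset.measurable_sum _ fun b _ => ?_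
    refine Finset.measurable_prod _ fun r _ => ?_
    exact (((hX j r).norm).pow_const _).pow_const _

theorem measurable_Hc (F : FanoPolytope n) (k m0 : ℕ) (t : ℝ)
    (s : Sec F k → Fin n → Fin n → ℤ) : Measurable (Hc F k m0 t s) := by
  have hX : ∀ (j : Sec F k) (r : Fin n), Measurable fun X : Sec F k → Pt n => X j r :=
    fun j r => (measurable_pi_apply r).comp (measurable_pi_apply j)
  unfold Hc locEqT Sd mon
  refine Measurable.mul ?_ ?_
  · refine (ENNReal.measurable_ofReal.comp (Measurable.norm ?_)).pow_const _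
    refine FRel_meas_det (fun X : Sec F k → Pt n => Matrix.of fun j a : Sec F k =>
      ∏ i, X j i ^ ex F k (s j) a i) fun j a => ?_
    simp only [Matrix.of_apply]
    exact Finset.measurable_prod _ fun r _ => (hX j r).pow_const _
  · refine Finset.measurable_prod _ fun j _ => ?_
    refine (ENNReal.measurable_ofReal.comp ?_).pow_const _
    refine Finset.measurable_sum _ fun b _ => ?_
    refine (Measurable.norm ?_).pow_const _
    exact Finset.measurable_prod _ fun r _ => (hX j r).pow_const _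

/-- the factor of one point in a chart -/
private theorem FRel_factor (F : FanoPolytope n) (m0 : ℕ) (hm0 : 1 ≤ m0) (t : ℝ)
    (s : Fin n → Fin n → ℤ) (hs : s ∈ Ch F) (z : Pt n) (hz : ∀ i, z i ≠ 0) :
    (ENNReal.ofReal (Sd (ex F m0 s) z)) ^ (-((1 - t) / m0)) =
      (ENNReal.ofReal ‖∏ i, z i‖) ^ (-(2 * (1 - t))) *
        (ENNReal.ofReal (∑ b : Sec F m0, ∏ r, (‖phi s z r‖ ^ b.1 r) ^ 2)) ^
          (-((1 - t) / m0)) := by
  have hm : (m0 : ℝ) ≠ 0 := by
    have : 0 < m0 := hm0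
    exact_mod_cast this.ne'
  rw [FRel_Sd F m0 s hs z hz, ENNReal.ofReal_mul (by positivity),
    ENNReal.mul_rpow_of_ne_top ENNReal.ofReal_ne_top ENNReal.ofReal_ne_top,
    FRel_pow (FRel_N_pos z hz)]
  congr 2
  push_cast
  field_simp

/-- Hc = (Gm o phi) times the invariant density, at points with nonzero coordinates -/
theorem Hc_eq (F : FanoPolytope n) (k m0 : ℕ) (hk : 1 ≤ k) (hm0 : 1 ≤ m0) (t : ℝ)
    (s : Sec F k → Fin n → Fin n → ℤ) (hs : ∀ j, s j ∈ Ch F) (Z : Sec F k → Pt n)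
    (hZ : ∀ j i, Z j i ≠ 0) :
    Hc F k m0 t s Z = Gm F k m0 t (fun j => phi (s j) (Z j)) * ∏ j, hd (Z j) := by
  have hk' : (k : ℝ) ≠ 0 := by
    have : 0 < k := hk
    exact_mod_cast this.ne'
  unfold Hc Gm locEqT
  have h1 : (Matrix.of fun j a : Sec F k => ∏ i, Z j i ^ ex F k (s j) a i) =
      Matrix.of fun j a : Sec F k => (∏ i, Z j i) ^ k *
        (Matrix.of fun j a : Sec F k => ∏ r, phi (s j) (Z j) r ^ a.1 r) j a := by
    ext j a
    simp only [Matrix.of_apply]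
    exact FRel_ex F k (s j) (hs j) (Z j) (hZ j) a
  rw [h1, FRel_det (fun j => (∏ i, Z j i) ^ k) (fun _ => k) (-(2 * (t / k)))
    (fun j => ‖∏ i, Z j i‖) (fun j => FRel_N_pos (Z j) (hZ j)) (fun j => norm_pow _ _)]
  have h2 : ∏ j, (ENNReal.ofReal (Sd (ex F m0 (s j)) (Z j))) ^ (-((1 - t) / m0)) =
      (∏ j, (ENNReal.ofReal ‖∏ i, Z j i‖) ^ (-(2 * (1 - t)))) *
        ∏ j, (ENNReal.ofReal (∑ b : Sec F m0, ∏ r, (‖phi (s j) (Z j) r‖ ^ b.1 r) ^ 2)) ^
          (-((1 - t) / m0)) := by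
    rw [← Finset.prod_mul_distrib]
    exact Finset.prod_congr rfl fun j _ => FRel_factor F m0 hm0 t (s j) (hs j) (Z j) (hZ j)
  have h3 : ∏ j, hd (Z j) = (∏ j, (ENNReal.ofReal ‖∏ i, Z j i‖) ^
      ((k : ℝ) * (-(2 * (t / k))))) * ∏ j, (ENNReal.ofReal ‖∏ i, Z j i‖) ^ (-(2 * (1 - t))) := by
    rw [← Finset.prod_mul_distrib]
    refine Finset.prod_congr rfl fun j _ => ?_
    rw [FRel_hd (Z j) (hZ j), ← ENNReal.rpow_add _ _
      (ENNReal.ofReal_pos.2 (FRel_N_pos (Z j) (hZ j))).ne' ENNReal.ofReal_ne_top]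
    congr 1
    field_simp
    ring
  rw [h2, h3]
  ring

/-- the sum over the lattice points is at least one -/
private theorem FRel_one_le (F : FanoPolytope n) (m0 : ℕ) (x : Pt n) :
    1 ≤ ∑ b : Sec F m0, ∏ r, (‖x r‖ ^ b.1 r) ^ 2 := by
  have h0 : ∀ v ∈ F.V, -(m0 : ℤ) ≤ ip (0 : Fin n → ℤ) v := by
    intro v _
    simp [ip]
  have h1 : ∏ r, (‖x r‖ ^ (⟨0, h0⟩ : Sec F m0).1 r) ^ 2 = 1 := by
    refine Finset.prod_eq_one fun r _ => ?_
    simp
  calc (1 : ℝ) = ∏ r, (‖x r‖ ^ (⟨0, h0⟩ : Sec F m0).1 r) ^ 2 := h1.symm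
    _ ≤ _ := Finset.single_le_sum (f := fun b : Sec F m0 => ∏ r, (‖x r‖ ^ b.1 r) ^ 2)
        (fun b _ => Finset.prod_nonneg fun r _ => by positivity) (Finset.mem_univ _)

private theorem FRel_le_one {y p : ℝ} (hy : 1 ≤ y) (hp : 0 ≤ p) :
    (ENNReal.ofReal y) ^ (-p) ≤ 1 := by
  rcases hp.eq_or_lt with h | h
  · rw [← h]
    simp
  · exact ENNReal.rpow_le_one_of_one_le_of_neg (ENNReal.one_le_ofReal.2 hy) (by linarith)

private theorem FRel_bdd (z : Pt n) (hz : ∀ i, z i ≠ 0) (L : ℝ)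
    (hL : ∀ i, |Real.log ‖z i‖| ≤ L) (y E : ℝ) (hy : |y| ≤ E) :
    (ENNReal.ofReal ‖∏ i, z i‖) ^ y ≤ ENNReal.ofReal (Real.exp (E * (n * |L|))) := by
  have hN := FRel_N_pos z hz
  rw [ENNReal.ofReal_rpow_of_pos hN]
  apply ENNReal.ofReal_le_ofReal
  rw [Real.rpow_def_of_pos hN]
  apply Real.exp_le_exp.2
  have h1 : |Real.log ‖∏ i, z i‖| ≤ n * |L| := by
    rw [norm_prod, Real.log_prod fun i _ => norm_ne_zero_iff.2 (hz i)]
    refine (Finset.abs_sum_le_sum_abs _ _).trans ?_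
    refine (Finset.sum_le_sum fun i _ => (hL i).trans (le_abs_self L)).trans ?_
    rw [Finset.sum_const, Finset.card_univ, Fintype.card_fin, nsmul_eq_mul]
  calc Real.log ‖∏ i, z i‖ * y ≤ |Real.log ‖∏ i, z i‖ * y| := le_abs_self _
    _ = |y| * |Real.log ‖∏ i, z i‖| := by rw [abs_mul, mul_comm]
    _ ≤ E * (n * |L|) := mul_le_mul hy h1 (abs_nonneg _) ((abs_nonneg y).trans hy)

/-- the family x^(a + k c0) in the torus coordinates: the integrand is bounded on compact sets of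
the torus by the power of the determinant; mixed version: ty j = none means torus coordinates,
ty j = some s means the chart s -/
theorem Gm_mixed_le (F : FanoPolytope n) (k m0 : ℕ) (hk : 1 ≤ k) (hm0 : 1 ≤ m0)
    (hcar : Car F m0) (c0 : ℕ)
    (hc0 : ∀ a : Sec F k, ∀ r, |a.1 r| ≤ c0 * k) (t : ℝ) (ht : 0 ≤ t) (ht1 : t < 1) (L : ℝ)
    (ty : Sec F k → Option (Fin n → Fin n → ℤ)) (hty : ∀ j s, ty j = some s → s ∈ Ch F) :
    ∃ C : ℝ≥0∞, C ≠ ⊤ ∧ ∀ Y : Sec F k → Pt n, (∀ j i, Y j i ≠ 0) →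
      (∀ j, ty j = none → ∀ i, |Real.log ‖Y j i‖| ≤ L) →
      Gm F k m0 t (fun j => phi ((ty j).getD (fun i => Pi.single i 1)) (Y j)) * ∏ j, hd (Y j) ≤
        C * (ENNReal.ofReal ‖(Matrix.of fun j a : Sec F k => ∏ i, Y j i ^
          (match ty j with
            | none => (a.1 i + (k * c0 : ℕ)).toNat
            | some s => ex F k s a i)).det‖) ^ (-(2 * (t / k))) := by
  have hk' : (k : ℝ) ≠ 0 := by
    have : 0 < k := hk
    exact_mod_cast this.ne'
  have hm' : (0 : ℝ) < m0 := by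
    have : 0 < m0 := hm0
    exact_mod_cast this
  set E : ℝ := 2 + 2 * t * c0 with hE
  have hE0 : 0 ≤ E := by positivity
  set C1 : ℝ≥0∞ := ENNReal.ofReal (Real.exp (E * (n * |L|))) with hC1
  have hC1one : 1 ≤ C1 := ENNReal.one_le_ofReal.2 (Real.one_le_exp (by positivity))
  refine ⟨∏ _j : Sec F k, C1, ?_, fun Y hY hYL => ?_⟩
  · rw [Finset.prod_const]
    exact ENNReal.pow_ne_top ENNReal.ofReal_ne_top
  set X : Sec F k → Pt n := fun j => phi ((ty j).getD (fun i => Pi.single i 1)) (Y j) with hX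
  set q : Sec F k → ℕ := fun j => match ty j with
    | none => k * c0
    | some _ => k with hq
  set p : ℝ := -(2 * (t / k)) with hp
  have hN : ∀ j, 0 < ‖∏ i, Y j i‖ := fun j => FRel_N_pos (Y j) (hY j)
  have h1 : (Matrix.of fun j a : Sec F k => ∏ i, Y j i ^
          (match ty j with
            | none => (a.1 i + (k * c0 : ℕ)).toNat
            | some s => ex F k s a i)) =
      Matrix.of fun j a : Sec F k => (∏ i, Y j i) ^ q j *
        (Matrix.of fun j a : Sec F k => ∏ r, X j r ^ a.1 r) j a := by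
    ext j a
    simp only [Matrix.of_apply, hq, hX]
    rcases hj : ty j with _ | s
    · simp only [Option.getD_none, phi_id]
      exact FRel_none k c0 (Y j) (hY j) a.1 (hc0 a)
    · simp only [Option.getD_some]
      exact FRel_ex F k s (hty j s hj) (Y j) (hY j) a
  rw [h1, FRel_det (fun j => (∏ i, Y j i) ^ q j) q p (fun j => ‖∏ i, Y j i‖) hN
    (fun j => norm_pow _ _)]
  unfold Gm
  rw [← hp]
  have hx0 : ∀ j, ENNReal.ofReal ‖∏ i, Y j i‖ ≠ 0 := fun j => (ENNReal.ofReal_pos.2 (hN j)).ne'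
  have ht2 : 0 ≤ (1 - t) / m0 := div_nonneg (by linarith) hm'.le
  have key : ∀ j, (ENNReal.ofReal (∑ b : Sec F m0, ∏ r, (‖X j r‖ ^ b.1 r) ^ 2)) ^
      (-((1 - t) / m0)) * hd (Y j) ≤
      C1 * (ENNReal.ofReal ‖∏ i, Y j i‖) ^ ((q j : ℝ) * p) := by
    intro j
    rcases hj : ty j with _ | s
    · have hqj : (q j : ℝ) * p = -(2 * t * c0) := by
        simp only [hq, hj, hp]
        push_cast
        field_simp
      have h2 : (ENNReal.ofReal (∑ b : Sec F m0, ∏ r, (‖X j r‖ ^ b.1 r) ^ 2)) ^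
          (-((1 - t) / m0)) ≤ 1 := FRel_le_one (FRel_one_le F m0 (X j)) ht2
      have h3 : hd (Y j) ≤ C1 * (ENNReal.ofReal ‖∏ i, Y j i‖) ^ ((q j : ℝ) * p) := by
        rw [FRel_hd (Y j) (hY j), hqj]
        have h4 : (-2 : ℝ) = (-2 + 2 * t * c0) + -(2 * t * c0) := by ring
        rw [h4, ENNReal.rpow_add _ _ (hx0 j) ENNReal.ofReal_ne_top]
        refine mul_le_mul_left ?_ _
        refine FRel_bdd (Y j) (hY j) L (hYL j hj) _ E ?_
        have h5 : 0 ≤ 2 * t * c0 := by positivity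
        rw [abs_le]
        constructor <;> linarith
      calc (ENNReal.ofReal (∑ b : Sec F m0, ∏ r, (‖X j r‖ ^ b.1 r) ^ 2)) ^
          (-((1 - t) / m0)) * hd (Y j) ≤ 1 * hd (Y j) := mul_le_mul_left h2 _
        _ = hd (Y j) := one_mul _
        _ ≤ _ := h3
    · have hqj : (q j : ℝ) * p = -(2 * t) := by
        simp only [hq, hj, hp]
        field_simp
      have hXj : X j = phi s (Y j) := by
        simp only [hX, hj, Option.getD_some]
      have h2 := FRel_factor F m0 hm0 t s (hty j s hj) (Y j) (hY j)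
      have h3 : 1 ≤ Sd (ex F m0 s) (Y j) := by
        obtain ⟨a, ha⟩ := ex_zero F m0 hcar s (hty j s hj)
        unfold Sd
        have h4 : ‖mon (ex F m0 s a) (Y j)‖ ^ 2 = 1 := by
          rw [ha]
          simp [mon]
        rw [← h4]
        exact Finset.single_le_sum (f := fun b => ‖mon (ex F m0 s b) (Y j)‖ ^ 2)
          (fun b _ => by positivity) (Finset.mem_univ a)
      have h5 := FRel_le_one h3 ht2
      rw [h2] at h5
      rw [hXj, FRel_hd (Y j) (hY j), hqj]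
      have h6 : (-2 : ℝ) = -(2 * (1 - t)) + -(2 * t) := by ring
      rw [h6, ENNReal.rpow_add _ _ (hx0 j) ENNReal.ofReal_ne_top, ← mul_assoc]
      refine mul_le_mul_left ?_ _
      rw [mul_comm]
      exact h5.trans hC1one
  calc (ENNReal.ofReal ‖(Matrix.of fun j a : Sec F k => ∏ r, X j r ^ a.1 r).det‖) ^ p *
        (∏ j, (ENNReal.ofReal (∑ b : Sec F m0, ∏ r, (‖X j r‖ ^ b.1 r) ^ 2)) ^
          (-((1 - t) / m0))) * ∏ j, hd (Y j)
      = (ENNReal.ofReal ‖(Matrix.of fun j a : Sec F k => ∏ r, X j r ^ a.1 r).det‖) ^ p *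
        ∏ j, ((ENNReal.ofReal (∑ b : Sec F m0, ∏ r, (‖X j r‖ ^ b.1 r) ^ 2)) ^
          (-((1 - t) / m0)) * hd (Y j)) := by
        rw [mul_assoc, ← Finset.prod_mul_distrib]
    _ ≤ (ENNReal.ofReal ‖(Matrix.of fun j a : Sec F k => ∏ r, X j r ^ a.1 r).det‖) ^ p *
        ∏ j, (C1 * (ENNReal.ofReal ‖∏ i, Y j i‖) ^ ((q j : ℝ) * p)) :=
        mul_le_mul_right (Finset.prod_le_prod' fun j _ => key j) _
    _ = _ := by
        rw [Finset.prod_mul_distrib]
        ring

end GTor
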