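/- piece FF: the integral over the good configurations is finite -/
import Pool.Agent.Lib_MP_e0d435_ag_T.FRel
import Pool.Agent.Lib_MP_e0d435_ag_T.FGd
import Pool.Agent.Lib_MP_e0d435_ag_T.FInst
import Pool.Agent.Lib_MP_e0d435_ag_T.ALocal
import Pool.Agent.Lib_MP_e0d435_ag_T.AAff

open Finset MeasureTheory Complex
open scoped ENNReal ContDiff Real

namespace GTor
open GPn

variable {n : ℕ}

/-! ### cones in logarithmic coordinates -/

/-- coordinates of y with respect to the rays of the chart s -/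
private noncomputable def cof (s : Fin n → Fin n → ℤ) (y : Fin n → ℝ) (i : Fin n) : ℝ :=
  ∑ r, ((Matrix.of fun i r : Fin n => (s i r : ℝ))⁻¹) r i * y r

private theorem cof_eq (s : Fin n → Fin n → ℤ) (hs : LinearIndependent ℝ (fun i => toR (s i)))
    (y c : Fin n → ℝ) (h : ∀ r, y r = ∑ i, (s i r : ℝ) * c i) (i : Fin n) : cof s y i = c i := by
  set M : Matrix (Fin n) (Fin n) ℝ := Matrix.of fun i r : Fin n => (s i r : ℝ) with hM
  have hrow : M.row = fun i => toR (s i) := rfl
  have hu : IsUnit M := by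
    rw [← Matrix.linearIndependent_rows_iff_isUnit, hrow]
    exact hs
  have hdet : IsUnit M.det := (Matrix.isUnit_iff_isUnit_det _).1 hu
  have h1 : Matrix.vecMul c M = y := by
    funext r
    rw [h r, Matrix.vecMul, dotProduct]
    refine Finset.sum_congr rfl fun k _ => ?_
    rw [hM, Matrix.of_apply, mul_comm]
  have h2 : Matrix.vecMul y M⁻¹ = c := by
    rw [← h1, Matrix.vecMul_vecMul, Matrix.mul_nonsing_inv _ hdet, Matrix.vecMul_one]
  have h3 := congrFun h2 i
  rw [Matrix.vecMul, dotProduct] at h3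
  unfold cof
  rw [← h3]
  exact Finset.sum_congr rfl fun r _ => mul_comm _ _

/-- region of a point of type ty in torus coordinates -/
private def regP (L : ℝ) (ty : Option (Fin n → Fin n → ℤ)) : Set (Pt n) :=
  match ty with
  | none => {x | ∀ r, |Real.log ‖x r‖| ≤ L}
  | some s => {x | ∀ i, 0 ≤ cof s (fun r => -Real.log ‖x r‖) i}

private theorem measurableSet_regP (L : ℝ) (ty : Option (Fin n → Fin n → ℤ)) :
    MeasurableSet (regP L ty) := by
  cases ty with
  | none =>
    have h : regP L (none : Option (Fin n → Fin n → ℤ)) =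
        ⋂ r, {x : Pt n | |Real.log ‖x r‖| ≤ L} := by
      ext x
      simp [regP]
    rw [h]
    refine MeasurableSet.iInter fun r => measurableSet_le ?_ measurable_const
    have h1 : Measurable (fun x : Pt n => Real.log ‖x r‖) :=
      Real.measurable_log.comp (measurable_norm.comp (measurable_pi_apply r))
    exact measurable_norm.comp h1
  | some s =>
    have h : regP L (some s) =
        ⋂ i, {x : Pt n | 0 ≤ cof s (fun r => -Real.log ‖x r‖) i} := by
      ext x
      simp [regP]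
    rw [h]
    refine MeasurableSet.iInter fun i => measurableSet_le measurable_const ?_
    unfold cof
    refine Finset.measurable_sum _ fun r _ => ?_
    have h1 : Measurable (fun x : Pt n => Real.log ‖x r‖) :=
      Real.measurable_log.comp (measurable_norm.comp (measurable_pi_apply r))
    exact measurable_const.mul h1.neg

private theorem measurableSet_nz {A : Type} [Fintype A] :
    MeasurableSet {X : A → Pt n | ∀ j i, X j i ≠ 0} := by
  have h : {X : A → Pt n | ∀ j i, X j i ≠ 0} = ⋂ j, ⋂ i, {X : A → Pt n | X j i = 0}ᶜ := by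
    ext X
    simp
  rw [h]
  refine MeasurableSet.iInter fun j => MeasurableSet.iInter fun i => MeasurableSet.compl ?_
  exact measurableSet_eq_fun ((measurable_pi_apply i).comp (measurable_pi_apply j))
    measurable_const

/-- good configurations of a given type -/
private def Reg (F : FanoPolytope n) (k D : ℕ) (L del : ℝ) (e0 : ℕ)
    (ty : Sec F k → Option (Fin n → Fin n → ℤ)) : Set (Sec F k → Pt n) :=
  ({X | ∀ j i, X j i ≠ 0} ∩ GoodM D L del e0) ∩ ⋂ j, {X | X j ∈ regP L (ty j)}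

private theorem measurableSet_Reg (F : FanoPolytope n) (k D : ℕ) (L del : ℝ) (e0 : ℕ)
    (ty : Sec F k → Option (Fin n → Fin n → ℤ)) : MeasurableSet (Reg F k D L del e0 ty) := by
  refine (measurableSet_nz.inter (measurableSet_GoodM D L del e0)).inter ?_
  refine MeasurableSet.iInter fun j => ?_
  exact (measurable_pi_apply j) (measurableSet_regP L (ty j))

private theorem li_id : LinearIndependent ℝ (fun i : Fin n => toR (Pi.single i 1 : Fin n → ℤ)) := by
  have h : (fun i : Fin n => toR (Pi.single i 1 : Fin n → ℤ)) =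
      fun i => (Pi.single i (1 : ℝ) : Fin n → ℝ) := by
    funext i r
    by_cases hr : r = i
    · subst hr
      simp [toR]
    · simp [toR, Pi.single_eq_of_ne hr]
  rw [h]
  exact Pi.linearIndependent_single_one (Fin n) ℝ

/-- the chart or the identity -/
private def chm (ty : Option (Fin n → Fin n → ℤ)) : Fin n → Fin n → ℤ :=
  ty.getD (fun i => Pi.single i 1)

private theorem chm_li (F : FanoPolytope n) (ty : Option (Fin n → Fin n → ℤ))
    (hty : ∀ s, ty = some s → s ∈ Ch F) : LinearIndependent ℝ (fun i => toR (chm ty i)) := by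
  cases ty with
  | none => exact li_id
  | some s => exact (hty s rfl).2.1

/-- the regions in chart coordinates -/
private theorem reg_chart (F : FanoPolytope n) (L : ℝ) (ty : Option (Fin n → Fin n → ℤ))
    (hty : ∀ s, ty = some s → s ∈ Ch F) (y : Pt n) (hy : ∀ i, y i ≠ 0)
    (h : phi (chm ty) y ∈ regP L ty) :
    (ty = none → ∀ i, |Real.log ‖y i‖| ≤ L) ∧ (∀ s, ty = some s → ∀ i, ‖y i‖ ≤ 1) := by
  cases ty with
  | none =>
    refine ⟨fun _ i => ?_, fun s hs => by simp at hs⟩
    have h1 : phi (chm (none : Option (Fin n → Fin n → ℤ))) y = y := phi_id y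
    rw [h1] at h
    exact h i
  | some s =>
    refine ⟨fun hn => by simp at hn, fun s' hs' i => ?_⟩
    have hli := (hty s rfl).2.1
    have h1 : cof s (fun r => -Real.log ‖phi s y r‖) i = -Real.log ‖y i‖ := by
      refine cof_eq s hli _ (fun i => -Real.log ‖y i‖) (fun r => ?_) i
      rw [log_phi s y hy r, ← Finset.sum_neg_distrib]
      exact Finset.sum_congr rfl fun i _ => by ring
    have h2 : 0 ≤ cof s (fun r => -Real.log ‖phi s y r‖) i := h i
    rw [h1] at h2
    have h3 : Real.log ‖y i‖ ≤ 0 := by linarith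
    have h4 : 0 < ‖y i‖ := norm_pos_iff.2 (hy i)
    by_contra hcon
    push Not at hcon
    have := Real.log_pos hcon
    linarith

/-- every good configuration with nonzero coordinates has a type -/
private theorem exists_type (F : FanoPolytope n) (k D : ℕ) (L del : ℝ) (e0 : ℕ)
    (X : Sec F k → Pt n) (hX : ∀ j i, X j i ≠ 0) (hG : X ∈ GoodM D L del e0) :
    ∃ ty : Sec F k → Option (Ch F), {j | (ty j).map Subtype.val ≠ none}.ncard ≤ e0 ∧
      X ∈ Reg F k D L del e0 (fun j => (ty j).map Subtype.val) := by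
  classical
  choose s hs c hc hcs using fun j : Sec F k => cover F (fun r => -Real.log ‖X j r‖)
  let ty : Sec F k → Option (Ch F) := fun j =>
    if ∀ r, |Real.log ‖X j r‖| ≤ L then none else some ⟨s j, hs j⟩
  refine ⟨ty, ?_, ⟨hX, hG⟩, ?_⟩
  · refine le_trans (Set.ncard_le_ncard ?_ (Set.toFinite _)) hG.1
    intro j hj
    simp only [Set.mem_ofPred_eq] at hj ⊢
    by_contra hcon
    push Not at hcon
    apply hj
    simp only [ty]
    rw [if_pos hcon]
    rfl
  · rw [Set.mem_iInter]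
    intro j
    simp only [Set.mem_ofPred_eq]
    by_cases hj : ∀ r, |Real.log ‖X j r‖| ≤ L
    · have h1 : ty j = none := if_pos hj
      rw [h1]
      exact hj
    · have h1 : ty j = some ⟨s j, hs j⟩ := if_neg hj
      rw [h1]
      intro i
      rw [cof_eq (s j) (hs j).2.1 (fun r => -Real.log ‖X j r‖) (c j) (fun r => by
        rw [hcs j r]
        exact Finset.sum_congr rfl fun i _ => mul_comm _ _) i]
      exact hc j i

/-- integral over one type, in the coordinates of the type -/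
private theorem type_finite (hn : 1 ≤ n) (F : FanoPolytope n) (m0 : ℕ) (hm0 : 1 ≤ m0)
    (hcar : Car F m0) (c0 C : ℕ) (hc0 : ∀ (k : ℕ) (a : Sec F k), ∀ r, |a.1 r| ≤ c0 * k)
    (hC0 : 2 * n * c0 ≤ C)
    (hC : ∀ (k : ℕ) (s : Fin n → Fin n → ℤ), s ∈ Ch F → ∀ a : Sec F k, ∑ i, ex F k s a i ≤ C * k)
    (hC1 : 1 ≤ C) (k l' e0 D : ℕ) (hk : Car F k) (hl'c : Car F l') (hl' : 1 ≤ l')
    (h8 : 8 * (C * l') ≤ k) (hD : 1 ≤ D)
    (hlt : n * n.factorial * (C * k) < (D + 1) * (C * l' + 1))
    (hR : 8 * e0 ≤ Fintype.card (Sec F l')) (hRN : 8 * e0 < Fintype.card (Sec F k))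
    (L del t : ℝ) (hdel : 0 < del) (ht : 0 ≤ t) (ht1 : t < 1)
    (ty : Sec F k → Option (Fin n → Fin n → ℤ)) (hty : ∀ j s, ty j = some s → s ∈ Ch F)
    (hne : {j | ty j ≠ none}.ncard ≤ e0) :
    ∫⁻ Y in {Y : Sec F k → Pt n | (∀ j i, Y j i ≠ 0) ∧
        (fun j => phi (chm (ty j)) (Y j)) ∈ Reg F k D L del e0 ty},
      (ENNReal.ofReal ‖(Matrix.of fun j a : Sec F k => ∏ i, Y j i ^
        exTy F k c0 (ty j) a i).det‖) ^ (-(2 * (t / k))) < ⊤ := by
  have hl'k : l' ≤ k := by nlinarith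
  have hk1 : 1 ≤ k := le_trans hl' hl'k
  obtain ⟨Dt, hDph, hDY⟩ := exists_LocData F m0 hm0 hcar c0 C hc0 hC0 hC k l' (8 * e0) (2 * e0)
    hk hl'c hl' hl'k hC1 hR hRN (by omega) L ty hty
  obtain ⟨s1, hs1, hgood⟩ := good_imp hn F c0 C hc0 hC0 k D (C * l') e0 hk1 hD
    (Nat.mul_le_mul_left C hl'k) hlt L del hdel
  have hk0 : (0 : ℝ) < k := by exact_mod_cast hk1
  have hc : 0 ≤ t / k := div_nonneg ht hk0.le
  have hcl : 4 * (t / k) * ((C * l' : ℕ) : ℝ) ≤ 1 / 2 := by
    have h1 : (8 : ℝ) * ((C * l' : ℕ) : ℝ) ≤ k := by exact_mod_cast h8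
    have h2 : (0 : ℝ) ≤ ((C * l' : ℕ) : ℝ) := Nat.cast_nonneg _
    have h3 : 4 * (t / k) * ((C * l' : ℕ) : ℝ) = t / 2 * ((8 * ((C * l' : ℕ) : ℝ)) / k) := by
      field_simp
      ring
    rw [h3]
    have h4 : (8 * ((C * l' : ℕ) : ℝ)) / k ≤ 1 := by
      rw [div_le_one hk0]
      exact h1
    have h5 : 0 ≤ (8 * ((C * l' : ℕ) : ℝ)) / k := by positivity
    nlinarith
  have hfin := local_A Dt s1 hs1 (t / k) hc hcl
  set T : Set (Sec F k → Pt n) := {Y : Sec F k → Pt n | (∀ j i, Y j i ≠ 0) ∧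
        (fun j => phi (chm (ty j)) (Y j)) ∈ Reg F k D L del e0 ty} with hT
  have hTm : MeasurableSet T := by
    have h1 : T = {Y : Sec F k → Pt n | ∀ j i, Y j i ≠ 0} ∩
        (fun Y : Sec F k → Pt n => fun j => phi (chm (ty j)) (Y j)) ⁻¹'
          (Reg F k D L del e0 ty) := rfl
    rw [h1]
    refine measurableSet_nz.inter ?_
    refine (measurable_pi_lambda _ fun j => ?_) (measurableSet_Reg F k D L del e0 ty)
    exact (measurable_phi _).comp (measurable_pi_apply j)
  have hTreg : ∀ Y ∈ T, ∀ j, (ty j = none → ∀ i, |Real.log ‖Y j i‖| ≤ L) ∧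
      (∀ s, ty j = some s → ∀ i, ‖Y j i‖ ≤ 1) := by
    intro Y hY j
    refine reg_chart F L (ty j) (fun s hs => hty j s hs) (Y j) (hY.1 j) ?_
    have h1 := hY.2.2
    rw [Set.mem_iInter] at h1
    exact h1 j
  have hTb : ∀ Y ∈ T, ∀ j i, ‖Y j i‖ ≤ max 1 (Real.exp L) := by
    intro Y hY j i
    obtain ⟨h1, h2⟩ := hTreg Y hY j
    rcases hj : ty j with _ | s
    · have h3 := (abs_le.1 (h1 hj i)).2
      have h4 : 0 < ‖Y j i‖ := norm_pos_iff.2 (hY.1 j i)
      have h5 := (Real.log_le_iff_le_exp h4).1 h3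
      exact h5.trans (le_max_right _ _)
    · exact (h2 s hj i).trans (le_max_left _ _)
  have haff := aff_of_cone n (C * k) (fun j a => toEx (C * k) (exTy F k c0 (ty j) a)) (t / k) hc
    (max 1 (Real.exp L)) T hTm hTb (GdL Dt s1) (by
      intro X hAnn hX0 hXT
      have hreg := hTreg _ hXT
      refine ⟨?_, ?_⟩
      · intro j
        rw [hDY]
        refine ⟨hAnn j, ?_⟩
        obtain ⟨h1, h2⟩ := hreg j
        have hX0' : 0 < ‖X j 0‖ := norm_pos_iff.2 (hX0 j)
        rcases hj : ty j with _ | s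
        · intro i
          have h3 := h1 hj i
          have hne' : X j i.succ / X j 0 ≠ 0 := hXT.1 j i
          have hpos : 0 < ‖X j i.succ / X j 0‖ := norm_pos_iff.2 hne'
          obtain ⟨h4, h5⟩ := abs_le.1 h3
          have h6 := (Real.log_le_iff_le_exp hpos).1 h5
          have h7 := (Real.le_log_iff_exp_le hpos).1 h4
          rw [norm_div] at h6 h7
          rw [div_le_iff₀ hX0'] at h6
          rw [le_div_iff₀ hX0'] at h7
          exact ⟨h7, h6⟩
        · intro i
          have h3 := h2 s hj i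
          change ‖X j i.succ / X j 0‖ ≤ 1 at h3
          rw [norm_div, div_le_one hX0'] at h3
          exact h3
      · intro G hG
        rw [hDph]
        refine hgood ty X (fun j => phi (chm (ty j)) (fun i => X j i.succ / X j 0))
          hXT.2.1.2 hne ?_ G hG
        intro j hj
        have h1 := (hreg j).1 hj
        have h2 : phi (chm (ty j)) (fun i : Fin n => X j i.succ / X j 0) =
            fun i : Fin n => X j i.succ / X j 0 := by
          rw [hj]
          exact phi_id _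
        refine ⟨hX0 j, hAnn j, fun r => ?_, fun r => ?_⟩
        · rw [h2]
        · rw [h2]
          exact h1 r)
    (by rw [hDph] at hfin; exact hfin)
  refine lt_of_le_of_lt (le_of_eq ?_) haff
  refine lintegral_congr fun Y => ?_
  congr 2
  unfold DA
  congr 2
  ext j a
  simp only [Matrix.of_apply]
  rw [dm_toEx]
  cases hj : ty j with
  | none =>
    have h1 : ∀ i, exTy F k c0 (none : Option (Fin n → Fin n → ℤ)) a i ≤ 2 * (c0 * k) := by
      intro i
      have h2 := hc0 k a i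
      simp only [exTy]
      rw [Int.toNat_le]
      have h3 := (abs_le.1 h2).2
      push_cast
      nlinarith
    calc ∑ i, exTy F k c0 (none : Option (Fin n → Fin n → ℤ)) a i
        ≤ ∑ _i : Fin n, 2 * (c0 * k) := Finset.sum_le_sum fun i _ => h1 i
      _ = 2 * n * c0 * k := by
          rw [Finset.sum_const, Finset.card_univ, Fintype.card_fin, smul_eq_mul]
          ring
      _ ≤ C * k := Nat.mul_le_mul_right k hC0
  | some s => exact hC k s (hty j s hj) a

/-- integral over one type, in master coordinates -/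
private theorem reg_finite (hn : 1 ≤ n) (F : FanoPolytope n) (m0 : ℕ) (hm0 : 1 ≤ m0)
    (hcar : Car F m0) (c0 C : ℕ) (hc0 : ∀ (k : ℕ) (a : Sec F k), ∀ r, |a.1 r| ≤ c0 * k)
    (hC0 : 2 * n * c0 ≤ C)
    (hC : ∀ (k : ℕ) (s : Fin n → Fin n → ℤ), s ∈ Ch F → ∀ a : Sec F k, ∑ i, ex F k s a i ≤ C * k)
    (hC1 : 1 ≤ C) (k l' e0 D : ℕ) (hk : Car F k) (hl'c : Car F l') (hl' : 1 ≤ l')
    (h8 : 8 * (C * l') ≤ k) (hD : 1 ≤ D)
    (hlt : n * n.factorial * (C * k) < (D + 1) * (C * l' + 1))
    (hR : 8 * e0 ≤ Fintype.card (Sec F l')) (hRN : 8 * e0 < Fintype.card (Sec F k))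
    (L del t : ℝ) (hdel : 0 < del) (ht : 0 ≤ t) (ht1 : t < 1)
    (ty : Sec F k → Option (Fin n → Fin n → ℤ)) (hty : ∀ j s, ty j = some s → s ∈ Ch F)
    (hne : {j | ty j ≠ none}.ncard ≤ e0) :
    ∫⁻ X : Sec F k → Pt n, (Reg F k D L del e0 ty).indicator (Gm F k m0 t) X * ∏ j, hd (X j)
      < ⊤ := by
  have hl'k : l' ≤ k := by nlinarith
  have hk1 : 1 ≤ k := le_trans hl' hl'k
  obtain ⟨c, hc1, hc2, hcv⟩ := phi_lintegral_pi (fun j : Sec F k => chm (ty j))
    (fun j => chm_li F (ty j) (fun s hs => hty j s hs))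
  obtain ⟨K, hK, hKle⟩ := Gm_mixed_le F k m0 hk1 hm0 hcar c0 (fun a r => hc0 k a r) t ht ht1 L ty
    hty
  have hfin := type_finite hn F m0 hm0 hcar c0 C hc0 hC0 hC hC1 k l' e0 D hk hl'c hl' h8 hD hlt
    hR hRN L del t hdel ht ht1 ty hty hne
  have hG : Measurable ((Reg F k D L del e0 ty).indicator (Gm F k m0 t)) :=
    (measurable_Gm F k m0 t).indicator (measurableSet_Reg F k D L del e0 ty)
  have h1 := hcv _ hG
  have h2 : ∫⁻ Z : Sec F k → Pt n, (Reg F k D L del e0 ty).indicator (Gm F k m0 t)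
      (fun j => phi (chm (ty j)) (Z j)) * ∏ j, hd (Z j) < ⊤ := by
    set T : Set (Sec F k → Pt n) := {Y : Sec F k → Pt n | (∀ j i, Y j i ≠ 0) ∧
        (fun j => phi (chm (ty j)) (Y j)) ∈ Reg F k D L del e0 ty} with hT
    have hTm : MeasurableSet T := by
      have h1 : T = {Y : Sec F k → Pt n | ∀ j i, Y j i ≠ 0} ∩
          (fun Y : Sec F k → Pt n => fun j => phi (chm (ty j)) (Y j)) ⁻¹'
            (Reg F k D L del e0 ty) := rfl
      rw [h1]
      refine measurableSet_nz.inter ?_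
      refine (measurable_pi_lambda _ fun j => ?_) (measurableSet_Reg F k D L del e0 ty)
      exact (measurable_phi _).comp (measurable_pi_apply j)
    have h3 : ∫⁻ Z : Sec F k → Pt n, (Reg F k D L del e0 ty).indicator (Gm F k m0 t)
        (fun j => phi (chm (ty j)) (Z j)) * ∏ j, hd (Z j) ≤
        ∫⁻ Y in T, K * (ENNReal.ofReal ‖(Matrix.of fun j a : Sec F k => ∏ i, Y j i ^
        exTy F k c0 (ty j) a i).det‖) ^ (-(2 * (t / k))) := by
      rw [← lintegral_indicator hTm]
      refine lintegral_mono fun Y => ?_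
      by_cases hY : Y ∈ T
      · rw [Set.indicator_of_mem hY, Set.indicator_of_mem hY.2]
        have hreg := hY.2.2
        rw [Set.mem_iInter] at hreg
        refine (hKle Y hY.1 (fun j hj => (reg_chart F L (ty j) (fun s hs => hty j s hs) (Y j)
          (hY.1 j) (hreg j)).1 hj)).trans (le_of_eq ?_)
        congr 6
      · rw [Set.indicator_of_notMem hY]
        refine le_of_eq ?_
        by_cases hnz : ∀ j i, Y j i ≠ 0
        · have h4 : (fun j => phi (chm (ty j)) (Y j)) ∉ Reg F k D L del e0 ty := fun h =>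
            hY ⟨hnz, h⟩
          rw [Set.indicator_of_notMem h4, zero_mul]
        · push Not at hnz
          obtain ⟨j, i, hji⟩ := hnz
          have h4 : hd (Y j) = 0 := by
            unfold hd
            refine Finset.prod_eq_zero (Finset.mem_univ i) ?_
            rw [hji, norm_zero, zero_zpow _ (by norm_num), ENNReal.ofReal_zero]
          rw [Finset.prod_eq_zero (Finset.mem_univ j) h4, mul_zero]
    refine lt_of_le_of_lt h3 ?_
    rw [lintegral_const_mul' _ _ hK]
    exact ENNReal.mul_lt_top (lt_top_iff_ne_top.2 hK) hfin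
  rw [h1] at h2
  by_contra hcon
  have h3 : ∫⁻ X : Sec F k → Pt n, (Reg F k D L del e0 ty).indicator (Gm F k m0 t) X *
      ∏ j, hd (X j) = ⊤ := by
    simpa using hcon
  rw [h3, ENNReal.mul_top hc1] at h2
  exact absurd h2 (lt_irrefl _)

/-- master coordinates -/
theorem goodM_finite (hn : 1 ≤ n) (F : FanoPolytope n) (m0 : ℕ) (hm0 : 1 ≤ m0)
    (hcar : Car F m0) : ∃ D E k1 : ℕ, 1 ≤ D ∧ 1 ≤ E ∧ ∀ k : ℕ, k1 ≤ k → Car F k →
      ∀ L del t : ℝ, 0 < del → 0 ≤ t → t < 1 →
      ∫⁻ X in GoodM (A := Sec F k) (n := n) D L del (Fintype.card (Sec F k) / E),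
        Gm F k m0 t X * ∏ j, hd (X j) < ⊤ := by
  classical
  obtain ⟨c0, hc0'⟩ := Sec_bdd F
  obtain ⟨C1, hC1'⟩ := ex_bdd F
  set C := max (2 * n * c0) (max C1 1) with hCdef
  have hC0 : 2 * n * c0 ≤ C := le_max_left _ _
  have hC1 : 1 ≤ C := (le_max_right C1 1).trans (le_max_right _ _)
  have hCC : C1 ≤ C := (le_max_left C1 1).trans (le_max_right _ _)
  have hc0 : ∀ (k : ℕ) (a : Sec F k), ∀ r, |a.1 r| ≤ c0 * k := fun k a r => hc0' k a.1 a.2 r
  have hC : ∀ (k : ℕ) (s : Fin n → Fin n → ℤ), s ∈ Ch F → ∀ a : Sec F k,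
      ∑ i, ex F k s a i ≤ C * k := fun k s hs a =>
    (hC1' k s hs a).trans (Nat.mul_le_mul_right k hCC)
  obtain ⟨M, D, E, k1, hM, hD, hE, hconst⟩ := consts hn F m0 C hm0 hC1
  refine ⟨D, E, k1, hD, hE, ?_⟩
  intro k hk1 hk L del t hdel ht ht1
  obtain ⟨hl', h8, hlt, hR, hRN⟩ := hconst k hk1
  set e0 := Fintype.card (Sec F k) / E with he0
  have hl'c : Car F (m0 * (k / M)) := Car_mul F m0 (k / M) hcar
  have : Finite (Ch F) := (Ch_finite F).to_subtype
  have : Fintype (Ch F) := Fintype.ofFinite _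
  have hpt : ∀ X : Sec F k → Pt n,
      (GoodM (A := Sec F k) (n := n) D L del e0).indicator
        (fun X => Gm F k m0 t X * ∏ j, hd (X j)) X ≤
      ∑ ty ∈ Finset.univ.filter (fun ty : Sec F k → Option (Ch F) =>
          {j | (ty j).map Subtype.val ≠ none}.ncard ≤ e0),
        (Reg F k D L del e0 (fun j => (ty j).map Subtype.val)).indicator (Gm F k m0 t) X *
          ∏ j, hd (X j) := by
    intro X
    by_cases hX : X ∈ GoodM (A := Sec F k) (n := n) D L del e0
    · rw [Set.indicator_of_mem hX]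
      by_cases hnz : ∀ j i, X j i ≠ 0
      · obtain ⟨ty, hty1, hty2⟩ := exists_type F k D L del e0 X hnz hX
        have hmem : ty ∈ Finset.univ.filter (fun ty : Sec F k → Option (Ch F) =>
            {j | (ty j).map Subtype.val ≠ none}.ncard ≤ e0) :=
          Finset.mem_filter.2 ⟨Finset.mem_univ _, hty1⟩
        refine le_trans (le_of_eq ?_) (Finset.single_le_sum
          (f := fun ty : Sec F k → Option (Ch F) =>
            (Reg F k D L del e0 (fun j => (ty j).map Subtype.val)).indicator (Gm F k m0 t) X *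
              ∏ j, hd (X j)) (fun _ _ => zero_le) hmem)
        rw [Set.indicator_of_mem hty2]
      · push Not at hnz
        obtain ⟨j, i, hji⟩ := hnz
        have h4 : hd (X j) = 0 := by
          unfold hd
          refine Finset.prod_eq_zero (Finset.mem_univ i) ?_
          rw [hji, norm_zero, zero_zpow _ (by norm_num), ENNReal.ofReal_zero]
        rw [Finset.prod_eq_zero (Finset.mem_univ j) h4, mul_zero]
        exact zero_le
    · rw [Set.indicator_of_notMem hX]
      exact zero_le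
  rw [← lintegral_indicator (measurableSet_GoodM D L del e0)]
  refine lt_of_le_of_lt (lintegral_mono hpt) ?_
  rw [lintegral_finsetSum]
  · refine ENNReal.sum_lt_top.2 fun ty hty => ?_
    rw [Finset.mem_filter] at hty
    refine reg_finite hn F m0 hm0 hcar c0 C hc0 hC0 hC hC1 k (m0 * (k / M)) e0 D hk hl'c hl' h8 hD
      hlt hR hRN L del t hdel ht ht1 (fun j => (ty j).map Subtype.val) ?_ hty.2
    intro j s hs
    rcases h : ty j with _ | s'
    · rw [h] at hs
      simp at hs
    · rw [h] at hs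
      simp only [Option.map_some, Option.some.injEq] at hs
      rw [← hs]
      exact s'.2
  · intro ty _
    refine Measurable.mul ?_ ?_
    · exact (measurable_Gm F k m0 t).indicator (measurableSet_Reg F k D L del e0 _)
    · exact Finset.measurable_prod _ fun j _ => measurable_hd.comp (measurable_pi_apply j)

/-! ### bad configurations -/

private theorem mon_sel (F : FanoPolytope n) (m0 : ℕ)
    (h : ∀ r : Fin n, ∀ v ∈ F.V, -(m0 : ℤ) ≤ ip (Pi.single r 1) v)
    (s0 : Fin n → Fin n → ℤ) (hs0 : s0 ∈ Ch F) (z : Pt n) (hz : ∀ i, z i ≠ 0) :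
    (fun i => mon (ex F m0 s0 (selF F m0 h i)) z) =
      (∏ i, z i ^ m0) • (Fin.cons 1 (phi s0 z) : Pt (n + 1)) := by
  have hip : ∀ (r : Fin n) (v : Fin n → ℤ), ip (Pi.single r 1) v = v r := by
    intro r v
    unfold ip
    rw [Finset.sum_eq_single r]
    · rw [Pi.single_eq_same, one_mul]
    · intro j _ hj
      rw [Pi.single_eq_of_ne hj, zero_mul]
    · intro hr
      exact absurd (Finset.mem_univ r) hr
  funext i
  refine Fin.cases ?_ (fun r => ?_) i
  · simp only [Pi.smul_apply, Fin.cons_zero, smul_eq_mul, mul_one, mon]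
    refine Finset.prod_congr rfl fun i _ => ?_
    congr 1
    simp [ex, selF, ip]
  · simp only [Pi.smul_apply, Fin.cons_succ, smul_eq_mul, mon, phi]
    rw [← Finset.prod_mul_distrib]
    refine Finset.prod_congr rfl fun i _ => ?_
    have h1 : (ex F m0 s0 (selF F m0 h r.succ) i : ℤ) = s0 i r + m0 := by
      rw [ex_cast F m0 s0 hs0]
      have h2 : (selF F m0 h r.succ).1 = Pi.single r 1 := rfl
      rw [h2, hip]
    rw [← zpow_natCast, h1, zpow_add₀ (hz i), zpow_natCast, mul_comm]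

/-- bad configurations in the chart s0 and in master coordinates -/
theorem bad_compl_sub (F : FanoPolytope n) (m0 : ℕ) (hm0 : 1 ≤ m0)
    (h : ∀ r : Fin n, ∀ v ∈ F.V, -(m0 : ℤ) ≤ ip (Pi.single r 1) v)
    (s0 : Fin n → Fin n → ℤ) (hs0 : s0 ∈ Ch F) (D : ℕ) (L del : ℝ) (hL : 0 < L)
    (hdel : 0 < del) : ∃ L' : ℝ, ∀ {A : Type} [Fintype A] [DecidableEq A] (e0 : ℕ)
      (Z : A → Pt n), (∀ j i, Z j i ≠ 0) →
      Z ∉ BadT (ex F m0 s0) (selF F m0 h) D L del e0 →
      (fun j => phi s0 (Z j)) ∈ GoodM (A := A) D L' del e0 := by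
  classical
  refine ⟨(∑ r, ∑ i, |(s0 i r : ℝ)|) * L, ?_⟩
  intro A _ _ e0 Z hZ hbad
  have hnb : ¬ ((∃ g : V (n + 1) D, ‖g‖ = 1 ∧
      e0 < cntT (ex F m0 s0) (selF F m0 h) g del Z) ∨ e0 < cntF L Z) := hbad
  push Not at hnb
  obtain ⟨h1, h2⟩ := hnb
  refine ⟨?_, ?_⟩
  · refine le_trans ?_ h2
    unfold cntF
    rw [← Set.ncard_coe_finset]
    refine Set.ncard_le_ncard ?_ (Finset.finite_toSet _)
    rintro j ⟨r, hr⟩
    rw [Finset.mem_coe, Finset.mem_filter]
    refine ⟨Finset.mem_univ _, ?_⟩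
    by_contra hcon
    push Not at hcon
    rw [log_phi s0 (Z j) (hZ j) r] at hr
    have h3 : |∑ i, (s0 i r : ℝ) * Real.log ‖Z j i‖| ≤ (∑ i, |(s0 i r : ℝ)|) * L := by
      refine (Finset.abs_sum_le_sum_abs _ _).trans ?_
      rw [Finset.sum_mul]
      refine Finset.sum_le_sum fun i _ => ?_
      rw [abs_mul]
      exact mul_le_mul_of_nonneg_left (hcon i) (abs_nonneg _)
    have h4 : (∑ i, |(s0 i r : ℝ)|) ≤ ∑ r, ∑ i, |(s0 i r : ℝ)| :=
      Finset.single_le_sum (f := fun r => ∑ i, |(s0 i r : ℝ)|)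
        (fun r _ => Finset.sum_nonneg fun i _ => abs_nonneg _) (Finset.mem_univ r)
    have h5 := mul_le_mul_of_nonneg_right h4 hL.le
    linarith
  · intro g hg
    refine le_trans ?_ (h1 g hg)
    unfold cntT
    rw [← Set.ncard_coe_finset]
    refine Set.ncard_le_ncard ?_ (Finset.finite_toSet _)
    rintro j ⟨-, hj⟩
    rw [Finset.mem_coe, Finset.mem_filter]
    refine ⟨Finset.mem_univ _, ?_⟩
    set q : ℂ := ∏ i, Z j i ^ m0 with hq
    have hq0 : q ≠ 0 := Finset.prod_ne_zero_iff.2 fun i _ => pow_ne_zero _ (hZ j i)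
    have hqn : 0 < ‖q‖ := norm_pos_iff.2 hq0
    rw [mon_sel F m0 h s0 hs0 (Z j) (hZ j), ← hq, pd_smul, norm_mul, norm_pow]
    set y : Pt (n + 1) := Fin.cons 1 (phi s0 (Z j)) with hy
    have hSd : ‖q‖ ^ 2 * nsq y ≤ Sd (ex F m0 s0) (Z j) := by
      have h3 : ‖q‖ ^ 2 * nsq y = ∑ i, ‖mon (ex F m0 s0 (selF F m0 h i)) (Z j)‖ ^ 2 := by
        unfold nsq
        rw [Finset.mul_sum]
        refine Finset.sum_congr rfl fun i _ => ?_
        have h4 := congrFun (mon_sel F m0 h s0 hs0 (Z j) (hZ j)) i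
        rw [h4, Pi.smul_apply, smul_eq_mul, norm_mul, mul_pow]
      rw [h3]
      unfold Sd
      rw [← Finset.sum_image (s := Finset.univ) (g := selF F m0 h)
        (f := fun b => ‖mon (ex F m0 s0 b) (Z j)‖ ^ 2)
        (fun a _ b _ hab => selF_injective F m0 h hab)]
      exact Finset.sum_le_sum_of_subset_of_nonneg (Finset.subset_univ _)
        (fun _ _ _ => by positivity)
    have hpow : (‖q‖ ^ 2 * nsq y) ^ D ≤ Sd (ex F m0 s0) (Z j) ^ D :=
      pow_le_pow_left₀ (mul_nonneg (by positivity) (nsq_nonneg y)) hSd D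
    have h5 : (‖q‖ ^ D * ‖pd g 0 y‖) ^ 2 < del ^ 2 * (‖q‖ ^ 2 * nsq y) ^ D := by
      have h6 : ‖pd g 0 y‖ ^ 2 < (del * enm y ^ D) ^ 2 :=
        pow_lt_pow_left₀ hj (norm_nonneg _) (by norm_num)
      have h7 : (del * enm y ^ D) ^ 2 = del ^ 2 * nsq y ^ D := by
        rw [mul_pow, ← pow_mul, mul_comm D 2, pow_mul, enm_sq]
      rw [h7] at h6
      have h8 : (‖q‖ ^ D * ‖pd g 0 y‖) ^ 2 = ‖q‖ ^ (2 * D) * ‖pd g 0 y‖ ^ 2 := by
        rw [mul_pow, ← pow_mul, mul_comm D 2]
      have h9 : del ^ 2 * (‖q‖ ^ 2 * nsq y) ^ D = ‖q‖ ^ (2 * D) * (del ^ 2 * nsq y ^ D) := by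
        rw [mul_pow, ← pow_mul]
        ring
      rw [h8, h9]
      exact mul_lt_mul_of_pos_left h6 (pow_pos hqn _)
    exact lt_of_lt_of_le h5 (mul_le_mul_of_nonneg_left hpow (by positivity))

end GTor
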