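/- piece TP: the weight: smoothness, symmetries, Levi form -/
import Pool.Agent.Lib_MP_e0d435_ag_T.TDefs
import Pool.Agent.Lib_MP_e0d435_ag.Levi

open Finset MeasureTheory Complex
open scoped ENNReal ContDiff Real

namespace GTor
open GPn

section TPshAux

variable {E : Type*} [NormedAddCommGroup E] [NormedSpace ℂ E]

private theorem TPsh_real {F : E → ℂ} (hF : ContDiff ℂ ∞ F) : ContDiff ℝ ∞ F :=
  hF.restrict_scalars ℝ

private theorem TPsh_D {f : E → ℝ} (hf : ContDiff ℝ ∞ f) (v : E) :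
    ContDiff ℝ ∞ (fun y => fderiv ℝ f y v) :=
  (hf.fderiv_right (m := ∞) (by simp)).clm_apply contDiff_const

private theorem TPsh_add {f g : E → ℝ} (hf : ContDiff ℝ ∞ f) (hg : ContDiff ℝ ∞ g) (x a : E) :
    Lform (fun y => f y + g y) x a = Lform f x a + Lform g x a := by
  have h : ∀ v, fderiv ℝ (fun y => fderiv ℝ (fun y => f y + g y) y v) x v =
      fderiv ℝ (fun y => fderiv ℝ f y v) x v + fderiv ℝ (fun y => fderiv ℝ g y v) x v := by
    intro v
    have h1 : (fun y => fderiv ℝ (fun y => f y + g y) y v) =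
        fun y => fderiv ℝ f y v + fderiv ℝ g y v := by
      funext y
      rw [fderiv_fun_add (hf.differentiable (by simp)).differentiableAt
        (hg.differentiable (by simp)).differentiableAt, _root_.add_apply]
    rw [h1, fderiv_fun_add ((TPsh_D hf v).differentiable (by simp)).differentiableAt
        ((TPsh_D hg v).differentiable (by simp)).differentiableAt, _root_.add_apply]
  simp only [Lform, h]
  ring

private theorem TPsh_mul {f : E → ℝ} (hf : ContDiff ℝ ∞ f) (c : ℝ) (x a : E) :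
    Lform (fun y => c * f y) x a = c * Lform f x a := by
  have h : ∀ v, fderiv ℝ (fun y => fderiv ℝ (fun y => c * f y) y v) x v =
      c * fderiv ℝ (fun y => fderiv ℝ f y v) x v := by
    intro v
    have h1 : (fun y => fderiv ℝ (fun y => c * f y) y v) =
        fun y => c * fderiv ℝ f y v := by
      funext y
      rw [fderiv_const_mul (hf.differentiable (by simp)).differentiableAt, _root_.smul_apply,
        smul_eq_mul]
    rw [h1, fderiv_const_mul ((TPsh_D hf v).differentiable (by simp)).differentiableAt,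
      _root_.smul_apply, smul_eq_mul]
  simp only [Lform, h]
  ring

private theorem TPsh_zero (x a : E) : Lform (fun _ : E => (0 : ℝ)) x a = 0 := by
  simp [Lform]

private theorem TPsh_sum {ι : Type*} (s : Finset ι) (f : ι → E → ℝ)
    (hf : ∀ i, ContDiff ℝ ∞ (f i)) (x a : E) :
    Lform (fun y => ∑ i ∈ s, f i y) x a = ∑ i ∈ s, Lform (f i) x a := by
  classical
  induction s using Finset.induction_on with
  | empty => simpa using TPsh_zero x a
  | insert i s his ih =>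
    simp only [Finset.sum_insert his]
    rw [TPsh_add (hf i) (ContDiff.sum fun j _ => hf j), ih]

private theorem TPsh_cs {ι : Type*} [Fintype ι] (x b : ι → ℂ) :
    ‖∑ r, (starRingEnd ℂ) (x r) * b r‖ ^ 2 ≤ (∑ r, ‖x r‖ ^ 2) * ∑ r, ‖b r‖ ^ 2 := by
  have h1 : ‖∑ r, (starRingEnd ℂ) (x r) * b r‖ ≤ ∑ r, ‖x r‖ * ‖b r‖ := by
    refine (norm_sum_le _ _).trans (le_of_eq ?_)
    refine Finset.sum_congr rfl fun r _ => ?_
    rw [norm_mul, RCLike.norm_conj]
  calc ‖∑ r, (starRingEnd ℂ) (x r) * b r‖ ^ 2 ≤ (∑ r, ‖x r‖ * ‖b r‖) ^ 2 :=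
        pow_le_pow_left₀ (norm_nonneg _) h1 2
    _ ≤ (∑ r, ‖x r‖ ^ 2) * ∑ r, ‖b r‖ ^ 2 := Finset.sum_mul_sq_le_sq_mul_sq _ _ _

/-- Levi form of the logarithm of a sum of squares, one of them constant -/
private theorem TPsh_log {ι : Type*} [Fintype ι]
    (F : ι → E → ℂ) (hF : ∀ i, ContDiff ℂ ∞ (F i)) (i0 : ι) (c : ℂ) (hc : c ≠ 0)
    (h0 : ∀ y, F i0 y = c) (x a : E) :
    Lform (fun y => Real.log (∑ i, ‖F i y‖ ^ 2)) x a =
      ((∑ i, ‖F i x‖ ^ 2) * (∑ i, ‖fderiv ℂ (F i) x a‖ ^ 2)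
        - ‖∑ i, (starRingEnd ℂ) (F i x) * fderiv ℂ (F i) x a‖ ^ 2)
        / (∑ i, ‖F i x‖ ^ 2) ^ 2 := by
  classical
  have hd : fderiv ℂ (F i0) x a = 0 := by
    have : F i0 = fun _ => c := funext h0
    rw [this]
    simp
  have e1 : ∀ y, ∑ i, ‖F i y‖ ^ 2 = (∑ i : {i // i ≠ i0}, ‖F i.1 y‖ ^ 2) + ‖c‖ ^ 2 := by
    intro y
    rw [Fintype.sum_eq_add_sum_subtype_ne (fun i => ‖F i y‖ ^ 2) i0, h0 y, add_comm]
  have e2 : ∑ i, ‖fderiv ℂ (F i) x a‖ ^ 2 = ∑ i : {i // i ≠ i0}, ‖fderiv ℂ (F i.1) x a‖ ^ 2 := by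
    rw [Fintype.sum_eq_add_sum_subtype_ne (fun i => ‖fderiv ℂ (F i) x a‖ ^ 2) i0, hd]
    simp
  have e3 : ∑ i, (starRingEnd ℂ) (F i x) * fderiv ℂ (F i) x a =
      ∑ i : {i // i ≠ i0}, (starRingEnd ℂ) (F i.1 x) * fderiv ℂ (F i.1) x a := by
    rw [Fintype.sum_eq_add_sum_subtype_ne
      (fun i => (starRingEnd ℂ) (F i x) * fderiv ℂ (F i) x a) i0, hd]
    simp
  simp only [e1, e2, e3]
  exact Lform_log (fun i : {i // i ≠ i0} => F i.1) (fun i => hF i.1) (‖c‖ ^ 2)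
    (by positivity) x a

private theorem TPsh_log_nonneg {ι : Type*} [Fintype ι]
    (F : ι → E → ℂ) (hF : ∀ i, ContDiff ℂ ∞ (F i)) (i0 : ι) (c : ℂ) (hc : c ≠ 0)
    (h0 : ∀ y, F i0 y = c) (x a : E) :
    0 ≤ Lform (fun y => Real.log (∑ i, ‖F i y‖ ^ 2)) x a := by
  rw [TPsh_log F hF i0 c hc h0]
  refine div_nonneg ?_ (by positivity)
  have := TPsh_cs (fun i => F i x) (fun i => fderiv ℂ (F i) x a)
  linarith

omit [NormedAddCommGroup E] [NormedSpace ℂ E] in
private theorem TPsh_pos {ι : Type*} [Fintype ι]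
    (F : ι → E → ℂ) (i0 : ι) (c : ℂ) (hc : c ≠ 0)
    (h0 : ∀ y, F i0 y = c) (y : E) : 0 < ∑ i, ‖F i y‖ ^ 2 := by
  have h1 : ‖F i0 y‖ ^ 2 ≤ ∑ i, ‖F i y‖ ^ 2 :=
    Finset.single_le_sum (f := fun i => ‖F i y‖ ^ 2) (fun i _ => by positivity)
      (Finset.mem_univ i0)
  rw [h0] at h1
  have h2 : 0 < ‖c‖ ^ 2 := by positivity
  linarith

private theorem TPsh_log_smooth {ι : Type*} [Fintype ι]
    (F : ι → E → ℂ) (hF : ∀ i, ContDiff ℂ ∞ (F i)) (i0 : ι) (c : ℂ) (hc : c ≠ 0)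
    (h0 : ∀ y, F i0 y = c) : ContDiff ℝ ∞ (fun y => Real.log (∑ i, ‖F i y‖ ^ 2)) := by
  have h : ContDiff ℝ ∞ (fun y => ∑ i, ‖F i y‖ ^ 2) :=
    ContDiff.sum fun i _ => (TPsh_real (hF i)).norm_sq ℝ
  exact h.log fun y => (TPsh_pos F i0 c hc h0 y).ne'

end TPshAux

variable {n : ℕ} {A B : Type} [Fintype A] [DecidableEq A] [Fintype B]

private theorem TPsh_mon_zero (z : Pt n) : mon (0 : Fin n → ℕ) z = 1 := by
  simp [mon]

private theorem TPsh_mon (e : Fin n → ℕ) : ContDiff ℂ ∞ (fun z : Pt n => mon e z) := by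
  unfold mon
  refine contDiff_prod fun i _ => ?_
  exact (contDiff_apply ℂ ℂ i).pow _

private theorem TPsh_sc (lam : Fin n → ℝ) : ContDiff ℂ ∞ (fun z : Pt n => sc lam z) := by
  unfold sc
  refine contDiff_pi' fun i => ?_
  exact contDiff_const.mul (contDiff_apply ℂ ℂ i)

private theorem TPsh_monsc (e : Fin n → ℕ) (lam : Fin n → ℝ) :
    ContDiff ℂ ∞ (fun z : Pt n => mon e (sc lam z)) :=
  (TPsh_mon e).comp (TPsh_sc lam)

private theorem TPsh_mon_rt (e : Fin n → ℕ) (th : Fin n → ℝ) (z : Pt n) :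
    mon e (rt th z) = Complex.exp ((∑ i, (e i : ℝ) * th i : ℝ) * I) * mon e z := by
  unfold mon rt
  simp only [mul_pow, Finset.prod_mul_distrib]
  congr 1
  simp only [← Complex.exp_nat_mul]
  rw [← Complex.exp_sum]
  congr 1
  push_cast
  rw [Finset.sum_mul]
  refine Finset.sum_congr rfl fun i _ => ?_
  ring

private theorem TPsh_norm_mon_rt (e : Fin n → ℕ) (th : Fin n → ℝ) (z : Pt n) :
    ‖mon e (rt th z)‖ = ‖mon e z‖ := by
  rw [TPsh_mon_rt, norm_mul, Complex.norm_exp_ofReal_mul_I, one_mul]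

private theorem TPsh_sc_rt (lam th : Fin n → ℝ) (z : Pt n) :
    sc lam (rt th z) = rt th (sc lam z) := by
  funext i
  simp only [sc, rt]
  ring

theorem Sd_one_le (d : B → Fin n → ℕ) (h0 : ∃ b, d b = 0) (z : Pt n) : 1 ≤ Sd d z := by
  obtain ⟨b, hb⟩ := h0
  have h1 : ‖mon (d b) z‖ ^ 2 ≤ ∑ b, ‖mon (d b) z‖ ^ 2 :=
    Finset.single_le_sum (f := fun b => ‖mon (d b) z‖ ^ 2) (fun i _ => by positivity)
      (Finset.mem_univ b)
  rw [hb, TPsh_mon_zero] at h1
  simpa [Sd] using h1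

theorem Hh_pos (e : A → Fin n → ℕ) (h0 : ∃ a, e a = 0) (ep ep' : ℝ) (hep : 0 ≤ ep)
    (hep' : 0 < ep') (Z : A → Pt n) : 0 < Hh e ep ep' Z := by
  unfold Hh
  have h1 : 0 ≤ Pm e Z := Finset.sum_nonneg fun p _ => Finset.prod_nonneg fun j _ => by positivity
  have h2 : 0 < ∏ j, Sd e (Z j) :=
    Finset.prod_pos fun j _ => lt_of_lt_of_le one_pos (Sd_one_le e h0 (Z j))
  have h3 : 0 < ep' * ∏ j, Sd e (Z j) := mul_pos hep' h2
  have h4 : 0 ≤ ep * Pm e Z := mul_nonneg hep h1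
  positivity

theorem rho_eq_exp (e : A → Fin n → ℕ) (d : B → Fin n → ℕ) (h0e : ∃ a, e a = 0)
    (h0d : ∃ b, d b = 0) (t r ep ep' : ℝ) (hep : 0 ≤ ep) (hep' : 0 < ep')
    (lam : A → Fin n → ℝ) (Z : A → Pt n) :
    rho e d t r ep ep' lam Z = Real.exp (-Ps e d t r ep ep' lam Z) := by
  unfold rho Ps
  rw [Real.rpow_def_of_pos (Hh_pos e h0e ep ep' hep hep' Z)]
  have h1 : ∏ j, Sd d (sc (lam j) (Z j)) ^ (-r) =
      Real.exp (∑ j, Real.log (Sd d (sc (lam j) (Z j))) * (-r)) := by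
    rw [Real.exp_sum]
    refine Finset.prod_congr rfl fun j _ => ?_
    rw [Real.rpow_def_of_pos (lt_of_lt_of_le one_pos (Sd_one_le d h0d _))]
  rw [h1, ← Real.exp_add, ← Finset.sum_mul]
  congr 1
  ring

/-- the family of holomorphic functions whose squares add up to Hh -/
private noncomputable def TPsh_F (e : A → Fin n → ℕ) (ep ep' : ℝ) :
    Unit ⊕ (Equiv.Perm A ⊕ (A → A)) → (A → Pt n) → ℂ
  | Sum.inl _ => fun Z => Dt e Z
  | Sum.inr (Sum.inl p) => fun Z => (Real.sqrt ep : ℂ) * ∏ j, mon (e (p j)) (Z j)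
  | Sum.inr (Sum.inr f) => fun Z => (Real.sqrt ep' : ℂ) * ∏ j, mon (e (f j)) (Z j)

private theorem TPsh_proj (j : A) : ContDiff ℂ ∞ (fun Z : A → Pt n => Z j) :=
  contDiff_apply ℂ (Pt n) j

private theorem TPsh_Dt (e : A → Fin n → ℕ) : ContDiff ℂ ∞ (fun Z : A → Pt n => Dt e Z) := by
  unfold Dt
  simp only [Matrix.det_apply']
  refine ContDiff.sum fun s _ => ?_
  refine contDiff_const.mul ?_
  refine contDiff_prod fun i _ => ?_
  simp only [Matrix.of_apply]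
  exact (TPsh_mon (e i)).comp (TPsh_proj (s i))

private theorem TPsh_F_smooth (e : A → Fin n → ℕ) (ep ep' : ℝ)
    (i : Unit ⊕ (Equiv.Perm A ⊕ (A → A))) : ContDiff ℂ ∞ (TPsh_F e ep ep' i) := by
  rcases i with i | p | f
  · exact TPsh_Dt e
  · exact contDiff_const.mul (contDiff_prod fun j _ => (TPsh_mon (e (p j))).comp (TPsh_proj j))
  · exact contDiff_const.mul (contDiff_prod fun j _ => (TPsh_mon (e (f j))).comp (TPsh_proj j))

private theorem TPsh_Hh (e : A → Fin n → ℕ) (ep ep' : ℝ) (hep : 0 ≤ ep) (hep' : 0 ≤ ep')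
    (Z : A → Pt n) : Hh e ep ep' Z = ∑ i, ‖TPsh_F e ep ep' i Z‖ ^ 2 := by
  rw [Fintype.sum_sum_type, Fintype.sum_sum_type]
  simp only [TPsh_F, Finset.univ_unique, Finset.sum_singleton, norm_mul, mul_pow, norm_prod,
    Complex.norm_real, Real.norm_eq_abs, sq_abs, Real.sq_sqrt hep, Real.sq_sqrt hep',
    ← Finset.mul_sum, Finset.prod_pow]
  unfold Hh Pm
  have h1 : ∏ j, Sd e (Z j) = ∑ f : A → A, ∏ j, ‖mon (e (f j)) (Z j)‖ ^ 2 := by
    unfold Sd
    rw [Finset.prod_univ_sum, Fintype.piFinset_univ]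
  rw [h1]
  simp only [Finset.prod_pow]
  ring

private theorem TPsh_F_const (e : A → Fin n → ℕ) (ep ep' : ℝ) (a0 : A) (h0 : e a0 = 0)
    (Z : A → Pt n) : TPsh_F e ep ep' (Sum.inr (Sum.inr fun _ => a0)) Z = (Real.sqrt ep' : ℂ) := by
  simp only [TPsh_F, h0, TPsh_mon_zero, Finset.prod_const_one, mul_one]

private theorem TPsh_sq_ne (ep' : ℝ) (hep' : 0 < ep') : (Real.sqrt ep' : ℂ) ≠ 0 := by
  rw [Ne, Complex.ofReal_eq_zero]
  exact (Real.sqrt_pos.2 hep').ne'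

private theorem TPsh_logHh_smooth (e : A → Fin n → ℕ) (h0e : ∃ a, e a = 0) (ep ep' : ℝ)
    (hep : 0 ≤ ep) (hep' : 0 < ep') :
    ContDiff ℝ ∞ (fun Z : A → Pt n => Real.log (Hh e ep ep' Z)) := by
  obtain ⟨a0, h0⟩ := h0e
  simp only [TPsh_Hh e ep ep' hep hep'.le]
  exact TPsh_log_smooth _ (TPsh_F_smooth e ep ep') _ _ (TPsh_sq_ne ep' hep')
    (TPsh_F_const e ep ep' a0 h0)

private theorem TPsh_logHh_nonneg (e : A → Fin n → ℕ) (h0e : ∃ a, e a = 0) (ep ep' : ℝ)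
    (hep : 0 ≤ ep) (hep' : 0 < ep') (Z a : A → Pt n) :
    0 ≤ Lform (fun Z : A → Pt n => Real.log (Hh e ep ep' Z)) Z a := by
  obtain ⟨a0, h0⟩ := h0e
  simp only [TPsh_Hh e ep ep' hep hep'.le]
  exact TPsh_log_nonneg _ (TPsh_F_smooth e ep ep') _ _ (TPsh_sq_ne ep' hep')
    (TPsh_F_const e ep ep' a0 h0) Z a

private theorem TPsh_logSd_smooth (d : B → Fin n → ℕ) (h0d : ∃ b, d b = 0)
    (lam : A → Fin n → ℝ) (j : A) :
    ContDiff ℝ ∞ (fun Z : A → Pt n => Real.log (Sd d (sc (lam j) (Z j)))) := by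
  obtain ⟨b0, h0⟩ := h0d
  unfold Sd
  refine TPsh_log_smooth (fun b (Z : A → Pt n) => mon (d b) (sc (lam j) (Z j)))
    (fun b => ?_) b0 1 one_ne_zero (fun Z => ?_)
  · exact (TPsh_monsc (d b) (lam j)).comp (TPsh_proj j)
  · simp only [h0, TPsh_mon_zero]

theorem Ps_smooth (e : A → Fin n → ℕ) (d : B → Fin n → ℕ) (h0e : ∃ a, e a = 0)
    (h0d : ∃ b, d b = 0) (t r ep ep' : ℝ) (hep : 0 ≤ ep) (hep' : 0 < ep')
    (lam : A → Fin n → ℝ) : ContDiff ℝ ∞ (Ps e d t r ep ep' lam) := by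
  unfold Ps
  refine (contDiff_const.mul (TPsh_logHh_smooth e h0e ep ep' hep hep')).add ?_
  exact contDiff_const.mul (ContDiff.sum fun j _ => TPsh_logSd_smooth d h0d lam j)

theorem Sd_rt (d : B → Fin n → ℕ) (th : Fin n → ℝ) (z : Pt n) : Sd d (rt th z) = Sd d z := by
  unfold Sd
  simp only [TPsh_norm_mon_rt]

private theorem TPsh_Dt_rt (e : A → Fin n → ℕ) (th : Fin n → ℝ) (Z : A → Pt n) :
    ‖Dt e (fun j => rt th (Z j))‖ = ‖Dt e Z‖ := by
  have h1 : Dt e (fun j => rt th (Z j)) =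
      (∏ a, Complex.exp ((∑ i, (e a i : ℝ) * th i : ℝ) * I)) * Dt e Z := by
    unfold Dt
    rw [← Matrix.det_mul_row]
    congr 1
    ext j a
    simp only [Matrix.of_apply]
    exact TPsh_mon_rt (e a) th (Z j)
  rw [h1, norm_mul, norm_prod]
  simp only [Complex.norm_exp_ofReal_mul_I, Finset.prod_const_one, one_mul]

private theorem TPsh_Hh_rt (e : A → Fin n → ℕ) (ep ep' : ℝ) (th : Fin n → ℝ) (Z : A → Pt n) :
    Hh e ep ep' (fun j => rt th (Z j)) = Hh e ep ep' Z := by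
  unfold Hh Pm
  simp only [TPsh_Dt_rt, TPsh_norm_mon_rt, Sd_rt]

/-- invariance under rotation of all points by the same element of the torus -/
theorem rho_rt (e : A → Fin n → ℕ) (d : B → Fin n → ℕ) (t r ep ep' : ℝ)
    (lam : A → Fin n → ℝ) (th : Fin n → ℝ) (Z : A → Pt n) :
    rho e d t r ep ep' lam (fun j => rt th (Z j)) = rho e d t r ep ep' lam Z := by
  unfold rho
  simp only [TPsh_Hh_rt, TPsh_sc_rt, Sd_rt]

theorem Ps_rt (e : A → Fin n → ℕ) (d : B → Fin n → ℕ) (t r ep ep' : ℝ)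
    (lam : A → Fin n → ℝ) (th : Fin n → ℝ) (Z : A → Pt n) :
    Ps e d t r ep ep' lam (fun j => rt th (Z j)) = Ps e d t r ep ep' lam Z := by
  unfold Ps
  simp only [TPsh_Hh_rt, TPsh_sc_rt, Sd_rt]

theorem Ps_circle (e : A → Fin n → ℕ) (d : B → Fin n → ℕ) (t r ep ep' : ℝ)
    (lam : A → Fin n → ℝ) (s : ℝ) (Z : A → Pt n) :
    Ps e d t r ep ep' lam (Complex.exp (s * I) • Z) = Ps e d t r ep ep' lam Z := by
  have h1 : Complex.exp (s * I) • Z = fun j => rt (fun _ => s) (Z j) := by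
    funext j i
    simp only [Pi.smul_apply, smul_eq_mul, rt]
  rw [h1, Ps_rt]

/-- invariance under the rotation of one point by a finite group element -/
theorem Ps_part (e : A → Fin n → ℕ) (d : B → Fin n → ℕ) (t r ep ep' : ℝ)
    (lam : A → Fin n → ℝ) (u : Fin n → ℝ)
    (hu : ∀ a a', ∃ m : ℤ, ∑ i, ((e a i : ℝ) - e a' i) * u i = m) (j : A) (Z : A → Pt n) :
    Ps e d t r ep ep' lam (Function.update Z j (rt (fun i => 2 * π * u i) (Z j))) =
      Ps e d t r ep ep' lam Z := by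
  set th : Fin n → ℝ := fun i => 2 * π * u i with hth
  have h1 : ∀ (c : Fin n → ℕ) (j' : A),
      ‖mon c (Function.update Z j (rt th (Z j)) j')‖ = ‖mon c (Z j')‖ := by
    intro c j'
    by_cases h : j' = j
    · rw [h, Function.update_self, TPsh_norm_mon_rt]
    · rw [Function.update_of_ne h]
  have h2 : ∀ (c : Fin n → ℕ) (j' : A),
      ‖mon c (sc (lam j') (Function.update Z j (rt th (Z j)) j'))‖ =
        ‖mon c (sc (lam j') (Z j'))‖ := by
    intro c j'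
    by_cases h : j' = j
    · rw [h, Function.update_self, TPsh_sc_rt, TPsh_norm_mon_rt]
    · rw [Function.update_of_ne h]
  have h3 : ‖Dt e (Function.update Z j (rt th (Z j)))‖ = ‖Dt e Z‖ := by
    have h4 : ∀ a, Complex.exp ((∑ i, (e a i : ℝ) * th i : ℝ) * I) =
        Complex.exp ((∑ i, (e j i : ℝ) * th i : ℝ) * I) := by
      intro a
      obtain ⟨m, hm⟩ := hu a j
      rw [Complex.exp_eq_exp_iff_exists_int]
      refine ⟨m, ?_⟩
      have h5 : ∑ i, (e a i : ℝ) * th i = ∑ i, (e j i : ℝ) * th i + m * (2 * π) := by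
        rw [← hm, Finset.sum_mul, ← Finset.sum_add_distrib]
        refine Finset.sum_congr rfl fun i _ => ?_
        rw [hth]
        ring
      rw [h5]
      push_cast
      ring
    have h6 : (Matrix.of fun j' a => mon (e a) (Function.update Z j (rt th (Z j)) j')) =
        (Matrix.of fun j' a => mon (e a) (Z j')).updateRow j
          (Complex.exp ((∑ i, (e j i : ℝ) * th i : ℝ) * I) •
            (Matrix.of fun j' a => mon (e a) (Z j')) j) := by
      ext j' a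
      by_cases h : j' = j
      · subst h
        rw [Matrix.updateRow_self]
        simp only [Matrix.of_apply, Function.update_self, Pi.smul_apply, smul_eq_mul]
        rw [TPsh_mon_rt, h4 a]
      · rw [Matrix.updateRow_ne h]
        simp only [Matrix.of_apply, Function.update_of_ne h]
    unfold Dt
    rw [h6, Matrix.det_updateRow_smul, Matrix.updateRow_eq_self, norm_mul,
      Complex.norm_exp_ofReal_mul_I, one_mul]
  unfold Ps Hh Pm Sd
  simp only [h1, h2, h3]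

theorem Lg_nonneg (d : B → Fin n → ℕ) (lam : Fin n → ℝ) (z a : Pt n) : 0 ≤ Lg d lam z a := by
  unfold Lg
  refine div_nonneg ?_ (by positivity)
  have := TPsh_cs (fun b => mon (d b) (sc lam z))
    (fun b => fderiv ℂ (fun y => mon (d b) (sc lam y)) z a)
  unfold Sd
  linarith

theorem Lform_logSd (d : B → Fin n → ℕ) (h0 : ∃ b, d b = 0) (lam : Fin n → ℝ) (z a : Pt n) :
    Lform (fun y => Real.log (Sd d (sc lam y))) z a = Lg d lam z a := by
  obtain ⟨b0, h0⟩ := h0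
  unfold Sd Lg
  exact TPsh_log (fun b (z : Pt n) => mon (d b) (sc lam z)) (fun b => TPsh_monsc (d b) lam) b0 1
    one_ne_zero (fun z => by simp only [h0, TPsh_mon_zero]) z a

private theorem TPsh_logSd (d : B → Fin n → ℕ) (h0d : ∃ b, d b = 0)
    (lam : A → Fin n → ℝ) (j : A) (Z a : A → Pt n) :
    Lform (fun Z : A → Pt n => Real.log (Sd d (sc (lam j) (Z j)))) Z a =
      Lg d (lam j) (Z j) (a j) := by
  obtain ⟨b0, h0⟩ := h0d
  have hd : ∀ b, fderiv ℂ (fun Z : A → Pt n => mon (d b) (sc (lam j) (Z j))) Z a =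
      fderiv ℂ (fun y => mon (d b) (sc (lam j) y)) (Z j) (a j) := by
    intro b
    have h1 : HasFDerivAt (𝕜 := ℂ) (fun Z : A → Pt n => Z j)
        (ContinuousLinearMap.proj j : (A → Pt n) →L[ℂ] Pt n) Z :=
      (ContinuousLinearMap.proj j : (A → Pt n) →L[ℂ] Pt n).hasFDerivAt
    have h2 : HasFDerivAt (𝕜 := ℂ) (fun y => mon (d b) (sc (lam j) y))
        (fderiv ℂ (fun y => mon (d b) (sc (lam j) y)) (Z j)) (Z j) :=
      ((TPsh_monsc (d b) (lam j)).differentiable (by simp)).differentiableAt.hasFDerivAt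
    have h3 := (h2.comp Z h1).fderiv
    have h4 : ((fun y => mon (d b) (sc (lam j) y)) ∘ fun Z : A → Pt n => Z j) =
        fun Z : A → Pt n => mon (d b) (sc (lam j) (Z j)) := rfl
    rw [h4] at h3
    rw [h3]
    rfl
  have h := TPsh_log (fun b (Z : A → Pt n) => mon (d b) (sc (lam j) (Z j)))
    (fun b => (TPsh_monsc (d b) (lam j)).comp (TPsh_proj j)) b0 1 one_ne_zero
    (fun Z => by simp only [h0, TPsh_mon_zero]) Z a
  simp only [hd] at h
  exact h

theorem Ps_levi (e : A → Fin n → ℕ) (d : B → Fin n → ℕ) (h0e : ∃ a, e a = 0)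
    (h0d : ∃ b, d b = 0) (t r ep ep' : ℝ) (ht : 0 ≤ t) (hr : 0 ≤ r) (hep : 0 ≤ ep)
    (hep' : 0 < ep') (lam : A → Fin n → ℝ) (Z a : A → Pt n) :
    r * ∑ j, Lg d (lam j) (Z j) (a j) ≤ Lform (Ps e d t r ep ep' lam) Z a := by
  have s1 := TPsh_logHh_smooth (n := n) e h0e ep ep' hep hep'
  have s2 : ∀ j, ContDiff ℝ ∞ (fun Z : A → Pt n => Real.log (Sd d (sc (lam j) (Z j)))) :=
    fun j => TPsh_logSd_smooth d h0d lam j
  have s3 : ContDiff ℝ ∞ (fun Z : A → Pt n => ∑ j, Real.log (Sd d (sc (lam j) (Z j)))) :=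
    ContDiff.sum fun j _ => s2 j
  have h0 : Ps e d t r ep ep' lam = fun Z => t * Real.log (Hh e ep ep' Z) +
      r * ∑ j, Real.log (Sd d (sc (lam j) (Z j))) := rfl
  rw [h0, TPsh_add (contDiff_const.mul s1) (contDiff_const.mul s3), TPsh_mul s1, TPsh_mul s3,
    TPsh_sum _ _ s2]
  simp only [TPsh_logSd d h0d lam]
  have := mul_nonneg ht (TPsh_logHh_nonneg e h0e ep ep' hep hep' Z a)
  linarith

theorem Ps_psh (e : A → Fin n → ℕ) (d : B → Fin n → ℕ) (h0e : ∃ a, e a = 0)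
    (h0d : ∃ b, d b = 0) (t r ep ep' : ℝ) (ht : 0 ≤ t) (hr : 0 ≤ r) (hep : 0 ≤ ep)
    (hep' : 0 < ep') (lam : A → Fin n → ℝ) (Z a : A → Pt n) :
    0 ≤ Lform (Ps e d t r ep ep' lam) Z a := by
  refine le_trans ?_ (Ps_levi e d h0e h0d t r ep ep' ht hr hep hep' lam Z a)
  exact mul_nonneg hr (Finset.sum_nonneg fun j _ => Lg_nonneg d (lam j) (Z j) (a j))

end GTor
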