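/- piece TCA: logarithmic derivatives of Sd -/
import Pool.Agent.Lib_MP_e0d435_ag_T.TDefs

open Finset MeasureTheory Complex
open scoped ENNReal ContDiff Real

namespace GTor
open GPn

variable {n : ℕ} {B : Type} [Fintype B]

private theorem TCA_mon_sc (e : Fin n → ℕ) (lam : Fin n → ℝ) (z : Pt n) :
    mon e (sc lam z) = ((Real.exp (∑ i, (e i : ℝ) * lam i) : ℝ) : ℂ) * mon e z := by
  unfold mon sc
  rw [Real.exp_sum]
  push_cast
  rw [← Finset.prod_mul_distrib]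
  refine Finset.prod_congr rfl fun i _ => ?_
  rw [mul_pow, ← Complex.exp_nat_mul]

private theorem TCA_norm (e : Fin n → ℕ) (lam : Fin n → ℝ) (z : Pt n) :
    ‖mon e (sc lam z)‖ ^ 2 = Real.exp (2 * ∑ i, (e i : ℝ) * lam i) * ‖mon e z‖ ^ 2 := by
  rw [TCA_mon_sc, norm_mul, Complex.norm_real, Real.norm_of_nonneg (Real.exp_pos _).le, mul_pow,
    ← Real.exp_nat_mul]
  norm_num

private theorem TCA_pos (d : B → Fin n → ℕ) (h0 : ∃ b, d b = 0) (z : Pt n) : 0 < Sd d z := by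
  obtain ⟨b0, hb0⟩ := h0
  have h1 : ‖mon (d b0) z‖ ^ 2 ≤ Sd d z :=
    Finset.single_le_sum (f := fun b => ‖mon (d b) z‖ ^ 2) (fun b _ => by positivity)
      (Finset.mem_univ b0)
  have h2 : mon (d b0) z = 1 := by simp [mon, hb0]
  rw [h2] at h1
  norm_num at h1
  linarith

private theorem TCA_w_deriv (e : Fin n → ℕ) (lam mu : Fin n → ℝ) (z : Pt n) (s : ℝ) :
    HasDerivAt (fun s : ℝ => ‖mon e (sc (fun i => lam i + s * mu i) z)‖ ^ 2)
      (2 * (∑ i, (e i : ℝ) * mu i) * ‖mon e (sc (fun i => lam i + s * mu i) z)‖ ^ 2) s := by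
  have h1 : ∀ s : ℝ, ‖mon e (sc (fun i => lam i + s * mu i) z)‖ ^ 2 =
      Real.exp (2 * ∑ i, (e i : ℝ) * lam i + s * (2 * ∑ i, (e i : ℝ) * mu i)) *
        ‖mon e z‖ ^ 2 := by
    intro s
    rw [TCA_norm]
    congr 2
    have : ∀ i, (e i : ℝ) * (lam i + s * mu i) = (e i : ℝ) * lam i + s * ((e i : ℝ) * mu i) :=
      fun i => by ring
    rw [Finset.sum_congr rfl fun i _ => this i, Finset.sum_add_distrib, ← Finset.mul_sum]
    ring
  have h2 : HasDerivAt (fun s : ℝ => 2 * ∑ i, (e i : ℝ) * lam i +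
      s * (2 * ∑ i, (e i : ℝ) * mu i)) (2 * ∑ i, (e i : ℝ) * mu i) s := by
    have := ((hasDerivAt_id s).mul_const (2 * ∑ i, (e i : ℝ) * mu i)).const_add
      (2 * ∑ i, (e i : ℝ) * lam i)
    simpa using this
  have h3 := (h2.exp).mul_const (‖mon e z‖ ^ 2)
  have h4 : HasDerivAt (fun s : ℝ => ‖mon e (sc (fun i => lam i + s * mu i) z)‖ ^ 2)
      (Real.exp (2 * ∑ i, (e i : ℝ) * lam i + s * (2 * ∑ i, (e i : ℝ) * mu i)) *
        (2 * ∑ i, (e i : ℝ) * mu i) * ‖mon e z‖ ^ 2) s :=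
    h3.congr_of_eventuallyEq (Filter.Eventually.of_forall fun s => h1 s)
  convert h4 using 1
  rw [h1 s]
  ring

theorem hasDerivAt_logSd (d : B → Fin n → ℕ) (h0 : ∃ b, d b = 0) (lam mu : Fin n → ℝ) (z : Pt n)
    (s : ℝ) : HasDerivAt (fun s : ℝ => Real.log (Sd d (sc (fun i => lam i + s * mu i) z)))
      (g1 d mu (sc (fun i => lam i + s * mu i) z)) s := by
  have h1 : HasDerivAt (fun s : ℝ => Sd d (sc (fun i => lam i + s * mu i) z))
      (∑ b, 2 * (∑ i, (d b i : ℝ) * mu i) *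
        ‖mon (d b) (sc (fun i => lam i + s * mu i) z)‖ ^ 2) s := by
    have := HasDerivAt.fun_sum (u := Finset.univ) fun b _ => TCA_w_deriv (d b) lam mu z s
    exact this
  have h2 := h1.log (TCA_pos d h0 _).ne'
  convert h2 using 1
  unfold g1
  congr 1
  rw [Finset.mul_sum]
  exact Finset.sum_congr rfl fun b _ => by ring

theorem hasDerivAt_g1 (d : B → Fin n → ℕ) (h0 : ∃ b, d b = 0) (lam mu : Fin n → ℝ) (z : Pt n)
    (s : ℝ) : HasDerivAt (fun s : ℝ => g1 d mu (sc (fun i => lam i + s * mu i) z))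
      (g2 d mu (sc (fun i => lam i + s * mu i) z)) s := by
  have h1 : HasDerivAt (fun s : ℝ => Sd d (sc (fun i => lam i + s * mu i) z))
      (∑ b, 2 * (∑ i, (d b i : ℝ) * mu i) *
        ‖mon (d b) (sc (fun i => lam i + s * mu i) z)‖ ^ 2) s := by
    have := HasDerivAt.fun_sum (u := Finset.univ) fun b _ => TCA_w_deriv (d b) lam mu z s
    exact this
  have h2 : HasDerivAt (fun s : ℝ => ∑ b, (∑ i, (d b i : ℝ) * mu i) *
      ‖mon (d b) (sc (fun i => lam i + s * mu i) z)‖ ^ 2)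
      (∑ b, (∑ i, (d b i : ℝ) * mu i) * (2 * (∑ i, (d b i : ℝ) * mu i) *
        ‖mon (d b) (sc (fun i => lam i + s * mu i) z)‖ ^ 2)) s := by
    have := HasDerivAt.fun_sum (u := Finset.univ) fun b _ =>
      (TCA_w_deriv (d b) lam mu z s).const_mul (∑ i, (d b i : ℝ) * mu i)
    exact this
  have hS := (TCA_pos d h0 (sc (fun i => lam i + s * mu i) z)).ne'
  have h3 := (h2.const_mul 2).div h1 hS
  refine (h3.congr_deriv ?_)
  unfold g2
  have e1 : ∑ b, (∑ i, (d b i : ℝ) * mu i) * (2 * (∑ i, (d b i : ℝ) * mu i) *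
        ‖mon (d b) (sc (fun i => lam i + s * mu i) z)‖ ^ 2) =
      2 * ∑ b, (∑ i, (d b i : ℝ) * mu i) ^ 2 *
        ‖mon (d b) (sc (fun i => lam i + s * mu i) z)‖ ^ 2 := by
    rw [Finset.mul_sum]
    exact Finset.sum_congr rfl fun b _ => by ring
  have e2 : ∑ b, 2 * (∑ i, (d b i : ℝ) * mu i) *
        ‖mon (d b) (sc (fun i => lam i + s * mu i) z)‖ ^ 2 =
      2 * ∑ b, (∑ i, (d b i : ℝ) * mu i) *
        ‖mon (d b) (sc (fun i => lam i + s * mu i) z)‖ ^ 2 := by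
    rw [Finset.mul_sum]
    exact Finset.sum_congr rfl fun b _ => by ring
  rw [e1, e2]
  field_simp
  ring

private theorem TCA_abs_le (d : B → Fin n → ℕ) (c : B → ℝ) (z : Pt n) :
    |∑ b, c b * ‖mon (d b) z‖ ^ 2| ≤ (∑ b, |c b|) * Sd d z := by
  calc |∑ b, c b * ‖mon (d b) z‖ ^ 2| ≤ ∑ b, |c b * ‖mon (d b) z‖ ^ 2| :=
        Finset.abs_sum_le_sum_abs _ _
    _ ≤ ∑ b, |c b| * Sd d z := by
        refine Finset.sum_le_sum fun b _ => ?_
        rw [abs_mul, abs_of_nonneg (by positivity : (0 : ℝ) ≤ ‖mon (d b) z‖ ^ 2)]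
        exact mul_le_mul_of_nonneg_left (Finset.single_le_sum
          (f := fun b => ‖mon (d b) z‖ ^ 2) (fun b _ => by positivity) (Finset.mem_univ b))
          (abs_nonneg _)
    _ = (∑ b, |c b|) * Sd d z := by rw [Finset.sum_mul]

private theorem TCA_nonneg (d : B → Fin n → ℕ) (z : Pt n) : 0 ≤ Sd d z :=
  Finset.sum_nonneg fun b _ => by positivity

private theorem TCA_quot (d : B → Fin n → ℕ) (c : B → ℝ) (z : Pt n) :
    |(∑ b, c b * ‖mon (d b) z‖ ^ 2) / Sd d z| ≤ ∑ b, |c b| := by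
  rcases (TCA_nonneg d z).eq_or_lt with h | h
  · rw [← h, div_zero, abs_zero]
    exact Finset.sum_nonneg fun b _ => abs_nonneg _
  · rw [abs_div, abs_of_pos h, div_le_iff₀ h]
    exact TCA_abs_le d c z

theorem g1_bdd (d : B → Fin n → ℕ) (mu : Fin n → ℝ) : ∃ C, ∀ z, |g1 d mu z| ≤ C := by
  refine ⟨2 * ∑ b, |∑ i, (d b i : ℝ) * mu i|, fun z => ?_⟩
  have h1 := TCA_quot d (fun b => ∑ i, (d b i : ℝ) * mu i) z
  have h2 : g1 d mu z = 2 * ((∑ b, (∑ i, (d b i : ℝ) * mu i) * ‖mon (d b) z‖ ^ 2) / Sd d z) := by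
    unfold g1; rw [mul_div_assoc]
  rw [h2, abs_mul, abs_of_pos (by norm_num : (0 : ℝ) < 2)]
  exact mul_le_mul_of_nonneg_left h1 (by norm_num)

theorem g2_nonneg (d : B → Fin n → ℕ) (mu : Fin n → ℝ) (z : Pt n) : 0 ≤ g2 d mu z := by
  unfold g2
  rcases (TCA_nonneg d z).eq_or_lt with h | h
  · rw [← h]; simp
  · have h1 : (∑ b, (∑ i, (d b i : ℝ) * mu i) * ‖mon (d b) z‖ ^ 2) ^ 2 ≤
        (∑ b, (∑ i, (d b i : ℝ) * mu i) ^ 2 * ‖mon (d b) z‖ ^ 2) * Sd d z := by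
      have := Finset.sum_mul_sq_le_sq_mul_sq Finset.univ
        (fun b => (∑ i, (d b i : ℝ) * mu i) * ‖mon (d b) z‖) (fun b => ‖mon (d b) z‖)
      have e1 : ∀ b, ((∑ i, (d b i : ℝ) * mu i) * ‖mon (d b) z‖) * ‖mon (d b) z‖ =
          (∑ i, (d b i : ℝ) * mu i) * ‖mon (d b) z‖ ^ 2 := fun b => by ring
      have e2 : ∀ b, ((∑ i, (d b i : ℝ) * mu i) * ‖mon (d b) z‖) ^ 2 =
          (∑ i, (d b i : ℝ) * mu i) ^ 2 * ‖mon (d b) z‖ ^ 2 := fun b => by ring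
      rw [Finset.sum_congr rfl fun b _ => e1 b, Finset.sum_congr rfl fun b _ => e2 b] at this
      exact this
    have h2 : ((∑ b, (∑ i, (d b i : ℝ) * mu i) * ‖mon (d b) z‖ ^ 2) / Sd d z) ^ 2 ≤
        (∑ b, (∑ i, (d b i : ℝ) * mu i) ^ 2 * ‖mon (d b) z‖ ^ 2) / Sd d z := by
      rw [div_pow, div_le_div_iff₀ (by positivity) h]
      nlinarith
    linarith

theorem g2_bdd (d : B → Fin n → ℕ) (mu : Fin n → ℝ) : ∃ C, ∀ z, g2 d mu z ≤ C := by
  refine ⟨4 * ∑ b, |(∑ i, (d b i : ℝ) * mu i) ^ 2|, fun z => ?_⟩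
  unfold g2
  have h1 := TCA_quot d (fun b => (∑ i, (d b i : ℝ) * mu i) ^ 2) z
  have h2 := (abs_le.1 h1).2
  have h3 : 0 ≤ ((∑ b, (∑ i, (d b i : ℝ) * mu i) * ‖mon (d b) z‖ ^ 2) / Sd d z) ^ 2 :=
    sq_nonneg _
  linarith

private theorem TCA_w_smooth (e : Fin n → ℕ) (lam : Fin n → ℝ) :
    ContDiff ℝ ∞ (fun z : Pt n => ‖mon e (sc lam z)‖ ^ 2) := by
  have h : ContDiff ℝ ∞ (fun z : Pt n => mon e (sc lam z)) := by
    unfold mon sc
    refine contDiff_prod fun i _ => ContDiff.pow ?_ _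
    exact contDiff_const.mul (contDiff_apply ℝ ℂ i)
  exact h.norm_sq ℝ

private theorem TCA_sum_smooth (d : B → Fin n → ℕ) (c : B → ℝ) (lam : Fin n → ℝ) :
    ContDiff ℝ ∞ (fun z : Pt n => ∑ b, c b * ‖mon (d b) (sc lam z)‖ ^ 2) :=
  ContDiff.sum fun b _ => contDiff_const.mul (TCA_w_smooth (d b) lam)

private theorem TCA_Sd_smooth (d : B → Fin n → ℕ) (lam : Fin n → ℝ) :
    ContDiff ℝ ∞ (fun z : Pt n => Sd d (sc lam z)) :=
  ContDiff.sum fun b _ => TCA_w_smooth (d b) lam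

theorem g1_smooth (d : B → Fin n → ℕ) (h0 : ∃ b, d b = 0) (lam mu : Fin n → ℝ) :
    ContDiff ℝ ∞ (fun z => g1 d mu (sc lam z)) := by
  unfold g1
  exact (contDiff_const.mul (TCA_sum_smooth d (fun b => ∑ i, (d b i : ℝ) * mu i) lam)).div
    (TCA_Sd_smooth d lam) (fun z => (TCA_pos d h0 _).ne')

theorem g2_continuous (d : B → Fin n → ℕ) (h0 : ∃ b, d b = 0) (lam mu : Fin n → ℝ) :
    Continuous (fun z => g2 d mu (sc lam z)) := by
  unfold g2
  have h1 := (TCA_sum_smooth d (fun b => (∑ i, (d b i : ℝ) * mu i) ^ 2) lam).continuous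
  have h2 := (TCA_sum_smooth d (fun b => ∑ i, (d b i : ℝ) * mu i) lam).continuous
  have h3 := (TCA_Sd_smooth d lam).continuous
  exact continuous_const.mul ((h1.div h3 fun z => (TCA_pos d h0 _).ne').sub
    ((h2.div h3 fun z => (TCA_pos d h0 _).ne').pow 2))

private theorem TCA_norm_rt (e : Fin n → ℕ) (lam th : Fin n → ℝ) (z : Pt n) :
    ‖mon e (sc lam (rt th z))‖ = ‖mon e (sc lam z)‖ := by
  unfold mon sc rt
  rw [norm_prod, norm_prod]
  refine Finset.prod_congr rfl fun i _ => ?_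
  rw [norm_pow, norm_pow]
  congr 1
  rw [norm_mul, norm_mul, norm_mul, Complex.norm_exp_ofReal_mul_I, one_mul]

theorem g1_rt (d : B → Fin n → ℕ) (lam mu th : Fin n → ℝ) (z : Pt n) :
    g1 d mu (sc lam (rt th z)) = g1 d mu (sc lam z) := by
  unfold g1 Sd
  simp only [TCA_norm_rt]

private theorem TCA_m_smooth (e : Fin n → ℕ) (lam : Fin n → ℝ) :
    ContDiff ℂ ∞ (fun z : Pt n => mon e (sc lam z)) := by
  unfold mon sc
  refine contDiff_prod fun i _ => ContDiff.pow ?_ _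
  exact contDiff_const.mul (contDiff_apply ℂ ℂ i)

private theorem TCA_line (e : Fin n → ℕ) (lam : Fin n → ℝ) (z v : Pt n) :
    HasDerivAt (fun t : ℝ => ‖mon e (sc lam (z + t • v))‖ ^ 2)
      (2 * ((starRingEnd ℂ) (mon e (sc lam z)) *
        fderiv ℂ (fun y => mon e (sc lam y)) z v).re) 0 := by
  have h1 : HasFDerivAt (fun y : Pt n => mon e (sc lam y))
      (fderiv ℂ (fun y => mon e (sc lam y)) z) z :=
    ((TCA_m_smooth e lam).differentiable (by simp) z).hasFDerivAt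
  have h2 := h1.restrictScalars ℝ
  have h3 : HasDerivAt (fun t : ℝ => z + t • v) v 0 := by
    have := ((hasDerivAt_id (0 : ℝ)).smul_const v).const_add z
    simpa using this
  have h4 : HasFDerivAt (fun y : Pt n => mon e (sc lam y))
      ((fderiv ℂ (fun y => mon e (sc lam y)) z).restrictScalars ℝ) (z + (0 : ℝ) • v) := by
    rw [zero_smul, add_zero]; exact h2
  have h5 := (h4.comp_hasDerivAt (0 : ℝ) h3).norm_sq
  refine h5.congr_deriv ?_
  simp only [Function.comp_apply, zero_smul, add_zero, ContinuousLinearMap.coe_restrictScalars']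
  rw [Complex.inner, mul_comm ((starRingEnd ℂ) (mon e (sc lam z)))]

private theorem TCA_fderiv (d : B → Fin n → ℕ) (h0 : ∃ b, d b = 0) (lam mu : Fin n → ℝ)
    (z v : Pt n) : fderiv ℝ (fun y => g1 d mu (sc lam y)) z v =
      4 * (∑ b, (((∑ i, (d b i : ℝ) * mu i) -
        (∑ b, (∑ i, (d b i : ℝ) * mu i) * ‖mon (d b) (sc lam z)‖ ^ 2) / Sd d (sc lam z) : ℝ) : ℂ) *
        ((starRingEnd ℂ) (mon (d b) (sc lam z)) *
        fderiv ℂ (fun y => mon (d b) (sc lam y)) z v)).re / Sd d (sc lam z) := by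
  have hS := (TCA_pos d h0 (sc lam z)).ne'
  have h3 : HasDerivAt (fun t : ℝ => z + t • v) v 0 := by
    have := ((hasDerivAt_id (0 : ℝ)).smul_const v).const_add z
    simpa using this
  have h4 : HasFDerivAt (fun y => g1 d mu (sc lam y))
      (fderiv ℝ (fun y => g1 d mu (sc lam y)) z) (z + (0 : ℝ) • v) := by
    rw [zero_smul, add_zero]
    exact ((g1_smooth d h0 lam mu).differentiable (by simp) z).hasFDerivAt
  have h5 := h4.comp_hasDerivAt (0 : ℝ) h3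
  have h6 : HasDerivAt (fun t : ℝ => Sd d (sc lam (z + t • v)))
      (∑ b, 2 * ((starRingEnd ℂ) (mon (d b) (sc lam z)) *
        fderiv ℂ (fun y => mon (d b) (sc lam y)) z v).re) 0 := by
    have := HasDerivAt.fun_sum (u := Finset.univ) fun b _ => TCA_line (d b) lam z v
    exact this
  have h7 : HasDerivAt (fun t : ℝ => ∑ b, (∑ i, (d b i : ℝ) * mu i) *
      ‖mon (d b) (sc lam (z + t • v))‖ ^ 2)
      (∑ b, (∑ i, (d b i : ℝ) * mu i) * (2 * ((starRingEnd ℂ) (mon (d b) (sc lam z)) *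
        fderiv ℂ (fun y => mon (d b) (sc lam y)) z v).re)) 0 := by
    have := HasDerivAt.fun_sum (u := Finset.univ) fun b _ =>
      (TCA_line (d b) lam z v).const_mul (∑ i, (d b i : ℝ) * mu i)
    exact this
  have hS' : Sd d (sc lam (z + (0 : ℝ) • v)) ≠ 0 := by rw [zero_smul, add_zero]; exact hS
  have h8 := (h7.const_mul 2).div h6 hS'
  have h9 := h5.unique h8
  rw [h9]
  simp only [zero_smul, add_zero]
  have e1 : (∑ b, (((∑ i, (d b i : ℝ) * mu i) -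
        (∑ b, (∑ i, (d b i : ℝ) * mu i) * ‖mon (d b) (sc lam z)‖ ^ 2) / Sd d (sc lam z) : ℝ) : ℂ) *
        ((starRingEnd ℂ) (mon (d b) (sc lam z)) *
        fderiv ℂ (fun y => mon (d b) (sc lam y)) z v)).re =
      ∑ b, (∑ i, (d b i : ℝ) * mu i) * ((starRingEnd ℂ) (mon (d b) (sc lam z)) *
        fderiv ℂ (fun y => mon (d b) (sc lam y)) z v).re -
      (∑ b, (∑ i, (d b i : ℝ) * mu i) * ‖mon (d b) (sc lam z)‖ ^ 2) / Sd d (sc lam z) *
      ∑ b, ((starRingEnd ℂ) (mon (d b) (sc lam z)) *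
        fderiv ℂ (fun y => mon (d b) (sc lam y)) z v).re := by
    rw [Complex.re_sum, Finset.mul_sum, ← Finset.sum_sub_distrib]
    refine Finset.sum_congr rfl fun b _ => ?_
    rw [Complex.re_ofReal_mul]
    ring
  have e2 : ∑ b, (∑ i, (d b i : ℝ) * mu i) * (2 * ((starRingEnd ℂ) (mon (d b) (sc lam z)) *
        fderiv ℂ (fun y => mon (d b) (sc lam y)) z v).re) =
      2 * ∑ b, (∑ i, (d b i : ℝ) * mu i) * ((starRingEnd ℂ) (mon (d b) (sc lam z)) *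
        fderiv ℂ (fun y => mon (d b) (sc lam y)) z v).re := by
    rw [Finset.mul_sum]
    exact Finset.sum_congr rfl fun b _ => by ring
  rw [e1, e2, ← Finset.mul_sum]
  field_simp
  ring

private theorem TCA_var (c w : B → ℝ) (S : ℝ) (hS : 0 < S) (hw : ∑ b, w b = S) :
    (∑ b, c b ^ 2 * w b) / S - ((∑ b, c b * w b) / S) ^ 2 =
      (∑ b, (c b - (∑ b, c b * w b) / S) ^ 2 * w b) / S := by
  set M := (∑ b, c b * w b) / S with hM
  have h1 : ∑ b, c b * w b = M * S := by rw [hM]; field_simp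
  have h2 : ∑ b, (c b - M) ^ 2 * w b =
      ∑ b, c b ^ 2 * w b - 2 * M * ∑ b, c b * w b + M ^ 2 * ∑ b, w b := by
    rw [Finset.mul_sum, Finset.mul_sum, ← Finset.sum_sub_distrib, ← Finset.sum_add_distrib]
    exact Finset.sum_congr rfl fun b _ => by ring
  rw [h2, h1, hw]
  field_simp
  ring

private theorem TCA_levi (m p : B → ℂ) (S : ℝ) (hS : 0 < S) (hm : ∑ b, ‖m b‖ ^ 2 = S) :
    (S * (∑ b, ‖p b‖ ^ 2) - ‖∑ b, (starRingEnd ℂ) (m b) * p b‖ ^ 2) / S ^ 2 =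
      (∑ b, ‖p b - (∑ b, (starRingEnd ℂ) (m b) * p b) / S * m b‖ ^ 2) / S := by
  set nu := ∑ b, (starRingEnd ℂ) (m b) * p b with hnu
  have hSc : (S : ℂ) ≠ 0 := by exact_mod_cast hS.ne'
  have h1 : ∀ b, ‖p b - nu / S * m b‖ ^ 2 = ‖p b‖ ^ 2 + ‖nu‖ ^ 2 / S ^ 2 * ‖m b‖ ^ 2 -
      2 * ((starRingEnd ℂ) nu / S * ((starRingEnd ℂ) (m b) * p b)).re := by
    intro b
    rw [← Complex.normSq_eq_norm_sq, Complex.normSq_sub, Complex.normSq_eq_norm_sq,
      Complex.normSq_eq_norm_sq, norm_mul, norm_div, Complex.norm_real,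
      Real.norm_of_nonneg hS.le]
    have h2 : (p b * (starRingEnd ℂ) (nu / ↑S * m b)).re =
        ((starRingEnd ℂ) nu / S * ((starRingEnd ℂ) (m b) * p b)).re := by
      congr 1
      rw [map_mul, map_div₀, Complex.conj_ofReal]
      ring
    rw [h2]
    ring
  have h3 : ∑ b, ((starRingEnd ℂ) nu / S * ((starRingEnd ℂ) (m b) * p b)).re = ‖nu‖ ^ 2 / S := by
    rw [← Complex.re_sum, ← Finset.mul_sum, ← hnu]
    have : (starRingEnd ℂ) nu / S * nu = ((‖nu‖ ^ 2 / S : ℝ) : ℂ) := by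
      rw [div_mul_eq_mul_div, mul_comm, Complex.mul_conj, Complex.normSq_eq_norm_sq]
      push_cast
      rfl
    rw [this, Complex.ofReal_re]
  rw [Finset.sum_congr rfl fun b _ => h1 b, Finset.sum_sub_distrib, Finset.sum_add_distrib,
    ← Finset.mul_sum, ← Finset.mul_sum, h3, hm]
  field_simp
  ring

/-- the derivative of the first logarithmic derivative is controlled by the Levi form -/
theorem g1_grad (d : B → Fin n → ℕ) (h0 : ∃ b, d b = 0) (lam mu : Fin n → ℝ) (z a : Pt n) :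
    (fderiv ℝ (fun y => g1 d mu (sc lam y)) z a) ^ 2
      + (fderiv ℝ (fun y => g1 d mu (sc lam y)) z (I • a)) ^ 2 ≤
      4 * g2 d mu (sc lam z) * Lg d lam z a := by
  have hS := TCA_pos d h0 (sc lam z)
  rw [TCA_fderiv d h0 lam mu z a, TCA_fderiv d h0 lam mu z (I • a)]
  obtain ⟨c, hc⟩ : ∃ c : B → ℝ, c = fun b => ∑ i, (d b i : ℝ) * mu i := ⟨_, rfl⟩
  obtain ⟨m, hm⟩ : ∃ m : B → ℂ, m = fun b => mon (d b) (sc lam z) := ⟨_, rfl⟩
  obtain ⟨p, hp⟩ : ∃ p : B → ℂ, p = fun b => fderiv ℂ (fun y => mon (d b) (sc lam y)) z a :=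
    ⟨_, rfl⟩
  obtain ⟨S, hSe⟩ : ∃ S : ℝ, S = Sd d (sc lam z) := ⟨_, rfl⟩
  have hSm : ∑ b, ‖m b‖ ^ 2 = S := by rw [hSe, hm]; rfl
  have hg2 : g2 d mu (sc lam z) = 4 * ((∑ b, c b ^ 2 * ‖m b‖ ^ 2) / S -
      ((∑ b, c b * ‖m b‖ ^ 2) / S) ^ 2) := by rw [hSe, hm, hc]; rfl
  have hLg : Lg d lam z a = (S * (∑ b, ‖p b‖ ^ 2) -
      ‖∑ b, (starRingEnd ℂ) (m b) * p b‖ ^ 2) / S ^ 2 := by rw [hSe, hm, hp]; rfl
  rw [← hSe] at hS ⊢
  have hI : ∀ b, fderiv ℂ (fun y => mon (d b) (sc lam y)) z (I • a) = I * p b := by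
    intro b
    rw [map_smul, smul_eq_mul, hp]
  have hpb : ∀ b, fderiv ℂ (fun y => mon (d b) (sc lam y)) z a = p b := by
    intro b; rw [hp]
  have hmb : ∀ b, mon (d b) (sc lam z) = m b := by intro b; rw [hm]
  have hcb : ∀ b, ∑ i, (d b i : ℝ) * mu i = c b := by intro b; rw [hc]
  simp only [hI, hpb, hmb, hcb]
  obtain ⟨M, hM⟩ : ∃ M : ℝ, M = (∑ b, c b * ‖m b‖ ^ 2) / S := ⟨_, rfl⟩
  rw [← hM] at hg2 ⊢
  have hMS : ∑ b, c b * ‖m b‖ ^ 2 = M * S := by rw [hM]; field_simp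
  obtain ⟨T, hT⟩ : ∃ T : ℂ, T = ∑ b, ((c b - M : ℝ) : ℂ) * ((starRingEnd ℂ) (m b) * p b) :=
    ⟨_, rfl⟩
  have hTI : ∑ b, ((c b - M : ℝ) : ℂ) * ((starRingEnd ℂ) (m b) * (I * p b)) = I * T := by
    rw [hT, Finset.mul_sum]
    exact Finset.sum_congr rfl fun b _ => by ring
  rw [hTI, ← hT]
  have hre : (I * T).re = -T.im := by simp
  rw [hre]
  have h1 : (4 * T.re / S) ^ 2 + (4 * -T.im / S) ^ 2 = 16 * ‖T‖ ^ 2 / S ^ 2 := by
    rw [← Complex.normSq_eq_norm_sq, Complex.normSq_apply]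
    field_simp
    ring
  rw [h1]
  obtain ⟨nu, hnu⟩ : ∃ nu : ℂ, nu = (∑ b, (starRingEnd ℂ) (m b) * p b) / S := ⟨_, rfl⟩
  have hv := TCA_var c (fun b => ‖m b‖ ^ 2) S hS hSm
  have hl := TCA_levi m p S hS hSm
  rw [← hnu] at hl
  simp only [← hM] at hv
  rw [hg2, hLg, hv, hl]
  have hT2 : T = ∑ b, ((c b - M : ℝ) : ℂ) * ((starRingEnd ℂ) (m b) * (p b - nu * m b)) := by
    have h2 : ∑ b, ((c b - M : ℝ) : ℂ) * ((starRingEnd ℂ) (m b) * (nu * m b)) = 0 := by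
      have h3 : ∀ b, ((c b - M : ℝ) : ℂ) * ((starRingEnd ℂ) (m b) * (nu * m b)) =
          nu * (((c b - M) * ‖m b‖ ^ 2 : ℝ) : ℂ) := by
        intro b
        have h4 : (starRingEnd ℂ) (m b) * m b = ((‖m b‖ ^ 2 : ℝ) : ℂ) := by
          rw [mul_comm, Complex.mul_conj, Complex.normSq_eq_norm_sq]
        have h5 : ((c b - M : ℝ) : ℂ) * ((starRingEnd ℂ) (m b) * (nu * m b)) =
            nu * (((c b - M : ℝ) : ℂ) * ((starRingEnd ℂ) (m b) * m b)) := by ring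
        rw [h5, h4]
        push_cast
        ring
      rw [Finset.sum_congr rfl fun b _ => h3 b, ← Finset.mul_sum, ← Complex.ofReal_sum]
      have h6 : ∑ b, (c b - M) * ‖m b‖ ^ 2 = 0 := by
        have h7 : ∀ b, (c b - M) * ‖m b‖ ^ 2 = c b * ‖m b‖ ^ 2 - M * ‖m b‖ ^ 2 := fun b => by ring
        rw [Finset.sum_congr rfl fun b _ => h7 b, Finset.sum_sub_distrib, ← Finset.mul_sum, hMS,
          hSm]
        ring
      rw [h6]
      simp
    rw [hT, ← sub_zero (∑ b, ((c b - M : ℝ) : ℂ) * ((starRingEnd ℂ) (m b) * p b)), ← h2,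
      ← Finset.sum_sub_distrib]
    exact Finset.sum_congr rfl fun b _ => by ring
  have hTn : ‖T‖ ≤ ∑ b, (|c b - M| * ‖m b‖) * ‖p b - nu * m b‖ := by
    rw [hT2]
    refine (norm_sum_le _ _).trans (Finset.sum_le_sum fun b _ => ?_)
    rw [norm_mul, norm_mul, Complex.norm_real, RCLike.norm_conj, Real.norm_eq_abs]
    exact le_of_eq (by ring)
  have hCS := Finset.sum_mul_sq_le_sq_mul_sq Finset.univ (fun b => |c b - M| * ‖m b‖)
    (fun b => ‖p b - nu * m b‖)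
  have hT3 : ‖T‖ ^ 2 ≤ (∑ b, (c b - M) ^ 2 * ‖m b‖ ^ 2) * ∑ b, ‖p b - nu * m b‖ ^ 2 := by
    have h8 : ‖T‖ ^ 2 ≤ (∑ b, (|c b - M| * ‖m b‖) * ‖p b - nu * m b‖) ^ 2 :=
      pow_le_pow_left₀ (norm_nonneg _) hTn 2
    refine (h8.trans hCS).trans (le_of_eq ?_)
    congr 1
    refine Finset.sum_congr rfl fun b _ => ?_
    rw [mul_pow, sq_abs]
  have h9 : 16 * ‖T‖ ^ 2 / S ^ 2 ≤ 16 * ((∑ b, (c b - M) ^ 2 * ‖m b‖ ^ 2) *
      ∑ b, ‖p b - nu * m b‖ ^ 2) / S ^ 2 := by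
    gcongr
  refine h9.trans (le_of_eq ?_)
  field_simp
  ring

end GTor
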