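/- piece TH1: dual estimate with variable Q, compactly supported f -/
import Pool.Agent.Lib_MP_e0d435_ag.HDefs
import Pool.Agent.Lib_MP_e0d435_ag.HDual

open Finset MeasureTheory Complex
open scoped ENNReal ContDiff

namespace GTor
open GPn

variable {E : Type*} [NormedAddCommGroup E] [NormedSpace ℂ E] [FiniteDimensional ℂ E]
  [MeasurableSpace E] [BorelSpace E]

omit [NormedAddCommGroup E] [FiniteDimensional ℂ E] [NormedSpace ℂ E] [BorelSpace E] in
private theorem THolA_cs (nu : Measure E) (f g : E → ℝ≥0∞) (hf : AEMeasurable f nu)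
    (hg : AEMeasurable g nu) :
    (∫⁻ x, f x * g x ∂nu) ^ 2 ≤ (∫⁻ x, f x ^ 2 ∂nu) * ∫⁻ x, g x ^ 2 ∂nu := by
  have h := ENNReal.lintegral_mul_le_Lp_mul_Lq nu (Real.HolderConjugate.two_two) hf hg
  simp only [Pi.mul_apply] at h
  have h2 := ENNReal.pow_le_pow_left h (n := 2)
  refine h2.trans (le_of_eq ?_)
  rw [mul_pow, ← ENNReal.rpow_natCast, ← ENNReal.rpow_natCast, ← ENNReal.rpow_mul,
    ← ENNReal.rpow_mul]
  norm_num

theorem dual_estimate_cs (mu : Measure E) [mu.IsAddHaarMeasure] (Ps : E → ℝ)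
    (hPs : ContDiff ℝ ∞ Ps) (hpsh : ∀ x a, 0 ≤ Lform Ps x a) [IsFiniteMeasure (gm mu Ps)]
    (f : E → ℝ) (hf : ContDiff ℝ ∞ f) (hfc : HasCompactSupport f)
    (Q : E → ℝ) (hQ : ∀ x, 0 ≤ Q x) (hQc : Measurable Q) (hQi : Integrable Q (gm mu Ps))
    (H : ∀ x a, (fderiv ℝ f x a) ^ 2 + (fderiv ℝ f x (I • a)) ^ 2 ≤ 4 * Q x * Lform Ps x a)
    {ι : Type*} [Fintype ι] (b : Module.Basis ι ℂ E) (al : ι → E → ℂ) (hal : ∀ j, SC (al j)) :
    ‖∫ x, ∑ j, dzb (b j) (fun y => (f y : ℂ)) x * (starRingEnd ℂ) (al j x) ∂(gm mu Ps)‖ ^ 2 ≤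
      (∫ x, Q x ∂(gm mu Ps)) * ∫ x, ‖∑ j, del Ps (b j) (al j) x‖ ^ 2 ∂(gm mu Ps) := by
  classical
  set nu := gm mu Ps with hnu
  have hfC : ContDiff ℝ ∞ (fun y => (f y : ℂ)) := Complex.ofRealCLM.contDiff.comp hf
  -- dbar f is in L^2
  have hdf : ∀ j, MemLp (dzb (b j) (fun y => (f y : ℂ))) 2 nu := by
    intro j
    obtain ⟨C, hC⟩ := (hf.continuous_fderiv (by simp)).bounded_above_of_compact_support
      (hfc.fderiv ℝ)
    refine MemLp.of_bound (HD.contDiff_dzb hfC (b j)).continuous.aestronglyMeasurable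
      ((C * ‖b j‖ + C * ‖I • b j‖) / 2) (Filter.Eventually.of_forall fun x => ?_)
    have h1 : ‖fderiv ℝ f x (b j)‖ ≤ C * ‖b j‖ :=
      ((fderiv ℝ f x).le_opNorm _).trans (mul_le_mul_of_nonneg_right (hC x) (norm_nonneg _))
    have h2 : ‖fderiv ℝ f x (I • b j)‖ ≤ C * ‖I • b j‖ :=
      ((fderiv ℝ f x).le_opNorm _).trans (mul_le_mul_of_nonneg_right (hC x) (norm_nonneg _))
    rw [dzb, norm_div, HD.fderiv_ofReal hf, HD.fderiv_ofReal hf]
    have h3 : ‖((fderiv ℝ f x (b j) : ℝ) : ℂ) + I * ((fderiv ℝ f x (I • b j) : ℝ) : ℂ)‖ ≤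
        ‖fderiv ℝ f x (b j)‖ + ‖fderiv ℝ f x (I • b j)‖ := by
      refine (norm_add_le _ _).trans (le_of_eq ?_)
      rw [norm_mul, norm_I, one_mul, Complex.norm_real, Complex.norm_real]
    have h4 : ‖(2 : ℂ)‖ = 2 := by simp
    rw [h4]
    linarith
  have halL : ∀ j, MemLp (al j) 2 nu := fun j => HD.SC_memLp nu (hal j)
  set A : HD.HH nu ι := HD.mk nu al halL with hA
  set F : HD.HH nu ι := HD.mk nu (fun j => dzb (b j) (fun y => (f y : ℂ))) hdf with hF
  have hFK : F ∈ HD.KK Ps hPs b nu := HD.mk_dzb_mem mu Ps hPs b _ hfC hdf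
  have hKcomplete : (HD.KK Ps hPs b nu).HasOrthogonalProjection := by
    unfold HD.KK
    infer_instance
  obtain ⟨y, hy, z, hz, hyz⟩ := (HD.KK Ps hPs b nu).exists_add_mem_mem_orthogonal A
  -- the divergence
  set g : E → ℂ := fun x => ∑ j, del Ps (b j) (al j) x with hg
  have hgSC : SC g := HD.SC_sum fun j => HD.SC_del hPs (hal j) (b j)
  have hgL : MemLp g 2 nu := HD.SC_memLp nu hgSC
  have hyL : ∀ j, MemLp (y j : E → ℂ) 2 nu := fun j => Lp.memLp (y j)
  have hint : ∀ u v : E → ℂ, MemLp u 2 nu → MemLp v 2 nu →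
      Integrable (fun x => u x * (starRingEnd ℂ) (v x)) nu := by
    intro u v hu hv
    have := L2.integrable_inner (𝕜 := ℂ) (hv.toLp v) (hu.toLp u)
    refine this.congr ?_
    filter_upwards [hu.coeFn_toLp, hv.coeFn_toLp] with x h1 h2
    rw [h1, h2, RCLike.inner_apply]
  have hdelta : ∀ ph : E → ℂ, SC ph →
      ∫ x, ∑ j, y j x * (starRingEnd ℂ) (dzb (b j) ph x) ∂nu =
      ∫ x, g x * (starRingEnd ℂ) (ph x) ∂nu := by
    intro ph hph
    have hpL : ∀ j, MemLp (dzb (b j) ph) 2 nu := fun j => HD.SC_memLp nu (HD.SC_dzb hph (b j))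
    have hPK := HD.mk_dzb_mem mu Ps hPs b ph hph.1 hpL
    have h1 : inner ℂ (HD.mk nu (fun j => dzb (b j) ph) hpL) y =
        inner ℂ (HD.mk nu (fun j => dzb (b j) ph) hpL) A := by
      rw [hyz, inner_add_right, Submodule.inner_right_of_mem_orthogonal hPK hz, add_zero]
    rw [HD.inner_mk_left, HD.inner_mk_left] at h1
    rw [integral_finsetSum _ fun j _ => hint _ _ (hyL j) (hpL j), h1]
    have h2 : ∀ j, ∫ x, A j x * (starRingEnd ℂ) (dzb (b j) ph x) ∂nu =
        ∫ x, del Ps (b j) (al j) x * (starRingEnd ℂ) (ph x) ∂nu := by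
      intro j
      have h3 := ibp mu Ps hPs (b j) ph (al j) hph.1 (hal j)
      have h4 := congrArg (starRingEnd ℂ) h3
      rw [← integral_conj, ← integral_conj] at h4
      simp only [map_mul, conj_conj] at h4
      calc ∫ x, A j x * (starRingEnd ℂ) (dzb (b j) ph x) ∂nu
          = ∫ x, (starRingEnd ℂ) (dzb (b j) ph x) * al j x ∂nu := by
            refine integral_congr_ae ?_
            filter_upwards [(halL j).coeFn_toLp] with x hx
            rw [hA, HD.mk_apply, hx, mul_comm]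
        _ = ∫ x, (starRingEnd ℂ) (ph x) * del Ps (b j) (al j) x ∂nu := h4
        _ = _ := by
            refine integral_congr_ae (Filter.Eventually.of_forall fun x => ?_)
            simp only
            rw [mul_comm]
    rw [Finset.sum_congr rfl fun j _ => h2 j, ← integral_finsetSum]
    · refine integral_congr_ae (Filter.Eventually.of_forall fun x => ?_)
      simp only [hg]
      rw [Finset.sum_mul]
    · intro j _
      exact hint _ _ (HD.SC_memLp nu (HD.SC_del hPs (hal j) (b j))) (HD.SC_memLp nu hph)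
  have hbasic := weak_basic mu Ps hPs hpsh b (fun j => (y j : E → ℂ)) hyL g hgL
    ((HD.mem_KK Ps hPs b nu y).1 hy) hdelta
  -- the pairing only sees y
  have hpair : ∫ x, ∑ j, dzb (b j) (fun y => (f y : ℂ)) x * (starRingEnd ℂ) (al j x) ∂nu =
      ∫ x, ∑ j, dzb (b j) (fun y => (f y : ℂ)) x * (starRingEnd ℂ) (y j x) ∂nu := by
    have h1 : inner ℂ A F = inner ℂ y F := by
      rw [hyz, inner_add_left, Submodule.inner_left_of_mem_orthogonal hFK hz, add_zero]
    rw [hA, HD.inner_mk_left, PiLp.inner_apply] at h1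
    rw [integral_finsetSum _ fun j _ => hint _ _ (hdf j) (halL j),
      integral_finsetSum _ fun j _ => hint _ _ (hdf j) (hyL j)]
    have h2 : ∀ j, ∫ x, F j x * (starRingEnd ℂ) (al j x) ∂nu =
        ∫ x, dzb (b j) (fun y => (f y : ℂ)) x * (starRingEnd ℂ) (al j x) ∂nu := by
      intro j
      refine integral_congr_ae ?_
      filter_upwards [(hdf j).coeFn_toLp] with x hx
      rw [hF, HD.mk_apply, hx]
    have h3 : ∀ j, inner ℂ (y j) (F j) =
        ∫ x, dzb (b j) (fun y => (f y : ℂ)) x * (starRingEnd ℂ) (y j x) ∂nu := by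
      intro j
      rw [MeasureTheory.L2.inner_def]
      refine integral_congr_ae ?_
      filter_upwards [(hdf j).coeFn_toLp] with x hx
      rw [RCLike.inner_apply, hF, HD.mk_apply, hx]
    rw [Finset.sum_congr rfl fun j _ => (h2 j).symm, h1]
    exact Finset.sum_congr rfl fun j _ => h3 j
  rw [hpair]
  set G : E → ℂ := fun x => ∑ j, dzb (b j) (fun y => (f y : ℂ)) x * (starRingEnd ℂ) (y j x) with hG
  have hGm : AEStronglyMeasurable G nu := by
    refine Finset.aestronglyMeasurable_fun_sum _ fun j _ => ?_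
    exact (hint _ _ (hdf j) (hyL j)).aestronglyMeasurable
  have hGb : ∀ x, ‖G x‖ ^ 2 ≤ Q x * Lform Ps x (∑ j, y j x • b j) := by
    intro x
    have h1 : G x = (starRingEnd ℂ) (dz (∑ j, y j x • b j) (fun y => (f y : ℂ)) x) := by
      rw [HD.dz_sum, map_sum]
      refine Finset.sum_congr rfl fun j _ => ?_
      rw [map_mul, HD.dzb_ofReal hf, mul_comm]
    rw [h1, RCLike.norm_conj, HD.norm_dz_ofReal_sq hf]
    have := H x (∑ j, y j x • b j)
    linarith
  have hgi : Integrable (fun x => ‖g x‖ ^ 2) nu := hgL.integrable_norm_pow (by norm_num)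
  -- Cauchy-Schwarz with weights
  set f1 : E → ℝ≥0∞ := fun x => ENNReal.ofReal (Real.sqrt (Q x)) with hf1
  set g1 : E → ℝ≥0∞ := fun x => ‖G x‖ₑ * (f1 x)⁻¹ with hg1
  have hf1m : Measurable f1 := (Real.continuous_sqrt.measurable.comp hQc).ennreal_ofReal
  have hg1m : AEMeasurable g1 nu := hGm.enorm.mul hf1m.inv.aemeasurable
  have hf1sq : ∀ x, f1 x ^ 2 = ENNReal.ofReal (Q x) := by
    intro x
    rw [hf1, ← ENNReal.ofReal_pow (Real.sqrt_nonneg _), Real.sq_sqrt (hQ x)]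
  have hG0 : ∀ x, Q x = 0 → ‖G x‖ₑ = 0 := by
    intro x hx
    have h1 := hGb x
    rw [hx, zero_mul] at h1
    have h2 : ‖G x‖ = 0 := by
      have h3 : ‖G x‖ ^ 2 = 0 := le_antisymm h1 (by positivity)
      exact pow_eq_zero_iff (two_ne_zero) |>.1 h3
    rw [← ofReal_norm, h2, ENNReal.ofReal_zero]
  have hfg : ∀ x, ‖G x‖ₑ = f1 x * g1 x := by
    intro x
    rcases (hQ x).eq_or_lt with hx | hx
    · rw [hg1]
      simp only
      rw [hG0 x hx.symm]
      simp
    · have h1 : f1 x ≠ 0 := by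
        rw [hf1]
        simp only [ne_eq, ENNReal.ofReal_eq_zero, not_le]
        exact Real.sqrt_pos.2 hx
      have h2 : f1 x ≠ ⊤ := ENNReal.ofReal_ne_top
      rw [hg1]
      simp only
      rw [mul_comm, mul_assoc, ENNReal.inv_mul_cancel h1 h2, mul_one]
  have hg1sq : ∀ x, g1 x ^ 2 ≤ ENNReal.ofReal (Lform Ps x (∑ j, y j x • b j)) := by
    intro x
    rcases (hQ x).eq_or_lt with hx | hx
    · rw [hg1]
      simp only
      rw [hG0 x hx.symm]
      simp
    · have h1 : ENNReal.ofReal (Q x) ≠ 0 := by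
        simp only [ne_eq, ENNReal.ofReal_eq_zero, not_le]
        exact hx
      have h2 : g1 x ^ 2 = ‖G x‖ₑ ^ 2 / ENNReal.ofReal (Q x) := by
        rw [hg1]
        simp only
        rw [mul_pow, ← ENNReal.inv_pow, hf1sq, div_eq_mul_inv]
      rw [h2]
      refine ENNReal.div_le_of_le_mul ?_
      rw [← ENNReal.ofReal_mul (hpsh _ _), ← ofReal_norm, ← ENNReal.ofReal_pow (norm_nonneg _)]
      refine ENNReal.ofReal_le_ofReal ?_
      rw [mul_comm]
      exact hGb x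
  have hQE : ∫⁻ x, ENNReal.ofReal (Q x) ∂nu = ENNReal.ofReal (∫ x, Q x ∂nu) :=
    (ofReal_integral_eq_lintegral_ofReal hQi (Filter.Eventually.of_forall hQ)).symm
  have hQI0 : 0 ≤ ∫ x, Q x ∂nu := integral_nonneg hQ
  have hfin : ENNReal.ofReal (‖∫ x, G x ∂nu‖ ^ 2) ≤
      ENNReal.ofReal ((∫ x, Q x ∂nu) * ∫ x, ‖g x‖ ^ 2 ∂nu) := by
    calc ENNReal.ofReal (‖∫ x, G x ∂nu‖ ^ 2) = ‖∫ x, G x ∂nu‖ₑ ^ 2 := by
          rw [ENNReal.ofReal_pow (norm_nonneg _), ofReal_norm]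
      _ ≤ (∫⁻ x, ‖G x‖ₑ ∂nu) ^ 2 :=
          ENNReal.pow_le_pow_left (enorm_integral_le_lintegral_enorm _)
      _ = (∫⁻ x, f1 x * g1 x ∂nu) ^ 2 := by simp_rw [hfg]
      _ ≤ (∫⁻ x, f1 x ^ 2 ∂nu) * ∫⁻ x, g1 x ^ 2 ∂nu :=
          THolA_cs nu f1 g1 hf1m.aemeasurable hg1m
      _ ≤ ENNReal.ofReal (∫ x, Q x ∂nu) *
            ∫⁻ x, ENNReal.ofReal (Lform Ps x (∑ j, y j x • b j)) ∂nu := by
          simp_rw [hf1sq]
          rw [hQE]
          gcongr with x
          exact hg1sq x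
      _ ≤ ENNReal.ofReal (∫ x, Q x ∂nu) * ∫⁻ x, ENNReal.ofReal (‖g x‖ ^ 2) ∂nu := by
          gcongr
      _ = ENNReal.ofReal ((∫ x, Q x ∂nu) * ∫ x, ‖g x‖ ^ 2 ∂nu) := by
          rw [← ofReal_integral_eq_lintegral_ofReal hgi
            (Filter.Eventually.of_forall fun x => by positivity),
            ENNReal.ofReal_mul hQI0]
  exact (ENNReal.ofReal_le_ofReal_iff (by positivity)).1 hfin

end GTor
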