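/- piece TH2: dual estimate with variable Q for general smooth f -/
import Pool.Agent.Lib_MP_e0d435_ag_T.THolA

open Finset MeasureTheory Complex
open scoped ENNReal ContDiff

namespace GTor
open GPn

namespace THolB

section one

/-- second derivative of the penalty -/
noncomputable def k2 (R u : ℝ) : ℝ := expNegInvGlue (u - R)

/-- first derivative of the penalty -/
noncomputable def k1 (R t : ℝ) : ℝ := ∫ u in R..t, k2 R u

/-- penalty -/
noncomputable def k0 (R s : ℝ) : ℝ := ∫ t in R..s, k1 R t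

theorem k2_contDiff (R : ℝ) : ContDiff ℝ ∞ (k2 R) :=
  (expNegInvGlue.contDiff (n := (⊤ : ℕ∞))).comp (contDiff_id.sub contDiff_const)

theorem k2_nonneg (R u : ℝ) : 0 ≤ k2 R u := expNegInvGlue.nonneg _

theorem k1_hasDerivAt (R t : ℝ) : HasDerivAt (k1 R) (k2 R t) t := by
  have hc : Continuous (k2 R) := (k2_contDiff R).continuous
  exact intervalIntegral.integral_hasDerivAt_right (hc.intervalIntegrable _ _)
    (hc.stronglyMeasurableAtFilter _ _) hc.continuousAt

theorem k1_contDiff (R : ℝ) : ContDiff ℝ ∞ (k1 R) := by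
  rw [contDiff_infty_iff_deriv]
  refine ⟨fun t => (k1_hasDerivAt R t).differentiableAt, ?_⟩
  have : deriv (k1 R) = k2 R := by
    funext t
    exact (k1_hasDerivAt R t).deriv
  rw [this]
  exact k2_contDiff R

theorem k0_hasDerivAt (R t : ℝ) : HasDerivAt (k0 R) (k1 R t) t := by
  have hc : Continuous (k1 R) := (k1_contDiff R).continuous
  exact intervalIntegral.integral_hasDerivAt_right (hc.intervalIntegrable _ _)
    (hc.stronglyMeasurableAtFilter _ _) hc.continuousAt

theorem k0_contDiff (R : ℝ) : ContDiff ℝ ∞ (k0 R) := by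
  rw [contDiff_infty_iff_deriv]
  refine ⟨fun t => (k0_hasDerivAt R t).differentiableAt, ?_⟩
  have : deriv (k0 R) = k1 R := by
    funext t
    exact (k0_hasDerivAt R t).deriv
  rw [this]
  exact k1_contDiff R

theorem k1_mono (R : ℝ) : Monotone (k1 R) :=
  monotone_of_deriv_nonneg (fun t => (k1_hasDerivAt R t).differentiableAt)
    (fun t => by rw [(k1_hasDerivAt R t).deriv]; exact k2_nonneg R t)

theorem k1_zero {R t : ℝ} (h : t ≤ R) : k1 R t = 0 := by
  unfold k1
  rw [intervalIntegral.integral_symm]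
  rw [intervalIntegral.integral_of_le h]
  rw [setIntegral_eq_zero_of_forall_eq_zero]
  · simp
  · intro u hu
    exact expNegInvGlue.zero_of_nonpos (by linarith [hu.2])

theorem k1_nonneg (R t : ℝ) : 0 ≤ k1 R t := by
  rcases le_total t R with h | h
  · exact (k1_zero h).symm.le
  · rw [← k1_zero (le_refl R)]
    exact k1_mono R h

theorem k1_pos {R t : ℝ} (h : R < t) : 0 < k1 R t := by
  unfold k1
  refine intervalIntegral.intervalIntegral_pos_of_pos_on
    ((k2_contDiff R).continuous.intervalIntegrable _ _) ?_ h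
  intro u hu
  exact expNegInvGlue.pos_of_pos (by linarith [hu.1])

theorem k0_mono (R : ℝ) : Monotone (k0 R) :=
  monotone_of_deriv_nonneg (fun t => (k0_hasDerivAt R t).differentiableAt)
    (fun t => by rw [(k0_hasDerivAt R t).deriv]; exact k1_nonneg R t)

theorem k0_zero {R t : ℝ} (h : t ≤ R) : k0 R t = 0 := by
  unfold k0
  rw [intervalIntegral.integral_symm]
  rw [intervalIntegral.integral_of_le h]
  rw [setIntegral_eq_zero_of_forall_eq_zero]
  · simp
  · intro u hu
    exact k1_zero hu.2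

theorem k0_nonneg (R t : ℝ) : 0 ≤ k0 R t := by
  rcases le_total t R with h | h
  · exact (k0_zero h).symm.le
  · rw [← k0_zero (le_refl R)]
    exact k0_mono R h

theorem k0_pos {R t : ℝ} (h : R < t) : 0 < k0 R t := by
  unfold k0
  refine intervalIntegral.intervalIntegral_pos_of_pos_on
    ((k1_contDiff R).continuous.intervalIntegrable _ _) ?_ h
  intro u hu
  exact k1_pos hu.1

/-- cutoff: one up to 2 R, zero from 3 R on -/
noncomputable def ch (R s : ℝ) : ℝ := Real.smoothTransition (3 - s / R)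

theorem ch_contDiff (R : ℝ) : ContDiff ℝ ∞ (ch R) :=
  (Real.smoothTransition.contDiff (n := (⊤ : ℕ∞))).comp (contDiff_const.sub (contDiff_id.div_const R))

theorem ch_nonneg (R s : ℝ) : 0 ≤ ch R s := Real.smoothTransition.nonneg _

theorem ch_le_one (R s : ℝ) : ch R s ≤ 1 := Real.smoothTransition.le_one _

theorem ch_one {R s : ℝ} (hR : 0 < R) (h : s ≤ 2 * R) : ch R s = 1 := by
  apply Real.smoothTransition.one_of_one_le
  have : s / R ≤ 2 := by rw [div_le_iff₀ hR]; exact h
  linarith

theorem ch_zero {R s : ℝ} (hR : 0 < R) (h : 3 * R ≤ s) : ch R s = 0 := by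
  apply Real.smoothTransition.zero_of_nonpos
  have : 3 ≤ s / R := by rw [le_div_iff₀ hR]; exact h
  linarith

theorem ch_deriv_left {R s : ℝ} (hR : 0 < R) (h : s ≤ 2 * R) : deriv (ch R) s = 0 := by
  have : IsLocalMax (ch R) s := by
    apply Filter.Eventually.of_forall
    intro t
    rw [ch_one hR h]
    exact ch_le_one R t
  exact this.deriv_eq_zero

theorem ch_deriv_right {R s : ℝ} (hR : 0 < R) (h : 3 * R ≤ s) : deriv (ch R) s = 0 := by
  have : IsLocalMin (ch R) s := by
    apply Filter.Eventually.of_forall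
    intro t
    rw [ch_zero hR h]
    exact ch_nonneg R t
  exact this.deriv_eq_zero

theorem ch_deriv_bound {R : ℝ} (hR : 0 < R) : ∃ C, 0 ≤ C ∧ ∀ s, |deriv (ch R) s| ≤ C := by
  have hc : Continuous (deriv (ch R)) :=
    ((contDiff_infty_iff_deriv.1 (ch_contDiff R)).2).continuous
  obtain ⟨C, hC⟩ := (isCompact_Icc (a := 2 * R) (b := 3 * R)).exists_bound_of_continuousOn
    hc.continuousOn
  refine ⟨max C 0, le_max_right _ _, fun s => ?_⟩
  rcases le_total s (2 * R) with h | h
  · rw [ch_deriv_left hR h, abs_zero]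
    exact le_max_right _ _
  · rcases le_total (3 * R) s with h' | h'
    · rw [ch_deriv_right hR h', abs_zero]
      exact le_max_right _ _
    · exact le_trans (hC s ⟨h, h'⟩) (le_max_left _ _)

end one

section nbs

variable {E : Type*} [NormedAddCommGroup E] [NormedSpace ℂ E] {κ : Type*} [Fintype κ]

/-- sum of squares of linear functionals -/
noncomputable def nb (L : κ → E →L[ℝ] ℝ) (x : E) : ℝ := ∑ i, L i x ^ 2

/-- its derivative -/
noncomputable def BB (L : κ → E →L[ℝ] ℝ) (x a : E) : ℝ := 2 * ∑ i, L i x * L i a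

theorem nb_nonneg (L : κ → E →L[ℝ] ℝ) (x : E) : 0 ≤ nb L x :=
  Finset.sum_nonneg fun _ _ => sq_nonneg _

theorem nb_contDiff (L : κ → E →L[ℝ] ℝ) : ContDiff ℝ ∞ (nb L) := by
  unfold nb
  exact ContDiff.sum fun i _ => ((L i).contDiff).pow 2

theorem BB_contDiff (L : κ → E →L[ℝ] ℝ) (a : E) : ContDiff ℝ ∞ (fun x => BB L x a) := by
  unfold BB
  exact contDiff_const.mul (ContDiff.sum fun i _ => ((L i).contDiff).mul contDiff_const)

theorem nb_hasFDerivAt (L : κ → E →L[ℝ] ℝ) (x : E) :
    HasFDerivAt (nb L) (∑ i, (2 * L i x) • L i) x := by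
  unfold nb
  apply HasFDerivAt.fun_sum
  intro i _
  have h := ((L i).hasFDerivAt (x := x)).pow 2
  simpa using h

theorem nb_fderiv (L : κ → E →L[ℝ] ℝ) (x a : E) : fderiv ℝ (nb L) x a = BB L x a := by
  rw [(nb_hasFDerivAt L x).fderiv]
  simp only [_root_.sum_apply, _root_.smul_apply, smul_eq_mul, BB]
  rw [Finset.mul_sum]
  refine Finset.sum_congr rfl fun i _ => ?_
  ring

theorem BB_fderiv (L : κ → E →L[ℝ] ℝ) (x a v : E) :
    fderiv ℝ (fun y => BB L y a) x v = BB L v a := by
  have h : (fun y => BB L y a) = fun y => (2 • ∑ i, (L i a) • L i) y := by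
    funext y
    simp only [BB, _root_.smul_apply, _root_.sum_apply, smul_eq_mul,
      nsmul_eq_mul, Nat.cast_ofNat]
    congr 1
    refine Finset.sum_congr rfl fun i _ => ?_
    ring
  rw [h, ContinuousLinearMap.fderiv]
  exact (congrFun h v).symm

theorem BB_self (L : κ → E →L[ℝ] ℝ) (a : E) : BB L a a = 2 * nb L a := by
  unfold BB nb
  congr 1
  refine Finset.sum_congr rfl fun i _ => ?_
  ring

theorem BB_sq (L : κ → E →L[ℝ] ℝ) (x a : E) : BB L x a ^ 2 ≤ 4 * nb L x * nb L a := by
  have h := Finset.sum_mul_sq_le_sq_mul_sq Finset.univ (fun i => L i x) (fun i => L i a)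
  unfold BB nb
  nlinarith [h]

/-- chain rule -/
theorem comp_fderiv (L : κ → E →L[ℝ] ℝ) {k : ℝ → ℝ} (hk : ContDiff ℝ ∞ k) (x a : E) :
    fderiv ℝ (fun y => k (nb L y)) x a = deriv k (nb L x) * BB L x a := by
  have h1 : HasDerivAt k (deriv k (nb L x)) (nb L x) :=
    ((hk.differentiable (by simp)) _).hasDerivAt
  have h2 := h1.comp_hasFDerivAt x (nb_hasFDerivAt L x)
  have h3 : fderiv ℝ (fun y => k (nb L y)) x = deriv k (nb L x) • ∑ i, (2 * L i x) • L i :=
    h2.fderiv
  rw [h3, _root_.smul_apply, ← (nb_hasFDerivAt L x).fderiv, nb_fderiv, smul_eq_mul]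

/-- second derivative of a function of `nb` -/
theorem comp_fderiv2 (L : κ → E →L[ℝ] ℝ) {k : ℝ → ℝ} (hk : ContDiff ℝ ∞ k) (x a : E) :
    fderiv ℝ (fun y => fderiv ℝ (fun z => k (nb L z)) y a) x a =
      deriv (deriv k) (nb L x) * BB L x a ^ 2 + deriv k (nb L x) * (2 * nb L a) := by
  have hk1 : ContDiff ℝ ∞ (deriv k) := (contDiff_infty_iff_deriv.1 hk).2
  have h1 : (fun y => fderiv ℝ (fun z => k (nb L z)) y a) =
      fun y => deriv k (nb L y) * BB L y a := by
    funext y
    exact comp_fderiv L hk y a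
  rw [h1]
  have d1 : DifferentiableAt ℝ (fun y => deriv k (nb L y)) x :=
    ((hk1.comp (nb_contDiff L)).differentiable (by simp)) x
  have d2 : DifferentiableAt ℝ (fun y => BB L y a) x :=
    ((BB_contDiff L a).differentiable (by simp)) x
  rw [fderiv_fun_mul d1 d2]
  simp only [_root_.add_apply, _root_.smul_apply, smul_eq_mul]
  rw [comp_fderiv L hk1, BB_fderiv, BB_self]
  ring

/-- Levi form of a sum -/
theorem Lform_add (Ps K : E → ℝ) (hPs : ContDiff ℝ ∞ Ps) (hK : ContDiff ℝ ∞ K) (M : ℝ) (x a : E) :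
    Lform (fun y => Ps y + M * K y) x a = Lform Ps x a + M * Lform K x a := by
  have key : ∀ v : E, fderiv ℝ (fun y => fderiv ℝ (fun z => Ps z + M * K z) y v) x v =
      fderiv ℝ (fun y => fderiv ℝ Ps y v) x v + M * fderiv ℝ (fun y => fderiv ℝ K y v) x v := by
    intro v
    have h1 : (fun y => fderiv ℝ (fun z => Ps z + M * K z) y v) =
        fun y => fderiv ℝ Ps y v + M * fderiv ℝ K y v := by
      funext y
      have d1 : DifferentiableAt ℝ Ps y := (hPs.differentiable (by simp)) y
      have d2 : DifferentiableAt ℝ K y := (hK.differentiable (by simp)) y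
      rw [fderiv_fun_add d1 (d2.const_mul M), fderiv_const_mul d2]
      simp
    have e1 : DifferentiableAt ℝ (fun y => fderiv ℝ Ps y v) x :=
      (((hPs.fderiv_right (m := ∞) (by simp)).clm_apply contDiff_const).differentiable (by simp)) x
    have e2 : DifferentiableAt ℝ (fun y => fderiv ℝ K y v) x :=
      (((hK.fderiv_right (m := ∞) (by simp)).clm_apply contDiff_const).differentiable (by simp)) x
    rw [h1, fderiv_fun_add e1 (e2.const_mul M), fderiv_const_mul e2]
    simp
  unfold Lform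
  rw [key, key]
  ring

end nbs

section core

variable {E : Type*} [NormedAddCommGroup E] [NormedSpace ℂ E] [FiniteDimensional ℂ E]
  [MeasurableSpace E] [BorelSpace E]

omit [FiniteDimensional ℂ E] [NormedSpace ℂ E] in
theorem integral_gm' (mu : Measure E) (Ps : E → ℝ) (hPs : Continuous Ps)
    {F : Type*} [NormedAddCommGroup F] [NormedSpace ℝ F] (g : E → F) :
    ∫ x, g x ∂(gm mu Ps) = ∫ x, Real.exp (-Ps x) • g x ∂mu := by
  rw [gm, integral_withDensity_eq_integral_toReal_smul]
  · refine integral_congr_ae (Filter.Eventually.of_forall fun x => ?_)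
    simp only [ENNReal.toReal_ofReal (Real.exp_pos _).le]
  · fun_prop
  · exact Filter.Eventually.of_forall fun x => ENNReal.ofReal_lt_top

omit [FiniteDimensional ℂ E] [NormedSpace ℂ E] in
theorem integrable_gm' (mu : Measure E) (Ps : E → ℝ) (hPs : Continuous Ps)
    {F : Type*} [NormedAddCommGroup F] [NormedSpace ℝ F] (g : E → F) :
    Integrable g (gm mu Ps) ↔ Integrable (fun x => Real.exp (-Ps x) • g x) mu := by
  rw [gm, integrable_withDensity_iff_integrable_smul']
  · simp only [ENNReal.toReal_ofReal (Real.exp_pos _).le]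
  · fun_prop
  · exact Filter.Eventually.of_forall fun x => ENNReal.ofReal_lt_top

omit [MeasurableSpace E] [BorelSpace E] in
/-- coordinates -/
theorem exists_L {ι : Type*} [Fintype ι] (b : Module.Basis ι ℂ E) :
    ∃ L : ι ⊕ ι → E →L[ℝ] ℝ, (∀ a, nb L (I • a) = nb L a) ∧ ∀ t, IsCompact {x | nb L x ≤ t} := by
  let cL : ι → E →L[ℝ] ℂ := fun j =>
    (LinearMap.toContinuousLinearMap (b.coord j)).restrictScalars ℝ
  have hcL : ∀ j x, cL j x = b.repr x j := fun j x => rfl
  let L : ι ⊕ ι → E →L[ℝ] ℝ :=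
    Sum.elim (fun j => reCLM.comp (cL j)) (fun j => imCLM.comp (cL j))
  have hnb : ∀ x, nb L x = ∑ j, ((b.repr x j).re ^ 2 + (b.repr x j).im ^ 2) := by
    intro x
    unfold nb
    rw [Fintype.sum_sum_type, ← Finset.sum_add_distrib]
    rfl
  refine ⟨L, fun a => ?_, fun t => ?_⟩
  · rw [hnb, hnb]
    refine Finset.sum_congr rfl fun j _ => ?_
    have : b.repr (I • a) j = I * b.repr a j := by
      rw [map_smul, Finsupp.smul_apply, smul_eq_mul]
    rw [this, Complex.mul_re, Complex.mul_im]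
    simp
    ring
  · have : ProperSpace E := FiniteDimensional.proper ℂ E
    apply Metric.isCompact_of_isClosed_isBounded
    · exact isClosed_le (nb_contDiff L).continuous continuous_const
    · rw [isBounded_iff_forall_norm_le]
      refine ⟨∑ j, Real.sqrt t * ‖b j‖, fun x hx => ?_⟩
      have hx' : nb L x ≤ t := hx
      have h1 : x = ∑ j, b.repr x j • b j := (b.sum_repr x).symm
      calc ‖x‖ = ‖∑ j, b.repr x j • b j‖ := by rw [← h1]
        _ ≤ ∑ j, ‖b.repr x j • b j‖ := norm_sum_le _ _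
        _ ≤ ∑ j, Real.sqrt t * ‖b j‖ := by
            refine Finset.sum_le_sum fun j _ => ?_
            rw [norm_smul]
            refine mul_le_mul_of_nonneg_right ?_ (norm_nonneg _)
            apply Real.le_sqrt_of_sq_le
            refine le_trans ?_ hx'
            rw [hnb, ← Complex.normSq_eq_norm_sq, Complex.normSq_apply]
            have h2 := Finset.single_le_sum
              (f := fun j => (b.repr x j).re ^ 2 + (b.repr x j).im ^ 2)
              (fun i _ => by positivity) (Finset.mem_univ j)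
            nlinarith [h2]

theorem core (mu : Measure E) [mu.IsAddHaarMeasure] (Ps : E → ℝ)
    (hPs : ContDiff ℝ ∞ Ps) (hpsh : ∀ x a, 0 ≤ Lform Ps x a) [IsFiniteMeasure (gm mu Ps)]
    (f : E → ℝ) (hf : ContDiff ℝ ∞ f) (C0 : ℝ) (hC0 : ∀ x, |f x| ≤ C0)
    (Q : E → ℝ) (hQ : ∀ x, 0 ≤ Q x) (hQc : Measurable Q) (hQi : Integrable Q (gm mu Ps))
    (H : ∀ x a, (fderiv ℝ f x a) ^ 2 + (fderiv ℝ f x (I • a)) ^ 2 ≤ 4 * Q x * Lform Ps x a)
    {ι : Type*} [Fintype ι] (b : Module.Basis ι ℂ E) (al : ι → E → ℂ) (hal : ∀ j, SC (al j))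
    {κ : Type*} [Fintype κ] (L : κ → E →L[ℝ] ℝ) (hLI : ∀ a, nb L (I • a) = nb L a)
    (hLc : ∀ t, IsCompact {x | nb L x ≤ t}) (R : ℝ) (hR : 0 < R)
    (hsupp : ∀ j, ∀ x ∈ tsupport (al j), nb L x < R) (C1 : ℝ)
    (hC1 : ∀ s, |deriv (ch R) s| ≤ C1) (M : ℝ) (hM : 0 < M) :
    ‖∫ x, ∑ j, dzb (b j) (fun y => (f y : ℂ)) x * (starRingEnd ℂ) (al j x) ∂(gm mu Ps)‖ ^ 2 ≤
      ((1 + 2 / (M * k0 R (2 * R))) * (∫ x, Q x ∂(gm mu Ps)) +
        (12 * R * C1 ^ 2 * C0 ^ 2 / k1 R (2 * R)) / M * (gm mu Ps).real Set.univ) *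
        ∫ x, ‖∑ j, del Ps (b j) (al j) x‖ ^ 2 ∂(gm mu Ps) := by
  have hk00 : 0 < k0 R (2 * R) := k0_pos (by linarith)
  have hk11 : 0 < k1 R (2 * R) := k1_pos (by linarith)
  set D : ℝ := 12 * R * C1 ^ 2 * C0 ^ 2 / k1 R (2 * R) with hD
  have hD0 : 0 ≤ D := by positivity
  have hC10 : 0 ≤ C1 := le_trans (abs_nonneg _) (hC1 0)
  have hC00 : 0 ≤ C0 := le_trans (abs_nonneg _) (hC0 0)
  have hdk0 : deriv (k0 R) = k1 R := by
    funext t
    exact (k0_hasDerivAt R t).deriv
  have hdk1 : deriv (k1 R) = k2 R := by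
    funext t
    exact (k1_hasDerivAt R t).deriv
  -- the new weight
  set K : E → ℝ := fun y => k0 R (nb L y) with hK
  have hKs : ContDiff ℝ ∞ K := (k0_contDiff R).comp (nb_contDiff L)
  set Ps' : E → ℝ := fun y => Ps y + M * K y with hPs'
  have hPs's : ContDiff ℝ ∞ Ps' := hPs.add (contDiff_const.mul hKs)
  have hLK : ∀ x a, k1 R (nb L x) * nb L a ≤ Lform K x a := by
    intro x a
    unfold Lform
    rw [hK, comp_fderiv2 L (k0_contDiff R), comp_fderiv2 L (k0_contDiff R), hdk0, hdk1, hLI]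
    have h1 : 0 ≤ k2 R (nb L x) * BB L x a ^ 2 := mul_nonneg (k2_nonneg _ _) (sq_nonneg _)
    have h2 : 0 ≤ k2 R (nb L x) * BB L x (I • a) ^ 2 := mul_nonneg (k2_nonneg _ _) (sq_nonneg _)
    linarith
  have hLP : ∀ x a, Lform Ps x a + M * (k1 R (nb L x) * nb L a) ≤ Lform Ps' x a := by
    intro x a
    rw [hPs', Lform_add Ps K hPs hKs]
    have := mul_le_mul_of_nonneg_left (hLK x a) hM.le
    linarith
  have hpsh' : ∀ x a, 0 ≤ Lform Ps' x a := by
    intro x a
    refine le_trans ?_ (hLP x a)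
    have h1 := mul_nonneg (k1_nonneg R (nb L x)) (nb_nonneg L a)
    have h2 := hpsh x a
    have h3 := mul_nonneg hM.le h1
    linarith
  have hK0 : ∀ x, 0 ≤ K x := fun x => k0_nonneg R _
  have hgle : gm mu Ps' ≤ gm mu Ps := by
    unfold gm
    apply withDensity_mono
    refine Filter.Eventually.of_forall fun x => ENNReal.ofReal_le_ofReal (Real.exp_le_exp.2 ?_)
    have := mul_nonneg hM.le (hK0 x)
    simp only [hPs']
    linarith
  have hfin : IsFiniteMeasure (gm mu Ps') := isFiniteMeasure_of_le _ hgle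
  -- the new function
  set f' : E → ℝ := fun y => ch R (nb L y) * f y with hf'
  have hchs : ContDiff ℝ ∞ (fun y => ch R (nb L y)) := (ch_contDiff R).comp (nb_contDiff L)
  have hf's : ContDiff ℝ ∞ f' := hchs.mul hf
  have hf'c : HasCompactSupport f' := by
    apply HasCompactSupport.intro (hLc (3 * R))
    intro x hx
    have hx' : 3 * R < nb L x := not_le.1 hx
    simp only [hf', ch_zero hR hx'.le, zero_mul]
  have hf'd : ∀ x a, fderiv ℝ f' x a =
      ch R (nb L x) * fderiv ℝ f x a + f x * (deriv (ch R) (nb L x) * BB L x a) := by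
    intro x a
    have d1 : DifferentiableAt ℝ (fun y => ch R (nb L y)) x := (hchs.differentiable (by simp)) x
    have d2 : DifferentiableAt ℝ f x := (hf.differentiable (by simp)) x
    rw [hf', fderiv_fun_mul d1 d2]
    simp only [_root_.add_apply, _root_.smul_apply, smul_eq_mul]
    rw [comp_fderiv L (ch_contDiff R)]
  -- the new Q
  set Q' : E → ℝ := fun x => if nb L x ≤ 2 * R then Q x else 2 * Q x + D / M with hQ'
  have hDM : 0 ≤ D / M := div_nonneg hD0 hM.le
  have hQ'0 : ∀ x, 0 ≤ Q' x := by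
    intro x
    simp only [hQ']
    split_ifs
    · exact hQ x
    · have := hQ x
      linarith
  have hQ'm : Measurable Q' := by
    apply Measurable.ite
    · exact measurableSet_le (nb_contDiff L).continuous.measurable measurable_const
    · exact hQc
    · exact (hQc.const_mul 2).add_const _
  have hQ'le : ∀ x, Q' x ≤ 2 * Q x + D / M := by
    intro x
    simp only [hQ']
    split_ifs
    · have := hQ x
      linarith
    · exact le_rfl
  have hQ'i : Integrable Q' (gm mu Ps') := by
    refine Integrable.mono_measure ?_ hgle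
    refine Integrable.mono' ((hQi.const_mul 2).add (integrable_const (D / M)))
      hQ'm.aestronglyMeasurable (Filter.Eventually.of_forall fun x => ?_)
    rw [Real.norm_eq_abs, abs_of_nonneg (hQ'0 x)]
    exact hQ'le x
  -- the new inequality
  have hterm : ∀ x a, (f x * (deriv (ch R) (nb L x) * BB L x a)) ^ 2 ≤
      12 * R * C1 ^ 2 * C0 ^ 2 * nb L a := by
    intro x a
    have hna := nb_nonneg L a
    rcases le_total (3 * R) (nb L x) with h | h
    · rw [ch_deriv_right hR h]
      simp only [zero_mul, mul_zero]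
      rw [zero_pow two_ne_zero]
      positivity
    · have e1 : f x ^ 2 ≤ C0 ^ 2 := by
        rw [← sq_abs]
        exact pow_le_pow_left₀ (abs_nonneg _) (hC0 x) 2
      have e2 : deriv (ch R) (nb L x) ^ 2 ≤ C1 ^ 2 := by
        rw [← sq_abs]
        exact pow_le_pow_left₀ (abs_nonneg _) (hC1 _) 2
      have e3 : BB L x a ^ 2 ≤ 12 * R * nb L a := by
        refine le_trans (BB_sq L x a) ?_
        nlinarith
      calc (f x * (deriv (ch R) (nb L x) * BB L x a)) ^ 2
          = f x ^ 2 * (deriv (ch R) (nb L x) ^ 2 * BB L x a ^ 2) := by ring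
        _ ≤ C0 ^ 2 * (C1 ^ 2 * (12 * R * nb L a)) := by
            apply mul_le_mul e1 _ (by positivity) (by positivity)
            exact mul_le_mul e2 e3 (by positivity) (by positivity)
        _ = 12 * R * C1 ^ 2 * C0 ^ 2 * nb L a := by ring
  have H' : ∀ x a, (fderiv ℝ f' x a) ^ 2 + (fderiv ℝ f' x (I • a)) ^ 2 ≤
      4 * Q' x * Lform Ps' x a := by
    intro x a
    have hna := nb_nonneg L a
    have hLf := hpsh x a
    have hH := H x a
    by_cases h : nb L x ≤ 2 * R
    · rw [hf'd, hf'd, ch_one hR h, ch_deriv_left hR h]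
      simp only [one_mul, zero_mul, mul_zero, add_zero]
      have h1 : Q' x = Q x := by simp only [hQ', if_pos h]
      rw [h1]
      refine le_trans hH ?_
      have h2 : Lform Ps x a ≤ Lform Ps' x a := by
        have h3 := mul_nonneg hM.le (mul_nonneg (k1_nonneg R (nb L x)) hna)
        have := hLP x a
        linarith
      exact mul_le_mul_of_nonneg_left h2 (mul_nonneg (by norm_num) (hQ x))
    · have h1 : Q' x = 2 * Q x + D / M := by simp only [hQ', if_neg h]
      have hk : k1 R (2 * R) ≤ k1 R (nb L x) := k1_mono R (not_le.1 h).le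
      have h2 : Lform Ps x a + M * (k1 R (2 * R) * nb L a) ≤ Lform Ps' x a := by
        refine le_trans ?_ (hLP x a)
        have := mul_le_mul_of_nonneg_left (mul_le_mul_of_nonneg_right hk hna) hM.le
        linarith
      have hch0 := ch_nonneg R (nb L x)
      have hch1 := ch_le_one R (nb L x)
      have hsq : ∀ u v : ℝ, (ch R (nb L x) * u + v) ^ 2 ≤ 2 * u ^ 2 + 2 * v ^ 2 := by
        intro u v
        have e1 : (ch R (nb L x) * u) ^ 2 ≤ u ^ 2 := by
          rw [mul_pow]
          have : ch R (nb L x) ^ 2 ≤ 1 := pow_le_one₀ hch0 hch1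
          nlinarith [sq_nonneg u]
        nlinarith [sq_nonneg (ch R (nb L x) * u - v)]
      rw [hf'd, hf'd]
      have e1 := hsq (fderiv ℝ f x a) (f x * (deriv (ch R) (nb L x) * BB L x a))
      have e2 := hsq (fderiv ℝ f x (I • a)) (f x * (deriv (ch R) (nb L x) * BB L x (I • a)))
      have e3 := hterm x a
      have e4 := hterm x (I • a)
      rw [hLI] at e4
      have e5 : 12 * R * C1 ^ 2 * C0 ^ 2 * nb L a = D / M * (M * (k1 R (2 * R) * nb L a)) := by
        have e50 : ∀ k' : ℝ, k' ≠ 0 → 12 * R * C1 ^ 2 * C0 ^ 2 * nb L a =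
            12 * R * C1 ^ 2 * C0 ^ 2 / k' / M * (M * (k' * nb L a)) := by
          intro k' hk'
          field_simp
        rw [hD]
        exact e50 _ hk11.ne'
      have e6 : 4 * Q' x * (Lform Ps x a + M * (k1 R (2 * R) * nb L a)) ≤
          4 * Q' x * Lform Ps' x a :=
        mul_le_mul_of_nonneg_left h2 (mul_nonneg (by norm_num) (hQ'0 x))
      refine le_trans ?_ e6
      rw [h1]
      have e7 : 0 ≤ M * (k1 R (2 * R) * nb L a) := by positivity
      have e8 : 0 ≤ Q x * (M * (k1 R (2 * R) * nb L a)) := mul_nonneg (hQ x) e7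
      have e9 : 0 ≤ D / M * Lform Ps x a := mul_nonneg hDM hLf
      nlinarith
  have hmain := dual_estimate_cs mu Ps' hPs's hpsh' f' hf's hf'c Q' hQ'0 hQ'm hQ'i H' b al hal
  -- near the support nothing changes
  have hopen : IsOpen {x | nb L x < R} := isOpen_lt (nb_contDiff L).continuous continuous_const
  have hPseq : ∀ x, nb L x < R → Ps' =ᶠ[nhds x] Ps := by
    intro x hx
    filter_upwards [hopen.mem_nhds hx] with y hy
    have hy' : nb L y < R := hy
    simp only [hPs', hK, k0_zero hy'.le, mul_zero, add_zero]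
  have hfeq : ∀ x, nb L x < R → f' =ᶠ[nhds x] f := by
    intro x hx
    filter_upwards [hopen.mem_nhds hx] with y hy
    have hy' : nb L y < R := hy
    have : nb L y ≤ 2 * R := by linarith
    simp only [hf', ch_one hR this, one_mul]
  have hL1 : ∫ x, ∑ j, dzb (b j) (fun y => (f' y : ℂ)) x * (starRingEnd ℂ) (al j x) ∂(gm mu Ps') =
      ∫ x, ∑ j, dzb (b j) (fun y => (f y : ℂ)) x * (starRingEnd ℂ) (al j x) ∂(gm mu Ps) := by
    rw [integral_gm' mu Ps' hPs's.continuous, integral_gm' mu Ps hPs.continuous]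
    refine integral_congr_ae (Filter.Eventually.of_forall fun x => ?_)
    simp only
    by_cases hx : nb L x < R
    · have h1 : Ps' x = Ps x := (hPseq x hx).eq_of_nhds
      have h2 : (fun y => (f' y : ℂ)) =ᶠ[nhds x] fun y => (f y : ℂ) := by
        filter_upwards [hfeq x hx] with y hy
        rw [hy]
      have h3 : ∀ v, dzb v (fun y => (f' y : ℂ)) x = dzb v (fun y => (f y : ℂ)) x := by
        intro v
        unfold dzb
        rw [h2.fderiv_eq]
      rw [h1]
      simp only [h3]
    · have h1 : ∀ j, al j x = 0 := by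
        intro j
        apply image_eq_zero_of_notMem_tsupport
        intro h
        exact hx (hsupp j x h)
      simp [h1]
  have hL2 : ∫ x, ‖∑ j, del Ps' (b j) (al j) x‖ ^ 2 ∂(gm mu Ps') =
      ∫ x, ‖∑ j, del Ps (b j) (al j) x‖ ^ 2 ∂(gm mu Ps) := by
    rw [integral_gm' mu Ps' hPs's.continuous, integral_gm' mu Ps hPs.continuous]
    refine integral_congr_ae (Filter.Eventually.of_forall fun x => ?_)
    simp only
    by_cases hx : nb L x < R
    · have h1 : Ps' x = Ps x := (hPseq x hx).eq_of_nhds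
      have h2 : (fun y => (Ps' y : ℂ)) =ᶠ[nhds x] fun y => (Ps y : ℂ) := by
        filter_upwards [hPseq x hx] with y hy
        rw [hy]
      have h3 : ∀ j, del Ps' (b j) (al j) x = del Ps (b j) (al j) x := by
        intro j
        unfold del dz
        rw [h2.fderiv_eq]
      rw [h1]
      simp only [h3]
    · have h1 : ∀ j, x ∉ tsupport (al j) := fun j h => hx (hsupp j x h)
      have h2 : ∀ (P : E → ℝ) j, del P (b j) (al j) x = 0 := by
        intro P j
        have h3 : al j x = 0 := image_eq_zero_of_notMem_tsupport (h1 j)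
        have h4 : fderiv ℝ (al j) x = 0 := by
          by_contra h5
          exact h1 j (support_fderiv_subset ℝ h5)
        unfold del dz
        rw [h3, h4]
        simp
      simp [h2]
  rw [hL1, hL2] at hmain
  refine le_trans hmain ?_
  apply mul_le_mul_of_nonneg_right _ (integral_nonneg fun x => sq_nonneg _)
  -- the integral of the new Q
  have hexp : Real.exp (-(M * k0 R (2 * R))) ≤ 1 / (M * k0 R (2 * R)) := by
    have h1 : 0 < M * k0 R (2 * R) := mul_pos hM hk00
    rw [Real.exp_neg, ← one_div]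
    apply one_div_le_one_div_of_le h1
    have := Real.add_one_le_exp (M * k0 R (2 * R))
    linarith
  have hexp1 : Real.exp (-(M * k0 R (2 * R))) ≤ 1 := by
    rw [Real.exp_le_one_iff]
    have := mul_pos hM hk00
    linarith
  have hpt : ∀ x, Real.exp (-Ps' x) • Q' x ≤
      Real.exp (-Ps x) • ((1 + 2 / (M * k0 R (2 * R))) * Q x + D / M) := by
    intro x
    simp only [smul_eq_mul]
    have e0 : Real.exp (-Ps' x) = Real.exp (-Ps x) * Real.exp (-(M * K x)) := by
      rw [← Real.exp_add]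
      congr 1
      simp only [hPs']
      ring
    rw [e0, mul_assoc]
    apply mul_le_mul_of_nonneg_left _ (Real.exp_pos _).le
    have hq : 0 ≤ 2 / (M * k0 R (2 * R)) * Q x := by
      have := hQ x
      positivity
    by_cases h : nb L x ≤ 2 * R
    · have h1 : Q' x = Q x := by simp only [hQ', if_pos h]
      have h2 : Real.exp (-(M * K x)) ≤ 1 := by
        rw [Real.exp_le_one_iff]
        have := mul_nonneg hM.le (hK0 x)
        linarith
      rw [h1]
      have h3 := mul_le_mul_of_nonneg_right h2 (hQ x)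
      linarith
    · have h1 : Q' x = 2 * Q x + D / M := by simp only [hQ', if_neg h]
      have h2 : k0 R (2 * R) ≤ K x := k0_mono R (not_le.1 h).le
      have h3 : Real.exp (-(M * K x)) ≤ Real.exp (-(M * k0 R (2 * R))) := by
        apply Real.exp_le_exp.2
        have := mul_le_mul_of_nonneg_left h2 hM.le
        linarith
      rw [h1]
      have h4 : Real.exp (-(M * K x)) * (2 * Q x) ≤ 1 / (M * k0 R (2 * R)) * (2 * Q x) :=
        mul_le_mul_of_nonneg_right (h3.trans hexp) (by have := hQ x; linarith)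
      have h5 : Real.exp (-(M * K x)) * (D / M) ≤ 1 * (D / M) :=
        mul_le_mul_of_nonneg_right (h3.trans hexp1) hDM
      have h6 : 1 / (M * k0 R (2 * R)) * (2 * Q x) = 2 / (M * k0 R (2 * R)) * Q x := by ring
      have := hQ x
      nlinarith
  have hi1 : Integrable (fun x => (1 + 2 / (M * k0 R (2 * R))) * Q x + D / M) (gm mu Ps) :=
    (hQi.const_mul _).add (integrable_const _)
  calc ∫ x, Q' x ∂(gm mu Ps') = ∫ x, Real.exp (-Ps' x) • Q' x ∂mu :=
        integral_gm' mu Ps' hPs's.continuous _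
    _ ≤ ∫ x, Real.exp (-Ps x) • ((1 + 2 / (M * k0 R (2 * R))) * Q x + D / M) ∂mu := by
        apply integral_mono
        · exact (integrable_gm' mu Ps' hPs's.continuous _).1 hQ'i
        · exact (integrable_gm' mu Ps hPs.continuous _).1 hi1
        · exact hpt
    _ = ∫ x, ((1 + 2 / (M * k0 R (2 * R))) * Q x + D / M) ∂(gm mu Ps) :=
        (integral_gm' mu Ps hPs.continuous _).symm
    _ = _ := by
        rw [integral_add (hQi.const_mul _) (integrable_const _), integral_const_mul,
          integral_const, smul_eq_mul]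
        ring

end core

end THolB

variable {E : Type*} [NormedAddCommGroup E] [NormedSpace ℂ E] [FiniteDimensional ℂ E]
  [MeasurableSpace E] [BorelSpace E]

theorem dual_estimate_var (mu : Measure E) [mu.IsAddHaarMeasure] (Ps : E → ℝ)
    (hPs : ContDiff ℝ ∞ Ps) (hpsh : ∀ x a, 0 ≤ Lform Ps x a) [IsFiniteMeasure (gm mu Ps)]
    (f : E → ℝ) (hf : ContDiff ℝ ∞ f) (hfb : ∃ C, ∀ x, |f x| ≤ C)
    (Q : E → ℝ) (hQ : ∀ x, 0 ≤ Q x) (hQc : Measurable Q) (hQi : Integrable Q (gm mu Ps))
    (H : ∀ x a, (fderiv ℝ f x a) ^ 2 + (fderiv ℝ f x (I • a)) ^ 2 ≤ 4 * Q x * Lform Ps x a)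
    {ι : Type*} [Fintype ι] (b : Module.Basis ι ℂ E) (al : ι → E → ℂ) (hal : ∀ j, SC (al j)) :
    ‖∫ x, ∑ j, dzb (b j) (fun y => (f y : ℂ)) x * (starRingEnd ℂ) (al j x) ∂(gm mu Ps)‖ ^ 2 ≤
      (∫ x, Q x ∂(gm mu Ps)) * ∫ x, ‖∑ j, del Ps (b j) (al j) x‖ ^ 2 ∂(gm mu Ps) := by
  obtain ⟨C0, hC0⟩ := hfb
  obtain ⟨L, hLI, hLc⟩ := THolB.exists_L b
  have hcomp : IsCompact (⋃ j, tsupport (al j)) := isCompact_iUnion fun j => (hal j).2
  obtain ⟨C, hC⟩ := hcomp.exists_bound_of_continuousOn
    (THolB.nb_contDiff L).continuous.continuousOn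
  set R : ℝ := max C 0 + 1 with hRdef
  have hR : 0 < R := by
    have := le_max_right C 0
    linarith
  have hsupp : ∀ j, ∀ x ∈ tsupport (al j), THolB.nb L x < R := by
    intro j x hx
    have h1 := hC x (Set.mem_iUnion.2 ⟨j, hx⟩)
    have h2 := le_max_left C 0
    have h3 := le_abs_self (THolB.nb L x)
    rw [Real.norm_eq_abs] at h1
    linarith
  obtain ⟨C1, _, hC1⟩ := THolB.ch_deriv_bound hR
  have hk00 : 0 < THolB.k0 R (2 * R) := THolB.k0_pos (by linarith)
  have hk11 : 0 < THolB.k1 R (2 * R) := THolB.k1_pos (by linarith)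
  set IQ := ∫ x, Q x ∂(gm mu Ps) with hIQ
  have hIQ0 : 0 ≤ IQ := integral_nonneg hQ
  set S := ∫ x, ‖∑ j, del Ps (b j) (al j) x‖ ^ 2 ∂(gm mu Ps) with hS
  have hS0 : 0 ≤ S := integral_nonneg fun x => sq_nonneg _
  set W : ℝ := 2 / THolB.k0 R (2 * R) * IQ +
    (12 * R * C1 ^ 2 * C0 ^ 2 / THolB.k1 R (2 * R)) * (gm mu Ps).real Set.univ with hW
  have hW0 : 0 ≤ W := by positivity
  apply le_of_forall_pos_le_add
  intro ep hep
  have hWS : 0 ≤ W * S := mul_nonneg hW0 hS0
  have hM : 0 < (W * S + 1) / ep := by positivity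
  have hcore := THolB.core mu Ps hPs hpsh f hf C0 hC0 Q hQ hQc hQi H b al hal L hLI hLc R hR hsupp
    C1 hC1 ((W * S + 1) / ep) hM
  refine le_trans hcore ?_
  rw [← hIQ, ← hS]
  have h1 : ((1 + 2 / ((W * S + 1) / ep * THolB.k0 R (2 * R))) * IQ +
      12 * R * C1 ^ 2 * C0 ^ 2 / THolB.k1 R (2 * R) / ((W * S + 1) / ep) *
        (gm mu Ps).real Set.univ) * S = IQ * S + W * S / ((W * S + 1) / ep) := by
    rw [hW]
    field_simp
    ring
  rw [h1]
  have h2 : W * S / ((W * S + 1) / ep) ≤ ep := by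
    rw [div_le_iff₀ hM]
    have : ep * ((W * S + 1) / ep) = W * S + 1 := by field_simp
    rw [this]
    linarith
  linarith

end GTor
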