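/- piece TH3: holomorphic part, with a set of symmetries -/
import Pool.Agent.Lib_MP_e0d435_ag_T.THolB
import Pool.Agent.Lib_MP_e0d435_ag.HHilb

open Finset MeasureTheory Complex
open scoped ENNReal ContDiff

namespace GTor
open GPn

section THolC_alg

variable {E : Type*} [NormedAddCommGroup E] [NormedSpace ℂ E]

private theorem THolC_smul_eq (z : ℂ) (a : E) : z • a = z.re • a + z.im • (I • a) := by
  conv_lhs => rw [← re_add_im z, add_smul, mul_smul]
  simp

private theorem THolC_II (a : E) : (I : ℂ) • (I : ℂ) • a = - a := by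
  rw [smul_smul, I_mul_I]; simp

private theorem THolC_dz_add_dir (F : E → ℂ) (x v w : E) : dz (v + w) F x = dz v F x + dz w F x := by
  simp only [dz, smul_add, map_add]
  ring

private theorem THolC_dz_smul_dir (F : E → ℂ) (x v : E) (c : ℂ) :
    dz (c • v) F x = c * dz v F x := by
  have e : (I : ℂ) • (c • v) = c.re • ((I : ℂ) • v) - c.im • v := by
    rw [THolC_smul_eq c v, smul_add, smul_comm (I : ℂ) c.re v, smul_comm (I : ℂ) c.im (I • v),
      THolC_II, smul_neg, sub_eq_add_neg]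
  simp only [dz]
  rw [e, THolC_smul_eq c v]
  simp only [map_add, map_sub, map_smul, real_smul]
  have hc : c = c.re + c.im * I := (re_add_im c).symm
  generalize fderiv ℝ F x v = A
  generalize fderiv ℝ F x (I • v) = B
  rw [hc]
  simp only [add_re, ofReal_re, mul_re, I_re, mul_zero, ofReal_im, I_im, mul_one, sub_self,
    add_zero, add_im, mul_im, zero_add]
  linear_combination ((c.im : ℂ) * B / 2) * I_sq

private theorem THolC_dz_zero_dir (F : E → ℂ) (x : E) : dz (0 : E) F x = 0 := by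
  simp [dz]

private theorem THolC_dz_sum_dir {ι : Type*} (s : Finset ι) (F : E → ℂ) (x : E) (v : ι → E) :
    dz (∑ i ∈ s, v i) F x = ∑ i ∈ s, dz (v i) F x := by
  classical
  induction s using Finset.induction_on with
  | empty => simp [THolC_dz_zero_dir]
  | insert i s hi ih => rw [Finset.sum_insert hi, Finset.sum_insert hi, THolC_dz_add_dir, ih]

private theorem THolC_da {F : E → ℂ} (hF : SC F) (x : E) : DifferentiableAt ℝ F x :=
  hF.1.contDiffAt.differentiableAt (by simp)

private theorem THolC_del_sum_dir {ι : Type*} (s : Finset ι) (Ps : E → ℝ) (F : E → ℂ) (x : E)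
    (c : ι → ℂ) (v : ι → E) :
    del Ps (∑ i ∈ s, c i • v i) F x = ∑ i ∈ s, c i * del Ps (v i) F x := by
  simp only [del, THolC_dz_sum_dir, THolC_dz_smul_dir]
  rw [← Finset.sum_neg_distrib, Finset.sum_mul, ← Finset.sum_add_distrib]
  refine Finset.sum_congr rfl fun i _ => ?_
  ring

private theorem THolC_del_smul (Ps : E → ℝ) (v : E) {F : E → ℂ} (hF : SC F) (c : ℂ) (x : E) :
    del Ps v (fun y => c * F y) x = c * del Ps v F x := by
  have h : fderiv ℝ (fun y => c * F y) x = c • fderiv ℝ F x := fderiv_const_mul (THolC_da hF x) c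
  simp only [del, dz, h, smul_apply, smul_eq_mul]
  ring

private theorem THolC_del_add (Ps : E → ℝ) (v : E) {F G : E → ℂ} (hF : SC F) (hG : SC G) (x : E) :
    del Ps v (fun y => F y + G y) x = del Ps v F x + del Ps v G x := by
  have h := fderiv_fun_add (THolC_da hF x) (THolC_da hG x)
  simp only [del, dz, h, add_apply]
  ring

private theorem THolC_del_zero (Ps : E → ℝ) (v : E) (x : E) :
    del Ps v (fun _ => 0) x = 0 := by
  simp [del, dz]

private theorem THolC_sc_zero : SC (fun _ : E => (0 : ℂ)) :=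
  ⟨contDiff_const, HasCompactSupport.zero⟩

private theorem THolC_sc_add {F G : E → ℂ} (hF : SC F) (hG : SC G) : SC (fun y => F y + G y) :=
  ⟨hF.1.add hG.1, hF.2.add hG.2⟩

private theorem THolC_sc_smul {F : E → ℂ} (hF : SC F) (c : ℂ) : SC (fun y => c * F y) :=
  ⟨contDiff_const.mul hF.1, hF.2.mul_left⟩

private theorem THolC_re {Ps : E → ℝ} (hPs : ContDiff ℝ ∞ Ps) :
    ContDiff ℝ ∞ (fun y => (Ps y : ℂ)) :=
  Complex.ofRealCLM.contDiff.comp hPs

private theorem THolC_dz_smooth {F : E → ℂ} (hF : ContDiff ℝ ∞ F) (v : E) : ContDiff ℝ ∞ (dz v F) := by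
  have h : ContDiff ℝ ∞ (fderiv ℝ F) := hF.fderiv_right (m := ∞) (by simp)
  have h1 : ContDiff ℝ ∞ (fun x => fderiv ℝ F x v) := h.clm_apply contDiff_const
  have h2 : ContDiff ℝ ∞ (fun x => fderiv ℝ F x (I • v)) := h.clm_apply contDiff_const
  have : dz v F = fun x => (fderiv ℝ F x v - I * fderiv ℝ F x (I • v)) / 2 := rfl
  rw [this]
  exact (h1.sub (contDiff_const.mul h2)).div_const 2

private theorem THolC_dzb_smooth {F : E → ℂ} (hF : ContDiff ℝ ∞ F) (v : E) :
    ContDiff ℝ ∞ (dzb v F) := by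
  have h : ContDiff ℝ ∞ (fderiv ℝ F) := hF.fderiv_right (m := ∞) (by simp)
  have h1 : ContDiff ℝ ∞ (fun x => fderiv ℝ F x v) := h.clm_apply contDiff_const
  have h2 : ContDiff ℝ ∞ (fun x => fderiv ℝ F x (I • v)) := h.clm_apply contDiff_const
  have : dzb v F = fun x => (fderiv ℝ F x v + I * fderiv ℝ F x (I • v)) / 2 := rfl
  rw [this]
  exact (h1.add (contDiff_const.mul h2)).div_const 2

private theorem THolC_del_sc {Ps : E → ℝ} (hPs : ContDiff ℝ ∞ Ps) {F : E → ℂ} (hF : SC F) (v : E) :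
    SC (del Ps v F) := by
  constructor
  · have : del Ps v F = fun x => - dz v F x + dz v (fun y => (Ps y : ℂ)) x * F x := rfl
    rw [this]
    exact (THolC_dz_smooth hF.1 v).neg.add ((THolC_dz_smooth (THolC_re hPs) v).mul hF.1)
  · refine HasCompactSupport.intro hF.2 fun x hx => ?_
    have h1 : fderiv ℝ F x = 0 := fderiv_of_notMem_tsupport ℝ hx
    have h2 : F x = 0 := image_eq_zero_of_notMem_tsupport hx
    simp [del, dz, h1, h2]

/-- the divergence of a form -/
private noncomputable def THolC_D {ι : Type*} [Fintype ι] (Ps : E → ℝ) (b : ι → E)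
    (al : ι → E → ℂ) (x : E) : ℂ := ∑ j, del Ps (b j) (al j) x

private theorem THolC_D_sc {ι : Type*} [Fintype ι] {Ps : E → ℝ} (hPs : ContDiff ℝ ∞ Ps) (b : ι → E)
    {al : ι → E → ℂ} (hal : ∀ j, SC (al j)) : SC (THolC_D Ps b al) := by
  constructor
  · have : THolC_D Ps b al = fun x => ∑ j, del Ps (b j) (al j) x := rfl
    rw [this]
    exact ContDiff.sum fun j _ => (THolC_del_sc hPs (hal j) (b j)).1
  · refine HasCompactSupport.intro (isCompact_iUnion fun j => (hal j).2) fun x hx => ?_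
    rw [Set.mem_iUnion] at hx
    push Not at hx
    refine Finset.sum_eq_zero fun j _ => ?_
    have h1 : fderiv ℝ (al j) x = 0 := fderiv_of_notMem_tsupport ℝ (hx j)
    have h2 : al j x = 0 := image_eq_zero_of_notMem_tsupport (hx j)
    simp [del, dz, h1, h2]

/-- composition with a complex linear map -/
private theorem THolC_fd_comp {F : E → ℂ} (hF : ContDiff ℝ ∞ F) (T : E ≃L[ℂ] E) (x v : E) :
    fderiv ℝ (fun y => F (T y)) x v = fderiv ℝ F (T x) (T v) := by
  have h1 : DifferentiableAt ℝ F (T x) := hF.contDiffAt.differentiableAt (by simp)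
  have h2 : HasFDerivAt (fun y : E => T y) ((T : E →L[ℂ] E).restrictScalars ℝ) x :=
    ((T : E →L[ℂ] E).restrictScalars ℝ).hasFDerivAt
  have h3 := h1.hasFDerivAt.comp x h2
  have h4 : HasFDerivAt (fun y => F (T y)) _ x := h3
  rw [h4.fderiv]
  rfl

private theorem THolC_dz_comp {F : E → ℂ} (hF : ContDiff ℝ ∞ F) (T : E ≃L[ℂ] E) (x v : E) :
    dz v (fun y => F (T y)) x = dz (T v) F (T x) := by
  simp only [dz, THolC_fd_comp hF, map_smul]

private theorem THolC_del_comp {Ps : E → ℝ} (hPs : ContDiff ℝ ∞ Ps) {F : E → ℂ} (hF : SC F)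
    (T : E ≃L[ℂ] E) (hT : ∀ x, Ps (T x) = Ps x) (x v : E) :
    del Ps v (fun y => F (T y)) x = del Ps (T v) F (T x) := by
  have h1 := THolC_dz_comp hF.1 T x v
  have h2 := THolC_dz_comp (THolC_re hPs) T x v
  have e : (fun y => ((Ps (T y) : ℝ) : ℂ)) = fun y => (Ps y : ℂ) := by
    funext y; rw [hT]
  rw [e] at h2
  simp only [del, h1, h2]

private theorem THolC_sc_comp {F : E → ℂ} (hF : SC F) (T : E ≃L[ℂ] E) :
    SC (fun y => F (T y)) := by
  constructor
  · exact hF.1.comp ((T : E →L[ℂ] E).restrictScalars ℝ).contDiff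
  · exact hF.2.comp_homeomorph T.toHomeomorph

private theorem THolC_sc_sum {ι : Type*} {F : ι → E → ℂ} (s : Finset ι) (hF : ∀ i, SC (F i)) :
    SC (fun y => ∑ i ∈ s, F i y) := by
  classical
  induction s using Finset.induction_on with
  | empty => simpa using (THolC_sc_zero (E := E))
  | insert a s ha ih =>
    simp only [Finset.sum_insert ha]
    exact THolC_sc_add (hF a) ih

private theorem THolC_del_sum {ι : Type*} (Ps : E → ℝ) (v : E) (F : ι → E → ℂ) (s : Finset ι)
    (hF : ∀ i, SC (F i)) (x : E) :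
    del Ps v (fun y => ∑ i ∈ s, F i y) x = ∑ i ∈ s, del Ps v (F i) x := by
  classical
  induction s using Finset.induction_on with
  | empty => simp only [Finset.sum_empty]; exact THolC_del_zero Ps v x
  | insert a s ha ih =>
    simp only [Finset.sum_insert ha]
    rw [THolC_del_add Ps v (hF a) (THolC_sc_sum s hF), ih]

end THolC_alg

section THolC_meas

variable {E : Type*} [NormedAddCommGroup E] [NormedSpace ℂ E]
  [MeasurableSpace E] [BorelSpace E]

/-- symmetries preserve the weighted measure -/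
private theorem THolC_mp_gm (mu : Measure E) (Ps : E → ℝ) (hPs : Continuous Ps) (T : E → E)
    (hmp : MeasurePreserving T mu mu) (hT : ∀ x, Ps (T x) = Ps x) :
    MeasurePreserving T (gm mu Ps) (gm mu Ps) := by
  refine ⟨hmp.measurable, ?_⟩
  ext s hs
  have hg : Measurable fun x => ENNReal.ofReal (Real.exp (-Ps x)) :=
    (Real.continuous_exp.comp hPs.neg).measurable.ennreal_ofReal
  rw [Measure.map_apply hmp.measurable hs, gm, withDensity_apply _ (hmp.measurable hs),
    withDensity_apply _ hs, ← hmp.setLIntegral_comp_preimage hs hg]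
  simp only [hT]

/-- almost everywhere statements -/
private theorem THolC_ae (mu : Measure E) (Ps : E → ℝ) (hPs : Continuous Ps) {p : E → Prop}
    (h : ∀ᵐ x ∂(gm mu Ps), p x) : ∀ᵐ x ∂mu, p x := by
  have hg : Measurable fun x => ENNReal.ofReal (Real.exp (-Ps x)) :=
    (Real.continuous_exp.comp hPs.neg).measurable.ennreal_ofReal
  rw [gm, ae_withDensity_iff hg] at h
  filter_upwards [h] with x hx
  exact hx (by simp [Real.exp_pos])

end THolC_meas

section THolC_L2

variable {X : Type*} [MeasurableSpace X] {nu : Measure X}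

private theorem THolC_inner (u w : Lp ℂ 2 nu) :
    inner ℂ u w = ∫ x, w x * (starRingEnd ℂ) (u x) ∂nu := by
  rw [L2.inner_def]
  rfl

private theorem THolC_norm_sq (u : Lp ℂ 2 nu) : ‖u‖ ^ 2 = ∫ x, ‖u x‖ ^ 2 ∂nu := by
  have h := @inner_self_eq_norm_sq_to_K ℂ (Lp ℂ 2 nu) _ _ _ u
  rw [THolC_inner] at h
  have e : ∀ x, u x * (starRingEnd ℂ) (u x) = ((‖u x‖ ^ 2 : ℝ) : ℂ) := by
    intro x
    rw [Complex.mul_conj, Complex.normSq_eq_norm_sq]
  simp only [e] at h
  rw [integral_complex_ofReal] at h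
  have h2 : ((∫ x, ‖u x‖ ^ 2 ∂nu : ℝ) : ℂ) = ((‖u‖ ^ 2 : ℝ) : ℂ) := by
    rw [h]; simp
  exact_mod_cast h2.symm

end THolC_L2

variable {E : Type*} [NormedAddCommGroup E] [NormedSpace ℂ E] [FiniteDimensional ℂ E]
  [MeasurableSpace E] [BorelSpace E]

/-- divergences of smooth compactly supported forms -/
private noncomputable def THolC_A0 {ι : Type*} [Fintype ι] (nu : Measure E) (Ps : E → ℝ) (b : ι → E) :
    Submodule ℂ (Lp ℂ 2 nu) where
  carrier := {u | ∃ al : ι → E → ℂ, (∀ j, SC (al j)) ∧ u =ᵐ[nu] THolC_D Ps b al}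
  add_mem' := by
    rintro u w ⟨al, hal, hu⟩ ⟨be, hbe, hw⟩
    refine ⟨fun j y => al j y + be j y, fun j => THolC_sc_add (hal j) (hbe j), ?_⟩
    filter_upwards [Lp.coeFn_add u w, hu, hw] with x h1 h2 h3
    rw [h1, Pi.add_apply, h2, h3]
    simp only [THolC_D, THolC_del_add Ps _ (hal _) (hbe _), Finset.sum_add_distrib]
  zero_mem' := by
    refine ⟨fun _ _ => 0, fun j => THolC_sc_zero, ?_⟩
    filter_upwards [Lp.coeFn_zero ℂ 2 nu] with x h1
    rw [h1, Pi.zero_apply]
    simp only [THolC_D, THolC_del_zero, Finset.sum_const_zero]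
  smul_mem' := by
    rintro c u ⟨al, hal, hu⟩
    refine ⟨fun j y => c * al j y, fun j => THolC_sc_smul (hal j) c, ?_⟩
    filter_upwards [Lp.coeFn_smul c u, hu] with x h1 h2
    rw [h1, Pi.smul_apply, h2]
    simp only [THolC_D, THolC_del_smul Ps _ (hal _), ← Finset.mul_sum, smul_eq_mul]

/-- symmetries preserve the closure of the divergences -/
private theorem THolC_rot {ι : Type*} [Fintype ι] (nu : Measure E) (Ps : E → ℝ)
    (hPs : ContDiff ℝ ∞ Ps) (b : Module.Basis ι ℂ E) (T : E ≃L[ℂ] E) (hT : ∀ x, Ps (T x) = Ps x)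
    (hmp : MeasurePreserving T nu nu) (u : Lp ℂ 2 nu)
    (hu : u ∈ (THolC_A0 nu Ps b).topologicalClosure) :
    Lp.compMeasurePreservingₗᵢ ℂ T hmp u ∈
      (THolC_A0 nu Ps b).topologicalClosure := by
  set U : Lp ℂ 2 nu →ₗᵢ[ℂ] Lp ℂ 2 nu := Lp.compMeasurePreservingₗᵢ ℂ T hmp
  have hle : (THolC_A0 nu Ps b).topologicalClosure ≤
      (THolC_A0 nu Ps b).topologicalClosure.comap U.toLinearMap := by
    refine Submodule.topologicalClosure_minimal _ ?_ ?_
    · rintro w ⟨al, hal, hw⟩
      refine (THolC_A0 nu Ps b).le_topologicalClosure ?_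
      refine ⟨fun i y => ∑ j, b.repr (T.symm (b j)) i * al j (T y),
        fun i => THolC_sc_sum _ fun j => THolC_sc_smul (THolC_sc_comp (hal j) T) _, ?_⟩
      have h1 : (U w : E → ℂ) =ᵐ[nu] w ∘ T :=
        Lp.coeFn_compMeasurePreserving w hmp
      have h2 : (w ∘ T) =ᵐ[nu] THolC_D Ps b al ∘ T :=
        hmp.quasiMeasurePreserving.ae_eq_comp hw
      filter_upwards [h1, h2] with x h3 h4
      change (U w : E → ℂ) x = _
      rw [h3, h4]
      simp only [THolC_D, Function.comp_apply]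
      have h5 : ∀ j, del Ps (b j) (al j) (T x) =
          ∑ i, b.repr (T.symm (b j)) i * del Ps (b i) (fun y => al j (T y)) x := by
        intro j
        rw [← THolC_del_sum_dir, b.sum_repr, THolC_del_comp hPs (hal j) T hT,
          ContinuousLinearEquiv.apply_symm_apply]
      simp only [h5]
      rw [Finset.sum_comm]
      refine Finset.sum_congr rfl fun i _ => ?_
      rw [THolC_del_sum Ps (b i) _ _ fun j => THolC_sc_smul (THolC_sc_comp (hal j) T) _]
      refine Finset.sum_congr rfl fun j _ => ?_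
      rw [THolC_del_smul Ps _ (THolC_sc_comp (hal j) T)]
    · exact (THolC_A0 nu Ps b).isClosed_topologicalClosure.preimage U.continuous
  exact hle hu

theorem exists_hol_part_gen (mu : Measure E) [mu.IsAddHaarMeasure] (Ps : E → ℝ)
    (hPs : ContDiff ℝ ∞ Ps) (hpsh : ∀ x a, 0 ≤ Lform Ps x a) [IsFiniteMeasure (gm mu Ps)]
    (f : E → ℝ) (hf : ContDiff ℝ ∞ f) (hfb : ∃ C, ∀ x, |f x| ≤ C)
    (Q : E → ℝ) (hQ : ∀ x, 0 ≤ Q x) (hQc : Measurable Q) (hQi : Integrable Q (gm mu Ps))
    (H : ∀ x a, (fderiv ℝ f x a) ^ 2 + (fderiv ℝ f x (I • a)) ^ 2 ≤ 4 * Q x * Lform Ps x a)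
    (TT : Set (E ≃L[ℂ] E))
    (hT : ∀ T ∈ TT, MeasurePreserving T mu mu ∧ (∀ x, Ps (T x) = Ps x) ∧ ∀ x, f (T x) = f x) :
    ∃ h : E → ℂ, MemLp h 2 (gm mu Ps) ∧
      (∀ ph : E → ℂ, SC ph → ∀ v : E, ∫ x, h x * (starRingEnd ℂ) (del Ps v ph x) ∂(gm mu Ps) = 0) ∧
      (∀ T ∈ TT, ∀ᵐ x ∂mu, h (T x) = h x) ∧
      ∫ x, ‖(f x : ℂ) - h x‖ ^ 2 ∂(gm mu Ps) ≤ ∫ x, Q x ∂(gm mu Ps) := by
  classical
  have hfbc := hfb
  have : FiniteDimensional ℝ E := FiniteDimensional.complexToReal E
  have : ProperSpace E := FiniteDimensional.proper ℝ E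
  have hPc : Continuous Ps := hPs.continuous
  let b := Module.finBasis ℂ E
  have hLp : ∀ F : E → ℂ, SC F → MemLp F 2 (gm mu Ps) := fun F hF =>
    hF.1.continuous.memLp_of_hasCompactSupport hF.2
  set A0 := THolC_A0 (gm mu Ps) Ps b with hA0
  set K := A0.topologicalClosure with hK
  have hKc : CompleteSpace K := A0.isClosed_topologicalClosure.completeSpace_coe
  have hfm : MemLp (fun x => (f x : ℂ)) 2 (gm mu Ps) := by
    obtain ⟨C, hC⟩ := hfb
    refine MemLp.of_bound (THolC_re hf).continuous.aestronglyMeasurable C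
      (Filter.Eventually.of_forall fun x => ?_)
    simpa using hC x
  set fL := hfm.toLp _ with hfL
  have hfae : fL =ᵐ[gm mu Ps] fun x => (f x : ℂ) := hfm.coeFn_toLp
  obtain ⟨f1, hf1K, hh, hhK, hsum⟩ := K.exists_add_mem_mem_orthogonal fL
  have horth : ∀ u ∈ K, inner ℂ u hh = 0 := (Submodule.mem_orthogonal K hh).1 hhK
  have hQn : 0 ≤ (∫ x, Q x ∂(gm mu Ps)) := integral_nonneg hQ
  refine ⟨hh, Lp.memLp hh, ?_, ?_, ?_⟩
  · -- weak holomorphy
    intro ph hph v
    have e : del Ps v ph = THolC_D Ps b (fun j y => b.repr v j * ph y) := by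
      funext x
      conv_lhs => rw [← b.sum_repr v]
      rw [THolC_del_sum_dir]
      simp only [THolC_D, THolC_del_smul Ps _ hph]
    have hsc : ∀ j, SC (fun y => b.repr v j * ph y) := fun j => THolC_sc_smul hph _
    have hm := hLp _ (THolC_D_sc hPs b hsc)
    have hu : hm.toLp _ ∈ K := A0.le_topologicalClosure ⟨_, hsc, hm.coeFn_toLp⟩
    have h0 := horth _ hu
    rw [THolC_inner] at h0
    rw [← h0]
    refine integral_congr_ae ?_
    filter_upwards [hm.coeFn_toLp] with x hx
    rw [hx, e]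
  · -- invariance
    intro T hTT
    obtain ⟨hTm, hTP, hTf⟩ := hT T hTT
    have hTm' : MeasurePreserving T.symm mu mu := by
      have := hTm.symm T.toHomeomorph.toMeasurableEquiv
      exact this
    have hTP' : ∀ x, Ps (T.symm x) = Ps x := fun x => by
      rw [← hTP (T.symm x), ContinuousLinearEquiv.apply_symm_apply]
    have hmp := THolC_mp_gm mu Ps hPc T hTm hTP
    have hmp' := THolC_mp_gm mu Ps hPc T.symm hTm' hTP'
    set U : Lp ℂ 2 (gm mu Ps) →ₗᵢ[ℂ] Lp ℂ 2 (gm mu Ps) :=
      Lp.compMeasurePreservingₗᵢ ℂ T hmp with hU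
    set V : Lp ℂ 2 (gm mu Ps) →ₗᵢ[ℂ] Lp ℂ 2 (gm mu Ps) :=
      Lp.compMeasurePreservingₗᵢ ℂ T.symm hmp' with hV
    have hUK : ∀ u ∈ K, U u ∈ K := fun u hu =>
      THolC_rot (gm mu Ps) Ps hPs b T hTP hmp u hu
    have hVK : ∀ u ∈ K, V u ∈ K := fun u hu =>
      THolC_rot (gm mu Ps) Ps hPs b T.symm hTP' hmp' u hu
    have hUc : ∀ u : Lp ℂ 2 (gm mu Ps), (U u : E → ℂ) =ᵐ[gm mu Ps]
        u ∘ T := fun u => Lp.coeFn_compMeasurePreserving u hmp
    have hVc : ∀ u : Lp ℂ 2 (gm mu Ps), (V u : E → ℂ) =ᵐ[gm mu Ps]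
        u ∘ T.symm := fun u => Lp.coeFn_compMeasurePreserving u hmp'
    have hUV : ∀ u, U (V u) = u := by
      intro u
      refine Lp.ext ?_
      have h2 := hmp.quasiMeasurePreserving.ae_eq_comp (hVc u)
      filter_upwards [hUc (V u), h2] with x h3 h4
      rw [h3, h4]
      simp only [Function.comp_apply, ContinuousLinearEquiv.symm_apply_apply]
    have hUh : U hh ∈ Kᗮ := by
      rw [Submodule.mem_orthogonal]
      intro u hu
      rw [← hUV u, U.inner_map_map]
      exact horth _ (hVK u hu)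
    have hUf : U fL = fL := by
      refine Lp.ext ?_
      have h2 := hmp.quasiMeasurePreserving.ae_eq_comp hfae
      filter_upwards [hUc fL, h2, hfae] with x h3 h4 h5
      rw [h3, h4, h5]
      simp only [Function.comp_apply, hTf]
    have hd : hh - U hh = U f1 - f1 := by
      have h1 : U f1 + U hh = f1 + hh := by
        rw [← map_add, ← hsum, hUf]
      rw [sub_eq_sub_iff_add_eq_add, add_comm hh f1, h1]
    have h1 : hh - U hh ∈ Kᗮ := Kᗮ.sub_mem hhK hUh
    have h2 : hh - U hh ∈ K := by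
      rw [hd]
      exact K.sub_mem (hUK f1 hf1K) hf1K
    have h3 : hh - U hh = 0 := by
      have := (Submodule.mem_orthogonal K _).1 h1 _ h2
      exact inner_self_eq_zero.1 this
    have h4 : U hh = hh := (sub_eq_zero.1 h3).symm
    have h5 := hUc hh
    rw [h4] at h5
    refine THolC_ae mu Ps hPc ?_
    filter_upwards [h5] with x hx
    rw [hx]
    rfl
  · -- the estimate
    have hest : ∀ u ∈ K, ‖(inner ℂ u fL : ℂ)‖ ^ 2 ≤
        (∫ x, Q x ∂(gm mu Ps)) * ‖u‖ ^ 2 := by
      have hcl : IsClosed {u : Lp ℂ 2 (gm mu Ps) | ‖(inner ℂ u fL : ℂ)‖ ^ 2 ≤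
          (∫ x, Q x ∂(gm mu Ps)) * ‖u‖ ^ 2} := by
        refine isClosed_le ?_ ?_
        · exact ((continuous_id.inner continuous_const).norm).pow 2
        · exact continuous_const.mul (continuous_norm.pow 2)
      have hsub : (A0 : Set (Lp ℂ 2 (gm mu Ps))) ⊆ {u | ‖(inner ℂ u fL : ℂ)‖ ^ 2 ≤
          (∫ x, Q x ∂(gm mu Ps)) * ‖u‖ ^ 2} := by
        rintro u ⟨al, hal, hu⟩
        have hd := dual_estimate_var mu Ps hPs hpsh f hf hfbc Q hQ hQc hQi H b al hal
        have e1 : (inner ℂ u fL : ℂ) = ∫ x, ∑ j, dzb (b j) (fun y => (f y : ℂ)) x *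
            (starRingEnd ℂ) (al j x) ∂(gm mu Ps) := by
          rw [THolC_inner]
          have hi1 : ∀ j ∈ (Finset.univ : Finset (Fin (Module.finrank ℂ E))),
              Integrable (fun x => dzb (b j) (fun y => (f y : ℂ)) x *
                (starRingEnd ℂ) (al j x)) (gm mu Ps) := by
            intro j _
            refine Continuous.integrable_of_hasCompactSupport ?_ ?_
            · exact (THolC_dzb_smooth (THolC_re hf) _).continuous.mul
                (Complex.continuous_conj.comp (hal j).1.continuous)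
            · refine HasCompactSupport.intro (hal j).2 fun x hx => ?_
              rw [image_eq_zero_of_notMem_tsupport hx]
              simp
          have hi2 : ∀ j ∈ (Finset.univ : Finset (Fin (Module.finrank ℂ E))),
              Integrable (fun x => (f x : ℂ) *
                (starRingEnd ℂ) (del Ps (b j) (al j) x)) (gm mu Ps) := by
            intro j _
            have hsc := THolC_del_sc hPs (hal j) (b j)
            refine Continuous.integrable_of_hasCompactSupport ?_ ?_
            · exact (THolC_re hf).continuous.mul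
                (Complex.continuous_conj.comp hsc.1.continuous)
            · refine HasCompactSupport.intro hsc.2 fun x hx => ?_
              rw [image_eq_zero_of_notMem_tsupport hx]
              simp
          rw [integral_finsetSum _ hi1]
          have h3 : ∀ j, ∫ x, dzb (b j) (fun y => (f y : ℂ)) x *
              (starRingEnd ℂ) (al j x) ∂(gm mu Ps) = ∫ x, (f x : ℂ) *
                (starRingEnd ℂ) (del Ps (b j) (al j) x) ∂(gm mu Ps) := fun j =>
            ibp mu Ps hPs (b j) _ (al j) (THolC_re hf) (hal j)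
          simp only [h3]
          rw [← integral_finsetSum _ hi2]
          refine integral_congr_ae ?_
          filter_upwards [hu, hfae] with x h4 h5
          rw [h4, h5, THolC_D, map_sum, Finset.mul_sum]
        have e2 : ‖u‖ ^ 2 = ∫ x, ‖∑ j, del Ps (b j) (al j) x‖ ^ 2 ∂(gm mu Ps) := by
          rw [THolC_norm_sq]
          refine integral_congr_ae ?_
          filter_upwards [hu] with x h4
          rw [h4, THolC_D]
        rw [Set.mem_ofPred_eq, e1, e2]
        exact hd
      intro u hu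
      exact closure_minimal hsub hcl hu
    have h1 := hest f1 hf1K
    have h2 : (inner ℂ f1 fL : ℂ) = ((‖f1‖ ^ 2 : ℝ) : ℂ) := by
      rw [hsum, inner_add_right, horth f1 hf1K, add_zero, inner_self_eq_norm_sq_to_K]
      simp
    rw [h2, Complex.norm_real, Real.norm_of_nonneg (by positivity)] at h1
    have h3 : ‖f1‖ ^ 2 ≤ (∫ x, Q x ∂(gm mu Ps)) := by
      rcases eq_or_lt_of_le (sq_nonneg ‖f1‖) with h | h
      · rw [← h]; exact hQn
      · have h4 : ‖f1‖ ^ 2 * ‖f1‖ ^ 2 ≤ (∫ x, Q x ∂(gm mu Ps)) * ‖f1‖ ^ 2 := by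
          calc ‖f1‖ ^ 2 * ‖f1‖ ^ 2 = (‖f1‖ ^ 2) ^ 2 := by ring
            _ ≤ _ := h1
        exact le_of_mul_le_mul_right h4 h
    have h4 : ∫ x, ‖(f x : ℂ) - hh x‖ ^ 2 ∂(gm mu Ps) = ‖f1‖ ^ 2 := by
      rw [THolC_norm_sq]
      refine integral_congr_ae ?_
      have h5 := Lp.coeFn_add f1 hh
      rw [← hsum] at h5
      filter_upwards [h5, hfae] with x h6 h7
      rw [← h7, h6]
      simp
    rw [h4]
    exact h3

end GTor
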