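/- piece TI: integrability of the density -/
import Pool.Agent.Lib_MP_e0d435_ag_T.TDefs

open Finset MeasureTheory Complex
open scoped ENNReal ContDiff Real

namespace GTor
open GPn

set_option linter.unusedSectionVars false
set_option linter.unusedVariables false

variable {n : ℕ} {A B : Type} [Fintype A] [DecidableEq A] [Fintype B]

/-! ### measurability and positivity -/

private theorem tint_cont_mon (e : Fin n → ℕ) : Continuous (fun z : Pt n => mon e z) := by
  unfold mon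
  fun_prop

private theorem tint_cont_Sd (d : B → Fin n → ℕ) : Continuous (fun z : Pt n => Sd d z) := by
  unfold Sd
  exact continuous_finsetSum _ fun b _ => (tint_cont_mon (d b)).norm.pow 2

private theorem tint_cont_sc (lam : Fin n → ℝ) : Continuous (fun z : Pt n => sc lam z) := by
  unfold sc
  fun_prop

private theorem tint_cont_Dt (e : A → Fin n → ℕ) :
    Continuous (fun Z : A → Pt n => Dt e Z) := by
  unfold Dt
  refine Continuous.matrix_det (continuous_pi fun j => continuous_pi fun a => ?_)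
  exact (tint_cont_mon (e a)).comp (continuous_apply j)

private theorem tint_cont_Pm (e : A → Fin n → ℕ) :
    Continuous (fun Z : A → Pt n => Pm e Z) := by
  unfold Pm
  refine continuous_finsetSum _ fun p _ => continuous_finsetProd _ fun j _ => ?_
  exact ((tint_cont_mon (e (p j))).comp (continuous_apply j)).norm.pow 2

private theorem tint_cont_Hh (e : A → Fin n → ℕ) (ep ep' : ℝ) :
    Continuous (fun Z : A → Pt n => Hh e ep ep' Z) := by
  unfold Hh
  refine (((tint_cont_Dt e).norm.pow 2).add (continuous_const.mul (tint_cont_Pm e))).add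
    (continuous_const.mul (continuous_finsetProd _ fun j _ => ?_))
  exact (tint_cont_Sd e).comp (continuous_apply j)

private theorem tint_Sd_nonneg (d : B → Fin n → ℕ) (z : Pt n) : 0 ≤ Sd d z :=
  Finset.sum_nonneg fun _ _ => by positivity

private theorem tint_Pm_nonneg (e : A → Fin n → ℕ) (Z : A → Pt n) : 0 ≤ Pm e Z :=
  Finset.sum_nonneg fun _ _ => Finset.prod_nonneg fun _ _ => by positivity

private theorem tint_Hh_ge (e : A → Fin n → ℕ) {ep ep' : ℝ} (hep' : 0 ≤ ep') (Z : A → Pt n) :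
    ep * Pm e Z ≤ Hh e ep ep' Z := by
  unfold Hh
  have h1 : 0 ≤ ‖Dt e Z‖ ^ 2 := by positivity
  have h2 : 0 ≤ ep' * ∏ j, Sd e (Z j) :=
    mul_nonneg hep' (Finset.prod_nonneg fun j _ => tint_Sd_nonneg e (Z j))
  linarith

private theorem tint_Hh_nonneg (e : A → Fin n → ℕ) {ep ep' : ℝ} (hep : 0 ≤ ep)
    (hep' : 0 ≤ ep') (Z : A → Pt n) : 0 ≤ Hh e ep ep' Z :=
  le_trans (mul_nonneg hep (tint_Pm_nonneg e Z)) (tint_Hh_ge e hep' Z)

theorem measurable_rho (e : A → Fin n → ℕ) (d : B → Fin n → ℕ) (t r ep ep' : ℝ)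
    (lam : A → Fin n → ℝ) : Measurable (rho e d t r ep ep' lam) := by
  unfold rho
  refine ((tint_cont_Hh e ep ep').measurable.pow_const _).mul
    (Finset.measurable_fun_prod _ fun j _ => ?_)
  exact ((tint_cont_Sd d).comp ((tint_cont_sc (lam j)).comp
    (continuous_apply j))).measurable.pow_const _

theorem rho_nonneg (e : A → Fin n → ℕ) (d : B → Fin n → ℕ) (t r ep ep' : ℝ) (hep : 0 ≤ ep)
    (hep' : 0 ≤ ep') (lam : A → Fin n → ℝ) (Z : A → Pt n) : 0 ≤ rho e d t r ep ep' lam Z := by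
  unfold rho
  exact mul_nonneg (Real.rpow_nonneg (tint_Hh_nonneg e hep hep' Z) _)
    (Finset.prod_nonneg fun j _ => Real.rpow_nonneg (tint_Sd_nonneg d _) _)

/-! ### the one variable integral -/

private noncomputable def tint_f (kap : ℝ) (y : ℝ) : ℝ :=
  Real.exp (-(2 * kap * |Real.log y|) - 2 * Real.log y)

private theorem tint_f_small {kap y : ℝ} (hy : 0 < y) (hy1 : y ≤ 1) :
    y * tint_f kap y = y ^ (2 * kap - 1) := by
  unfold tint_f
  have h1 : |Real.log y| = -Real.log y := abs_of_nonpos (Real.log_nonpos hy.le hy1)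
  rw [h1]
  conv_lhs => rw [show y = Real.exp (Real.log y) from (Real.exp_log hy).symm]
  rw [Real.log_exp, ← Real.exp_add, Real.rpow_def_of_pos hy]
  congr 1
  ring

private theorem tint_f_large {kap y : ℝ} (hy1 : 1 ≤ y) :
    y * tint_f kap y = y ^ (-2 * kap - 1) := by
  unfold tint_f
  have hy : 0 < y := by linarith
  have h1 : |Real.log y| = Real.log y := abs_of_nonneg (Real.log_nonneg hy1)
  rw [h1]
  conv_lhs => rw [show y = Real.exp (Real.log y) from (Real.exp_log hy).symm]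
  rw [Real.log_exp, ← Real.exp_add, Real.rpow_def_of_pos hy]
  congr 1
  ring

private theorem tint_one {kap : ℝ} (hkap : 0 < kap) :
    Integrable (fun w : ℂ => tint_f kap ‖w‖) := by
  rw [integrable_fun_norm_addHaar (μ := (volume : Measure ℂ)) (f := tint_f kap)]
  have hd : Module.finrank ℝ ℂ - 1 = 1 := by rw [Complex.finrank_real_complex]
  rw [hd]
  simp only [pow_one, smul_eq_mul]
  have hU : Set.Ioi (0 : ℝ) = Set.Ioc 0 1 ∪ Set.Ioi 1 := (Set.Ioc_union_Ioi_eq_Ioi zero_le_one).symm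
  rw [hU]
  refine IntegrableOn.union ?_ ?_
  · have h1 : IntegrableOn (fun y : ℝ => y ^ (2 * kap - 1)) (Set.Ioc 0 1) := by
      have := intervalIntegral.intervalIntegrable_rpow' (a := 0) (b := 1) (r := 2 * kap - 1)
        (by linarith)
      rwa [intervalIntegrable_iff_integrableOn_Ioc_of_le zero_le_one] at this
    refine h1.congr_fun (fun y hy => ?_) measurableSet_Ioc
    exact (tint_f_small hy.1 hy.2).symm
  · have h1 : IntegrableOn (fun y : ℝ => y ^ (-2 * kap - 1)) (Set.Ioi 1) :=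
      integrableOn_Ioi_rpow_of_lt (by linarith) one_pos
    refine h1.congr_fun (fun y hy => ?_) measurableSet_Ioi
    exact (tint_f_large (le_of_lt hy)).symm

private noncomputable def tint_G (kap : ℝ) (Z : A → Pt n) : ℝ :=
  ∏ j, ∏ i, tint_f kap ‖Z j i‖

private theorem tint_G_integrable {kap : ℝ} (hkap : 0 < kap) :
    Integrable (fun Z : A → Pt n => tint_G kap Z) := by
  have h1 : Integrable (fun x : Pt n => ∏ i, tint_f kap ‖x i‖) :=
    Integrable.fintype_prod (μ := fun _ : Fin n => (volume : Measure ℂ))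
      (f := fun (_ : Fin n) (z : ℂ) => tint_f kap ‖z‖) (fun _ => tint_one hkap)
  exact Integrable.fintype_prod (μ := fun _ : A => (volume : Measure (Pt n)))
    (f := fun (_ : A) (x : Pt n) => ∏ i, tint_f kap ‖x i‖) (fun _ => h1)

private theorem tint_G_nonneg (kap : ℝ) (Z : A → Pt n) : 0 ≤ tint_G kap Z :=
  Finset.prod_nonneg fun _ _ => Finset.prod_nonneg fun _ _ => (Real.exp_pos _).le

private theorem tint_G_eq (kap : ℝ) (Z : A → Pt n) :
    tint_G kap Z = Real.exp (∑ j, (-(2 * kap * ∑ i, |Real.log ‖Z j i‖|)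
      - 2 * ∑ i, Real.log ‖Z j i‖)) := by
  unfold tint_G tint_f
  rw [Real.exp_sum]
  refine Finset.prod_congr rfl fun j _ => ?_
  rw [← Real.exp_sum]
  congr 1
  rw [Finset.sum_sub_distrib, Finset.sum_neg_distrib, ← Finset.mul_sum, ← Finset.mul_sum]

/-! ### almost everywhere -/

private theorem tint_ae : ∀ᵐ Z : A → Pt n, ∀ j i, Z j i ≠ 0 := by
  rw [ae_all_iff]
  intro j
  rw [ae_all_iff]
  intro i
  have h0 : ∀ᵐ w : ℂ, w ≠ 0 := by
    rw [ae_iff]
    simp
  have h1 : ∀ᵐ x : Pt n, x i ≠ 0 :=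
    (Measure.quasiMeasurePreserving_eval (fun _ : Fin n => (volume : Measure ℂ)) i).ae h0
  exact (Measure.quasiMeasurePreserving_eval (fun _ : A => (volume : Measure (Pt n))) j).ae h1

/-! ### the lower bounds -/

private theorem tint_mon_norm (e : Fin n → ℕ) (z : Pt n) (hz : ∀ i, z i ≠ 0) :
    ‖mon e z‖ ^ 2 = Real.exp (2 * ∑ i, (e i : ℝ) * Real.log ‖z i‖) := by
  unfold mon
  rw [norm_prod, mul_comm, Real.exp_mul, Real.exp_sum]
  norm_cast
  congr 1
  refine Finset.prod_congr rfl fun i _ => ?_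
  rw [norm_pow, mul_comm, Real.exp_mul, Real.exp_log (norm_pos_iff.mpr (hz i))]
  norm_cast

private theorem tint_perm_sum (f : A → ℝ) (j : A) :
    (Fintype.card A : ℝ) * ∑ p : Equiv.Perm A, f (p j) =
      (Fintype.card (Equiv.Perm A) : ℝ) * ∑ a, f a := by
  have h1 : ∀ j' : A, ∑ p : Equiv.Perm A, f (p j') = ∑ p : Equiv.Perm A, f (p j) := by
    intro j'
    refine Fintype.sum_equiv (Equiv.mulRight (Equiv.swap j j')) _ _ fun p => ?_
    simp
  have h2 : ∑ j' : A, ∑ p : Equiv.Perm A, f (p j') =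
      (Fintype.card A : ℝ) * ∑ p : Equiv.Perm A, f (p j) := by
    rw [Finset.sum_congr rfl fun j' _ => h1 j', Finset.sum_const, Finset.card_univ, nsmul_eq_mul]
  rw [← h2, Finset.sum_comm]
  rw [Finset.sum_congr rfl fun p _ => Equiv.sum_comp p f, Finset.sum_const, Finset.card_univ,
    nsmul_eq_mul]

private theorem tint_Pm_ge [Nonempty A] (e : A → Fin n → ℕ) (Z : A → Pt n)
    (hZ : ∀ j i, Z j i ≠ 0) :
    Real.exp (∑ j, 2 * ∑ i, bet e i * Real.log ‖Z j i‖) ≤ Pm e Z := by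
  set x : Equiv.Perm A → ℝ := fun p => ∑ j, 2 * ∑ i, (e (p j) i : ℝ) * Real.log ‖Z j i‖ with hx
  have hN : (0 : ℝ) < Fintype.card A := by exact_mod_cast Fintype.card_pos
  have hP : (0 : ℝ) < Fintype.card (Equiv.Perm A) := by exact_mod_cast Fintype.card_pos
  have hbet : ∀ j i, ∑ p : Equiv.Perm A, (e (p j) i : ℝ) =
      (Fintype.card (Equiv.Perm A) : ℝ) * bet e i := by
    intro j i
    have h := tint_perm_sum (fun a => (e a i : ℝ)) j
    unfold bet
    field_simp
    rw [mul_comm]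
    linarith [h]
  have hsum : ∑ p, x p = (Fintype.card (Equiv.Perm A) : ℝ) *
      ∑ j, 2 * ∑ i, bet e i * Real.log ‖Z j i‖ := by
    have h1 : ∑ p, x p = ∑ j, ∑ p : Equiv.Perm A, 2 * ∑ i, (e (p j) i : ℝ) *
        Real.log ‖Z j i‖ := Finset.sum_comm
    rw [h1, Finset.mul_sum]
    refine Finset.sum_congr rfl fun j _ => ?_
    have h2 : ∑ p : Equiv.Perm A, 2 * ∑ i, (e (p j) i : ℝ) * Real.log ‖Z j i‖ =
        2 * ∑ i, ∑ p : Equiv.Perm A, (e (p j) i : ℝ) * Real.log ‖Z j i‖ := by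
      rw [← Finset.mul_sum, Finset.sum_comm]
    rw [h2, mul_left_comm]
    congr 1
    rw [Finset.mul_sum]
    refine Finset.sum_congr rfl fun i _ => ?_
    rw [← Finset.sum_mul, hbet]
    ring
  obtain ⟨p, _, hp⟩ : ∃ p ∈ (Finset.univ : Finset (Equiv.Perm A)),
      (∑ j, 2 * ∑ i, bet e i * Real.log ‖Z j i‖) ≤ x p := by
    by_contra hcon
    push Not at hcon
    have := Finset.sum_lt_sum_of_nonempty (s := (Finset.univ : Finset (Equiv.Perm A)))
      Finset.univ_nonempty hcon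
    rw [hsum, Finset.sum_const, Finset.card_univ, nsmul_eq_mul] at this
    exact lt_irrefl _ this
  calc Real.exp (∑ j, 2 * ∑ i, bet e i * Real.log ‖Z j i‖) ≤ Real.exp (x p) :=
        Real.exp_le_exp.mpr hp
    _ = ∏ j, ‖mon (e (p j)) (Z j)‖ ^ 2 := by
        rw [hx, Real.exp_sum]
        refine Finset.prod_congr rfl fun j _ => ?_
        rw [tint_mon_norm _ _ (hZ j)]
    _ ≤ Pm e Z := by
        unfold Pm
        exact Finset.single_le_sum (f := fun p : Equiv.Perm A => ∏ j, ‖mon (e (p j)) (Z j)‖ ^ 2)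
          (fun _ _ => Finset.prod_nonneg fun _ _ => by positivity) (Finset.mem_univ p)

private theorem tint_Sd_ge (d : B → Fin n → ℕ) (b : B) (R : ℝ) (lam : Fin n → ℝ)
    (hlam : ∀ i, |lam i| ≤ R) (z : Pt n) (hz : ∀ i, z i ≠ 0) :
    Real.exp (2 * ∑ i, (d b i : ℝ) * Real.log ‖z i‖ - 2 * (R * ∑ i, (d b i : ℝ))) ≤
      Sd d (sc lam z) := by
  have hsz : ∀ i, sc lam z i ≠ 0 := by
    intro i
    unfold sc
    exact mul_ne_zero (by exact_mod_cast (Real.exp_pos _).ne') (hz i)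
  have hlog : ∀ i, Real.log ‖sc lam z i‖ = lam i + Real.log ‖z i‖ := by
    intro i
    unfold sc
    rw [norm_mul, Complex.norm_real, Real.norm_eq_abs, abs_of_pos (Real.exp_pos _),
      Real.log_mul (Real.exp_pos _).ne' (norm_pos_iff.mpr (hz i)).ne', Real.log_exp]
  calc _ ≤ Real.exp (2 * ∑ i, (d b i : ℝ) * Real.log ‖sc lam z i‖) := by
        apply Real.exp_le_exp.mpr
        have h1 : ∑ i, (d b i : ℝ) * Real.log ‖sc lam z i‖ =
            ∑ i, (d b i : ℝ) * lam i + ∑ i, (d b i : ℝ) * Real.log ‖z i‖ := by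
          rw [← Finset.sum_add_distrib]
          exact Finset.sum_congr rfl fun i _ => by rw [hlog]; ring
        have h2 : -(R * ∑ i, (d b i : ℝ)) ≤ ∑ i, (d b i : ℝ) * lam i := by
          rw [Finset.mul_sum, ← Finset.sum_neg_distrib]
          refine Finset.sum_le_sum fun i _ => ?_
          have h3 : -R ≤ lam i := (abs_le.mp (hlam i)).1
          have h4 : (0 : ℝ) ≤ d b i := by positivity
          nlinarith [mul_le_mul_of_nonneg_left h3 h4]
        rw [h1]
        linarith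
    _ = ‖mon (d b) (sc lam z)‖ ^ 2 := (tint_mon_norm _ _ hsz).symm
    _ ≤ Sd d (sc lam z) := by
        unfold Sd
        exact Finset.single_le_sum (f := fun b => ‖mon (d b) (sc lam z)‖ ^ 2)
          (fun _ _ => by positivity) (Finset.mem_univ b)

private theorem tint_Sd_pos (d : B → Fin n → ℕ) (h0d : ∃ b, d b = 0) (z : Pt n) :
    0 < Sd d z := by
  obtain ⟨b, hb⟩ := h0d
  have h1 : ‖mon (d b) z‖ ^ 2 = 1 := by
    rw [hb]
    simp [mon]
  have h2 : ‖mon (d b) z‖ ^ 2 ≤ Sd d z := by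
    unfold Sd
    exact Finset.single_le_sum (f := fun b => ‖mon (d b) z‖ ^ 2)
      (fun _ _ => by positivity) (Finset.mem_univ b)
  linarith

private theorem tint_rpow_exp_le {x y c : ℝ} (hc : 0 ≤ c) (h : Real.exp y ≤ x) :
    x ^ (-c) ≤ Real.exp (-(c * y)) := by
  have hx : 0 < x := lt_of_lt_of_le (Real.exp_pos _) h
  rw [Real.rpow_def_of_pos hx]
  apply Real.exp_le_exp.mpr
  have h1 : y ≤ Real.log x := by
    rw [Real.le_log_iff_exp_le hx]
    exact h
  nlinarith [mul_le_mul_of_nonneg_left h1 hc]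

/-- domination -/
theorem rho_dom [Nonempty A] (e : A → Fin n → ℕ) (d : B → Fin n → ℕ) (h0d : ∃ b, d b = 0)
    (t r ep kap : ℝ) (ht : 0 ≤ t) (hr : 0 < r) (hep : 0 < ep) (hkap : 0 < kap)
    (hco : Coer e d t r kap) (R : ℝ) :
    ∃ G : (A → Pt n) → ℝ, Integrable G ∧ ∀ᵐ Z : A → Pt n, ∀ ep' : ℝ, 0 ≤ ep' →
      ∀ lam : A → Fin n → ℝ, (∀ j i, |lam j i| ≤ R) → rho e d t r ep ep' lam Z ≤ G Z := by
  classical
  set M : ℝ := ∑ b, ∑ i, (d b i : ℝ) with hM
  set C : ℝ := ep ^ (-t) * Real.exp (∑ _j : A, 2 * r * (|R| * M)) with hC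
  have hC0 : 0 ≤ C := mul_nonneg (Real.rpow_nonneg hep.le _) (Real.exp_pos _).le
  refine ⟨fun Z => C * tint_G kap Z, (tint_G_integrable hkap).const_mul C, ?_⟩
  filter_upwards [tint_ae (n := n) (A := A)] with Z hZ ep' hep' lam hlam
  choose b hb using fun j : A => hco (fun i => Real.log ‖Z j i‖)
  have hH : Hh e ep ep' Z ^ (-t) ≤ ep ^ (-t) *
      Real.exp (-(t * ∑ j, 2 * ∑ i, bet e i * Real.log ‖Z j i‖)) := by
    have h1 : ep * Real.exp (∑ j, 2 * ∑ i, bet e i * Real.log ‖Z j i‖) ≤ Hh e ep ep' Z :=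
      le_trans (mul_le_mul_of_nonneg_left (tint_Pm_ge e Z hZ) hep.le) (tint_Hh_ge e hep' Z)
    have h2 : Hh e ep ep' Z ^ (-t) ≤
        (ep * Real.exp (∑ j, 2 * ∑ i, bet e i * Real.log ‖Z j i‖)) ^ (-t) :=
      Real.rpow_le_rpow_of_nonpos (mul_pos hep (Real.exp_pos _)) h1 (by linarith)
    refine h2.trans (le_of_eq ?_)
    rw [Real.mul_rpow hep.le (Real.exp_pos _).le, ← Real.exp_mul]
    congr 2
    ring
  have hS : ∀ j, Sd d (sc (lam j) (Z j)) ^ (-r) ≤ Real.exp (-(r * (2 * ∑ i, (d (b j) i : ℝ) *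
      Real.log ‖Z j i‖ - 2 * (|R| * ∑ i, (d (b j) i : ℝ))))) := by
    intro j
    apply tint_rpow_exp_le hr.le
    exact tint_Sd_ge d (b j) |R| (lam j) (fun i => (hlam j i).trans (le_abs_self R)) (Z j) (hZ j)
  have hMb : ∀ j, ∑ i, (d (b j) i : ℝ) ≤ M := by
    intro j
    rw [hM]
    exact Finset.single_le_sum (f := fun b => ∑ i, (d b i : ℝ))
      (fun _ _ => Finset.sum_nonneg fun _ _ => by positivity) (Finset.mem_univ (b j))
  unfold rho
  calc Hh e ep ep' Z ^ (-t) * ∏ j, Sd d (sc (lam j) (Z j)) ^ (-r)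
      ≤ (ep ^ (-t) * Real.exp (-(t * ∑ j, 2 * ∑ i, bet e i * Real.log ‖Z j i‖))) *
        ∏ j, Real.exp (-(r * (2 * ∑ i, (d (b j) i : ℝ) *
          Real.log ‖Z j i‖ - 2 * (|R| * ∑ i, (d (b j) i : ℝ))))) := by
        refine mul_le_mul hH (Finset.prod_le_prod (fun j _ =>
          Real.rpow_nonneg (tint_Sd_nonneg d _) _) fun j _ => hS j) ?_ ?_
        · exact Finset.prod_nonneg fun j _ => Real.rpow_nonneg (tint_Sd_nonneg d _) _
        · exact mul_nonneg (Real.rpow_nonneg hep.le _) (Real.exp_pos _).le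
    _ ≤ C * tint_G kap Z := by
        rw [← Real.exp_sum, tint_G_eq, hC, mul_assoc, mul_assoc, ← Real.exp_add, ← Real.exp_add]
        refine mul_le_mul_of_nonneg_left (Real.exp_le_exp.mpr ?_) (Real.rpow_nonneg hep.le _)
        rw [Finset.mul_sum, ← Finset.sum_neg_distrib, ← Finset.sum_add_distrib,
          ← Finset.sum_add_distrib]
        refine Finset.sum_le_sum fun j _ => ?_
        have h1 := hb j
        have h2 := hMb j
        have h3 : |R| * ∑ i, (d (b j) i : ℝ) ≤ |R| * M :=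
          mul_le_mul_of_nonneg_left h2 (abs_nonneg R)
        have h4 : r * (|R| * ∑ i, (d (b j) i : ℝ)) ≤ r * (|R| * M) :=
          mul_le_mul_of_nonneg_left h3 hr.le
        nlinarith [h1, h4]

theorem rho_integrable [Nonempty A] (e : A → Fin n → ℕ) (d : B → Fin n → ℕ)
    (h0d : ∃ b, d b = 0) (t r ep ep' kap : ℝ) (ht : 0 ≤ t) (hr : 0 < r) (hep : 0 < ep)
    (hep' : 0 ≤ ep') (hkap : 0 < kap) (hco : Coer e d t r kap) (lam : A → Fin n → ℝ) :
    Integrable (rho e d t r ep ep' lam) := by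
  obtain ⟨G, hG, hdom⟩ := rho_dom e d h0d t r ep kap ht hr hep hkap hco (∑ j, ∑ i, |lam j i|)
  refine hG.mono' (measurable_rho e d t r ep ep' lam).aestronglyMeasurable ?_
  filter_upwards [hdom] with Z hZ
  rw [Real.norm_eq_abs, abs_of_nonneg (rho_nonneg e d t r ep ep' hep.le hep' lam Z)]
  refine hZ ep' hep' lam fun j i => ?_
  calc |lam j i| ≤ ∑ i, |lam j i| :=
        Finset.single_le_sum (f := fun i => |lam j i|) (fun _ _ => abs_nonneg _)
          (Finset.mem_univ i)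
    _ ≤ ∑ j, ∑ i, |lam j i| :=
        Finset.single_le_sum (f := fun j => ∑ i, |lam j i|)
          (fun _ _ => Finset.sum_nonneg fun _ _ => abs_nonneg _) (Finset.mem_univ j)

private theorem tint_Hh_pos [Nonempty A] (e : A → Fin n → ℕ) {ep ep' : ℝ} (hep : 0 < ep)
    (hep' : 0 ≤ ep') (Z : A → Pt n) (hZ : ∀ j i, Z j i ≠ 0) : 0 < Hh e ep ep' Z :=
  lt_of_lt_of_le (mul_pos hep (lt_of_lt_of_le (Real.exp_pos _) (tint_Pm_ge e Z hZ)))
    (tint_Hh_ge e hep' Z)

private theorem tint_rho_pos [Nonempty A] (e : A → Fin n → ℕ) (d : B → Fin n → ℕ)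
    (h0d : ∃ b, d b = 0) (t r : ℝ) {ep ep' : ℝ} (hep : 0 < ep) (hep' : 0 ≤ ep')
    (lam : A → Fin n → ℝ) (Z : A → Pt n) (hZ : ∀ j i, Z j i ≠ 0) :
    0 < rho e d t r ep ep' lam Z := by
  unfold rho
  exact mul_pos (Real.rpow_pos_of_pos (tint_Hh_pos e hep hep' Z hZ) _)
    (Finset.prod_pos fun j _ => Real.rpow_pos_of_pos (tint_Sd_pos d h0d _) _)

theorem rho_integral_pos [Nonempty A] (e : A → Fin n → ℕ) (d : B → Fin n → ℕ)
    (h0d : ∃ b, d b = 0) (t r ep ep' kap : ℝ) (ht : 0 ≤ t) (hr : 0 < r) (hep : 0 < ep)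
    (hep' : 0 ≤ ep') (hkap : 0 < kap) (hco : Coer e d t r kap) (lam : A → Fin n → ℝ) :
    0 < ∫ Z, rho e d t r ep ep' lam Z := by
  rw [integral_pos_iff_support_of_nonneg
    (fun Z => rho_nonneg e d t r ep ep' hep.le hep' lam Z)
    (rho_integrable e d h0d t r ep ep' kap ht hr hep hep' hkap hco lam)]
  have h1 : (Function.support (rho e d t r ep ep' lam)) =ᵐ[volume] Set.univ := by
    rw [Filter.eventuallyEq_univ]
    filter_upwards [tint_ae (n := n) (A := A)] with Z hZ
    exact (tint_rho_pos e d h0d t r hep hep' lam Z hZ).ne'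
  rw [measure_congr h1]
  have h2 : (volume : Measure (Fin n → ℂ)).IsOpenPosMeasure := inferInstance
  have h3 : (volume : Measure (A → Pt n)).IsOpenPosMeasure :=
    Measure.pi.isOpenPosMeasure (fun _ : A => (volume : Measure (Fin n → ℂ)))
  exact isOpen_univ.measure_pos volume Set.univ_nonempty

/-- the limit ep' -> 0 -/
theorem rho_lim [Nonempty A] (e : A → Fin n → ℕ) (d : B → Fin n → ℕ)
    (h0d : ∃ b, d b = 0) (t r ep kap : ℝ) (ht : 0 ≤ t) (hr : 0 < r) (hep : 0 < ep)
    (hkap : 0 < kap) (hco : Coer e d t r kap) (lam : A → Fin n → ℝ)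
    (f : (A → Pt n) → ℝ) (hf : Measurable f) (hfb : ∃ C, ∀ Z, |f Z| ≤ C) :
    Filter.Tendsto (fun ep' : ℝ => ∫ Z, f Z * rho e d t r ep ep' lam Z)
      (nhdsWithin 0 (Set.Ioi 0)) (nhds (∫ Z, f Z * rho e d t r ep 0 lam Z)) := by
  obtain ⟨C, hC⟩ := hfb
  obtain ⟨G, hG, hdom⟩ := rho_dom e d h0d t r ep kap ht hr hep hkap hco (∑ j, ∑ i, |lam j i|)
  have hlam : ∀ j i, |lam j i| ≤ ∑ j, ∑ i, |lam j i| := by
    intro j i
    calc |lam j i| ≤ ∑ i, |lam j i| :=
          Finset.single_le_sum (f := fun i => |lam j i|) (fun _ _ => abs_nonneg _)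
            (Finset.mem_univ i)
      _ ≤ ∑ j, ∑ i, |lam j i| :=
          Finset.single_le_sum (f := fun j => ∑ i, |lam j i|)
            (fun _ _ => Finset.sum_nonneg fun _ _ => abs_nonneg _) (Finset.mem_univ j)
  refine tendsto_integral_filter_of_dominated_convergence (fun Z => |C| * G Z) ?_ ?_
    (hG.const_mul _) ?_
  · exact Filter.Eventually.of_forall fun ep' =>
      (hf.mul (measurable_rho e d t r ep ep' lam)).aestronglyMeasurable
  · filter_upwards [self_mem_nhdsWithin] with ep' hep'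
    filter_upwards [hdom] with Z hZ
    have h0 : 0 ≤ ep' := le_of_lt hep'
    have h1 := rho_nonneg e d t r ep ep' hep.le h0 lam Z
    rw [norm_mul, Real.norm_eq_abs, Real.norm_eq_abs, abs_of_nonneg h1]
    exact mul_le_mul ((hC Z).trans (le_abs_self C)) (hZ ep' h0 lam hlam) h1 (abs_nonneg C)
  · filter_upwards [tint_ae (n := n) (A := A)] with Z hZ
    refine Filter.Tendsto.const_mul _ ?_
    unfold rho
    refine Filter.Tendsto.mul_const _ ?_
    have hc : ContinuousAt (fun ep' : ℝ => Hh e ep ep' Z ^ (-t)) 0 := by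
      have h1 : Continuous (fun ep' : ℝ => Hh e ep ep' Z) := by
        unfold Hh
        fun_prop
      exact h1.continuousAt.rpow_const (Or.inl (tint_Hh_pos e hep le_rfl Z hZ).ne')
    exact hc.tendsto.mono_left nhdsWithin_le_nhds

end GTor
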