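/- piece TCB: joint concavity of the logarithm of the partition function -/
import Pool.Agent.Lib_MP_e0d435_ag_T.TPsh
import Pool.Agent.Lib_MP_e0d435_ag_T.TConcA
import Pool.Agent.Lib_MP_e0d435_ag_T.TInt
import Pool.Agent.Lib_MP_e0d435_ag_T.THolD

open Finset MeasureTheory Complex
open scoped ENNReal ContDiff Real

namespace GTor
open GPn

variable {n : ℕ} {A B : Type} [Fintype A] [DecidableEq A] [Fintype B]

/-- the line of parameters -/
private noncomputable def ls (lam mu : A → Fin n → ℝ) (s : ℝ) : A → Fin n → ℝ :=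
  fun j i => lam j i + s * mu j i

/-- derivative of the weight along the line -/
private noncomputable def ff (d : B → Fin n → ℕ) (r : ℝ) (lam mu : A → Fin n → ℝ) (s : ℝ)
    (Z : A → Pt n) : ℝ := r * ∑ j, g1 d (mu j) (sc (ls lam mu s j) (Z j))

/-- second derivative of the weight along the line -/
private noncomputable def QQ (d : B → Fin n → ℕ) (r : ℝ) (lam mu : A → Fin n → ℝ) (s : ℝ)
    (Z : A → Pt n) : ℝ := r * ∑ j, g2 d (mu j) (sc (ls lam mu s j) (Z j))

omit [DecidableEq A] in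
private theorem ff_bdd (d : B → Fin n → ℕ) (r : ℝ) (lam mu : A → Fin n → ℝ) :
    ∃ C, 0 ≤ C ∧ ∀ s Z, |ff d r lam mu s Z| ≤ C := by
  choose C hC using fun j : A => g1_bdd d (mu j)
  refine ⟨|r| * ∑ j, |C j|, by positivity, fun s Z => ?_⟩
  rw [ff, abs_mul]
  refine mul_le_mul_of_nonneg_left ?_ (abs_nonneg r)
  refine (Finset.abs_sum_le_sum_abs _ _).trans (Finset.sum_le_sum fun j _ => ?_)
  exact (hC j _).trans (le_abs_self _)

omit [DecidableEq A] in
private theorem QQ_nonneg (d : B → Fin n → ℕ) (r : ℝ) (hr : 0 < r) (lam mu : A → Fin n → ℝ)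
    (s : ℝ) (Z : A → Pt n) : 0 ≤ QQ d r lam mu s Z :=
  mul_nonneg hr.le (Finset.sum_nonneg fun _ _ => g2_nonneg _ _ _)

omit [DecidableEq A] in
private theorem QQ_bdd (d : B → Fin n → ℕ) (r : ℝ) (hr : 0 < r) (lam mu : A → Fin n → ℝ) :
    ∃ C, 0 ≤ C ∧ ∀ s Z, |QQ d r lam mu s Z| ≤ C := by
  choose C hC using fun j : A => g2_bdd d (mu j)
  refine ⟨r * ∑ j, |C j|, by positivity, fun s Z => ?_⟩
  rw [abs_of_nonneg (QQ_nonneg d r hr lam mu s Z), QQ]
  refine mul_le_mul_of_nonneg_left (Finset.sum_le_sum fun j _ => ?_) hr.le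
  exact (hC j _).trans (le_abs_self _)

omit [DecidableEq A] in
private theorem ff_deriv (d : B → Fin n → ℕ) (h0d : ∃ b, d b = 0) (r : ℝ)
    (lam mu : A → Fin n → ℝ) (Z : A → Pt n) (s : ℝ) :
    HasDerivAt (fun s => ff d r lam mu s Z) (QQ d r lam mu s Z) s := by
  have h := HasDerivAt.fun_sum (u := (Finset.univ : Finset A))
    (fun j _ => hasDerivAt_g1 d h0d (lam j) (mu j) (Z j) s)
  exact h.const_mul r

private theorem rho_deriv (e : A → Fin n → ℕ) (d : B → Fin n → ℕ)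
    (h0e : ∃ a, e a = 0) (h0d : ∃ b, d b = 0) (t r ep ep' : ℝ)
    (hep : 0 < ep) (hep' : 0 < ep') (lam mu : A → Fin n → ℝ) (Z : A → Pt n) (s : ℝ) :
    HasDerivAt (fun s => rho e d t r ep ep' (ls lam mu s) Z)
      (-ff d r lam mu s Z * rho e d t r ep ep' (ls lam mu s) Z) s := by
  have h := HasDerivAt.fun_sum (u := (Finset.univ : Finset A))
    (fun j _ => hasDerivAt_logSd d h0d (lam j) (mu j) (Z j) s)
  have h2 : HasDerivAt (fun s => Ps e d t r ep ep' (ls lam mu s) Z)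
      (ff d r lam mu s Z) s := (h.const_mul r).const_add _
  have h3 : HasDerivAt (fun s => Real.exp (-Ps e d t r ep ep' (ls lam mu s) Z))
      (Real.exp (-Ps e d t r ep ep' (ls lam mu s) Z) * -ff d r lam mu s Z) s := h2.fun_neg.exp
  have h4 : (fun s => rho e d t r ep ep' (ls lam mu s) Z) =
      fun s => Real.exp (-Ps e d t r ep ep' (ls lam mu s) Z) := by
    funext s
    exact rho_eq_exp e d h0e h0d t r ep ep' hep.le hep' _ Z
  rw [h4, rho_eq_exp e d h0e h0d t r ep ep' hep.le hep' _ Z, mul_comm]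
  exact h3

private theorem rho_deriv2 (e : A → Fin n → ℕ) (d : B → Fin n → ℕ)
    (h0e : ∃ a, e a = 0) (h0d : ∃ b, d b = 0) (t r ep ep' : ℝ)
    (hep : 0 < ep) (hep' : 0 < ep') (lam mu : A → Fin n → ℝ) (Z : A → Pt n) (s : ℝ) :
    HasDerivAt (fun s => -ff d r lam mu s Z * rho e d t r ep ep' (ls lam mu s) Z)
      ((ff d r lam mu s Z ^ 2 - QQ d r lam mu s Z) * rho e d t r ep ep' (ls lam mu s) Z) s := by
  have h := (ff_deriv d h0d r lam mu Z s).fun_neg.fun_mul
    (rho_deriv e d h0e h0d t r ep ep' hep hep' lam mu Z s)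
  refine h.congr_deriv ?_
  ring

omit [DecidableEq A] in
private theorem ff_smooth (d : B → Fin n → ℕ) (h0d : ∃ b, d b = 0) (r : ℝ)
    (lam mu : A → Fin n → ℝ) (s : ℝ) : ContDiff ℝ ∞ (ff d r lam mu s) := by
  unfold ff
  refine contDiff_const.mul (ContDiff.sum fun j _ => ?_)
  exact (g1_smooth d h0d (ls lam mu s j) (mu j)).comp
    (contDiff_apply ℝ (Pt n) j)

omit [DecidableEq A] in
private theorem QQ_continuous (d : B → Fin n → ℕ) (h0d : ∃ b, d b = 0) (r : ℝ)
    (lam mu : A → Fin n → ℝ) (s : ℝ) : Continuous (QQ d r lam mu s) := by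
  unfold QQ
  refine continuous_const.mul (continuous_finsetSum _ fun j _ => ?_)
  exact (g2_continuous d h0d (ls lam mu s j) (mu j)).comp (continuous_apply j)

private theorem rt_const (th : ℝ) (z : Pt n) :
    Complex.exp (th * I) • z = rt (fun _ => th) z := by
  funext i
  simp [rt]

omit [DecidableEq A] in
private theorem ff_circle (d : B → Fin n → ℕ) (r : ℝ)
    (lam mu : A → Fin n → ℝ) (s th : ℝ) (Z : A → Pt n) :
    ff d r lam mu s (Complex.exp (th * I) • Z) = ff d r lam mu s Z := by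
  unfold ff
  congr 1
  refine Finset.sum_congr rfl fun j _ => ?_
  rw [Pi.smul_apply, rt_const, g1_rt]

omit [DecidableEq A] in
private theorem ff_fderiv (d : B → Fin n → ℕ) (h0d : ∃ b, d b = 0) (r : ℝ)
    (lam mu : A → Fin n → ℝ) (s : ℝ) (Z a : A → Pt n) :
    fderiv ℝ (ff d r lam mu s) Z a =
      r * ∑ j, fderiv ℝ (fun y => g1 d (mu j) (sc (ls lam mu s j) y)) (Z j) (a j) := by
  have h1 : ∀ j : A, HasFDerivAt (fun Z : A → Pt n => g1 d (mu j) (sc (ls lam mu s j) (Z j)))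
      ((fderiv ℝ (fun y => g1 d (mu j) (sc (ls lam mu s j) y)) (Z j)).comp
        (ContinuousLinearMap.proj (R := ℝ) (φ := fun _ : A => Pt n) j)) Z := by
    intro j
    have h2 : HasFDerivAt (fun y => g1 d (mu j) (sc (ls lam mu s j) y))
        (fderiv ℝ (fun y => g1 d (mu j) (sc (ls lam mu s j) y)) (Z j)) (Z j) :=
      (((g1_smooth d h0d (ls lam mu s j) (mu j)).differentiable (by simp)) (Z j)).hasFDerivAt
    exact h2.comp Z (ContinuousLinearMap.proj (R := ℝ) (φ := fun _ : A => Pt n) j).hasFDerivAt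
  have h3 := (HasFDerivAt.fun_sum (u := (Finset.univ : Finset A)) fun j _ => h1 j).const_mul r
  have h4 : fderiv ℝ (ff d r lam mu s) Z = _ := h3.fderiv
  rw [h4]
  simp

private theorem cs_ineq {ι : Type} [Fintype ι] (D D' p l : ι → ℝ) (hp : ∀ j, 0 ≤ p j)
    (hl : ∀ j, 0 ≤ l j) (h : ∀ j, D j ^ 2 + D' j ^ 2 ≤ 4 * p j * l j) :
    (∑ j, D j) ^ 2 + (∑ j, D' j) ^ 2 ≤ 4 * (∑ j, p j) * ∑ j, l j := by
  have h1 : (∑ j, D j) ^ 2 + (∑ j, D' j) ^ 2 =
      ‖∑ j, ((D j : ℂ) + D' j * I)‖ ^ 2 := by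
    have h2 : ∑ j, ((D j : ℂ) + D' j * I) =
        ((∑ j, D j : ℝ) : ℂ) + ((∑ j, D' j : ℝ) : ℂ) * I := by
      push_cast
      rw [Finset.sum_add_distrib, Finset.sum_mul]
    rw [h2, ← Complex.normSq_eq_norm_sq, Complex.normSq_add_mul_I]
  have h3 : ‖∑ j, ((D j : ℂ) + D' j * I)‖ ≤ ∑ j, Real.sqrt (4 * p j * l j) := by
    refine (norm_sum_le _ _).trans (Finset.sum_le_sum fun j _ => ?_)
    refine Real.le_sqrt_of_sq_le ?_
    rw [← Complex.normSq_eq_norm_sq, Complex.normSq_add_mul_I]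
    exact h j
  have h4 : (∑ j, Real.sqrt (4 * p j * l j)) ^ 2 ≤ (∑ j, 4 * p j) * ∑ j, l j := by
    refine Finset.sum_sq_le_sum_mul_sum_of_sq_le_mul _ (fun j _ => ?_) (fun j _ => hl j)
      (fun j _ => ?_)
    · have := hp j
      positivity
    · rw [Real.sq_sqrt]
      have := hp j
      have := hl j
      positivity
  rw [h1]
  calc ‖∑ j, ((D j : ℂ) + D' j * I)‖ ^ 2 ≤ (∑ j, Real.sqrt (4 * p j * l j)) ^ 2 := by gcongr
    _ ≤ (∑ j, 4 * p j) * ∑ j, l j := h4
    _ = 4 * (∑ j, p j) * ∑ j, l j := by rw [← Finset.mul_sum]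

private theorem grad_ineq (e : A → Fin n → ℕ) (d : B → Fin n → ℕ)
    (h0e : ∃ a, e a = 0) (h0d : ∃ b, d b = 0) (t r ep ep' : ℝ) (ht : 0 ≤ t) (hr : 0 < r)
    (hep : 0 < ep) (hep' : 0 < ep') (lam mu : A → Fin n → ℝ) (s : ℝ) (Z a : A → Pt n) :
    (fderiv ℝ (ff d r lam mu s) Z a) ^ 2 + (fderiv ℝ (ff d r lam mu s) Z (I • a)) ^ 2 ≤
      4 * QQ d r lam mu s Z * Lform (Ps e d t r ep ep' (ls lam mu s)) Z a := by
  have h1 := Ps_levi e d h0e h0d t r ep ep' ht hr.le hep.le hep' (ls lam mu s) Z a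
  have h2 := cs_ineq
    (fun j => fderiv ℝ (fun y => g1 d (mu j) (sc (ls lam mu s j) y)) (Z j) (a j))
    (fun j => fderiv ℝ (fun y => g1 d (mu j) (sc (ls lam mu s j) y)) (Z j) (I • a j))
    (fun j => g2 d (mu j) (sc (ls lam mu s j) (Z j)))
    (fun j => Lg d (ls lam mu s j) (Z j) (a j))
    (fun j => g2_nonneg _ _ _) (fun j => Lg_nonneg _ _ _ _)
    (fun j => g1_grad d h0d (ls lam mu s j) (mu j) (Z j) (a j))
  rw [ff_fderiv d h0d, ff_fderiv d h0d]
  calc _ = r ^ 2 * ((∑ j, fderiv ℝ (fun y => g1 d (mu j) (sc (ls lam mu s j) y)) (Z j) (a j)) ^ 2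
        + (∑ j, fderiv ℝ (fun y => g1 d (mu j) (sc (ls lam mu s j) y)) (Z j)
          (I • a j)) ^ 2) := by
        simp only [Pi.smul_apply]
        ring
    _ ≤ r ^ 2 * (4 * (∑ j, g2 d (mu j) (sc (ls lam mu s j) (Z j))) *
        ∑ j, Lg d (ls lam mu s j) (Z j) (a j)) := by gcongr
    _ = 4 * QQ d r lam mu s Z * (r * ∑ j, Lg d (ls lam mu s j) (Z j) (a j)) := by
        unfold QQ
        ring
    _ ≤ _ := by
        refine mul_le_mul_of_nonneg_left h1 ?_
        have := QQ_nonneg d r hr lam mu s Z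
        positivity

private theorem line_dom [Nonempty A] (e : A → Fin n → ℕ) (d : B → Fin n → ℕ)
    (h0d : ∃ b, d b = 0) (t r ep ep' kap : ℝ) (ht : 0 ≤ t) (hr : 0 < r)
    (hep : 0 < ep) (hep' : 0 < ep') (hkap : 0 < kap) (hco : Coer e d t r kap)
    (lam mu : A → Fin n → ℝ) (s0 : ℝ) :
    ∃ G : (A → Pt n) → ℝ, Integrable G ∧ ∀ᵐ Z : A → Pt n, ∀ s ∈ Metric.ball s0 1,
      rho e d t r ep ep' (ls lam mu s) Z ≤ G Z := by
  obtain ⟨G, hG, h⟩ := rho_dom e d h0d t r ep kap ht hr hep hkap hco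
    ((∑ j, ∑ i, |lam j i|) + (|s0| + 1) * ∑ j, ∑ i, |mu j i|)
  refine ⟨G, hG, ?_⟩
  filter_upwards [h] with Z hZ s hs
  refine hZ ep' hep'.le _ fun j i => ?_
  have h1 : |lam j i| ≤ ∑ j, ∑ i, |lam j i| :=
    (Finset.single_le_sum (f := fun i => |lam j i|) (fun _ _ => abs_nonneg _)
      (Finset.mem_univ i)).trans
    (Finset.single_le_sum (f := fun j => ∑ i, |lam j i|)
      (fun _ _ => Finset.sum_nonneg fun _ _ => abs_nonneg _) (Finset.mem_univ j))
  have h2 : |mu j i| ≤ ∑ j, ∑ i, |mu j i| :=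
    (Finset.single_le_sum (f := fun i => |mu j i|) (fun _ _ => abs_nonneg _)
      (Finset.mem_univ i)).trans
    (Finset.single_le_sum (f := fun j => ∑ i, |mu j i|)
      (fun _ _ => Finset.sum_nonneg fun _ _ => abs_nonneg _) (Finset.mem_univ j))
  have h3 : |s| ≤ |s0| + 1 := by
    have h4 : |s - s0| < 1 := by
      rw [Metric.mem_ball, Real.dist_eq] at hs
      exact hs
    have h5 := abs_sub_abs_le_abs_sub s s0
    linarith
  calc |ls lam mu s j i| ≤ |lam j i| + |s * mu j i| := abs_add_le _ _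
    _ = |lam j i| + |s| * |mu j i| := by rw [abs_mul]
    _ ≤ _ := by gcongr

private theorem ff_rho_int [Nonempty A] (e : A → Fin n → ℕ) (d : B → Fin n → ℕ)
    (h0d : ∃ b, d b = 0) (t r ep ep' kap : ℝ) (ht : 0 ≤ t) (hr : 0 < r)
    (hep : 0 < ep) (hep' : 0 < ep') (hkap : 0 < kap) (hco : Coer e d t r kap)
    (lam : A → Fin n → ℝ) (F : (A → Pt n) → ℝ) (hF : Continuous F) (C : ℝ)
    (hC : ∀ Z, |F Z| ≤ C) :
    Integrable (fun Z => F Z * rho e d t r ep ep' lam Z) :=
  (rho_integrable e d h0d t r ep ep' kap ht hr hep hep'.le hkap hco lam).bdd_mul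
    (c := C) hF.aestronglyMeasurable (Filter.Eventually.of_forall fun Z => by
      rw [Real.norm_eq_abs]; exact hC Z)

private theorem Z_deriv [Nonempty A] (e : A → Fin n → ℕ) (d : B → Fin n → ℕ)
    (h0e : ∃ a, e a = 0) (h0d : ∃ b, d b = 0) (t r ep ep' kap : ℝ) (ht : 0 ≤ t) (hr : 0 < r)
    (hep : 0 < ep) (hep' : 0 < ep') (hkap : 0 < kap) (hco : Coer e d t r kap)
    (lam mu : A → Fin n → ℝ) (s0 : ℝ) :
    HasDerivAt (fun s => ∫ Z, rho e d t r ep ep' (ls lam mu s) Z)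
      (∫ Z, -ff d r lam mu s0 Z * rho e d t r ep ep' (ls lam mu s0) Z) s0 := by
  obtain ⟨G, hG, hdom⟩ := line_dom e d h0d t r ep ep' kap ht hr hep hep' hkap hco lam mu s0
  obtain ⟨C, hC0, hC⟩ := ff_bdd d r lam mu
  refine (hasDerivAt_integral_of_dominated_loc_of_deriv_le (μ := volume)
    (F := fun s Z => rho e d t r ep ep' (ls lam mu s) Z)
    (F' := fun s Z => -ff d r lam mu s Z * rho e d t r ep ep' (ls lam mu s) Z)
    (bound := fun Z => C * G Z) (Metric.ball_mem_nhds s0 one_pos) ?_ ?_ ?_ ?_ ?_ ?_).2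
  · exact Filter.Eventually.of_forall fun s => (measurable_rho e d t r ep ep' _).aestronglyMeasurable
  · exact rho_integrable e d h0d t r ep ep' kap ht hr hep hep'.le hkap hco _
  · exact ((ff_smooth d h0d r lam mu s0).continuous.neg.measurable.mul
      (measurable_rho e d t r ep ep' _)).aestronglyMeasurable
  · filter_upwards [hdom] with Z hZ s hs
    have h0 := rho_nonneg e d t r ep ep' hep.le hep'.le (ls lam mu s) Z
    rw [norm_mul, norm_neg, Real.norm_eq_abs, Real.norm_of_nonneg h0]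
    exact mul_le_mul (hC s Z) (hZ s hs) h0 hC0
  · exact hG.const_mul C
  · exact Filter.Eventually.of_forall fun Z s _ =>
      rho_deriv e d h0e h0d t r ep ep' hep hep' lam mu Z s

private theorem Z_deriv2 [Nonempty A] (e : A → Fin n → ℕ) (d : B → Fin n → ℕ)
    (h0e : ∃ a, e a = 0) (h0d : ∃ b, d b = 0) (t r ep ep' kap : ℝ) (ht : 0 ≤ t) (hr : 0 < r)
    (hep : 0 < ep) (hep' : 0 < ep') (hkap : 0 < kap) (hco : Coer e d t r kap)
    (lam mu : A → Fin n → ℝ) (s0 : ℝ) :
    HasDerivAt (fun s => ∫ Z, -ff d r lam mu s Z * rho e d t r ep ep' (ls lam mu s) Z)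
      (∫ Z, (ff d r lam mu s0 Z ^ 2 - QQ d r lam mu s0 Z) *
        rho e d t r ep ep' (ls lam mu s0) Z) s0 := by
  obtain ⟨G, hG, hdom⟩ := line_dom e d h0d t r ep ep' kap ht hr hep hep' hkap hco lam mu s0
  obtain ⟨C, hC0, hC⟩ := ff_bdd d r lam mu
  obtain ⟨C2, hC20, hC2⟩ := QQ_bdd d r hr lam mu
  refine (hasDerivAt_integral_of_dominated_loc_of_deriv_le (μ := volume)
    (F := fun s Z => -ff d r lam mu s Z * rho e d t r ep ep' (ls lam mu s) Z)
    (F' := fun s Z => (ff d r lam mu s Z ^ 2 - QQ d r lam mu s Z) *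
      rho e d t r ep ep' (ls lam mu s) Z)
    (bound := fun Z => (C ^ 2 + C2) * G Z) (Metric.ball_mem_nhds s0 one_pos)
    ?_ ?_ ?_ ?_ ?_ ?_).2
  · exact Filter.Eventually.of_forall fun s =>
      ((ff_smooth d h0d r lam mu s).continuous.neg.measurable.mul
      (measurable_rho e d t r ep ep' _)).aestronglyMeasurable
  · exact ff_rho_int e d h0d t r ep ep' kap ht hr hep hep' hkap hco _ _
      (ff_smooth d h0d r lam mu s0).continuous.neg C (fun Z => by rw [abs_neg]; exact hC s0 Z)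
  · exact ((((ff_smooth d h0d r lam mu s0).continuous.pow 2).sub
      (QQ_continuous d h0d r lam mu s0)).measurable.mul
      (measurable_rho e d t r ep ep' _)).aestronglyMeasurable
  · filter_upwards [hdom] with Z hZ s hs
    have h0 := rho_nonneg e d t r ep ep' hep.le hep'.le (ls lam mu s) Z
    rw [norm_mul, Real.norm_eq_abs, Real.norm_of_nonneg h0]
    refine mul_le_mul ?_ (hZ s hs) h0 (by positivity)
    refine (abs_sub _ _).trans ?_
    refine add_le_add ?_ (hC2 s Z)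
    rw [abs_pow]
    exact pow_le_pow_left₀ (abs_nonneg _) (hC s Z) 2
  · exact hG.const_mul _
  · exact Filter.Eventually.of_forall fun Z s _ =>
      rho_deriv2 e d h0e h0d t r ep ep' hep hep' lam mu Z s

private theorem line_ineq [Nonempty A] (e : A → Fin n → ℕ) (d : B → Fin n → ℕ)
    (h0e : ∃ a, e a = 0) (h0d : ∃ b, d b = 0) (t r ep ep' kap : ℝ) (ht : 0 ≤ t) (hr : 0 < r)
    (hep : 0 < ep) (hep' : 0 < ep') (hkap : 0 < kap) (hco : Coer e d t r kap)
    (lam mu : A → Fin n → ℝ) (s : ℝ) :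
    (∫ Z, (ff d r lam mu s Z ^ 2 - QQ d r lam mu s Z) *
        rho e d t r ep ep' (ls lam mu s) Z) * (∫ Z, rho e d t r ep ep' (ls lam mu s) Z)
      - (∫ Z, -ff d r lam mu s Z * rho e d t r ep ep' (ls lam mu s) Z) ^ 2 ≤ 0 := by
  obtain ⟨C, hC0, hC⟩ := ff_bdd d r lam mu
  obtain ⟨C2, hC20, hC2⟩ := QQ_bdd d r hr lam mu
  have hint := rho_integrable e d h0d t r ep ep' kap ht hr hep hep'.le hkap hco (ls lam mu s)
  have hre : (fun Z => Real.exp (-Ps e d t r ep ep' (ls lam mu s) Z)) =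
      rho e d t r ep ep' (ls lam mu s) := by
    funext Z
    exact (rho_eq_exp e d h0e h0d t r ep ep' hep.le hep' _ Z).symm
  have inst1 : (volume : Measure (Fin n → ℂ)).IsAddHaarMeasure :=
    Measure.pi.isAddHaarMeasure (fun _ : Fin n => (volume : Measure ℂ))
  have inst2 : (volume : Measure (A → Pt n)).IsAddHaarMeasure :=
    Measure.pi.isAddHaarMeasure (fun _ : A => (volume : Measure (Fin n → ℂ)))
  have hp := poincare_circle (E := A → Pt n) volume (Ps e d t r ep ep' (ls lam mu s))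
    (ff d r lam mu s) (Ps_smooth e d h0e h0d t r ep ep' hep.le hep' _)
    (by rw [hre]; exact hint)
    (fun th Z => Ps_circle e d t r ep ep' _ th Z)
    (ff_smooth d h0d r lam mu s) (fun th Z => ff_circle d r lam mu s th Z)
    ⟨C, fun Z => hC s Z⟩ (QQ d r lam mu s) (QQ_nonneg d r hr lam mu s)
    (QQ_continuous d h0d r lam mu s).measurable
    ⟨C2, fun Z => (le_abs_self _).trans (hC2 s Z)⟩
    (fun Z a => Ps_psh e d h0e h0d t r ep ep' ht hr.le hep.le hep' _ Z a)
    (fun Z a => grad_ineq e d h0e h0d t r ep ep' ht hr hep hep' lam mu s Z a)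
  have hre2 : ∀ Z, Real.exp (-Ps e d t r ep ep' (ls lam mu s) Z) =
      rho e d t r ep ep' (ls lam mu s) Z := fun Z => congrFun hre Z
  simp only [hre2] at hp
  have h1 : ∫ Z, (ff d r lam mu s Z ^ 2 - QQ d r lam mu s Z) *
        rho e d t r ep ep' (ls lam mu s) Z =
      (∫ Z, ff d r lam mu s Z ^ 2 * rho e d t r ep ep' (ls lam mu s) Z) -
        ∫ Z, QQ d r lam mu s Z * rho e d t r ep ep' (ls lam mu s) Z := by
    rw [← integral_sub]
    · refine integral_congr_ae (Filter.Eventually.of_forall fun Z => ?_)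
      simp only
      ring
    · exact ff_rho_int e d h0d t r ep ep' kap ht hr hep hep' hkap hco _ _
        ((ff_smooth d h0d r lam mu s).continuous.pow 2) (C ^ 2) (fun Z => by
          rw [abs_pow]
          exact pow_le_pow_left₀ (abs_nonneg _) (hC s Z) 2)
    · exact ff_rho_int e d h0d t r ep ep' kap ht hr hep hep' hkap hco _ _
        (QQ_continuous d h0d r lam mu s) C2 (fun Z => hC2 s Z)
  have h2 : ∫ Z, -ff d r lam mu s Z * rho e d t r ep ep' (ls lam mu s) Z =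
      -∫ Z, ff d r lam mu s Z * rho e d t r ep ep' (ls lam mu s) Z := by
    rw [← integral_neg]
    refine integral_congr_ae (Filter.Eventually.of_forall fun Z => ?_)
    simp only
    ring
  rw [h1, h2]
  nlinarith [hp]

private theorem line_concave [Nonempty A] (e : A → Fin n → ℕ) (d : B → Fin n → ℕ)
    (h0e : ∃ a, e a = 0) (h0d : ∃ b, d b = 0) (t r ep ep' kap : ℝ) (ht : 0 ≤ t) (hr : 0 < r)
    (hep : 0 < ep) (hep' : 0 < ep') (hkap : 0 < kap) (hco : Coer e d t r kap)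
    (lam mu : A → Fin n → ℝ) :
    ConcaveOn ℝ Set.univ (fun s : ℝ =>
      Real.log (∫ Z, rho e d t r ep ep' (ls lam mu s) Z)) := by
  have hpos : ∀ s, 0 < ∫ Z, rho e d t r ep ep' (ls lam mu s) Z := fun s =>
    rho_integral_pos e d h0d t r ep ep' kap ht hr hep hep'.le hkap hco _
  have hd1 : ∀ s, HasDerivAt (fun s : ℝ =>
      Real.log (∫ Z, rho e d t r ep ep' (ls lam mu s) Z))
      ((∫ Z, -ff d r lam mu s Z * rho e d t r ep ep' (ls lam mu s) Z) /
        ∫ Z, rho e d t r ep ep' (ls lam mu s) Z) s := fun s =>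
    (Z_deriv e d h0e h0d t r ep ep' kap ht hr hep hep' hkap hco lam mu s).log (hpos s).ne'
  have hd2 : ∀ s, HasDerivAt (fun s : ℝ =>
      ((∫ Z, -ff d r lam mu s Z * rho e d t r ep ep' (ls lam mu s) Z) /
        ∫ Z, rho e d t r ep ep' (ls lam mu s) Z))
      (((∫ Z, (ff d r lam mu s Z ^ 2 - QQ d r lam mu s Z) *
        rho e d t r ep ep' (ls lam mu s) Z) * (∫ Z, rho e d t r ep ep' (ls lam mu s) Z)
        - (∫ Z, -ff d r lam mu s Z * rho e d t r ep ep' (ls lam mu s) Z) *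
          (∫ Z, -ff d r lam mu s Z * rho e d t r ep ep' (ls lam mu s) Z)) /
        (∫ Z, rho e d t r ep ep' (ls lam mu s) Z) ^ 2) s := fun s =>
    (Z_deriv2 e d h0e h0d t r ep ep' kap ht hr hep hep' hkap hco lam mu s).fun_div
      (Z_deriv e d h0e h0d t r ep ep' kap ht hr hep hep' hkap hco lam mu s) (hpos s).ne'
  have hder : deriv (fun s : ℝ => Real.log (∫ Z, rho e d t r ep ep' (ls lam mu s) Z)) =
      fun s => ((∫ Z, -ff d r lam mu s Z * rho e d t r ep ep' (ls lam mu s) Z) /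
        ∫ Z, rho e d t r ep ep' (ls lam mu s) Z) := by
    funext s
    exact (hd1 s).deriv
  refine concaveOn_univ_of_deriv2_nonpos (fun s => (hd1 s).differentiableAt) ?_ ?_
  · rw [hder]
    exact fun s => (hd2 s).differentiableAt
  · intro s
    rw [Function.iterate_succ, Function.iterate_one, Function.comp_apply, hder, (hd2 s).deriv]
    refine div_nonpos_of_nonpos_of_nonneg ?_ (by positivity)
    have h := line_ineq e d h0e h0d t r ep ep' kap ht hr hep hep' hkap hco lam mu s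
    rw [sq] at h
    exact h

theorem logZ_concave [Nonempty A] (e : A → Fin n → ℕ) (d : B → Fin n → ℕ)
    (h0e : ∃ a, e a = 0) (h0d : ∃ b, d b = 0) (t r ep ep' kap : ℝ) (ht : 0 ≤ t) (hr : 0 < r)
    (hep : 0 < ep) (hep' : 0 < ep') (hkap : 0 < kap) (hco : Coer e d t r kap) :
    ConcaveOn ℝ Set.univ (fun lam : A → Fin n → ℝ =>
      Real.log (∫ Z, rho e d t r ep ep' lam Z)) := by
  refine ⟨convex_univ, fun x _ y _ a b ha hb hab => ?_⟩
  have h := (line_concave e d h0e h0d t r ep ep' kap ht hr hep hep' hkap hco x (y - x)).2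
    (Set.mem_univ (0 : ℝ)) (Set.mem_univ (1 : ℝ)) ha hb hab
  have h0 : ls x (y - x) 0 = x := by
    funext j i
    simp [ls]
  have h1 : ls x (y - x) 1 = y := by
    funext j i
    simp [ls]
  have h2 : ls x (y - x) (a • (0 : ℝ) + b • (1 : ℝ)) = a • x + b • y := by
    funext j i
    have ha' : a = 1 - b := by linarith
    simp only [ls, smul_eq_mul, Pi.add_apply, Pi.smul_apply, Pi.sub_apply, ha']
    ring
  simp only [h0, h1, h2] at h
  exact h

end GTor
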