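/- piece TS: the star inequality -/
import Pool.Agent.Lib_MP_e0d435_ag_T.TConcB

open Finset MeasureTheory Complex
open scoped ENNReal ContDiff Real

namespace GTor
open GPn

variable {n : ℕ} {A B : Type} [Fintype A] [DecidableEq A] [Fintype B]

theorem logZ_concave0 [Nonempty A] (e : A → Fin n → ℕ) (d : B → Fin n → ℕ)
    (h0e : ∃ a, e a = 0) (h0d : ∃ b, d b = 0) (t r ep kap : ℝ) (ht : 0 ≤ t) (hr : 0 < r)
    (hep : 0 < ep) (hkap : 0 < kap) (hco : Coer e d t r kap) :
    ConcaveOn ℝ Set.univ (fun lam : A → Fin n → ℝ =>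
      Real.log (∫ Z, rho e d t r ep 0 lam Z)) := by
  have hlim : ∀ lam : A → Fin n → ℝ, Filter.Tendsto
      (fun ep' : ℝ => Real.log (∫ Z, rho e d t r ep ep' lam Z))
      (nhdsWithin 0 (Set.Ioi 0)) (nhds (Real.log (∫ Z, rho e d t r ep 0 lam Z))) := by
    intro lam
    have h1 := rho_lim e d h0d t r ep kap ht hr hep hkap hco lam (fun _ => 1)
      measurable_const ⟨1, fun _ => by simp⟩
    simp only [one_mul] at h1
    have h2 := rho_integral_pos e d h0d t r ep 0 kap ht hr hep le_rfl hkap hco lam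
    exact h1.log h2.ne'
  refine ⟨convex_univ, fun x _ y _ a b ha hb hab => ?_⟩
  have h1 : Filter.Tendsto
      (fun ep' : ℝ => a • Real.log (∫ Z, rho e d t r ep ep' x Z) +
        b • Real.log (∫ Z, rho e d t r ep ep' y Z))
      (nhdsWithin 0 (Set.Ioi 0))
      (nhds (a • Real.log (∫ Z, rho e d t r ep 0 x Z) +
        b • Real.log (∫ Z, rho e d t r ep 0 y Z))) :=
    ((hlim x).const_smul a).add ((hlim y).const_smul b)
  refine le_of_tendsto_of_tendsto h1 (hlim (a • x + b • y)) ?_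
  filter_upwards [self_mem_nhdsWithin] with ep' hep'
  exact (logZ_concave e d h0e h0d t r ep ep' kap ht hr hep hep' hkap hco).2
    (Set.mem_univ x) (Set.mem_univ y) ha hb hab

private theorem TStar_Dt_perm (e : A → Fin n → ℕ) (s : Equiv.Perm A) (Z : A → Pt n) :
    ‖Dt e (fun j => Z (s j))‖ = ‖Dt e Z‖ := by
  have h1 : (Matrix.of fun j a => mon (e a) (Z (s j))) =
      (Matrix.of fun j a => mon (e a) (Z j)).submatrix s id := by
    ext j a
    rfl
  have h2 : Dt e (fun j => Z (s j)) = (Equiv.Perm.sign s : ℂ) * Dt e Z := by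
    unfold Dt
    rw [h1, Matrix.det_permute]
  rw [h2, norm_mul]
  rcases Int.units_eq_one_or (Equiv.Perm.sign s) with h | h <;> rw [h] <;> simp

private theorem TStar_Pm_perm (e : A → Fin n → ℕ) (s : Equiv.Perm A) (Z : A → Pt n) :
    Pm e (fun j => Z (s j)) = Pm e Z := by
  unfold Pm
  refine Fintype.sum_equiv (Equiv.mulRight s⁻¹) _ _ fun p => ?_
  refine Fintype.prod_equiv s _ _ fun j => ?_
  simp

private theorem TStar_Hh_perm (e : A → Fin n → ℕ) (ep : ℝ) (s : Equiv.Perm A) (Z : A → Pt n) :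
    Hh e ep 0 (fun j => Z (s j)) = Hh e ep 0 Z := by
  unfold Hh
  rw [TStar_Dt_perm, TStar_Pm_perm, zero_mul, zero_mul]

/-- symmetry in the points -/
theorem Z_perm (e : A → Fin n → ℕ) (d : B → Fin n → ℕ) (t r ep : ℝ) (lam : A → Fin n → ℝ)
    (s : Equiv.Perm A) :
    ∫ Z, rho e d t r ep 0 (lam ∘ s) Z = ∫ Z, rho e d t r ep 0 lam Z := by
  have h1 := volume_measurePreserving_piCongrLeft (fun _ : A => Pt n) s
  have h2 := h1.integral_comp' (g := fun Z => rho e d t r ep 0 lam Z)
  rw [← h2]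
  refine integral_congr_ae (Filter.Eventually.of_forall fun Z => ?_)
  have h3 : (MeasurableEquiv.piCongrLeft (fun _ : A => Pt n) s) Z = fun j => Z (s⁻¹ j) := by
    funext j
    obtain ⟨i, rfl⟩ := s.surjective j
    rw [MeasurableEquiv.coe_piCongrLeft, Equiv.piCongrLeft_apply_apply]
    simp
  simp only [h3]
  unfold rho
  rw [TStar_Hh_perm]
  congr 1
  refine Fintype.prod_equiv s _ _ fun j => ?_
  simp

/-! ### dilations -/

private noncomputable def TStar_L (lam : A → Fin n → ℝ) : (A → Pt n) →ₗ[ℝ] (A → Pt n) :=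
  LinearMap.pi fun j => (LinearMap.pi fun i =>
    ((Real.exp (lam j i)) • (LinearMap.id : ℂ →ₗ[ℝ] ℂ)).comp (LinearMap.proj i)).comp
      (LinearMap.proj j)

omit [Fintype A] [DecidableEq A] in
private theorem TStar_L_apply (lam : A → Fin n → ℝ) (Z : A → Pt n) :
    TStar_L lam Z = fun j => sc (lam j) (Z j) := by
  funext j i
  simp [TStar_L, sc]

omit [DecidableEq A] in
private theorem TStar_L_det (lam : A → Fin n → ℝ) :
    LinearMap.det (TStar_L (n := n) lam) = Real.exp (2 * ∑ j, ∑ i, lam j i) := by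
  unfold TStar_L
  rw [LinearMap.det_pi]
  simp_rw [LinearMap.det_pi, LinearMap.det_smul, LinearMap.det_id, mul_one]
  rw [Complex.finrank_real_complex]
  simp_rw [← Real.exp_nat_mul, ← Real.exp_sum, ← Finset.mul_sum]
  norm_num

omit [DecidableEq A] in
private theorem TStar_haar : (volume : Measure (A → Pt n)).IsAddHaarMeasure :=
  MeasureTheory.Measure.pi.isAddHaarMeasure (fun _ : A => (volume : Measure (Pt n)))

omit [DecidableEq A] in
private theorem TStar_scale (lam : A → Fin n → ℝ) (G : (A → Pt n) → ℝ) (hG : Measurable G) :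
    ∫ Z : A → Pt n, G (fun j => sc (lam j) (Z j)) =
      Real.exp (-(2 * ∑ j, ∑ i, lam j i)) * ∫ Z, G Z := by
  have hd := TStar_L_det (n := n) lam
  have h0 : LinearMap.det (TStar_L (n := n) lam) ≠ 0 := by
    rw [hd]; exact (Real.exp_pos _).ne'
  have hH : (volume : Measure (A → Pt n)).IsAddHaarMeasure := TStar_haar
  have h1 := Measure.map_linearMap_addHaar_eq_smul_addHaar (volume : Measure (A → Pt n)) h0
  rw [hd, abs_of_pos (by positivity), ← Real.exp_neg] at h1
  have hm : Measurable (TStar_L (n := n) lam) :=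
    (LinearMap.continuous_of_finiteDimensional _).measurable
  have h2 : (fun Z : A → Pt n => G (fun j => sc (lam j) (Z j))) =
      fun Z => G (TStar_L lam Z) := by
    funext Z
    rw [TStar_L_apply]
  rw [h2, ← integral_map hm.aemeasurable hG.aestronglyMeasurable, h1, integral_smul_measure,
    ENNReal.toReal_ofReal (Real.exp_pos _).le, smul_eq_mul]

private theorem TStar_mon_sc (e : Fin n → ℕ) (lam : Fin n → ℝ) (z : Pt n) :
    mon e (sc lam z) = (Real.exp (∑ i, (e i : ℝ) * lam i) : ℂ) * mon e z := by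
  simp only [mon, sc, mul_pow, Finset.prod_mul_distrib]
  congr 1
  rw [Real.exp_sum, Complex.ofReal_prod]
  refine Finset.prod_congr rfl fun i _ => ?_
  rw [← Complex.ofReal_pow, ← Real.exp_nat_mul]

omit [DecidableEq A] in
private theorem TStar_sum [Nonempty A] (e : A → Fin n → ℕ) (lam0 : Fin n → ℝ) :
    ∑ a, ∑ i, (e a i : ℝ) * lam0 i = Fintype.card A * ∑ i, bet e i * lam0 i := by
  have hN : (Fintype.card A : ℝ) ≠ 0 := by exact_mod_cast Fintype.card_ne_zero
  rw [Finset.sum_comm, Finset.mul_sum]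
  refine Finset.sum_congr rfl fun i _ => ?_
  rw [← Finset.sum_mul]
  unfold bet
  field_simp

private theorem TStar_Dt_sc [Nonempty A] (e : A → Fin n → ℕ) (lam0 : Fin n → ℝ) (Z : A → Pt n) :
    ‖Dt e (fun j => sc lam0 (Z j))‖ ^ 2 =
      Real.exp (2 * (Fintype.card A * ∑ i, bet e i * lam0 i)) * ‖Dt e Z‖ ^ 2 := by
  have h1 : (Matrix.of fun j a => mon (e a) (sc lam0 (Z j))) =
      Matrix.of fun j a => (fun a => (Real.exp (∑ i, (e a i : ℝ) * lam0 i) : ℂ)) a *
        (Matrix.of fun j a => mon (e a) (Z j)) j a := by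
    ext j a
    simp only [Matrix.of_apply]
    exact TStar_mon_sc _ _ _
  have h2 : Dt e (fun j => sc lam0 (Z j)) =
      (Real.exp (∑ a, ∑ i, (e a i : ℝ) * lam0 i) : ℂ) * Dt e Z := by
    unfold Dt
    rw [h1, Matrix.det_mul_row, Real.exp_sum, Complex.ofReal_prod]
  rw [h2, norm_mul, Complex.norm_real, Real.norm_of_nonneg (Real.exp_pos _).le, mul_pow,
    ← Real.exp_nat_mul, TStar_sum]
  norm_num

private theorem TStar_Pm_sc [Nonempty A] (e : A → Fin n → ℕ) (lam0 : Fin n → ℝ) (Z : A → Pt n) :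
    Pm e (fun j => sc lam0 (Z j)) =
      Real.exp (2 * (Fintype.card A * ∑ i, bet e i * lam0 i)) * Pm e Z := by
  unfold Pm
  rw [Finset.mul_sum]
  refine Finset.sum_congr rfl fun p _ => ?_
  have h1 : ∀ j, ‖mon (e (p j)) (sc lam0 (Z j))‖ ^ 2 =
      Real.exp (2 * ∑ i, (e (p j) i : ℝ) * lam0 i) * ‖mon (e (p j)) (Z j)‖ ^ 2 := by
    intro j
    rw [TStar_mon_sc, norm_mul, Complex.norm_real, Real.norm_of_nonneg (Real.exp_pos _).le,
      mul_pow, ← Real.exp_nat_mul]
    norm_num
  simp_rw [h1]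
  rw [Finset.prod_mul_distrib, ← Real.exp_sum, ← Finset.mul_sum,
    Equiv.sum_comp p (fun a => ∑ i, (e a i : ℝ) * lam0 i), TStar_sum]

private theorem TStar_Hh_sc [Nonempty A] (e : A → Fin n → ℕ) (ep : ℝ) (lam0 : Fin n → ℝ)
    (Z : A → Pt n) :
    Hh e ep 0 (fun j => sc lam0 (Z j)) =
      Real.exp (2 * (Fintype.card A * ∑ i, bet e i * lam0 i)) * Hh e ep 0 Z := by
  unfold Hh
  rw [TStar_Dt_sc, TStar_Pm_sc]
  ring

omit [DecidableEq A] in
private theorem TStar_Pm_nonneg [DecidableEq A] (e : A → Fin n → ℕ) (Z : A → Pt n) :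
    0 ≤ Pm e Z :=
  Finset.sum_nonneg fun _ _ => Finset.prod_nonneg fun _ _ => by positivity

private theorem TStar_Hh_nonneg (e : A → Fin n → ℕ) {ep : ℝ} (hep : 0 ≤ ep) (Z : A → Pt n) :
    0 ≤ Hh e ep 0 Z := by
  unfold Hh
  have h1 := mul_nonneg hep (TStar_Pm_nonneg e Z)
  rw [zero_mul, add_zero]
  positivity

private theorem TStar_sc_zero (z : Pt n) : sc (0 : Fin n → ℝ) z = z := by
  funext i
  simp [sc]

/-- exact behaviour under translation of all points -/
theorem Z_diag [Nonempty A] (e : A → Fin n → ℕ) (d : B → Fin n → ℕ) (t r ep : ℝ)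
    (hep : 0 ≤ ep) (lam0 : Fin n → ℝ) :
    ∫ Z, rho e d t r ep 0 (fun _ => lam0) Z =
      Real.exp (2 * Fintype.card A * (t * ∑ i, bet e i * lam0 i - ∑ i, lam0 i)) *
        ∫ Z, rho e d t r ep 0 0 Z := by
  have h1 := TStar_scale (fun _ : A => lam0) (fun Z => rho e d t r ep 0 0 Z)
    (measurable_rho e d t r ep 0 0)
  have h2 : ∀ Z : A → Pt n, rho e d t r ep 0 (fun _ => lam0) Z =
      Real.exp (2 * (Fintype.card A * (t * ∑ i, bet e i * lam0 i))) *
        rho e d t r ep 0 0 (fun j => sc lam0 (Z j)) := by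
    intro Z
    unfold rho
    rw [TStar_Hh_sc, Real.mul_rpow (Real.exp_pos _).le (TStar_Hh_nonneg e hep Z),
      ← Real.exp_mul]
    have h3 : ∀ j, sc ((0 : A → Fin n → ℝ) j) (sc lam0 (Z j)) = sc lam0 (Z j) :=
      fun j => TStar_sc_zero _
    simp_rw [h3]
    rw [← mul_assoc, ← mul_assoc, ← Real.exp_add]
    have h4 : 2 * (Fintype.card A * (t * ∑ i, bet e i * lam0 i)) +
        2 * (Fintype.card A * ∑ i, bet e i * lam0 i) * -t = 0 := by ring
    rw [h4, Real.exp_zero, one_mul]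
  simp_rw [h2]
  rw [integral_const_mul, h1, ← mul_assoc, ← Real.exp_add]
  congr 2
  rw [Finset.sum_const, Finset.card_univ, nsmul_eq_mul]
  ring

private theorem TStar_Sd_pos (d : B → Fin n → ℕ) (h0 : ∃ b, d b = 0) (z : Pt n) :
    0 < Sd d z := by
  obtain ⟨b, hb⟩ := h0
  have h1 : ‖mon (d b) z‖ ^ 2 ≤ Sd d z :=
    Finset.single_le_sum (f := fun b => ‖mon (d b) z‖ ^ 2) (fun _ _ => by positivity)
      (Finset.mem_univ b)
  have h2 : ‖mon (d b) z‖ ^ 2 = 1 := by
    simp [mon, hb]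
  linarith

theorem star [Nonempty A] (e : A → Fin n → ℕ) (d : B → Fin n → ℕ)
    (h0e : ∃ a, e a = 0) (h0d : ∃ b, d b = 0) (t r ep kap : ℝ) (ht : 0 ≤ t) (hr : 0 < r)
    (hep : 0 < ep) (hkap : 0 < kap) (hco : Coer e d t r kap) (lam0 : Fin n → ℝ) (j : A) :
    ∫ Z : A → Pt n, (Sd d (Z j) / Sd d (sc lam0 (Z j))) ^ r * rho e d t r ep 0 0 Z ≤
      Real.exp (2 * (t * ∑ i, bet e i * lam0 i - ∑ i, lam0 i)) *
        ∫ Z, rho e d t r ep 0 0 Z := by
  have hN : (Fintype.card A : ℝ) ≠ 0 := by exact_mod_cast Fintype.card_ne_zero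
  set E : A → (A → Fin n → ℝ) := fun j => Function.update 0 j lam0 with hE
  -- the left side is the integral at E j
  have hL : ∀ Z : A → Pt n, (Sd d (Z j) / Sd d (sc lam0 (Z j))) ^ r * rho e d t r ep 0 0 Z =
      rho e d t r ep 0 (E j) Z := by
    intro Z
    unfold rho
    rw [mul_left_comm]
    congr 1
    rw [← Finset.mul_prod_erase Finset.univ (fun j' => Sd d (sc ((0 : A → Fin n → ℝ) j') (Z j')) ^ (-r))
        (Finset.mem_univ j),
      ← Finset.mul_prod_erase Finset.univ (fun j' => Sd d (sc (E j j') (Z j')) ^ (-r))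
        (Finset.mem_univ j), ← mul_assoc]
    congr 1
    · have h1 : (0 : A → Fin n → ℝ) j = 0 := rfl
      have h2 : E j j = lam0 := by simp [hE]
      rw [h1, h2, TStar_sc_zero]
      have h3 := TStar_Sd_pos d h0d (Z j)
      have h4 := TStar_Sd_pos d h0d (sc lam0 (Z j))
      rw [Real.div_rpow h3.le h4.le, Real.rpow_neg h3.le, Real.rpow_neg h4.le]
      have h5 : (0 : ℝ) < Sd d (Z j) ^ r := Real.rpow_pos_of_pos h3 _
      have h6 : (0 : ℝ) < Sd d (sc lam0 (Z j)) ^ r := Real.rpow_pos_of_pos h4 _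
      field_simp
    · refine Finset.prod_congr rfl fun j' hj' => ?_
      have h1 : E j j' = 0 := by
        rw [hE]
        simp only
        rw [Function.update_of_ne (Finset.ne_of_mem_erase hj')]
        rfl
      rw [h1]
      rfl
  simp_rw [hL]
  set f : (A → Fin n → ℝ) → ℝ := fun lam => Real.log (∫ Z, rho e d t r ep 0 lam Z) with hf
  have hpos : ∀ lam, 0 < ∫ Z, rho e d t r ep 0 lam Z := fun lam =>
    rho_integral_pos e d h0d t r ep 0 kap ht hr hep le_rfl hkap hco lam
  have hsym : ∀ j', f (E j') = f (E j) := by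
    intro j'
    have h1 := Z_perm e d t r ep (E j) (Equiv.swap j j')
    have h2 : (E j) ∘ (Equiv.swap j j') = E j' := by
      funext k
      rw [Function.comp_apply, hE]
      simp only
      by_cases hk : k = j'
      · subst hk
        rw [Equiv.swap_apply_right]
        simp
      · rw [Function.update_of_ne hk]
        have h3 : Equiv.swap j j' k ≠ j := by
          intro h
          apply hk
          have := congrArg (Equiv.swap j j') h
          rw [Equiv.swap_apply_self, Equiv.swap_apply_left] at this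
          exact this
        rw [Function.update_of_ne h3]
        rfl
    rw [h2] at h1
    rw [hf]
    simp only
    rw [h1]
  have hconc := logZ_concave0 e d h0e h0d t r ep kap ht hr hep hkap hco
  have h3 := hconc.le_map_sum (t := Finset.univ) (w := fun _ : A => (Fintype.card A : ℝ)⁻¹)
    (p := E) (fun _ _ => by positivity)
    (by rw [Finset.sum_const, Finset.card_univ, nsmul_eq_mul, mul_inv_cancel₀ hN])
    (fun _ _ => Set.mem_univ _)
  have h4 : ∑ j' : A, (Fintype.card A : ℝ)⁻¹ • E j' =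
      fun _ => (Fintype.card A : ℝ)⁻¹ • lam0 := by
    funext k
    rw [Finset.sum_apply, Finset.sum_eq_single k]
    · rw [Pi.smul_apply, hE]
      simp
    · intro b _ hb
      rw [Pi.smul_apply, hE]
      simp only
      rw [Function.update_of_ne (Ne.symm hb)]
      simp
    · intro h
      exact absurd (Finset.mem_univ k) h
  have h5 : ∑ j' : A, (Fintype.card A : ℝ)⁻¹ • f (E j') = f (E j) := by
    simp_rw [hsym]
    rw [Finset.sum_const, Finset.card_univ, nsmul_eq_mul, smul_eq_mul, ← mul_assoc,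
      mul_inv_cancel₀ hN, one_mul]
  have h6 : f (E j) ≤ f (fun _ => (Fintype.card A : ℝ)⁻¹ • lam0) := by
    rw [← h4, ← h5]
    exact h3
  have h7 := Z_diag e d t r ep hep.le ((Fintype.card A : ℝ)⁻¹ • lam0)
  have h8 : 2 * (Fintype.card A : ℝ) * (t * ∑ i, bet e i * ((Fintype.card A : ℝ)⁻¹ • lam0) i -
      ∑ i, ((Fintype.card A : ℝ)⁻¹ • lam0) i) =
      2 * (t * ∑ i, bet e i * lam0 i - ∑ i, lam0 i) := by
    have e1 : ∑ i, bet e i * ((Fintype.card A : ℝ)⁻¹ • lam0) i =
        (Fintype.card A : ℝ)⁻¹ * ∑ i, bet e i * lam0 i := by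
      rw [Finset.mul_sum]
      refine Finset.sum_congr rfl fun i _ => ?_
      rw [Pi.smul_apply, smul_eq_mul]
      ring
    have e2 : ∑ i, ((Fintype.card A : ℝ)⁻¹ • lam0) i = (Fintype.card A : ℝ)⁻¹ * ∑ i, lam0 i := by
      rw [Finset.mul_sum]
      refine Finset.sum_congr rfl fun i _ => ?_
      rw [Pi.smul_apply, smul_eq_mul]
    rw [e1, e2]
    field_simp
  rw [h8] at h7
  rw [← h7]
  have h9 := (Real.log_le_log_iff (hpos (E j)) (hpos (fun _ => (Fintype.card A : ℝ)⁻¹ • lam0))).1 h6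
  exact h9

end GTor
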