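/- piece TT: uniform tail bound -/
import Pool.Agent.Lib_MP_e0d435_ag_T.TStar

open Finset MeasureTheory Complex
open scoped ENNReal ContDiff Real

namespace GTor
open GPn

/-- almost everywhere all coordinates of one point are nonzero -/
private theorem TTail_ae {n : ℕ} {A : Type} [Fintype A] (j : A) :
    ∀ᵐ Z : A → Pt n, ∀ i, Z j i ≠ 0 := by
  have h1 : ∀ᵐ x : ℂ, x ≠ 0 := by
    rw [ae_iff]
    simp
  have h2 : ∀ᵐ w : Pt n, ∀ i, w i ≠ 0 := by
    rw [ae_all_iff]
    intro i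
    exact (Measure.tendsto_eval_ae_ae (μ := fun _ : Fin n => (volume : Measure ℂ))
      (i := i)).eventually h1
  exact (Measure.tendsto_eval_ae_ae (μ := fun _ : A => (volume : Measure (Pt n)))
      (i := j)).eventually h2

private theorem TTail_mon {n : ℕ} (e : Fin n → ℕ) (z : Pt n) (hz : ∀ i, z i ≠ 0)
    (lam : Fin n → ℝ) :
    ‖mon e (sc lam z)‖ ^ 2 = Real.exp (2 * ∑ i, (e i : ℝ) * (Real.log ‖z i‖ + lam i)) := by
  unfold mon sc
  rw [norm_prod, ← Finset.prod_pow, Finset.mul_sum, Real.exp_sum]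
  refine Finset.prod_congr rfl fun i _ => ?_
  rw [norm_pow, norm_mul, Complex.norm_real, Real.norm_eq_abs, abs_of_pos (Real.exp_pos _)]
  have h1 : 0 < ‖z i‖ := norm_pos_iff.2 (hz i)
  have h2 : Real.exp (lam i) * ‖z i‖ = Real.exp (Real.log ‖z i‖ + lam i) := by
    rw [Real.exp_add, Real.exp_log h1, mul_comm]
  rw [h2, ← pow_mul, ← Real.exp_nat_mul]
  congr 1
  push_cast
  ring

private theorem TTail_sc0 {n : ℕ} (z : Pt n) : sc 0 z = z := by
  funext i
  simp [sc]

private theorem TTail_one_le {n : ℕ} {B : Type} [Fintype B] (d : B → Fin n → ℕ)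
    (h0d : ∃ b, d b = 0) (z : Pt n) : 1 ≤ Sd d z := by
  obtain ⟨b, hb⟩ := h0d
  have h1 : ‖mon (d b) z‖ ^ 2 ≤ Sd d z :=
    Finset.single_le_sum (f := fun b => ‖mon (d b) z‖ ^ 2) (fun b _ => by positivity)
      (Finset.mem_univ b)
  have h2 : ‖mon (d b) z‖ ^ 2 = 1 := by
    rw [hb]; simp [mon]
  linarith

/-- lower bound of the quotient -/
private theorem TTail_quot {n : ℕ} {B : Type} [Fintype B] (d : B → Fin n → ℕ)
    (h0d : ∃ b, d b = 0) (z : Pt n) (hz : ∀ i, z i ≠ 0) (L N δ Dm : ℝ) (hL : 0 ≤ L)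
    (hN : 0 < N) (hLN : L ≤ N) (hδ : 0 ≤ δ) (v : Fin n → ℝ)
    (hv : ∀ i, |Real.log ‖z i‖ / N - v i| ≤ δ) (hD : ∀ b, ∑ i, (d b i : ℝ) ≤ Dm) (b0 : B) :
    (Fintype.card B : ℝ)⁻¹ * Real.exp (2 * L * ∑ i, (d b0 i : ℝ) * v i - 4 * L * δ * Dm) ≤
      Sd d z / Sd d (sc (fun i => -(L * v i)) z) := by
  classical
  obtain ⟨bz, hbz⟩ := h0d
  obtain ⟨bs, -, hbs⟩ := Finset.exists_max_image (Finset.univ : Finset B)
    (fun b => ∑ i, (d b i : ℝ) * Real.log ‖z i‖) ⟨bz, Finset.mem_univ _⟩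
  set h : ℝ := ∑ i, (d bs i : ℝ) * Real.log ‖z i‖ with hh
  have hB : (0 : ℝ) < Fintype.card B := by
    have : Nonempty B := ⟨bz⟩
    exact_mod_cast Fintype.card_pos
  -- comparison of linear forms
  have hlin : ∀ b, |∑ i, (d b i : ℝ) * (Real.log ‖z i‖ / N - v i)| ≤ δ * Dm := by
    intro b
    calc |∑ i, (d b i : ℝ) * (Real.log ‖z i‖ / N - v i)|
        ≤ ∑ i, |(d b i : ℝ) * (Real.log ‖z i‖ / N - v i)| := Finset.abs_sum_le_sum_abs _ _
      _ ≤ ∑ i, (d b i : ℝ) * δ := by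
          refine Finset.sum_le_sum fun i _ => ?_
          rw [abs_mul, abs_of_nonneg (by positivity : (0 : ℝ) ≤ (d b i : ℝ))]
          exact mul_le_mul_of_nonneg_left (hv i) (by positivity)
      _ = δ * ∑ i, (d b i : ℝ) := by rw [← Finset.sum_mul, mul_comm]
      _ ≤ δ * Dm := mul_le_mul_of_nonneg_left (hD b) hδ
  have hsplit : ∀ b, ∑ i, (d b i : ℝ) * (Real.log ‖z i‖ / N - v i) =
      (∑ i, (d b i : ℝ) * Real.log ‖z i‖) / N - ∑ i, (d b i : ℝ) * v i := by
    intro b
    rw [Finset.sum_div, ← Finset.sum_sub_distrib]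
    exact Finset.sum_congr rfl fun i _ => by ring
  have hNL : 0 ≤ 1 - L / N := by
    rw [sub_nonneg, div_le_one hN]; exact hLN
  -- the denominator
  have hden : Sd d (sc (fun i => -(L * v i)) z) ≤
      Fintype.card B * Real.exp (2 * ((1 - L / N) * h + L * (δ * Dm))) := by
    unfold Sd
    rw [← Finset.card_univ, ← nsmul_eq_mul]
    refine Finset.sum_le_card_nsmul _ _ _ fun b _ => ?_
    rw [TTail_mon (d b) z hz]
    refine Real.exp_le_exp.2 (mul_le_mul_of_nonneg_left ?_ (by norm_num))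
    have h1 : ∑ i, (d b i : ℝ) * (Real.log ‖z i‖ + -(L * v i)) =
        (1 - L / N) * (∑ i, (d b i : ℝ) * Real.log ‖z i‖) +
          L * (∑ i, (d b i : ℝ) * (Real.log ‖z i‖ / N - v i)) := by
      rw [Finset.mul_sum, Finset.mul_sum, ← Finset.sum_add_distrib]
      refine Finset.sum_congr rfl fun i _ => ?_
      field_simp
      ring
    rw [h1]
    exact add_le_add (mul_le_mul_of_nonneg_left (hbs b (Finset.mem_univ b)) hNL)
      (mul_le_mul_of_nonneg_left ((le_abs_self _).trans (hlin b)) hL)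
  have hden0 : 0 < Sd d (sc (fun i => -(L * v i)) z) :=
    lt_of_lt_of_le one_pos (TTail_one_le d ⟨bz, hbz⟩ _)
  -- the numerator
  have hnum : Real.exp (2 * h) ≤ Sd d z := by
    have h1 : ‖mon (d bs) z‖ ^ 2 ≤ Sd d z :=
      Finset.single_le_sum (f := fun b => ‖mon (d b) z‖ ^ 2) (fun b _ => by positivity)
        (Finset.mem_univ bs)
    have h2 := TTail_mon (d bs) z hz 0
    rw [TTail_sc0] at h2
    simp only [Pi.zero_apply, add_zero] at h2
    rw [h2] at h1
    exact h1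
  rw [le_div_iff₀ hden0]
  refine le_trans ?_ hnum
  calc (Fintype.card B : ℝ)⁻¹ * Real.exp (2 * L * ∑ i, (d b0 i : ℝ) * v i - 4 * L * δ * Dm) *
        Sd d (sc (fun i => -(L * v i)) z)
      ≤ (Fintype.card B : ℝ)⁻¹ * Real.exp (2 * L * ∑ i, (d b0 i : ℝ) * v i - 4 * L * δ * Dm) *
        (Fintype.card B * Real.exp (2 * ((1 - L / N) * h + L * (δ * Dm)))) :=
        mul_le_mul_of_nonneg_left hden (by positivity)
    _ = Real.exp ((2 * L * ∑ i, (d b0 i : ℝ) * v i - 4 * L * δ * Dm) +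
          2 * ((1 - L / N) * h + L * (δ * Dm))) := by
        rw [Real.exp_add]
        field_simp
    _ ≤ Real.exp (2 * h) := by
        refine Real.exp_le_exp.2 ?_
        have h1 := hbs b0 (Finset.mem_univ b0)
        have h2 := (abs_le.1 (hlin b0)).1
        rw [hsplit] at h2
        have h3 : (∑ i, (d b0 i : ℝ) * Real.log ‖z i‖) / N ≤ h / N :=
          div_le_div_of_nonneg_right h1 hN.le
        have h4 : ∑ i, (d b0 i : ℝ) * v i ≤ h / N + δ * Dm := by linarith
        have h5 := mul_le_mul_of_nonneg_left h4 hL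
        have h6 : L / N * h = L * (h / N) := by ring
        nlinarith

/-- finite net for the sphere of the l1 norm -/
private theorem TTail_net (n : ℕ) (δ : ℝ) (hδ : 0 < δ) : ∃ V : Finset (Fin n → ℝ),
    (∀ v ∈ V, 1 - n * δ ≤ ∑ i, |v i|) ∧
    ∀ u : Fin n → ℝ, ∑ i, |u i| = 1 → ∃ v ∈ V, ∀ i, |u i - v i| ≤ δ := by
  classical
  obtain ⟨t, htf, ht⟩ := Metric.totallyBounded_iff.1
    (isCompact_closedBall (0 : Fin n → ℝ) 1).totallyBounded δ hδ
  refine ⟨htf.toFinset.filter (fun v => 1 - n * δ ≤ ∑ i, |v i|), fun v hv =>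
    (Finset.mem_filter.1 hv).2, fun u hu => ?_⟩
  have h1 : u ∈ Metric.closedBall (0 : Fin n → ℝ) 1 := by
    rw [mem_closedBall_zero_iff, pi_norm_le_iff_of_nonneg zero_le_one]
    intro i
    rw [Real.norm_eq_abs, ← hu]
    exact Finset.single_le_sum (f := fun i => |u i|) (fun i _ => abs_nonneg _) (Finset.mem_univ i)
  obtain ⟨v, hv, huv⟩ := Set.mem_iUnion₂.1 (ht h1)
  rw [Metric.mem_ball, dist_pi_lt_iff hδ] at huv
  have h2 : ∀ i, |u i - v i| ≤ δ := fun i => by
    have := huv i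
    rw [Real.dist_eq] at this
    exact this.le
  refine ⟨v, Finset.mem_filter.2 ⟨htf.mem_toFinset.2 hv, ?_⟩, h2⟩
  have h3 : ∑ i, |u i| ≤ ∑ i, (|v i| + δ) := Finset.sum_le_sum fun i _ => by
    have h4 := abs_sub_abs_le_abs_sub (u i) (v i)
    linarith [h2 i]
  rw [Finset.sum_add_distrib, hu, Finset.sum_const, Finset.card_univ, Fintype.card_fin,
    nsmul_eq_mul] at h3
  linarith

/-- the translated density -/
private theorem TTail_rho {n : ℕ} {A B : Type} [Fintype A] [DecidableEq A] [Fintype B]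
    (e : A → Fin n → ℕ) (d : B → Fin n → ℕ) (h0d : ∃ b, d b = 0) (t r ep : ℝ) (j : A)
    (lam0 : Fin n → ℝ) (Z : A → Pt n) :
    rho e d t r ep 0 (Function.update 0 j lam0) Z =
      (Sd d (Z j) / Sd d (sc lam0 (Z j))) ^ r * rho e d t r ep 0 0 Z := by
  have h1 : 0 < Sd d (Z j) := lt_of_lt_of_le one_pos (TTail_one_le d h0d _)
  have h2 : 0 < Sd d (sc lam0 (Z j)) := lt_of_lt_of_le one_pos (TTail_one_le d h0d _)
  unfold rho
  rw [← Finset.mul_prod_erase Finset.univ _ (Finset.mem_univ j),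
    ← Finset.mul_prod_erase Finset.univ (fun j' => Sd d (sc ((0 : A → Fin n → ℝ) j') (Z j')) ^ (-r))
      (Finset.mem_univ j)]
  have h3 : ∏ x ∈ Finset.univ.erase j,
      Sd d (sc ((Function.update (0 : A → Fin n → ℝ) j lam0) x) (Z x)) ^ (-r) =
      ∏ x ∈ Finset.univ.erase j, Sd d (sc ((0 : A → Fin n → ℝ) x) (Z x)) ^ (-r) := by
    refine Finset.prod_congr rfl fun x hx => ?_
    rw [Function.update_of_ne (Finset.ne_of_mem_erase hx)]
  rw [h3, Function.update_self, Pi.zero_apply, TTail_sc0]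
  have h4 : (Sd d (Z j) / Sd d (sc lam0 (Z j))) ^ r * Sd d (Z j) ^ (-r) =
      Sd d (sc lam0 (Z j)) ^ (-r) := by
    rw [Real.div_rpow h1.le h2.le, Real.rpow_neg h1.le, Real.rpow_neg h2.le]
    have h5 : Sd d (Z j) ^ r ≠ 0 := (Real.rpow_pos_of_pos h1 r).ne'
    field_simp
  rw [← h4]
  ring

theorem tail (n : ℕ) {B : Type} [Fintype B] (d : B → Fin n → ℕ) (h0d : ∃ b, d b = 0)
    (r C1 kap : ℝ) (hr : 0 < r) (hkap : 0 < kap) : ∃ C : ℝ, 0 < C ∧
    ∀ (A : Type) [Fintype A] [DecidableEq A] [Nonempty A] (e : A → Fin n → ℕ) (t ep : ℝ),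
      (∃ a, e a = 0) → 0 ≤ t → 0 < ep → Coer e d t r kap → (∀ i, t * bet e i ≤ C1) →
      ∀ (j : A) (L : ℝ), 0 ≤ L →
      ∫ Z in {Z : A → Pt n | ∃ i, L < |Real.log ‖Z j i‖|}, rho e d t r ep 0 0 Z ≤
        C * Real.exp (-(kap * L)) * ∫ Z, rho e d t r ep 0 0 Z := by
  classical
  set Dm : ℝ := ∑ b, ∑ i, (d b i : ℝ) with hDm
  have hDm0 : 0 ≤ Dm := Finset.sum_nonneg fun b _ => Finset.sum_nonneg fun i _ => by positivity
  have hD : ∀ b, ∑ i, (d b i : ℝ) ≤ Dm := fun b =>
    Finset.single_le_sum (f := fun b => ∑ i, (d b i : ℝ))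
      (fun b _ => Finset.sum_nonneg fun i _ => by positivity) (Finset.mem_univ b)
  set δ : ℝ := kap / (2 * kap * n + 4 * r * Dm + 1) with hδ
  have hden : 0 < 2 * kap * n + 4 * r * Dm + 1 := by positivity
  have hδ0 : 0 < δ := div_pos hkap hden
  have hδ1 : 2 * kap * (n * δ) + 4 * r * (δ * Dm) ≤ kap := by
    have h1 : δ * (2 * kap * n + 4 * r * Dm + 1) = kap := div_mul_cancel₀ _ hden.ne'
    nlinarith
  obtain ⟨V, hV1, hV2⟩ := TTail_net n δ hδ0
  have hBn : Nonempty B := ⟨h0d.choose⟩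
  have hB : (0 : ℝ) < Fintype.card B := by exact_mod_cast Fintype.card_pos
  refine ⟨(V.card + 1) * (Fintype.card B : ℝ) ^ r, by positivity, ?_⟩
  intro A _ _ _ e t ep h0e ht hep hco _ j L hL
  have hint0 : Integrable (rho e d t r ep 0 (0 : A → Fin n → ℝ)) :=
    rho_integrable e d h0d t r ep 0 kap ht hr hep le_rfl hkap hco 0
  have hint : ∀ v : Fin n → ℝ, Integrable
      (rho e d t r ep 0 (Function.update (0 : A → Fin n → ℝ) j (fun i => -(L * v i)))) :=
    fun v => rho_integrable e d h0d t r ep 0 kap ht hr hep le_rfl hkap hco _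
  have hZ0 : 0 ≤ ∫ Z : A → Pt n, rho e d t r ep 0 0 Z :=
    integral_nonneg fun Z => rho_nonneg e d t r ep 0 hep.le le_rfl 0 Z
  choose b0 hb0 using hco
  -- the constants
  let c : (Fin n → ℝ) → ℝ := fun v => (Fintype.card B : ℝ)⁻¹ *
    Real.exp (2 * L * ∑ i, (d (b0 v) i : ℝ) * v i - 4 * L * δ * Dm)
  have hc : ∀ v, 0 < c v := fun v => by positivity
  have hmeas : MeasurableSet {Z : A → Pt n | ∃ i, L < |Real.log ‖Z j i‖|} := by
    have h1 : {Z : A → Pt n | ∃ i, L < |Real.log ‖Z j i‖|} =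
        ⋃ i, {Z : A → Pt n | L < |Real.log ‖Z j i‖|} := by
      ext Z; simp
    rw [h1]
    refine MeasurableSet.iUnion fun i => measurableSet_lt measurable_const ?_
    have h2 : Measurable (fun Z : A → Pt n => Z j i) :=
      (measurable_pi_apply i).comp (measurable_pi_apply j)
    have h3 : Measurable (fun Z : A → Pt n => Real.log ‖Z j i‖) := h2.norm.log
    exact h3.abs
  -- the pointwise bound
  have hpt : ∀ᵐ Z : A → Pt n,
      Set.indicator {Z : A → Pt n | ∃ i, L < |Real.log ‖Z j i‖|}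
        (fun Z => rho e d t r ep 0 0 Z) Z ≤
      ∑ v ∈ V, (c v) ^ (-r) *
        rho e d t r ep 0 (Function.update (0 : A → Fin n → ℝ) j (fun i => -(L * v i))) Z := by
    filter_upwards [TTail_ae (n := n) j] with Z hZ
    have hnn : ∀ v ∈ V, 0 ≤ (c v) ^ (-r) *
        rho e d t r ep 0 (Function.update (0 : A → Fin n → ℝ) j (fun i => -(L * v i))) Z :=
      fun v _ => mul_nonneg (Real.rpow_nonneg (hc v).le _)
        (rho_nonneg e d t r ep 0 hep.le le_rfl _ Z)
    by_cases hS : ∃ i, L < |Real.log ‖Z j i‖|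
    · rw [Set.indicator_of_mem (by exact hS)]
      obtain ⟨i0, hi0⟩ := hS
      set N : ℝ := ∑ i, |Real.log ‖Z j i‖| with hN
      have hLN : L < N := lt_of_lt_of_le hi0
        (Finset.single_le_sum (f := fun i => |Real.log ‖Z j i‖|) (fun i _ => abs_nonneg _)
          (Finset.mem_univ i0))
      have hN0 : 0 < N := lt_of_le_of_lt hL hLN
      obtain ⟨v, hv, huv⟩ := hV2 (fun i => Real.log ‖Z j i‖ / N) (by
        have h1 : ∀ i, |Real.log ‖Z j i‖ / N| = |Real.log ‖Z j i‖| / N := fun i => by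
          rw [abs_div, abs_of_pos hN0]
        simp only [h1]
        rw [← Finset.sum_div, ← hN, div_self hN0.ne'])
      refine le_trans ?_ (Finset.single_le_sum hnn hv)
      rw [TTail_rho e d h0d t r ep j, ← mul_assoc]
      have h1 := TTail_quot d h0d (Z j) hZ L N δ Dm hL hN0 hLN.le hδ0.le v huv hD (b0 v)
      have h2 : c v ^ r ≤ (Sd d (Z j) / Sd d (sc (fun i => -(L * v i)) (Z j))) ^ r :=
        Real.rpow_le_rpow (hc v).le h1 hr.le
      have h3 : 1 ≤ c v ^ (-r) * (Sd d (Z j) / Sd d (sc (fun i => -(L * v i)) (Z j))) ^ r := by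
        rw [Real.rpow_neg (hc v).le, inv_mul_eq_div, one_le_div (Real.rpow_pos_of_pos (hc v) r)]
        exact h2
      exact le_mul_of_one_le_left (rho_nonneg e d t r ep 0 hep.le le_rfl 0 Z) h3
    · rw [Set.indicator_of_notMem (by exact hS)]
      exact Finset.sum_nonneg hnn
  have h1 : ∫ Z in {Z : A → Pt n | ∃ i, L < |Real.log ‖Z j i‖|}, rho e d t r ep 0 0 Z ≤
      ∑ v ∈ V, (c v) ^ (-r) * ∫ Z : A → Pt n,
        rho e d t r ep 0 (Function.update (0 : A → Fin n → ℝ) j (fun i => -(L * v i))) Z := by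
    rw [← integral_indicator hmeas]
    have h2 : ∑ v ∈ V, (c v) ^ (-r) * ∫ Z : A → Pt n,
        rho e d t r ep 0 (Function.update (0 : A → Fin n → ℝ) j (fun i => -(L * v i))) Z =
        ∫ Z : A → Pt n, ∑ v ∈ V, (c v) ^ (-r) *
        rho e d t r ep 0 (Function.update (0 : A → Fin n → ℝ) j (fun i => -(L * v i))) Z := by
      rw [integral_finsetSum _ fun v _ => (hint v).const_mul _]
      exact Finset.sum_congr rfl fun v _ => (integral_const_mul _ _).symm
    rw [h2]
    exact integral_mono_ae (hint0.indicator hmeas)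
      (integrable_finsetSum _ fun v _ => (hint v).const_mul _) hpt
  have h2 : ∀ v ∈ V, (c v) ^ (-r) * ∫ Z : A → Pt n,
      rho e d t r ep 0 (Function.update (0 : A → Fin n → ℝ) j (fun i => -(L * v i))) Z ≤
      (Fintype.card B : ℝ) ^ r * Real.exp (-(kap * L)) * ∫ Z : A → Pt n, rho e d t r ep 0 0 Z := by
    intro v hv
    have h3 := star e d h0e h0d t r ep kap ht hr hep hkap (fun v => ⟨b0 v, hb0 v⟩)
      (fun i => -(L * v i)) j
    have h4 : ∫ Z : A → Pt n,
        rho e d t r ep 0 (Function.update (0 : A → Fin n → ℝ) j (fun i => -(L * v i))) Z =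
        ∫ Z : A → Pt n, (Sd d (Z j) / Sd d (sc (fun i => -(L * v i)) (Z j))) ^ r *
          rho e d t r ep 0 0 Z :=
      integral_congr_ae (Filter.Eventually.of_forall fun Z => TTail_rho e d h0d t r ep j _ Z)
    rw [← h4] at h3
    calc (c v) ^ (-r) * ∫ Z : A → Pt n,
          rho e d t r ep 0 (Function.update (0 : A → Fin n → ℝ) j (fun i => -(L * v i))) Z
        ≤ (c v) ^ (-r) * (Real.exp (2 * (t * ∑ i, bet e i * -(L * v i) - ∑ i, -(L * v i))) *
          ∫ Z : A → Pt n, rho e d t r ep 0 0 Z) :=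
          mul_le_mul_of_nonneg_left h3 (Real.rpow_nonneg (hc v).le _)
      _ = ((c v) ^ (-r) * Real.exp (2 * (t * ∑ i, bet e i * -(L * v i) - ∑ i, -(L * v i)))) *
          ∫ Z : A → Pt n, rho e d t r ep 0 0 Z := by ring
      _ ≤ (Fintype.card B : ℝ) ^ r * Real.exp (-(kap * L)) *
          ∫ Z : A → Pt n, rho e d t r ep 0 0 Z := by
          refine mul_le_mul_of_nonneg_right ?_ hZ0
          have h5 : (c v) ^ (-r) = (Fintype.card B : ℝ) ^ r *
              Real.exp (-r * (2 * L * ∑ i, (d (b0 v) i : ℝ) * v i - 4 * L * δ * Dm)) := by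
            simp only [c]
            rw [Real.mul_rpow (by positivity) (Real.exp_pos _).le, Real.inv_rpow hB.le,
              Real.rpow_neg hB.le, inv_inv, ← Real.exp_mul]
            congr 2
            ring
          rw [h5, mul_assoc, ← Real.exp_add]
          refine mul_le_mul_of_nonneg_left (Real.exp_le_exp.2 ?_) (by positivity)
          have h6 := hb0 v
          have h7 := hV1 v hv
          have e1 : ∑ i, bet e i * -(L * v i) = -(L * ∑ i, bet e i * v i) := by
            rw [Finset.mul_sum, ← Finset.sum_neg_distrib]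
            exact Finset.sum_congr rfl fun i _ => by ring
          have e2 : ∑ i, -(L * v i) = -(L * ∑ i, v i) := by
            rw [Finset.mul_sum, ← Finset.sum_neg_distrib]
          rw [e1, e2]
          have h8 : L * (kap * ∑ i, |v i|) ≤ L * (t * ∑ i, bet e i * v i +
              r * ∑ i, (d (b0 v) i : ℝ) * v i - ∑ i, v i) := mul_le_mul_of_nonneg_left h6 hL
          have h9 : L * (kap * (1 - n * δ)) ≤ L * (kap * ∑ i, |v i|) :=
            mul_le_mul_of_nonneg_left (mul_le_mul_of_nonneg_left h7 hkap.le) hL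
          have h10 := mul_le_mul_of_nonneg_left hδ1 hL
          nlinarith
  calc ∫ Z in {Z : A → Pt n | ∃ i, L < |Real.log ‖Z j i‖|}, rho e d t r ep 0 0 Z
      ≤ ∑ v ∈ V, (c v) ^ (-r) * ∫ Z : A → Pt n,
        rho e d t r ep 0 (Function.update (0 : A → Fin n → ℝ) j (fun i => -(L * v i))) Z := h1
    _ ≤ ∑ v ∈ V, (Fintype.card B : ℝ) ^ r * Real.exp (-(kap * L)) *
        ∫ Z : A → Pt n, rho e d t r ep 0 0 Z := Finset.sum_le_sum h2
    _ = V.card * ((Fintype.card B : ℝ) ^ r * Real.exp (-(kap * L)) *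
        ∫ Z : A → Pt n, rho e d t r ep 0 0 Z) := by rw [Finset.sum_const, nsmul_eq_mul]
    _ ≤ (V.card + 1) * ((Fintype.card B : ℝ) ^ r * Real.exp (-(kap * L)) *
        ∫ Z : A → Pt n, rho e d t r ep 0 0 Z) := by
        refine mul_le_mul_of_nonneg_right (by linarith) ?_
        positivity
    _ = _ := by ring

end GTor
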