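/- piece TO: averages of the test functions over torus orbits -/
import Pool.Agent.Lib_MP_e0d435_ag_T.TDefs

open Finset MeasureTheory Complex
open scoped ENNReal ContDiff Real

namespace GTor
open GPn

/-! ### the zero set of a polynomial on the torus is null -/

private theorem ttorus_countable (w : ℂ) : Set.Countable {t : ℝ | Complex.exp (t * I) = w} := by
  by_cases h : ∃ t0 : ℝ, Complex.exp (t0 * I) = w
  · obtain ⟨t0, ht0⟩ := h
    refine (Set.countable_range (fun k : ℤ => t0 + k * (2 * π))).mono ?_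
    intro t ht
    have h1 : Complex.exp (t * I) = Complex.exp (t0 * I) := by rw [ht0]; exact ht
    rw [Complex.exp_eq_exp_iff_exists_int] at h1
    obtain ⟨k, hk⟩ := h1
    refine ⟨k, ?_⟩
    have h2 : (t : ℂ) = ((t0 + k * (2 * π) : ℝ) : ℂ) := by
      have h3 : (t : ℂ) * I = (((t0 + k * (2 * π) : ℝ) : ℂ)) * I := by
        rw [hk]; push_cast; ring
      exact mul_right_cancel₀ I_ne_zero h3
    exact (Complex.ofReal_injective h2).symm
  · have h1 : {t : ℝ | Complex.exp (t * I) = w} = ∅ := by
      ext t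
      simp only [Set.mem_ofPred_eq, Set.mem_empty_iff_false, iff_false]
      exact fun ht => h ⟨t, ht⟩
    rw [h1]
    exact Set.countable_empty

private theorem ttorus_null : ∀ {r : ℕ} (p : MvPolynomial (Fin r) ℂ), p ≠ 0 →
    volume {x : Fin r → ℝ |
      MvPolynomial.eval (fun i => Complex.exp (x i * I)) p = 0} = 0 := by
  intro r
  induction r with
  | zero =>
    intro p hp
    have h : {x : Fin 0 → ℝ |
        MvPolynomial.eval (fun i => Complex.exp (x i * I)) p = 0} = ∅ := by
      ext x
      simp only [Set.mem_ofPred_eq, Set.mem_empty_iff_false, iff_false]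
      intro hx
      apply hp
      rw [MvPolynomial.eq_C_of_isEmpty p] at hx ⊢
      rw [MvPolynomial.eval_C] at hx
      rw [hx, MvPolynomial.C_0]
    rw [h, measure_empty]
  | succ r ih =>
    intro p hp
    set q : Polynomial (MvPolynomial (Fin r) ℂ) := MvPolynomial.finSuccEquiv ℂ r p with hq
    have hq0 : q ≠ 0 := by
      intro h
      apply hp
      have := (MvPolynomial.finSuccEquiv ℂ r).injective (a₁ := p) (a₂ := 0)
      apply this
      rw [← hq, h, map_zero]
    set s : Set (ℝ × (Fin r → ℝ)) :=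
      {z | MvPolynomial.eval (Fin.cons (Complex.exp (z.1 * I))
        (fun i => Complex.exp (z.2 i * I)) : Fin (r + 1) → ℂ) p = 0} with hs
    have hcont : Continuous (fun z : ℝ × (Fin r → ℝ) =>
        MvPolynomial.eval (Fin.cons (Complex.exp (z.1 * I))
        (fun i => Complex.exp (z.2 i * I)) : Fin (r + 1) → ℂ) p) := by
      have h1 : Continuous (fun z : ℝ × (Fin r → ℝ) => (Fin.cons (Complex.exp (z.1 * I))
        (fun i => Complex.exp (z.2 i * I)) : Fin (r + 1) → ℂ)) := by
        refine continuous_pi fun i => ?_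
        refine Fin.cases ?_ (fun j => ?_) i
        · simp only [Fin.cons_zero]
          fun_prop
        · simp only [Fin.cons_succ]
          fun_prop
      exact (MvPolynomial.continuous_eval p).comp h1
    have hsm : MeasurableSet s := (isClosed_singleton.preimage hcont).measurableSet
    have hs0 : (volume : Measure (ℝ × (Fin r → ℝ))) s = 0 := by
      rw [Measure.volume_eq_prod, Measure.measure_prod_null hsm]
      have hfin : Set.Finite {x0 : ℂ | q.eval (MvPolynomial.C x0) = 0} := by
        refine Set.Finite.preimage (MvPolynomial.C_injective (Fin r) ℂ).injOn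
          (s := {y | q.eval y = 0}) ?_
        refine (q.roots.toFinset.finite_toSet).subset ?_
        intro y hy
        simp only [Finset.mem_coe, Multiset.mem_toFinset]
        exact (Polynomial.mem_roots hq0).2 hy
      have hcount : Set.Countable
          {t : ℝ | q.eval (MvPolynomial.C (Complex.exp (t * I))) = 0} := by
        have h1 : {t : ℝ | q.eval (MvPolynomial.C (Complex.exp (t * I))) = 0} =
            ⋃ w ∈ {x0 : ℂ | q.eval (MvPolynomial.C x0) = 0},
              {t : ℝ | Complex.exp (t * I) = w} := by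
          ext t
          simp
        rw [h1]
        exact hfin.countable.biUnion fun w _ => ttorus_countable w
      have hae : ∀ᵐ t : ℝ, t ∉ {t : ℝ | q.eval (MvPolynomial.C (Complex.exp (t * I))) = 0} :=
        measure_eq_zero_iff_ae_notMem.1 (hcount.measure_zero volume)
      filter_upwards [hae] with x0 hx0
      have hne : q.eval (MvPolynomial.C (Complex.exp (x0 * I))) ≠ 0 := hx0
      have h2 := ih _ hne
      have h3 : Prod.mk x0 ⁻¹' s = {x : Fin r → ℝ |
          MvPolynomial.eval (fun i => Complex.exp (x i * I))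
            (q.eval (MvPolynomial.C (Complex.exp (x0 * I)))) = 0} := by
        ext x
        simp only [hs, Set.mem_preimage, Set.mem_ofPred_eq]
        rw [MvPolynomial.eval_eq_eval_mv_eval', ← hq, Polynomial.eval_map]
        have h4 := Polynomial.eval₂_at_apply (p := q)
          (MvPolynomial.eval fun i => Complex.exp (x i * I))
          (MvPolynomial.C (Complex.exp (x0 * I)) : MvPolynomial (Fin r) ℂ)
        rw [MvPolynomial.eval_C] at h4
        rw [h4]
      rw [h3, h2]
      rfl
    have hmp := volume_preserving_piFinSuccAbove (fun _ : Fin (r + 1) => ℝ) 0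
    have h5 : {x : Fin (r + 1) → ℝ |
        MvPolynomial.eval (fun i => Complex.exp (x i * I)) p = 0} =
        (MeasurableEquiv.piFinSuccAbove (fun _ : Fin (r + 1) => ℝ) 0) ⁻¹' s := by
      ext x
      simp only [hs, Set.mem_preimage, Set.mem_ofPred_eq]
      have h6 : (Fin.cons (Complex.exp
            (((MeasurableEquiv.piFinSuccAbove (fun _ : Fin (r + 1) => ℝ) 0) x).1 * I))
          (fun i => Complex.exp
            (((MeasurableEquiv.piFinSuccAbove (fun _ : Fin (r + 1) => ℝ) 0) x).2 i * I)) :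
          Fin (r + 1) → ℂ) = fun i => Complex.exp (x i * I) := by
        funext i
        refine Fin.cases ?_ (fun j => ?_) i
        · rfl
        · rfl
      rw [h6]
    rw [h5, hmp.measure_preimage hsm.nullMeasurableSet, hs0]

/-! ### the test function -/

private theorem ttorus_Sd {n : ℕ} {B : Type} [Fintype B] (d : B → Fin n → ℕ)
    (h0d : ∃ b, d b = 0) (z : Pt n) : 1 ≤ Sd d z := by
  obtain ⟨b0, hb0⟩ := h0d
  have h1 : ‖mon (d b0) z‖ ^ 2 ≤ Sd d z :=
    Finset.single_le_sum (f := fun b => ‖mon (d b) z‖ ^ 2) (fun _ _ => by positivity)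
      (Finset.mem_univ b0)
  have h2 : mon (d b0) z = 1 := by simp [mon, hb0]
  rw [h2] at h1
  simpa using h1

private theorem ttorus_base {n : ℕ} {B : Type} [Fintype B] (d : B → Fin n → ℕ)
    (sel : Fin (n + 1) → B) (hsel : Function.Injective sel) (h0d : ∃ b, d b = 0) {D : ℕ}
    (g : V (n + 1) D) (hg : ‖g‖ = 1) (z : Pt n) :
    0 ≤ 1 - ‖pd g 0 (fun i => mon (d (sel i)) z)‖ ^ 2 / Sd d z ^ D ∧
      1 - ‖pd g 0 (fun i => mon (d (sel i)) z)‖ ^ 2 / Sd d z ^ D ≤ 1 := by
  have hS := ttorus_Sd d h0d z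
  have hSD : 0 < Sd d z ^ D := pow_pos (by linarith) D
  have h2 : enm (fun i => mon (d (sel i)) z) ^ 2 ≤ Sd d z := by
    rw [enm_sq, nsq, Sd]
    have h3 : ∑ i, ‖mon (d (sel i)) z‖ ^ 2 =
        ∑ b ∈ Finset.univ.map ⟨sel, hsel⟩, ‖mon (d b) z‖ ^ 2 := by
      rw [Finset.sum_map]
      rfl
    rw [h3]
    exact Finset.sum_le_univ_sum_of_nonneg fun b => by positivity
  have hle : ‖pd g 0 (fun i => mon (d (sel i)) z)‖ ^ 2 ≤ Sd d z ^ D := by
    have h1 := norm_pd_le g (fun i => mon (d (sel i)) z)
    rw [hg, one_mul] at h1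
    calc ‖pd g 0 (fun i => mon (d (sel i)) z)‖ ^ 2
        ≤ (enm (fun i => mon (d (sel i)) z) ^ D) ^ 2 :=
          pow_le_pow_left₀ (norm_nonneg _) h1 2
      _ = (enm (fun i => mon (d (sel i)) z) ^ 2) ^ D := by ring
      _ ≤ Sd d z ^ D := pow_le_pow_left₀ (by positivity) h2 D
  constructor
  · rw [sub_nonneg, div_le_one hSD]
    exact hle
  · have : 0 ≤ ‖pd g 0 (fun i => mon (d (sel i)) z)‖ ^ 2 / Sd d z ^ D := by positivity
    linarith

theorem wt_mem {n : ℕ} {B : Type} [Fintype B] (d : B → Fin n → ℕ) (sel : Fin (n + 1) → B)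
    (hsel : Function.Injective sel) (h0d : ∃ b, d b = 0) {D : ℕ} (p : ℕ) (g : V (n + 1) D)
    (hg : ‖g‖ = 1) (z : Pt n) : 0 ≤ wt d sel p g z ∧ wt d sel p g z ≤ 1 := by
  obtain ⟨h1, h2⟩ := ttorus_base d sel hsel h0d g hg z
  unfold wt
  exact ⟨pow_nonneg h1 p, pow_le_one₀ h1 h2⟩

/-- the section on a torus orbit is a polynomial in the rotations -/
private theorem ttorus_ae {n : ℕ} {B : Type} [Fintype B] (d : B → Fin n → ℕ)
    (sel : Fin (n + 1) → B) (D : ℕ)
    (hinj : Function.Injective (fun a : Ex (n + 1) D => fun i : Fin n =>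
      ∑ s, a.1 s * d (sel s) i)) (g : V (n + 1) D) (hg : g ≠ 0) (z : Pt n) (hz : ∀ i, z i ≠ 0) :
    ∀ᵐ th : Fin n → ℝ, pd g 0 (fun i => mon (d (sel i)) (rt th z)) ≠ 0 := by
  classical
  set P : MvPolynomial (Fin n) ℂ :=
    ∑ a : Ex (n + 1) D, MvPolynomial.monomial
      (Finsupp.equivFunOnFinite.symm (fun i : Fin n => ∑ s, a.1 s * d (sel s) i))
      (g a * (bw a.1 : ℂ) * ∏ s, (mon (d (sel s)) z) ^ (a.1 s)) with hP
  have hev : ∀ th : Fin n → ℝ, MvPolynomial.eval (fun i => Complex.exp (th i * I)) P =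
      pd g 0 (fun i => mon (d (sel i)) (rt th z)) := by
    intro th
    rw [hP, map_sum, pd]
    refine Finset.sum_congr rfl fun a _ => ?_
    rw [MvPolynomial.eval_monomial, dm_zero, Finsupp.prod_fintype]
    · simp only [Finsupp.equivFunOnFinite_symm_apply_apply]
      have h1 : ∀ s, mon (d (sel s)) (rt th z) =
          (∏ i, Complex.exp (th i * I) ^ (d (sel s) i)) * mon (d (sel s)) z := by
        intro s
        simp only [mon, rt, mul_pow]
        rw [Finset.prod_mul_distrib]
      have h2 : ∏ s, mon (d (sel s)) (rt th z) ^ a.1 s =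
          (∏ i, Complex.exp (th i * I) ^ (∑ s, a.1 s * d (sel s) i)) *
            ∏ s, mon (d (sel s)) z ^ a.1 s := by
        simp only [h1, mul_pow]
        rw [Finset.prod_mul_distrib]
        congr 1
        simp only [← Finset.prod_pow]
        rw [Finset.prod_comm]
        refine Finset.prod_congr rfl fun i _ => ?_
        rw [← Finset.prod_pow_eq_pow_sum]
        refine Finset.prod_congr rfl fun s _ => ?_
        rw [← pow_mul, mul_comm (d (sel s) i)]
      rw [h2]
      ring
    · intro i
      simp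
  have hmon : ∀ e : Fin n → ℕ, mon e z ≠ 0 := fun e =>
    Finset.prod_ne_zero_iff.2 fun i _ => pow_ne_zero _ (hz i)
  have hne : P ≠ 0 := by
    intro h0
    apply hg
    ext a
    have h1 : MvPolynomial.coeff
        (Finsupp.equivFunOnFinite.symm (fun i : Fin n => ∑ s, a.1 s * d (sel s) i)) P =
        g a * (bw a.1 : ℂ) * ∏ s, (mon (d (sel s)) z) ^ (a.1 s) := by
      rw [hP, MvPolynomial.coeff_sum]
      rw [Finset.sum_eq_single a]
      · simp
      · intro b _ hb
        rw [MvPolynomial.coeff_monomial, if_neg]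
        intro h
        apply hb
        exact hinj (Finsupp.equivFunOnFinite.symm.injective h)
      · intro h
        exact absurd (Finset.mem_univ a) h
    rw [h0, MvPolynomial.coeff_zero] at h1
    have h2 : (bw a.1 : ℂ) ≠ 0 := by
      exact_mod_cast (bw_pos a.1).ne'
    have h3 : ∏ s, (mon (d (sel s)) z) ^ (a.1 s) ≠ 0 :=
      Finset.prod_ne_zero_iff.2 fun s _ => pow_ne_zero _ (hmon _)
    have h4 := (mul_eq_zero.1 h1.symm).resolve_right h3
    have h5 := (mul_eq_zero.1 h4).resolve_right h2
    simpa using h5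
  have h6 := measure_eq_zero_iff_ae_notMem.1 (ttorus_null P hne)
  filter_upwards [h6] with th hth
  rw [← hev th]
  exact hth

private theorem ttorus_cont {n : ℕ} {B : Type} [Fintype B] (d : B → Fin n → ℕ)
    (sel : Fin (n + 1) → B) (h0d : ∃ b, d b = 0) (D : ℕ) (p : ℕ) :
    Continuous (fun x : (V (n + 1) D × Pt n) × (Fin n → ℝ) =>
      wt d sel p x.1.1 (rt x.2 x.1.2)) := by
  have hrt : Continuous (fun x : (V (n + 1) D × Pt n) × (Fin n → ℝ) => rt x.2 x.1.2) := by
    unfold rt
    fun_prop
  have hmon : ∀ e : Fin n → ℕ, Continuous (fun z : Pt n => mon e z) := by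
    intro e
    unfold mon
    fun_prop
  have hSd : Continuous (fun z : Pt n => Sd d z) := by
    unfold Sd
    exact continuous_finsetSum _ fun b _ => ((hmon _).norm).pow 2
  have hpd : Continuous (fun x : (V (n + 1) D × Pt n) × (Fin n → ℝ) =>
      pd x.1.1 0 (fun i => mon (d (sel i)) (rt x.2 x.1.2))) := by
    refine (continuous_pd₂ 0).comp (Continuous.prodMk (by fun_prop) ?_)
    exact continuous_pi fun i => (hmon _).comp hrt
  unfold wt
  refine Continuous.pow (Continuous.sub continuous_const ?_) p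
  refine Continuous.div (hpd.norm.pow 2) ((hSd.comp hrt).pow D) fun x => ?_
  have := ttorus_Sd d h0d (rt x.2 x.1.2)
  exact pow_ne_zero _ (ne_of_gt (lt_of_lt_of_le one_pos this))

private theorem ttorus_slice {n : ℕ} {B : Type} [Fintype B] (d : B → Fin n → ℕ)
    (sel : Fin (n + 1) → B) (h0d : ∃ b, d b = 0) (D : ℕ) (p : ℕ) (x : V (n + 1) D × Pt n) :
    Continuous (fun th : Fin n → ℝ => wt d sel p x.1 (rt th x.2)) := by
  have h1 : Continuous (fun th : Fin n → ℝ => (x, th)) := Continuous.prodMk_right x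
  have h2 := (ttorus_cont d sel h0d D p).comp h1
  simpa only [Function.comp_def] using h2

private theorem ttorus_int {n : ℕ} {B : Type} [Fintype B] (d : B → Fin n → ℕ)
    (sel : Fin (n + 1) → B) (h0d : ∃ b, d b = 0) (D : ℕ) (p : ℕ) {box : Set (Fin n → ℝ)}
    (hbox : IsCompact box) :
    Continuous (fun x : V (n + 1) D × Pt n => ∫ th in box, wt d sel p x.1 (rt th x.2)) := by
  have h2 : Continuous (Function.uncurry (fun (x : V (n + 1) D × Pt n) (th : Fin n → ℝ) =>
      wt d sel p x.1 (rt th x.2))) := ttorus_cont d sel h0d D p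
  exact continuous_parametric_integral_of_continuous h2 hbox

theorem torus_avg {n : ℕ} {B : Type} [Fintype B] (d : B → Fin n → ℕ) (sel : Fin (n + 1) → B)
    (hsel : Function.Injective sel) (h0d : ∃ b, d b = 0) (D : ℕ)
    (hinj : Function.Injective (fun a : Ex (n + 1) D => fun i : Fin n =>
      ∑ s, a.1 s * d (sel s) i)) (L eta : ℝ) (heta : 0 < eta) :
    ∃ p : ℕ, ∀ g : V (n + 1) D, ‖g‖ = 1 → ∀ z : Pt n, (∀ i, z i ≠ 0 ∧ |Real.log ‖z i‖| ≤ L) →
      ∫ th in (Set.pi Set.univ fun _ : Fin n => Set.Icc (0 : ℝ) (2 * π)),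
        wt d sel p g (rt th z) ≤ eta := by
  classical
  obtain ⟨box, hbox⟩ : ∃ box : Set (Fin n → ℝ), box =
      (Set.pi Set.univ fun _ : Fin n => Set.Icc (0 : ℝ) (2 * π)) := ⟨_, rfl⟩
  rw [← hbox]
  have hboxc : IsCompact box := by
    rw [hbox]
    exact isCompact_univ_pi fun _ => isCompact_Icc
  obtain ⟨F, hF⟩ : ∃ F : ℕ → (V (n + 1) D × Pt n) → ℝ, ∀ p x, F p x =
      ∫ th in box, wt d sel p x.1 (rt th x.2) := ⟨_, fun _ _ => rfl⟩
  obtain ⟨K, hK⟩ : ∃ K : Set (V (n + 1) D × Pt n), K = Metric.sphere 0 1 ×ˢ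
      Set.pi Set.univ (fun _ : Fin n => {w : ℂ | Real.exp (-L) ≤ ‖w‖ ∧ ‖w‖ ≤ Real.exp L}) :=
    ⟨_, rfl⟩
  have hKc : IsCompact K := by
    rw [hK]
    refine (isCompact_sphere _ _).prod (isCompact_univ_pi fun _ => ?_)
    refine Metric.isCompact_of_isClosed_isBounded ?_ ?_
    · exact (isClosed_le continuous_const continuous_norm).inter
        (isClosed_le continuous_norm continuous_const)
    · refine (Metric.isBounded_closedBall (x := (0 : ℂ)) (r := Real.exp L)).subset ?_
      intro w hw
      rw [Metric.mem_closedBall, dist_zero_right]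
      exact hw.2
  have hKg : ∀ x ∈ K, ‖x.1‖ = 1 := by
    intro x hx
    rw [hK] at hx
    simpa using hx.1
  have hKz : ∀ x ∈ K, ∀ i, x.2 i ≠ 0 := by
    intro x hx i
    rw [hK] at hx
    have h1 : Real.exp (-L) ≤ ‖x.2 i‖ := (hx.2 i (Set.mem_univ i)).1
    have h2 := Real.exp_pos (-L)
    exact norm_pos_iff.1 (by linarith)
  have hslice : ∀ p (x : V (n + 1) D × Pt n), Continuous (fun th : Fin n → ℝ =>
      wt d sel p x.1 (rt th x.2)) := by
    intro p x
    exact ttorus_slice d sel h0d D p x
  have hFc : ∀ p, Continuous (F p) := by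
    intro p
    have h1 : F p = fun x => ∫ th in box, wt d sel p x.1 (rt th x.2) := funext (hF p)
    rw [h1]
    exact ttorus_int d sel h0d D p hboxc
  have hanti : ∀ x ∈ K, Antitone (fun p => F p x) := by
    intro x hx p q hpq
    simp only [hF]
    refine setIntegral_mono ?_ ?_ ?_
    · exact (hslice q x).continuousOn.integrableOn_compact hboxc
    · exact (hslice p x).continuousOn.integrableOn_compact hboxc
    · intro th
      obtain ⟨h1, h2⟩ := ttorus_base d sel hsel h0d x.1 (hKg x hx) (rt th x.2)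
      exact pow_le_pow_of_le_one h1 h2 hpq
  have hlim : ∀ x ∈ K, Filter.Tendsto (fun p => F p x) Filter.atTop (nhds 0) := by
    intro x hx
    have h0 : ∫ th in box, (0 : ℝ) = 0 := by simp
    rw [← h0]
    simp only [hF]
    refine tendsto_integral_of_dominated_convergence (fun _ => 1) ?_ ?_ ?_ ?_
    · intro p
      exact (hslice p x).aestronglyMeasurable
    · exact integrableOn_const hboxc.measure_ne_top
    · intro p
      refine Filter.Eventually.of_forall fun th => ?_
      obtain ⟨h1, h2⟩ := wt_mem d sel hsel h0d p x.1 (hKg x hx) (rt th x.2)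
      rw [Real.norm_of_nonneg h1]
      exact h2
    · refine ae_restrict_of_ae ?_
      have hg0 : x.1 ≠ 0 := by
        intro h
        have := hKg x hx
        rw [h, norm_zero] at this
        exact zero_ne_one this
      filter_upwards [ttorus_ae d sel D hinj x.1 hg0 x.2 (hKz x hx)] with th hth
      obtain ⟨h1, h2⟩ := ttorus_base d sel hsel h0d x.1 (hKg x hx) (rt th x.2)
      refine tendsto_pow_atTop_nhds_zero_of_lt_one h1 ?_
      have h3 : 0 < ‖pd x.1 0 (fun i => mon (d (sel i)) (rt th x.2))‖ := norm_pos_iff.2 hth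
      have h4 : 0 < Sd d (rt th x.2) := by
        have := ttorus_Sd d h0d (rt th x.2)
        linarith
      have h5 : 0 < ‖pd x.1 0 (fun i => mon (d (sel i)) (rt th x.2))‖ ^ 2 /
          Sd d (rt th x.2) ^ D := by positivity
      linarith
  have hdini := Antitone.tendstoUniformlyOn_of_forall_tendsto (F := F) (f := fun _ => (0 : ℝ))
    hKc (fun p => (hFc p).continuousOn) hanti continuousOn_const hlim
  rw [Metric.tendstoUniformlyOn_iff] at hdini
  obtain ⟨p, hp⟩ := (hdini eta heta).exists
  refine ⟨p, fun g hg z hz => ?_⟩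
  have hmem : (g, z) ∈ K := by
    rw [hK]
    refine ⟨by simpa using hg, fun i _ => ?_⟩
    obtain ⟨hz1, hz2⟩ := hz i
    rw [abs_le] at hz2
    have hpos : 0 < ‖z i‖ := norm_pos_iff.2 hz1
    exact ⟨(Real.le_log_iff_exp_le hpos).1 hz2.1, (Real.log_le_iff_le_exp hpos).1 hz2.2⟩
  have h1 := hp _ hmem
  rw [hF] at h1
  rw [Real.dist_eq, zero_sub, abs_neg] at h1
  exact (le_abs_self _).trans h1.le

end GTor
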