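/- piece TME: mean of the test functions -/
import Pool.Agent.Lib_MP_e0d435_ag_T.TTail
import Pool.Agent.Lib_MP_e0d435_ag_T.TTorus
import Pool.Agent.Lib_MP_e0d435_ag_T.TPsh

open Finset MeasureTheory Complex
open scoped ENNReal ContDiff Real

namespace GTor
open GPn

private theorem TMean_ae {n : ℕ} {A : Type} [Fintype A] (j : A) :
    ∀ᵐ Z : A → Pt n, ∀ i, Z j i ≠ 0 := by
  have h1 : ∀ᵐ x : ℂ, x ≠ 0 := by
    rw [ae_iff]
    simp
  have h2 : ∀ᵐ w : Pt n, ∀ i, w i ≠ 0 := by
    rw [ae_all_iff]
    intro i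
    exact (Measure.tendsto_eval_ae_ae (μ := fun _ : Fin n => (volume : Measure ℂ))
      (i := i)).eventually h1
  exact (Measure.tendsto_eval_ae_ae (μ := fun _ : A => (volume : Measure (Pt n)))
      (i := j)).eventually h2

private theorem TMean_mul (x : ℝ) :
    MeasurePreserving (fun z : ℂ => Complex.exp (x * I) * z) volume volume := by
  have h := (rotation (Circle.exp x)).measurePreserving
  have h2 : (⇑(rotation (Circle.exp x)) : ℂ → ℂ) = fun z : ℂ => Complex.exp (x * I) * z := by
    funext z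
    rw [rotation_apply, Circle.coe_exp]
  rwa [h2] at h

private theorem TMean_rot {n : ℕ} (th : Fin n → ℝ) :
    MeasurePreserving (fun z : Pt n => rt th z) volume volume :=
  volume_preserving_pi fun i => TMean_mul (th i)

private theorem TMean_rotA {n : ℕ} {A : Type} [Fintype A] (th : Fin n → ℝ) :
    MeasurePreserving (fun (Z : A → Pt n) a => rt th (Z a)) volume volume :=
  volume_preserving_pi fun _ => TMean_rot th

private theorem TMean_cont_mon {n : ℕ} (e : Fin n → ℕ) : Continuous (fun z : Pt n => mon e z) := by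
  unfold mon
  fun_prop

private theorem TMean_meas_wt {n : ℕ} {B : Type} [Fintype B] (d : B → Fin n → ℕ)
    (sel : Fin (n + 1) → B) {D : ℕ} (p : ℕ) (g : V (n + 1) D) :
    Measurable (fun z : Pt n => wt d sel p g z) := by
  unfold wt
  have h1 : Continuous (fun z : Pt n => pd g 0 (fun i => mon (d (sel i)) z)) :=
    (continuous_pd g 0).comp (continuous_pi fun i => TMean_cont_mon _)
  have h2 : Continuous (fun z : Pt n => Sd d z) := by
    unfold Sd
    exact continuous_finsetSum _ fun b _ => (TMean_cont_mon _).norm.pow 2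
  exact ((measurable_const.sub ((h1.norm.pow 2).measurable.div (h2.pow D).measurable)).pow_const p)

private theorem TMean_box (n : ℕ) :
    (volume (Set.pi Set.univ fun _ : Fin n => Set.Icc (0 : ℝ) (2 * π))).toReal = (2 * π) ^ n := by
  rw [volume_pi_pi]
  rw [Finset.prod_const, Real.volume_Icc, sub_zero, ENNReal.toReal_pow,
    ENNReal.toReal_ofReal Real.two_pi_pos.le, Finset.card_univ, Fintype.card_fin]

theorem mean_w (n : ℕ) {B : Type} [Fintype B] (d : B → Fin n → ℕ) (h0d : ∃ b, d b = 0)
    (sel : Fin (n + 1) → B) (hsel : Function.Injective sel) (D : ℕ)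
    (hinj : Function.Injective (fun a : Ex (n + 1) D => fun i : Fin n =>
      ∑ s, a.1 s * d (sel s) i))
    (r C1 kap eta : ℝ) (hr : 0 < r) (hkap : 0 < kap) (heta : 0 < eta) : ∃ p : ℕ,
    ∀ (A : Type) [Fintype A] [DecidableEq A] [Nonempty A] (e : A → Fin n → ℕ) (t ep : ℝ),
      (∃ a, e a = 0) → 0 ≤ t → 0 < ep → Coer e d t r kap → (∀ i, t * bet e i ≤ C1) →
      ∀ (j : A) (g : V (n + 1) D), ‖g‖ = 1 →
      ∫ Z : A → Pt n, wt d sel p g (Z j) * rho e d t r ep 0 0 Z ≤
        eta * ∫ Z, rho e d t r ep 0 0 Z := by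
  obtain ⟨C, hC, htail⟩ := tail n d h0d r C1 kap hr hkap
  obtain ⟨L, hL0, hL⟩ : ∃ L : ℝ, 0 ≤ L ∧ C * Real.exp (-(kap * L)) ≤ eta / 2 := by
    have h1 : Filter.Tendsto (fun L : ℝ => C * Real.exp (-(kap * L))) Filter.atTop (nhds (C * 0)) := by
      refine Filter.Tendsto.const_mul C (Real.tendsto_exp_neg_atTop_nhds_zero.comp ?_)
      exact Filter.Tendsto.const_mul_atTop hkap Filter.tendsto_id
    rw [mul_zero] at h1
    have h2 := (h1.eventually (gt_mem_nhds (half_pos heta))).and (Filter.eventually_ge_atTop 0)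
    obtain ⟨L, hL1, hL2⟩ := h2.exists
    exact ⟨L, hL2, hL1.le⟩
  have hpi : (0 : ℝ) < (2 * π) ^ n := by positivity
  obtain ⟨p, hp⟩ := torus_avg d sel hsel h0d D hinj L ((2 * π) ^ n * (eta / 2)) (by positivity)
  refine ⟨p, fun A _ _ _ e t ep h0e ht hep hco hbet j g hg => ?_⟩
  have hrint : Integrable (rho e d t r ep 0 (0 : A → Fin n → ℝ)) :=
    rho_integrable e d h0d t r ep 0 kap ht hr hep le_rfl hkap hco 0
  have hrnn : ∀ Z : A → Pt n, 0 ≤ rho e d t r ep 0 0 Z := fun Z =>
    rho_nonneg e d t r ep 0 hep.le le_rfl 0 Z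
  have hrm : Measurable (rho e d t r ep 0 (0 : A → Fin n → ℝ)) := measurable_rho e d t r ep 0 0
  have hwm := TMean_meas_wt d sel p g
  have hw := wt_mem d sel hsel h0d p g hg
  set I0 : ℝ := ∫ Z : A → Pt n, rho e d t r ep 0 0 Z with hI0
  have hI0nn : 0 ≤ I0 := integral_nonneg hrnn
  let far : Set (A → Pt n) := {Z | ∃ i, L < |Real.log ‖Z j i‖|}
  have hfarm : MeasurableSet far := by
    have h1 : far = ⋃ i, {Z : A → Pt n | L < |Real.log ‖Z j i‖|} := by
      ext Z
      simp [far]
    rw [h1]
    refine MeasurableSet.iUnion fun i => measurableSet_lt measurable_const ?_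
    have h2 : Measurable (fun Z : A → Pt n => Z j i) :=
      (measurable_pi_apply i).comp (measurable_pi_apply j)
    have h3 : Measurable (fun Z : A → Pt n => Real.log ‖Z j i‖) := h2.norm.log
    exact h3.abs
  have hjm : Measurable (fun Z : A → Pt n => Z j) := measurable_pi_apply j
  -- the near part, rotated
  let F : (Fin n → ℝ) → (A → Pt n) → ℝ := fun th =>
    farᶜ.indicator fun Z => wt d sel p g (rt th (Z j)) * rho e d t r ep 0 0 Z
  have hjoint : Measurable (fun x : (Fin n → ℝ) × (A → Pt n) => F x.1 x.2) := by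
    have h1 : (fun x : (Fin n → ℝ) × (A → Pt n) => F x.1 x.2) =
        (Prod.snd ⁻¹' farᶜ).indicator fun x : (Fin n → ℝ) × (A → Pt n) =>
          wt d sel p g (rt x.1 (x.2 j)) * rho e d t r ep 0 0 x.2 := by
      funext x
      by_cases hZ : x.2 ∈ farᶜ
      · rw [Set.indicator_of_mem (show x ∈ Prod.snd ⁻¹' farᶜ from hZ)]
        exact Set.indicator_of_mem hZ _
      · rw [Set.indicator_of_notMem (show x ∉ Prod.snd ⁻¹' farᶜ from hZ)]
        exact Set.indicator_of_notMem hZ _
    rw [h1]
    refine Measurable.indicator ?_ (measurable_snd hfarm.compl)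
    have h2 : Continuous (fun x : (Fin n → ℝ) × (A → Pt n) => rt x.1 (x.2 j)) := by
      unfold rt
      fun_prop
    exact (hwm.comp h2.measurable).mul (hrm.comp measurable_snd)
  have hFm : ∀ th, Measurable (F th) := fun th =>
    hjoint.comp (measurable_const.prodMk measurable_id)
  have hFnn : ∀ th Z, 0 ≤ F th Z := by
    intro th Z
    exact Set.indicator_nonneg (fun Z _ => mul_nonneg (hw _).1 (hrnn Z)) Z
  have hFle : ∀ th Z, F th Z ≤ rho e d t r ep 0 0 Z := by
    intro th Z
    refine Set.indicator_le' (fun Z _ => ?_) (fun Z _ => hrnn Z) Z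
    exact mul_le_of_le_one_left (hrnn Z) (hw _).2
  have hnorm : ∀ (th : Fin n → ℝ) (z : Pt n) (i : Fin n), ‖rt th z i‖ = ‖z i‖ := by
    intro th z i
    simp only [rt]
    rw [norm_mul, Complex.norm_exp_ofReal_mul_I, one_mul]
  have hrt0 : ∀ z : Pt n, rt (0 : Fin n → ℝ) z = z := by
    intro z
    funext i
    simp [rt]
  have hinv : ∀ th, ∫ Z, F th Z = ∫ Z, F 0 Z := by
    intro th
    have h1 : ∀ Z : A → Pt n, F th Z = F 0 (fun a => rt th (Z a)) := by
      intro Z
      have h2 : (fun a => rt th (Z a)) ∈ farᶜ ↔ Z ∈ farᶜ := by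
        simp only [far, Set.mem_compl_iff, Set.mem_ofPred_eq, hnorm]
      by_cases hZ : Z ∈ farᶜ
      · simp only [F]
        rw [Set.indicator_of_mem hZ, Set.indicator_of_mem (h2.2 hZ), hrt0, rho_rt]
      · simp only [F]
        rw [Set.indicator_of_notMem hZ, Set.indicator_of_notMem (fun h => hZ (h2.1 h))]
    have hR := TMean_rotA (A := A) th
    have h3 : ∫ Z : A → Pt n, F 0 Z = ∫ Z : A → Pt n, F 0 (fun a => rt th (Z a)) := by
      conv_lhs => rw [← hR.map_eq]
      exact integral_map hR.measurable.aemeasurable (hFm 0).aestronglyMeasurable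
    rw [h3]
    exact integral_congr_ae (Filter.Eventually.of_forall h1)
  -- Fubini
  set box : Set (Fin n → ℝ) := Set.pi Set.univ fun _ : Fin n => Set.Icc (0 : ℝ) (2 * π) with hbox
  have hboxfin : IsFiniteMeasure (volume.restrict box) := by
    refine ⟨?_⟩
    rw [Measure.restrict_apply_univ, hbox, volume_pi_pi]
    exact ENNReal.prod_lt_top fun i _ => by
      rw [Real.volume_Icc]
      exact ENNReal.ofReal_lt_top
  have hint : Integrable (fun x : (Fin n → ℝ) × (A → Pt n) => F x.1 x.2)
      ((volume.restrict box).prod volume) := by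
    refine (hrint.comp_snd (volume.restrict box)).mono' hjoint.aestronglyMeasurable ?_
    refine Filter.Eventually.of_forall fun x => ?_
    rw [Real.norm_eq_abs, abs_of_nonneg (hFnn _ _)]
    exact hFle _ _
  have hswap := integral_integral_swap (f := F) hint
  have hleft : ∫ th in box, ∫ Z, F th Z = (2 * π) ^ n * ∫ Z, F 0 Z := by
    simp only [hinv]
    rw [setIntegral_const, smul_eq_mul]
    congr 1
    exact TMean_box n
  have hright : ∫ Z, ∫ th in box, F th Z ≤ (2 * π) ^ n * (eta / 2) * I0 := by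
    rw [hI0, ← integral_const_mul]
    refine integral_mono_ae hint.integral_prod_right (hrint.const_mul _) ?_
    filter_upwards [TMean_ae (n := n) j] with Z hZ
    by_cases hfar : Z ∈ farᶜ
    · have h1 : ∀ th, F th Z = wt d sel p g (rt th (Z j)) * rho e d t r ep 0 0 Z := fun th => by
        simp only [F]
        rw [Set.indicator_of_mem hfar]
      simp only [h1]
      rw [integral_mul_const]
      refine mul_le_mul_of_nonneg_right (hp g hg (Z j) fun i => ⟨hZ i, ?_⟩) (hrnn Z)
      by_contra hlt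
      exact hfar ⟨i, not_le.1 hlt⟩
    · have h1 : ∀ th, F th Z = 0 := fun th => by
        simp only [F]
        rw [Set.indicator_of_notMem hfar]
      simp only [h1, integral_zero]
      exact mul_nonneg (by positivity) (hrnn Z)
  have hnear : ∫ Z, F 0 Z ≤ eta / 2 * I0 := by
    have h1 : (2 * π) ^ n * ∫ Z, F 0 Z ≤ (2 * π) ^ n * (eta / 2 * I0) := by
      rw [← hleft, hswap]
      refine hright.trans (le_of_eq ?_)
      ring
    exact le_of_mul_le_mul_left h1 hpi
  -- the far part
  have hfar : ∫ Z in far, rho e d t r ep 0 0 Z ≤ eta / 2 * I0 := by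
    refine (htail A e t ep h0e ht hep hco hbet j L hL0).trans ?_
    exact mul_le_mul_of_nonneg_right hL hI0nn
  have hdec : ∀ Z : A → Pt n, wt d sel p g (Z j) * rho e d t r ep 0 0 Z ≤
      F 0 Z + far.indicator (fun Z => rho e d t r ep 0 0 Z) Z := by
    intro Z
    by_cases hZ : Z ∈ far
    · rw [Set.indicator_of_mem hZ]
      have h1 : F 0 Z = 0 := by
        simp only [F]
        exact Set.indicator_of_notMem (fun h : Z ∈ farᶜ => h hZ) _
      rw [h1, zero_add]
      exact mul_le_of_le_one_left (hrnn Z) (hw _).2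
    · rw [Set.indicator_of_notMem hZ, add_zero]
      have h1 : F 0 Z = wt d sel p g (Z j) * rho e d t r ep 0 0 Z := by
        simp only [F]
        rw [Set.indicator_of_mem (by exact hZ), hrt0]
      rw [h1]
  have hF0int : Integrable (F 0) := by
    refine hrint.mono' (hFm 0).aestronglyMeasurable (Filter.Eventually.of_forall fun Z => ?_)
    rw [Real.norm_eq_abs, abs_of_nonneg (hFnn _ _)]
    exact hFle _ _
  have hindint : Integrable (far.indicator fun Z => rho e d t r ep 0 0 Z) :=
    hrint.indicator hfarm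
  have hmain : ∫ Z : A → Pt n, wt d sel p g (Z j) * rho e d t r ep 0 0 Z ≤
      ∫ Z, (F 0 Z + far.indicator (fun Z => rho e d t r ep 0 0 Z) Z) := by
    refine integral_mono_of_nonneg (Filter.Eventually.of_forall fun Z =>
      mul_nonneg (hw _).1 (hrnn Z)) (hF0int.add hindint) (Filter.Eventually.of_forall hdec)
  rw [integral_add hF0int hindint, integral_indicator hfarm] at hmain
  linarith

end GTor
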