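/- piece TM: torus modes of entire functions -/
import Pool.Agent.Lib_MP_e0d435_ag_T.TDefs

open Finset MeasureTheory Complex
open scoped ENNReal ContDiff Real Pointwise

namespace GTor
open GPn

variable {n : ℕ} {A : Type} [Fintype A] [DecidableEq A]

/-- the mode be of h at Z: integral over the torus of h (e^(i th) Z) e^(- i be.th) -/
noncomputable def md (h : (A → Pt n) → ℂ) (be : A → Fin n → ℤ) (Z : A → Pt n) : ℂ :=
  ∫ th in (Set.pi Set.univ fun _ : A => Set.pi Set.univ fun _ : Fin n => Set.Icc (0 : ℝ) (2 * π)),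
    h (fun j => rt (th j) (Z j)) *
      Complex.exp (-(I * ∑ j, ∑ i, (be j i : ℂ) * (th j i : ℂ)))

/-! ## The torus integral -/

/-- the box -/
private def TModeK (n : ℕ) (A : Type) : Set (A → Fin n → ℝ) :=
  Set.pi Set.univ fun _ : A => Set.pi Set.univ fun _ : Fin n => Set.Icc (0 : ℝ) (2 * π)

private theorem TMode_compact : IsCompact (TModeK n A) :=
  isCompact_univ_pi fun _ => isCompact_univ_pi fun _ => isCompact_Icc

/-- the unit box in uncurried form -/
private def TModeB (n : ℕ) (A : Type) (a : A × Fin n → ℝ) : Set (A × Fin n → ℝ) :=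
  {x : A × Fin n → ℝ | ∀ i, x i ∈ Set.Ioc (a i) (a i + 1)}

private theorem TMode_curry :
    MeasurePreserving (MeasurableEquiv.curry A (Fin n) ℝ) volume volume := by
  suffices h : MeasurePreserving (MeasurableEquiv.curry A (Fin n) ℝ).symm volume volume from
    h.symm
  refine ⟨(MeasurableEquiv.curry A (Fin n) ℝ).symm.measurable, ?_⟩
  symm
  refine Measure.pi_eq fun s hs => ?_
  rw [MeasurableEquiv.map_apply]
  have h1 : (MeasurableEquiv.curry A (Fin n) ℝ).symm ⁻¹' (Set.pi Set.univ s) =
      Set.pi Set.univ fun j : A => Set.pi Set.univ fun i : Fin n => s (j, i) := by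
    ext x
    simp only [Set.mem_preimage, Set.mem_univ_pi, Prod.forall]
    rfl
  rw [h1, volume_pi_pi]
  simp only [volume_pi_pi]
  rw [Fintype.prod_prod_type]

private theorem TMode_bridge (F : (A → Fin n → ℝ) → ℂ) :
    ∫ th in TModeK n A, F th =
      ((2 * π) ^ (Module.finrank ℝ (A → Fin n → ℝ)) : ℝ) •
        ∫ x in TModeB n A 0, F (fun j i => 2 * π * x (j, i)) := by
  have hpi : (0 : ℝ) < 2 * π := by positivity
  have h1 := Measure.setIntegral_comp_smul (volume : Measure (A → Fin n → ℝ)) F
    (Set.pi Set.univ fun _ : A => Set.pi Set.univ fun _ : Fin n => Set.Icc (0 : ℝ) 1) hpi.ne'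
  have h2 : (2 * π) • (Set.pi Set.univ fun _ : A => Set.pi Set.univ
      fun _ : Fin n => Set.Icc (0 : ℝ) 1) = TModeK n A := by
    ext x
    rw [Set.mem_smul_set_iff_inv_smul_mem₀ hpi.ne']
    simp only [TModeK, Set.mem_univ_pi, Pi.smul_apply, smul_eq_mul, Set.mem_Icc]
    refine forall_congr' fun j => forall_congr' fun i => ?_
    rw [inv_mul_le_iff₀ hpi, mul_one]
    constructor
    · rintro ⟨h3, h4⟩
      refine ⟨?_, h4⟩
      by_contra hc
      push Not at hc
      have : (2 * π)⁻¹ * x j i < 0 := mul_neg_of_pos_of_neg (inv_pos.2 hpi) hc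
      linarith
    · rintro ⟨h3, h4⟩
      exact ⟨by positivity, h4⟩
  rw [h2] at h1
  have h3 : ∫ x in TModeB n A 0, F (fun j i => 2 * π * x (j, i)) =
      ∫ x in (Set.pi Set.univ fun _ : A => Set.pi Set.univ fun _ : Fin n => Set.Icc (0 : ℝ) 1),
        F ((2 * π) • x) := by
    rw [← TMode_curry.setIntegral_preimage_emb (MeasurableEquiv.measurableEmbedding _)]
    have h4 : ((MeasurableEquiv.curry A (Fin n) ℝ) ⁻¹' (Set.pi Set.univ fun _ : A =>
        Set.pi Set.univ fun _ : Fin n => Set.Icc (0 : ℝ) 1)) =
        Set.Icc (0 : A × Fin n → ℝ) 1 := by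
      ext x
      simp only [Set.mem_preimage, Set.mem_univ_pi, Set.mem_Icc, Pi.le_def, Prod.forall,
        Pi.zero_apply, Pi.one_apply]
      exact ⟨fun h => ⟨fun j i => (h j i).1, fun j i => (h j i).2⟩, fun h j i => ⟨h.1 j i, h.2 j i⟩⟩
    rw [h4]
    have h5 : TModeB n A 0 =ᵐ[volume] Set.Icc (0 : A × Fin n → ℝ) 1 := by
      have h6 := Measure.univ_pi_Ioc_ae_eq_Icc (μ := fun _ : A × Fin n => (volume : Measure ℝ))
        (f := fun _ => 0) (g := fun _ => 1)
      have h7 : TModeB n A 0 = (Set.pi Set.univ fun _ : A × Fin n => Set.Ioc (0 : ℝ) 1) := by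
        ext x
        simp [TModeB]
      rw [h7]
      exact h6
    rw [setIntegral_congr_set h5]
    rfl
  rw [h3, h1, abs_of_pos (by positivity), smul_smul, mul_inv_cancel₀ (by positivity), one_smul]

/-- integrals of periodic functions over the unit box are translation invariant -/
private theorem TMode_shift (f : (A × Fin n → ℝ) → ℂ)
    (hf : ∀ (x : A × Fin n → ℝ) (k : A × Fin n → ℤ), f (fun i => x i + k i) = f x)
    (a : A × Fin n → ℝ) :
    ∫ x in TModeB n A 0, f (x + a) = ∫ x in TModeB n A 0, f x := by
  have h1 : ∫ x in TModeB n A 0, f (x + a) = ∫ x in TModeB n A a, f x := by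
    have h2 := (measurePreserving_add_right (volume : Measure (A × Fin n → ℝ)) a)
    have h2' := h2.setIntegral_preimage_emb (MeasurableEquiv.addRight a).measurableEmbedding
      f (TModeB n A a)
    have h2'' : (fun x => x + a) ⁻¹' TModeB n A a = TModeB n A 0 := by
      ext x
      simp only [TModeB, Set.mem_preimage, Set.mem_setOf_eq, Set.mem_Ioc, Pi.add_apply,
        Pi.zero_apply]
      refine forall_congr' fun i => ?_
      constructor <;> rintro ⟨h3, h4⟩ <;> constructor <;> linarith
    rw [h2''] at h2'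
    exact h2'
  rw [h1]
  obtain ⟨g, hg⟩ : ∃ g : UnitAddTorus (A × Fin n) → ℂ, ∀ x : A × Fin n → ℝ,
      g (fun i => (x i : UnitAddCircle)) = f x := by
    refine ⟨fun t => f fun i => (AddCircle.equivIoc 1 0 (t i)).1, fun x => ?_⟩
    have h5 : ∀ i, ∃ k : ℤ, (AddCircle.equivIoc 1 0 (x i : UnitAddCircle)).1 = x i + k := by
      intro i
      have h6 : ((AddCircle.equivIoc 1 0 (x i : UnitAddCircle)).1 : ℝ) =
          toIocMod (zero_lt_one' ℝ) 0 (x i) := rfl
      rw [h6]
      refine ⟨- toIocDiv (zero_lt_one' ℝ) 0 (x i), ?_⟩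
      rw [toIocMod]
      simp
      ring
    choose k hk using h5
    rw [← hf x k]
    exact congrArg f (funext hk)
  have h7 := UnitAddTorus.integral_preimage g a
  have h8 := UnitAddTorus.integral_preimage g 0
  rw [h7] at h8
  simp only [hg] at h8
  exact h8

theorem continuous_md (H : (A → Pt n) → ℂ) (hH : Continuous H) (be : A → Fin n → ℤ) :
    Continuous (md H be) := by
  refine continuous_parametric_integral_of_continuous
    (f := fun (Z : A → Pt n) (th : A → Fin n → ℝ) => H (fun j => rt (th j) (Z j)) *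
      Complex.exp (-(I * ∑ j, ∑ i, (be j i : ℂ) * (th j i : ℂ)))) ?_ TMode_compact
  refine Continuous.mul ?_ (by fun_prop)
  refine hH.comp ?_
  unfold rt
  fun_prop

private theorem TMode_rt_add (a b : Fin n → ℝ) (z : Pt n) :
    rt a (rt b z) = rt (fun i => b i + a i) z := by
  funext i
  simp only [rt, ofReal_add, add_mul, Complex.exp_add]
  ring

/-- the integrand -/
private noncomputable def TModeG (H : (A → Pt n) → ℂ) (be : A → Fin n → ℤ) (Z : A → Pt n)
    (th : A → Fin n → ℝ) : ℂ :=
  H (fun j => rt (th j) (Z j)) * Complex.exp (-(I * ∑ j, ∑ i, (be j i : ℂ) * (th j i : ℂ)))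

private theorem TMode_md (H : (A → Pt n) → ℂ) (be : A → Fin n → ℤ) (Z : A → Pt n) :
    md H be Z = ∫ th in TModeK n A, TModeG H be Z th := rfl

private theorem TMode_per (H : (A → Pt n) → ℂ) (be : A → Fin n → ℤ) (Z : A → Pt n)
    (th : A → Fin n → ℝ) (k : A → Fin n → ℤ) :
    TModeG H be Z (fun j i => th j i + 2 * π * k j i) = TModeG H be Z th := by
  have h1 : ∀ m : ℤ, Complex.exp (2 * π * m * I) = 1 := by
    intro m
    rw [← Complex.exp_int_mul_two_pi_mul_I m]
    congr 1
    ring
  unfold TModeG
  congr 1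
  · congr 1
    funext j i
    simp only [rt]
    rw [show ((th j i + 2 * π * k j i : ℝ) : ℂ) * I = th j i * I + 2 * π * (k j i : ℂ) * I by
      push_cast; ring, Complex.exp_add, h1, mul_one]
  · rw [show (-(I * ∑ j, ∑ i, (be j i : ℂ) * ((th j i + 2 * π * k j i : ℝ) : ℂ))) =
      -(I * ∑ j, ∑ i, (be j i : ℂ) * (th j i : ℂ)) +
        2 * π * ((-(∑ j, ∑ i, be j i * k j i) : ℤ) : ℂ) * I by
      push_cast
      simp only [mul_add, Finset.sum_add_distrib, Finset.mul_sum]
      rw [neg_add, mul_neg, neg_mul]
      congr 1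
      rw [Finset.mul_sum, Finset.sum_mul]
      congr 1
      refine Finset.sum_congr rfl fun j _ => ?_
      rw [Finset.mul_sum, Finset.sum_mul]
      refine Finset.sum_congr rfl fun i _ => ?_
      ring]
    rw [Complex.exp_add, h1, mul_one]

/-- behaviour under rotations -/
theorem md_rt (H : (A → Pt n) → ℂ) (hH : Continuous H) (be : A → Fin n → ℤ)
    (th : A → Fin n → ℝ) (Z : A → Pt n) :
    md (fun Y => H (fun j => rt (th j) (Y j))) be Z =
      Complex.exp (I * ∑ j, ∑ i, (be j i : ℂ) * (th j i : ℂ)) * md H be Z := by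
  rw [TMode_md, TMode_md]
  have h1 : ∀ ph : A → Fin n → ℝ, TModeG (fun Y => H (fun j => rt (th j) (Y j))) be Z ph =
      Complex.exp (I * ∑ j, ∑ i, (be j i : ℂ) * (th j i : ℂ)) *
        TModeG H be Z (fun j i => ph j i + th j i) := by
    intro ph
    unfold TModeG
    simp only [TMode_rt_add]
    rw [mul_left_comm, ← Complex.exp_add]
    congr 2
    push_cast
    simp only [mul_add, Finset.sum_add_distrib]
    ring
  simp only [h1]
  rw [integral_const_mul]
  congr 1
  rw [TMode_bridge, TMode_bridge]
  congr 1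
  have hpi : (2 * π : ℝ) ≠ 0 := by positivity
  have h2 := TMode_shift (fun x => TModeG H be Z (fun j i => 2 * π * x (j, i)))
    (fun x k => by
      have := TMode_per H be Z (fun j i => 2 * π * x (j, i)) (fun j i => k (j, i))
      simp only [mul_add]
      exact this) (fun p => th p.1 p.2 / (2 * π))
  rw [← h2]
  congr 1
  funext x
  congr 1
  funext j i
  simp only [Pi.add_apply]
  field_simp

/-- functions which are multiplied by characters under imaginary translations -/
private theorem TMode_char (f : ℂ → ℂ) (hf : Differentiable ℂ f) (c : ℝ)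
    (h : ∀ (w : ℂ) (s : ℝ), f (w + s * I) = Complex.exp (s * c * I) * f w) (w : ℂ) :
    f w = Complex.exp (c * w) * f 0 := by
  have h1 : Differentiable ℂ fun z => f z * Complex.exp (-(c * z)) := by fun_prop
  have h2 : ∀ (z : ℂ) (s : ℝ), f (z + s * I) * Complex.exp (-(c * (z + s * I))) =
      f z * Complex.exp (-(c * z)) := by
    intro z s
    rw [h z s, show (-(c * (z + s * I)) : ℂ) = -(c * z) + -(s * c * I) by ring, Complex.exp_add,
      Complex.exp_neg (s * c * I)]
    field_simp
  have h3 : ∀ z : ℂ, deriv (fun z => f z * Complex.exp (-(c * z))) z = 0 := by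
    intro z
    have h4 := (h1 z).hasDerivAt
    have h5 : HasDerivAt (fun s : ℝ => z + s * I) I 0 := by
      have := ((Complex.ofRealCLM.hasDerivAt (x := (0 : ℝ))).mul_const I).const_add z
      simpa using this
    have h6 : HasDerivAt (fun s : ℝ => f (z + s * I) * Complex.exp (-(c * (z + s * I))))
        (deriv (fun z => f z * Complex.exp (-(c * z))) z * I) 0 := by
      have h7 : HasDerivAt (fun z => f z * Complex.exp (-(c * z)))
          (deriv (fun z => f z * Complex.exp (-(c * z))) z) (z + ((0 : ℝ) : ℂ) * I) := by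
        simpa using h4
      exact h7.comp (0 : ℝ) h5
    have h8 : (fun s : ℝ => f (z + s * I) * Complex.exp (-(c * (z + s * I)))) =
        fun _ : ℝ => f z * Complex.exp (-(c * z)) := funext (h2 z)
    rw [h8] at h6
    have h9 := h6.unique (hasDerivAt_const (0 : ℝ) _)
    exact (mul_eq_zero.1 h9).resolve_right Complex.I_ne_zero
  have h10 := is_const_of_deriv_eq_zero h1 h3 w 0
  simp only [mul_zero, neg_zero, Complex.exp_zero, mul_one] at h10
  rw [← h10, mul_comm (f w), ← mul_assoc, ← Complex.exp_add]
  simp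

/-- holomorphic dependence on a parameter -/
private theorem TMode_diff (g : ℂ → (A → Fin n → ℝ) → ℂ) (hg : Continuous (Function.uncurry g))
    (hd : ∀ th, Differentiable ℂ fun z => g z th) :
    Differentiable ℂ fun z => ∫ th in TModeK n A, g z th := by
  intro z0
  obtain ⟨M, hM⟩ := ((isCompact_closedBall z0 2).prod
    (TMode_compact (n := n) (A := A))).bddAbove_image hg.norm.continuousOn
  have hM' : ∀ z ∈ Metric.closedBall z0 2, ∀ th ∈ TModeK n A, ‖g z th‖ ≤ M := fun z hz th hth =>
    hM ⟨(z, th), ⟨hz, hth⟩, rfl⟩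
  have hmK : MeasurableSet (TModeK n A) := TMode_compact.measurableSet
  haveI : IsFiniteMeasure ((volume : Measure (A → Fin n → ℝ)).restrict (TModeK n A)) :=
    ⟨by rw [Measure.restrict_apply_univ]; exact TMode_compact.measure_lt_top⟩
  refine (hasDerivAt_integral_of_dominated_loc_of_deriv_le
    (μ := (volume : Measure (A → Fin n → ℝ)).restrict (TModeK n A))
    (F := g) (F' := fun z th => deriv (fun w => g w th) z) (bound := fun _ => M / 1)
    (s := Metric.ball z0 1) (Metric.ball_mem_nhds z0 one_pos) ?_ ?_ ?_ ?_ ?_ ?_).2.differentiableAt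
  · refine Filter.Eventually.of_forall fun z => ?_
    have : Continuous (g z) := hg.comp (by fun_prop : Continuous fun th : A → Fin n → ℝ => (z, th))
    exact this.aestronglyMeasurable
  · have : Continuous (g z0) :=
      hg.comp (by fun_prop : Continuous fun th : A → Fin n → ℝ => (z0, th))
    exact this.continuousOn.integrableOn_compact TMode_compact
  · have h1 : Measurable (fun p : (A → Fin n → ℝ) × ℂ => deriv (fun w => g w p.1) p.2) :=
      measurable_deriv_with_param (f := fun (th : A → Fin n → ℝ) (w : ℂ) => g w th)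
        (hg.comp (by fun_prop : Continuous fun p : (A → Fin n → ℝ) × ℂ => (p.2, p.1)))
    have h2 : Measurable (fun th : A → Fin n → ℝ => deriv (fun w => g w th) z0) :=
      h1.comp (measurable_id.prodMk measurable_const)
    exact h2.aestronglyMeasurable
  · refine (ae_restrict_mem hmK).mono fun th hth z hz => ?_
    refine Complex.norm_deriv_le_of_forall_mem_sphere_norm_le one_pos
      (hd th).diffContOnCl fun w hw => hM' w ?_ th hth
    rw [Metric.mem_closedBall]
    rw [mem_sphere_iff_norm, ← dist_eq_norm] at hw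
    rw [Metric.mem_ball] at hz
    linarith [dist_triangle w z z0]
  · exact integrable_const _
  · exact Filter.Eventually.of_forall fun th z _ => (hd th z).hasDerivAt

/-- behaviour under real translations -/
theorem md_sc (H : (A → Pt n) → ℂ) (hH : Differentiable ℂ H) (be : A → Fin n → ℤ)
    (lam : A → Fin n → ℝ) (Z : A → Pt n) :
    md H be (fun j => sc (lam j) (Z j)) =
      Complex.exp (∑ j, ∑ i, (be j i : ℂ) * (lam j i : ℂ)) * md H be Z := by
  obtain ⟨c, hc⟩ : ∃ c : ℝ, c = ∑ j, ∑ i, (be j i : ℝ) * lam j i := ⟨_, rfl⟩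
  obtain ⟨Y, hY⟩ : ∃ Y : ℂ → A → Pt n, Y = fun w j i => Complex.exp (w * lam j i) * Z j i :=
    ⟨_, rfl⟩
  have hd : Differentiable ℂ fun w => md H be (Y w) := by
    refine TMode_diff (fun w th => TModeG H be (Y w) th) ?_ ?_
    · unfold TModeG Function.uncurry
      refine Continuous.mul ?_ (by fun_prop)
      refine hH.continuous.comp ?_
      rw [hY]
      unfold rt
      fun_prop
    · intro th
      unfold TModeG
      refine Differentiable.mul ?_ (by fun_prop)
      refine hH.comp ?_
      rw [hY]
      unfold rt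
      refine differentiable_pi.2 fun j => differentiable_pi.2 fun i => ?_
      fun_prop
  have h1 := TMode_char (fun w => md H be (Y w)) hd c (fun w s => by
    have h2 : Y (w + s * I) = fun j => rt (fun i => s * lam j i) (Y w j) := by
      rw [hY]
      funext j i
      simp only [rt]
      rw [← mul_assoc, ← Complex.exp_add]
      congr 2
      push_cast
      ring
    have h3 := md_rt H hH.continuous be (fun j i => s * lam j i) (Y w)
    have h4 : md H be (Y (w + s * I)) =
        md (fun Y => H (fun j => rt (fun i => s * lam j i) (Y j))) be (Y w) := by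
      rw [h2]
      unfold md
      congr 1
      funext th
      congr 2
      funext j
      rw [TMode_rt_add, TMode_rt_add]
      congr 1
      funext i
      ring
    rw [h4, h3]
    congr 2
    rw [hc]
    push_cast
    rw [Finset.mul_sum, Finset.mul_sum, Finset.sum_mul]
    refine Finset.sum_congr rfl fun j _ => ?_
    rw [Finset.mul_sum, Finset.mul_sum, Finset.sum_mul]
    refine Finset.sum_congr rfl fun i _ => ?_
    ring) 1
  have h5 : Y 1 = fun j => sc (lam j) (Z j) := by
    rw [hY]
    funext j i
    simp [sc]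
  have h6 : Y 0 = Z := by
    rw [hY]
    funext j i
    simp
  simp only [h5, h6] at h1
  rw [h1]
  congr 2
  rw [hc]
  push_cast
  ring

/-- an entire function all whose nonzero modes vanish is constant -/
theorem const_of_md (H : (A → Pt n) → ℂ) (hH : Differentiable ℂ H)
    (h : ∀ be : A → Fin n → ℤ, be ≠ 0 → ∀ Z, md H be Z = 0) : ∃ c : ℂ, ∀ Z, H Z = c := by
  refine ⟨H 0, fun Z₀ => ?_⟩
  -- rotation invariance
  have hrot : ∀ (Z : A → Pt n) (th : A → Fin n → ℝ), H (fun j => rt (th j) (Z j)) = H Z := by
    intro Z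
    obtain ⟨g, hg⟩ : ∃ g : C(UnitAddTorus (A × Fin n), ℂ), ∀ t, g t =
        H (fun j i => fourier 1 (t (j, i)) * Z j i) := by
      refine ⟨⟨fun t => H (fun j i => fourier 1 (t (j, i)) * Z j i), ?_⟩, fun t => rfl⟩
      refine hH.continuous.comp ?_
      fun_prop
    have hcoe : ∀ x : A × Fin n → ℝ, g (fun p => (x p : UnitAddCircle)) =
        H (fun j => rt (fun i => 2 * π * x (j, i)) (Z j)) := by
      intro x
      rw [hg]
      congr 1
      funext j i
      simp only [rt, fourier_coe_apply]
      congr 2
      push_cast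
      ring
    have hzero : ∀ m : A × Fin n → ℤ, m ≠ 0 → UnitAddTorus.mFourierCoeff g m = 0 := by
      intro m hm
      have h1 := h (fun j i => m (j, i)) (fun hc => hm (by
        funext p
        exact congrFun (congrFun hc p.1) p.2)) Z
      rw [TMode_md, TMode_bridge] at h1
      have hpi : ((2 * π) ^ (Module.finrank ℝ (A → Fin n → ℝ)) : ℝ) ≠ 0 := by positivity
      have h2 := (smul_eq_zero.1 h1).resolve_left hpi
      rw [UnitAddTorus.mFourierCoeff_eq_integral g m 0]
      rw [← h2]
      refine setIntegral_congr_fun ?_ fun x _ => ?_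
      · exact (MeasurableSet.univ_pi' fun i => measurableSet_Ioc)
      · simp only [TModeG]
        rw [hcoe, smul_eq_mul, mul_comm]
        congr 1
        simp only [UnitAddTorus.mFourier, ContinuousMap.coe_mk, fourier_coe_apply,
          ← Complex.exp_sum]
        congr 1
        rw [Fintype.sum_prod_type, Finset.mul_sum, ← Finset.sum_neg_distrib]
        refine Finset.sum_congr rfl fun j _ => ?_
        rw [Finset.mul_sum, ← Finset.sum_neg_distrib]
        refine Finset.sum_congr rfl fun i _ => ?_
        simp only [Pi.neg_apply]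
        push_cast
        ring
    have hsum : Summable (UnitAddTorus.mFourierCoeff g) :=
      summable_of_ne_finset_zero (s := {0}) fun m hm => hzero m (by simpa using hm)
    have hconst : ∀ t, g t = UnitAddTorus.mFourierCoeff g 0 := by
      intro t
      have h1 := UnitAddTorus.hasSum_mFourier_series_apply_of_summable hsum t
      have h2 := hasSum_single (f := fun i => UnitAddTorus.mFourierCoeff g i •
        UnitAddTorus.mFourier i t) 0 (fun m hm => by
          rw [hzero m hm, zero_smul])
      have h3 := h1.unique h2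
      rw [h3, UnitAddTorus.mFourier_zero]
      simp
    intro th
    have h1 := hcoe (fun p => th p.1 p.2 / (2 * π))
    have h2 := hcoe 0
    rw [hconst] at h1 h2
    have h3 : (fun j => rt (fun i => 2 * π * (0 : A × Fin n → ℝ) (j, i)) (Z j)) = Z := by
      funext j i
      simp [rt]
    rw [h3] at h2
    rw [← h2, h1]
    congr 1
    funext j
    congr 1
    funext i
    have hpi : (2 * π : ℝ) ≠ 0 := by positivity
    field_simp
  have h1 : Differentiable ℂ fun w : ℂ => H (fun j i => Complex.exp w * Z₀ j i) := by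
    refine hH.comp ?_
    refine differentiable_pi.2 fun j => differentiable_pi.2 fun i => ?_
    fun_prop
  have h2 := TMode_char (fun w => H (fun j i => Complex.exp w * Z₀ j i)) h1 0 (fun w s => by
    have h3 := hrot (fun j i => Complex.exp w * Z₀ j i) (fun _ _ => s)
    simp only [ofReal_zero, mul_zero, zero_mul, Complex.exp_zero, one_mul]
    rw [← h3]
    congr 1
    funext j i
    simp only [rt]
    rw [← mul_assoc, ← Complex.exp_add]
    congr 2
    ring)
  simp only [ofReal_zero, zero_mul, Complex.exp_zero, one_mul] at h2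
  have h4 : Filter.Tendsto (fun s : ℝ => H (fun j i => Complex.exp (-(s : ℂ)) * Z₀ j i))
      Filter.atTop (nhds (H 0)) := by
    refine (hH.continuous.tendsto 0).comp ?_
    refine tendsto_pi_nhds.2 fun j => tendsto_pi_nhds.2 fun i => ?_
    have h5 : Filter.Tendsto (fun s : ℝ => Complex.exp (-(s : ℂ))) Filter.atTop (nhds 0) := by
      have h6 : Filter.Tendsto (fun s : ℝ => ((Real.exp (-s) : ℝ) : ℂ)) Filter.atTop
          (nhds ((0 : ℝ) : ℂ)) :=
        (Complex.continuous_ofReal.tendsto 0).comp Real.tendsto_exp_neg_atTop_nhds_zero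
      simpa using h6
    simpa using h5.mul_const (Z₀ j i)
  have h7 : (fun s : ℝ => H (fun j i => Complex.exp (-(s : ℂ)) * Z₀ j i)) = fun _ => H Z₀ := by
    funext s
    exact h2 _
  rw [h7] at h4
  exact tendsto_nhds_unique tendsto_const_nhds h4

end GTor
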