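/- piece TL: Liouville theorem -/
import Pool.Agent.Lib_MP_e0d435_ag_T.TMode
import Pool.Agent.Lib_MP_e0d435_ag_T.TWeyl

open Finset MeasureTheory Complex
open scoped ENNReal ContDiff Real

namespace GTor
open GPn

variable {n : ℕ} {A B : Type} [Fintype A] [DecidableEq A] [Fintype B]

/-! ### rotations -/

private theorem tLiou_rot1 (t : ℝ) :
    MeasurePreserving (fun z : ℂ => Complex.exp (t * I) * z) volume volume := by
  have h := (rotation (Circle.exp t)).measurePreserving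
  have h2 : ((rotation (Circle.exp t)) : ℂ → ℂ) = fun z : ℂ => Complex.exp (t * I) * z := by
    funext z
    rw [rotation_apply, Circle.coe_exp]
  rw [h2] at h
  exact h

private theorem tLiou_rt (th : Fin n → ℝ) :
    MeasurePreserving (fun z : Pt n => rt th z) volume volume := by
  exact volume_preserving_pi fun i => tLiou_rot1 (th i)

omit [DecidableEq A] in
private theorem tLiou_rot (th : A → Fin n → ℝ) :
    MeasurePreserving (fun Z : A → Pt n => fun j => rt (th j) (Z j)) volume volume := by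
  exact volume_preserving_pi fun j => tLiou_rt (th j)

private theorem tLiou_rt_zero (z : Pt n) : rt (0 : Fin n → ℝ) z = z := by
  funext i
  simp [rt]

omit [Fintype A] in
private theorem tLiou_update (th : Fin n → ℝ) (j : A) (Z : A → Pt n) :
    (fun j' => rt ((Pi.single j th : A → Fin n → ℝ) j') (Z j')) =
      Function.update Z j (rt th (Z j)) := by
  funext j'
  by_cases h : j' = j
  · subst h; simp
  · rw [Pi.single_eq_of_ne h, tLiou_rt_zero, Function.update_of_ne h]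

private theorem tLiou_sum_single (be : A → Fin n → ℤ) (j : A) (v : Fin n → ℝ) :
    ∑ j', ∑ i, (be j' i : ℂ) * (((Pi.single j v : A → Fin n → ℝ) j' i : ℝ) : ℂ) =
      ((∑ i, (be j i : ℝ) * v i : ℝ) : ℂ) := by
  rw [Finset.sum_eq_single j]
  · push_cast
    simp
  · intro j' _ hj'
    rw [Pi.single_eq_of_ne hj']
    simp
  · intro h
    exact absurd (Finset.mem_univ _) h

/-! ### dilations -/

private noncomputable def tLiouL (lam : A → Fin n → ℝ) : (A → Pt n) →ₗ[ℝ] (A → Pt n) :=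
  LinearMap.pi fun j => (LinearMap.pi fun i =>
    ((Real.exp (lam j i)) • (LinearMap.id : ℂ →ₗ[ℝ] ℂ)).comp (LinearMap.proj i)).comp
      (LinearMap.proj j)

omit [Fintype A] [DecidableEq A] in
private theorem tLiouL_apply (lam : A → Fin n → ℝ) (Z : A → Pt n) :
    tLiouL lam Z = fun j => sc (lam j) (Z j) := by
  funext j i
  simp [tLiouL, sc]

omit [DecidableEq A] in
private theorem tLiouL_det (lam : A → Fin n → ℝ) :
    LinearMap.det (tLiouL (n := n) lam) = Real.exp (2 * ∑ j, ∑ i, lam j i) := by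
  unfold tLiouL
  rw [LinearMap.det_pi]
  simp_rw [LinearMap.det_pi, LinearMap.det_smul, LinearMap.det_id, mul_one]
  rw [Complex.finrank_real_complex]
  simp_rw [← Real.exp_nat_mul, ← Real.exp_sum, ← Finset.mul_sum]
  norm_num

omit [DecidableEq A] in
private theorem tLiou_haar : (volume : Measure (A → Pt n)).IsAddHaarMeasure :=
  MeasureTheory.Measure.pi.isAddHaarMeasure (fun _ : A => (volume : Measure (Pt n)))

omit [DecidableEq A] in
private theorem tLiou_scale (lam : A → Fin n → ℝ) (G : (A → Pt n) → ℝ≥0∞) (hG : Measurable G) :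
    ∫⁻ Z : A → Pt n, G (fun j => sc (lam j) (Z j)) =
      ENNReal.ofReal (Real.exp (-(2 * ∑ j, ∑ i, lam j i))) * ∫⁻ Z, G Z := by
  have hd := tLiouL_det (n := n) lam
  have h0 : LinearMap.det (tLiouL (n := n) lam) ≠ 0 := by
    rw [hd]; exact (Real.exp_pos _).ne'
  have hH : (volume : Measure (A → Pt n)).IsAddHaarMeasure := tLiou_haar
  have h1 := Measure.map_linearMap_addHaar_eq_smul_addHaar (volume : Measure (A → Pt n)) h0
  rw [hd, abs_of_pos (by positivity), ← Real.exp_neg] at h1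
  have hm : Measurable (tLiouL (n := n) lam) :=
    (LinearMap.continuous_of_finiteDimensional _).measurable
  have h2 : (fun Z : A → Pt n => G (fun j => sc (lam j) (Z j))) =
      fun Z => G (tLiouL lam Z) := by
    funext Z
    rw [tLiouL_apply]
  rw [h2, ← lintegral_map hG hm, h1, lintegral_smul_measure, smul_eq_mul]

/-! ### the weight -/

private theorem tLiou_mon_sc (e : Fin n → ℕ) (lam : Fin n → ℝ) (z : Pt n) :
    ‖mon e (sc lam z)‖ ^ 2 = Real.exp (2 * ∑ i, (e i : ℝ) * lam i) * ‖mon e z‖ ^ 2 := by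
  have h1 : ‖mon e (sc lam z)‖ = Real.exp (∑ i, (e i : ℝ) * lam i) * ‖mon e z‖ := by
    simp only [mon, sc, norm_prod, norm_pow, norm_mul, mul_pow, Finset.prod_mul_distrib]
    congr 1
    rw [Real.exp_sum]
    refine Finset.prod_congr rfl fun i _ => ?_
    rw [Complex.norm_real, Real.norm_of_nonneg (Real.exp_pos _).le, ← Real.exp_nat_mul]
  rw [h1, mul_pow, ← Real.exp_nat_mul]
  norm_num

private theorem tLiou_mon_rt (e : Fin n → ℕ) (th : Fin n → ℝ) (z : Pt n) :
    ‖mon e (rt th z)‖ = ‖mon e z‖ := by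
  simp only [mon, rt, norm_prod, norm_pow, norm_mul, Complex.norm_exp_ofReal_mul_I, one_mul]

private theorem tLiou_Sd_rt (d : B → Fin n → ℕ) (th : Fin n → ℝ) (z : Pt n) :
    Sd d (rt th z) = Sd d z := by
  simp only [Sd, tLiou_mon_rt]

private theorem tLiou_Sd_pos (d : B → Fin n → ℕ) (h0 : ∃ b, d b = 0) (z : Pt n) :
    0 < Sd d z := by
  obtain ⟨b, hb⟩ := h0
  have h1 : ‖mon (d b) z‖ ^ 2 ≤ Sd d z :=
    Finset.single_le_sum (f := fun b => ‖mon (d b) z‖ ^ 2) (fun _ _ => by positivity)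
      (Finset.mem_univ b)
  have h2 : ‖mon (d b) z‖ ^ 2 = 1 := by
    simp [mon, hb]
  linarith

private theorem tLiou_Sd_cont (d : B → Fin n → ℕ) : Continuous (fun z : Pt n => Sd d z) := by
  unfold Sd mon
  fun_prop

private theorem tLiou_Sd_sc (d : B → Fin n → ℕ) (r0 : ℝ) (hr0 : 0 < r0) (u : Fin n → ℝ)
    (low : ∀ b, ∑ i, u i - 1 ≤ r0 * ∑ i, (d b i : ℝ) * u i)
    (strict : ∃ b, ∑ i, u i - 1 < r0 * ∑ i, (d b i : ℝ) * u i) (z : Pt n) (hz : ∀ i, z i ≠ 0) :
    Sd d (sc (-u) z) < Real.exp (-(2 * ((∑ i, u i - 1) / r0))) * Sd d z := by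
  unfold Sd
  rw [Finset.mul_sum]
  have key : ∀ b, ‖mon (d b) (sc (-u) z)‖ ^ 2 =
      Real.exp (-(2 * ∑ i, (d b i : ℝ) * u i)) * ‖mon (d b) z‖ ^ 2 := by
    intro b
    rw [tLiou_mon_sc]
    congr 2
    simp [Finset.mul_sum]
  have hpos : ∀ b, 0 < ‖mon (d b) z‖ ^ 2 := by
    intro b
    have : mon (d b) z ≠ 0 := Finset.prod_ne_zero_iff.2 fun i _ => pow_ne_zero _ (hz i)
    positivity
  refine Finset.sum_lt_sum (fun b _ => ?_) ?_
  · rw [key]
    refine mul_le_mul_of_nonneg_right (Real.exp_le_exp.2 ?_) (hpos b).le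
    have := (div_le_iff₀' hr0).2 (low b)
    linarith
  · obtain ⟨b, hb⟩ := strict
    refine ⟨b, Finset.mem_univ _, ?_⟩
    rw [key]
    refine mul_lt_mul_of_pos_right (Real.exp_lt_exp.2 ?_) (hpos b)
    have := (div_lt_iff₀' hr0).2 hb
    linarith

private noncomputable def tLiouW (d : B → Fin n → ℕ) (r0 : ℝ) (Z : A → Pt n) : ℝ :=
  ∏ j, Sd d (Z j) ^ (-r0)

omit [DecidableEq A] in
private theorem tLiouW_pos (d : B → Fin n → ℕ) (h0 : ∃ b, d b = 0) (r0 : ℝ) (Z : A → Pt n) :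
    0 < tLiouW d r0 Z :=
  Finset.prod_pos fun _ _ => Real.rpow_pos_of_pos (tLiou_Sd_pos d h0 _) _

omit [DecidableEq A] in
private theorem tLiouW_cont (d : B → Fin n → ℕ) (h0 : ∃ b, d b = 0) (r0 : ℝ) :
    Continuous (fun Z : A → Pt n => tLiouW d r0 Z) := by
  unfold tLiouW
  refine continuous_finsetProd _ fun j _ => ?_
  exact ((tLiou_Sd_cont d).comp (continuous_apply j)).rpow_const
    fun Z => Or.inl (tLiou_Sd_pos d h0 _).ne'

omit [DecidableEq A] in
private theorem tLiouW_rt (d : B → Fin n → ℕ) (r0 : ℝ) (th : A → Fin n → ℝ) (Z : A → Pt n) :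
    tLiouW d r0 (fun j => rt (th j) (Z j)) = tLiouW d r0 Z := by
  simp only [tLiouW, tLiou_Sd_rt]

private theorem tLiouW_sc (d : B → Fin n → ℕ) (h0 : ∃ b, d b = 0) (r0 : ℝ) (hr0 : 0 < r0)
    (u : Fin n → ℝ) (low : ∀ b, ∑ i, u i - 1 ≤ r0 * ∑ i, (d b i : ℝ) * u i)
    (strict : ∃ b, ∑ i, u i - 1 < r0 * ∑ i, (d b i : ℝ) * u i) (j : A) (Z : A → Pt n)
    (hz : ∀ i, Z j i ≠ 0) :
    Real.exp (2 * (∑ i, u i - 1)) * tLiouW d r0 Z <
      tLiouW d r0 (fun j' => sc ((Pi.single j (-u) : A → Fin n → ℝ) j') (Z j')) := by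
  have h1 := tLiou_Sd_sc d r0 hr0 u low strict (Z j) hz
  have hp1 := tLiou_Sd_pos d h0 (sc (-u) (Z j))
  have hp2 := tLiou_Sd_pos d h0 (Z j)
  unfold tLiouW
  rw [← Finset.mul_prod_erase _ _ (Finset.mem_univ j), ← Finset.mul_prod_erase _ _ (Finset.mem_univ j)]
  have h2 : ∏ x ∈ Finset.univ.erase j,
      Sd d (sc ((Pi.single j (-u) : A → Fin n → ℝ) x) (Z x)) ^ (-r0) =
      ∏ x ∈ Finset.univ.erase j, Sd d (Z x) ^ (-r0) := by
    refine Finset.prod_congr rfl fun x hx => ?_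
    rw [Pi.single_eq_of_ne (Finset.ne_of_mem_erase hx)]
    congr 2
    funext i
    simp [sc]
  rw [h2, ← mul_assoc]
  refine mul_lt_mul_of_pos_right ?_
    (Finset.prod_pos fun x _ => Real.rpow_pos_of_pos (tLiou_Sd_pos d h0 _) _)
  simp only [Pi.single_eq_same]
  have h3 : Real.exp (2 * (∑ i, u i - 1)) * Sd d (Z j) ^ (-r0) =
      (Real.exp (-(2 * ((∑ i, u i - 1) / r0))) * Sd d (Z j)) ^ (-r0) := by
    rw [Real.mul_rpow (Real.exp_pos _).le hp2.le, ← Real.exp_mul]
    congr 2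
    field_simp
  rw [h3, Real.rpow_neg (by positivity), Real.rpow_neg hp1.le]
  exact inv_strictAnti₀ (Real.rpow_pos_of_pos hp1 _) (Real.rpow_lt_rpow hp1.le h1 hr0)

/-! ### integrability of the modes -/

private theorem tLiou_cs {X : Type*} [MeasurableSpace X] (mu : Measure X) (f : X → ℝ≥0∞)
    (hf : Measurable f) : (∫⁻ x, f x ∂mu) ^ 2 ≤ mu Set.univ * ∫⁻ x, f x ^ 2 ∂mu := by
  have h := ENNReal.lintegral_mul_le_Lp_mul_Lq mu Real.HolderConjugate.two_two hf.aemeasurable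
    (g := fun _ => 1) aemeasurable_const
  simp only [Pi.mul_apply, mul_one, ENNReal.one_rpow, lintegral_const, one_mul] at h
  have h2 := pow_le_pow_left₀ (zero_le) h 2
  have e : ∀ x : ℝ≥0∞, (x ^ (1 / 2 : ℝ)) ^ 2 = x := by
    intro x
    rw [← ENNReal.rpow_natCast, ← ENNReal.rpow_mul]
    norm_num
  rw [mul_pow, e, e, mul_comm] at h2
  simp only [ENNReal.rpow_two] at h2
  exact h2

omit [Fintype A] [DecidableEq A] in
private theorem tLiou_cont_rt : Continuous
    (fun p : (A → Pt n) × (A → Fin n → ℝ) => fun j => rt (p.2 j) (p.1 j)) := by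
  unfold rt
  fun_prop

omit [DecidableEq A] in
private theorem tLiou_L2 (d : B → Fin n → ℕ) (h0 : ∃ b, d b = 0) (r0 : ℝ)
    (H : (A → Pt n) → ℂ) (hH : Continuous H)
    (hL2 : ∫⁻ Z, ENNReal.ofReal (‖H Z‖ ^ 2 * tLiouW d r0 Z) < ⊤) (be : A → Fin n → ℤ) :
    ∫⁻ Z, ENNReal.ofReal (‖md H be Z‖ ^ 2 * tLiouW d r0 Z) < ⊤ := by
  set box : Set (A → Fin n → ℝ) :=
    (Set.pi Set.univ fun _ : A => Set.pi Set.univ fun _ : Fin n => Set.Icc (0 : ℝ) (2 * π)) with hbox
  have hconv : ∀ (c : ℂ) (Z : A → Pt n), ENNReal.ofReal (‖c‖ ^ 2 * tLiouW d r0 Z) =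
      ‖c‖ₑ ^ 2 * ENNReal.ofReal (tLiouW d r0 Z) := by
    intro c Z
    rw [ENNReal.ofReal_mul (by positivity), ENNReal.ofReal_pow (norm_nonneg _), ofReal_norm]
  have hW : Measurable (fun Z : A → Pt n => ENNReal.ofReal (tLiouW d r0 Z)) :=
    (tLiouW_cont d h0 r0).measurable.ennreal_ofReal
  have hpt : ∀ Z, ENNReal.ofReal (‖md H be Z‖ ^ 2 * tLiouW d r0 Z) ≤
      volume box * ∫⁻ th in box, ‖H (fun j => rt (th j) (Z j))‖ₑ ^ 2 *
        ENNReal.ofReal (tLiouW d r0 Z) := by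
    intro Z
    rw [hconv]
    have hm : Measurable (fun th : A → Fin n → ℝ => ‖H (fun j => rt (th j) (Z j))‖ₑ) := by
      have h1 : Continuous (fun th : A → Fin n → ℝ => ((Z, th) : (A → Pt n) × (A → Fin n → ℝ))) :=
        Continuous.prodMk_right Z
      exact (hH.comp (tLiou_cont_rt.comp h1)).enorm.measurable
    have h1 : ‖md H be Z‖ₑ ≤ ∫⁻ th in box, ‖H (fun j => rt (th j) (Z j))‖ₑ := by
      unfold md
      refine (enorm_integral_le_lintegral_enorm _).trans (le_of_eq ?_)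
      refine lintegral_congr fun th => ?_
      rw [enorm_mul]
      have h2 : ‖Complex.exp (-(I * ∑ j, ∑ i, (be j i : ℂ) * (th j i : ℂ)))‖ₑ = 1 := by
        have h3 : (-(I * ∑ j, ∑ i, (be j i : ℂ) * (th j i : ℂ))) =
            ((-(∑ j, ∑ i, (be j i : ℝ) * th j i) : ℝ) : ℂ) * I := by
          push_cast
          ring
        rw [h3, ← ofReal_norm, Complex.norm_exp_ofReal_mul_I, ENNReal.ofReal_one]
      rw [h2, mul_one]
    have h2 : ‖md H be Z‖ₑ ^ 2 ≤
        volume box * ∫⁻ th in box, ‖H (fun j => rt (th j) (Z j))‖ₑ ^ 2 := by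
      refine (pow_le_pow_left₀ (zero_le) h1 2).trans ?_
      have h3 := tLiou_cs (volume.restrict box) _ hm
      rwa [Measure.restrict_apply_univ] at h3
    rw [lintegral_mul_const _ (hm.pow_const 2), ← mul_assoc]
    exact mul_le_mul_left h2 _
  refine lt_of_le_of_lt (lintegral_mono hpt) ?_
  have hjm : Measurable (Function.uncurry fun (Z : A → Pt n) (th : A → Fin n → ℝ) =>
      ‖H (fun j => rt (th j) (Z j))‖ₑ ^ 2 * ENNReal.ofReal (tLiouW d r0 Z)) := by
    refine Measurable.mul ?_ (hW.comp measurable_fst)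
    exact (hH.comp tLiou_cont_rt).enorm.measurable.pow_const 2
  have hinner : Measurable fun Z : A → Pt n => ∫⁻ th in box,
      ‖H (fun j => rt (th j) (Z j))‖ₑ ^ 2 * ENNReal.ofReal (tLiouW d r0 Z) :=
    Measurable.lintegral_prod_right hjm
  rw [lintegral_const_mul _ hinner]
  rw [lintegral_lintegral_swap hjm.aemeasurable]
  have hphi : Measurable (fun Z : A → Pt n => ‖H Z‖ₑ ^ 2 * ENNReal.ofReal (tLiouW d r0 Z)) :=
    (hH.enorm.measurable.pow_const 2).mul hW
  have hth : ∀ th : A → Fin n → ℝ, ∫⁻ Z : A → Pt n, ‖H (fun j => rt (th j) (Z j))‖ₑ ^ 2 *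
      ENNReal.ofReal (tLiouW d r0 Z) = ∫⁻ Z, ENNReal.ofReal (‖H Z‖ ^ 2 * tLiouW d r0 Z) := by
    intro th
    have h1 := (tLiou_rot (n := n) th).lintegral_comp hphi
    simp_rw [hconv]
    rw [← h1]
    refine lintegral_congr fun Z => ?_
    rw [tLiouW_rt]
  simp_rw [hth]
  have hvol : volume box ≠ ⊤ := by
    have hc : IsCompact box := isCompact_univ_pi fun _ => isCompact_univ_pi fun _ => isCompact_Icc
    exact hc.measure_lt_top.ne
  rw [lintegral_const, Measure.restrict_apply_univ]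
  exact (ENNReal.mul_lt_top (lt_top_iff_ne_top.2 hvol)
    (ENNReal.mul_lt_top hL2 (lt_top_iff_ne_top.2 hvol)))

omit [DecidableEq A] in
private theorem tLiou_ae_ne (j : A) : ∀ᵐ Z : A → Pt n, ∀ i, Z j i ≠ 0 := by
  have h1 : ∀ᵐ z : Pt n, ∀ i, z i ≠ 0 := by
    rw [ae_all_iff]
    intro i
    have h2 : ∀ᵐ w : ℂ, w ≠ 0 := by
      rw [ae_iff]
      simp
    exact (Measure.quasiMeasurePreserving_eval (fun _ : Fin n => (volume : Measure ℂ)) i).ae h2
  exact (Measure.quasiMeasurePreserving_eval (fun _ : A => (volume : Measure (Pt n))) j).ae h1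

/-- vanishing of the nonzero modes by integrability -/
theorem md_zero (d : B → Fin n → ℕ) (h0 : ∃ b, d b = 0) (r0 : ℝ) (hr0 : 0 < r0)
    (U : Finset (Fin n → ℝ))
    (low : ∀ u ∈ U, ∀ b, ∑ i, u i - 1 ≤ r0 * ∑ i, (d b i : ℝ) * u i)
    (strict : ∀ u ∈ U, ∃ b, ∑ i, u i - 1 < r0 * ∑ i, (d b i : ℝ) * u i)
    (H : (A → Pt n) → ℂ) (hH : Differentiable ℂ H)
    (hL2 : ∫⁻ Z, ENNReal.ofReal (‖H Z‖ ^ 2 * ∏ j, Sd d (Z j) ^ (-r0)) < ⊤)
    (hinv : ∀ u ∈ U, ∀ j : A, ∀ Z,
      H (Function.update Z j (rt (fun i => 2 * π * u i) (Z j))) = H Z)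
    (neg : ∀ be : Fin n → ℤ, be ≠ 0 → (∀ u ∈ U, ∃ m : ℤ, ∑ i, (be i : ℝ) * u i = m) →
      ∃ u ∈ U, ∑ i, (be i : ℝ) * u i ≤ -1)
    (be : A → Fin n → ℤ) (hbe : be ≠ 0) (Z : A → Pt n) : md H be Z = 0 := by
  have hj : ∃ j, be j ≠ 0 := by
    by_contra hc
    push Not at hc
    exact hbe (funext hc)
  obtain ⟨j, hj⟩ := hj
  by_cases hint : ∀ u ∈ U, ∃ m : ℤ, ∑ i, (be j i : ℝ) * u i = m
  · obtain ⟨u, hu, hm⟩ := neg (be j) hj hint
    set m : ℝ := ∑ i, (be j i : ℝ) * u i with hmdef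
    set S : (A → Pt n) → (A → Pt n) :=
      fun Z j' => sc ((Pi.single j (-u) : A → Fin n → ℝ) j') (Z j') with hS
    have hMc : Continuous (md H be) := continuous_md H hH.continuous be
    have hMS : ∀ Z, ‖md H be (S Z)‖ ^ 2 = Real.exp (-(2 * m)) * ‖md H be Z‖ ^ 2 := by
      intro Z
      have h1 := md_sc H hH be (Pi.single j (-u)) Z
      have h2 : ∑ i, (be j i : ℝ) * (-u) i = -m := by
        simp [hmdef]
      rw [tLiou_sum_single be j (-u), h2] at h1
      have h3 : md H be (S Z) = Complex.exp ((-m : ℝ) : ℂ) * md H be Z := h1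
      rw [h3, norm_mul, ← Complex.ofReal_exp, Complex.norm_real,
        Real.norm_of_nonneg (Real.exp_pos _).le, mul_pow, ← Real.exp_nat_mul]
      congr 2
      push_cast
      ring
    have hL2' : ∫⁻ Z, ENNReal.ofReal (‖md H be Z‖ ^ 2 * tLiouW d r0 Z) < ⊤ :=
      tLiou_L2 d h0 r0 H hH.continuous hL2 be
    set c : ℝ := Real.exp (2 * (∑ i, u i - 1)) with hc
    have hc0 : 0 < c := Real.exp_pos _
    have hWS : ∀ Z : A → Pt n, (∀ i, Z j i ≠ 0) → c * tLiouW d r0 Z < tLiouW d r0 (S Z) :=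
      fun Z hz => tLiouW_sc d h0 r0 hr0 u (low u hu) (strict u hu) j Z hz
    set phi : (A → Pt n) → ℝ≥0∞ := fun Z => ENNReal.ofReal (‖md H be Z‖ ^ 2 * tLiouW d r0 Z)
      with hphi
    have hphim : Measurable phi :=
      ((hMc.norm.pow 2).mul (tLiouW_cont d h0 r0)).measurable.ennreal_ofReal
    have hSc : Continuous S := by
      rw [hS]
      unfold sc
      fun_prop
    set F1 : (A → Pt n) → ℝ≥0∞ := fun Z => ENNReal.ofReal (‖md H be Z‖ ^ 2 * tLiouW d r0 (S Z))
      with hF1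
    set F2 : (A → Pt n) → ℝ≥0∞ := fun Z => ENNReal.ofReal (c * (‖md H be Z‖ ^ 2 * tLiouW d r0 Z))
      with hF2
    have hF1m : Measurable F1 :=
      ((hMc.norm.pow 2).mul ((tLiouW_cont d h0 r0).comp hSc)).measurable.ennreal_ofReal
    have hI1 : ∫⁻ Z, F1 Z = ENNReal.ofReal (Real.exp (2 * m + 2 * ∑ i, u i)) * ∫⁻ Z, phi Z := by
      have h1 : ∀ Z, F1 Z = ENNReal.ofReal (Real.exp (2 * m)) * phi (S Z) := by
        intro Z
        simp only [hF1, hphi]
        rw [hMS, ← ENNReal.ofReal_mul (Real.exp_pos _).le]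
        congr 1
        have : Real.exp (2 * m) * Real.exp (-(2 * m)) = 1 := by
          rw [← Real.exp_add]; simp
        calc ‖md H be Z‖ ^ 2 * tLiouW d r0 (S Z)
            = (Real.exp (2 * m) * Real.exp (-(2 * m))) * (‖md H be Z‖ ^ 2 * tLiouW d r0 (S Z)) := by
              rw [this, one_mul]
          _ = _ := by ring
      have hphiS : Measurable (fun Z => phi (S Z)) := hphim.comp hSc.measurable
      simp_rw [h1]
      rw [lintegral_const_mul _ hphiS]
      have h2 := tLiou_scale (n := n) (Pi.single j (-u) : A → Fin n → ℝ) phi hphim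
      have h3 : ∑ j', ∑ i, (Pi.single j (-u) : A → Fin n → ℝ) j' i = -∑ i, u i := by
        rw [Finset.sum_eq_single j]
        · simp
        · intro j' _ hj'
          rw [Pi.single_eq_of_ne hj']
          simp
        · intro h
          exact absurd (Finset.mem_univ _) h
      rw [h3] at h2
      rw [h2, ← mul_assoc, ← ENNReal.ofReal_mul (Real.exp_pos _).le, ← Real.exp_add]
      congr 3
      ring
    have hI2 : ∫⁻ Z, F2 Z = ENNReal.ofReal c * ∫⁻ Z, phi Z := by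
      have h1 : ∀ Z, F2 Z = ENNReal.ofReal c * phi Z := by
        intro Z
        simp only [hF2, hphi]
        rw [ENNReal.ofReal_mul hc0.le]
      simp_rw [h1]
      rw [lintegral_const_mul _ hphim]
    have hle : F2 ≤ᵐ[volume] F1 := by
      filter_upwards [tLiou_ae_ne (n := n) j] with Z hz
      simp only [hF1, hF2]
      refine ENNReal.ofReal_le_ofReal ?_
      have h1 := hWS Z hz
      have h2 : 0 ≤ ‖md H be Z‖ ^ 2 := by positivity
      nlinarith
    have hfin : ∫⁻ Z, F2 Z ≠ ⊤ := by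
      rw [hI2]
      exact (ENNReal.mul_lt_top ENNReal.ofReal_lt_top hL2').ne
    have hge : ∫⁻ Z, F1 Z ≤ ∫⁻ Z, F2 Z := by
      rw [hI1, hI2]
      gcongr
      rw [hc]
      exact Real.exp_le_exp.2 (by linarith)
    have heq := ae_eq_of_ae_le_of_lintegral_le hle hfin hF1m.aemeasurable hge
    have hz0 : md H be =ᵐ[volume] fun _ => 0 := by
      filter_upwards [heq, tLiou_ae_ne (n := n) j] with Z h1 hz
      by_contra hne
      have hpos : 0 < ‖md H be Z‖ ^ 2 := by
        have := norm_pos_iff.2 hne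
        positivity
      have h2 := hWS Z hz
      have h3 : c * (‖md H be Z‖ ^ 2 * tLiouW d r0 Z) < ‖md H be Z‖ ^ 2 * tLiouW d r0 (S Z) := by
        nlinarith
      have h4 : 0 < ‖md H be Z‖ ^ 2 * tLiouW d r0 (S Z) := by
        have := tLiouW_pos d h0 r0 (S Z)
        positivity
      have h5 : F2 Z < F1 Z := by
        simp only [hF1, hF2]
        exact (ENNReal.ofReal_lt_ofReal_iff h4).2 h3
      exact h5.ne h1
    have hH' : (volume : Measure (A → Pt n)).IsAddHaarMeasure := tLiou_haar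
    have hall := (Continuous.ae_eq_iff_eq volume hMc continuous_const).1 hz0
    exact congrFun hall Z
  · push Not at hint
    obtain ⟨u, hu, hm⟩ := hint
    have h1 := md_rt H hH.continuous be (Pi.single j fun i => 2 * π * u i) Z
    have h2 : (fun Y : A → Pt n => H (fun j' =>
        rt ((Pi.single j (fun i => 2 * π * u i) : A → Fin n → ℝ) j') (Y j'))) = H := by
      funext Y
      rw [tLiou_update, hinv u hu j Y]
    rw [h2, tLiou_sum_single] at h1
    by_contra hne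
    have h3 : Complex.exp (I * ((∑ i, (be j i : ℝ) * (2 * π * u i) : ℝ) : ℂ)) = 1 := by
      have h4 : (Complex.exp (I * ((∑ i, (be j i : ℝ) * (2 * π * u i) : ℝ) : ℂ)) - 1) *
          md H be Z = 0 := by
        rw [sub_mul, one_mul, ← h1, sub_self]
      rcases mul_eq_zero.1 h4 with h5 | h5
      · exact sub_eq_zero.1 h5
      · exact absurd h5 hne
    rw [Complex.exp_eq_one_iff] at h3
    obtain ⟨q, hq⟩ := h3
    apply hm q
    have h5 : (((∑ i, (be j i : ℝ) * (2 * π * u i) : ℝ)) : ℂ) = (q : ℂ) * (2 * π) := by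
      have h6 : I * ((∑ i, (be j i : ℝ) * (2 * π * u i) : ℝ) : ℂ) = I * ((q : ℂ) * (2 * π)) := by
        rw [hq]; ring
      exact mul_left_cancel₀ I_ne_zero h6
    have h7 : (∑ i, (be j i : ℝ) * (2 * π * u i)) = (q : ℝ) * (2 * π) := by
      exact_mod_cast h5
    have h8 : (∑ i, (be j i : ℝ) * (2 * π * u i)) = (∑ i, (be j i : ℝ) * u i) * (2 * π) := by
      rw [Finset.sum_mul]
      refine Finset.sum_congr rfl fun i _ => ?_
      ring
    rw [h8] at h7
    exact mul_right_cancel₀ (by positivity) h7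

theorem liouville (d : B → Fin n → ℕ) (h0 : ∃ b, d b = 0) (r0 : ℝ) (hr0 : 0 < r0)
    (U : Finset (Fin n → ℝ))
    (low : ∀ u ∈ U, ∀ b, ∑ i, u i - 1 ≤ r0 * ∑ i, (d b i : ℝ) * u i)
    (strict : ∀ u ∈ U, ∃ b, ∑ i, u i - 1 < r0 * ∑ i, (d b i : ℝ) * u i)
    (neg : ∀ be : Fin n → ℤ, be ≠ 0 → (∀ u ∈ U, ∃ m : ℤ, ∑ i, (be i : ℝ) * u i = m) →
      ∃ u ∈ U, ∑ i, (be i : ℝ) * u i ≤ -1)
    (h : (A → Pt n) → ℂ) (hloc : LocallyIntegrable h)
    (hol : ∀ ph : (A → Pt n) → ℂ, ContDiff ℝ ∞ ph → HasCompactSupport ph → ∀ v,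
      ∫ x, h x * (fderiv ℝ ph x v + I * fderiv ℝ ph x (I • v)) = 0)
    (hL2 : ∫⁻ Z, ENNReal.ofReal (‖h Z‖ ^ 2 * ∏ j, Sd d (Z j) ^ (-r0)) < ⊤)
    (hinv : ∀ u ∈ U, ∀ j : A, ∀ᵐ Z,
      h (Function.update Z j (rt (fun i => 2 * π * u i) (Z j))) = h Z) :
    ∃ c : ℂ, ∀ᵐ Z, h Z = c := by
  have hHaar : (volume : Measure (A → Pt n)).IsAddHaarMeasure := tLiou_haar
  obtain ⟨H, hH, hae⟩ := weak_hol_entire (volume : Measure (A → Pt n)) h hloc hol
  have hL2' : ∫⁻ Z, ENNReal.ofReal (‖H Z‖ ^ 2 * ∏ j, Sd d (Z j) ^ (-r0)) < ⊤ := by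
    refine lt_of_le_of_lt (le_of_eq ?_) hL2
    refine lintegral_congr_ae ?_
    filter_upwards [hae] with Z hZ
    rw [hZ]
  have hinv' : ∀ u ∈ U, ∀ j : A, ∀ Z,
      H (Function.update Z j (rt (fun i => 2 * π * u i) (Z j))) = H Z := by
    intro u hu j
    have hmp := tLiou_rot (n := n) (Pi.single j (fun i => 2 * π * u i) : A → Fin n → ℝ)
    have h1 := hmp.quasiMeasurePreserving.ae hae
    have hcont : Continuous (fun Z : A → Pt n =>
        H (fun j' => rt ((Pi.single j (fun i => 2 * π * u i) : A → Fin n → ℝ) j') (Z j'))) := by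
      have h2 : Continuous (fun Z : A → Pt n =>
          ((Z, Pi.single j (fun i => 2 * π * u i)) : (A → Pt n) × (A → Fin n → ℝ))) :=
        Continuous.prodMk_left _
      exact hH.continuous.comp (tLiou_cont_rt.comp h2)
    have h3 : (fun Z : A → Pt n =>
        H (fun j' => rt ((Pi.single j (fun i => 2 * π * u i) : A → Fin n → ℝ) j') (Z j')))
        =ᵐ[volume] H := by
      filter_upwards [h1, hae, hinv u hu j] with Z k1 k2 k3
      rw [← k1, ← k2, ← k3, tLiou_update]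
    have h4 := (Continuous.ae_eq_iff_eq volume hcont hH.continuous).1 h3
    intro Z
    rw [← tLiou_update]
    exact congrFun h4 Z
  obtain ⟨c, hc⟩ := const_of_md H hH fun be hbe Z =>
    md_zero d h0 r0 hr0 U low strict H hH hL2' hinv' neg be hbe Z
  refine ⟨c, ?_⟩
  filter_upwards [hae] with Z hZ
  rw [hZ, hc]

end GTor
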