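/- piece TWT: smoothness, invariance and gradient of the test functions -/
import Pool.Agent.Lib_MP_e0d435_ag_T.TDefs
import Pool.Agent.Lib_MP_e0d435_ag.WGrad

open Finset MeasureTheory Complex
open scoped ENNReal ContDiff Real

namespace GTor
open GPn

private theorem TWt_pd_contDiff {m k : ℕ} (F : V m k) :
    ContDiff ℂ ∞ (fun x : Pt m => pd F 0 x) := by
  unfold pd dm
  fun_prop

private theorem TWt_pd_contDiffR {m k : ℕ} (F : V m k) :
    ContDiff ℝ ∞ (fun x : Pt m => pd F 0 x) :=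
  (TWt_pd_contDiff F).restrict_scalars ℝ

private theorem TWt_nsq_contDiff {m : ℕ} :
    ContDiff ℝ ∞ (fun x : Pt m => nsq x) := by
  unfold nsq
  refine ContDiff.sum fun i _ => ?_
  exact (contDiff_apply ℝ ℂ i).norm_sq ℝ

private theorem TWt_pd_sq_le {m D : ℕ} (g : V m D) (hg : ‖g‖ = 1) (x : Pt m) :
    ‖pd g 0 x‖ ^ 2 ≤ nsq x ^ D := by
  have h1 := norm_pd_le g x
  rw [hg, one_mul] at h1
  have h2 : ‖pd g 0 x‖ ^ 2 ≤ (enm x ^ D) ^ 2 := pow_le_pow_left₀ (norm_nonneg _) h1 2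
  rw [← pow_mul, mul_comm, pow_mul, enm_sq] at h2
  exact h2

/-- representing vector of the derivative in direction b at x -/
private noncomputable def TWt_dev {m : ℕ} (k : ℕ) (b x : Pt m) : V m k :=
  ∑ i, (starRingEnd ℂ) (b i) • evd k (Pi.single i 1) x

private theorem TWt_inner_dev {m k : ℕ} (b x : Pt m) (F : V m k) :
    inner ℂ (TWt_dev k b x) F = ∑ i, b i * pd F (Pi.single i 1) x := by
  rw [TWt_dev, sum_inner]
  refine Finset.sum_congr rfl fun i _ => ?_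
  rw [inner_smul_left, inner_evd, Complex.conj_conj]

private theorem TWt_hasFDerivAt {m k : ℕ} (F : V m k) (x : Pt m) :
    HasFDerivAt (fun y : Pt m => pd F 0 y) (fderiv ℂ (fun y : Pt m => pd F 0 y) x) x :=
  ((TWt_pd_contDiff F).differentiable (by simp) x).hasFDerivAt

private theorem TWt_fderiv_apply {m k : ℕ} (F : V m k) (x b : Pt m) :
    fderiv ℂ (fun y : Pt m => pd F 0 y) x b = inner ℂ (TWt_dev k b x) F := by
  classical
  rw [TWt_inner_dev]
  have h1 : ∀ i, fderiv ℂ (fun y : Pt m => pd F 0 y) x (Pi.single i 1) =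
      pd F (Pi.single i 1) x := by
    intro i
    have h2 := hasDerivAt_pd F 0 x i (x i)
    have h3 : HasDerivAt (Function.update x i) (Pi.single i (1 : ℂ)) (x i) :=
      hasDerivAt_update x i (x i)
    have h4 : HasFDerivAt (fun y : Pt m => pd F 0 y) (fderiv ℂ (fun y : Pt m => pd F 0 y) x)
        (Function.update x i (x i)) := by
      rw [Function.update_eq_self]
      exact TWt_hasFDerivAt F x
    have h5 := h4.comp_hasDerivAt (x i) h3
    have h6 := h5.unique h2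
    rw [h6, Function.update_eq_self, zero_add]
  have h7 : b = ∑ i, b i • (Pi.single i (1 : ℂ) : Pt m) := by
    ext j
    simp [Finset.sum_apply, Pi.single_apply]
  conv_lhs => rw [h7]
  rw [map_sum]
  refine Finset.sum_congr rfl fun i _ => ?_
  rw [map_smul, h1, smul_eq_mul]

/-- uniqueness of directional derivatives -/
private theorem TWt_dir {m k : ℕ} (F : V m k) (x b : Pt m) (d : ℂ)
    (h : HasDerivAt (fun t : ℂ => pd F 0 (x + t • b)) d 0) :
    inner ℂ (TWt_dev k b x) F = d := by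
  have h1 : HasDerivAt (fun t : ℂ => x + t • b) b 0 := by
    have := ((hasDerivAt_id (0 : ℂ)).smul_const b).const_add x
    simpa using this
  have h2 : HasFDerivAt (fun y : Pt m => pd F 0 y) (fderiv ℂ (fun y : Pt m => pd F 0 y) x)
      (x + (0 : ℂ) • b) := by
    rw [zero_smul, add_zero]
    exact TWt_hasFDerivAt F x
  have h3 := h2.comp_hasDerivAt (0 : ℂ) h1
  rw [← TWt_fderiv_apply]
  exact h3.unique h

private theorem TWt_euler {m k : ℕ} (F : V m k) (x : Pt m) :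
    inner ℂ (TWt_dev k x x) F = k * pd F 0 x := by
  refine TWt_dir F x x _ ?_
  have h1 : (fun t : ℂ => pd F 0 (x + t • x)) = fun t : ℂ => (1 + t) ^ k * pd F 0 x := by
    funext t
    have : x + t • x = (1 + t) • x := by rw [add_smul, one_smul]
    rw [this, pd_smul]
  rw [h1]
  have h2 : HasDerivAt (fun t : ℂ => (1 + t) ^ k) (k * (1 + 0) ^ (k - 1) * 1) 0 :=
    ((hasDerivAt_id (0 : ℂ)).const_add 1).fun_pow k
  have h3 := h2.mul_const (pd F 0 x)
  simpa using h3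

private theorem TWt_inner_dev_ev {m k : ℕ} (b x y : Pt m) :
    inner ℂ (TWt_dev k b x) (evd k 0 y) =
      k * (∑ i, x i * (starRingEnd ℂ) (y i)) ^ (k - 1) * ∑ i, b i * (starRingEnd ℂ) (y i) := by
  refine TWt_dir _ x b _ ?_
  have h1 : (fun t : ℂ => pd (evd k 0 y) 0 (x + t • b)) =
      fun t : ℂ => ((∑ i, x i * (starRingEnd ℂ) (y i)) +
        t * ∑ i, b i * (starRingEnd ℂ) (y i)) ^ k := by
    funext t
    rw [← inner_evd, inner_ev_ev]
    congr 1
    rw [Finset.mul_sum, ← Finset.sum_add_distrib]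
    refine Finset.sum_congr rfl fun i _ => ?_
    simp only [Pi.add_apply, Pi.smul_apply, smul_eq_mul]
    ring
  rw [h1]
  have h2 : HasDerivAt (fun t : ℂ => (∑ i, x i * (starRingEnd ℂ) (y i)) +
        t * ∑ i, b i * (starRingEnd ℂ) (y i)) (1 * ∑ i, b i * (starRingEnd ℂ) (y i)) 0 :=
    ((hasDerivAt_id (0 : ℂ)).mul_const _).const_add _
  have h3 := h2.fun_pow k
  simpa using h3

private theorem TWt_inner_dev_dev {m k : ℕ} (b x : Pt m) :
    inner ℂ (TWt_dev k b x) (TWt_dev k b x) =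
      (k : ℂ) * ((k - 1 : ℕ) : ℂ) * (∑ i, x i * (starRingEnd ℂ) (x i)) ^ (k - 1 - 1) *
        (∑ i, b i * (starRingEnd ℂ) (x i)) * (∑ i, x i * (starRingEnd ℂ) (b i)) +
      k * (∑ i, x i * (starRingEnd ℂ) (x i)) ^ (k - 1) * ∑ i, b i * (starRingEnd ℂ) (b i) := by
  refine TWt_dir _ x b _ ?_
  have h1 : (fun t : ℂ => pd (TWt_dev k b x) 0 (x + t • b)) =
      fun t : ℂ => k * ((∑ i, x i * (starRingEnd ℂ) (x i)) +
        t * ∑ i, b i * (starRingEnd ℂ) (x i)) ^ (k - 1) *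
        ((∑ i, x i * (starRingEnd ℂ) (b i)) + t * ∑ i, b i * (starRingEnd ℂ) (b i)) := by
    funext t
    rw [← inner_evd, ← inner_conj_symm, TWt_inner_dev_ev]
    simp only [map_mul, map_pow, map_sum, Complex.conj_conj, map_natCast]
    congr 1
    · congr 1
      congr 1
      rw [Finset.mul_sum, ← Finset.sum_add_distrib]
      refine Finset.sum_congr rfl fun i _ => ?_
      simp only [Pi.add_apply, Pi.smul_apply, smul_eq_mul]
      ring
    · rw [Finset.mul_sum, ← Finset.sum_add_distrib]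
      refine Finset.sum_congr rfl fun i _ => ?_
      simp only [Pi.add_apply, Pi.smul_apply, smul_eq_mul]
      ring
  rw [h1]
  have h2 : HasDerivAt (fun t : ℂ => (∑ i, x i * (starRingEnd ℂ) (x i)) +
        t * ∑ i, b i * (starRingEnd ℂ) (x i)) (1 * ∑ i, b i * (starRingEnd ℂ) (x i)) 0 :=
    ((hasDerivAt_id (0 : ℂ)).mul_const _).const_add _
  have h2' : HasDerivAt (fun t : ℂ => (∑ i, x i * (starRingEnd ℂ) (b i)) +
        t * ∑ i, b i * (starRingEnd ℂ) (b i)) (1 * ∑ i, b i * (starRingEnd ℂ) (b i)) 0 :=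
    ((hasDerivAt_id (0 : ℂ)).mul_const _).const_add _
  have h3 := ((h2.fun_pow (k - 1)).const_mul (k : ℂ)).mul h2'
  refine h3.congr_deriv ?_
  simp only [zero_mul, add_zero, one_mul]
  ring

private theorem TWt_self {m : ℕ} (x : Pt m) :
    ∑ i, x i * (starRingEnd ℂ) (x i) = ((nsq x : ℝ) : ℂ) := by
  simp only [nsq, Complex.ofReal_sum]
  refine Finset.sum_congr rfl fun i _ => ?_
  rw [Complex.mul_conj, Complex.normSq_eq_norm_sq]

/-- Cauchy-Schwarz -/
private theorem TWt_cs {m : ℕ} (x a : Pt m) :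
    ‖∑ r, (starRingEnd ℂ) (x r) * a r‖ ^ 2 ≤ nsq x * nsq a := by
  have h1 : ‖∑ r, (starRingEnd ℂ) (x r) * a r‖ ≤ ∑ r, ‖x r‖ * ‖a r‖ := by
    refine (norm_sum_le _ _).trans (le_of_eq ?_)
    refine Finset.sum_congr rfl fun r _ => ?_
    rw [norm_mul, RCLike.norm_conj]
  have h2 : (∑ r, ‖x r‖ * ‖a r‖) ^ 2 ≤ (∑ r, ‖x r‖ ^ 2) * ∑ r, ‖a r‖ ^ 2 :=
    Finset.sum_mul_sq_le_sq_mul_sq _ _ _
  calc ‖∑ r, (starRingEnd ℂ) (x r) * a r‖ ^ 2 ≤ (∑ r, ‖x r‖ * ‖a r‖) ^ 2 :=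
        pow_le_pow_left₀ (norm_nonneg _) h1 2
    _ ≤ _ := h2

private theorem TWt_norm_dev {m k : ℕ} (b x : Pt m) :
    ‖TWt_dev k b x‖ ^ 2 ≤ (k : ℝ) ^ 2 * nsq x ^ (k - 1) * nsq b := by
  have h1 := TWt_inner_dev_dev (k := k) b x
  rw [inner_self_eq_norm_sq_to_K, TWt_self, TWt_self] at h1
  have h2 : (∑ i, b i * (starRingEnd ℂ) (x i)) = ∑ r, (starRingEnd ℂ) (x r) * b r :=
    Finset.sum_congr rfl fun i _ => mul_comm _ _
  have h3 : (∑ i, x i * (starRingEnd ℂ) (b i)) =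
      (starRingEnd ℂ) (∑ r, (starRingEnd ℂ) (x r) * b r) := by
    rw [map_sum]
    refine Finset.sum_congr rfl fun i _ => ?_
    rw [map_mul, Complex.conj_conj]
  have h4 : (∑ i, b i * (starRingEnd ℂ) (x i)) * (∑ i, x i * (starRingEnd ℂ) (b i)) =
      ((‖∑ r, (starRingEnd ℂ) (x r) * b r‖ ^ 2 : ℝ) : ℂ) := by
    rw [h2, h3, Complex.mul_conj, Complex.normSq_eq_norm_sq]
  rw [mul_assoc (_ * _) (∑ i, b i * (starRingEnd ℂ) (x i)), h4] at h1
  have h5 : ‖TWt_dev k b x‖ ^ 2 = (k : ℝ) * ((k - 1 : ℕ) : ℝ) * nsq x ^ (k - 1 - 1) *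
      ‖∑ r, (starRingEnd ℂ) (x r) * b r‖ ^ 2 + k * nsq x ^ (k - 1) * nsq b := by
    apply Complex.ofReal_injective
    push_cast
    push_cast at h1
    exact h1
  rw [h5]
  have hx := nsq_nonneg x
  have hb := nsq_nonneg b
  have hcs := TWt_cs x b
  rcases Nat.lt_or_ge k 2 with hk | hk
  · interval_cases k
    · simp
    · simp
  · obtain ⟨j, rfl⟩ : ∃ j, k = j + 2 := ⟨k - 2, by omega⟩
    have e1 : j + 2 - 1 = j + 1 := by omega
    have e2 : j + 1 - 1 = j := by omega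
    rw [e1, e2]
    have h6 : ((j + 2 : ℕ) : ℝ) * ((j + 1 : ℕ) : ℝ) * nsq x ^ j *
        ‖∑ r, (starRingEnd ℂ) (x r) * b r‖ ^ 2 ≤
        ((j + 2 : ℕ) : ℝ) * ((j + 1 : ℕ) : ℝ) * nsq x ^ j * (nsq x * nsq b) :=
      mul_le_mul_of_nonneg_left hcs (by positivity)
    have h7 : ((j + 2 : ℕ) : ℝ) * ((j + 1 : ℕ) : ℝ) * nsq x ^ j * (nsq x * nsq b) +
        ((j + 2 : ℕ) : ℝ) * nsq x ^ (j + 1) * nsq b =
        ((j + 2 : ℕ) : ℝ) ^ 2 * nsq x ^ (j + 1) * nsq b := by
      push_cast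
      ring
    linarith

private theorem TWt_dir_le {m k : ℕ} (g : V m k) (hg : ‖g‖ = 1) (b x : Pt m) :
    ‖inner ℂ (TWt_dev k b x) g‖ ^ 2 ≤ (k : ℝ) ^ 2 * nsq x ^ (k - 1) * nsq b := by
  have h1 : ‖inner ℂ (TWt_dev k b x) g‖ ≤ ‖TWt_dev k b x‖ := by
    have := norm_inner_le_norm (𝕜 := ℂ) (TWt_dev k b x) g
    rwa [hg, mul_one] at this
  exact (pow_le_pow_left₀ (norm_nonneg _) h1 2).trans (TWt_norm_dev b x)

private theorem TWt_dev_sub {m k : ℕ} (a x : Pt m) (c : ℂ) (F : V m k) :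
    inner ℂ (TWt_dev k (a - c • x) x) F =
      inner ℂ (TWt_dev k a x) F - c * (k * pd F 0 x) := by
  rw [← TWt_euler, TWt_inner_dev, TWt_inner_dev, TWt_inner_dev, Finset.mul_sum,
    ← Finset.sum_sub_distrib]
  refine Finset.sum_congr rfl fun i _ => ?_
  simp only [Pi.sub_apply, Pi.smul_apply, smul_eq_mul]
  ring

private theorem TWt_dev_I {m k : ℕ} (a x : Pt m) (F : V m k) :
    inner ℂ (TWt_dev k (I • a) x) F = I * inner ℂ (TWt_dev k a x) F := by
  rw [TWt_inner_dev, TWt_inner_dev, Finset.mul_sum]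
  refine Finset.sum_congr rfl fun i _ => ?_
  simp only [Pi.smul_apply, smul_eq_mul]
  ring


variable {n : ℕ} {B : Type} [Fintype B]

private theorem TWt_sc_zero (z : Pt n) : sc (0 : Fin n → ℝ) z = z := by
  funext i
  simp [sc]

private theorem TWt_mon_contDiff (e : Fin n → ℕ) : ContDiff ℂ ∞ (fun z : Pt n => mon e z) := by
  unfold mon
  fun_prop

private theorem TWt_mon_contDiffR (e : Fin n → ℕ) : ContDiff ℝ ∞ (fun z : Pt n => mon e z) :=
  (TWt_mon_contDiff e).restrict_scalars ℝ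

private theorem TWt_Sd_contDiff (d : B → Fin n → ℕ) : ContDiff ℝ ∞ (fun z : Pt n => Sd d z) := by
  unfold Sd
  refine ContDiff.sum fun b _ => ?_
  exact (TWt_mon_contDiffR (d b)).norm_sq ℝ

private theorem TWt_Sd_one_le (d : B → Fin n → ℕ) (h0d : ∃ b, d b = 0) (z : Pt n) :
    1 ≤ Sd d z := by
  obtain ⟨b, hb⟩ := h0d
  unfold Sd
  have h1 : ‖mon (d b) z‖ ^ 2 = 1 := by simp [hb, mon]
  rw [← h1]
  exact Finset.single_le_sum (f := fun b => ‖mon (d b) z‖ ^ 2) (fun b _ => by positivity)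
    (Finset.mem_univ b)

omit [Fintype B] in
private theorem TWt_sec_contDiff (d : B → Fin n → ℕ) (sel : Fin (n + 1) → B) :
    ContDiff ℝ ∞ (fun z : Pt n => (fun i => mon (d (sel i)) z : Pt (n + 1))) :=
  contDiff_pi.2 fun i => TWt_mon_contDiffR (d (sel i))

theorem wt_smooth (d : B → Fin n → ℕ) (sel : Fin (n + 1) → B) (h0d : ∃ b, d b = 0) {D : ℕ}
    (p : ℕ) (g : V (n + 1) D) : ContDiff ℝ ∞ (wt d sel p g) := by
  unfold wt
  refine ContDiff.pow ?_ p
  refine contDiff_const.sub ?_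
  refine ContDiff.div (((TWt_pd_contDiffR g).comp (TWt_sec_contDiff d sel)).norm_sq ℝ) ?_ ?_
  · exact (TWt_Sd_contDiff d).pow D
  · intro z
    have := TWt_Sd_one_le d h0d z
    positivity

private theorem TWt_mon_rt (e : Fin n → ℕ) (th : Fin n → ℝ) (z : Pt n) :
    mon e (rt th z) = Complex.exp ((∑ i, (e i : ℝ) * th i : ℝ) * I) * mon e z := by
  unfold mon rt
  simp only [mul_pow, Finset.prod_mul_distrib]
  congr 1
  rw [Complex.ofReal_sum, Finset.sum_mul, Complex.exp_sum]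
  refine Finset.prod_congr rfl fun i _ => ?_
  rw [← Complex.exp_nat_mul]
  congr 1
  push_cast
  ring

theorem wt_part (d : B → Fin n → ℕ) (sel : Fin (n + 1) → B) {D : ℕ} (p : ℕ) (g : V (n + 1) D)
    (u : Fin n → ℝ) (hu : ∀ b b', ∃ m : ℤ, ∑ i, ((d b i : ℝ) - d b' i) * u i = m) (z : Pt n) :
    wt d sel p g (rt (fun i => 2 * π * u i) z) = wt d sel p g z := by
  set T : ℂ := Complex.exp ((∑ i, (d (sel 0) i : ℝ) * (2 * π * u i) : ℝ) * I) with hT
  have hT1 : ‖T‖ = 1 := Complex.norm_exp_ofReal_mul_I _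
  have hmon : ∀ b, mon (d b) (rt (fun i => 2 * π * u i) z) = T * mon (d b) z := by
    intro b
    rw [TWt_mon_rt, hT]
    congr 1
    obtain ⟨m, hm⟩ := hu b (sel 0)
    rw [Complex.exp_eq_exp_iff_exists_int]
    refine ⟨m, ?_⟩
    have h1 : (∑ i, (d b i : ℝ) * (2 * π * u i)) =
        (∑ i, (d (sel 0) i : ℝ) * (2 * π * u i)) + m * (2 * π) := by
      rw [← hm, Finset.sum_mul, ← Finset.sum_add_distrib]
      refine Finset.sum_congr rfl fun i _ => ?_
      ring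
    rw [h1]
    push_cast
    ring
  have hS : Sd d (rt (fun i => 2 * π * u i) z) = Sd d z := by
    unfold Sd
    refine Finset.sum_congr rfl fun b _ => ?_
    rw [hmon, norm_mul, hT1, one_mul]
  have hx : (fun i => mon (d (sel i)) (rt (fun i => 2 * π * u i) z) : Pt (n + 1)) =
      T • (fun i => mon (d (sel i)) z : Pt (n + 1)) := by
    funext i
    rw [hmon]
    rfl
  unfold wt
  rw [hS, hx, pd_smul, norm_mul, norm_pow, hT1, one_pow, one_mul]

/-- representing vector of the family after removing the radial part -/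
private theorem TWt_expand (F Fd : B → ℂ) (S : ℝ) (hS : S = ∑ b, ‖F b‖ ^ 2) (hS0 : 0 < S) :
    ∑ b, ‖Fd b - ((∑ b, (starRingEnd ℂ) (F b) * Fd b) / S) * F b‖ ^ 2 =
      ∑ b, ‖Fd b‖ ^ 2 - ‖∑ b, (starRingEnd ℂ) (F b) * Fd b‖ ^ 2 / S := by
  set u := ∑ b, (starRingEnd ℂ) (F b) * Fd b with hu
  have hns : ∀ w : ℂ, ((‖w‖ ^ 2 : ℝ) : ℂ) = w * (starRingEnd ℂ) w := by
    intro w
    rw [Complex.mul_conj, Complex.normSq_eq_norm_sq]
  have hu2 : (starRingEnd ℂ) u = ∑ b, F b * (starRingEnd ℂ) (Fd b) := by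
    rw [hu, map_sum]
    refine Finset.sum_congr rfl fun i _ => ?_
    rw [map_mul, Complex.conj_conj]
  have hS1 : (S : ℂ) = ∑ b, F b * (starRingEnd ℂ) (F b) := by
    rw [hS, Complex.ofReal_sum]
    exact Finset.sum_congr rfl fun b _ => hns _
  have hS2 : (S : ℂ) ≠ 0 := by
    exact_mod_cast hS0.ne'
  have h4 : (starRingEnd ℂ) (u / S) = (starRingEnd ℂ) u / S := by
    rw [map_div₀, Complex.conj_ofReal]
  apply Complex.ofReal_injective
  rw [Complex.ofReal_sub, Complex.ofReal_div, Complex.ofReal_sum, Complex.ofReal_sum]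
  simp only [hns]
  have h1 : ∀ b, (Fd b - u / (S : ℂ) * F b) * (starRingEnd ℂ) (Fd b - u / (S : ℂ) * F b) =
      Fd b * (starRingEnd ℂ) (Fd b) - (u / S) * (F b * (starRingEnd ℂ) (Fd b))
        - ((starRingEnd ℂ) u / S) * ((starRingEnd ℂ) (F b) * Fd b)
        + (u / S) * ((starRingEnd ℂ) u / S) * (F b * (starRingEnd ℂ) (F b)) := by
    intro b
    rw [map_sub, map_mul, h4]
    ring
  rw [Finset.sum_congr rfl fun b _ => h1 b, Finset.sum_add_distrib, Finset.sum_sub_distrib,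
    Finset.sum_sub_distrib, ← Finset.mul_sum, ← Finset.mul_sum, ← Finset.mul_sum, ← hu2, ← hu,
    ← hS1]
  field_simp
  ring

private theorem TWt_G_mem (d : B → Fin n → ℕ) (sel : Fin (n + 1) → B)
    (hsel : Function.Injective sel) (h0d : ∃ b, d b = 0) {D : ℕ} (g : V (n + 1) D)
    (hg : ‖g‖ = 1) (z : Pt n) :
    nsq (fun i => mon (d (sel i)) z : Pt (n + 1)) ≤ Sd d z ∧
    0 ≤ 1 - ‖pd g 0 (fun i => mon (d (sel i)) z)‖ ^ 2 / Sd d z ^ D ∧
      1 - ‖pd g 0 (fun i => mon (d (sel i)) z)‖ ^ 2 / Sd d z ^ D ≤ 1 := by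
  classical
  have hS := TWt_Sd_one_le d h0d z
  have h1 : nsq (fun i => mon (d (sel i)) z : Pt (n + 1)) ≤ Sd d z := by
    unfold nsq Sd
    rw [← Finset.sum_image (f := fun b => ‖mon (d b) z‖ ^ 2) (s := Finset.univ) (g := sel)
      (fun x _ y _ h => hsel h)]
    exact Finset.sum_le_sum_of_subset_of_nonneg (Finset.subset_univ _)
      fun b _ _ => by positivity
  have h2 := TWt_pd_sq_le g hg (fun i => mon (d (sel i)) z : Pt (n + 1))
  have h3 : nsq (fun i => mon (d (sel i)) z : Pt (n + 1)) ^ D ≤ Sd d z ^ D :=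
    pow_le_pow_left₀ (nsq_nonneg _) h1 D
  refine ⟨h1, ?_, ?_⟩
  · rw [sub_nonneg, div_le_one (by positivity)]
    exact h2.trans h3
  · rw [sub_le_self_iff]
    positivity

/-- derivative of wt in direction a -/
private theorem TWt_fderiv_wt (d : B → Fin n → ℕ) (sel : Fin (n + 1) → B)
    (h0d : ∃ b, d b = 0) {D : ℕ} (p : ℕ) (g : V (n + 1) D) (z a : Pt n) :
    fderiv ℝ (wt d sel p g) z a =
      -(p * (1 - ‖pd g 0 (fun i => mon (d (sel i)) z)‖ ^ 2 / Sd d z ^ D) ^ (p - 1) *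
        (2 * ((starRingEnd ℂ) (pd g 0 (fun i => mon (d (sel i)) z)) *
          (inner ℂ (TWt_dev D (fun i => fderiv ℂ (fun y => mon (d (sel i)) y) z a)
              (fun i => mon (d (sel i)) z)) g
          - ((∑ b, (starRingEnd ℂ) (mon (d b) z) * fderiv ℂ (fun y => mon (d b) y) z a) /
              (Sd d z : ℂ)) *
            (D * pd g 0 (fun i => mon (d (sel i)) z)))).re / Sd d z ^ D)) := by
  have hγ : HasDerivAt (fun s : ℝ => z + s • a) a 0 := by
    have := ((hasDerivAt_id (0 : ℝ)).smul_const a).const_add z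
    simpa using this
  have hS0 : 0 < Sd d z := lt_of_lt_of_le one_pos (TWt_Sd_one_le d h0d z)
  have hw : HasDerivAt (fun s : ℝ => wt d sel p g (z + s • a))
      (fderiv ℝ (wt d sel p g) z a) 0 := by
    have h1 : HasFDerivAt (wt d sel p g) (fderiv ℝ (wt d sel p g) z) (z + (0 : ℝ) • a) := by
      rw [zero_smul, add_zero]
      exact ((wt_smooth d sel h0d p g).differentiable (by simp) z).hasFDerivAt
    exact h1.comp_hasDerivAt (0 : ℝ) hγ
  have hF : ∀ b, HasDerivAt (fun s : ℝ => mon (d b) (z + s • a))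
      (fderiv ℂ (fun y => mon (d b) y) z a) 0 := by
    intro b
    have h1 : HasFDerivAt (fun y : Pt n => mon (d b) y)
        ((fderiv ℂ (fun y : Pt n => mon (d b) y) z).restrictScalars ℝ) (z + (0 : ℝ) • a) := by
      rw [zero_smul, add_zero]
      exact (((TWt_mon_contDiff (d b)).differentiable (by simp)
        z).hasFDerivAt).restrictScalars ℝ
    exact h1.comp_hasDerivAt (0 : ℝ) hγ
  have hx : HasDerivAt (fun s : ℝ => (fun i => mon (d (sel i)) (z + s • a) : Pt (n + 1)))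
      (fun i => fderiv ℂ (fun y => mon (d (sel i)) y) z a) 0 :=
    hasDerivAt_pi.2 fun i => hF (sel i)
  have hgd : HasDerivAt (fun s : ℝ => pd g 0 (fun i => mon (d (sel i)) (z + s • a)))
      (inner ℂ (TWt_dev D (fun i => fderiv ℂ (fun y => mon (d (sel i)) y) z a)
              (fun i => mon (d (sel i)) z)) g) 0 := by
    have h1 : HasFDerivAt (fun y : Pt (n + 1) => pd g 0 y)
        ((fderiv ℂ (fun y : Pt (n + 1) => pd g 0 y)
          (fun i => mon (d (sel i)) z)).restrictScalars ℝ)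
        (fun i => mon (d (sel i)) (z + (0 : ℝ) • a)) := by
      rw [zero_smul, add_zero]
      exact (TWt_hasFDerivAt g _).restrictScalars ℝ
    have h2 := h1.comp_hasDerivAt (0 : ℝ) hx
    rw [← TWt_fderiv_apply]
    exact h2
  have hg2 : HasDerivAt (fun s : ℝ => ‖pd g 0 (fun i => mon (d (sel i)) (z + s • a))‖ ^ 2)
      (2 * ((starRingEnd ℂ) (pd g 0 (fun i => mon (d (sel i)) z)) *
        inner ℂ (TWt_dev D (fun i => fderiv ℂ (fun y => mon (d (sel i)) y) z a)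
              (fun i => mon (d (sel i)) z)) g).re) 0 := by
    have h1 := hgd.norm_sq
    refine h1.congr_deriv ?_
    rw [Complex.inner]
    simp
    ring
  have hn : HasDerivAt (fun s : ℝ => Sd d (z + s • a))
      (2 * (∑ b, (starRingEnd ℂ) (mon (d b) z) * fderiv ℂ (fun y => mon (d b) y) z a).re) 0 := by
    unfold Sd
    have h1 : ∀ b ∈ (Finset.univ : Finset B),
        HasDerivAt (fun s : ℝ => ‖mon (d b) (z + s • a)‖ ^ 2)
        (2 * ((starRingEnd ℂ) (mon (d b) z) * fderiv ℂ (fun y => mon (d b) y) z a).re) 0 := by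
      intro b _
      have h3 := (hF b).norm_sq
      refine h3.congr_deriv ?_
      rw [Complex.inner]
      simp
      ring
    have h4 := HasDerivAt.fun_sum h1
    refine h4.congr_deriv ?_
    rw [← Finset.mul_sum, Complex.re_sum]
  have hd : HasDerivAt (fun s : ℝ => Sd d (z + s • a) ^ D)
      (D * Sd d z ^ (D - 1) * (2 * (∑ b, (starRingEnd ℂ) (mon (d b) z) *
        fderiv ℂ (fun y => mon (d b) y) z a).re)) 0 := by
    have h1 := hn.fun_pow D
    simpa using h1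
  have hq := hg2.fun_div hd (by
      simp only [zero_smul, add_zero]
      positivity)
  have hfin := (hq.const_sub 1).fun_pow p
  have heq := hw.unique hfin
  rw [heq]
  simp only [zero_smul, add_zero]
  set S := Sd d z with hSdef
  set u := ∑ b, (starRingEnd ℂ) (mon (d b) z) * fderiv ℂ (fun y => mon (d b) y) z a with hu
  set v := inner ℂ (TWt_dev D (fun i => fderiv ℂ (fun y => mon (d (sel i)) y) z a)
              (fun i => mon (d (sel i)) z)) g with hv
  set w := pd g 0 (fun i => mon (d (sel i)) z) with hw'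
  have h8 : ((starRingEnd ℂ) w * (v - u / (S : ℂ) * (D * w))).re =
      ((starRingEnd ℂ) w * v).re - D * ‖w‖ ^ 2 * u.re / S := by
    have h9 : (starRingEnd ℂ) w * (v - u / (S : ℂ) * (D * w)) =
        (starRingEnd ℂ) w * v - ((D * ‖w‖ ^ 2 / S : ℝ) : ℂ) * u := by
      have h10 : (starRingEnd ℂ) w * w = ((‖w‖ ^ 2 : ℝ) : ℂ) := by
        rw [mul_comm, Complex.mul_conj, Complex.normSq_eq_norm_sq]
      have h11 : (starRingEnd ℂ) w * (v - u / (S : ℂ) * (D * w)) =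
        (starRingEnd ℂ) w * v - (D * ((starRingEnd ℂ) w * w) / (S : ℂ)) * u := by ring
      rw [h11, h10]
      push_cast
      ring
    rw [h9, Complex.sub_re, Complex.re_ofReal_mul]
    ring
  rw [h8]
  have h12 : ((2 * ((starRingEnd ℂ) w * v).re) * S ^ D
        - ‖w‖ ^ 2 * (D * S ^ (D - 1) * (2 * u.re))) / (S ^ D) ^ 2 =
      2 * (((starRingEnd ℂ) w * v).re - D * ‖w‖ ^ 2 * u.re / S) / S ^ D := by
    rcases Nat.eq_zero_or_pos D with hD | hD
    · simp [hD]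
    · obtain ⟨j, rfl⟩ : ∃ j, D = j + 1 := ⟨D - 1, by omega⟩
      rw [Nat.add_sub_cancel]
      field_simp
      ring
  rw [h12]
  ring

theorem wt_grad (d : B → Fin n → ℕ) (sel : Fin (n + 1) → B) (hsel : Function.Injective sel)
    (h0d : ∃ b, d b = 0) {D : ℕ} (p : ℕ) (g : V (n + 1) D) (hg : ‖g‖ = 1) (z a : Pt n) :
    (fderiv ℝ (wt d sel p g) z a) ^ 2 + (fderiv ℝ (wt d sel p g) z (I • a)) ^ 2 ≤
      4 * (p : ℝ) ^ 2 * (D : ℝ) ^ 2 * Lg d 0 z a := by
  classical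
  have hS0 : 0 < Sd d z := lt_of_lt_of_le one_pos (TWt_Sd_one_le d h0d z)
  rw [TWt_fderiv_wt d sel h0d p g z a, TWt_fderiv_wt d sel h0d p g z (I • a)]
  have hI : ∀ b, fderiv ℂ (fun y => mon (d b) y) z (I • a) =
      I * fderiv ℂ (fun y => mon (d b) y) z a := by
    intro b
    rw [map_smul, smul_eq_mul]
  have hIv : (fun i => fderiv ℂ (fun y => mon (d (sel i)) y) z (I • a) : Pt (n + 1)) =
      I • (fun i => fderiv ℂ (fun y => mon (d (sel i)) y) z a : Pt (n + 1)) := by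
    funext i
    rw [hI]
    rfl
  rw [hIv, TWt_dev_I]
  have hIu : ∑ b, (starRingEnd ℂ) (mon (d b) z) * fderiv ℂ (fun y => mon (d b) y) z (I • a) =
      I * ∑ b, (starRingEnd ℂ) (mon (d b) z) * fderiv ℂ (fun y => mon (d b) y) z a := by
    rw [Finset.mul_sum]
    refine Finset.sum_congr rfl fun r _ => ?_
    rw [hI]
    ring
  rw [hIu]
  obtain ⟨hxS, hG0, hG1⟩ := TWt_G_mem d sel hsel h0d g hg z
  set w := 1 - ‖pd g 0 (fun i => mon (d (sel i)) z)‖ ^ 2 / Sd d z ^ D with hw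
  set x : Pt (n + 1) := fun i => mon (d (sel i)) z with hxdef
  set xd : Pt (n + 1) := fun i => fderiv ℂ (fun y => mon (d (sel i)) y) z a with hxd
  have hdir := TWt_dir_le g hg
    (xd - ((∑ b, (starRingEnd ℂ) (mon (d b) z) * fderiv ℂ (fun y => mon (d b) y) z a) /
      (Sd d z : ℂ)) • x) x
  rw [TWt_dev_sub] at hdir
  have hexp := TWt_expand (fun b => mon (d b) z) (fun b => fderiv ℂ (fun y => mon (d b) y) z a)
    (Sd d z) rfl hS0
  have hz2 := TWt_pd_sq_le g hg x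
  have hLg : Lg d 0 z a = (Sd d z * (∑ b, ‖fderiv ℂ (fun y => mon (d b) y) z a‖ ^ 2)
      - ‖∑ b, (starRingEnd ℂ) (mon (d b) z) * fderiv ℂ (fun y => mon (d b) y) z a‖ ^ 2) /
        Sd d z ^ 2 := by
    unfold Lg
    simp only [TWt_sc_zero]
  rw [hLg]
  set S := Sd d z with hSdef
  set N := ∑ b, ‖fderiv ℂ (fun y => mon (d b) y) z a‖ ^ 2 with hN
  set u := ∑ b, (starRingEnd ℂ) (mon (d b) z) * fderiv ℂ (fun y => mon (d b) y) z a with hu
  have hnb : nsq (xd - (u / (S : ℂ)) • x) ≤ N - ‖u‖ ^ 2 / S := by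
    rw [← hexp]
    unfold nsq
    calc ∑ i, ‖(xd - (u / (S : ℂ)) • x) i‖ ^ 2
        = ∑ i : Fin (n + 1), (fun b => ‖fderiv ℂ (fun y => mon (d b) y) z a -
            u / (S : ℂ) * mon (d b) z‖ ^ 2) (sel i) := rfl
      _ = ∑ b ∈ Finset.univ.image sel, (fun b => ‖fderiv ℂ (fun y => mon (d b) y) z a -
            u / (S : ℂ) * mon (d b) z‖ ^ 2) b := by
          rw [Finset.sum_image (fun x _ y _ h => hsel h)]
      _ ≤ ∑ b, (fun b => ‖fderiv ℂ (fun y => mon (d b) y) z a -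
            u / (S : ℂ) * mon (d b) z‖ ^ 2) b :=
          Finset.sum_le_sum_of_subset_of_nonneg (Finset.subset_univ _)
            fun b _ _ => by positivity
  set v := inner ℂ (TWt_dev D xd x) g with hv
  set y := pd g 0 x with hy
  set δ := v - u / (S : ℂ) * (D * y) with hδ
  have h1 : I * v - I * u / (S : ℂ) * (D * y) = I * δ := by rw [hδ]; ring
  rw [h1]
  have h2 : ((starRingEnd ℂ) y * (I * δ)).re = -((starRingEnd ℂ) y * δ).im := by
    have : (starRingEnd ℂ) y * (I * δ) = I * ((starRingEnd ℂ) y * δ) := by ring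
    rw [this, Complex.I_mul_re]
  rw [h2]
  have h3 : ((starRingEnd ℂ) y * δ).re ^ 2 + ((starRingEnd ℂ) y * δ).im ^ 2 =
      ‖y‖ ^ 2 * ‖δ‖ ^ 2 := by
    have h4 := Complex.normSq_eq_norm_sq ((starRingEnd ℂ) y * δ)
    rw [Complex.normSq_apply, norm_mul, RCLike.norm_conj, mul_pow] at h4
    rw [← h4]; ring
  have h5 : (-(p * w ^ (p - 1) * (2 * ((starRingEnd ℂ) y * δ).re / S ^ D))) ^ 2 +
      (-(p * w ^ (p - 1) * (2 * -((starRingEnd ℂ) y * δ).im / S ^ D))) ^ 2 =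
      4 * (p : ℝ) ^ 2 * (w ^ (p - 1)) ^ 2 * (‖y‖ ^ 2 * ‖δ‖ ^ 2 / (S ^ D) ^ 2) := by
    rw [← h3]
    field_simp
    ring
  rw [h5]
  have h6 : (w ^ (p - 1)) ^ 2 ≤ 1 := by
    have : w ^ (p - 1) ≤ 1 := pow_le_one₀ hG0 hG1
    exact pow_le_one₀ (pow_nonneg hG0 _) this
  have hx := nsq_nonneg x
  have h7 : ‖y‖ ^ 2 * ‖δ‖ ^ 2 / (S ^ D) ^ 2 ≤ (D : ℝ) ^ 2 * ((S * N - ‖u‖ ^ 2) / S ^ 2) := by
    have h8 : ‖y‖ ^ 2 * ‖δ‖ ^ 2 ≤ nsq x ^ D * ((D : ℝ) ^ 2 * nsq x ^ (D - 1) *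
        (N - ‖u‖ ^ 2 / S)) := by
      have h9 : ‖δ‖ ^ 2 ≤ (D : ℝ) ^ 2 * nsq x ^ (D - 1) * (N - ‖u‖ ^ 2 / S) := by
        refine hdir.trans ?_
        exact mul_le_mul_of_nonneg_left hnb (by positivity)
      exact mul_le_mul hz2 h9 (by positivity) (by positivity)
    have hpos : 0 ≤ N - ‖u‖ ^ 2 / S := by
      exact (nsq_nonneg _).trans hnb
    rw [div_le_iff₀ (by positivity)]
    rcases Nat.eq_zero_or_pos D with hD | hD
    · subst hD
      simp at h8 ⊢
      exact h8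
    · obtain ⟨j, rfl⟩ : ∃ j, D = j + 1 := ⟨D - 1, by omega⟩
      rw [Nat.add_sub_cancel] at h8
      have h10 : nsq x ^ (j + 1) * nsq x ^ j ≤ S ^ (j + 1) * S ^ j :=
        mul_le_mul (pow_le_pow_left₀ hx hxS _) (pow_le_pow_left₀ hx hxS _)
          (by positivity) (by positivity)
      calc ‖y‖ ^ 2 * ‖δ‖ ^ 2 ≤ nsq x ^ (j + 1) * (((j + 1 : ℕ) : ℝ) ^ 2 * nsq x ^ j *
            (N - ‖u‖ ^ 2 / S)) := h8
        _ = (nsq x ^ (j + 1) * nsq x ^ j) * (((j + 1 : ℕ) : ℝ) ^ 2 * (N - ‖u‖ ^ 2 / S)) := by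
            ring
        _ ≤ (S ^ (j + 1) * S ^ j) * (((j + 1 : ℕ) : ℝ) ^ 2 * (N - ‖u‖ ^ 2 / S)) :=
            mul_le_mul_of_nonneg_right h10 (by positivity)
        _ = _ := by
            field_simp
            ring
  have h11 : 0 ≤ ‖y‖ ^ 2 * ‖δ‖ ^ 2 / (S ^ D) ^ 2 := by positivity
  calc 4 * (p : ℝ) ^ 2 * (w ^ (p - 1)) ^ 2 * (‖y‖ ^ 2 * ‖δ‖ ^ 2 / (S ^ D) ^ 2)
      ≤ 4 * (p : ℝ) ^ 2 * 1 * (‖y‖ ^ 2 * ‖δ‖ ^ 2 / (S ^ D) ^ 2) := by
        refine mul_le_mul_of_nonneg_right ?_ h11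
        exact mul_le_mul_of_nonneg_left h6 (by positivity)
    _ ≤ 4 * (p : ℝ) ^ 2 * 1 * ((D : ℝ) ^ 2 * ((S * N - ‖u‖ ^ 2) / S ^ 2)) :=
        mul_le_mul_of_nonneg_left h7 (by positivity)
    _ = _ := by ring

end GTor
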