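/- piece TV: variance bound -/
import Pool.Agent.Lib_MP_e0d435_ag_T.TPsh
import Pool.Agent.Lib_MP_e0d435_ag_T.TInt
import Pool.Agent.Lib_MP_e0d435_ag_T.TWt
import Pool.Agent.Lib_MP_e0d435_ag_T.TTorus
import Pool.Agent.Lib_MP_e0d435_ag_T.TLiou
import Pool.Agent.Lib_MP_e0d435_ag_T.THolD

open Finset MeasureTheory Complex
open scoped ENNReal ContDiff Real

namespace GTor
open GPn

variable {n : ℕ} {A B : Type} [Fintype A] [DecidableEq A] [Fintype B]

private theorem TVar_sc_zero (z : Pt n) : sc (0 : Fin n → ℝ) z = z := by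
  funext i
  simp [sc]

private theorem TVar_Pm_nonneg (e : A → Fin n → ℕ) (Z : A → Pt n) : 0 ≤ Pm e Z :=
  Finset.sum_nonneg fun _ _ => Finset.prod_nonneg fun _ _ => by positivity

private theorem TVar_Pm_le (e : A → Fin n → ℕ) (Z : A → Pt n) :
    Pm e Z ≤ ∏ j, Sd e (Z j) := by
  classical
  have h1 : ∏ j, Sd e (Z j) = ∑ p : A → A, ∏ j, ‖mon (e (p j)) (Z j)‖ ^ 2 := by
    unfold Sd
    rw [Finset.prod_univ_sum]
    simp
  rw [h1, Pm]
  have h2 : ∑ p : Equiv.Perm A, ∏ j, ‖mon (e (p j)) (Z j)‖ ^ 2 =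
      ∑ p ∈ (Finset.univ : Finset (Equiv.Perm A)).image (fun p : Equiv.Perm A => (p : A → A)),
        ∏ j, ‖mon (e (p j)) (Z j)‖ ^ 2 := by
    rw [Finset.sum_image]
    intro p _ p' _ hpp
    exact Equiv.coe_fn_injective hpp
  rw [h2]
  exact Finset.sum_le_sum_of_subset_of_nonneg (Finset.subset_univ _)
    fun p _ _ => Finset.prod_nonneg fun _ _ => by positivity

private theorem TVar_Dt_sq_le (e : A → Fin n → ℕ) (Z : A → Pt n) :
    ‖Dt e Z‖ ^ 2 ≤ (Fintype.card (Equiv.Perm A) : ℝ) * Pm e Z := by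
  have h1 : ‖Dt e Z‖ ≤ ∑ p : Equiv.Perm A, ∏ j, ‖mon (e (p j)) (Z j)‖ := by
    have h2 : Dt e Z = (Matrix.of fun j a => mon (e a) (Z j)).transpose.det := by
      rw [Matrix.det_transpose]; rfl
    rw [h2, Matrix.det_apply]
    refine (norm_sum_le _ _).trans (le_of_eq ?_)
    refine Finset.sum_congr rfl fun p _ => ?_
    rw [Units.smul_def, zsmul_eq_mul, norm_mul, norm_prod]
    have h3 : ‖((Equiv.Perm.sign p : ℤ) : ℂ)‖ = 1 := by
      rcases Int.units_eq_one_or (Equiv.Perm.sign p) with h | h <;> simp [h]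
    rw [h3, one_mul]
    rfl
  have h4 : (∑ p : Equiv.Perm A, ∏ j, ‖mon (e (p j)) (Z j)‖) ^ 2 ≤
      (Fintype.card (Equiv.Perm A) : ℝ) * ∑ p : Equiv.Perm A,
        (∏ j, ‖mon (e (p j)) (Z j)‖) ^ 2 := by
    have := sq_sum_le_card_mul_sum_sq (s := (Finset.univ : Finset (Equiv.Perm A)))
      (f := fun p => ∏ j, ‖mon (e (p j)) (Z j)‖)
    simpa using this
  have h5 : ‖Dt e Z‖ ^ 2 ≤ (∑ p : Equiv.Perm A, ∏ j, ‖mon (e (p j)) (Z j)‖) ^ 2 :=
    pow_le_pow_left₀ (norm_nonneg _) h1 2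
  refine h5.trans (h4.trans (le_of_eq ?_))
  rw [Pm]
  congr 1
  refine Finset.sum_congr rfl fun p _ => ?_
  rw [Finset.prod_pow]

/-- lower bound of the density by a product -/
theorem rho_lower (e : A → Fin n → ℕ) (d : B → Fin n → ℕ) (h0e : ∃ a, e a = 0)
    (h0d : ∃ b, d b = 0) (t r ep ep' : ℝ) (ht : 0 ≤ t) (hr : 0 < r) (hep : 0 ≤ ep)
    (hep' : 0 < ep') (RD : RayData e d t r) : ∃ c : ℝ, 0 < c ∧ ∀ Z : A → Pt n,
    c * ∏ j, Sd d (Z j) ^ (-(t * RD.q + r)) ≤ rho e d t r ep ep' 0 Z := by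
  obtain ⟨C, hC⟩ := RD.dom
  have hSd : ∀ z : Pt n, 0 < Sd d z := fun z => lt_of_lt_of_le one_pos (Sd_one_le d h0d z)
  have hSe : ∀ z : Pt n, 0 < Sd e z := fun z => lt_of_lt_of_le one_pos (Sd_one_le e h0e z)
  have hCpos : 0 < C := by
    have h1 := hC 0
    have h2 : 0 < C * Sd d (0 : Pt n) ^ RD.q := lt_of_lt_of_le (hSe 0) h1
    exact (pos_iff_pos_of_mul_pos h2).2 (Real.rpow_pos_of_pos (hSd 0) _)
  set K : ℝ := ((Fintype.card (Equiv.Perm A) : ℝ) + ep + ep') * C ^ Fintype.card A with hK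
  have hKpos : 0 < K := by
    rw [hK]
    positivity
  refine ⟨K ^ (-t), Real.rpow_pos_of_pos hKpos _, fun Z => ?_⟩
  have hH := Hh_pos e h0e ep ep' hep hep' Z
  have hPe : 0 < ∏ j, Sd e (Z j) := Finset.prod_pos fun j _ => hSe (Z j)
  have hle : Hh e ep ep' Z ≤ K * ∏ j, Sd d (Z j) ^ RD.q := by
    have h1 : Hh e ep ep' Z ≤
        ((Fintype.card (Equiv.Perm A) : ℝ) + ep + ep') * ∏ j, Sd e (Z j) := by
      have h2 := TVar_Dt_sq_le e Z
      have h3 := TVar_Pm_le e Z
      have h4 : (Fintype.card (Equiv.Perm A) : ℝ) * Pm e Z ≤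
          (Fintype.card (Equiv.Perm A) : ℝ) * ∏ j, Sd e (Z j) :=
        mul_le_mul_of_nonneg_left h3 (by positivity)
      have h5 : ep * Pm e Z ≤ ep * ∏ j, Sd e (Z j) := mul_le_mul_of_nonneg_left h3 hep
      unfold Hh
      nlinarith
    have h6 : ∏ j, Sd e (Z j) ≤ ∏ j, (C * Sd d (Z j) ^ RD.q) :=
      Finset.prod_le_prod (fun j _ => (hSe _).le) fun j _ => hC (Z j)
    rw [Finset.prod_mul_distrib, Finset.prod_const, Finset.card_univ] at h6
    calc Hh e ep ep' Z ≤ _ := h1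
      _ ≤ ((Fintype.card (Equiv.Perm A) : ℝ) + ep + ep') *
          (C ^ Fintype.card A * ∏ j, Sd d (Z j) ^ RD.q) :=
          mul_le_mul_of_nonneg_left h6 (by positivity)
      _ = _ := by rw [hK]; ring
  have hrp : (K * ∏ j, Sd d (Z j) ^ RD.q) ^ (-t) ≤ Hh e ep ep' Z ^ (-t) :=
    Real.rpow_le_rpow_of_nonpos hH hle (by linarith)
  have hq : ∀ j, 0 ≤ Sd d (Z j) ^ RD.q := fun j => (Real.rpow_pos_of_pos (hSd _) _).le
  have hpr : (K * ∏ j, Sd d (Z j) ^ RD.q) ^ (-t) =
      K ^ (-t) * ∏ j, Sd d (Z j) ^ (-(t * RD.q)) := by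
    rw [Real.mul_rpow hKpos.le (Finset.prod_nonneg fun j _ => hq j),
      ← Real.finsetProd_rpow _ _ (fun j _ => hq j)]
    congr 1
    refine Finset.prod_congr rfl fun j _ => ?_
    rw [← Real.rpow_mul (hSd _).le]
    congr 1
    ring
  unfold rho
  have h7 : ∏ j, Sd d (sc ((0 : A → Fin n → ℝ) j) (Z j)) ^ (-r) = ∏ j, Sd d (Z j) ^ (-r) := by
    refine Finset.prod_congr rfl fun j _ => ?_
    have : sc ((0 : A → Fin n → ℝ) j) (Z j) = Z j := TVar_sc_zero (Z j)
    rw [this]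
  rw [h7]
  have h8 : ∏ j, Sd d (Z j) ^ (-(t * RD.q + r)) =
      (∏ j, Sd d (Z j) ^ (-(t * RD.q))) * ∏ j, Sd d (Z j) ^ (-r) := by
    rw [← Finset.prod_mul_distrib]
    refine Finset.prod_congr rfl fun j _ => ?_
    rw [← Real.rpow_add (hSd _)]
    congr 1
    ring
  rw [h8, ← mul_assoc, ← hpr]
  exact mul_le_mul_of_nonneg_right hrp
    (Finset.prod_nonneg fun j _ => (Real.rpow_pos_of_pos (hSd _) _).le)

/-- the linear statistic -/
private noncomputable def TVar_f (A : Type) [Fintype A] (d : B → Fin n → ℕ)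
    (sel : Fin (n + 1) → B) {D : ℕ} (p : ℕ) (g : V (n + 1) D) (Z : A → Pt n) : ℝ :=
  ∑ j, wt d sel p g (Z j)

private theorem TVar_fderiv (d : B → Fin n → ℕ) (h0d : ∃ b, d b = 0)
    (sel : Fin (n + 1) → B) {D : ℕ} (p : ℕ) (g : V (n + 1) D) (Z a : A → Pt n) :
    fderiv ℝ (TVar_f A d sel p g) Z a = ∑ j, fderiv ℝ (wt d sel p g) (Z j) (a j) := by
  have h : ∀ j : A, HasFDerivAt (fun X : A → Pt n => wt d sel p g (X j))
      ((fderiv ℝ (wt d sel p g) (Z j)).comp
        (ContinuousLinearMap.proj (R := ℝ) (φ := fun _ : A => Pt n) j)) Z := by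
    intro j
    have h1 : HasFDerivAt (wt d sel p g) (fderiv ℝ (wt d sel p g) (Z j)) (Z j) :=
      (((wt_smooth d sel h0d p g).differentiable (by simp)) (Z j)).hasFDerivAt
    have h2 : HasFDerivAt (fun f : A → Pt n => f j)
        (ContinuousLinearMap.proj (R := ℝ) (φ := fun _ : A => Pt n) j) Z :=
      hasFDerivAt_apply j Z
    exact HasFDerivAt.comp Z h1 h2
  have h3 : HasFDerivAt (TVar_f A d sel p g)
      (∑ j : A, (fderiv ℝ (wt d sel p g) (Z j)).comp
        (ContinuousLinearMap.proj (R := ℝ) (φ := fun _ : A => Pt n) j)) Z :=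
    HasFDerivAt.fun_sum fun j _ => h j
  rw [h3.fderiv]
  simp

private theorem TVar_rt_add (th : Fin n → ℝ) (z w : Pt n) : rt th (z + w) = rt th z + rt th w := by
  funext i
  simp only [rt, Pi.add_apply]
  ring

private theorem TVar_rt_smul (th : Fin n → ℝ) (c : ℂ) (z : Pt n) :
    rt th (c • z) = c • rt th z := by
  funext i
  simp only [rt, Pi.smul_apply, smul_eq_mul]
  ring

private theorem TVar_rt_neg (th : Fin n → ℝ) (z : Pt n) : rt (-th) (rt th z) = z := by
  funext i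
  simp only [rt, Pi.neg_apply]
  rw [← mul_assoc, ← Complex.exp_add]
  push_cast
  rw [neg_mul, neg_add_cancel, Complex.exp_zero, one_mul]

private theorem TVar_rt_neg' (th : Fin n → ℝ) (z : Pt n) : rt th (rt (-th) z) = z := by
  have := TVar_rt_neg (-th) z
  rwa [neg_neg] at this

/-- rotation of the point number j -/
private noncomputable def TVar_T (th : Fin n → ℝ) (j : A) : (A → Pt n) ≃L[ℂ] (A → Pt n) :=
  LinearEquiv.toContinuousLinearEquiv
    { toFun := fun Z => Function.update Z j (rt th (Z j))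
      invFun := fun Z => Function.update Z j (rt (-th) (Z j))
      map_add' := by
        intro Z W
        funext i
        by_cases h : i = j
        · subst h
          simp [TVar_rt_add]
        · simp [Function.update_of_ne h]
      map_smul' := by
        intro c Z
        funext i
        by_cases h : i = j
        · subst h
          simp [TVar_rt_smul]
        · simp [Function.update_of_ne h]
      left_inv := by
        intro Z
        simp [TVar_rt_neg]
      right_inv := by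
        intro Z
        simp [TVar_rt_neg'] }

private theorem TVar_T_apply (th : Fin n → ℝ) (j : A) (Z : A → Pt n) :
    TVar_T th j Z = Function.update Z j (rt th (Z j)) := rfl

private theorem TVar_mp_circle (s : ℝ) :
    MeasurePreserving (fun z : ℂ => Complex.exp (s * I) * z) volume volume := by
  have h := (rotation (Circle.exp s)).measurePreserving
  have e : (fun z : ℂ => Complex.exp (s * I) * z) = ⇑(rotation (Circle.exp s)) := by
    funext z
    simp [rotation_apply, Circle.coe_exp]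
  rw [e]
  exact h

private theorem TVar_mp_rt (th : Fin n → ℝ) :
    MeasurePreserving (rt th : Pt n → Pt n) volume volume := by
  have := measurePreserving_pi (fun _ : Fin n => (volume : Measure ℂ))
    (fun _ : Fin n => (volume : Measure ℂ)) (fun i => TVar_mp_circle (th i))
  exact this

private theorem TVar_mp_T (th : Fin n → ℝ) (j : A) :
    MeasurePreserving (TVar_T th j : (A → Pt n) ≃L[ℂ] (A → Pt n)) volume volume := by
  have h1 : ∀ j' : A, MeasurePreserving (if j' = j then (rt th : Pt n → Pt n) else id)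
      volume volume := by
    intro j'
    split_ifs
    · exact TVar_mp_rt th
    · exact MeasurePreserving.id _
  have h2 := measurePreserving_pi (fun _ : A => (volume : Measure (Pt n)))
    (fun _ : A => (volume : Measure (Pt n))) h1
  have e : (⇑(TVar_T th j : (A → Pt n) ≃L[ℂ] (A → Pt n))) =
      fun a i => (if i = j then (rt th : Pt n → Pt n) else id) (a i) := by
    funext Z i
    rw [TVar_T_apply]
    by_cases h : i = j
    · subst h
      simp
    · simp [Function.update_of_ne h, h]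
  rw [e]
  exact h2

private theorem TVar_pos [Nonempty A] (e : A → Fin n → ℕ) (d : B → Fin n → ℕ)
    (h0e : ∃ a, e a = 0)
    (h0d : ∃ b, d b = 0) (t r ep kap : ℝ) (ht : 0 ≤ t) (hr : 0 < r) (hep : 0 < ep)
    (hkap : 0 < kap) (hco : Coer e d t r kap) (RD : RayData e d t r)
    (sel : Fin (n + 1) → B) (hsel : Function.Injective sel) {D : ℕ} (p : ℕ) (g : V (n + 1) D)
    (hg : ‖g‖ = 1) (ep' : ℝ) (hep' : 0 < ep') :
    (∫ Z : A → Pt n, (∑ j, wt d sel p g (Z j)) ^ 2 * rho e d t r ep ep' 0 Z)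
        * (∫ Z, rho e d t r ep ep' 0 Z)
      - (∫ Z : A → Pt n, (∑ j, wt d sel p g (Z j)) * rho e d t r ep ep' 0 Z) ^ 2 ≤
    ((Fintype.card A : ℝ) * (p : ℝ) ^ 2 * (D : ℝ) ^ 2 / r)
      * (∫ Z, rho e d t r ep ep' 0 Z) ^ 2 := by
  have hre : ∀ Z : A → Pt n, rho e d t r ep ep' 0 Z = Real.exp (-Ps e d t r ep ep' 0 Z) :=
    fun Z => rho_eq_exp e d h0e h0d t r ep ep' hep.le hep' 0 Z
  have hm0 : (volume : Measure (Pt n)).IsAddHaarMeasure := inferInstance
  have hm : (volume : Measure (A → Pt n)).IsAddHaarMeasure :=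
    MeasureTheory.Measure.pi.isAddHaarMeasure _
  have hint : Integrable (fun Z : A → Pt n => Real.exp (-Ps e d t r ep ep' 0 Z)) := by
    have := rho_integrable e d h0d t r ep ep' kap ht hr hep hep'.le hkap hco 0
    refine this.congr (Filter.Eventually.of_forall fun Z => hre Z)
  have hwc : ContDiff ℝ ∞ (wt d sel p g) := wt_smooth d sel h0d p g
  set Q : ℝ := (Fintype.card A : ℝ) * (p : ℝ) ^ 2 * (D : ℝ) ^ 2 / r with hQdef
  have hQ0 : 0 ≤ Q := by positivity
  have key := poincare_gen (E := A → Pt n) volume (Ps e d t r ep ep' 0)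
    (TVar_f A d sel p g) (Ps_smooth e d h0e h0d t r ep ep' hep.le hep' 0) hint
    (ContDiff.sum fun j _ => hwc.comp (contDiff_apply ℝ (Pt n) j))
    ?_ (fun _ => Q) (fun _ => hQ0) measurable_const ⟨Q, fun _ => le_refl _⟩
    (fun Z a => Ps_psh e d h0e h0d t r ep ep' ht hr.le hep.le hep' 0 Z a) ?_
    {T | ∃ u ∈ RD.U, ∃ j : A, T = TVar_T (fun i => 2 * π * u i) j} ?_ ?_
  · simp only [← hre] at key
    rw [integral_const_mul] at key
    have e1 : ∀ Z : A → Pt n, TVar_f A d sel p g Z = ∑ j, wt d sel p g (Z j) := fun _ => rfl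
    simp only [e1] at key
    calc _ ≤ _ := key
      _ = _ := by ring
  · refine ⟨(Fintype.card A : ℝ), fun Z => ?_⟩
    unfold TVar_f
    rw [abs_of_nonneg (Finset.sum_nonneg fun j _ => (wt_mem d sel hsel h0d p g hg (Z j)).1)]
    calc ∑ j, wt d sel p g (Z j) ≤ ∑ _j : A, (1 : ℝ) :=
          Finset.sum_le_sum fun j _ => (wt_mem d sel hsel h0d p g hg (Z j)).2
      _ = (Fintype.card A : ℝ) := by simp
  · intro Z a
    have hcs : ∀ u : A → ℝ, (∑ j, u j) ^ 2 ≤ (Fintype.card A : ℝ) * ∑ j, u j ^ 2 := by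
      intro u
      have := sq_sum_le_card_mul_sum_sq (s := (Finset.univ : Finset A)) (f := u)
      simpa using this
    rw [TVar_fderiv d h0d sel p g Z a, TVar_fderiv d h0d sel p g Z (I • a)]
    have hlev := Ps_levi e d h0e h0d t r ep ep' ht hr.le hep.le hep' 0 Z a
    set L : A → ℝ := fun j => Lg d 0 (Z j) (a j) with hL
    have hlev' : r * ∑ j, L j ≤ Lform (Ps e d t r ep ep' 0) Z a := hlev
    have hgr : ∀ j, (fderiv ℝ (wt d sel p g) (Z j) (a j)) ^ 2
        + (fderiv ℝ (wt d sel p g) (Z j) (I • a j)) ^ 2 ≤ 4 * (p : ℝ) ^ 2 * (D : ℝ) ^ 2 * L j :=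
      fun j => wt_grad d sel hsel h0d p g hg (Z j) (a j)
    have h1 : (∑ j, fderiv ℝ (wt d sel p g) (Z j) (a j)) ^ 2
        + (∑ j, fderiv ℝ (wt d sel p g) (Z j) (I • a j)) ^ 2
        ≤ (Fintype.card A : ℝ) * (4 * (p : ℝ) ^ 2 * (D : ℝ) ^ 2 * ∑ j, L j) := by
      calc (∑ j, fderiv ℝ (wt d sel p g) (Z j) (a j)) ^ 2
            + (∑ j, fderiv ℝ (wt d sel p g) (Z j) (I • a j)) ^ 2
          ≤ (Fintype.card A : ℝ) * ∑ j, (fderiv ℝ (wt d sel p g) (Z j) (a j)) ^ 2
            + (Fintype.card A : ℝ)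
              * ∑ j, (fderiv ℝ (wt d sel p g) (Z j) (I • a j)) ^ 2 := add_le_add (hcs _) (hcs _)
        _ = (Fintype.card A : ℝ) * ∑ j, ((fderiv ℝ (wt d sel p g) (Z j) (a j)) ^ 2
            + (fderiv ℝ (wt d sel p g) (Z j) (I • a j)) ^ 2) := by
            rw [Finset.sum_add_distrib]; ring
        _ ≤ (Fintype.card A : ℝ) * ∑ j, 4 * (p : ℝ) ^ 2 * (D : ℝ) ^ 2 * L j :=
            mul_le_mul_of_nonneg_left (Finset.sum_le_sum fun j _ => hgr j) (by positivity)
        _ = (Fintype.card A : ℝ) * (4 * (p : ℝ) ^ 2 * (D : ℝ) ^ 2 * ∑ j, L j) := by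
            rw [← Finset.mul_sum]
    have h2 : 4 * Q * (r * ∑ j, L j)
        = (Fintype.card A : ℝ) * (4 * (p : ℝ) ^ 2 * (D : ℝ) ^ 2 * ∑ j, L j) := by
      rw [hQdef]
      field_simp
    calc _ ≤ _ := h1
      _ = _ := h2.symm
      _ ≤ _ := mul_le_mul_of_nonneg_left hlev' (by positivity)
  · rintro T ⟨u, hu, j, rfl⟩
    refine ⟨TVar_mp_T _ j, fun Z => ?_, fun Z => ?_⟩
    · rw [TVar_T_apply]
      exact Ps_part e d t r ep ep' 0 u (RD.phe u hu) j Z
    · rw [TVar_T_apply]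
      unfold TVar_f
      refine Finset.sum_congr rfl fun i _ => ?_
      by_cases h : i = j
      · subst h
        rw [Function.update_self]
        exact wt_part d sel p g u (RD.phd u hu) (Z i)
      · rw [Function.update_of_ne h]
  · intro h hmem hloc hol hinv
    have hr0 : 0 < t * RD.q + r := by
      have := RD.q_nonneg
      positivity
    obtain ⟨c, hc, hlow⟩ := rho_lower e d h0e h0d t r ep ep' ht hr hep.le hep' RD
    refine liouville d h0d (t * RD.q + r) hr0 RD.U RD.low RD.strict RD.neg h hloc hol ?_ ?_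
    · -- the L^2 condition
      have hcont : Continuous (Ps e d t r ep ep' 0) :=
        (Ps_smooth e d h0e h0d t r ep ep' hep.le hep' 0).continuous
      have h1 : ∫⁻ Z, ENNReal.ofReal (Real.exp (-Ps e d t r ep ep' 0 Z)) *
          ENNReal.ofReal (‖h Z‖ ^ 2) < ⊤ := by
        have h2 := hmem.eLpNorm_lt_top
        have h3 := lintegral_rpow_enorm_lt_top_of_eLpNorm_lt_top (by norm_num) (by norm_num) h2
        rw [gm, lintegral_withDensity_eq_lintegral_mul_non_measurable _ (by fun_prop)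
          (Filter.Eventually.of_forall fun x => ENNReal.ofReal_lt_top)] at h3
        refine lt_of_le_of_lt (le_of_eq ?_) h3
        refine lintegral_congr fun Z => ?_
        simp only [Pi.mul_apply]
        congr 1
        have h4 : (2 : ℝ≥0∞).toReal = ((2 : ℕ) : ℝ) := by norm_num
        rw [h4, ENNReal.rpow_natCast, ← ofReal_norm, ENNReal.ofReal_pow (norm_nonneg _)]
      have h5 : ∀ Z, ENNReal.ofReal (‖h Z‖ ^ 2 * ∏ j, Sd d (Z j) ^ (-(t * RD.q + r))) ≤
          ENNReal.ofReal c⁻¹ * (ENNReal.ofReal (Real.exp (-Ps e d t r ep ep' 0 Z)) *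
          ENNReal.ofReal (‖h Z‖ ^ 2)) := by
        intro Z
        rw [← ENNReal.ofReal_mul (Real.exp_pos _).le, ← ENNReal.ofReal_mul (by positivity)]
        refine ENNReal.ofReal_le_ofReal ?_
        have h6 := hlow Z
        rw [hre] at h6
        have h7 : ∏ j, Sd d (Z j) ^ (-(t * RD.q + r)) ≤
            c⁻¹ * Real.exp (-Ps e d t r ep ep' 0 Z) := by
          rw [inv_mul_eq_div, le_div_iff₀ hc]
          linarith
        calc ‖h Z‖ ^ 2 * ∏ j, Sd d (Z j) ^ (-(t * RD.q + r))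
            ≤ ‖h Z‖ ^ 2 * (c⁻¹ * Real.exp (-Ps e d t r ep ep' 0 Z)) :=
              mul_le_mul_of_nonneg_left h7 (by positivity)
          _ = _ := by ring
      calc _ ≤ ∫⁻ Z, ENNReal.ofReal c⁻¹ *
            (ENNReal.ofReal (Real.exp (-Ps e d t r ep ep' 0 Z)) *
            ENNReal.ofReal (‖h Z‖ ^ 2)) := lintegral_mono h5
        _ = ENNReal.ofReal c⁻¹ * ∫⁻ Z, (ENNReal.ofReal (Real.exp (-Ps e d t r ep ep' 0 Z)) *
            ENNReal.ofReal (‖h Z‖ ^ 2)) := lintegral_const_mul' _ _ ENNReal.ofReal_ne_top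
        _ < ⊤ := ENNReal.mul_lt_top ENNReal.ofReal_lt_top h1
    · intro u hu j
      have := hinv (TVar_T (fun i => 2 * π * u i) j) ⟨u, hu, j, rfl⟩
      exact this

theorem var_w [Nonempty A] (e : A → Fin n → ℕ) (d : B → Fin n → ℕ) (h0e : ∃ a, e a = 0)
    (h0d : ∃ b, d b = 0) (t r ep kap : ℝ) (ht : 0 ≤ t) (hr : 0 < r) (hep : 0 < ep)
    (hkap : 0 < kap) (hco : Coer e d t r kap) (RD : RayData e d t r)
    (sel : Fin (n + 1) → B) (hsel : Function.Injective sel) {D : ℕ} (p : ℕ) (g : V (n + 1) D)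
    (hg : ‖g‖ = 1) :
    (∫ Z : A → Pt n, (∑ j, wt d sel p g (Z j)) ^ 2 * rho e d t r ep 0 0 Z)
        * (∫ Z, rho e d t r ep 0 0 Z)
      - (∫ Z : A → Pt n, (∑ j, wt d sel p g (Z j)) * rho e d t r ep 0 0 Z) ^ 2 ≤
    ((Fintype.card A : ℝ) * (p : ℝ) ^ 2 * (D : ℝ) ^ 2 / r)
      * (∫ Z, rho e d t r ep 0 0 Z) ^ 2 := by
  have hwc : Continuous (wt d sel p g) := (wt_smooth d sel h0d p g).continuous
  have hfc : Continuous (fun Z : A → Pt n => ∑ j, wt d sel p g (Z j)) :=
    continuous_finsetSum _ fun j _ => hwc.comp (continuous_apply j)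
  have hf0 : ∀ Z : A → Pt n, 0 ≤ ∑ j, wt d sel p g (Z j) := fun Z =>
    Finset.sum_nonneg fun j _ => (wt_mem d sel hsel h0d p g hg (Z j)).1
  have hf1 : ∀ Z : A → Pt n, ∑ j, wt d sel p g (Z j) ≤ (Fintype.card A : ℝ) := by
    intro Z
    calc ∑ j, wt d sel p g (Z j) ≤ ∑ _j : A, (1 : ℝ) :=
          Finset.sum_le_sum fun j _ => (wt_mem d sel hsel h0d p g hg (Z j)).2
      _ = (Fintype.card A : ℝ) := by simp
  have l1 := rho_lim e d h0d t r ep kap ht hr hep hkap hco 0
    (fun Z => ∑ j, wt d sel p g (Z j)) hfc.measurable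
    ⟨(Fintype.card A : ℝ), fun Z => by rw [abs_of_nonneg (hf0 Z)]; exact hf1 Z⟩
  have l2 := rho_lim e d h0d t r ep kap ht hr hep hkap hco 0
    (fun Z => (∑ j, wt d sel p g (Z j)) ^ 2) (hfc.pow 2).measurable
    ⟨(Fintype.card A : ℝ) ^ 2, fun Z => by
      rw [abs_of_nonneg (by positivity)]
      exact pow_le_pow_left₀ (hf0 Z) (hf1 Z) 2⟩
  have l0 := rho_lim e d h0d t r ep kap ht hr hep hkap hco 0
    (fun _ => 1) measurable_const ⟨1, fun Z => by simp⟩
  simp only [one_mul] at l0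
  have hl := ((l2.mul l0).sub (l1.pow 2))
  have hrr := (l0.pow 2).const_mul ((Fintype.card A : ℝ) * (p : ℝ) ^ 2 * (D : ℝ) ^ 2 / r)
  refine le_of_tendsto_of_tendsto hl hrr ?_
  filter_upwards [self_mem_nhdsWithin] with ep' hep'
  exact TVar_pos e d h0e h0d t r ep kap ht hr hep hkap hco RD sel hsel p g hg ep' hep'

end GTor
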