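/- piece TE: equidistribution: the bad configurations have probability at most 1/2 -/
import Pool.Agent.Lib_MP_e0d435_ag_T.TMean
import Pool.Agent.Lib_MP_e0d435_ag_T.TVar
import Pool.Agent.Lib_MP_e0d435_ag.Equi

open Finset MeasureTheory Complex
open scoped ENNReal ContDiff Real

namespace GTor
open GPn

private theorem TEqui_mon_cont {n : ℕ} (e : Fin n → ℕ) :
    Continuous (fun z : Pt n => mon e z) := by
  unfold mon
  fun_prop

private theorem TEqui_Sd_cont {n : ℕ} {B : Type} [Fintype B] (d : B → Fin n → ℕ) :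
    Continuous (fun z : Pt n => Sd d z) := by
  unfold Sd
  exact continuous_finsetSum _ fun b _ => ((TEqui_mon_cont (d b)).norm).pow 2

private theorem TEqui_sec_cont {n : ℕ} {B : Type} (d : B → Fin n → ℕ)
    (sel : Fin (n + 1) → B) {D : ℕ} (g : V (n + 1) D) :
    Continuous (fun z : Pt n => pd g 0 (fun i => mon (d (sel i)) z)) :=
  (continuous_pd g 0).comp (continuous_pi fun i => TEqui_mon_cont (d (sel i)))

private theorem TEqui_one_le {n : ℕ} {B : Type} [Fintype B] (d : B → Fin n → ℕ)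
    (h0d : ∃ b, d b = 0) (z : Pt n) : 1 ≤ Sd d z := by
  obtain ⟨b, hb⟩ := h0d
  have h1 : ‖mon (d b) z‖ ^ 2 = 1 := by simp [mon, hb]
  calc (1 : ℝ) = ‖mon (d b) z‖ ^ 2 := h1.symm
    _ ≤ Sd d z := by
      unfold Sd
      exact Finset.single_le_sum (f := fun b => ‖mon (d b) z‖ ^ 2)
        (fun b _ => by positivity) (Finset.mem_univ b)

private theorem TEqui_nsq_le {n : ℕ} {B : Type} [Fintype B] (d : B → Fin n → ℕ)
    (sel : Fin (n + 1) → B) (hsel : Function.Injective sel) (z : Pt n) :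
    nsq (fun i => mon (d (sel i)) z) ≤ Sd d z := by
  classical
  unfold nsq Sd
  calc ∑ i, ‖mon (d (sel i)) z‖ ^ 2
      = ∑ b ∈ Finset.univ.map ⟨sel, hsel⟩, ‖mon (d b) z‖ ^ 2 := by
        rw [Finset.sum_map]; rfl
    _ ≤ ∑ b, ‖mon (d b) z‖ ^ 2 :=
        Finset.sum_le_sum_of_subset_of_nonneg (Finset.subset_univ _) (fun b _ _ => by positivity)

private theorem TEqui_wt_cont {n : ℕ} {B : Type} [Fintype B] (d : B → Fin n → ℕ)
    (h0d : ∃ b, d b = 0) (sel : Fin (n + 1) → B) {D : ℕ} (p : ℕ) (g : V (n + 1) D) :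
    Continuous (wt d sel p g) := by
  unfold wt
  refine (continuous_const.sub ?_).pow p
  refine Continuous.div ((TEqui_sec_cont d sel g).norm.pow 2) ((TEqui_Sd_cont d).pow D) ?_
  intro z
  have := TEqui_one_le d h0d z
  positivity

private theorem TEqui_wt_mem {n : ℕ} {B : Type} [Fintype B] (d : B → Fin n → ℕ)
    (h0d : ∃ b, d b = 0) (sel : Fin (n + 1) → B) (hsel : Function.Injective sel) {D : ℕ}
    (p : ℕ) (g : V (n + 1) D) (hg : ‖g‖ = 1) (z : Pt n) :
    0 ≤ wt d sel p g z ∧ wt d sel p g z ≤ 1 := by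
  have h1 : ‖pd g 0 (fun i => mon (d (sel i)) z)‖ ^ 2 ≤ Sd d z ^ D := by
    calc ‖pd g 0 (fun i => mon (d (sel i)) z)‖ ^ 2
        ≤ (‖g‖ * enm (fun i => mon (d (sel i)) z) ^ D) ^ 2 :=
          pow_le_pow_left₀ (norm_nonneg _) (norm_pd_le _ _) 2
      _ = (enm (fun i => mon (d (sel i)) z) ^ 2) ^ D := by rw [hg]; ring
      _ = nsq (fun i => mon (d (sel i)) z) ^ D := by rw [enm_sq]
      _ ≤ Sd d z ^ D := pow_le_pow_left₀ (nsq_nonneg _) (TEqui_nsq_le d sel hsel z) D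
  have h0 := TEqui_one_le d h0d z
  have h2 : 0 < Sd d z ^ D := by positivity
  have h3 : ‖pd g 0 (fun i => mon (d (sel i)) z)‖ ^ 2 / Sd d z ^ D ≤ 1 := (div_le_one h2).2 h1
  have h4 : 0 ≤ ‖pd g 0 (fun i => mon (d (sel i)) z)‖ ^ 2 / Sd d z ^ D := by positivity
  unfold wt
  exact ⟨pow_nonneg (by linarith) p, pow_le_one₀ (by linarith) (by linarith)⟩

private theorem TEqui_wt_lower {n : ℕ} {B : Type} [Fintype B] (d : B → Fin n → ℕ)
    (h0d : ∃ b, d b = 0) (sel : Fin (n + 1) → B) (hsel : Function.Injective sel) {D : ℕ}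
    (p : ℕ) (del : ℝ) (hdel : 0 < del) (hdel2 : 2 * del < 1)
    (hp : 1 / 2 ≤ (1 - 4 * del ^ 2) ^ p) (g g' : V (n + 1) D) (hgg : ‖g - g'‖ < del) (z : Pt n)
    (hz : ‖pd g 0 (fun i => mon (d (sel i)) z)‖ ^ 2 < del ^ 2 * Sd d z ^ D) :
    1 / 2 ≤ wt d sel p g' z := by
  set x : Pt (n + 1) := fun i => mon (d (sel i)) z with hx
  have h0 := TEqui_one_le d h0d z
  have hSn : 0 ≤ Sd d z := by linarith
  set s : ℝ := Real.sqrt (Sd d z) with hs
  have hs0 : 0 ≤ s := Real.sqrt_nonneg _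
  have hs2 : s ^ 2 = Sd d z := Real.sq_sqrt hSn
  have hle : enm x ≤ s := Real.sqrt_le_sqrt (TEqui_nsq_le d sel hsel z)
  have h1 : ‖pd g 0 x‖ < del * s ^ D := by
    refine lt_of_pow_lt_pow_left₀ 2 (by positivity) ?_
    calc ‖pd g 0 x‖ ^ 2 < del ^ 2 * Sd d z ^ D := hz
      _ = (del * s ^ D) ^ 2 := by rw [← hs2]; ring
  have h2 : ‖pd g' 0 x‖ ≤ 2 * del * s ^ D := by
    have e1 : pd g' 0 x = pd g 0 x - pd (g - g') 0 x := by rw [pd_sub_left]; ring
    rw [e1]
    calc ‖pd g 0 x - pd (g - g') 0 x‖ ≤ ‖pd g 0 x‖ + ‖pd (g - g') 0 x‖ := norm_sub_le _ _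
      _ ≤ del * s ^ D + ‖g - g'‖ * enm x ^ D := add_le_add h1.le (norm_pd_le _ _)
      _ ≤ del * s ^ D + del * s ^ D := by
          have h3 : enm x ^ D ≤ s ^ D := pow_le_pow_left₀ (enm_nonneg x) hle D
          have h4 : ‖g - g'‖ * enm x ^ D ≤ del * s ^ D :=
            mul_le_mul hgg.le h3 (pow_nonneg (enm_nonneg x) D) hdel.le
          linarith
      _ = 2 * del * s ^ D := by ring
  have h3 : ‖pd g' 0 x‖ ^ 2 ≤ 4 * del ^ 2 * Sd d z ^ D := by
    calc ‖pd g' 0 x‖ ^ 2 ≤ (2 * del * s ^ D) ^ 2 := pow_le_pow_left₀ (norm_nonneg _) h2 2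
      _ = 4 * del ^ 2 * (s ^ 2) ^ D := by ring
      _ = 4 * del ^ 2 * Sd d z ^ D := by rw [hs2]
  have h4 : ‖pd g' 0 x‖ ^ 2 / Sd d z ^ D ≤ 4 * del ^ 2 := by
    rw [div_le_iff₀ (by positivity)]
    exact h3
  unfold wt
  refine hp.trans (pow_le_pow_left₀ ?_ (by linarith) p)
  nlinarith

private theorem TEqui_far_meas {n : ℕ} {A : Type} (L : ℝ) (j : A) :
    MeasurableSet {Z : A → Pt n | ∃ i, L < |Real.log ‖Z j i‖|} := by
  have : {Z : A → Pt n | ∃ i, L < |Real.log ‖Z j i‖|} =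
      ⋃ i, {Z : A → Pt n | L < |Real.log ‖Z j i‖|} := by
    ext Z; simp
  rw [this]
  refine MeasurableSet.iUnion fun i => measurableSet_lt measurable_const ?_
  have h1 : Measurable (fun Z : A → Pt n => Z j i) :=
    (measurable_pi_apply i).comp (measurable_pi_apply j)
  exact continuous_abs.measurable.comp (Real.measurable_log.comp h1.norm)

private theorem TEqui_cntF_meas {n : ℕ} {A : Type} [Fintype A] (L : ℝ) :
    Measurable (fun Z : A → Pt n => cntF L Z) := by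
  classical
  have h1 : (fun Z : A → Pt n => cntF L Z) =
      fun Z => ∑ j, ({Z : A → Pt n | ∃ i, L < |Real.log ‖Z j i‖|}).indicator (fun _ => 1) Z := by
    funext Z
    unfold cntF
    rw [Finset.card_filter]
    refine Finset.sum_congr rfl fun j _ => ?_
    simp [Set.indicator_apply]
  rw [h1]
  exact Finset.measurable_fun_sum _ fun j _ => measurable_const.indicator (TEqui_far_meas L j)

private theorem TEqui_open {n : ℕ} {A B : Type} [Fintype A] [Fintype B]
    (d : B → Fin n → ℕ) (sel : Fin (n + 1) → B) (D : ℕ) (del : ℝ) (e0 : ℕ) :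
    IsOpen {Z : A → Pt n | ∃ g : V (n + 1) D, ‖g‖ = 1 ∧ e0 < cntT d sel g del Z} := by
  classical
  rw [isOpen_iff_mem_nhds]
  rintro X ⟨g, hg, hX⟩
  have hopen : IsOpen {Y : A → Pt n | ∀ j ∈ Finset.univ.filter
      (fun j => ‖pd g 0 (fun i => mon (d (sel i)) (X j))‖ ^ 2 < del ^ 2 * Sd d (X j) ^ D),
      ‖pd g 0 (fun i => mon (d (sel i)) (Y j))‖ ^ 2 < del ^ 2 * Sd d (Y j) ^ D} := by
    have h1 : {Y : A → Pt n | ∀ j ∈ Finset.univ.filter
      (fun j => ‖pd g 0 (fun i => mon (d (sel i)) (X j))‖ ^ 2 < del ^ 2 * Sd d (X j) ^ D),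
      ‖pd g 0 (fun i => mon (d (sel i)) (Y j))‖ ^ 2 < del ^ 2 * Sd d (Y j) ^ D} =
      ⋂ j ∈ Finset.univ.filter
      (fun j => ‖pd g 0 (fun i => mon (d (sel i)) (X j))‖ ^ 2 < del ^ 2 * Sd d (X j) ^ D),
      {Y : A → Pt n |
        ‖pd g 0 (fun i => mon (d (sel i)) (Y j))‖ ^ 2 < del ^ 2 * Sd d (Y j) ^ D} := by
      ext Y
      simp
    rw [h1]
    refine isOpen_biInter_finset fun j _ => ?_
    refine isOpen_lt ?_ ?_
    · exact ((TEqui_sec_cont d sel g).comp (continuous_apply j)).norm.pow 2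
    · exact continuous_const.mul (((TEqui_Sd_cont d).comp (continuous_apply j)).pow D)
  refine Filter.mem_of_superset (hopen.mem_nhds ?_) ?_
  · intro j hj
    exact (Finset.mem_filter.1 hj).2
  · intro Y hY
    refine ⟨g, hg, hX.trans_le ?_⟩
    unfold cntT
    refine Finset.card_le_card fun j hj => ?_
    rw [Finset.mem_filter]
    refine ⟨Finset.mem_univ _, hY j ?_⟩
    rw [Finset.mem_filter] at hj ⊢
    exact hj

theorem measurableSet_BadT {n : ℕ} {A B : Type} [Fintype A] [DecidableEq A] [Fintype B]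
    (d : B → Fin n → ℕ) (sel : Fin (n + 1) → B) (D : ℕ) (L del : ℝ) (e0 : ℕ) :
    MeasurableSet (BadT (A := A) d sel D L del e0) := by
  have h1 : BadT (A := A) d sel D L del e0 =
      {Z : A → Pt n | ∃ g : V (n + 1) D, ‖g‖ = 1 ∧ e0 < cntT d sel g del Z} ∪
      {Z : A → Pt n | e0 < cntF L Z} := rfl
  rw [h1]
  exact (TEqui_open d sel D del e0).measurableSet.union
    (measurableSet_lt measurable_const (TEqui_cntF_meas L))

/-- Markov inequality for the number of far points -/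
private theorem TEqui_markov {n : ℕ} {A : Type} [Fintype A] [Nonempty A]
    (r : (A → Pt n) → ℝ) (hr0 : ∀ Z, 0 ≤ r Z) (hri : Integrable r) (L eta : ℝ) (heta : 0 < eta)
    (htail : ∀ j : A, ∫ Z in {Z : A → Pt n | ∃ i, L < |Real.log ‖Z j i‖|}, r Z ≤
      eta / 8 * ∫ Z, r Z) (e0 : ℕ) (he0 : eta * Fintype.card A ≤ (e0 : ℝ) + 1) :
    ∫ Z in {Z : A → Pt n | e0 < cntF L Z}, r Z ≤ 1 / 8 * ∫ Z, r Z := by
  classical
  set N : ℝ := (Fintype.card A : ℝ) with hN
  have hNpos : 0 < N := by rw [hN]; exact_mod_cast Fintype.card_pos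
  have hZ0 : 0 ≤ ∫ Z, r Z := integral_nonneg hr0
  have hmF : MeasurableSet {Z : A → Pt n | e0 < cntF L Z} :=
    measurableSet_lt measurable_const (TEqui_cntF_meas L)
  have h1 : ∀ Z, ({Z : A → Pt n | e0 < cntF L Z}).indicator (fun Z => ((e0 : ℝ) + 1) * r Z) Z ≤
      ∑ j, ({Z : A → Pt n | ∃ i, L < |Real.log ‖Z j i‖|}).indicator r Z := by
    intro Z
    have h2 : ∑ j, ({Z : A → Pt n | ∃ i, L < |Real.log ‖Z j i‖|}).indicator r Z =
        (cntF L Z : ℝ) * r Z := by
      unfold cntF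
      rw [Finset.card_filter]
      push_cast
      rw [Finset.sum_mul]
      refine Finset.sum_congr rfl fun j _ => ?_
      by_cases h : ∃ i, L < |Real.log ‖Z j i‖|
      · simp [Set.indicator_apply, h]
      · simp [Set.indicator_apply, h]
    rw [h2]
    by_cases hZ : Z ∈ {Z : A → Pt n | e0 < cntF L Z}
    · rw [Set.indicator_of_mem hZ]
      refine mul_le_mul_of_nonneg_right ?_ (hr0 Z)
      have h3 : e0 + 1 ≤ cntF L Z := hZ
      exact_mod_cast h3
    · rw [Set.indicator_of_notMem hZ]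
      exact mul_nonneg (Nat.cast_nonneg _) (hr0 Z)
  have h2 : ∫ Z in {Z : A → Pt n | e0 < cntF L Z}, ((e0 : ℝ) + 1) * r Z ≤
      ∑ j : A, ∫ Z in {Z : A → Pt n | ∃ i, L < |Real.log ‖Z j i‖|}, r Z := by
    rw [← integral_indicator hmF]
    have h3 : ∑ j : A, ∫ Z in {Z : A → Pt n | ∃ i, L < |Real.log ‖Z j i‖|}, r Z =
        ∫ Z, ∑ j : A, ({Z : A → Pt n | ∃ i, L < |Real.log ‖Z j i‖|}).indicator r Z := by
      rw [integral_finsetSum _ (fun j _ => hri.indicator (TEqui_far_meas L j))]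
      exact Finset.sum_congr rfl fun j _ => (integral_indicator (TEqui_far_meas L j)).symm
    rw [h3]
    exact integral_mono ((hri.const_mul _).indicator hmF)
      (integrable_finsetSum _ fun j _ => hri.indicator (TEqui_far_meas L j)) h1
  have h3 : ∑ j : A, ∫ Z in {Z : A → Pt n | ∃ i, L < |Real.log ‖Z j i‖|}, r Z ≤
      N * (eta / 8 * ∫ Z, r Z) := by
    calc ∑ j : A, ∫ Z in {Z : A → Pt n | ∃ i, L < |Real.log ‖Z j i‖|}, r Z
        ≤ ∑ _j : A, eta / 8 * ∫ Z, r Z := Finset.sum_le_sum fun j _ => htail j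
      _ = N * (eta / 8 * ∫ Z, r Z) := by
          rw [Finset.sum_const, Finset.card_univ, nsmul_eq_mul, ← hN]
  rw [integral_const_mul] at h2
  set F := ∫ Z in {Z : A → Pt n | e0 < cntF L Z}, r Z with hF
  have hF0 : 0 ≤ F := setIntegral_nonneg hmF fun Z _ => hr0 Z
  have h4 : eta * N * F ≤ eta * N * (1 / 8 * ∫ Z, r Z) := by
    calc eta * N * F ≤ ((e0 : ℝ) + 1) * F := mul_le_mul_of_nonneg_right he0 hF0
      _ ≤ N * (eta / 8 * ∫ Z, r Z) := h2.trans h3
      _ = eta * N * (1 / 8 * ∫ Z, r Z) := by ring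
  exact le_of_mul_le_mul_left h4 (by positivity)

theorem equi_T (n : ℕ) {B : Type} [Fintype B] (d : B → Fin n → ℕ) (h0d : ∃ b, d b = 0)
    (sel : Fin (n + 1) → B) (hsel : Function.Injective sel) (D : ℕ)
    (hinj : Function.Injective (fun a : Ex (n + 1) D => fun i : Fin n =>
      ∑ s, a.1 s * d (sel s) i))
    (r C1 kap eta : ℝ) (hr : 0 < r) (hkap : 0 < kap) (heta : 0 < eta) :
    ∃ L : ℝ, 0 < L ∧ ∃ del : ℝ, 0 < del ∧ ∃ N0 : ℕ,
    ∀ (A : Type) [Fintype A] [DecidableEq A] [Nonempty A] (e : A → Fin n → ℕ) (t ep : ℝ),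
      (∃ a, e a = 0) → 0 ≤ t → 0 < ep → Coer e d t r kap → (∀ i, t * bet e i ≤ C1) →
      ∀ _RD : RayData e d t r, N0 ≤ Fintype.card A → ∀ e0 : ℕ,
      eta * Fintype.card A ≤ (e0 : ℝ) + 1 →
      ∫ Z in BadT (A := A) d sel D L del e0, rho e d t r ep 0 0 Z ≤
        (1 / 2) * ∫ Z, rho e d t r ep 0 0 Z := by
  classical
  obtain ⟨C, hC, htail⟩ := tail n d h0d r C1 kap hr hkap
  obtain ⟨p, hp⟩ := mean_w n d h0d sel hsel D hinj r C1 kap (eta / 4) hr hkap (by positivity)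
  obtain ⟨del, hdel, hdel2, hdelp⟩ := Equi_del p
  obtain ⟨G, hG1, hG2⟩ := Equi_net (n + 1) D del hdel
  set L : ℝ := |Real.log (8 * C / eta)| / kap + 1 with hL
  have hLpos : 0 < L := by positivity
  have hLC : C * Real.exp (-(kap * L)) ≤ eta / 8 := by
    have h1 : Real.log (8 * C / eta) ≤ kap * L := by
      rw [hL, mul_add, mul_div_cancel₀ _ hkap.ne']
      have := le_abs_self (Real.log (8 * C / eta))
      linarith
    have h2 : Real.exp (-(kap * L)) ≤ (8 * C / eta)⁻¹ := by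
      rw [← Real.exp_log (show 0 < (8 * C / eta)⁻¹ by positivity), Real.log_inv]
      exact Real.exp_le_exp.2 (by linarith)
    calc C * Real.exp (-(kap * L)) ≤ C * (8 * C / eta)⁻¹ := mul_le_mul_of_nonneg_left h2 hC.le
      _ = eta / 8 := by field_simp
  refine ⟨L, hLpos, del, hdel,
    ⌈64 * (G.card : ℝ) * (p : ℝ) ^ 2 * (D : ℝ) ^ 2 / (r * eta ^ 2)⌉₊, ?_⟩
  intro A _ _ _ e t ep h0e ht hep hco hbe RD hN0 e0 he0
  set N : ℝ := (Fintype.card A : ℝ) with hN
  have hNpos : 0 < N := by rw [hN]; exact_mod_cast Fintype.card_pos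
  have hN0' : 64 * (G.card : ℝ) * (p : ℝ) ^ 2 * (D : ℝ) ^ 2 / (r * eta ^ 2) ≤ N := by
    refine (Nat.le_ceil _).trans ?_
    rw [hN]
    exact_mod_cast hN0
  set rh : (A → Pt n) → ℝ := fun Z => rho e d t r ep 0 0 Z with hrh
  have hri : Integrable rh := rho_integrable e d h0d t r ep 0 kap ht hr hep le_rfl hkap hco 0
  have hZ : 0 < ∫ Z, rh Z := rho_integral_pos e d h0d t r ep 0 kap ht hr hep le_rfl hkap hco 0
  have hr0 : ∀ Z, 0 ≤ rh Z := fun Z => rho_nonneg e d t r ep 0 hep.le le_rfl 0 Z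
  let S : V (n + 1) D → (A → Pt n) → ℝ := fun g Z => ∑ j, wt d sel p g (Z j)
  have hScont : ∀ g, Continuous (S g) := by
    intro g
    refine continuous_finsetSum _ fun j _ => ?_
    exact (TEqui_wt_cont d h0d sel p g).comp (continuous_apply j)
  have hSb : ∀ g ∈ G, ∀ Z, 0 ≤ S g Z ∧ S g Z ≤ N := by
    intro g hg Z
    constructor
    · exact Finset.sum_nonneg fun j _ => (TEqui_wt_mem d h0d sel hsel p g (hG1 g hg) (Z j)).1
    · calc S g Z ≤ ∑ _j : A, (1 : ℝ) :=
            Finset.sum_le_sum fun j _ => (TEqui_wt_mem d h0d sel hsel p g (hG1 g hg) (Z j)).2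
        _ = N := by simp [hN]
  have hwi : ∀ g ∈ G, ∀ j, Integrable (fun Z : A → Pt n => wt d sel p g (Z j) * rh Z) := by
    intro g hg j
    refine hri.bdd_mul (c := 1) ?_ ?_
    · exact ((TEqui_wt_cont d h0d sel p g).comp (continuous_apply j)).aestronglyMeasurable
    · refine Filter.Eventually.of_forall fun Z => ?_
      have := TEqui_wt_mem d h0d sel hsel p g (hG1 g hg) (Z j)
      rw [Real.norm_eq_abs, abs_of_nonneg this.1]
      exact this.2
  have hSr : ∀ g ∈ G, Integrable (fun Z => S g Z * rh Z) := by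
    intro g hg
    refine hri.bdd_mul (c := N) ?_ ?_
    · exact (hScont g).aestronglyMeasurable
    · refine Filter.Eventually.of_forall fun Z => ?_
      have := hSb g hg Z
      rw [Real.norm_eq_abs, abs_of_nonneg this.1]
      exact this.2
  have hSSr : ∀ g ∈ G, Integrable (fun Z => S g Z ^ 2 * rh Z) := by
    intro g hg
    refine hri.bdd_mul (c := N ^ 2) ?_ ?_
    · exact ((hScont g).pow 2).aestronglyMeasurable
    · refine Filter.Eventually.of_forall fun Z => ?_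
      have := hSb g hg Z
      rw [Real.norm_eq_abs, abs_of_nonneg (sq_nonneg _)]
      exact pow_le_pow_left₀ this.1 this.2 2
  set Q : ℝ := N * (p : ℝ) ^ 2 * (D : ℝ) ^ 2 / r with hQ
  have hmeasE : ∀ g, MeasurableSet {Z | eta * N / 2 ≤ S g Z} := fun g =>
    (isClosed_le continuous_const (hScont g)).measurableSet
  have hcheb : ∀ g ∈ G, (eta * N / 4) ^ 2 * ∫ Z in {Z | eta * N / 2 ≤ S g Z}, rh Z ≤
      Q * ∫ Z, rh Z := by
    intro g hg
    refine Equi_cheb volume rh (S g) hr0 hri hZ (hSr g hg) (hSSr g hg) Q (eta * N / 4)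
      (eta * N / 4) (by positivity) ?_ ?_ _ (hmeasE g) ?_
    · exact var_w e d h0e h0d t r ep kap ht hr hep hkap hco RD sel hsel p g (hG1 g hg)
    · have h1 : ∫ Z, S g Z * rh Z = ∑ j, ∫ Z, wt d sel p g (Z j) * rh Z := by
        rw [← integral_finsetSum _ (fun j _ => hwi g hg j)]
        refine integral_congr_ae (Filter.Eventually.of_forall fun Z => ?_)
        simp only [S, Finset.sum_mul]
      rw [h1]
      calc ∑ j, ∫ Z, wt d sel p g (Z j) * rh Z ≤ ∑ _j : A, (eta / 4 * ∫ Z, rh Z) :=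
            Finset.sum_le_sum fun j _ => hp A e t ep h0e ht hep hco hbe j g (hG1 g hg)
        _ = eta * N / 4 * ∫ Z, rh Z := by
            rw [Finset.sum_const, Finset.card_univ, nsmul_eq_mul, ← hN]
            ring
    · intro Z hZ'
      have : eta * N / 2 ≤ S g Z := hZ'
      linarith
  have hmF : MeasurableSet {Z : A → Pt n | e0 < cntF L Z} :=
    measurableSet_lt measurable_const (TEqui_cntF_meas L)
  have hfar : ∫ Z in {Z : A → Pt n | e0 < cntF L Z}, rh Z ≤ 1 / 8 * ∫ Z, rh Z := by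
    refine TEqui_markov rh hr0 hri L eta heta ?_ e0 he0
    intro j
    refine (htail A e t ep h0e ht hep hco hbe j L hLpos.le).trans ?_
    exact mul_le_mul_of_nonneg_right hLC hZ.le
  have hsub : BadT (A := A) d sel D L del e0 ⊆
      (⋃ g ∈ G, {Z | eta * N / 2 ≤ S g Z}) ∪ {Z : A → Pt n | e0 < cntF L Z} := by
    rintro Z (⟨g, hg, hgZ⟩ | hgZ)
    · left
      obtain ⟨g', hg', hgg⟩ := hG2 g hg
      simp only [Set.mem_iUnion]
      refine ⟨g', hg', ?_⟩
      change eta * N / 2 ≤ S g' Z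
      unfold cntT at hgZ
      set J := Finset.univ.filter fun j =>
        ‖pd g 0 (fun i => mon (d (sel i)) (Z j))‖ ^ 2 < del ^ 2 * Sd d (Z j) ^ D with hJ
      have h1 : (J.card : ℝ) * (1 / 2) ≤ S g' Z := by
        calc (J.card : ℝ) * (1 / 2) = ∑ _j ∈ J, (1 / 2 : ℝ) := by
              rw [Finset.sum_const, nsmul_eq_mul]
          _ ≤ ∑ j ∈ J, wt d sel p g' (Z j) := Finset.sum_le_sum fun j hj =>
              TEqui_wt_lower d h0d sel hsel p del hdel hdel2 hdelp g g' hgg (Z j)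
                (Finset.mem_filter.1 hj).2
          _ ≤ S g' Z := Finset.sum_le_sum_of_subset_of_nonneg (Finset.subset_univ _)
              fun j _ _ => (TEqui_wt_mem d h0d sel hsel p g' (hG1 g' hg') (Z j)).1
      have h2 : eta * N ≤ J.card := by
        have h3 : e0 + 1 ≤ J.card := hgZ
        have h5 : ((e0 + 1 : ℕ) : ℝ) ≤ J.card := by exact_mod_cast h3
        push_cast at h5
        linarith
      linarith
    · right
      exact hgZ
  have hunion : ∫ Z in BadT (A := A) d sel D L del e0, rh Z ≤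
      (∑ g ∈ G, ∫ Z in {Z | eta * N / 2 ≤ S g Z}, rh Z) +
        ∫ Z in {Z : A → Pt n | e0 < cntF L Z}, rh Z := by
    have h1 : ∀ Z, (BadT (A := A) d sel D L del e0).indicator rh Z ≤
        (∑ g ∈ G, ({Z | eta * N / 2 ≤ S g Z}).indicator rh Z) +
          ({Z : A → Pt n | e0 < cntF L Z}).indicator rh Z := by
      intro Z
      have hpos1 : 0 ≤ ∑ g ∈ G, ({Z | eta * N / 2 ≤ S g Z}).indicator rh Z :=
        Finset.sum_nonneg fun g _ => Set.indicator_nonneg (fun Z _ => hr0 Z) Z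
      have hpos2 : 0 ≤ ({Z : A → Pt n | e0 < cntF L Z}).indicator rh Z :=
        Set.indicator_nonneg (fun Z _ => hr0 Z) Z
      by_cases hZB : Z ∈ BadT (A := A) d sel D L del e0
      · rw [Set.indicator_of_mem hZB]
        rcases hsub hZB with h2 | h2
        · simp only [Set.mem_iUnion] at h2
          obtain ⟨g, hg, hgZ⟩ := h2
          have h3 : rh Z ≤ ∑ g ∈ G, ({Z | eta * N / 2 ≤ S g Z}).indicator rh Z := by
            calc rh Z = ({Z | eta * N / 2 ≤ S g Z}).indicator rh Z := by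
                  rw [Set.indicator_of_mem hgZ]
              _ ≤ ∑ g ∈ G, ({Z | eta * N / 2 ≤ S g Z}).indicator rh Z :=
                  Finset.single_le_sum
                    (f := fun g => ({Z | eta * N / 2 ≤ S g Z}).indicator rh Z)
                    (fun g _ => Set.indicator_nonneg (fun Z _ => hr0 Z) Z) hg
          linarith
        · rw [Set.indicator_of_mem h2]
          linarith
      · rw [Set.indicator_of_notMem hZB]
        linarith
    rw [← integral_indicator (measurableSet_BadT d sel D L del e0)]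
    have h3 : ∑ g ∈ G, ∫ Z in {Z | eta * N / 2 ≤ S g Z}, rh Z =
        ∫ Z, ∑ g ∈ G, ({Z | eta * N / 2 ≤ S g Z}).indicator rh Z := by
      rw [integral_finsetSum _ (fun g _ => hri.indicator (hmeasE g))]
      exact Finset.sum_congr rfl fun g _ => (integral_indicator (hmeasE g)).symm
    have hiG : Integrable (fun Z => ∑ g ∈ G, ({Z | eta * N / 2 ≤ S g Z}).indicator rh Z) :=
      integrable_finsetSum _ fun g _ => hri.indicator (hmeasE g)
    have hiF : Integrable (({Z : A → Pt n | e0 < cntF L Z}).indicator rh) := hri.indicator hmF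
    rw [h3, ← integral_indicator hmF, ← integral_add hiG hiF]
    exact integral_mono (hri.indicator (measurableSet_BadT d sel D L del e0)) (hiG.add hiF) h1
  have hfin : ∑ g ∈ G, ∫ Z in {Z | eta * N / 2 ≤ S g Z}, rh Z ≤
      (G.card : ℝ) * (Q * (16 / (eta * N) ^ 2) * ∫ Z, rh Z) := by
    rw [← nsmul_eq_mul]
    refine Finset.sum_le_card_nsmul _ _ _ fun g hg => ?_
    have h1 := hcheb g hg
    have h2 : (eta * N / 4) ^ 2 * (Q * (16 / (eta * N) ^ 2) * ∫ Z, rh Z) = Q * ∫ Z, rh Z := by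
      field_simp
      ring
    refine le_of_mul_le_mul_left (h1.trans (le_of_eq h2.symm)) (by positivity)
  have h1 : (G.card : ℝ) * (Q * (16 / (eta * N) ^ 2)) ≤ 1 / 4 := by
    have h3 : (G.card : ℝ) * (Q * (16 / (eta * N) ^ 2)) =
        (1 / 4) * ((64 * (G.card : ℝ) * (p : ℝ) ^ 2 * (D : ℝ) ^ 2 / (r * eta ^ 2)) / N) := by
      rw [hQ]
      field_simp
      ring
    rw [h3]
    have h4 : (64 * (G.card : ℝ) * (p : ℝ) ^ 2 * (D : ℝ) ^ 2 / (r * eta ^ 2)) / N ≤ 1 := by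
      rw [div_le_one hNpos]
      exact hN0'
    linarith
  change ∫ Z in BadT (A := A) d sel D L del e0, rh Z ≤ (1 / 2) * ∫ Z, rh Z
  calc ∫ Z in BadT (A := A) d sel D L del e0, rh Z
      ≤ (∑ g ∈ G, ∫ Z in {Z | eta * N / 2 ≤ S g Z}, rh Z) +
        ∫ Z in {Z : A → Pt n | e0 < cntF L Z}, rh Z := hunion
    _ ≤ (G.card : ℝ) * (Q * (16 / (eta * N) ^ 2) * ∫ Z, rh Z) + 1 / 8 * ∫ Z, rh Z :=
        add_le_add hfin hfar
    _ = (G.card : ℝ) * (Q * (16 / (eta * N) ^ 2)) * (∫ Z, rh Z) + 1 / 8 * (∫ Z, rh Z) := by ring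
    _ ≤ 1 / 4 * (∫ Z, rh Z) + 1 / 8 * (∫ Z, rh Z) := by
        have := mul_le_mul_of_nonneg_right h1 hZ.le
        linarith
    _ ≤ (1 / 2) * ∫ Z, rh Z := by linarith

end GTor
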