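/- piece FJ: finiteness of the integral in the chart s0 -/
import Pool.Agent.Lib_MP_e0d435_ag_T.FFin
import Pool.Agent.Lib_MP_e0d435_ag_T.TEqui

open Finset MeasureTheory Complex
open scoped ENNReal ContDiff Real

namespace GTor
open GPn

variable {n : ℕ}

private theorem FMainI_ae {A : Type} [Fintype A] : ∀ᵐ Z : A → Pt n, ∀ j i, Z j i ≠ 0 := by
  rw [ae_all_iff]
  intro j
  rw [ae_all_iff]
  intro i
  have h0 : ∀ᵐ w : ℂ, w ≠ 0 := by
    rw [ae_iff]
    simp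
  have h1 : ∀ᵐ x : Pt n, x i ≠ 0 :=
    (Measure.quasiMeasurePreserving_eval (fun _ : Fin n => (volume : Measure ℂ)) i).ae h0
  exact (Measure.quasiMeasurePreserving_eval (fun _ : A => (volume : Measure (Pt n))) j).ae h1

private theorem FMainI_sc_zero (z : Pt n) : sc (0 : Fin n → ℝ) z = z := by
  funext i
  simp [sc]

private theorem FMainI_Pm_pos {A : Type} [Fintype A] [DecidableEq A] (e : A → Fin n → ℕ)
    (Z : A → Pt n) (hZ : ∀ j i, Z j i ≠ 0) : 0 < Pm e Z := by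
  unfold Pm
  refine Finset.sum_pos (fun p _ => Finset.prod_pos fun j _ => ?_) ⟨1, Finset.mem_univ _⟩
  have h1 : mon (e (p j)) (Z j) ≠ 0 := by
    unfold mon
    exact Finset.prod_ne_zero_iff.2 fun i _ => pow_ne_zero _ (hZ j i)
  have := norm_pos_iff.2 h1
  positivity

/-- limit of the regularised integrals -/
private theorem FMainI_limit {A B : Type} [Fintype A] [DecidableEq A] [Nonempty A] [Fintype B]
    (e : A → Fin n → ℕ) (d : B → Fin n → ℕ) (h0d : ∃ b, d b = 0) (t r kap : ℝ) (ht : 0 ≤ t)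
    (hr : 0 < r) (hkap : 0 < kap) (hco : Coer e d t r kap) (Bad : Set (A → Pt n))
    (hBad : MeasurableSet Bad)
    (hb : ∀ ep : ℝ, 0 < ep → ∫ Z in Bad, rho e d t r ep 0 0 Z ≤
      (1 / 2) * ∫ Z, rho e d t r ep 0 0 Z)
    (H : (A → Pt n) → ℝ≥0∞)
    (hH : ∀ Z, H Z = (ENNReal.ofReal ‖Dt e Z‖) ^ (-(2 * t)) *
      ∏ j, (ENNReal.ofReal (Sd d (Z j))) ^ (-r))
    (K : ℝ≥0∞) (hK : ∫⁻ Z in Badᶜ, H Z ≤ K) : ∫⁻ Z, H Z ≤ 2 * K := by
  have hSd : ∀ z : Pt n, 0 < Sd d z := by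
    intro z
    obtain ⟨b, hb⟩ := h0d
    unfold Sd
    refine Finset.sum_pos' (fun b _ => by positivity) ⟨b, Finset.mem_univ _, ?_⟩
    simp [hb, mon]
  -- formula for the regularised density
  have hform : ∀ ep : ℝ, 0 < ep → ∀ Z : A → Pt n, (∀ j i, Z j i ≠ 0) →
      ENNReal.ofReal (rho e d t r ep 0 0 Z) =
        (ENNReal.ofReal (‖Dt e Z‖ ^ 2 + ep * Pm e Z)) ^ (-t) *
          ∏ j, (ENNReal.ofReal (Sd d (Z j))) ^ (-r) := by
    intro ep hep Z hZ
    have hP := FMainI_Pm_pos e Z hZ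
    have hpos : 0 < ‖Dt e Z‖ ^ 2 + ep * Pm e Z := by positivity
    unfold rho Hh
    simp only [Pi.zero_apply, FMainI_sc_zero, zero_mul, add_zero]
    rw [ENNReal.ofReal_mul (by positivity), ← ENNReal.ofReal_rpow_of_pos hpos,
      ENNReal.ofReal_prod_of_nonneg (fun j _ => Real.rpow_nonneg (hSd (Z j)).le _)]
    congr 1
    refine Finset.prod_congr rfl fun j _ => ?_
    rw [ENNReal.ofReal_rpow_of_pos (hSd (Z j))]
  have hsq : ∀ Z : A → Pt n, (ENNReal.ofReal ‖Dt e Z‖) ^ (-(2 * t)) =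
      (ENNReal.ofReal (‖Dt e Z‖ ^ 2)) ^ (-t) := by
    intro Z
    rw [ENNReal.ofReal_pow (norm_nonneg _), ← ENNReal.rpow_natCast, ← ENNReal.rpow_mul]
    congr 1
    push_cast
    ring
  have hle : ∀ ep : ℝ, 0 < ep → ∀ Z : A → Pt n, (∀ j i, Z j i ≠ 0) →
      ENNReal.ofReal (rho e d t r ep 0 0 Z) ≤ H Z := by
    intro ep hep Z hZ
    rw [hform ep hep Z hZ, hH, hsq]
    refine mul_le_mul_left ?_ _
    rw [ENNReal.rpow_neg, ENNReal.rpow_neg, ENNReal.inv_le_inv]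
    refine ENNReal.rpow_le_rpow (ENNReal.ofReal_le_ofReal ?_) ht
    have := FMainI_Pm_pos e Z hZ
    have : 0 ≤ ep * Pm e Z := by positivity
    linarith
  -- bound for every ep
  have hbound : ∀ ep : ℝ, 0 < ep → ∫⁻ Z, ENNReal.ofReal (rho e d t r ep 0 0 Z) ≤ 2 * K := by
    intro ep hep
    have hint : Integrable (rho e d t r ep 0 0) :=
      rho_integrable e d h0d t r ep 0 kap ht hr hep le_rfl hkap hco 0
    have hnn : ∀ Z, 0 ≤ rho e d t r ep 0 0 Z := rho_nonneg e d t r ep 0 hep.le le_rfl 0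
    have h1 : ∫ Z, rho e d t r ep 0 0 Z ≤ 2 * ∫ Z in Badᶜ, rho e d t r ep 0 0 Z := by
      have h2 := integral_add_compl hBad hint
      have h3 := hb ep hep
      linarith
    have h2 : ∫⁻ Z, ENNReal.ofReal (rho e d t r ep 0 0 Z) ≤
        2 * ∫⁻ Z in Badᶜ, ENNReal.ofReal (rho e d t r ep 0 0 Z) := by
      rw [← ofReal_integral_eq_lintegral_ofReal hint (Filter.Eventually.of_forall hnn),
        ← ofReal_integral_eq_lintegral_ofReal hint.integrableOn (Filter.Eventually.of_forall hnn)]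
      have h4 : (2 : ℝ≥0∞) = ENNReal.ofReal 2 := by simp
      rw [h4, ← ENNReal.ofReal_mul (by norm_num)]
      exact ENNReal.ofReal_le_ofReal h1
    refine h2.trans (mul_le_mul_right (le_trans ?_ hK) _)
    refine lintegral_mono_ae ?_
    exact ae_restrict_of_ae (by
      filter_upwards [FMainI_ae (n := n) (A := A)] with Z hZ
      exact hle ep hep Z hZ)
  -- Fatou
  set f : ℕ → (A → Pt n) → ℝ≥0∞ := fun j Z =>
    ENNReal.ofReal (rho e d t r (1 / ((j : ℝ) + 1)) 0 0 Z) with hf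
  have hfm : ∀ j, Measurable (f j) := fun j =>
    (measurable_rho e d t r (1 / ((j : ℝ) + 1)) 0 0).ennreal_ofReal
  have hlim : ∀ᵐ Z : A → Pt n, H Z = Filter.liminf (fun j => f j Z) Filter.atTop := by
    filter_upwards [FMainI_ae (n := n) (A := A)] with Z hZ
    refine (Filter.Tendsto.liminf_eq ?_).symm
    have h1 : (fun j : ℕ => f j Z) = fun j : ℕ =>
        (ENNReal.ofReal (‖Dt e Z‖ ^ 2 + 1 / ((j : ℝ) + 1) * Pm e Z)) ^ (-t) *
          ∏ j, (ENNReal.ofReal (Sd d (Z j))) ^ (-r) := by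
      funext j
      exact hform _ (by positivity) Z hZ
    rw [h1, hH, hsq]
    refine ENNReal.Tendsto.mul_const ?_ (Or.inr ?_)
    · have h2 : Filter.Tendsto (fun j : ℕ => ‖Dt e Z‖ ^ 2 + 1 / ((j : ℝ) + 1) * Pm e Z)
          Filter.atTop (nhds (‖Dt e Z‖ ^ 2)) := by
        have h3 := (tendsto_one_div_add_atTop_nhds_zero_nat (𝕜 := ℝ)).mul_const (Pm e Z)
        have h4 := h3.const_add (‖Dt e Z‖ ^ 2)
        simpa using h4
      exact (ENNReal.continuous_rpow_const.tendsto _).comp (ENNReal.tendsto_ofReal h2)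
    · refine ENNReal.prod_ne_top fun j _ => ?_
      rw [ENNReal.ofReal_rpow_of_pos (hSd (Z j))]
      exact ENNReal.ofReal_ne_top
  calc ∫⁻ Z, H Z = ∫⁻ Z, Filter.liminf (fun j => f j Z) Filter.atTop := lintegral_congr_ae hlim
    _ ≤ Filter.liminf (fun j => ∫⁻ Z, f j Z) Filter.atTop := lintegral_liminf_le hfm
    _ ≤ Filter.liminf (fun _ : ℕ => 2 * K) Filter.atTop := by
        refine Filter.liminf_le_liminf (Filter.Eventually.of_forall fun j => ?_)
        exact hbound _ (by positivity)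
    _ = 2 * K := Filter.liminf_const _

theorem master_finite (hn : 1 ≤ n) (F : FanoPolytope n) (t rho0 : ℝ) (ht : 0 ≤ t) (ht1 : t < 1)
    (hrho : 0 < rho0) : ∃ m0 : ℕ, 1 ≤ m0 ∧ Car F m0 ∧ ∃ k0 : ℕ, ∀ k : ℕ, k0 ≤ k → Car F k →
      (∀ v ∈ F.V, t * (1 + ∑ r, bk F k r * (v r : ℝ)) ≤ 1 - rho0) →
      ∫⁻ X : Sec F k → Pt n, Gm F k m0 t X * ∏ j, hd (X j) < ⊤ := by
  obtain ⟨m0, hm0, hcar, h⟩ := exists_index F
  obtain ⟨s0, hs0⟩ := Ch_nonempty F
  obtain ⟨D, E, k1, hD, hE, hG⟩ := goodM_finite hn F m0 hm0 hcar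
  obtain ⟨kap, hkap, hco⟩ := coer_inst F m0 hm0 hcar s0 hs0 rho0 hrho
  obtain ⟨C1, hC1⟩ := bet_bdd F s0 hs0
  have h0d := ex_zero F m0 hcar s0 hs0
  have hm0' : (0 : ℝ) < m0 := by exact_mod_cast hm0
  have hE' : (0 : ℝ) < E := by exact_mod_cast hE
  have hr : 0 < (1 - t) / m0 := div_pos (by linarith) hm0'
  obtain ⟨L, hL, del, hdel, N0, hequi⟩ := equi_T n (ex F m0 s0) h0d (selF F m0 h)
    (selF_injective F m0 h) D (selF_hinj F m0 h s0 hs0 D) ((1 - t) / m0) C1 kap (1 / E) hr hkap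
    (by positivity)
  obtain ⟨L', hL'⟩ := bad_compl_sub F m0 hm0 h s0 hs0 D L del hL hdel
  obtain ⟨v1, hv1, hcard⟩ := card_lower F
  refine ⟨m0, hm0, hcar, max (max 1 k1) (v1 * N0), ?_⟩
  intro k hk hcark hb
  have hk1 : 1 ≤ k := le_trans (le_trans (le_max_left _ _) (le_max_left _ _)) hk
  have hkk1 : k1 ≤ k := le_trans (le_trans (le_max_right _ _) (le_max_left _ _)) hk
  have hkN : v1 * N0 ≤ k := le_trans (le_max_right _ _) hk
  have hcN : N0 ≤ Fintype.card (Sec F k) := by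
    have h1 : N0 ≤ k / v1 := by
      rw [Nat.le_div_iff_mul_le (by omega)]
      rw [mul_comm]
      exact hkN
    have h2 : 2 * (k / v1) + 1 ≤ (2 * (k / v1) + 1) ^ n := Nat.le_self_pow (by omega) _
    have h3 := hcard k
    omega
  have hk0 : (0 : ℝ) < k := by exact_mod_cast hk1
  have ht' : 0 ≤ t / k := by positivity
  have hco' := hco t ht ht1 k hk1 hb
  obtain ⟨RD⟩ := ray_inst F m0 hm0 hcar s0 hs0 t ht ht1 k hk1
  have h0e := ex_zero F k hcark s0 hs0
  set e0 : ℕ := Fintype.card (Sec F k) / E with he0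
  have heta : 1 / (E : ℝ) * (Fintype.card (Sec F k) : ℝ) ≤ (e0 : ℝ) + 1 := by
    have h1 : Fintype.card (Sec F k) ≤ E * (e0 + 1) := by
      have h2 : E * e0 + Fintype.card (Sec F k) % E = Fintype.card (Sec F k) :=
        Nat.div_add_mod (Fintype.card (Sec F k)) E
      have h3 := Nat.mod_lt (Fintype.card (Sec F k)) hE
      rw [mul_add, mul_one]
      omega
    have h2 : (Fintype.card (Sec F k) : ℝ) ≤ E * ((e0 : ℝ) + 1) := by exact_mod_cast h1
    rw [div_mul_eq_mul_div, one_mul, div_le_iff₀ hE']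
    linarith
  have hbad : ∀ ep : ℝ, 0 < ep →
      ∫ Z in BadT (A := Sec F k) (ex F m0 s0) (selF F m0 h) D L del e0,
        rho (ex F k s0) (ex F m0 s0) (t / k) ((1 - t) / m0) ep 0 0 Z ≤
      (1 / 2) * ∫ Z, rho (ex F k s0) (ex F m0 s0) (t / k) ((1 - t) / m0) ep 0 0 Z :=
    fun ep hep => hequi (Sec F k) (ex F k s0) (t / k) ep h0e ht' hep hco'
      (fun i => hC1 t ht ht1 k hk1 i) RD hcN e0 heta
  obtain ⟨c, hc0, hct, hphi⟩ := phi_lintegral_pi (A := Sec F k) (n := n) (fun _ => s0)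
    (fun _ => hs0.2.1)
  have hHcGm : ∀ᵐ Z : Sec F k → Pt n, Hc F k m0 t (fun _ => s0) Z =
      Gm F k m0 t (fun j => phi s0 (Z j)) * ∏ j, hd (Z j) := by
    filter_upwards [FMainI_ae (n := n) (A := Sec F k)] with Z hZ
    exact Hc_eq F k m0 hk1 hm0 t (fun _ => s0) (fun _ => hs0) Z hZ
  have hHc : ∫⁻ Z, Hc F k m0 t (fun _ => s0) Z =
      c * ∫⁻ X : Sec F k → Pt n, Gm F k m0 t X * ∏ j, hd (X j) := by
    rw [lintegral_congr_ae hHcGm]
    exact hphi (Gm F k m0 t) (measurable_Gm F k m0 t)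
  set GM : Set (Sec F k → Pt n) := GoodM (A := Sec F k) D L' del e0 with hGM
  have hGMm : MeasurableSet GM := measurableSet_GoodM D L' del e0
  have hgood : ∫⁻ Z in (BadT (A := Sec F k) (ex F m0 s0) (selF F m0 h) D L del e0)ᶜ,
      Hc F k m0 t (fun _ => s0) Z ≤
      c * ∫⁻ X in GM, Gm F k m0 t X * ∏ j, hd (X j) := by
    have h1 : c * ∫⁻ X in GM, Gm F k m0 t X * ∏ j, hd (X j) =
        ∫⁻ Z : Sec F k → Pt n, GM.indicator (Gm F k m0 t) (fun j => phi s0 (Z j)) *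
          ∏ j, hd (Z j) := by
      rw [hphi (GM.indicator (Gm F k m0 t)) ((measurable_Gm F k m0 t).indicator hGMm),
        ← lintegral_indicator hGMm]
      congr 1
      refine lintegral_congr fun X => ?_
      by_cases hX : X ∈ GM
      · rw [Set.indicator_of_mem hX, Set.indicator_of_mem hX]
      · rw [Set.indicator_of_notMem hX, Set.indicator_of_notMem hX, zero_mul]
    rw [h1, ← lintegral_indicator (measurableSet_BadT _ _ _ _ _ _).compl]
    refine lintegral_mono_ae ?_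
    filter_upwards [FMainI_ae (n := n) (A := Sec F k), hHcGm] with Z hZ hZ2
    by_cases hB : Z ∈ (BadT (A := Sec F k) (ex F m0 s0) (selF F m0 h) D L del e0)ᶜ
    · rw [Set.indicator_of_mem hB, hZ2, Set.indicator_of_mem (hL' e0 Z hZ hB)]
    · rw [Set.indicator_of_notMem hB]
      exact bot_le
  have hfin : c * ∫⁻ X in GM, Gm F k m0 t X * ∏ j, hd (X j) < ⊤ :=
    ENNReal.mul_lt_top (lt_top_iff_ne_top.2 hct) (hG k hkk1 hcark L' del t hdel ht ht1)
  have hmain := FMainI_limit (ex F k s0) (ex F m0 s0) h0d (t / k) ((1 - t) / m0) kap ht' hr hkap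
    hco' _ (measurableSet_BadT (A := Sec F k) (ex F m0 s0) (selF F m0 h) D L del e0) hbad
    (Hc F k m0 t (fun _ => s0)) (fun Z => rfl) _ hgood
  have hlt : ∫⁻ Z, Hc F k m0 t (fun _ => s0) Z < ⊤ :=
    lt_of_le_of_lt hmain (ENNReal.mul_lt_top (by simp) hfin)
  rw [hHc] at hlt
  by_contra hcon
  rw [not_lt, top_le_iff] at hcon
  rw [hcon, ENNReal.mul_top hc0] at hlt
  exact lt_irrefl _ hlt

end GTor
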