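/- piece FL: lower bound for the lct -/
import Pool.Agent.Lib_MP_e0d435_ag_T.FMainI

open Finset MeasureTheory Complex
open scoped ENNReal ContDiff Real

namespace GTor
open GPn

variable {n : ℕ}

private theorem FLct_ae {A : Type} [Fintype A] : ∀ᵐ Z : A → Pt n, ∀ j i, Z j i ≠ 0 := by
  rw [ae_all_iff]
  intro j
  rw [ae_all_iff]
  intro i
  have h0 : ∀ᵐ w : ℂ, w ≠ 0 := by
    rw [ae_iff]
    simp
  have h1 : ∀ᵐ x : Pt n, x i ≠ 0 :=
    (Measure.quasiMeasurePreserving_eval (fun _ : Fin n => (volume : Measure ℂ)) i).ae h0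
  exact (Measure.quasiMeasurePreserving_eval (fun _ : A => (volume : Measure (Pt n))) j).ae h1

private theorem FLct_pt {a c : ℝ} (hc : 0 ≤ c) (ha : 0 ≤ a) :
    ENNReal.ofReal (a ^ (-c)) ≤ (ENNReal.ofReal a) ^ (-c) := by
  rcases ha.eq_or_lt with h0 | h0
  · rcases hc.eq_or_lt with hc0 | hc0
    · simp [← hc0]
    · rw [← h0, Real.zero_rpow (by linarith)]
      simp
  · rw [ENNReal.ofReal_rpow_of_pos h0]

private theorem FLct_Sd_le (F : FanoPolytope n) (m0 : ℕ) (s : Fin n → Fin n → ℤ) (rho : ℝ) :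
    ∃ B : ℝ, 1 ≤ B ∧ ∀ z : Pt n, (∀ i, ‖z i‖ ≤ rho) → Sd (ex F m0 s) z ≤ B := by
  refine ⟨1 + ∑ b : Sec F m0, (∏ i, |rho| ^ ex F m0 s b i) ^ 2, ?_, fun z hz => ?_⟩
  · have : 0 ≤ ∑ b : Sec F m0, (∏ i, |rho| ^ ex F m0 s b i) ^ 2 :=
      Finset.sum_nonneg fun b _ => sq_nonneg _
    linarith
  · have h1 : Sd (ex F m0 s) z ≤ ∑ b : Sec F m0, (∏ i, |rho| ^ ex F m0 s b i) ^ 2 := by
      unfold Sd mon
      refine Finset.sum_le_sum fun b _ => ?_
      refine pow_le_pow_left₀ (norm_nonneg _) ?_ 2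
      rw [norm_prod]
      refine Finset.prod_le_prod (fun i _ => norm_nonneg _) fun i _ => ?_
      rw [norm_pow]
      exact pow_le_pow_left₀ (norm_nonneg _) ((hz i).trans (le_abs_self rho)) _
    linarith

private theorem FLct_cont (F : FanoPolytope n) (k : ℕ) (s : Sec F k → Fin n → Fin n → ℤ) :
    Continuous (fun z : Sec F k → Fin n → ℂ => ‖locEqT F k s z‖) := by
  refine Continuous.norm ?_
  unfold locEqT
  refine Continuous.matrix_det ?_
  refine continuous_matrix fun j a => ?_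
  simp only [Matrix.of_apply]
  refine continuous_finsetProd _ fun l _ => Continuous.pow ?_ _
  exact (continuous_apply l).comp (continuous_apply j)

theorem loc_int_of_master (F : FanoPolytope n) (k m0 : ℕ) (hk : 1 ≤ k) (hm0 : 1 ≤ m0)
    (hcar : Car F m0) (t : ℝ) (ht : 0 ≤ t) (ht1 : t < 1)
    (h : ∫⁻ X : Sec F k → Pt n, Gm F k m0 t X * ∏ j, hd (X j) < ⊤)
    (s : Sec F k → Fin n → Fin n → ℤ) (hs : ∀ j, s j ∈ Ch F) :
    LocallyIntegrable (fun z : Sec F k → Fin n → ℂ => ‖locEqT F k s z‖ ^ (-(2 * (t / k)))) := by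
  classical
  have hc : 0 ≤ 2 * (t / (k : ℝ)) := by positivity
  have hr : 0 < (1 - t) / (m0 : ℝ) := div_pos (by linarith) (by exact_mod_cast hm0)
  have hgm : Measurable (fun z : Sec F k → Fin n → ℂ =>
      ‖locEqT F k s z‖ ^ (-(2 * (t / (k : ℝ))))) :=
    (FLct_cont F k s).measurable.pow_const _
  -- the integral of Hc is finite
  have hHc : ∫⁻ Z : Sec F k → Pt n, Hc F k m0 t s Z < ⊤ := by
    obtain ⟨c, hc0, hc1, hcG⟩ := phi_lintegral_pi (A := Sec F k) s (fun j => (hs j).2.1)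
    have h1 : ∫⁻ Z : Sec F k → Pt n, Hc F k m0 t s Z =
        ∫⁻ Z : Sec F k → Pt n, Gm F k m0 t (fun j => phi (s j) (Z j)) * ∏ j, hd (Z j) := by
      refine lintegral_congr_ae ?_
      filter_upwards [FLct_ae (n := n) (A := Sec F k)] with Z hZ
      exact Hc_eq F k m0 hk hm0 t s hs Z hZ
    rw [h1, hcG _ (measurable_Gm F k m0 t)]
    exact ENNReal.mul_lt_top (lt_of_le_of_ne le_top hc1) h
  -- boxes
  set B : ℝ → Set (Sec F k → Fin n → ℂ) := fun rho => {x | ∀ j l, ‖x j l‖ ≤ rho} with hB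
  have hBm : ∀ rho, MeasurableSet (B rho) := by
    intro rho
    have : B rho = ⋂ j, ⋂ l, {x | ‖x j l‖ ≤ rho} := by ext x; simp [hB]
    rw [this]
    refine MeasurableSet.iInter fun j => MeasurableSet.iInter fun l => ?_
    have hcl : IsClosed {x : Sec F k → Fin n → ℂ | ‖x j l‖ ≤ rho} :=
      isClosed_le (by fun_prop) continuous_const
    exact hcl.measurableSet
  suffices hbox : ∀ rho : ℝ, 0 < rho →
      ∫⁻ x in B rho, ENNReal.ofReal (‖locEqT F k s x‖ ^ (-(2 * (t / (k : ℝ))))) < ⊤ by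
    intro x0
    set rho : ℝ := ‖x0‖ + 1 with hrho
    have hrp : 0 < rho := by positivity
    refine ⟨Metric.ball x0 1, Metric.ball_mem_nhds _ one_pos, ?_⟩
    have hsub : Metric.ball x0 1 ⊆ B rho := by
      intro x hx j l
      have h1 : ‖x‖ ≤ ‖x0‖ + 1 := by
        have := norm_sub_norm_le x x0
        rw [Metric.mem_ball, dist_eq_norm] at hx
        linarith
      calc ‖x j l‖ ≤ ‖x j‖ := norm_le_pi_norm (x j) l
        _ ≤ ‖x‖ := norm_le_pi_norm x j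
        _ ≤ rho := h1
    refine ⟨hgm.aestronglyMeasurable, ?_⟩
    rw [hasFiniteIntegral_iff_norm]
    refine lt_of_le_of_lt (lintegral_mono_set hsub) ?_
    refine lt_of_le_of_lt (le_of_eq ?_) (hbox rho hrp)
    refine lintegral_congr fun x => ?_
    rw [Real.norm_of_nonneg (Real.rpow_nonneg (norm_nonneg _) _)]
  intro rho hrho
  have hS : ∀ j : Sec F k, ∃ B : ℝ, 1 ≤ B ∧ ∀ z : Pt n, (∀ i, ‖z i‖ ≤ rho) →
      Sd (ex F m0 (s j)) z ≤ B := fun j => FLct_Sd_le F m0 (s j) rho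
  choose Bd hBd1 hBd using hS
  have hBdpos : ∀ j, 0 < Bd j := fun j => lt_of_lt_of_le one_pos (hBd1 j)
  set C : ℝ≥0∞ := ∏ j : Sec F k, (ENNReal.ofReal (Bd j)) ^ ((1 - t) / (m0 : ℝ)) with hC
  have hCtop : C < ⊤ := by
    refine ENNReal.prod_lt_top fun j _ => ?_
    exact ENNReal.rpow_lt_top_of_nonneg hr.le ENNReal.ofReal_ne_top
  have hbound : ∀ x ∈ B rho, ENNReal.ofReal (‖locEqT F k s x‖ ^ (-(2 * (t / (k : ℝ))))) ≤
      C * Hc F k m0 t s x := by
    intro x hx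
    refine (FLct_pt hc (norm_nonneg _)).trans ?_
    unfold Hc
    have h2 : 1 ≤ C * ∏ j, (ENNReal.ofReal (Sd (ex F m0 (s j)) (x j))) ^
        (-((1 - t) / (m0 : ℝ))) := by
      rw [hC, ← Finset.prod_mul_distrib]
      refine Finset.one_le_prod' fun j _ => ?_
      have h3 : ENNReal.ofReal (Sd (ex F m0 (s j)) (x j)) ≤ ENNReal.ofReal (Bd j) :=
        ENNReal.ofReal_le_ofReal (hBd j (x j) (hx j))
      have h4 : (ENNReal.ofReal (Bd j)) ^ (-((1 - t) / (m0 : ℝ))) ≤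
          (ENNReal.ofReal (Sd (ex F m0 (s j)) (x j))) ^ (-((1 - t) / (m0 : ℝ))) := by
        rw [ENNReal.rpow_neg, ENNReal.rpow_neg, ENNReal.inv_le_inv]
        exact ENNReal.rpow_le_rpow h3 hr.le
      have h5 : (1 : ℝ≥0∞) = (ENNReal.ofReal (Bd j)) ^ ((1 - t) / (m0 : ℝ)) *
          (ENNReal.ofReal (Bd j)) ^ (-((1 - t) / (m0 : ℝ))) := by
        rw [← ENNReal.rpow_add _ _ (by
          rw [Ne, ENNReal.ofReal_eq_zero, not_le]; exact hBdpos j) ENNReal.ofReal_ne_top]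
        rw [add_neg_cancel, ENNReal.rpow_zero]
      rw [h5]
      exact mul_le_mul_right h4 _
    calc (ENNReal.ofReal ‖locEqT F k s x‖) ^ (-(2 * (t / (k : ℝ))))
        = (ENNReal.ofReal ‖locEqT F k s x‖) ^ (-(2 * (t / (k : ℝ)))) * 1 := (mul_one _).symm
      _ ≤ (ENNReal.ofReal ‖locEqT F k s x‖) ^ (-(2 * (t / (k : ℝ)))) *
          (C * ∏ j, (ENNReal.ofReal (Sd (ex F m0 (s j)) (x j))) ^ (-((1 - t) / (m0 : ℝ)))) :=
        mul_le_mul_right h2 _
      _ = _ := by ring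
  calc ∫⁻ x in B rho, ENNReal.ofReal (‖locEqT F k s x‖ ^ (-(2 * (t / (k : ℝ)))))
      ≤ ∫⁻ x in B rho, C * Hc F k m0 t s x := setLIntegral_mono' (hBm rho) hbound
    _ ≤ ∫⁻ x, C * Hc F k m0 t s x := setLIntegral_le_lintegral _ _
    _ = C * ∫⁻ x, Hc F k m0 t s x := lintegral_const_mul _ (measurable_Hc F k m0 t s)
    _ < ⊤ := ENNReal.mul_lt_top hCtop hHc

theorem lower_bound (hn : 1 ≤ n) (F : FanoPolytope n) (t rho0 : ℝ) (ht : 0 ≤ t) (ht1 : t < 1)
    (hrho : 0 < rho0) : ∃ k0 : ℕ, ∀ k : ℕ, k0 ≤ k → Car F k →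
      (∀ v ∈ F.V, t * (1 + ∑ r, bk F k r * (v r : ℝ)) ≤ 1 - rho0) →
      ∀ s : Sec F k → Fin n → Fin n → ℤ, (∀ j, s j ∈ Ch F) →
      LocallyIntegrable (fun z : Sec F k → Fin n → ℂ => ‖locEqT F k s z‖ ^ (-(2 * (t / k)))) := by
  obtain ⟨m0, hm0, hcar, k0, hk0⟩ := master_finite hn F t rho0 ht ht1 hrho
  refine ⟨max k0 1, fun k hk hkc hv s hs => ?_⟩
  exact loc_int_of_master F k m0 (le_trans (le_max_right _ _) hk) hm0 hcar t ht ht1
    (hk0 k (le_trans (le_max_left _ _) hk) hkc hv) s hs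

end GTor
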