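/- piece FU: upper bound for the lct -/
import Pool.Agent.Lib_MP_e0d435_ag_T.FBd
import Pool.Agent.Lib_MP_e0d435_ag.Null

open Finset MeasureTheory Complex
open scoped ENNReal ContDiff Real

set_option linter.unusedSectionVars false
set_option linter.unusedVariables false

namespace GTor
open GPn

variable {n : ℕ}

section det
variable {A : Type} [Fintype A] [DecidableEq A]

/-- the exponent of a monomial in the block j -/
private noncomputable def FUp_E {r : ℕ} (q : A × Fin n ≃ Fin r) (e : A → A → Fin n → ℕ) (j a : A) :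
    Fin r →₀ ℕ :=
  Finsupp.equivFunOnFinite.symm fun t => if (q.symm t).1 = j then e j a (q.symm t).2 else 0

private theorem FUp_poly_ne {r : ℕ} (q : A × Fin n ≃ Fin r) (e : A → A → Fin n → ℕ)
    (he : ∀ j, Function.Injective (e j)) :
    (Matrix.of fun j a : A => (MvPolynomial.monomial (FUp_E q e j a) (1 : ℂ))).det ≠ 0 := by
  intro h
  rw [← Matrix.det_transpose, Matrix.det_apply] at h
  have h1 := congrArg (MvPolynomial.coeff (∑ j, FUp_E q e j j)) h
  rw [MvPolynomial.coeff_sum, MvPolynomial.coeff_zero,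
    Finset.sum_eq_single (1 : Equiv.Perm A)] at h1
  · simp only [Equiv.Perm.sign_one, one_smul, Equiv.Perm.coe_one, id_eq, Matrix.transpose_apply,
      Matrix.of_apply] at h1
    rw [← MvPolynomial.monomial_sum_one, MvPolynomial.coeff_monomial, if_pos rfl] at h1
    exact one_ne_zero h1
  · intro σ _ hσ
    simp only [Matrix.transpose_apply, Matrix.of_apply]
    rw [← MvPolynomial.monomial_sum_one]
    have h2 : ∑ i, FUp_E q e i (σ i) ≠ ∑ j, FUp_E q e j j := by
      intro h3
      apply hσ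
      ext j
      apply he j
      funext i
      have h4 := DFunLike.congr_fun h3 (q (j, i))
      simp only [Finsupp.coe_finsetSum, Finset.sum_apply, FUp_E,
        Finsupp.equivFunOnFinite_symm_apply_apply, Equiv.symm_apply_apply, Finset.sum_ite_eq,
        Finset.mem_univ, if_true] at h4
      exact h4
    rw [MvPolynomial.coeff_smul, MvPolynomial.coeff_monomial, if_neg h2, smul_zero]
  · intro h2
    exact absurd (Finset.mem_univ _) h2

private theorem FUp_ae (e : A → A → Fin n → ℕ) (he : ∀ j, Function.Injective (e j)) :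
    ∀ᵐ z : A → Fin n → ℂ, (Matrix.of fun j a : A => ∏ i, z j i ^ e j a i).det ≠ 0 := by
  obtain ⟨q⟩ : Nonempty (A × Fin n ≃ Fin (Fintype.card (A × Fin n))) := ⟨Fintype.equivFin _⟩
  obtain ⟨p, hp⟩ : ∃ p, p =
    (Matrix.of fun j a : A => (MvPolynomial.monomial (FUp_E q e j a) (1 : ℂ))).det := ⟨_, rfl⟩
  have hp0 : p ≠ 0 := by rw [hp]; exact FUp_poly_ne q e he
  have hnull := mv_null p hp0
  -- the linear isomorphism
  let Φ : (A → Fin n → ℂ) ≃ₗ[ℝ] (Fin (Fintype.card (A × Fin n)) → ℂ) :=
    { toFun := fun z t => z (q.symm t).1 (q.symm t).2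
      invFun := fun x j i => x (q (j, i))
      map_add' := fun z w => rfl
      map_smul' := fun c z => rfl
      left_inv := fun z => by funext j i; simp
      right_inv := fun x => by funext t; simp }
  have hev : ∀ z : A → Fin n → ℂ, MvPolynomial.eval (Φ z) p =
      (Matrix.of fun j a : A => ∏ i, z j i ^ e j a i).det := by
    intro z
    rw [hp, RingHom.map_det]
    congr 1
    ext j a
    simp only [RingHom.mapMatrix_apply, Matrix.map_apply, Matrix.of_apply,
      MvPolynomial.eval_monomial, one_mul]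
    rw [Finsupp.prod_fintype _ _ (fun i => pow_zero _), ← Equiv.prod_comp q,
      Fintype.prod_prod_type, Finset.prod_eq_single j]
    · refine Finset.prod_congr rfl fun i _ => ?_
      simp [FUp_E, Φ]
    · intro j' _ hj'
      refine Finset.prod_eq_one fun i _ => ?_
      simp [FUp_E, hj']
    · intro h
      exact absurd (Finset.mem_univ _) h
  have hm0 : (volume : Measure (Fin n → ℂ)).IsAddHaarMeasure := inferInstance
  have hm : (volume : Measure (A → Fin n → ℂ)).IsAddHaarMeasure := Measure.pi.isAddHaarMeasure _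
  have hm' : (volume : Measure (Fin (Fintype.card (A × Fin n)) → ℂ)).IsAddHaarMeasure :=
    inferInstance
  let Φc := Φ.toContinuousLinearEquiv
  have hac : (Measure.map Φc (volume : Measure (A → Fin n → ℂ))) ≪
      (volume : Measure (Fin (Fintype.card (A × Fin n)) → ℂ)) := by
    have : (Measure.map Φc (volume : Measure (A → Fin n → ℂ))).IsAddHaarMeasure :=
      Φc.isAddHaarMeasure_map _
    exact Measure.absolutelyContinuous_isAddHaarMeasure _ _
  have h1 := hac hnull
  have hms : MeasurableSet {x : Fin (Fintype.card (A × Fin n)) → ℂ |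
      MvPolynomial.eval x p = 0} :=
    (isClosed_singleton.preimage (MvPolynomial.continuous_eval p)).measurableSet
  rw [Measure.map_apply Φc.continuous.measurable hms] at h1
  rw [ae_iff]
  refine measure_mono_null ?_ h1
  intro z hz
  simp only [Set.mem_ofPred_eq, not_not] at hz
  show MvPolynomial.eval (Φ z) p = 0
  rw [hev, hz]

end det

/-- the determinant does not vanish identically in a product of charts -/
theorem locEqT_ne_zero (F : FanoPolytope n) (k : ℕ) (s : Sec F k → Fin n → Fin n → ℤ)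
    (hs : ∀ j, s j ∈ Ch F) : ∀ᵐ z : Sec F k → Fin n → ℂ, locEqT F k s z ≠ 0 :=
  FUp_ae (fun j => ex F k (s j)) fun j => ex_injective F k (s j) (hs j)

theorem exists_chart_of_ray (F : FanoPolytope n) (v : Fin n → ℤ) (hv : v ∈ F.V) :
    ∃ s ∈ Ch F, ∃ i, s i = v := by
  obtain ⟨s, hs, c, hc, hcx⟩ := cover F (toR v)
  refine ⟨s, hs, ?_⟩
  by_contra hcon
  push Not at hcon
  -- v is not zero
  have hv0 : v ≠ 0 := by
    intro h
    have h1 := F.prim v hv
    rw [h] at h1
    have h2 : Finset.univ.gcd (0 : Fin n → ℤ) = 0 := by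
      rw [Finset.gcd_eq_zero_iff]
      intro x _
      rfl
    rw [h2] at h1
    exact zero_ne_one h1
  have hv0' : toR v ≠ 0 := by
    intro h
    apply hv0
    funext i
    have := congrFun h i
    simpa [toR] using this
  obtain ⟨S, hS⟩ : ∃ S : Set (Fin n → ℝ), S = toR '' {u | u ∈ F.V ∧ u ≠ v} := ⟨_, rfl⟩
  have hsS : ∀ i, toR (s i) ∈ S := by
    intro i
    rw [hS]
    exact ⟨s i, ⟨hs.1 i, hcon i⟩, rfl⟩
  have hvS : toR v ∉ convexHull ℝ S := by rw [hS]; exact F.vert v hv
  have hconv : Convex ℝ (convexHull ℝ S) := convex_convexHull ℝ S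
  -- the sum of the coefficients is at most 1
  have hsum : ∑ i, c i ≤ 1 := by
    have h1 := wv_mem F s hs v hv
    have h2 : ∑ r, wv s r * (v r : ℝ) = ∑ i, c i * (∑ r, wv s r * (s i r : ℝ)) := by
      have h3 : ∀ r, (v r : ℝ) = ∑ i, c i * (s i r : ℝ) := fun r => hcx r
      simp only [h3, Finset.mul_sum]
      rw [Finset.sum_comm]
      refine Finset.sum_congr rfl fun i _ => Finset.sum_congr rfl fun r _ => ?_
      ring
    rw [h2] at h1
    have h3 : ∑ i, c i * (∑ r, wv s r * (s i r : ℝ)) = -∑ i, c i := by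
      rw [← Finset.sum_neg_distrib]
      refine Finset.sum_congr rfl fun i _ => ?_
      rw [wv_spec s hs.2.1 i]
      ring
    rw [h3] at h1
    linarith
  have hx : toR v = ∑ i, c i • toR (s i) := by
    funext r
    rw [Finset.sum_apply, hcx r]
    rfl
  obtain ⟨C, hC⟩ : ∃ C, C = ∑ i, c i := ⟨_, rfl⟩
  have hC0 : 0 ≤ C := by rw [hC]; exact Finset.sum_nonneg fun i _ => hc i
  have hCpos : 0 < C := by
    refine lt_of_le_of_ne hC0 fun h => hv0' ?_
    rw [hx]
    refine Finset.sum_eq_zero fun i _ => ?_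
    rw [← h] at hC
    have h1 := (Finset.sum_eq_zero_iff_of_nonneg fun i _ => hc i).1 hC.symm i (Finset.mem_univ i)
    rw [h1, zero_smul]
  obtain ⟨z, hz⟩ : ∃ z, z = ∑ i, (c i / C) • toR (s i) := ⟨_, rfl⟩
  have hzS : z ∈ convexHull ℝ S := by
    rw [hz]
    refine hconv.sum_mem (fun i _ => div_nonneg (hc i) hC0) ?_
      (fun i _ => subset_convexHull ℝ S (hsS i))
    rw [← Finset.sum_div, ← hC]
    exact div_self hCpos.ne'
  have hxz : toR v = C • z := by
    rw [hx, hz, Finset.smul_sum]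
    refine Finset.sum_congr rfl fun i _ => ?_
    rw [smul_smul, mul_div_cancel₀ _ hCpos.ne']
  rcases eq_or_lt_of_le (show C ≤ 1 by rw [hC]; exact hsum) with h1 | h1
  · rw [h1, one_smul] at hxz
    rw [hxz] at hvS
    exact hvS hzS
  -- 0 is in the convex hull of V
  have h0 : (0 : Fin n → ℝ) ∈ convexHull ℝ (insert (toR v) S) := by
    have h2 := interior_subset F.zero_mem
    refine convexHull_mono ?_ h2
    rintro _ ⟨u, hu, rfl⟩
    by_cases huv : u = v
    · rw [huv]; exact Set.mem_insert _ _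
    · refine Set.mem_insert_of_mem _ ?_
      rw [hS]
      exact ⟨u, ⟨hu, huv⟩, rfl⟩
  have hSne : S.Nonempty := by
    rcases Set.eq_empty_or_nonempty S with h2 | h2
    · rw [h2, convexHull_empty] at hzS
      exact absurd hzS (Set.notMem_empty _)
    · exact h2
  rw [convexHull_insert hSne, mem_convexJoin] at h0
  obtain ⟨v', hv', y, hy, h2⟩ := h0
  rw [Set.mem_singleton_iff] at hv'
  subst hv'
  obtain ⟨a, b, ha, hb, hab, h3⟩ := h2
  -- now v (1 - (1 - C) a) = C z + (1 - C) b y
  have h4 : toR v = C • z + (1 - C) • (a • toR v + b • y) := by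
    rw [h3, smul_zero, add_zero]
    exact hxz
  have hden : 0 < C + (1 - C) * b := by
    have : 0 ≤ (1 - C) * b := mul_nonneg (by linarith) hb
    linarith
  apply hvS
  have h5 : toR v = (C / (C + (1 - C) * b)) • z + ((1 - C) * b / (C + (1 - C) * b)) • y := by
    funext r
    have h6 := congrFun h4 r
    simp only [Pi.add_apply, Pi.smul_apply, smul_eq_mul] at h6 ⊢
    have ha' : a = 1 - b := by linarith
    rw [ha'] at h6
    field_simp
    linear_combination h6
  rw [h5]
  refine hconv hzS hy (by positivity) ?_ ?_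
  · exact div_nonneg (mul_nonneg (by linarith) hb) hden.le
  · rw [← add_div]
    exact div_self hden.ne'


/-! ### scaling -/

section scaling
variable {A : Type} [Fintype A] [DecidableEq A]

private noncomputable def FUp_L (A : Type) (i0 : Fin n) (t : ℝ) :
    (A → Fin n → ℂ) →ₗ[ℝ] (A → Fin n → ℂ) :=
  LinearMap.pi fun j => (LinearMap.pi fun i =>
    ((if i = i0 then t else 1 : ℝ) • (LinearMap.id : ℂ →ₗ[ℝ] ℂ)).comp
      (LinearMap.proj i)).comp (LinearMap.proj j)

private theorem FUp_L_apply (i0 : Fin n) (t : ℝ) (z : A → Fin n → ℂ) (j : A) (i : Fin n) :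
    FUp_L A i0 t z j i = ((if i = i0 then t else 1 : ℝ) : ℂ) * z j i := by
  by_cases hi : i = i0
  · simp [FUp_L, hi]
  · simp [FUp_L, hi]

private theorem FUp_det (i0 : Fin n) (t : ℝ) :
    LinearMap.det (FUp_L A i0 t) = t ^ (2 * Fintype.card A) := by
  have h1 : LinearMap.det (LinearMap.pi fun i : Fin n =>
    ((if i = i0 then t else 1 : ℝ) • (LinearMap.id : ℂ →ₗ[ℝ] ℂ)).comp
      (LinearMap.proj i)) = t ^ 2 := by
    rw [LinearMap.det_pi]
    simp only [LinearMap.det_smul, LinearMap.det_id, mul_one, Complex.finrank_real_complex]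
    rw [Finset.prod_eq_single i0]
    · simp
    · intro i _ hi
      simp [hi]
    · intro h
      exact absurd (Finset.mem_univ _) h
  unfold FUp_L
  rw [LinearMap.det_pi (fun _ : A => LinearMap.pi fun i : Fin n =>
    ((if i = i0 then t else 1 : ℝ) • (LinearMap.id : ℂ →ₗ[ℝ] ℂ)).comp
      (LinearMap.proj i))]
  simp only [h1, Finset.prod_const, Finset.card_univ]
  rw [← pow_mul]

/-- the boxes -/
private def FUp_B (A : Type) (i0 : Fin n) (r t : ℝ) : Set (A → Fin n → ℂ) :=
  {z | ∀ j i, ‖z j i‖ < (if i = i0 then t else 1) * r}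

private theorem FUp_B_open (i0 : Fin n) (r t : ℝ) : IsOpen (FUp_B A i0 r t) := by
  have : FUp_B A i0 r t = ⋂ j : A, ⋂ i : Fin n, {z | ‖z j i‖ < (if i = i0 then t else 1) * r} := by
    ext z
    simp [FUp_B]
  rw [this]
  refine isOpen_iInter_of_finite fun j => isOpen_iInter_of_finite fun i => ?_
  exact isOpen_lt (by fun_prop) continuous_const

private theorem FUp_B_pre (i0 : Fin n) (r t : ℝ) (ht : 0 < t) :
    (FUp_L A i0 t) ⁻¹' (FUp_B A i0 r t) = FUp_B A i0 r 1 := by
  ext z
  simp only [Set.mem_preimage, FUp_B, Set.mem_ofPred_eq, FUp_L_apply, ite_self, one_mul, norm_mul]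
  refine forall_congr' fun j => forall_congr' fun i => ?_
  by_cases hi : i = i0
  · simp only [hi, if_true, Complex.norm_real, Real.norm_of_nonneg ht.le]
    exact mul_lt_mul_iff_right₀ ht
  · simp [hi]

/-- scaling of the integral over the boxes -/
private theorem FUp_scale (i0 : Fin n) (r t : ℝ) (ht : 0 < t) (G : (A → Fin n → ℂ) → ℝ≥0∞)
    (hG : Measurable G) (α : ℝ≥0∞) (hα : ∀ z, G (FUp_L A i0 t z) = α * G z) :
    ∫⁻ z in FUp_B A i0 r t, G z =
      ENNReal.ofReal (t ^ (2 * Fintype.card A)) * (α * ∫⁻ z in FUp_B A i0 r 1, G z) := by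
  have hm0 : (volume : Measure (Fin n → ℂ)).IsAddHaarMeasure := inferInstance
  have hm : (volume : Measure (A → Fin n → ℂ)).IsAddHaarMeasure := Measure.pi.isAddHaarMeasure _
  have hpos : 0 < t ^ (2 * Fintype.card A) := pow_pos ht _
  have hdet : LinearMap.det (FUp_L A i0 t) ≠ 0 := by
    rw [FUp_det]; exact hpos.ne'
  have hmap := Measure.map_linearMap_addHaar_eq_smul_addHaar
    (volume : Measure (A → Fin n → ℂ)) hdet
  rw [FUp_det, abs_of_pos (inv_pos.2 hpos)] at hmap
  have hLm : Measurable (FUp_L A i0 t) :=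
    (LinearMap.continuous_of_finiteDimensional (FUp_L A i0 t)).measurable
  have hBm : ∀ t, MeasurableSet (FUp_B A i0 r t) := fun t => (FUp_B_open i0 r t).measurableSet
  have h1 := lintegral_map (μ := (volume : Measure (A → Fin n → ℂ)))
    (hG.indicator (hBm t)) hLm
  rw [hmap, lintegral_smul_measure, lintegral_indicator (hBm t)] at h1
  have h2 : ∀ z, (FUp_B A i0 r t).indicator G (FUp_L A i0 t z) =
      (FUp_B A i0 r 1).indicator (fun z => α * G z) z := by
    intro z
    rw [← FUp_B_pre i0 r t ht]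
    by_cases hz : FUp_L A i0 t z ∈ FUp_B A i0 r t
    · rw [Set.indicator_of_mem hz, Set.indicator_of_mem (by exact hz), hα]
    · rw [Set.indicator_of_notMem hz, Set.indicator_of_notMem (by exact hz)]
  simp only [h2] at h1
  rw [lintegral_indicator (hBm 1), lintegral_const_mul _ hG] at h1
  rw [← h1, smul_eq_mul, ← mul_assoc, ← ENNReal.ofReal_mul hpos.le,
    mul_inv_cancel₀ hpos.ne', ENNReal.ofReal_one, one_mul]

end scaling

private theorem FUp_hom (F : FanoPolytope n) (k : ℕ) (s : Fin n → Fin n → ℤ) (i0 : Fin n) (t : ℝ)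
    (z : Sec F k → Fin n → ℂ) :
    locEqT F k (fun _ => s) (FUp_L (Sec F k) i0 t z) =
      (t : ℂ) ^ (∑ a : Sec F k, ex F k s a i0) * locEqT F k (fun _ => s) z := by
  unfold locEqT
  rw [← Finset.prod_pow_eq_pow_sum, ← Matrix.det_mul_row]
  congr 1
  ext j a
  simp only [Matrix.of_apply, FUp_L_apply, mul_pow, Finset.prod_mul_distrib]
  congr 1
  rw [Finset.prod_eq_single i0]
  · simp
  · intro i _ hi
    simp [hi]
  · intro h
    exact absurd (Finset.mem_univ _) h

private theorem FUp_sum (F : FanoPolytope n) (k : ℕ) (hk : 1 ≤ k) (s : Fin n → Fin n → ℤ)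
    (hs : s ∈ Ch F) (i0 : Fin n) :
    ((∑ a : Sec F k, ex F k s a i0 : ℕ) : ℝ) =
      Fintype.card (Sec F k) * (k * (1 + ∑ r, bk F k r * (s i0 r : ℝ))) := by
  have hN : (0 : ℝ) < Fintype.card (Sec F k) := by
    exact_mod_cast Fintype.card_pos
  have hk0 : (0 : ℝ) < k := by exact_mod_cast hk
  have h1 : ∀ a : Sec F k, (ex F k s a i0 : ℝ) = ∑ r, (a.1 r : ℝ) * (s i0 r : ℝ) + k := by
    intro a
    have h2 := ex_cast F k s hs a i0
    have h3 : ((ex F k s a i0 : ℤ) : ℝ) = ((ip a.1 (s i0) + k : ℤ) : ℝ) := by rw [h2]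
    simpa [ip] using h3
  push_cast
  simp only [h1]
  rw [Finset.sum_add_distrib, Finset.sum_comm]
  simp only [Finset.sum_const, Finset.card_univ, nsmul_eq_mul, ← Finset.sum_mul]
  have h4 : ∀ r, (∑ a : Sec F k, (a.1 r : ℝ)) = Fintype.card (Sec F k) * k * bk F k r := by
    intro r
    unfold bk
    field_simp
  simp only [h4]
  rw [mul_add, mul_add, mul_one, Finset.mul_sum, Finset.mul_sum, add_comm]
  congr 1
  refine Finset.sum_congr rfl fun r _ => ?_
  ring

theorem not_loc_int (hn : 1 ≤ n) (F : FanoPolytope n) (k : ℕ) (hk : 1 ≤ k) (s : Fin n → Fin n → ℤ)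
    (hs : s ∈ Ch F) (i : Fin n) (c : ℝ)
    (hc : 1 ≤ c * k * (1 + ∑ r, bk F k r * (s i r : ℝ))) :
    ¬ LocallyIntegrable (fun z : Sec F k → Fin n → ℂ => ‖locEqT F k (fun _ => s) z‖ ^ (-(2 * c)))
    := by
  intro h
  obtain ⟨N, hN⟩ : ∃ N, N = Fintype.card (Sec F k) := ⟨_, rfl⟩
  obtain ⟨d, hd⟩ : ∃ d, d = ∑ a : Sec F k, ex F k s a i := ⟨_, rfl⟩
  have hN0 : 0 < N := by rw [hN]; exact Fintype.card_pos
  have hk0 : (0 : ℝ) < k := by exact_mod_cast hk
  have hdr := FUp_sum F k hk s hs i
  rw [← hd, ← hN] at hdr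
  have hNr : (0 : ℝ) < N := by exact_mod_cast hN0
  have hnn : 0 ≤ 1 + ∑ r, bk F k r * (s i r : ℝ) := by
    by_contra hcon
    push Not at hcon
    have h1 : (0 : ℝ) ≤ d := Nat.cast_nonneg d
    have h2 : (k : ℝ) * (1 + ∑ r, bk F k r * (s i r : ℝ)) < 0 := mul_neg_of_pos_of_neg hk0 hcon
    have h3 := mul_neg_of_pos_of_neg hNr h2
    linarith
  have hc0 : 0 < c := by
    by_contra hcon
    push Not at hcon
    have h1 : c * k * (1 + ∑ r, bk F k r * (s i r : ℝ)) ≤ 0 := by
      rw [mul_assoc]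
      exact mul_nonpos_of_nonpos_of_nonneg hcon (mul_nonneg hk0.le hnn)
    linarith
  have hcd : (N : ℝ) ≤ c * d := by
    rw [hdr]
    calc (N : ℝ) = N * 1 := by ring
      _ ≤ N * (c * k * (1 + ∑ r, bk F k r * (s i r : ℝ))) :=
        mul_le_mul_of_nonneg_left hc hNr.le
      _ = _ := by ring
  obtain ⟨G, hG⟩ : ∃ G : (Sec F k → Fin n → ℂ) → ℝ≥0∞, G = fun z =>
      ENNReal.ofReal (‖locEqT F k (fun _ => s) z‖ ^ (-(2 * c))) := ⟨_, rfl⟩
  have hcont : Continuous (fun z : Sec F k → Fin n → ℂ => locEqT F k (fun _ => s) z) := by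
    unfold locEqT
    refine Continuous.matrix_det ?_
    refine continuous_matrix fun j a => ?_
    simp only [Matrix.of_apply]
    fun_prop
  have hGm : Measurable G := by
    rw [hG]
    exact (hcont.norm.measurable.pow_const _).ennreal_ofReal
  have hGs : ∀ t : ℝ, 0 < t → ∀ z, G (FUp_L (Sec F k) i t z) =
      ENNReal.ofReal (t ^ (-(2 * c * d))) * G z := by
    intro t ht z
    rw [hG]
    simp only
    rw [FUp_hom, ← hd, norm_mul, norm_pow, Complex.norm_real, Real.norm_of_nonneg ht.le,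
      Real.mul_rpow (by positivity) (norm_nonneg _), ← Real.rpow_natCast,
      ← Real.rpow_mul ht.le, ENNReal.ofReal_mul (by positivity)]
    congr 3
    ring
  -- a small box
  obtain ⟨U, hU, hint⟩ := h 0
  obtain ⟨r, hr, hrU⟩ := Metric.mem_nhds_iff.1 hU
  have hBU : FUp_B (Sec F k) i r 1 ⊆ U := by
    intro z hz
    apply hrU
    rw [mem_ball_zero_iff, pi_norm_lt_iff hr]
    intro j
    rw [pi_norm_lt_iff hr]
    intro i'
    have := hz j i'
    simpa using this
  have hfin : ∫⁻ z in FUp_B (Sec F k) i r 1, G z ≠ ⊤ := by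
    have h1 : IntegrableOn (fun z : Sec F k → Fin n → ℂ =>
        ‖locEqT F k (fun _ => s) z‖ ^ (-(2 * c))) (FUp_B (Sec F k) i r 1) := hint.mono_set hBU
    have h2 := h1.lintegral_lt_top
    rw [hG]
    exact h2.ne
  have hmono : ∀ t : ℝ, 0 < t → t ≤ 1 → ∫⁻ z in FUp_B (Sec F k) i r 1, G z ≤
      ∫⁻ z in FUp_B (Sec F k) i r t, G z := by
    intro t ht ht1
    rw [FUp_scale i r t ht G hGm _ (hGs t ht), ← mul_assoc, ← ENNReal.ofReal_mul (by positivity)]
    have h1 : 1 ≤ t ^ (2 * Fintype.card (Sec F k)) * t ^ (-(2 * c * d)) := by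
      rw [← Real.rpow_natCast, ← Real.rpow_add ht, ← hN]
      apply Real.one_le_rpow_of_pos_of_le_one_of_nonpos ht ht1
      push_cast
      nlinarith
    have h2 : (1 : ℝ≥0∞) ≤ ENNReal.ofReal (t ^ (2 * Fintype.card (Sec F k)) *
        t ^ (-(2 * c * d))) := by
      rw [← ENNReal.ofReal_one]
      exact ENNReal.ofReal_le_ofReal h1
    calc ∫⁻ z in FUp_B (Sec F k) i r 1, G z = 1 * ∫⁻ z in FUp_B (Sec F k) i r 1, G z := by
          rw [one_mul]
      _ ≤ _ := mul_le_mul_left h2 _
  -- the volume of the boxes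
  have hvol : ∀ t : ℝ, 0 < t → volume (FUp_B (Sec F k) i r t) =
      ENNReal.ofReal (t ^ (2 * Fintype.card (Sec F k))) * volume (FUp_B (Sec F k) i r 1) := by
    intro t ht
    have h1 := FUp_scale (A := Sec F k) i r t ht (fun _ => 1) measurable_const 1
      (fun z => by rw [one_mul])
    simpa using h1
  have hvfin : volume (FUp_B (Sec F k) i r 1) ≠ ⊤ := by
    refine ((measure_mono (fun z hz => ?_)).trans_lt
      (measure_ball_lt_top (x := (0 : Sec F k → Fin n → ℂ)) (r := r))).ne
    rw [mem_ball_zero_iff, pi_norm_lt_iff hr]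
    intro j
    rw [pi_norm_lt_iff hr]
    intro i'
    have := hz j i'
    simpa using this
  have hlimv : Filter.Tendsto (fun m : ℕ => volume (FUp_B (Sec F k) i r ((1 / 2) ^ m)))
      Filter.atTop (nhds 0) := by
    have h1 : (fun m : ℕ => volume (FUp_B (Sec F k) i r ((1 / 2) ^ m))) = fun m : ℕ =>
        ENNReal.ofReal ((((1 : ℝ) / 2) ^ (2 * Fintype.card (Sec F k))) ^ m) *
          volume (FUp_B (Sec F k) i r 1) := by
      funext m
      rw [hvol _ (by positivity), ← pow_mul, ← pow_mul, mul_comm m]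
    rw [h1]
    have h2 : Filter.Tendsto (fun m : ℕ =>
        ENNReal.ofReal ((((1 : ℝ) / 2) ^ (2 * Fintype.card (Sec F k))) ^ m)) Filter.atTop
        (nhds 0) := by
      rw [← ENNReal.ofReal_zero]
      refine ENNReal.tendsto_ofReal (tendsto_pow_atTop_nhds_zero_of_lt_one (by positivity) ?_)
      refine pow_lt_one₀ (by norm_num) (by norm_num) ?_
      rw [← hN]
      omega
    have h3 := ENNReal.Tendsto.mul_const h2 (Or.inr hvfin)
    rwa [zero_mul] at h3
  have hlim : Filter.Tendsto (fun m : ℕ => ∫⁻ z in FUp_B (Sec F k) i r ((1 / 2) ^ m), G z)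
      Filter.atTop (nhds 0) := by
    have h1 := tendsto_setLIntegral_zero (μ := volume.restrict (FUp_B (Sec F k) i r 1)) hfin
      (l := Filter.atTop) (s := fun m : ℕ => FUp_B (Sec F k) i r ((1 / 2) ^ m)) (by
        refine tendsto_of_tendsto_of_tendsto_of_le_of_le tendsto_const_nhds hlimv
          (fun _ => zero_le) fun m => ?_
        exact Measure.restrict_apply_le _ _)
    refine h1.congr fun m => ?_
    rw [Measure.restrict_restrict (FUp_B_open _ _ _).measurableSet]
    congr 2
    rw [Set.inter_eq_left]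
    intro z hz j i'
    refine (hz j i').trans_le (mul_le_mul_of_nonneg_right ?_ hr.le)
    split_ifs
    · exact pow_le_one₀ (by norm_num) (by norm_num)
    · exact le_rfl
  have hle0 : ∫⁻ z in FUp_B (Sec F k) i r 1, G z ≤ 0 :=
    ge_of_tendsto' hlim fun m => hmono _ (by positivity) (pow_le_one₀ (by norm_num) (by norm_num))
  have hzero : ∫⁻ z in FUp_B (Sec F k) i r 1, G z = 0 := le_antisymm hle0 zero_le
  rw [lintegral_eq_zero_iff hGm] at hzero
  have hne : ∀ᵐ z ∂(volume.restrict (FUp_B (Sec F k) i r 1)), locEqT F k (fun _ => s) z ≠ 0 :=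
    ae_restrict_of_ae (locEqT_ne_zero F k (fun _ => s) fun _ => hs)
  have hfalse : ∀ᵐ z ∂(volume.restrict (FUp_B (Sec F k) i r 1)), False := by
    filter_upwards [hzero, hne] with z h1 h2
    rw [hG] at h1
    have h3 : 0 < ‖locEqT F k (fun _ => s) z‖ ^ (-(2 * c)) :=
      Real.rpow_pos_of_pos (norm_pos_iff.2 h2) _
    exact absurd h1 (ENNReal.ofReal_pos.2 h3).ne'
  rw [ae_iff] at hfalse
  simp only [not_false_eq_true, Set.ofPred_true, Measure.restrict_apply_univ] at hfalse
  have hpos : 0 < volume (FUp_B (Sec F k) i r 1) := by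
    have hm0 : (volume : Measure (Fin n → ℂ)).IsAddHaarMeasure := inferInstance
    have hm : (volume : Measure (Sec F k → Fin n → ℂ)).IsAddHaarMeasure :=
      Measure.pi.isAddHaarMeasure _
    refine (FUp_B_open _ _ _).measure_pos volume ⟨0, ?_⟩
    intro j i'
    simpa using hr
  exact absurd hfalse hpos.ne'

end GTor
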