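/- piece FX: final theorem -/
import Pool.Agent.Lib_MP_e0d435_ag_T.FLct
import Pool.Agent.Lib_MP_e0d435_ag_T.FUp
import Pool.Agent.Lib_MP_e0d435_ag_T.FBar

open Finset MeasureTheory Complex
open scoped ENNReal ContDiff Real

namespace GTor
open GPn

variable {n : ℕ}

private lemma FFinal_V_nonempty (F : FanoPolytope n) : ∃ v, v ∈ F.V := by
  by_contra h
  push Not at h
  have h1 : (toR '' {u | u ∈ F.V}) = (∅ : Set (Fin n → ℝ)) := by
    rw [Set.image_eq_empty]
    ext u
    simp [h u]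
  have h2 := F.zero_mem
  rw [h1, convexHull_empty, interior_empty] at h2
  exact h2

/-- delta is attained and at most 1 -/
theorem deltaT_spec (hn : 1 ≤ n) (F : FanoPolytope n) : 0 < deltaT F ∧ deltaT F ≤ 1 ∧
    (∀ v ∈ F.V, deltaT F * (1 + ∑ r, bary F r * (v r : ℝ)) ≤ 1) ∧
    ∃ v ∈ F.V, deltaT F * (1 + ∑ r, bary F r * (v r : ℝ)) = 1 := by
  obtain ⟨v1, hv1⟩ := FFinal_V_nonempty F
  have hfin : Set.Finite {x : ℝ | ∃ v ∈ F.V, x = 1 / (1 + ∑ r, bary F r * (v r : ℝ))} := by
    have h1 : {x : ℝ | ∃ v ∈ F.V, x = 1 / (1 + ∑ r, bary F r * (v r : ℝ))} =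
        (fun v : Fin n → ℤ => 1 / (1 + ∑ r, bary F r * (v r : ℝ))) '' {v | v ∈ F.V} := by
      ext x
      constructor
      · rintro ⟨v, hv, rfl⟩; exact ⟨v, hv, rfl⟩
      · rintro ⟨v, hv, rfl⟩; exact ⟨v, hv, rfl⟩
    rw [h1]
    exact (Finset.finite_toSet F.V).image _
  have hne : Set.Nonempty {x : ℝ | ∃ v ∈ F.V, x = 1 / (1 + ∑ r, bary F r * (v r : ℝ))} :=
    ⟨_, v1, hv1, rfl⟩
  obtain ⟨v0, hv0, h0⟩ := hne.csInf_mem hfin
  have h0' : deltaT F = 1 / (1 + ∑ r, bary F r * (v0 r : ℝ)) := h0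
  have hle : ∀ v ∈ F.V, deltaT F ≤ 1 / (1 + ∑ r, bary F r * (v r : ℝ)) := fun v hv =>
    csInf_le hfin.bddBelow ⟨v, hv, rfl⟩
  have hp0 := bary_pos F v0 hv0
  refine ⟨?_, ?_, ?_, v0, hv0, ?_⟩
  · rw [h0']; positivity
  · -- some v has nonnegative pairing with the barycentre
    have h2 : ∃ v ∈ F.V, 0 ≤ ∑ r, bary F r * (v r : ℝ) := by
      by_contra hcon
      push Not at hcon
      have h3 := pos_span F (fun r => -bary F r) (fun v hv => by
        have h4 := hcon v hv
        have h5 : ∑ r, -bary F r * (v r : ℝ) = -∑ r, bary F r * (v r : ℝ) := by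
          rw [← Finset.sum_neg_distrib]
          exact Finset.sum_congr rfl fun r _ => by ring
        rw [h5]; linarith)
      have h4 := hcon v1 hv1
      have h5 : ∑ r, bary F r * (v1 r : ℝ) = 0 := by
        refine Finset.sum_eq_zero fun r _ => ?_
        have h6 := congrFun h3 r
        simp only [Pi.zero_apply, neg_eq_zero] at h6
        rw [h6, zero_mul]
      linarith
    obtain ⟨v, hv, h3⟩ := h2
    refine (hle v hv).trans ?_
    rw [div_le_one (by linarith)]
    linarith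
  · intro v hv
    have h2 := bary_pos F v hv
    have h3 := hle v hv
    rwa [le_div_iff₀ h2] at h3
  · rw [h0']
    field_simp

/-- the admissible exponents are bounded -/
private lemma FFinal_bd (hn : 1 ≤ n) (F : FanoPolytope n) (k : ℕ) (hk : 1 ≤ k) (v : Fin n → ℤ)
    (hv : v ∈ F.V) (c : ℝ) (hc : c ∈ {c : ℝ | 0 ≤ c ∧ ∀ s : Sec F k → Fin n → Fin n → ℤ,
      (∀ j, s j ∈ Ch F) → LocallyIntegrable
        (fun z : Sec F k → Fin n → ℂ => ‖locEqT F k s z‖ ^ (-(2 * c)))}) :
    c ≤ 1 / (k * (1 + ∑ r, bk F k r * (v r : ℝ))) := by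
  obtain ⟨s, hs, i, hi⟩ := exists_chart_of_ray F v hv
  have h1 := hc.2 (fun _ => s) (fun _ => hs)
  have h2 : ¬ 1 ≤ c * k * (1 + ∑ r, bk F k r * (s i r : ℝ)) := fun h =>
    not_loc_int hn F k hk s hs i c h h1
  rw [hi] at h2
  push Not at h2
  have h3 := bk_pos F k hk v hv
  have hk' : (0 : ℝ) < k := by exact_mod_cast hk
  rw [le_div_iff₀ (by positivity)]
  linarith

theorem lct_upper (hn : 1 ≤ n) (F : FanoPolytope n) (k : ℕ) (hk : 1 ≤ k) (v : Fin n → ℤ)
    (hv : v ∈ F.V) : k * lctT F k * (1 + ∑ r, bk F k r * (v r : ℝ)) ≤ 1 := by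
  have h3 := bk_pos F k hk v hv
  have hk' : (0 : ℝ) < k := by exact_mod_cast hk
  have h4 : lctT F k ≤ 1 / (k * (1 + ∑ r, bk F k r * (v r : ℝ))) :=
    Real.sSup_le (fun c hc => FFinal_bd hn F k hk v hv c hc) (by positivity)
  rw [le_div_iff₀ (by positivity)] at h4
  linarith

/-- there are arbitrarily large k with -k K_X Cartier -/
theorem Car_neBot (F : FanoPolytope n) :
    (Filter.atTop ⊓ Filter.principal {k : ℕ | Car F k}).NeBot := by
  obtain ⟨m0, hm0, hcar, -⟩ := exists_index F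
  rw [Filter.inf_principal_neBot_iff]
  intro U hU
  obtain ⟨a, ha⟩ := Filter.mem_atTop_sets.1 hU
  exact ⟨m0 * a, ha _ (Nat.le_mul_of_pos_left a hm0), Car_mul F m0 a hcar⟩

private lemma FFinal_pair_tendsto (F : FanoPolytope n) (v : Fin n → ℤ) :
    Filter.Tendsto (fun k : ℕ => 1 + ∑ r, bk F k r * (v r : ℝ)) Filter.atTop
      (nhds (1 + ∑ r, bary F r * (v r : ℝ))) :=
  Filter.Tendsto.const_add _ (tendsto_finsetSum _ fun r _ => (bk_tendsto F r).mul_const _)

theorem toric_main (hn : 1 ≤ n) (F : FanoPolytope n) :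
    Filter.Tendsto (fun k : ℕ => (k : ℝ) * lctT F k)
      (Filter.atTop ⊓ Filter.principal {k : ℕ | Car F k}) (nhds (deltaT F)) := by
  obtain ⟨hd0, hd1, hdle, v0, hv0, hdeq⟩ := deltaT_spec hn F
  rw [tendsto_order]
  constructor
  · intro a ha
    -- lower bound
    obtain ⟨t, ht⟩ : ∃ t, t = (max a 0 + deltaT F) / 2 := ⟨_, rfl⟩
    have hm : max a 0 < deltaT F := max_lt ha hd0
    have ht0 : 0 ≤ t := by
      have := le_max_right a 0
      rw [ht]; linarith
    have hat : a < t := by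
      have := le_max_left a 0
      rw [ht]; linarith
    have htd : t < deltaT F := by rw [ht]; linarith
    have ht1 : t < 1 := lt_of_lt_of_le htd hd1
    obtain ⟨rho0, hrho⟩ : ∃ rho0, rho0 = (1 - t / deltaT F) / 2 := ⟨_, rfl⟩
    have htd' : t / deltaT F < 1 := by rw [div_lt_one hd0]; exact htd
    have hrho0 : 0 < rho0 := by rw [hrho]; linarith
    obtain ⟨k0, hk0⟩ := lower_bound hn F t rho0 ht0 ht1 hrho0
    have hev : ∀ᶠ k : ℕ in Filter.atTop, ∀ v ∈ F.V,
        t * (1 + ∑ r, bk F k r * (v r : ℝ)) ≤ 1 - rho0 := by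
      rw [Filter.eventually_all_finset]
      intro v hv
      have h1 : t * (1 + ∑ r, bary F r * (v r : ℝ)) < 1 - rho0 := by
        have h2 : t * (1 + ∑ r, bary F r * (v r : ℝ)) =
            t / deltaT F * (deltaT F * (1 + ∑ r, bary F r * (v r : ℝ))) := by
          field_simp
        have h3 : t / deltaT F * (deltaT F * (1 + ∑ r, bary F r * (v r : ℝ))) ≤
            t / deltaT F * 1 :=
          mul_le_mul_of_nonneg_left (hdle v hv) (div_nonneg ht0 hd0.le)
        rw [h2]
        rw [hrho]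
        linarith
      have h2 := ((FFinal_pair_tendsto F v).const_mul t).eventually_lt_const h1
      exact h2.mono fun k hk => hk.le
    rw [Filter.eventually_inf_principal]
    filter_upwards [hev, Filter.eventually_ge_atTop (max k0 1)] with k h1 h2 hcar
    have hk1 : 1 ≤ k := (le_max_right k0 1).trans h2
    have hk' : (0 : ℝ) < k := by exact_mod_cast hk1
    have h3 := hk0 k ((le_max_left k0 1).trans h2) hcar h1
    have h4 : t / k ≤ lctT F k :=
      le_csSup ⟨_, fun c hc => FFinal_bd hn F k hk1 v0 hv0 c hc⟩ ⟨by positivity, h3⟩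
    rw [div_le_iff₀ hk'] at h4
    linarith
  · intro a ha
    -- upper bound
    have hp0 := bary_pos F v0 hv0
    have h1 : 1 < a * (1 + ∑ r, bary F r * (v0 r : ℝ)) :=
      lt_of_eq_of_lt hdeq.symm (mul_lt_mul_of_pos_right ha hp0)
    have h2 := ((FFinal_pair_tendsto F v0).const_mul a).eventually_const_lt h1
    refine Filter.Eventually.filter_mono inf_le_left ?_
    filter_upwards [h2, Filter.eventually_ge_atTop 1] with k h3 hk
    have h4 := lct_upper hn F k hk v0 hv0
    have h5 := bk_pos F k hk v0 hv0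
    by_contra h6
    push Not at h6
    have h7 := mul_le_mul_of_nonneg_right h6 h5.le
    linarith

end GTor
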